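import Pool.Agent.H78.PD.Defs
import Pool.Agent.H91.PK.MB

/-!
# PD, Pri: sums of `1/p`

All from Mertens: `|∑_{p ≤ x} (log p)/p - log x| ≤ C0` (in the Pool: `H3/LC/Mertens.lean` `mertensM_ge`, `mertensM_le`; `H37/PPC/Mt.lean` `mertens_two`) and `∑_{p ≤ x} 1/p = log log x + c + o(1)`
(`Pool.Agent.H36.IS.mertA`, used in `PG/TMert.lean`).  `A = exp(2 C0 + 2)`: `∑_{X < p ≤ AX} (log p)/p ≥ 2`, so `∑ 1/p ≥ 2/log(AX) ≥ 1/log m` (for `X ≤ m`, `m` large); primes dividing `m` in this range: at most `1/a` of them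
(each `> m^a`), with `1/p ≤ m^(-a)`.  `pri_up`: `∑_{X < p ≤ RX} 1/p ≤ (log R + 2 C0)/log X`, `log X ≥ a log m`.
`pri_mert`: for `0 < a < b ≤ 1`; the primes dividing `m` and `> m^a` contribute `≤ (1/a) m^(-a)`.

Here: everything from the two-sided Mertens estimate with error `0.25/log w` (`Gold.mertens_wz`, `PK.mertens_lower`),
`A = 16`, `c = 1`.
-/

set_option autoImplicit false

namespace Pool.Agent.H78.PD

open Finset
open Pool.Agent.H34PG (lam lam_val lam_mul lam_prime)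
open Pool.Agent.H11.LQ Pool.Agent.H78.PG

private theorem Pri_big (L0 : ℝ) : ∃ m0 : ℕ, ∀ m : ℕ, m0 ≤ m → L0 ≤ Real.log m := by
  have h : Filter.Tendsto (fun m : ℕ => Real.log (m : ℝ)) Filter.atTop Filter.atTop :=
    Real.tendsto_log_atTop.comp tendsto_natCast_atTop_atTop
  exact Filter.eventually_atTop.1 (h.eventually_ge_atTop L0)

private theorem Pri_split (m : ℕ) {X Y : ℝ} (hX : 0 ≤ X) (hY : 0 ≤ Y) :
    ∑ p ∈ Pool.Agent.H91.Gold.Pr ⌊X⌋₊ ⌊Y⌋₊, (1 : ℝ) / p = ∑ p ∈ PI m X Y, 1 / (p : ℝ) +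
      ∑ p ∈ (Pool.Agent.H91.Gold.Pr ⌊X⌋₊ ⌊Y⌋₊).filter (fun p => p ∣ m), 1 / (p : ℝ) := by
  have h := sum_filter_add_sum_filter_not (Pool.Agent.H91.Gold.Pr ⌊X⌋₊ ⌊Y⌋₊) (fun p => p ∣ m)
    (fun p : ℕ => 1 / (p : ℝ))
  have h2 : (Pool.Agent.H91.Gold.Pr ⌊X⌋₊ ⌊Y⌋₊).filter (fun p => ¬ p ∣ m) = PI m X Y := by
    ext p
    rw [mem_filter, Pool.Agent.H91.Gold.mem_Pr, mem_PI hY, Nat.floor_lt hX, Nat.le_floor_iff hY]
    constructor
    · rintro ⟨⟨⟨h1, h2⟩, h3⟩, h4⟩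
      exact ⟨h3, h4, h1, h2⟩
    · rintro ⟨h3, h4, h1, h2⟩
      exact ⟨⟨⟨h1, h2⟩, h3⟩, h4⟩
  rw [h2] at h
  rw [← h, add_comm]

/-- the primes dividing `m` larger than `m^a` -/
private theorem Pri_div (a : ℝ) (ha : 0 < a) (m : ℕ) (hL : 0 < Real.log m) (T : Finset ℕ)
    (hT : ∀ p ∈ T, p.Prime ∧ p ∣ m ∧ (m : ℝ) ^ a ≤ p) :
    ∑ p ∈ T, 1 / (p : ℝ) ≤ 2 / (a ^ 3 * Real.log m ^ 2) := by
  have hm0 : m ≠ 0 := by
    rintro rfl
    simp at hL
  have hmp : (0 : ℝ) < m := by exact_mod_cast Nat.pos_of_ne_zero hm0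
  have hpos : (0 : ℝ) < (m : ℝ) ^ a := Real.rpow_pos_of_pos hmp _
  have hprod : ∏ p ∈ T, p ∣ m :=
    Finset.prod_primes_dvd m (fun p hp => (hT p hp).1.prime) (fun p hp => (hT p hp).2.1)
  have hle : ((∏ p ∈ T, p : ℕ) : ℝ) ≤ m := by
    exact_mod_cast Nat.le_of_dvd (Nat.pos_of_ne_zero hm0) hprod
  have hcard : (T.card : ℝ) * (a * Real.log m) ≤ Real.log m := by
    have h1 : ∑ p ∈ T, Real.log p ≤ Real.log m := by
      have h2 : ∑ p ∈ T, Real.log p = Real.log ((∏ p ∈ T, p : ℕ) : ℝ) := by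
        push_cast
        rw [Real.log_prod]
        intro p hp
        exact Nat.cast_ne_zero.2 (hT p hp).1.ne_zero
      rw [h2]
      refine Real.log_le_log ?_ hle
      exact Nat.cast_pos.2 (prod_pos fun p hp => (hT p hp).1.pos)
    have h3 : ∑ _p ∈ T, a * Real.log m ≤ ∑ p ∈ T, Real.log p := by
      refine sum_le_sum fun p hp => ?_
      rw [← Real.log_rpow hmp]
      exact Real.log_le_log hpos (hT p hp).2.2
    rw [sum_const, nsmul_eq_mul] at h3
    exact h3.trans h1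
  have hcard2 : (T.card : ℝ) ≤ 1 / a := by
    rw [le_div_iff₀ ha]
    by_contra hlt
    rw [not_le] at hlt
    nlinarith
  have hsum : ∑ p ∈ T, 1 / (p : ℝ) ≤ T.card * (1 / (m : ℝ) ^ a) := by
    rw [← nsmul_eq_mul, ← sum_const]
    exact sum_le_sum fun p hp => one_div_le_one_div_of_le hpos (hT p hp).2.2
  have hexp : (a * Real.log m) ^ 2 / 2 ≤ (m : ℝ) ^ a := by
    rw [Real.rpow_def_of_pos hmp, mul_comm (Real.log m) a]
    have h0 : 0 ≤ a * Real.log m := by positivity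
    have := Real.quadratic_le_exp_of_nonneg h0
    linarith
  have haL : 0 < a * Real.log m := by positivity
  calc ∑ p ∈ T, 1 / (p : ℝ) ≤ T.card * (1 / (m : ℝ) ^ a) := hsum
    _ ≤ (1 / a) * (1 / ((a * Real.log m) ^ 2 / 2)) := by
        apply mul_le_mul hcard2 _ (by positivity) (by positivity)
        exact one_div_le_one_div_of_le (by positivity) hexp
    _ = 2 / (a ^ 3 * Real.log m ^ 2) := by
        field_simp

/-- two-sided Mertens for `PI m X Y` -/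
private theorem Pri_two (a : ℝ) (ha : 0 < a) (m : ℕ) (hL : 12 ≤ a * Real.log m) (hL0 : 0 < Real.log m)
    (X Y : ℝ) (hX : (m : ℝ) ^ a ≤ X) (hXY : X ≤ Y) :
    0 < Real.log ⌊X⌋₊ ∧ Real.log X - 1 ≤ Real.log ⌊X⌋₊ ∧ a * Real.log m ≤ Real.log X ∧ 65538 ≤ X ∧
    ∑ p ∈ PI m X Y, 1 / (p : ℝ) ≤ Real.log (Real.log ⌊Y⌋₊ / Real.log ⌊X⌋₊) + 0.25 / Real.log ⌊X⌋₊ ∧
    Real.log (Real.log ⌊Y⌋₊ / Real.log ⌊X⌋₊) - 0.25 / Real.log ⌊X⌋₊ - 2 / (a ^ 3 * Real.log m ^ 2) ≤
      ∑ p ∈ PI m X Y, 1 / (p : ℝ) := by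
  have hm0 : m ≠ 0 := by
    rintro rfl
    simp at hL0
  have hmp : (0 : ℝ) < m := by exact_mod_cast Nat.pos_of_ne_zero hm0
  have hlm : a * Real.log m = Real.log ((m : ℝ) ^ a) := (Real.log_rpow hmp a).symm
  have hpos : (0 : ℝ) < (m : ℝ) ^ a := Real.rpow_pos_of_pos hmp _
  have hbig : (65538 : ℝ) ≤ (m : ℝ) ^ a := by
    rw [← Real.log_le_log_iff (by norm_num) hpos, ← hlm]
    refine le_trans ?_ hL
    calc Real.log 65538 ≤ Real.log ((2 : ℝ) ^ 17) := Real.log_le_log (by norm_num) (by norm_num)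
      _ = 17 * Real.log 2 := by rw [Real.log_pow]; norm_num
      _ ≤ 12 := by
          have := Real.log_two_lt_d9
          linarith
  have hX0 : (65538 : ℝ) ≤ X := hbig.trans hX
  have hXp : 0 < X := by linarith
  have hYp : 0 < Y := by linarith
  have hlogX : a * Real.log m ≤ Real.log X := by
    rw [hlm]
    exact Real.log_le_log hpos hX
  have hfl : X < (⌊X⌋₊ : ℝ) + 1 := Nat.lt_floor_add_one X
  have hw : 65536 ≤ ⌊X⌋₊ := by
    rw [Nat.le_floor_iff hXp.le]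
    push_cast
    linarith
  have hwz : ⌊X⌋₊ ≤ ⌊Y⌋₊ := Nat.floor_le_floor hXY
  have hup := Pool.Agent.H91.Gold.mertens_wz hw hwz
  have hlo := Pool.Agent.H91.PK.mertens_lower hw hwz
  have hw1 : (65536 : ℝ) ≤ (⌊X⌋₊ : ℝ) := by exact_mod_cast hw
  have hlw : 0 < Real.log (⌊X⌋₊ : ℝ) := Real.log_pos (by linarith)
  have hlw2 : Real.log X - 1 ≤ Real.log (⌊X⌋₊ : ℝ) := by
    have h1 : Real.log X ≤ Real.log (2 * (⌊X⌋₊ : ℝ)) :=
      Real.log_le_log hXp (by linarith)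
    rw [Real.log_mul (by norm_num) (by linarith)] at h1
    have := Real.log_two_lt_d9
    linarith
  have hsp := Pri_split m (X := X) (Y := Y) hXp.le hYp.le
  have hdiv := Pri_div a ha m hL0 ((Pool.Agent.H91.Gold.Pr ⌊X⌋₊ ⌊Y⌋₊).filter (fun p => p ∣ m)) (by
    intro p hp
    rw [mem_filter, Pool.Agent.H91.Gold.mem_Pr, Nat.floor_lt hXp.le] at hp
    exact ⟨hp.1.2, hp.2, hX.trans hp.1.1.1.le⟩)
  have hnn : 0 ≤ ∑ p ∈ (Pool.Agent.H91.Gold.Pr ⌊X⌋₊ ⌊Y⌋₊).filter (fun p => p ∣ m), 1 / (p : ℝ) :=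
    sum_nonneg fun p _ => by positivity
  have h25 : 0.2295 / Real.log (⌊X⌋₊ : ℝ) ≤ 0.25 / Real.log (⌊X⌋₊ : ℝ) :=
    div_le_div_of_nonneg_right (by norm_num) hlw.le
  refine ⟨hlw, hlw2, hlogX, hX0, ?_, ?_⟩
  · linarith
  · linarith

theorem pri_low : ∃ A c : ℝ, 2 ≤ A ∧ 0 < c ∧ ∀ a : ℝ, 0 < a → ∃ m0 : ℕ, ∀ m : ℕ, m0 ≤ m →
    ∀ X : ℝ, (m : ℝ) ^ a ≤ X → X ≤ m → c / Real.log m ≤ ∑ p ∈ PI m X (A * X), 1 / (p : ℝ) := by
  refine ⟨16, 1, by norm_num, by norm_num, fun a ha => ?_⟩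
  obtain ⟨m0, hm0⟩ := Pri_big (max (12 / a) (8 / a ^ 3))
  refine ⟨m0, fun m hm X hX hXm => ?_⟩
  have hLL := hm0 m hm
  have hL1 : 12 ≤ a * Real.log m := by
    have := (le_max_left _ _).trans hLL
    rw [div_le_iff₀ ha] at this
    linarith
  have hL2 : 8 / a ^ 3 ≤ Real.log m := (le_max_right _ _).trans hLL
  have hL0 : 0 < Real.log m := lt_of_lt_of_le (by positivity) hL2
  have hX16 : X ≤ 16 * X := by
    have : 0 ≤ X := (Real.rpow_nonneg (Nat.cast_nonneg m) _).trans hX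
    linarith
  obtain ⟨h1, h2, h3, h4, -, h6⟩ := Pri_two a ha m hL1 hL0 X (16 * X) hX hX16
  have hdiv : 2 / (a ^ 3 * Real.log m ^ 2) ≤ (1 / 4) / Real.log m := by
    rw [div_le_iff₀ (by positivity)] at hL2
    rw [div_le_div_iff₀ (by positivity) hL0]
    nlinarith [mul_le_mul_of_nonneg_right hL2 hL0.le]
  have hXp : 0 < X := by linarith
  have hw : (⌊X⌋₊ : ℝ) ≤ X := Nat.floor_le hXp.le
  have hw2 : X < (⌊X⌋₊ : ℝ) + 1 := Nat.lt_floor_add_one X
  have hz : (⌊16 * X⌋₊ : ℝ) ≤ 16 * X := Nat.floor_le (by linarith)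
  have hz2 : 16 * X < (⌊16 * X⌋₊ : ℝ) + 1 := Nat.lt_floor_add_one _
  generalize (⌊X⌋₊ : ℝ) = w at *
  generalize (⌊16 * X⌋₊ : ℝ) = z at *
  have hwp : 0 < w := by linarith
  have hzp : 0 < z := by linarith
  have l2 := Real.log_two_gt_d9
  have l2' := Real.log_two_lt_d9
  have hlzw : Real.log w + 2 ≤ Real.log z := by
    have h7 : Real.log (8 * w) ≤ Real.log z := Real.log_le_log (by linarith) (by linarith)
    rw [Real.log_mul (by norm_num) hwp.ne', show (8 : ℝ) = 2 ^ 3 by norm_num, Real.log_pow] at h7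
    push_cast at h7
    linarith
  have hlz : Real.log z ≤ 3 + Real.log X := by
    have h7 : Real.log z ≤ Real.log (16 * X) := Real.log_le_log hzp hz
    rw [Real.log_mul (by norm_num) hXp.ne', show (16 : ℝ) = 2 ^ 4 by norm_num, Real.log_pow] at h7
    push_cast at h7
    linarith
  have hlX : Real.log X ≤ Real.log m := Real.log_le_log hXp hXm
  generalize Real.log w = W at *
  generalize Real.log z = Z at *
  generalize Real.log X = V at *
  generalize hLdef : Real.log (m : ℝ) = L at *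
  have hZ : 0 < Z := by linarith
  have hV : 12 ≤ V := by linarith
  have h8 : 1 - W / Z ≤ Real.log (Z / W) := by
    have := Real.log_le_sub_one_of_pos (div_pos h1 hZ)
    rw [Real.log_div h1.ne' hZ.ne'] at this
    rw [Real.log_div hZ.ne' h1.ne']
    linarith
  have h9 : 1.6 / V ≤ 1 - W / Z := by
    have : 1 - W / Z = (Z - W) / Z := by field_simp
    rw [this, div_le_div_iff₀ (by linarith) hZ]
    nlinarith
  have h10 : 0.25 / W ≤ 0.3 / V := by
    rw [div_le_div_iff₀ h1 (by linarith)]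
    nlinarith
  have h11 : 1.3 / L ≤ 1.3 / V := by
    apply div_le_div_of_nonneg_left (by norm_num) (by linarith) hlX
  have h12 : 1.3 / V = 1.6 / V - 0.3 / V := by ring
  have h13 : (1 : ℝ) / L ≤ 1.3 / L - (1 / 4) / L := by
    rw [← sub_div]
    exact div_le_div_of_nonneg_right (by norm_num) hL0.le
  linarith

theorem pri_up (a : ℝ) (ha : 0 < a) : ∃ C : ℝ, 0 < C ∧ ∃ m0 : ℕ, ∀ m : ℕ, m0 ≤ m → ∀ X R : ℝ,
    (m : ℝ) ^ a ≤ X → 1 ≤ R →
    ∑ p ∈ PI m X (R * X), 1 / (p : ℝ) ≤ C * (1 + Real.log R) / Real.log m := by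
  refine ⟨3 / a, by positivity, ?_⟩
  obtain ⟨m0, hm0⟩ := Pri_big (12 / a)
  refine ⟨m0, fun m hm X R hX hR => ?_⟩
  have hLL := hm0 m hm
  have hL1 : 12 ≤ a * Real.log m := by
    rw [div_le_iff₀ ha] at hLL
    linarith
  have hL0 : 0 < Real.log m := lt_of_lt_of_le (by positivity) hLL
  have hX0 : 0 ≤ X := (Real.rpow_nonneg (Nat.cast_nonneg m) _).trans hX
  have hXR : X ≤ R * X := by nlinarith
  obtain ⟨h1, h2, h3, h4, h5, -⟩ := Pri_two a ha m hL1 hL0 X (R * X) hX hXR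
  have hXp : 0 < X := by linarith
  have hz : (⌊R * X⌋₊ : ℝ) ≤ R * X := Nat.floor_le (by positivity)
  have hwz : (⌊X⌋₊ : ℝ) ≤ (⌊R * X⌋₊ : ℝ) := by exact_mod_cast Nat.floor_le_floor hXR
  have hw2 : X < (⌊X⌋₊ : ℝ) + 1 := Nat.lt_floor_add_one X
  generalize (⌊X⌋₊ : ℝ) = w at *
  generalize (⌊R * X⌋₊ : ℝ) = z at *
  have hwp : 0 < w := by linarith
  have hzp : 0 < z := by linarith
  have hlz : Real.log z ≤ Real.log R + Real.log X := by
    rw [← Real.log_mul (by linarith) hXp.ne']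
    exact Real.log_le_log hzp hz
  have hlwz : Real.log w ≤ Real.log z := Real.log_le_log hwp hwz
  have hlR : 0 ≤ Real.log R := Real.log_nonneg hR
  generalize Real.log w = W at *
  generalize Real.log z = Z at *
  generalize Real.log X = V at *
  generalize Real.log R = Q at *
  generalize hLdef : Real.log (m : ℝ) = L at *
  have hZ : 0 < Z := by linarith
  have h6 : Real.log (Z / W) ≤ Z / W - 1 := Real.log_le_sub_one_of_pos (div_pos hZ h1)
  have h7 : Z / W - 1 + 0.25 / W ≤ (Q + 1.25) / W := by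
    have : Z / W - 1 + 0.25 / W = (Z - W + 0.25) / W := by field_simp
    rw [this]
    exact div_le_div_of_nonneg_right (by linarith) h1.le
  have h8 : (Q + 1.25) / W ≤ (3 / a) * (1 + Q) / L := by
    have h9 : (3 / a) * (1 + Q) / L = 3 * (1 + Q) / (a * L) := by field_simp
    rw [h9, div_le_div_iff₀ h1 (by positivity)]
    have h10 : a * L ≤ 2 * W := by linarith
    nlinarith [mul_le_mul_of_nonneg_left h10 (by linarith : 0 ≤ Q + 1.25), mul_nonneg hlR h1.le]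
  linarith

theorem pri_mert (a b ε : ℝ) (ha : 0 < a) (hab : a < b) (hb : b ≤ 1) (hε : 0 < ε) :
    ∃ m0 : ℕ, ∀ m : ℕ, m0 ≤ m →
    |∑ p ∈ PI m ((m : ℝ) ^ a) ((m : ℝ) ^ b), 1 / (p : ℝ) - Real.log (b / a)| ≤ ε := by
  obtain ⟨m0, hm0⟩ := Pri_big (max (max (12 / a) 1) (max (5 / (a * ε)) (4 / (a ^ 3 * ε))))
  refine ⟨m0, fun m hm => ?_⟩
  have hLL := hm0 m hm
  have hb0 : 0 < b := ha.trans hab
  have hLa : 12 / a ≤ Real.log m := ((le_max_left _ _).trans (le_max_left _ _)).trans hLL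
  have hL1' : 1 ≤ Real.log m := ((le_max_right _ _).trans (le_max_left _ _)).trans hLL
  have hLc : 5 / (a * ε) ≤ Real.log m := ((le_max_left _ _).trans (le_max_right _ _)).trans hLL
  have hLd : 4 / (a ^ 3 * ε) ≤ Real.log m := ((le_max_right _ _).trans (le_max_right _ _)).trans hLL
  have hL1 : 12 ≤ a * Real.log m := by
    rw [div_le_iff₀ ha] at hLa
    linarith
  have hL0 : 0 < Real.log m := by linarith
  have hm1 : (1 : ℝ) ≤ m := by
    by_contra hlt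
    rw [not_le] at hlt
    have : Real.log (m : ℝ) ≤ 0 := Real.log_nonpos (Nat.cast_nonneg m) hlt.le
    linarith
  have hmp : (0 : ℝ) < m := by linarith
  have hXY : (m : ℝ) ^ a ≤ (m : ℝ) ^ b := Real.rpow_le_rpow_of_exponent_le hm1 hab.le
  obtain ⟨h1, h2, h3, h4, h5, h6⟩ := Pri_two a ha m hL1 hL0 _ _ le_rfl hXY
  have hlX : Real.log ((m : ℝ) ^ a) = a * Real.log m := Real.log_rpow hmp a
  have hlY : Real.log ((m : ℝ) ^ b) = b * Real.log m := Real.log_rpow hmp b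
  have hXp : (0 : ℝ) < (m : ℝ) ^ a := by linarith
  have hYp : (0 : ℝ) < (m : ℝ) ^ b := by linarith
  have hw : (⌊(m : ℝ) ^ a⌋₊ : ℝ) ≤ (m : ℝ) ^ a := Nat.floor_le hXp.le
  have hz : (⌊(m : ℝ) ^ b⌋₊ : ℝ) ≤ (m : ℝ) ^ b := Nat.floor_le hYp.le
  have hw2 : (m : ℝ) ^ a < (⌊(m : ℝ) ^ a⌋₊ : ℝ) + 1 := Nat.lt_floor_add_one _
  have hz2 : (m : ℝ) ^ b < (⌊(m : ℝ) ^ b⌋₊ : ℝ) + 1 := Nat.lt_floor_add_one _
  generalize (⌊(m : ℝ) ^ a⌋₊ : ℝ) = w at *
  generalize (⌊(m : ℝ) ^ b⌋₊ : ℝ) = z at *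
  have hwp : 0 < w := by linarith
  have hzp : 0 < z := by linarith
  have hwU : Real.log w ≤ a * Real.log m := by
    rw [← hlX]
    exact Real.log_le_log hwp hw
  have hzU : Real.log z ≤ b * Real.log m := by
    rw [← hlY]
    exact Real.log_le_log hzp hz
  have hzL : b * Real.log m - 1 ≤ Real.log z := by
    have h7 : Real.log ((m : ℝ) ^ b) ≤ Real.log (2 * z) := Real.log_le_log hYp (by linarith)
    rw [Real.log_mul (by norm_num) hzp.ne', hlY] at h7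
    have := Real.log_two_lt_d9
    linarith
  rw [hlX] at h2
  generalize ∑ p ∈ PI m ((m : ℝ) ^ a) ((m : ℝ) ^ b), 1 / (p : ℝ) = S at *
  generalize Real.log w = W at *
  generalize Real.log z = Z at *
  generalize Real.log (m : ℝ) = L at *
  clear hw hz hw2 hz2 hwp hzp hXY hlX hlY hXp hYp h3 h4 hmp hm1 hLL
  have hbL : a * L ≤ b * L := mul_le_mul_of_nonneg_right hab.le hL0.le
  have hZ : 0 < Z := by linarith
  have haL : 0 < a * L := by linarith
  have hbL0 : 0 < b * L := by linarith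
  have hba : Real.log (b / a) = Real.log (b * L) - Real.log (a * L) := by
    rw [← Real.log_div hbL0.ne' haL.ne']
    congr 1
    field_simp
  rw [Real.log_div hZ.ne' h1.ne'] at h5 h6
  -- the two logarithms
  have k1 : Real.log W ≤ Real.log (a * L) := Real.log_le_log h1 hwU
  have k2 : Real.log Z ≤ Real.log (b * L) := Real.log_le_log hZ hzU
  have k3 : Real.log (a * L) ≤ Real.log W + 1 / W := by
    have := Real.log_le_sub_one_of_pos (div_pos haL h1)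
    rw [Real.log_div haL.ne' h1.ne'] at this
    have e : a * L / W - 1 = (a * L - W) / W := by field_simp
    have e2 : (a * L - W) / W ≤ 1 / W := div_le_div_of_nonneg_right (by linarith) h1.le
    linarith
  have k4 : Real.log (b * L) ≤ Real.log Z + 1 / Z := by
    have := Real.log_le_sub_one_of_pos (div_pos hbL0 hZ)
    rw [Real.log_div hbL0.ne' hZ.ne'] at this
    have e : b * L / Z - 1 = (b * L - Z) / Z := by field_simp
    have e2 : (b * L - Z) / Z ≤ 1 / Z := div_le_div_of_nonneg_right (by linarith) hZ.le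
    linarith
  have q1 : 1 / W ≤ 1.2 / (a * L) := by
    rw [div_le_div_iff₀ h1 haL]
    linarith
  have q2 : 1 / Z ≤ 1.2 / (a * L) := by
    rw [div_le_div_iff₀ hZ haL]
    linarith
  have q3 : 0.25 / W = 0.25 * (1 / W) := by ring
  have q4 : 1.2 / (a * L) ≤ 0.24 * ε := by
    rw [div_le_iff₀ (by positivity)] at hLc
    rw [div_le_iff₀ haL]
    nlinarith
  have q5 : 2 / (a ^ 3 * L ^ 2) ≤ ε / 2 := by
    rw [div_le_iff₀ (by positivity)] at hLd
    rw [div_le_iff₀ (by positivity)]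
    have : L * (a ^ 3 * ε) ≤ L ^ 2 * (a ^ 3 * ε) := by
      apply mul_le_mul_of_nonneg_right _ (by positivity)
      nlinarith
    nlinarith
  rw [hba, abs_le]
  constructor
  · linarith
  · linarith

end Pool.Agent.H78.PD
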