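import Pool.Agent.H78.PD.SivA

/-!
# PD, SivB: the mean value and the Buchstab step (copy of the parts of `H76/TP/TyM.lean`, `Buc.lean` which are used, without their imports)
-/

set_option autoImplicit false

namespace Pool.Agent.H78.PD.SL

open Finset

/-- the number of the multiples of `n` in `(x, x + l]` -/
private theorem TyM_card (n x l : ℕ) :
    (((Ioc x (x + l)).filter (fun m => n ∣ m)).card : ℝ) = ((x + l) / n : ℕ) - (x / n : ℕ) := by
  have h1 : (Ioc 0 (x + l)).filter (fun m => n ∣ m) =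
      (Ioc 0 x).filter (fun m => n ∣ m) ∪ (Ioc x (x + l)).filter (fun m => n ∣ m) := by
    rw [← filter_union, Ioc_union_Ioc_eq_Ioc (Nat.zero_le x) (Nat.le_add_right x l)]
  have h2 : Disjoint ((Ioc 0 x).filter (fun m => n ∣ m))
      ((Ioc x (x + l)).filter (fun m => n ∣ m)) := by
    refine disjoint_filter_filter ?_
    rw [disjoint_left]
    intro a ha hb
    rw [mem_Ioc] at ha hb
    omega
  have h3 := card_union_of_disjoint h2
  rw [← h1, Nat.Ioc_filter_dvd_card_eq_div, Nat.Ioc_filter_dvd_card_eq_div] at h3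
  rw [h3]
  push_cast
  ring

private theorem TyM_div (n x : ℕ) (hn : 1 ≤ n) :
    ((x / n : ℕ) : ℝ) ≤ (x : ℝ) / n ∧ (x : ℝ) / n < ((x / n : ℕ) : ℝ) + 1 := by
  have hn' : (0 : ℝ) < n := by exact_mod_cast hn
  constructor
  · exact Nat.cast_div_le
  · rw [div_lt_iff₀ hn']
    have h1 : x < (x / n + 1) * n := by
      rw [mul_comm]
      exact Nat.lt_mul_div_succ x hn
    exact_mod_cast h1

private theorem TyM_card_abs (n x l : ℕ) (hn : 1 ≤ n) :
    |(((Ioc x (x + l)).filter (fun m => n ∣ m)).card : ℝ) - (l : ℝ) / n| ≤ 1 := by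
  rw [TyM_card]
  have h1 := TyM_div n (x + l) hn
  have h2 := TyM_div n x hn
  have h3 : ((x + l : ℕ) : ℝ) / n = (x : ℝ) / n + (l : ℝ) / n := by
    push_cast
    ring
  rw [h3] at h1
  rw [abs_le]
  constructor <;> linarith [h1.1, h1.2, h2.1, h2.2]

private theorem TyM_omega (n : ℕ) (hn : 1 ≤ n) : (3 : ℝ) ^ n.primeFactors.card ≤ 3 / 2 * n := by
  have h0 : ∏ p ∈ n.primeFactors, p ≤ n := Nat.le_of_dvd hn (Nat.prod_primeFactors_dvd n)
  have h1 : 3 ^ (n.primeFactors.erase 2).card ≤ ∏ p ∈ n.primeFactors.erase 2, p := by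
    rw [← prod_const]
    refine prod_le_prod' fun p hp => ?_
    rw [mem_erase] at hp
    have h2 := (Nat.prime_of_mem_primeFactors hp.2).two_le
    omega
  have h2 : 2 * 3 ^ n.primeFactors.card ≤ 3 * n := by
    by_cases h : 2 ∈ n.primeFactors
    · have h3 : ∏ p ∈ n.primeFactors, p = 2 * ∏ p ∈ n.primeFactors.erase 2, p :=
        (mul_prod_erase _ _ h).symm
      have h4 : n.primeFactors.card = (n.primeFactors.erase 2).card + 1 :=
        (card_erase_add_one h).symm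
      rw [h4, pow_succ]
      omega
    · rw [erase_eq_of_notMem h] at h1
      omega
  have h3 : (2 : ℝ) * 3 ^ n.primeFactors.card ≤ 3 * n := by exact_mod_cast h2
  linarith

private theorem TyM_sum_abs (Q : ℕ) (g S : ℕ → ℝ) (hg : Adm Q g S) :
    ∑ n ∈ Icc 1 Q, |g n| ≤ 3 / 2 * (Q : ℝ) ^ 2 := by
  have h1 : ∀ n ∈ Icc 1 Q, |g n| ≤ 3 / 2 * (Q : ℝ) := by
    intro n hn
    rw [mem_Icc] at hn
    have h2 : (n : ℝ) ≤ Q := by exact_mod_cast hn.2
    linarith [hg.2.1 n, TyM_omega n hn.1]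
  calc ∑ n ∈ Icc 1 Q, |g n| ≤ (Icc 1 Q).card • (3 / 2 * (Q : ℝ)) := sum_le_card_nsmul _ _ _ h1
    _ = 3 / 2 * (Q : ℝ) ^ 2 := by
      rw [Nat.card_Icc, nsmul_eq_mul, Nat.add_sub_cancel]
      ring

/-- the mean value -/
theorem tyI_mean (Q : ℕ) (g S : ℕ → ℝ) (hQ : 1 ≤ Q) (hg : Adm Q g S) (x l : ℕ) :
    |∑ m ∈ Ioc x (x + l), S m - l * ∑ n ∈ Icc 1 Q, g n / n| ≤ 6 * (Q : ℝ) ^ 2 := by
  have h1 : ∑ m ∈ Ioc x (x + l), S m =
      ∑ n ∈ Icc 1 Q, g n * ((Ioc x (x + l)).filter (fun m => n ∣ m)).card := by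
    have h2 : ∀ m ∈ Ioc x (x + l), S m = ∑ n ∈ Icc 1 Q, if n ∣ m then g n else 0 := by
      intro m hm
      rw [mem_Ioc] at hm
      rw [hg.2.2 m (by omega), sum_filter]
    rw [sum_congr rfl h2, sum_comm]
    refine sum_congr rfl fun n _ => ?_
    rw [← sum_filter, sum_const, nsmul_eq_mul, mul_comm]
  rw [h1, mul_sum, ← sum_sub_distrib]
  have h2 : ∀ n ∈ Icc 1 Q, |g n * ((Ioc x (x + l)).filter (fun m => n ∣ m)).card -
      l * (g n / n)| ≤ |g n| := by
    intro n hn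
    rw [mem_Icc] at hn
    have h3 := TyM_card_abs n x l hn.1
    have h4 : g n * ((Ioc x (x + l)).filter (fun m => n ∣ m)).card - l * (g n / n) =
        g n * ((((Ioc x (x + l)).filter (fun m => n ∣ m)).card : ℝ) - (l : ℝ) / n) := by ring
    rw [h4, abs_mul]
    exact mul_le_of_le_one_right (abs_nonneg _) h3
  refine (abs_sum_le_sum_abs _ _).trans ((sum_le_sum h2).trans ?_)
  have h3 := TyM_sum_abs Q g S hg
  nlinarith [sq_nonneg (Q : ℝ)]

private theorem buc_rg_nonneg (y k : ℕ) : 0 ≤ rg y k := by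
  unfold rg; split_ifs <;> norm_num

private theorem buc_step (w y m : ℕ) (hm : 1 ≤ m) :
    rg w m ≤ rg y m + ∑ p ∈ PY w y, if p ∣ m then rg (p - 1) (m / p) else 0 := by
  have hs : ∀ p ∈ PY w y, 0 ≤ (if p ∣ m then rg (p - 1) (m / p) else 0) := by
    intro p _
    split_ifs
    · exact buc_rg_nonneg _ _
    · exact le_rfl
  have hs0 := sum_nonneg hs
  by_cases h : ∀ p : ℕ, p.Prime → p ∣ m → w < p
  · have h1 : rg w m = 1 := by unfold rg; rw [if_pos h]
    by_cases h2 : ∀ p : ℕ, p.Prime → p ∣ m → y < p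
    · have h3 : rg y m = 1 := by unfold rg; rw [if_pos h2]
      rw [h1, h3]
      linarith
    · push Not at h2
      obtain ⟨p0, hp0, hpm, hpy⟩ := h2
      have hm1 : m ≠ 1 := by
        rintro rfl
        exact hp0.one_lt.ne' (Nat.dvd_one.1 hpm)
      have hp : (m.minFac).Prime := Nat.minFac_prime hm1
      have hpd : m.minFac ∣ m := Nat.minFac_dvd m
      have hle : m.minFac ≤ p0 := Nat.minFac_le_of_dvd hp0.two_le hpm
      have hw := h _ hp hpd
      have hmem : m.minFac ∈ PY w y := by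
        unfold PY
        rw [mem_filter, mem_Ioc]
        exact ⟨⟨hw, hle.trans hpy⟩, hp⟩
      have h4 := single_le_sum hs hmem
      simp only [if_pos hpd] at h4
      have h5 : rg (m.minFac - 1) (m / m.minFac) = 1 := by
        unfold rg
        rw [if_pos]
        intro q hq hqd
        have h6 : q ∣ m := hqd.trans (Nat.div_dvd_of_dvd hpd)
        have h7 := Nat.minFac_le_of_dvd hq.two_le h6
        have h8 := hp.two_le
        omega
      rw [h5] at h4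
      have h9 := buc_rg_nonneg y m
      rw [h1]
      linarith
  · have h1 : rg w m = 0 := by unfold rg; rw [if_neg h]
    rw [h1]
    have h9 := buc_rg_nonneg y m
    linarith

private theorem buc_card_sum (V : Finset ℕ) (k : ℕ) (F : ℕ → ℝ) :
    ∑ T ∈ V.powerset.filter (fun T => T.card ≤ k), F T.card =
      ∑ j ∈ range (k + 1), (V.card.choose j : ℝ) * F j := by
  rw [← Finset.sum_fiberwise_of_maps_to (s := V.powerset.filter (fun T => T.card ≤ k)) (t := range (k + 1))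
    (g := fun T => T.card) (f := fun T => F T.card)]
  · refine sum_congr rfl fun j hj => ?_
    have h1 : ((V.powerset.filter (fun T => T.card ≤ k)).filter (fun T => T.card = j)) = powersetCard j V := by
      ext T
      rw [mem_range] at hj
      simp only [mem_filter, mem_powerset, mem_powersetCard]
      constructor
      · rintro ⟨⟨h1, _⟩, h3⟩
        exact ⟨h1, h3⟩
      · rintro ⟨h1, h3⟩
        exact ⟨⟨h1, by omega⟩, h3⟩
    rw [h1, sum_congr rfl (g := fun _ => F j)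
      (fun T hT => by rw [(mem_powersetCard.1 hT).2]), sum_const, card_powersetCard, nsmul_eq_mul]
  · intro T hT
    rw [mem_filter] at hT
    rw [mem_range]
    omega

private theorem buc_bonf (V : Finset ℕ) (r : ℕ) :
    ∑ T ∈ V.powerset.filter (fun T => T.card ≤ 2 * r + 1), (-1 : ℝ) ^ T.card ≤ if V = ∅ then 1 else 0 := by
  rw [buc_card_sum V (2 * r + 1) (fun j => (-1 : ℝ) ^ j)]
  split_ifs with h
  · subst h
    rw [card_empty, sum_range_succ']
    simp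
  · obtain ⟨n, hn⟩ : ∃ n, V.card = n + 1 := ⟨V.card - 1, by
      have := card_pos.2 (nonempty_iff_ne_empty.2 h); omega⟩
    rw [hn]
    have h1 := @Int.alternating_sum_range_choose_eq_choose n (2 * r + 1)
    have h2 : ((∑ k ∈ range (2 * r + 1 + 1), ((-1) ^ k * (n + 1).choose k : ℤ) : ℤ) : ℝ) =
        (((-1) ^ (2 * r + 1) * n.choose (2 * r + 1) : ℤ) : ℝ) := by rw [h1]
    push_cast at h2
    have h3 : ∑ j ∈ range (2 * r + 1 + 1), ((n + 1).choose j : ℝ) * (-1 : ℝ) ^ j =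
        (-1) ^ (2 * r + 1) * (n.choose (2 * r + 1) : ℝ) := by
      rw [← h2]
      exact sum_congr rfl fun j _ => mul_comm _ _
    rw [h3]
    have h4 : ((-1 : ℝ)) ^ (2 * r + 1) = -1 := Odd.neg_one_pow ⟨r, rfl⟩
    rw [h4]
    have : (0 : ℝ) ≤ (n.choose (2 * r + 1) : ℝ) := by positivity
    linarith

private theorem buc_card_le (V : Finset ℕ) (k : ℕ) :
    ((V.powerset.filter (fun T => T.card ≤ k)).card : ℝ) ≤ ((V.card : ℝ) + 1) ^ k := by
  have h := buc_card_sum V k (fun _ => 1)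
  simp only [sum_const, nsmul_eq_mul, mul_one] at h
  rw [h, add_pow]
  refine sum_le_sum fun j hj => ?_
  rw [one_pow, mul_one]
  have hj' : j ≤ k := by rw [mem_range] at hj; omega
  have h1 : ((V.card.choose j : ℕ) : ℝ) ≤ (V.card : ℝ) ^ j := by
    exact_mod_cast Nat.choose_le_pow V.card j
  have h2 : (1 : ℝ) ≤ (k.choose j : ℝ) := by
    exact_mod_cast Nat.choose_pos hj'
  have h3 : (0 : ℝ) ≤ (V.card : ℝ) ^ j := by positivity
  nlinarith

private theorem buc_reindex (x l p : ℕ) (hp : 1 ≤ p) (f : ℕ → ℝ) :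
    ∑ m ∈ Ioc x (x + l), (if p ∣ m then f (m / p) else 0) = ∑ m ∈ Ioc (x / p) ((x + l) / p), f m := by
  rw [← sum_filter]
  refine sum_nbij' (fun m => m / p) (fun m => p * m) ?_ ?_ ?_ ?_ ?_
  · intro m hm
    rw [mem_filter, mem_Ioc] at hm
    obtain ⟨⟨h1, h2⟩, k, rfl⟩ := hm
    rw [mem_Ioc, Nat.mul_div_cancel_left _ hp]
    constructor
    · rw [Nat.div_lt_iff_lt_mul hp]
      rwa [mul_comm]
    · rw [Nat.le_div_iff_mul_le hp]
      rwa [mul_comm]
  · intro m hm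
    rw [mem_Ioc, Nat.div_lt_iff_lt_mul hp, Nat.le_div_iff_mul_le hp] at hm
    rw [mem_filter, mem_Ioc]
    refine ⟨⟨?_, ?_⟩, Dvd.intro m rfl⟩
    · rw [mul_comm]; exact hm.1
    · rw [mul_comm]; exact hm.2
  · intro m hm
    rw [mem_filter] at hm
    exact Nat.mul_div_cancel' hm.2
  · intro m _
    exact Nat.mul_div_cancel_left _ hp
  · intro m _
    rfl

private theorem buc_div (a p : ℕ) (hp : 1 ≤ p) :
    (a : ℝ) / p - 1 ≤ ((a / p : ℕ) : ℝ) ∧ ((a / p : ℕ) : ℝ) ≤ (a : ℝ) / p := by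
  have hp0 : (0 : ℝ) < p := by exact_mod_cast hp
  constructor
  · have h1 := Nat.div_add_mod a p
    have h2 := Nat.mod_lt a hp
    have h3 : a ≤ p * (a / p) + p := by omega
    have h4 : (a : ℝ) ≤ p * ((a / p : ℕ) : ℝ) + p := by exact_mod_cast h3
    rw [sub_le_iff_le_add, div_le_iff₀ hp0]
    linarith
  · exact Nat.cast_div_le

private theorem buc_len (x l p : ℕ) (hp : 1 ≤ p) :
    (l : ℝ) / p - 1 ≤ (((x + l) / p : ℕ) : ℝ) - ((x / p : ℕ) : ℝ) ∧
      (((x + l) / p : ℕ) : ℝ) - ((x / p : ℕ) : ℝ) ≤ (l : ℝ) / p + 1 := by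
  obtain ⟨h1, h2⟩ := buc_div (x + l) p hp
  obtain ⟨h3, h4⟩ := buc_div x p hp
  push_cast at h1 h2
  rw [add_div] at h1 h2
  constructor <;> linarith

private theorem buc_recip (S : Finset ℕ) (y : ℕ) (hS : S ⊆ Icc 1 y) :
    ∑ p ∈ S, (1 : ℝ) / p ≤ 1 + Real.log y := by
  have h1 : ∑ p ∈ S, (1 : ℝ) / p ≤ ∑ p ∈ Icc 1 y, (1 : ℝ) / p :=
    sum_le_sum_of_subset_of_nonneg hS (fun i _ _ => by positivity)
  have h2 := harmonic_le_one_add_log y
  rw [harmonic_eq_sum_Icc] at h2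
  push_cast at h2
  simp only [one_div] at h1 ⊢
  linarith

private theorem buc_tail (w r : ℕ) (hr : 6 * (1 + Real.log w) ≤ r + 1) :
    VV (PW w) - 1 / 2 ^ r ≤
      ∑ T ∈ (PW w).powerset.filter (fun T => T.card ≤ 2 * r + 1), (-1 : ℝ) ^ T.card * ∏ p ∈ T, (1 / (p : ℝ)) := by
  have hV : VV (PW w) = ∑ T ∈ (PW w).powerset, (-1 : ℝ) ^ T.card * ∏ p ∈ T, (1 / (p : ℝ)) := by
    unfold VV
    have h1 : ∀ p ∈ PW w, (1 - 1 / (p : ℝ)) = 1 + (-1) * (1 / (p : ℝ)) := fun p _ => by ring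
    rw [prod_congr rfl h1, prod_one_add]
    refine sum_congr rfl fun T _ => ?_
    rw [prod_mul_distrib, prod_const]
  have hsplit := sum_filter_add_sum_filter_not (PW w).powerset (fun T => T.card ≤ 2 * r + 1)
    (fun T => (-1 : ℝ) ^ T.card * ∏ p ∈ T, (1 / (p : ℝ)))
  have htail : ∑ T ∈ (PW w).powerset.filter (fun T => ¬ T.card ≤ 2 * r + 1),
      (-1 : ℝ) ^ T.card * ∏ p ∈ T, (1 / (p : ℝ)) ≤ 1 / 2 ^ r := by
    have hpos : ∀ T : Finset ℕ, 0 ≤ (1 / (4 : ℝ) ^ (2 * r + 2)) * ∏ p ∈ T, (4 / (p : ℝ)) := by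
      intro T
      have h0 : (0 : ℝ) ≤ ∏ p ∈ T, (4 / (p : ℝ)) := prod_nonneg fun p _ => by positivity
      positivity
    have h1 : ∑ T ∈ (PW w).powerset.filter (fun T => ¬ T.card ≤ 2 * r + 1),
        (-1 : ℝ) ^ T.card * ∏ p ∈ T, (1 / (p : ℝ)) ≤
        ∑ T ∈ (PW w).powerset, (1 / (4 : ℝ) ^ (2 * r + 2)) * ∏ p ∈ T, (4 / (p : ℝ)) := by
      refine (sum_le_sum (g := fun T : Finset ℕ => (1 / (4 : ℝ) ^ (2 * r + 2)) * ∏ p ∈ T, (4 / (p : ℝ))) ?_).trans
        (sum_le_sum_of_subset_of_nonneg (filter_subset _ _) (fun T _ _ => hpos T))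
      intro T hT
      rw [mem_filter, not_le] at hT
      have h2 : ∏ p ∈ T, (4 / (p : ℝ)) = 4 ^ T.card * ∏ p ∈ T, (1 / (p : ℝ)) := by
        rw [← prod_const, ← prod_mul_distrib]
        exact prod_congr rfl fun p _ => by ring
      rw [h2]
      have h3 : (0 : ℝ) ≤ ∏ p ∈ T, (1 / (p : ℝ)) := by positivity
      have h4 : (-1 : ℝ) ^ T.card ≤ 1 := by
        rcases neg_one_pow_eq_or ℝ T.card with h | h <;> rw [h] <;> norm_num
      have h5 : (1 : ℝ) ≤ 1 / (4 : ℝ) ^ (2 * r + 2) * 4 ^ T.card := by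
        rw [div_mul_eq_mul_div, one_mul, le_div_iff₀ (by positivity), one_mul]
        exact pow_le_pow_right₀ (by norm_num) (by omega)
      calc (-1 : ℝ) ^ T.card * ∏ p ∈ T, (1 / (p : ℝ)) ≤ 1 * ∏ p ∈ T, (1 / (p : ℝ)) :=
            mul_le_mul_of_nonneg_right h4 h3
        _ ≤ (1 / (4 : ℝ) ^ (2 * r + 2) * 4 ^ T.card) * ∏ p ∈ T, (1 / (p : ℝ)) :=
            mul_le_mul_of_nonneg_right h5 h3
        _ = _ := by ring
    refine h1.trans ?_
    rw [← mul_sum, ← prod_one_add]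
    have h6 : ∏ i ∈ PW w, (1 + 4 / (i : ℝ)) ≤ Real.exp (∑ i ∈ PW w, 4 / (i : ℝ)) :=
      Real.prod_one_add_le_exp_sum _ (fun i => by positivity)
    have h7 : ∑ i ∈ PW w, (4 : ℝ) / i = 4 * ∑ i ∈ PW w, (1 : ℝ) / i := by
      rw [mul_sum]
      exact sum_congr rfl fun i _ => by ring
    have h8 : ∑ i ∈ PW w, (1 : ℝ) / i ≤ 1 + Real.log w := buc_recip _ _ (filter_subset _ _)
    have h9 : ∑ i ∈ PW w, (4 : ℝ) / i ≤ Real.log 2 * (r + 1 : ℕ) := by
      have := Real.log_two_gt_d9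
      push_cast
      have h10 : (0 : ℝ) ≤ (r : ℝ) + 1 := by positivity
      nlinarith
    have h11 : Real.exp (∑ i ∈ PW w, 4 / (i : ℝ)) ≤ 2 ^ (r + 1) := by
      refine (Real.exp_le_exp.2 h9).trans ?_
      rw [mul_comm, Real.exp_nat_mul, Real.exp_log (by norm_num)]
    have h12 : (1 / (4 : ℝ) ^ (2 * r + 2)) * 2 ^ (r + 1) ≤ 1 / 2 ^ r := by
      rw [div_mul_eq_mul_div, one_mul, div_le_div_iff₀ (by positivity) (by positivity), one_mul, ← pow_add]
      have : (4 : ℝ) ^ (2 * r + 2) = 2 ^ (4 * r + 4) := by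
        rw [show (4 : ℝ) = 2 ^ 2 by norm_num, ← pow_mul]
        congr 1
        ring
      rw [this]
      exact pow_le_pow_right₀ (by norm_num) (by omega)
    calc (1 / (4 : ℝ) ^ (2 * r + 2)) * ∏ i ∈ PW w, (1 + 4 / (i : ℝ))
        ≤ (1 / (4 : ℝ) ^ (2 * r + 2)) * 2 ^ (r + 1) :=
          mul_le_mul_of_nonneg_left (h6.trans h11) (by positivity)
      _ ≤ _ := h12
  rw [hV]
  linarith

private theorem buc_w (w r x l : ℕ) (hr : 6 * (1 + Real.log w) ≤ r + 1) :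
    l * (VV (PW w) - 1 / 2 ^ r) - ((w : ℝ) + 1) ^ (2 * r + 1) ≤ ∑ m ∈ Ioc x (x + l), rg w m := by
  set FT := (PW w).powerset.filter (fun T => T.card ≤ 2 * r + 1) with hFT
  have h1 : ∀ m ∈ Ioc x (x + l),
      ∑ T ∈ FT, (if (∏ p ∈ T, p) ∣ m then (-1 : ℝ) ^ T.card else 0) ≤ rg w m := by
    intro m _
    have h2 := buc_bonf ((PW w).filter (fun p => p ∣ m)) r
    have h3 : rg w m = if ((PW w).filter (fun p => p ∣ m)) = ∅ then 1 else 0 := by
      unfold rg
      by_cases h : ∀ p : ℕ, p.Prime → p ∣ m → w < p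
      · rw [if_pos h, if_pos]
        rw [filter_eq_empty_iff]
        intro p hp hpm
        unfold PW at hp
        rw [mem_filter, mem_Icc] at hp
        have := h p hp.2 hpm
        omega
      · rw [if_neg h, if_neg]
        intro h4
        apply h
        intro p hp hpm
        by_contra h5
        rw [not_lt] at h5
        have h6 : p ∈ ((PW w).filter (fun p => p ∣ m)) := by
          unfold PW
          rw [mem_filter, mem_filter, mem_Icc]
          exact ⟨⟨⟨hp.one_le, h5⟩, hp⟩, hpm⟩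
        rw [h4] at h6
        exact absurd h6 (notMem_empty p)
    have h4 : ∑ T ∈ FT, (if (∏ p ∈ T, p) ∣ m then (-1 : ℝ) ^ T.card else 0) =
        ∑ T ∈ ((PW w).filter (fun p => p ∣ m)).powerset.filter (fun T => T.card ≤ 2 * r + 1),
          (-1 : ℝ) ^ T.card := by
      rw [← sum_filter]
      refine sum_congr ?_ fun _ _ => rfl
      ext T
      rw [hFT]
      simp only [mem_filter, mem_powerset]
      constructor
      · rintro ⟨⟨h5, h6⟩, h7⟩
        refine ⟨fun p hp => ?_, h6⟩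
        rw [mem_filter]
        exact ⟨h5 hp, (dvd_prod_of_mem (fun p => p) hp).trans h7⟩
      · rintro ⟨h5, h6⟩
        refine ⟨⟨fun p hp => (mem_filter.1 (h5 hp)).1, h6⟩, ?_⟩
        refine Finset.prod_primes_dvd m (fun p hp => ?_) (fun p hp => (mem_filter.1 (h5 hp)).2)
        have := (mem_filter.1 (h5 hp)).1
        unfold PW at this
        exact (mem_filter.1 this).2.prime
    rw [h4, h3]
    exact h2
  have h2 := sum_le_sum h1
  rw [sum_comm] at h2
  refine le_trans ?_ h2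
  have h3 : ∀ T ∈ FT, (l : ℝ) * ((-1 : ℝ) ^ T.card * ∏ p ∈ T, (1 / (p : ℝ))) - 1 ≤
      ∑ m ∈ Ioc x (x + l), (if (∏ p ∈ T, p) ∣ m then (-1 : ℝ) ^ T.card else 0) := by
    intro T hT
    have hd : 1 ≤ ∏ p ∈ T, p := by
      rw [Nat.one_le_iff_ne_zero, prod_ne_zero_iff]
      intro p hp
      rw [hFT, mem_filter, mem_powerset] at hT
      have := hT.1 hp
      unfold PW at this
      exact (mem_filter.1 this).2.ne_zero
    have h4 := buc_reindex x l (∏ p ∈ T, p) hd (fun _ => (-1 : ℝ) ^ T.card)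
    rw [h4, sum_const, Nat.card_Ioc, nsmul_eq_mul, Nat.cast_sub (Nat.div_le_div_right (by omega))]
    obtain ⟨h5, h6⟩ := buc_len x l (∏ p ∈ T, p) hd
    have h7 : (∏ p ∈ T, (1 / (p : ℝ))) = 1 / ((∏ p ∈ T, p : ℕ) : ℝ) := by
      rw [prod_div_distrib, prod_const_one]
      push_cast
      rfl
    rw [h7]
    have h8 : (l : ℝ) * ((-1 : ℝ) ^ T.card * (1 / ((∏ p ∈ T, p : ℕ) : ℝ))) =
      (-1 : ℝ) ^ T.card * ((l : ℝ) / ((∏ p ∈ T, p : ℕ) : ℝ)) := by ring
    rw [h8]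
    rcases neg_one_pow_eq_or ℝ T.card with h | h <;> rw [h] <;> linarith
  have h4 := sum_le_sum h3
  rw [sum_sub_distrib, ← mul_sum, sum_const, nsmul_eq_mul, mul_one] at h4
  refine le_trans ?_ h4
  have h5 := buc_tail w r hr
  rw [← hFT] at h5
  have h6 : (FT.card : ℝ) ≤ ((w : ℝ) + 1) ^ (2 * r + 1) := by
    refine (buc_card_le (PW w) (2 * r + 1)).trans ?_
    have h7 : (PW w).card ≤ w := by
      refine (card_le_card (filter_subset _ _)).trans ?_
      simp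
    gcongr
  have h7 : (0 : ℝ) ≤ (l : ℝ) := by positivity
  nlinarith [mul_le_mul_of_nonneg_left h5 h7]

theorem buc (w y r D x l : ℕ) (ρ : ℕ → Finset ℕ → ℝ) (hw : 2 ≤ w) (hwy : w ≤ y) (hD : 1 ≤ D)
    (hr : 6 * (1 + Real.log w) ≤ r + 1)
    (hρ : ∀ p ∈ PY w y, Rho w (p - 1) D (ρ p) ∧ 0 ≤ SF w (p - 1) (ρ p) ∧ SF w (p - 1) (ρ p) ≤ 1) :
    l * (VV (PW w) - ∑ p ∈ PY w y, VV (PW w) * SF w (p - 1) (ρ p) / p)
      - 2 * l * (2 + Real.log y) / 2 ^ r - 10 * y * ((w : ℝ) ^ (2 * r) * (D : ℝ) ^ 2) ^ 2 - ((w : ℝ) + 1) ^ (2 * r + 1) ≤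
    ∑ m ∈ Ioc x (x + l), rg y m := by
  have hVV0 : 0 ≤ VV (PW w) := by
    unfold VV
    refine prod_nonneg fun p hp => ?_
    unfold PW at hp
    have h2 := (mem_filter.1 hp).2.one_le
    have h3 : (1 : ℝ) ≤ p := by exact_mod_cast h2
    rw [sub_nonneg, div_le_one (by linarith)]
    exact h3
  have hVV1 : VV (PW w) ≤ 1 := by
    unfold VV
    refine prod_le_one (fun p hp => ?_) (fun p hp => ?_)
    · unfold PW at hp
      have h2 := (mem_filter.1 hp).2.one_le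
      have h3 : (1 : ℝ) ≤ p := by exact_mod_cast h2
      rw [sub_nonneg, div_le_one (by linarith)]
      exact h3
    · have : (0 : ℝ) ≤ 1 / (p : ℝ) := by positivity
      linarith
  set Q : ℕ := w ^ (2 * r) * D ^ 2 with hQ
  have hQ1 : 1 ≤ Q := by
    have h1 : 0 < w ^ (2 * r) := by positivity
    have h2 : 0 < D ^ 2 := by positivity
    exact Nat.mul_pos h1 h2
  have hQr : ((w : ℝ) ^ (2 * r) * (D : ℝ) ^ 2) = (Q : ℝ) := by rw [hQ]; push_cast; rfl
  rw [hQr]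
  have hQ1r : (1 : ℝ) ≤ (Q : ℝ) := by exact_mod_cast hQ1
  have h1 : ∀ m ∈ Ioc x (x + l), rg w m ≤ rg y m + ∑ p ∈ PY w y, if p ∣ m then rg (p - 1) (m / p) else 0 := by
    intro m hm
    rw [mem_Ioc] at hm
    exact buc_step w y m (by omega)
  have h2 := sum_le_sum h1
  rw [sum_add_distrib, sum_comm] at h2
  have h3 : ∀ p ∈ PY w y, ∑ m ∈ Ioc x (x + l), (if p ∣ m then rg (p - 1) (m / p) else 0) ≤
      l * (VV (PW w) * SF w (p - 1) (ρ p) / p) + l * (1 / 2 ^ r) * (1 / (p : ℝ)) + 10 * (Q : ℝ) ^ 2 := by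
    intro p hp
    obtain ⟨hρ1, hS0, hS1⟩ := hρ p hp
    unfold PY at hp
    rw [mem_filter, mem_Ioc] at hp
    obtain ⟨⟨hwp, hpy⟩, hpp⟩ := hp
    have hp1 : 1 ≤ p := hpp.one_le
    have hwp1 : w ≤ p - 1 := by omega
    rw [buc_reindex x l p hp1 (rg (p - 1))]
    have h4 : ∑ m ∈ Ioc (x / p) ((x + l) / p), rg (p - 1) m ≤
        ∑ m ∈ Ioc (x / p) ((x + l) / p), SS w (p - 1) r (ρ p) m := by
      refine sum_le_sum fun m hm => ?_
      rw [mem_Ioc] at hm
      exact ss_ge w (p - 1) r D (ρ p) hwp1 hρ1 m (Nat.one_le_iff_ne_zero.2 (Nat.ne_of_gt (lt_of_le_of_lt (Nat.zero_le _) hm.1)))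
    have hadm : Adm Q (gS w (p - 1) r (ρ p)) (SS w (p - 1) r (ρ p)) := by
      refine ⟨fun n hn => ?_, fun n => gs_abs w (p - 1) r D (ρ p) hρ1 n, fun m hm => ?_⟩
      · unfold gS
        rw [if_neg]
        exact fun h => hn h.1
      · exact ss_exp w (p - 1) r D (ρ p) (by omega) hwp1 hρ1 m hm
    have hle : x / p ≤ (x + l) / p := Nat.div_le_div_right (by omega)
    have h5 := tyI_mean Q _ _ hQ1 hadm (x / p) ((x + l) / p - x / p)
    rw [Nat.add_sub_cancel' hle, Nat.cast_sub hle] at h5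
    have h6 := gs_sing w (p - 1) r D 1 (ρ p) hw hwp1 hρ1 hr hS0 hS1 le_rfl (by omega)
    have h7 : (Icc 1 (w ^ (2 * r) * D ^ 2)).filter (fun n => 1 ∣ n) = Icc 1 Q := by
      rw [hQ]
      exact filter_true_of_mem fun n _ => one_dvd n
    rw [h7] at h6
    simp only [ArithmeticFunction.isMultiplicative_moebius.map_one, Int.cast_one, mul_one, Nat.totient_one, Nat.cast_one,
      div_one] at h6
    obtain ⟨h8, h9⟩ := buc_len x l p hp1
    have h10 := (abs_le.1 h5).2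
    have h11 := (abs_le.1 h6).2
    set G := ∑ n ∈ Icc 1 Q, gS w (p - 1) r (ρ p) n / n with hG
    set l' := (((x + l) / p : ℕ) : ℝ) - ((x / p : ℕ) : ℝ) with hl'
    have hl0 : 0 ≤ l' := by
      rw [hl', sub_nonneg]
      exact_mod_cast hle
    have hpr : (0 : ℝ) < p := by exact_mod_cast hp1
    set a := VV (PW w) * SF w (p - 1) (ρ p) with ha
    have ha0 : 0 ≤ a := mul_nonneg hVV0 hS0
    have ha1 : a ≤ 1 := by
      calc a ≤ 1 * 1 := mul_le_mul hVV1 hS1 hS0 (by norm_num)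
        _ = 1 := by norm_num
    have hb0 : (0 : ℝ) ≤ 1 / 2 ^ r := by positivity
    have hb1 : (1 : ℝ) / 2 ^ r ≤ 1 := by
      rw [div_le_one (by positivity)]
      exact one_le_pow₀ (by norm_num)
    have h12 : l' * G ≤ l' * (a + 1 / 2 ^ r) := mul_le_mul_of_nonneg_left (by linarith) hl0
    have h13 : l' * (a + 1 / 2 ^ r) ≤ ((l : ℝ) / p + 1) * (a + 1 / 2 ^ r) :=
      mul_le_mul_of_nonneg_right h9 (by linarith)
    have h14 : ((l : ℝ) / p + 1) * (a + 1 / 2 ^ r) =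
        l * (a / p) + l * (1 / 2 ^ r) * (1 / (p : ℝ)) + (a + 1 / 2 ^ r) := by
      field_simp
    have h15 : (1 : ℝ) ≤ (Q : ℝ) ^ 2 := one_le_pow₀ hQ1r
    have h16 : l * (VV (PW w) * SF w (p - 1) (ρ p) / p) = l * (a / p) := by rw [ha]
    rw [h16]
    linarith
  have h4 := sum_le_sum h3
  rw [sum_add_distrib, sum_add_distrib, ← mul_sum, ← mul_sum, sum_const, nsmul_eq_mul] at h4
  have h5 := buc_w w r x l hr
  have h6 : ∑ p ∈ PY w y, (1 : ℝ) / p ≤ 1 + Real.log y := by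
    refine buc_recip _ _ ?_
    intro p hp
    unfold PY at hp
    rw [mem_filter, mem_Ioc] at hp
    rw [mem_Icc]
    omega
  have h7 : ((PY w y).card : ℝ) ≤ y := by
    have h8 : (PY w y).card ≤ y := by
      refine (card_le_card (filter_subset _ _)).trans ?_
      rw [Nat.card_Ioc]
      omega
    exact_mod_cast h8
  have hl : (0 : ℝ) ≤ (l : ℝ) := by positivity
  have hb0 : (0 : ℝ) ≤ 1 / 2 ^ r := by positivity
  have h8 : (l : ℝ) * (1 / 2 ^ r) * ∑ p ∈ PY w y, (1 : ℝ) / p ≤ l * (1 / 2 ^ r) * (1 + Real.log y) :=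
    mul_le_mul_of_nonneg_left h6 (mul_nonneg hl hb0)
  have h9 : ((PY w y).card : ℝ) * (10 * (Q : ℝ) ^ 2) ≤ y * (10 * (Q : ℝ) ^ 2) :=
    mul_le_mul_of_nonneg_right h7 (by positivity)
  have hlog : 0 ≤ Real.log y := Real.log_natCast_nonneg y
  have h10 : 2 * (l : ℝ) * (2 + Real.log y) / 2 ^ r = 2 * (l * (1 / 2 ^ r) * (2 + Real.log y)) := by ring
  have h11 : 0 ≤ (l : ℝ) * (1 / 2 ^ r) * (2 + Real.log y) :=
    mul_nonneg (mul_nonneg hl hb0) (by linarith)
  rw [h10]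
  have h12 : (l : ℝ) * (VV (PW w) - 1 / 2 ^ r) = l * VV (PW w) - l * (1 / 2 ^ r) := by ring
  rw [h12] at h5
  have h13 : (l : ℝ) * (VV (PW w) - ∑ p ∈ PY w y, VV (PW w) * SF w (p - 1) (ρ p) / p) =
    l * VV (PW w) - l * ∑ p ∈ PY w y, VV (PW w) * SF w (p - 1) (ρ p) / p := by ring
  rw [h13]
  have h14 : (l : ℝ) * (1 / 2 ^ r) * (2 + Real.log y) = l * (1 / 2 ^ r) + l * (1 / 2 ^ r) * (1 + Real.log y) := by
    ring
  nlinarith

end Pool.Agent.H78.PD.SL
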