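import Pool.Agent.H78.PD.SivA
import Pool.Agent.Lead.ZN.Mertens
import Pool.Agent.H3.LC.Mertens
import Pool.Agent.H36.IS.MtA

/-!
# PD, SivC: Selberg's sum, Mertens' product, the large `N` (copy of `H76/TP/Gup.lean`, `Vsum.lean`, `SvEv.lean` without their imports)
-/

set_option autoImplicit false

namespace Pool.Agent.H78.PD.SL

open Finset

/-- logarithms are smaller than powers -/
theorem log_pow_le (s C : ℝ) (hs : 0 < s) (hC : 0 < C) (c : ℕ) :
    ∃ x0 : ℕ, ∀ x : ℕ, x0 ≤ x → C * Real.log x ^ c ≤ (x : ℝ) ^ s := by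
  have h1 := (isLittleO_log_rpow_rpow_atTop (c : ℝ) hs).bound (c := 1 / C) (by positivity)
  have h2 := h1.and (Filter.eventually_ge_atTop (1 : ℝ))
  have h3 := tendsto_natCast_atTop_atTop (R := ℝ) |>.eventually h2
  obtain ⟨x0, hx0⟩ := Filter.eventually_atTop.1 h3
  refine ⟨x0, fun x hx => ?_⟩
  obtain ⟨h4, h5⟩ := hx0 x hx
  have hl : 0 ≤ Real.log x := Real.log_nonneg h5
  have hp : (0 : ℝ) ≤ (x : ℝ) ^ s := Real.rpow_nonneg (by positivity) _
  rw [Real.rpow_natCast, Real.norm_eq_abs, Real.norm_eq_abs, abs_of_nonneg (by positivity),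
    abs_of_nonneg hp] at h4
  rw [div_mul_eq_mul_div, one_mul, le_div_iff₀ hC] at h4
  linarith

/-- logarithms are large -/
theorem log_ge (C : ℝ) : ∃ x0 : ℕ, ∀ x : ℕ, x0 ≤ x → C ≤ Real.log x := by
  have h := (Real.tendsto_log_atTop.comp (tendsto_natCast_atTop_atTop (R := ℝ))).eventually
    (Filter.eventually_ge_atTop C)
  exact Filter.eventually_atTop.1 h

/-- Selberg's denominator -/
noncomputable def GD (w y D : ℕ) : ℝ :=
  ∑ A ∈ (PY w y).powerset.filter (fun A => ∏ p ∈ A, p ≤ D), ∏ p ∈ A, (1 / ((p : ℝ) - 1))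

private theorem Gup_factor {l : ℕ} (hl : l.Prime) {h t : ℝ} (h0 : 0 ≤ h) (hk : h * l ≤ 1 + h)
    (ht0 : 0 ≤ t) (ht1 : t ≤ 1) :
    1 + h * Real.exp t ≤ (1 + h) * Real.exp (1 / l * (2 * t)) := by
  have hl0 : (0 : ℝ) < l := by exact_mod_cast hl.pos
  have h1 : Real.exp t - 1 ≤ 2 * t := by
    have := Real.abs_exp_sub_one_le (x := t) (by rw [abs_of_nonneg ht0]; exact ht1)
    rw [abs_of_nonneg ht0] at this
    exact (le_abs_self _).trans this
  have h2 : h ≤ 1 / l * (1 + h) := by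
    rw [div_mul_eq_mul_div, one_mul, le_div_iff₀ hl0]
    exact hk
  have h4 : 1 + 1 / l * (2 * t) ≤ Real.exp (1 / l * (2 * t)) := by
    have := Real.add_one_le_exp ((1 : ℝ) / l * (2 * t))
    linarith
  calc 1 + h * Real.exp t = (1 + h) + h * (Real.exp t - 1) := by ring
    _ ≤ (1 + h) + h * (2 * t) := by
        have := mul_le_mul_of_nonneg_left h1 h0
        linarith
    _ ≤ (1 + h) + 1 / l * (1 + h) * (2 * t) := by
        have := mul_le_mul_of_nonneg_right h2 (by linarith : (0 : ℝ) ≤ 2 * t)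
        linarith
    _ = (1 + h) * (1 + 1 / l * (2 * t)) := by ring
    _ ≤ (1 + h) * Real.exp (1 / l * (2 * t)) :=
        mul_le_mul_of_nonneg_left h4 (by linarith)

private theorem Gup_mem {w y l : ℕ} (hl : l ∈ PY w y) : l.Prime ∧ l ≤ y := by
  unfold PY at hl
  rw [mem_filter, mem_Ioc] at hl
  exact ⟨hl.2, hl.1.2⟩

theorem gup : ∃ C : ℝ, 0 < C ∧ ∀ w y D : ℕ, 2 ≤ w → w ≤ y → 1 ≤ D →
    1 - C * Real.exp (-(Real.log D / Real.log y)) ≤ VV (PY w y) * GD w y D := by
  obtain ⟨C, hC1, hC, -⟩ := Pool.Agent.Lead.ZN.mertens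
  have hlog2 : 0 < Real.log 2 := Real.log_pos (by norm_num)
  refine ⟨Real.exp (2 * (1 + C / Real.log 2)), Real.exp_pos _, ?_⟩
  intro w y D hw hwy hD
  have hy2 : 2 ≤ y := hw.trans hwy
  have hD0 : (0 : ℝ) < D := by exact_mod_cast hD
  set L : ℝ := Real.log y with hL
  have hL2 : Real.log 2 ≤ L := Real.log_le_log (by norm_num) (by exact_mod_cast hy2)
  have hL0 : 0 < L := hlog2.trans_le hL2
  set P : Finset ℕ := PY w y with hP
  have hPp : ∀ l ∈ P, l.Prime ∧ l ≤ y := fun l hl => Gup_mem hl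
  set h : ℕ → ℝ := fun p => 1 / ((p : ℝ) - 1) with hh
  have hone : ∀ l ∈ P, (1 : ℝ) < l := fun l hl => by exact_mod_cast (hPp l hl).1.one_lt
  have hh0 : ∀ l ∈ P, 0 ≤ h l := fun l hl => by
    have := hone l hl
    rw [hh]
    exact div_nonneg zero_le_one (by linarith)
  have hhk : ∀ l ∈ P, h l * l ≤ 1 + h l := fun l hl => by
    have h1 := hone l hl
    have h2 : (l : ℝ) - 1 ≠ 0 := by linarith
    rw [hh]
    apply le_of_eq
    field_simp
    ring
  have hV : VV P * ∏ l ∈ P, (1 + h l) = 1 := by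
    unfold VV
    rw [← Finset.prod_mul_distrib]
    refine Finset.prod_eq_one fun l hl => ?_
    have h1 := hone l hl
    have h2 : (l : ℝ) - 1 ≠ 0 := by linarith
    have h3 : (l : ℝ) ≠ 0 := by linarith
    rw [hh]
    field_simp
    ring
  have hV0 : 0 ≤ VV P := by
    unfold VV
    refine Finset.prod_nonneg fun l hl => ?_
    have h1 := hone l hl
    have h2 : 1 / (l : ℝ) ≤ 1 := by
      rw [div_le_one (by linarith)]
      exact h1.le
    linarith
  have ht : ∀ l ∈ P, 0 ≤ Real.log l / L ∧ Real.log l / L ≤ 1 := by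
    intro l hl
    have h3 := hone l hl
    refine ⟨div_nonneg (Real.log_nonneg h3.le) hL0.le, ?_⟩
    rw [div_le_one hL0]
    exact Real.log_le_log (by linarith) (by exact_mod_cast (hPp l hl).2)
  have hsum : ∑ l ∈ P, Real.log l / l ≤ L + C := by
    have h1 := hC 0 L le_rfl hL0.le
    rw [sub_zero] at h1
    refine le_trans (Finset.sum_le_sum_of_subset_of_nonneg ?_ ?_) h1
    · intro l hl
      obtain ⟨h1, h2⟩ := hPp l hl
      rw [Pool.Agent.Lead.ZN.mem_PL]
      refine ⟨h1, Real.log_pos (by exact_mod_cast h1.one_lt), ?_⟩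
      exact Real.log_le_log (by exact_mod_cast h1.pos) (by exact_mod_cast h2)
    · intro l hl _
      have h2 := (Pool.Agent.Lead.ZN.mem_PL.1 hl).1
      exact div_nonneg (Real.log_nonneg (by exact_mod_cast h2.one_lt.le)) (Nat.cast_nonneg _)
  have hprodpos : 0 ≤ ∏ l ∈ P, (1 + h l) :=
    Finset.prod_nonneg fun l hl => by
      have := hh0 l hl
      linarith
  have htw : ∏ l ∈ P, (1 + h l * Real.exp (Real.log l / L)) ≤
      (∏ l ∈ P, (1 + h l)) * Real.exp (2 * (1 + C / Real.log 2)) := by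
    have h1 : ∏ l ∈ P, (1 + h l * Real.exp (Real.log l / L)) ≤
        ∏ l ∈ P, ((1 + h l) * Real.exp (1 / l * (2 * (Real.log l / L)))) := by
      refine Finset.prod_le_prod ?_ ?_
      · intro l hl
        have := hh0 l hl
        positivity
      · intro l hl
        exact Gup_factor (hPp l hl).1 (hh0 l hl) (hhk l hl) (ht l hl).1 (ht l hl).2
    refine h1.trans ?_
    rw [Finset.prod_mul_distrib, ← Real.exp_sum]
    refine mul_le_mul_of_nonneg_left ?_ hprodpos
    rw [Real.exp_le_exp]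
    have h4 : ∑ l ∈ P, ((1 : ℝ) / l * (2 * (Real.log l / L))) =
        2 / L * ∑ l ∈ P, Real.log l / l := by
      rw [Finset.mul_sum]
      refine Finset.sum_congr rfl fun l _ => ?_
      ring
    rw [h4]
    have h5 : 2 / L * ∑ l ∈ P, Real.log l / l ≤ 2 / L * (L + C) :=
      mul_le_mul_of_nonneg_left hsum (by positivity)
    refine h5.trans ?_
    have h6 : 2 / L * (L + C) = 2 * (1 + C / L) := by
      field_simp
    rw [h6]
    refine mul_le_mul_of_nonneg_left ?_ (by norm_num)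
    have : C / L ≤ C / Real.log 2 := div_le_div_of_nonneg_left (by linarith) hlog2 hL2
    linarith
  have hexp : ∏ l ∈ P, (1 + h l) = ∑ T ∈ P.powerset, ∏ l ∈ T, h l := Finset.prod_one_add P
  have hexp2 : ∏ l ∈ P, (1 + h l * Real.exp (Real.log l / L)) =
      ∑ T ∈ P.powerset, ∏ l ∈ T, (h l * Real.exp (Real.log l / L)) := Finset.prod_one_add P
  have hTs : ∀ T ∈ P.powerset, ∀ l ∈ T, l ∈ P := fun T hT l hl => Finset.mem_powerset.1 hT hl
  -- the bad subsets
  have hbad : ∑ T ∈ P.powerset.filter (fun T => ¬ ∏ l ∈ T, l ≤ D), ∏ l ∈ T, h l ≤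
      Real.exp (-(Real.log D / L)) * ∏ l ∈ P, (1 + h l * Real.exp (Real.log l / L)) := by
    rw [hexp2, Finset.mul_sum]
    refine le_trans (Finset.sum_le_sum fun T hT => ?_)
      (Finset.sum_le_sum_of_subset_of_nonneg (Finset.filter_subset _ _) ?_)
    · obtain ⟨hT1, hT2⟩ := Finset.mem_filter.1 hT
      have hTs' := hTs T hT1
      rw [Finset.prod_mul_distrib, ← Real.exp_sum, mul_left_comm]
      refine le_mul_of_one_le_right
        (Finset.prod_nonneg fun l hl => hh0 l (hTs' l hl)) ?_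
      rw [← Real.exp_add]
      refine Real.one_le_exp ?_
      have h1 : ∑ l ∈ T, Real.log (l : ℝ) = Real.log ((∏ l ∈ T, l : ℕ) : ℝ) := by
        push_cast
        rw [Real.log_prod]
        intro l hl
        exact_mod_cast (hPp l (hTs' l hl)).1.ne_zero
      have h2 : Real.log D ≤ ∑ l ∈ T, Real.log (l : ℝ) := by
        rw [h1]
        refine Real.log_le_log hD0 ?_
        exact_mod_cast (not_le.1 hT2).le
      rw [← Finset.sum_div]
      have h3 : Real.log D / L ≤ (∑ l ∈ T, Real.log (l : ℝ)) / L :=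
        div_le_div_of_nonneg_right h2 hL0.le
      linarith
    · intro T hT _
      refine mul_nonneg (Real.exp_pos _).le (Finset.prod_nonneg fun l hl => ?_)
      have := hh0 l (hTs T hT l hl)
      positivity
  have hsplit := Finset.sum_filter_add_sum_filter_not P.powerset (fun T => ∏ l ∈ T, l ≤ D)
    (fun T => ∏ l ∈ T, h l)
  have hG : GD w y D = ∑ T ∈ P.powerset.filter (fun T => ∏ l ∈ T, l ≤ D), ∏ l ∈ T, h l := rfl
  rw [← hexp, ← hG] at hsplit
  have hb2 : ∑ T ∈ P.powerset.filter (fun T => ¬ ∏ l ∈ T, l ≤ D), ∏ l ∈ T, h l ≤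
      Real.exp (-(Real.log D / L)) *
        ((∏ l ∈ P, (1 + h l)) * Real.exp (2 * (1 + C / Real.log 2))) :=
    hbad.trans (mul_le_mul_of_nonneg_left htw (Real.exp_pos _).le)
  have hfin : VV P * (∑ T ∈ P.powerset.filter (fun T => ¬ ∏ l ∈ T, l ≤ D), ∏ l ∈ T, h l) ≤
      Real.exp (2 * (1 + C / Real.log 2)) * Real.exp (-(Real.log D / L)) := by
    refine (mul_le_mul_of_nonneg_left hb2 hV0).trans (le_of_eq ?_)
    calc VV P * (Real.exp (-(Real.log D / L)) *
        ((∏ l ∈ P, (1 + h l)) * Real.exp (2 * (1 + C / Real.log 2))))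
        = (VV P * ∏ l ∈ P, (1 + h l)) *
          (Real.exp (2 * (1 + C / Real.log 2)) * Real.exp (-(Real.log D / L))) := by ring
      _ = _ := by rw [hV, one_mul]
  have hmain : VV P * GD w y D = 1 -
      VV P * (∑ T ∈ P.powerset.filter (fun T => ¬ ∏ l ∈ T, l ≤ D), ∏ l ∈ T, h l) := by
    have h1 : GD w y D = (∏ l ∈ P, (1 + h l)) -
        ∑ T ∈ P.powerset.filter (fun T => ¬ ∏ l ∈ T, l ≤ D), ∏ l ∈ T, h l := by linarith
    rw [h1, mul_sub, hV]
  rw [hmain]
  linarith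

private theorem vv_exp (n : ℕ) : VV (PW n) = Real.exp (-(Pool.Agent.H36.IS.fS n)) := by
  have e : VV (PW n) = ∏ p ∈ (range (n + 1)).filter Nat.Prime, (1 - 1 / (p : ℝ)) := by
    unfold VV PW
    refine prod_congr ?_ fun _ _ => rfl
    ext p
    simp only [mem_filter, mem_Icc, mem_range]
    constructor
    · rintro ⟨⟨h1, h2⟩, h3⟩
      exact ⟨by omega, h3⟩
    · rintro ⟨h1, h3⟩
      exact ⟨⟨h3.one_lt.le, by omega⟩, h3⟩
  rw [e]
  unfold Pool.Agent.H36.IS.fS
  rw [← sum_neg_distrib, Real.exp_sum]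
  refine prod_congr rfl fun p hp => ?_
  rw [mem_filter] at hp
  have h2 : (2 : ℝ) ≤ p := by exact_mod_cast hp.2.two_le
  have h3 : 1 / (p : ℝ) ≤ 1 / 2 := one_div_le_one_div_of_le (by norm_num) h2
  rw [neg_neg, Real.exp_log (by linarith)]

private theorem vv_two (n : ℕ) (hn : 2 ≤ n) : 0 < Real.log n ∧ Real.exp (Real.log (Real.log n)) = Real.log n := by
  have hn1 : (1 : ℝ) < n := by exact_mod_cast hn
  have hlog : 0 < Real.log n := Real.log_pos hn1
  exact ⟨hlog, Real.exp_log hlog⟩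

theorem vv_le : ∃ C : ℝ, 0 < C ∧ ∀ n : ℕ, 2 ≤ n → VV (PW n) ≤ C / Real.log n := by
  obtain ⟨c, hc⟩ := Pool.Agent.H36.IS.mertA
  obtain ⟨K, hK⟩ := hc.bddBelow_range
  refine ⟨Real.exp (-K), Real.exp_pos _, fun n hn => ?_⟩
  have h1 : K ≤ Pool.Agent.H36.IS.fS n - Real.log (Real.log n) := hK (Set.mem_range_self n)
  obtain ⟨h2, h3⟩ := vv_two n hn
  rw [vv_exp, le_div_iff₀ h2]
  have h4 : Real.exp (-(Pool.Agent.H36.IS.fS n)) * Real.log n =
      Real.exp (-(Pool.Agent.H36.IS.fS n) + Real.log (Real.log n)) := by rw [Real.exp_add, h3]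
  rw [h4]
  apply Real.exp_le_exp.2
  linarith

theorem vv_ge : ∃ c : ℝ, 0 < c ∧ ∀ n : ℕ, 2 ≤ n → c / Real.log n ≤ VV (PW n) := by
  obtain ⟨c, hc⟩ := Pool.Agent.H36.IS.mertA
  obtain ⟨K, hK⟩ := hc.bddAbove_range
  refine ⟨Real.exp (-K), Real.exp_pos _, fun n hn => ?_⟩
  have h1 : Pool.Agent.H36.IS.fS n - Real.log (Real.log n) ≤ K := hK (Set.mem_range_self n)
  obtain ⟨h2, h3⟩ := vv_two n hn
  rw [vv_exp, div_le_iff₀ h2]
  have h4 : Real.exp (-(Pool.Agent.H36.IS.fS n)) * Real.log n =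
      Real.exp (-(Pool.Agent.H36.IS.fS n) + Real.log (Real.log n)) := by rw [Real.exp_add, h3]
  rw [h4]
  apply Real.exp_le_exp.2
  linarith

theorem vbuch (w y : ℕ) (hwy : w ≤ y) :
    VV (PW w) - ∑ p ∈ PY w y, VV (PW (p - 1)) / p = VV (PW y) := by
  induction y, hwy using Nat.le_induction with
  | base =>
    unfold PY
    simp
  | succ y hy ih =>
    have e1 : PW (y + 1) = if (y + 1).Prime then insert (y + 1) (PW y) else PW y := by
      ext p
      split_ifs with h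
      · simp only [PW, mem_filter, mem_Icc, mem_insert]
        constructor
        · rintro ⟨⟨h1, h2⟩, h3⟩
          by_cases h4 : p = y + 1
          · exact Or.inl h4
          · exact Or.inr ⟨⟨h1, by omega⟩, h3⟩
        · rintro (h1 | ⟨⟨h1, h2⟩, h3⟩)
          · subst h1
            exact ⟨⟨by omega, le_rfl⟩, h⟩
          · exact ⟨⟨h1, by omega⟩, h3⟩
      · simp only [PW, mem_filter, mem_Icc]
        constructor
        · rintro ⟨⟨h1, h2⟩, h3⟩
          have h4 : p ≠ y + 1 := fun h5 => h (h5 ▸ h3)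
          exact ⟨⟨h1, by omega⟩, h3⟩
        · rintro ⟨⟨h1, h2⟩, h3⟩
          exact ⟨⟨h1, by omega⟩, h3⟩
    have e2 : PY w (y + 1) = if (y + 1).Prime then insert (y + 1) (PY w y) else PY w y := by
      ext p
      split_ifs with h
      · simp only [PY, mem_filter, mem_Ioc, mem_insert]
        constructor
        · rintro ⟨⟨h1, h2⟩, h3⟩
          by_cases h4 : p = y + 1
          · exact Or.inl h4
          · exact Or.inr ⟨⟨h1, by omega⟩, h3⟩
        · rintro (h1 | ⟨⟨h1, h2⟩, h3⟩)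
          · subst h1
            exact ⟨⟨by omega, le_rfl⟩, h⟩
          · exact ⟨⟨h1, by omega⟩, h3⟩
      · simp only [PY, mem_filter, mem_Ioc]
        constructor
        · rintro ⟨⟨h1, h2⟩, h3⟩
          have h4 : p ≠ y + 1 := fun h5 => h (h5 ▸ h3)
          exact ⟨⟨h1, by omega⟩, h3⟩
        · rintro ⟨⟨h1, h2⟩, h3⟩
          exact ⟨⟨h1, by omega⟩, h3⟩
    by_cases h : (y + 1).Prime
    · rw [if_pos h] at e1 e2
      have n1 : y + 1 ∉ PW y := by
        simp only [PW, mem_filter, mem_Icc]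
        omega
      have n2 : y + 1 ∉ PY w y := by
        simp only [PY, mem_filter, mem_Ioc]
        omega
      rw [e1, e2, sum_insert n2]
      unfold VV at ih ⊢
      rw [prod_insert n1, Nat.add_sub_cancel]
      rw [← ih]
      ring
    · rw [if_neg h] at e1 e2
      rw [e1, e2]
      exact ih

theorem vsum : ∃ C : ℝ, 0 < C ∧ ∀ w y D : ℕ, 2 ≤ w → w ≤ y → y ≤ D →
    ∑ p ∈ PY w y, VV (PW (p - 1)) / p * Real.exp (-(Real.log D / Real.log p)) ≤
      C / Real.log y * Real.exp (-(Real.log D / Real.log y)) := by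
  obtain ⟨C, hC0, hC⟩ := vv_le
  obtain ⟨C1, hC1, hM⟩ := Pool.Agent.H3.LC.mertens
  refine ⟨4 * C * (1 + 2 * C1), by positivity, fun w y D hw hwy hyD => ?_⟩
  have hy2 : 2 ≤ y := hw.trans hwy
  have hy1 : (1 : ℝ) < y := by exact_mod_cast hy2
  have hly : 0 < Real.log y := Real.log_pos hy1
  have hly2 : 1 / 2 ≤ Real.log y := by
    have h1 := Real.log_two_gt_d9
    have h2 : Real.log 2 ≤ Real.log y := Real.log_le_log (by norm_num) (by exact_mod_cast hy2)
    linarith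
  have hlD : Real.log y ≤ Real.log D := Real.log_le_log (by linarith) (by exact_mod_cast hyD)
  have hterm : ∀ p ∈ PY w y, VV (PW (p - 1)) / p * Real.exp (-(Real.log D / Real.log p)) ≤
      4 * C / Real.log y ^ 2 * Real.exp (-(Real.log D / Real.log y)) * (Real.log p / p) := by
    intro p hp
    simp only [PY, mem_filter, mem_Ioc] at hp
    obtain ⟨⟨hp1, hp2⟩, hp3⟩ := hp
    have hp0 : 3 ≤ p := by omega
    have hp0' : (3 : ℝ) ≤ p := by exact_mod_cast hp0
    have hlp : 0 < Real.log p := Real.log_pos (by linarith)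
    have hlp2 : Real.log p ≤ Real.log y := Real.log_le_log (by linarith) (by exact_mod_cast hp2)
    have h1 := hC (p - 1) (by omega)
    have h2 : ((p - 1 : ℕ) : ℝ) = p - 1 := by
      rw [Nat.cast_sub (by omega)]
      norm_num
    rw [h2] at h1
    have h3 : Real.log p ≤ 2 * Real.log ((p : ℝ) - 1) := by
      have h4 : Real.log p ≤ Real.log (((p : ℝ) - 1) ^ 2) := Real.log_le_log (by linarith) (by nlinarith)
      rw [Real.log_pow] at h4
      exact_mod_cast h4
    have h5 : VV (PW (p - 1)) ≤ 2 * C / Real.log p := by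
      refine h1.trans ?_
      have h6 : 0 < Real.log ((p : ℝ) - 1) := by linarith
      rw [div_le_div_iff₀ h6 hlp]
      nlinarith
    obtain ⟨u, hu⟩ : ∃ u, u = Real.log y / Real.log p := ⟨_, rfl⟩
    have hu1 : 1 ≤ u := by
      rw [hu, le_div_iff₀ hlp]
      linarith
    have h7 : Real.log D / Real.log y + (u - 1) ≤ Real.log D / Real.log p := by
      have e1 : Real.log D / Real.log p = Real.log D / Real.log y * u := by
        rw [hu]
        field_simp
      have e2 : 1 ≤ Real.log D / Real.log y := by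
        rw [le_div_iff₀ hly]
        linarith
      rw [e1]
      nlinarith
    have h8 : Real.exp (-(Real.log D / Real.log p)) ≤
        Real.exp (-(Real.log D / Real.log y)) * Real.exp (-(u - 1)) := by
      rw [← Real.exp_add]
      exact Real.exp_le_exp.2 (by linarith)
    have h9 : u ^ 2 * Real.exp (-(u - 1)) ≤ 2 := by
      have h10 := Real.quadratic_le_exp_of_nonneg (show 0 ≤ u - 1 by linarith)
      rw [Real.exp_neg, ← div_eq_mul_inv, div_le_iff₀ (Real.exp_pos _)]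
      nlinarith
    have h11 : (1 / Real.log p) * Real.exp (-(u - 1)) ≤ 2 / Real.log y ^ 2 * Real.log p := by
      have e3 : (1 / Real.log p) * Real.exp (-(u - 1)) =
          (u ^ 2 * Real.exp (-(u - 1))) * (Real.log p / Real.log y ^ 2) := by
        rw [hu]
        field_simp
      rw [e3]
      have h12 : 0 ≤ Real.log p / Real.log y ^ 2 := by positivity
      calc (u ^ 2 * Real.exp (-(u - 1))) * (Real.log p / Real.log y ^ 2) ≤ 2 * (Real.log p / Real.log y ^ 2) :=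
            mul_le_mul_of_nonneg_right h9 h12
        _ = 2 / Real.log y ^ 2 * Real.log p := by ring
    have hE0 : 0 < Real.exp (-(Real.log D / Real.log y)) := Real.exp_pos _
    have hE1 : 0 < Real.exp (-(Real.log D / Real.log p)) := Real.exp_pos _
    calc VV (PW (p - 1)) / p * Real.exp (-(Real.log D / Real.log p))
        ≤ (2 * C / Real.log p) / p * Real.exp (-(Real.log D / Real.log p)) := by
          apply mul_le_mul_of_nonneg_right _ hE1.le
          exact div_le_div_of_nonneg_right h5 (by linarith)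
      _ ≤ (2 * C / Real.log p) / p * (Real.exp (-(Real.log D / Real.log y)) * Real.exp (-(u - 1))) :=
          mul_le_mul_of_nonneg_left h8 (by positivity)
      _ = (2 * C / p * Real.exp (-(Real.log D / Real.log y))) * ((1 / Real.log p) * Real.exp (-(u - 1))) := by ring
      _ ≤ (2 * C / p * Real.exp (-(Real.log D / Real.log y))) * (2 / Real.log y ^ 2 * Real.log p) :=
          mul_le_mul_of_nonneg_left h11 (by positivity)
      _ = _ := by ring
  refine (sum_le_sum hterm).trans ?_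
  rw [← mul_sum]
  have h1 : ∑ p ∈ PY w y, Real.log p / p ≤ ∑ p ∈ (Icc 1 y).filter Nat.Prime, Real.log p / p := by
    refine sum_le_sum_of_subset_of_nonneg ?_ ?_
    · intro p hp
      simp only [PY, mem_filter, mem_Ioc] at hp
      simp only [mem_filter, mem_Icc]
      exact ⟨⟨by omega, hp.1.2⟩, hp.2⟩
    · intro p hp _
      exact div_nonneg (Real.log_natCast_nonneg _) (Nat.cast_nonneg _)
  have h2 := (abs_le.1 (hM y (by omega))).2
  have h3 : ∑ p ∈ PY w y, Real.log p / p ≤ (1 + 2 * C1) * Real.log y := by nlinarith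
  calc 4 * C / Real.log y ^ 2 * Real.exp (-(Real.log D / Real.log y)) * ∑ p ∈ PY w y, Real.log p / p
      ≤ 4 * C / Real.log y ^ 2 * Real.exp (-(Real.log D / Real.log y)) * ((1 + 2 * C1) * Real.log y) :=
        mul_le_mul_of_nonneg_left h3 (by positivity)
    _ = 4 * C * (1 + 2 * C1) / Real.log y * Real.exp (-(Real.log D / Real.log y)) := by
        field_simp

/-- `a log L + b ≤ √L` -/
theorem sv_core (a b : ℝ) : ∃ N0 : ℕ, ∀ N : ℕ, N0 ≤ N →
    a * Real.log (Real.log N) + b ≤ Real.sqrt (Real.log N) := by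
  have h1 := (isLittleO_log_rpow_atTop (show (0 : ℝ) < 1 / 2 by norm_num)).bound
    (c := 1 / (2 * (|a| + 1))) (by positivity)
  have h2 : ∀ᶠ t : ℝ in Filter.atTop, 2 * |b| ≤ t ^ (1 / 2 : ℝ) :=
    (tendsto_rpow_atTop (by norm_num : (0 : ℝ) < 1 / 2)).eventually_ge_atTop _
  have h3 := (h1.and h2).and (Filter.eventually_ge_atTop (1 : ℝ))
  have h4 := (Real.tendsto_log_atTop.comp tendsto_natCast_atTop_atTop).eventually h3
  obtain ⟨N0, h5⟩ := Filter.eventually_atTop.1 h4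
  refine ⟨N0, fun N hN => ?_⟩
  obtain ⟨⟨k1, k2⟩, k3⟩ := h5 N hN
  simp only [Function.comp_apply] at k1 k2 k3
  set t := Real.log (N : ℝ) with ht
  rw [Real.norm_eq_abs, Real.norm_eq_abs, abs_of_nonneg (by positivity : (0 : ℝ) ≤ t ^ (1 / 2 : ℝ))] at k1
  rw [Real.sqrt_eq_rpow]
  set s := t ^ (1 / 2 : ℝ) with hs
  have hs0 : 0 ≤ s := by positivity
  have e1 : a * Real.log t ≤ s / 2 := by
    calc a * Real.log t ≤ |a * Real.log t| := le_abs_self _
      _ = |a| * |Real.log t| := abs_mul _ _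
      _ ≤ |a| * (1 / (2 * (|a| + 1)) * s) := mul_le_mul_of_nonneg_left k1 (abs_nonneg _)
      _ = (|a| / (|a| + 1)) * (s / 2) := by field_simp
      _ ≤ 1 * (s / 2) := by
          refine mul_le_mul_of_nonneg_right ?_ (by positivity)
          rw [div_le_one (by positivity)]
          linarith [abs_nonneg a]
      _ = s / 2 := one_mul _
  have e2 : b ≤ s / 2 := (le_abs_self b).trans (by linarith)
  linarith

/-- `exp(K √L log L) ≤ N^σ` -/
theorem sv_pow (K σ : ℝ) (hσ : 0 < σ) : ∃ N0 : ℕ, ∀ N : ℕ, N0 ≤ N →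
    Real.exp (K * Real.sqrt (Real.log N) * Real.log (Real.log N)) ≤ (N : ℝ) ^ σ := by
  obtain ⟨N1, h1⟩ := sv_core (K / σ) 0
  obtain ⟨N2, h2⟩ := log_ge 1
  refine ⟨max (max N1 N2) 1, fun N hN => ?_⟩
  have g1 := h1 N (((le_max_left _ _).trans (le_max_left _ _)).trans hN)
  have g2 := h2 N (((le_max_right _ _).trans (le_max_left _ _)).trans hN)
  have g3 : 1 ≤ N := (le_max_right _ _).trans hN
  have hN0 : (0 : ℝ) < N := by exact_mod_cast g3
  rw [Real.rpow_def_of_pos hN0]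
  apply Real.exp_le_exp.2
  set L := Real.log (N : ℝ) with hL
  rw [add_zero] at g1
  have hs : 0 ≤ Real.sqrt L := Real.sqrt_nonneg _
  have e1 : K * Real.sqrt L * Real.log L = σ * Real.sqrt L * (K / σ * Real.log L) := by
    field_simp
  rw [e1]
  calc σ * Real.sqrt L * (K / σ * Real.log L) ≤ σ * Real.sqrt L * Real.sqrt L :=
        mul_le_mul_of_nonneg_left g1 (by positivity)
    _ = L * σ := by rw [mul_assoc, Real.mul_self_sqrt (by linarith)]; ring

/-- `K L^M ≤ 2^⌊√L⌋` -/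
theorem sv_two (K : ℝ) (M : ℕ) : ∃ N0 : ℕ, ∀ N : ℕ, N0 ≤ N →
    K * Real.log N ^ M ≤ 2 ^ ⌊Real.sqrt (Real.log N)⌋₊ := by
  obtain ⟨N1, h1⟩ := sv_core (2 * M) (2 * Real.log (|K| + 1) + 1)
  obtain ⟨N2, h2⟩ := log_ge 1
  refine ⟨max N1 N2, fun N hN => ?_⟩
  have g1 := h1 N ((le_max_left _ _).trans hN)
  have g2 := h2 N ((le_max_right _ _).trans hN)
  set L := Real.log (N : ℝ) with hL
  have hL0 : 0 < L := by linarith
  have hf : Real.sqrt L - 1 ≤ (⌊Real.sqrt L⌋₊ : ℝ) := by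
    have := Nat.lt_floor_add_one (Real.sqrt L)
    linarith
  have hl2 : (1 : ℝ) / 2 ≤ Real.log 2 := by
    have := Real.log_two_gt_d9
    linarith
  have hf0 : (0 : ℝ) ≤ (⌊Real.sqrt L⌋₊ : ℝ) := Nat.cast_nonneg _
  calc K * L ^ M ≤ (|K| + 1) * L ^ M := by
        refine mul_le_mul_of_nonneg_right ?_ (by positivity)
        linarith [le_abs_self K]
    _ = Real.exp (Real.log (|K| + 1) + M * Real.log L) := by
        rw [Real.exp_add, Real.exp_log (by positivity), mul_comm (M : ℝ), ← Real.rpow_def_of_pos hL0,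
          Real.rpow_natCast]
    _ ≤ Real.exp ((⌊Real.sqrt L⌋₊ : ℝ) * Real.log 2) := by
        apply Real.exp_le_exp.2
        nlinarith
    _ = 2 ^ ⌊Real.sqrt L⌋₊ := by
        rw [mul_comm, ← Real.rpow_def_of_pos (by norm_num), Real.rpow_natCast]

/-- all the facts -/
theorem sv_ev (e4 e1 ε : ℝ) (he4 : 0 < e4) (he1 : 0 < e1) (he : e1 ≤ e4 / 80) (hε : 0 < ε) (A B : ℕ)
    (hB : 1 ≤ B) :
    ∃ N0 : ℕ, ∀ N : ℕ, N0 ≤ N → ∀ w r D Q : ℕ, w = ⌊Real.log N ^ B⌋₊ → r = ⌊Real.sqrt (Real.log N)⌋₊ →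
      D = ⌊(N : ℝ) ^ (e4 / 40)⌋₊ → Q = w ^ (2 * r) * D ^ 2 →
      8 ≤ Real.log N ∧ 2 ≤ w ∧ w ≤ yN e1 N ∧ Real.log N ^ B / 2 ≤ w ∧ 6 * (1 + Real.log w) ≤ r + 1 ∧
      yN e1 N ≤ D ∧ 1 ≤ D ∧ (yN e1 N : ℝ) ≤ (N : ℝ) ^ e1 ∧ e1 / 2 * Real.log N ≤ Real.log (yN e1 N) ∧
      (Q : ℝ) ≤ (N : ℝ) ^ (e4 / 12) ∧ 6 * (1 + Real.log Q) ^ 3 ≤ Real.log N ^ 4 ∧
      100 * (1 + 2 * Real.log Q) ^ 15 ≤ Real.log N ^ 16 ∧
      8 * Real.log N ^ A ≤ 2 ^ r ∧ 16 * (2 + Real.log (yN e1 N)) * Real.log N ≤ ε * 2 ^ r ∧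
      80 * yN e1 N * (Q : ℝ) ^ 2 * Real.log N ≤ ε * (N : ℝ) ^ e4 ∧
      8 * ((w : ℝ) + 1) ^ (2 * r + 1) * Real.log N ≤ ε * (N : ℝ) ^ e4 ∧
      8 * (Q : ℝ) ^ 4 * Real.log N ^ (A + 4) ≤ (N : ℝ) ^ e4 ∧
      e4 / (50 * e1) ≤ Real.log D / Real.log (yN e1 N) ∧ w ≤ Q ∧ (Q : ℝ) ^ 4 ≤ (N : ℝ) ^ e4 := by
  obtain ⟨M1, hM1⟩ := log_ge (max (max 8 (100 * (1 + e4) ^ 15)) (max (200 / e4) (6 * (1 + e4) ^ 3)))
  obtain ⟨M2, hM2⟩ := log_pow_le e1 1 he1 (by norm_num) B
  obtain ⟨M3, hM3⟩ := sv_core (6 * B) 6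
  obtain ⟨M4, hM4⟩ := log_pow_le (e1 / 2) 2 (by positivity) (by norm_num) 0
  obtain ⟨M5, hM5⟩ := sv_pow (2 * B) (e4 / 60) (by positivity)
  obtain ⟨M6, hM6⟩ := sv_two 8 A
  obtain ⟨M7, hM7⟩ := sv_two (16 * (2 + e1) / ε) 2
  obtain ⟨M8, hM8⟩ := log_pow_le (e4 / 4) (80 / ε) (by positivity) (by positivity) 1
  obtain ⟨M9, hM9⟩ := sv_pow (3 * (B + 1)) (e4 / 4) (by positivity)
  obtain ⟨M10, hM10⟩ := log_pow_le (e4 / 4) 8 (by positivity) (by norm_num) (A + 4)
  obtain ⟨M11, hM11⟩ := log_pow_le (e4 / 40) 2 (by positivity) (by norm_num) 0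
  refine ⟨M1 + M2 + M3 + M4 + M5 + M6 + M7 + M8 + M9 + M10 + M11, fun N hN w r D Q hw hr hD hQ => ?_⟩
  have g1 := hM1 N (by omega)
  have g2 := hM2 N (by omega)
  have g3 := hM3 N (by omega)
  have g4 := hM4 N (by omega)
  have g5 := hM5 N (by omega)
  have g6 := hM6 N (by omega)
  have g7 := hM7 N (by omega)
  have g8 := hM8 N (by omega)
  have g9 := hM9 N (by omega)
  have g10 := hM10 N (by omega)
  have g11 := hM11 N (by omega)
  rw [pow_zero, mul_one] at g4 g11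
  rw [pow_one] at g8
  rw [one_mul] at g2
  set L := Real.log (N : ℝ) with hL
  simp only [max_le_iff] at g1
  obtain ⟨⟨a1, a2⟩, a3, a4⟩ := g1
  have hL0 : 0 < L := by linarith
  have hL1 : 1 ≤ L := by linarith
  have hN0 : N ≠ 0 := by
    rintro rfl
    rw [hL] at a1
    norm_num at a1
  have hN1 : (1 : ℝ) ≤ N := by exact_mod_cast Nat.one_le_iff_ne_zero.2 hN0
  have hNpos : (0 : ℝ) < N := by linarith
  have hLB : 8 ≤ L ^ B := by
    calc (8 : ℝ) ≤ L ^ 1 := by linarith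
      _ ≤ L ^ B := pow_le_pow_right₀ hL1 hB
  have w1 : (w : ℝ) ≤ L ^ B := by rw [hw]; exact Nat.floor_le (by positivity)
  have w2 : L ^ B < w + 1 := by rw [hw]; exact Nat.lt_floor_add_one _
  have w3 : L ^ B / 2 ≤ w := by linarith
  have w4 : (2 : ℝ) ≤ w := by linarith
  have w5 : 2 ≤ w := by exact_mod_cast w4
  have s0 : 0 ≤ Real.sqrt L := Real.sqrt_nonneg _
  have s1 : 1 ≤ Real.sqrt L := by
    rw [Real.one_le_sqrt]
    exact hL1
  have r1 : (r : ℝ) ≤ Real.sqrt L := by rw [hr]; exact Nat.floor_le s0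
  have r2 : Real.sqrt L < r + 1 := by rw [hr]; exact Nat.lt_floor_add_one _
  have r3 : 1 ≤ r := by rw [hr]; exact Nat.floor_pos.2 s1
  have hll : 0 ≤ Real.log L := Real.log_nonneg hL1
  have y1 : (yN e1 N : ℝ) ≤ (N : ℝ) ^ e1 := Nat.floor_le (by positivity)
  have y2 : (N : ℝ) ^ e1 < yN e1 N + 1 := Nat.lt_floor_add_one _
  have y3 : (N : ℝ) ^ (e1 / 2) ≤ yN e1 N := by
    have t1 : (N : ℝ) ^ e1 = (N : ℝ) ^ (e1 / 2) * (N : ℝ) ^ (e1 / 2) := by
      rw [← Real.rpow_add hNpos]; congr 1; ring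
    have t2 := mul_le_mul_of_nonneg_right g4 (show (0 : ℝ) ≤ (N : ℝ) ^ (e1 / 2) by positivity)
    linarith
  have y4 : (2 : ℝ) ≤ yN e1 N := g4.trans y3
  have y5 : e1 / 2 * L ≤ Real.log (yN e1 N) := by
    have := Real.log_le_log (by positivity) y3
    rw [Real.log_rpow hNpos] at this
    exact this
  have y6 : Real.log (yN e1 N) ≤ e1 * L := by
    have := Real.log_le_log (by linarith) y1
    rw [Real.log_rpow hNpos] at this
    exact this
  have y7 : 0 < Real.log (yN e1 N) := lt_of_lt_of_le (by positivity) y5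
  have d1 : (D : ℝ) ≤ (N : ℝ) ^ (e4 / 40) := by rw [hD]; exact Nat.floor_le (by positivity)
  have d2 : (N : ℝ) ^ (e4 / 40) < D + 1 := by rw [hD]; exact Nat.lt_floor_add_one _
  have d3 : (N : ℝ) ^ (e4 / 40) / 2 ≤ D := by linarith
  have d4 : 1 ≤ D := by
    rw [hD]; exact Nat.floor_pos.2 (Real.one_le_rpow hN1 (by positivity))
  have yD : yN e1 N ≤ D := by
    rw [hD]
    unfold yN
    exact Nat.floor_le_floor (Real.rpow_le_rpow_of_exponent_le hN1 (by linarith))
  have wy : w ≤ yN e1 N := by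
    rw [hw]
    unfold yN
    exact Nat.floor_le_floor g2
  -- `w^(2r)`
  have p1 : (w : ℝ) ^ (2 * r) ≤ (N : ℝ) ^ (e4 / 60) := by
    refine le_trans ?_ g5
    calc (w : ℝ) ^ (2 * r) ≤ (L ^ B) ^ (2 * r) := pow_le_pow_left₀ (Nat.cast_nonneg _) w1 _
      _ = Real.exp (((B * (2 * r) : ℕ) : ℝ) * Real.log L) := by
          rw [← pow_mul, mul_comm _ (Real.log L), ← Real.rpow_def_of_pos hL0, Real.rpow_natCast]
      _ ≤ Real.exp (2 * B * Real.sqrt L * Real.log L) := by
          apply Real.exp_le_exp.2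
          refine mul_le_mul_of_nonneg_right ?_ hll
          push_cast
          have : (B : ℝ) * (2 * r) = 2 * B * r := by ring
          rw [this]
          exact mul_le_mul_of_nonneg_left r1 (by positivity)
  have p2 : ((w : ℝ) + 1) ^ (2 * r + 1) ≤ (N : ℝ) ^ (e4 / 4) := by
    refine le_trans ?_ g9
    have t1 : (w : ℝ) + 1 ≤ L ^ (B + 1) := by
      rw [pow_succ]
      have t2 : L ^ B * 2 ≤ L ^ B * L := mul_le_mul_of_nonneg_left (by linarith) (by positivity)
      linarith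
    calc ((w : ℝ) + 1) ^ (2 * r + 1) ≤ (L ^ (B + 1)) ^ (2 * r + 1) := pow_le_pow_left₀ (by positivity) t1 _
      _ = Real.exp ((((B + 1) * (2 * r + 1) : ℕ) : ℝ) * Real.log L) := by
          rw [← pow_mul, mul_comm _ (Real.log L), ← Real.rpow_def_of_pos hL0, Real.rpow_natCast]
      _ ≤ Real.exp (3 * (B + 1) * Real.sqrt L * Real.log L) := by
          apply Real.exp_le_exp.2
          refine mul_le_mul_of_nonneg_right ?_ hll
          push_cast
          have t2 : (2 : ℝ) * r + 1 ≤ 3 * Real.sqrt L := by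
            have : (1 : ℝ) ≤ r := by exact_mod_cast r3
            linarith
          have t3 : ((B : ℝ) + 1) * (2 * r + 1) ≤ (B + 1) * (3 * Real.sqrt L) :=
            mul_le_mul_of_nonneg_left t2 (by positivity)
          linarith
  have q1 : (Q : ℝ) ≤ (N : ℝ) ^ (e4 / 12) := by
    rw [hQ]
    push_cast
    calc (w : ℝ) ^ (2 * r) * (D : ℝ) ^ 2 ≤ (N : ℝ) ^ (e4 / 60) * ((N : ℝ) ^ (e4 / 40)) ^ 2 :=
          mul_le_mul p1 (pow_le_pow_left₀ (Nat.cast_nonneg _) d1 2) (by positivity) (by positivity)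
      _ = (N : ℝ) ^ (e4 / 60 + e4 / 40 * 2) := by
          rw [Real.rpow_add hNpos, Real.rpow_mul hNpos.le (e4 / 40) 2]
          norm_num
      _ ≤ (N : ℝ) ^ (e4 / 12) := Real.rpow_le_rpow_of_exponent_le hN1 (by linarith)
  have q0 : 1 ≤ Q := by
    rw [hQ]
    exact Nat.mul_pos (by positivity) (by positivity)
  have q0r : (1 : ℝ) ≤ Q := by exact_mod_cast q0
  have q2 : Real.log Q ≤ e4 / 12 * L := by
    have := Real.log_le_log (by linarith) q1
    rw [Real.log_rpow hNpos] at this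
    exact this
  have q3 : 0 ≤ Real.log Q := Real.log_nonneg q0r
  have q4 : (Q : ℝ) ^ 4 ≤ (N : ℝ) ^ (e4 / 3) := by
    calc (Q : ℝ) ^ 4 ≤ ((N : ℝ) ^ (e4 / 12)) ^ 4 := pow_le_pow_left₀ (Nat.cast_nonneg _) q1 4
      _ = (N : ℝ) ^ (e4 / 3) := by
          rw [← Real.rpow_natCast, ← Real.rpow_mul hNpos.le]
          congr 1
          push_cast
          ring
  have q5 : (Q : ℝ) ^ 2 ≤ (N : ℝ) ^ (e4 / 6) := by
    calc (Q : ℝ) ^ 2 ≤ ((N : ℝ) ^ (e4 / 12)) ^ 2 := pow_le_pow_left₀ (Nat.cast_nonneg _) q1 2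
      _ = (N : ℝ) ^ (e4 / 6) := by
          rw [← Real.rpow_natCast, ← Real.rpow_mul hNpos.le]
          congr 1
          push_cast
          ring
  refine ⟨a1, w5, wy, w3, ?_, yD, d4, y1, y5, q1, ?_, ?_, ?_, ?_, ?_, ?_, ?_, ?_, ?_, ?_⟩
  · -- 6 (1 + log w) ≤ r + 1
    have t1 : Real.log w ≤ B * Real.log L := by
      have := Real.log_le_log (by linarith) w1
      rw [Real.log_pow] at this
      exact this
    linarith
  · have t1 : 1 + Real.log Q ≤ (1 + e4) * L := by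
      have t2 : 0 ≤ e4 * L := by positivity
      linarith
    calc 6 * (1 + Real.log Q) ^ 3 ≤ 6 * ((1 + e4) * L) ^ 3 :=
          mul_le_mul_of_nonneg_left (pow_le_pow_left₀ (by linarith) t1 3) (by norm_num)
      _ = (6 * (1 + e4) ^ 3) * L ^ 3 := by ring
      _ ≤ L * L ^ 3 := mul_le_mul_of_nonneg_right a4 (by positivity)
      _ = L ^ 4 := by ring
  · have t1 : 1 + 2 * Real.log Q ≤ (1 + e4) * L := by
      have t2 : 0 ≤ e4 * L := by positivity
      linarith
    calc 100 * (1 + 2 * Real.log Q) ^ 15 ≤ 100 * ((1 + e4) * L) ^ 15 :=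
          mul_le_mul_of_nonneg_left (pow_le_pow_left₀ (by linarith) t1 15) (by norm_num)
      _ = (100 * (1 + e4) ^ 15) * L ^ 15 := by ring
      _ ≤ L * L ^ 15 := mul_le_mul_of_nonneg_right a2 (by positivity)
      _ = L ^ 16 := by ring
  · rw [hr]; exact g6
  · rw [hr]
    rw [div_mul_eq_mul_div, div_le_iff₀ hε] at g7
    have t1 : 16 * (2 + Real.log (yN e1 N)) * L ≤ 16 * (2 + e1) * L ^ 2 := by
      have t2 : 2 + Real.log (yN e1 N) ≤ (2 + e1) * L := by linarith
      calc 16 * (2 + Real.log (yN e1 N)) * L ≤ 16 * ((2 + e1) * L) * L :=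
            mul_le_mul_of_nonneg_right (by linarith) hL0.le
        _ = 16 * (2 + e1) * L ^ 2 := by ring
    linarith
  · -- 80 y Q² L
    rw [div_mul_eq_mul_div, div_le_iff₀ hε] at g8
    calc 80 * yN e1 N * (Q : ℝ) ^ 2 * L = (yN e1 N : ℝ) * (Q : ℝ) ^ 2 * (80 * L) := by ring
      _ ≤ (N : ℝ) ^ e1 * (N : ℝ) ^ (e4 / 6) * ((N : ℝ) ^ (e4 / 4) * ε) :=
          mul_le_mul (mul_le_mul y1 q5 (by positivity) (by positivity)) g8 (by positivity) (by positivity)
      _ = ε * (N : ℝ) ^ (e1 + e4 / 6 + e4 / 4) := by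
          rw [Real.rpow_add hNpos, Real.rpow_add hNpos]
          ring
      _ ≤ ε * (N : ℝ) ^ e4 :=
          mul_le_mul_of_nonneg_left (Real.rpow_le_rpow_of_exponent_le hN1 (by linarith)) hε.le
  · rw [div_mul_eq_mul_div, div_le_iff₀ hε] at g8
    calc 8 * ((w : ℝ) + 1) ^ (2 * r + 1) * L = ((w : ℝ) + 1) ^ (2 * r + 1) * (8 * L) := by ring
      _ ≤ (N : ℝ) ^ (e4 / 4) * ((N : ℝ) ^ (e4 / 4) * ε) :=
          mul_le_mul p2 (by linarith) (by positivity) (by positivity)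
      _ = ε * (N : ℝ) ^ (e4 / 4 + e4 / 4) := by
          rw [Real.rpow_add hNpos]
          ring
      _ ≤ ε * (N : ℝ) ^ e4 :=
          mul_le_mul_of_nonneg_left (Real.rpow_le_rpow_of_exponent_le hN1 (by linarith)) hε.le
  · calc 8 * (Q : ℝ) ^ 4 * L ^ (A + 4) = (Q : ℝ) ^ 4 * (8 * L ^ (A + 4)) := by ring
      _ ≤ (N : ℝ) ^ (e4 / 3) * (N : ℝ) ^ (e4 / 4) := mul_le_mul q4 g10 (by positivity) (by positivity)
      _ = (N : ℝ) ^ (e4 / 3 + e4 / 4) := by rw [Real.rpow_add hNpos]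
      _ ≤ (N : ℝ) ^ e4 := Real.rpow_le_rpow_of_exponent_le hN1 (by linarith)
  · rw [div_le_div_iff₀ (by positivity) y7]
    have t1 : e4 / 40 * L - 1 ≤ Real.log D := by
      have := Real.log_le_log (by positivity) d3
      rw [Real.log_div (by positivity) (by norm_num), Real.log_rpow hNpos] at this
      have h2 := Real.log_two_lt_d9
      linarith
    have t2 : 200 ≤ e4 * L := by
      rw [div_le_iff₀ he4] at a3
      linarith
    calc e4 * Real.log (yN e1 N) ≤ e4 * (e1 * L) := mul_le_mul_of_nonneg_left y6 he4.le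
      _ = (e4 / 50 * L) * (50 * e1) := by ring
      _ ≤ (e4 / 40 * L - 1) * (50 * e1) := by
          refine mul_le_mul_of_nonneg_right ?_ (by positivity)
          linarith
      _ ≤ Real.log D * (50 * e1) := mul_le_mul_of_nonneg_right t1 (by positivity)
  · rw [hQ]
    calc w ≤ w ^ (2 * r) := Nat.le_self_pow (by omega) w
      _ ≤ w ^ (2 * r) * D ^ 2 := Nat.le_mul_of_pos_right _ (by positivity)
  · exact q4.trans (Real.rpow_le_rpow_of_exponent_le hN1 (by linarith))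

end Pool.Agent.H78.PD.SL
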