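import Pool.Agent.H78.PD.Defs
import Pool.Agent.H78.PD.SivB
import Pool.Agent.H78.PD.SivC
import Pool.Agent.H87T.SelW


/-!
# PD, Siv: the sieve (black box)

From `sv_pairX` (`H43/PX/SvX.lean`) with `N = m`, a small absolute `ε`, `e1 = e10`, `A = 2`, or directly from `sieve_bb` (`H76/TP/SvBB.lean`) and its tools: `S ≥ 0`, `S ≥ rg y ≥ 0`, `Adm Q g S`, `Q ≤ m^(1/1000)`,
`|g| ≤ 3^ω ≤ d(.)²`, so `∑ |g| ≤ m^(1/1000) m^(1/2000)` (`div_le'`).  `V = ∑_{d ≤ Q} g(d)/d`: `∑_{n ≤ x} S(n) = V x + O(m^(1/500))`; comparing with the means of `S` in `sv_pairX` (`Bs` with `α = 0`, `lam_mean`) or with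
`SvI`: `|V - kS| ≤ 1/(log m)^2 + ...`, and `kS M1 ≤ #rough + ε M1/log m`.  `V ≥ c/log m` as `S ≥ 1` on the primes of `(z, M1]`; with `ε` small against `c`: `(49/50) V M1 ≤ #rough`.  `V ≤ C/log m`: `#rough` in
`(1, M1]` is `≤ C M1/log m` (upper bound sieve, or: `#rough ≤` ... from `vv_le`), or any other way.

In the proof (light imports: `SivA`, `SivB`, `SivC` are copies of the modules of `H76/TP` used): `S = SS w y r ρ` with Selberg's weights (as in `H76/TP/SvBB.lean`), `kS = VV (PW w)/GD w y D`, `|V - kS| ≤ 2^(-r)` (`gs_sing` with `q = 1`), `VV (PW y) ≤ kS ≤ 2 VV (PW y)`, Mertens.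
-/

set_option autoImplicit false

namespace Pool.Agent.H78.PD

section Siv

open Finset
open Pool.Agent.H78.PD.SL

private theorem Siv_mem (w y p : ℕ) (hp : p ∈ PY w y) : w < p ∧ p ≤ y ∧ p.Prime := by
  unfold PY at hp
  rw [mem_filter, mem_Ioc] at hp
  exact ⟨hp.1.1, hp.1.2, hp.2⟩

private theorem Siv_VV_nonneg (T : Finset ℕ) (h : ∀ p ∈ T, 1 ≤ p) : 0 ≤ VV T := by
  unfold VV
  refine prod_nonneg fun p hp => ?_
  have h1 : (1 : ℝ) ≤ p := by exact_mod_cast h p hp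
  have h2 : 1 / (p : ℝ) ≤ 1 := by
    rw [div_le_one (by linarith)]
    exact h1
  linarith

private theorem Siv_VV_le (T : Finset ℕ) (h : ∀ p ∈ T, 1 ≤ p) : VV T ≤ 1 := by
  unfold VV
  refine prod_le_one (fun p hp => ?_) fun p hp => ?_
  · have h1 : (1 : ℝ) ≤ p := by exact_mod_cast h p hp
    have h2 : 1 / (p : ℝ) ≤ 1 := by
      rw [div_le_one (by linarith)]
      exact h1
    linarith
  · have : 0 ≤ 1 / (p : ℝ) := by positivity
    linarith

private theorem Siv_PW (w : ℕ) : ∀ p ∈ PW w, 1 ≤ p := by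
  intro p hp
  unfold PW at hp
  rw [mem_filter, mem_Icc] at hp
  exact hp.1.1

private theorem Siv_PY (w y : ℕ) : ∀ p ∈ PY w y, 1 ≤ p := by
  intro p hp
  have := Siv_mem w y p hp
  omega

private theorem Siv_mul (w y : ℕ) (h : w ≤ y) : VV (PW w) * VV (PY w y) = VV (PW y) := by
  have h1 : PW y = PW w ∪ PY w y := by
    ext p
    unfold PW PY
    simp only [mem_union, mem_filter, mem_Icc, mem_Ioc]
    constructor
    · rintro ⟨⟨a, b⟩, c⟩
      rcases Nat.lt_or_ge w p with h2 | h2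
      · exact Or.inr ⟨⟨h2, b⟩, c⟩
      · exact Or.inl ⟨⟨a, h2⟩, c⟩
    · rintro (⟨⟨a, b⟩, c⟩ | ⟨⟨a, b⟩, c⟩)
      · exact ⟨⟨a, by omega⟩, c⟩
      · exact ⟨⟨by omega, b⟩, c⟩
  have h2 : Disjoint (PW w) (PY w y) := by
    rw [Finset.disjoint_left]
    intro p hp hp2
    have h3 := Siv_mem w y p hp2
    unfold PW at hp
    rw [mem_filter, mem_Icc] at hp
    omega
  rw [h1]
  unfold VV
  rw [prod_union h2]

private theorem Siv_GD (w y D : ℕ) (hD : 1 ≤ D) : 1 ≤ GD w y D := by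
  unfold GD
  have h1 : ∏ p ∈ (∅ : Finset ℕ), (1 / ((p : ℝ) - 1)) = 1 := prod_empty
  rw [← h1]
  refine single_le_sum (f := fun A : Finset ℕ => ∏ p ∈ A, (1 / ((p : ℝ) - 1))) (fun A hA => ?_) ?_
  · rw [mem_filter, mem_powerset] at hA
    refine prod_nonneg fun p hp => ?_
    have h2 : (1 : ℝ) ≤ p := by exact_mod_cast Siv_PY w y p (hA.1 hp)
    have h3 : (0 : ℝ) ≤ (p : ℝ) - 1 := by linarith
    positivity
  · rw [mem_filter, mem_powerset]
    refine ⟨empty_subset _, ?_⟩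
    rw [prod_empty]
    exact hD

/-- Selberg's weights -/
private theorem Siv_sel (w y D : ℕ) (hw : 1 ≤ w) (hD : 1 ≤ D) :
    ∃ ρ : Finset ℕ → ℝ, Rho w y D ρ ∧ SF w y ρ = 1 / GD w y D := by
  obtain ⟨ρ, h1, h2, h3, h4⟩ := Pool.Agent.H87T.sel_weights (PY w y) (Siv_PY w y) (fun p => 1 / (p : ℝ))
    (fun p hp => by
      have h5 := Siv_mem w y p hp
      have h6 : (1 : ℝ) < p := by exact_mod_cast (by omega : 1 < p)
      refine ⟨by positivity, ?_⟩
      rw [div_lt_one (by linarith)]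
      exact h6) D hD
  refine ⟨ρ, ⟨h1, h2, h3⟩, ?_⟩
  have h7 : ∑ A ∈ (PY w y).powerset.filter (fun A => ∏ p ∈ A, p ≤ D), ∏ p ∈ A,
      ((1 / (p : ℝ)) / (1 - 1 / (p : ℝ))) = GD w y D := by
    unfold GD
    refine sum_congr rfl fun A hA => ?_
    rw [mem_filter, mem_powerset] at hA
    refine prod_congr rfl fun p hp => ?_
    have h5 := Siv_mem w y p (hA.1 hp)
    have h6 : (1 : ℝ) < p := by exact_mod_cast (by omega : 1 < p)
    have h8 : (p : ℝ) ≠ 0 := by linarith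
    have h9 : (p : ℝ) - 1 ≠ 0 := by linarith
    field_simp
  rw [h7] at h4
  have h10 : 0 < GD w y D := lt_of_lt_of_le one_pos (Siv_GD w y D hD)
  rw [eq_div_iff h10.ne']
  exact h4

private theorem Siv_adm (w y r D : ℕ) (ρ : Finset ℕ → ℝ) (hw : 1 ≤ w) (hwy : w ≤ y) (hρ : Rho w y D ρ) :
    Adm (w ^ (2 * r) * D ^ 2) (gS w y r ρ) (SS w y r ρ) := by
  refine ⟨fun n hn => ?_, fun n => gs_abs w y r D ρ hρ n, fun m hm => ss_exp w y r D ρ hw hwy hρ m hm⟩
  unfold gS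
  rw [if_neg]
  rintro ⟨h, -⟩
  exact hn h

/-- `1/GD ≤ VV (PY) (1 + 2t)` -/
private theorem Siv_inv (C : ℝ) (hC : 0 < C) (hg : ∀ w y D : ℕ, 2 ≤ w → w ≤ y → 1 ≤ D →
    1 - C * Real.exp (-(Real.log D / Real.log y)) ≤ VV (PY w y) * GD w y D) (w y D : ℕ) (hw : 2 ≤ w)
    (hwy : w ≤ y) (hD : 1 ≤ D) (t : ℝ) (ht : C * Real.exp (-(Real.log D / Real.log y)) ≤ t) (ht2 : t ≤ 1 / 2) :
    VV (PW w) * (1 / GD w y D) ≤ VV (PW y) * (1 + 2 * t) := by
  have h1 := hg w y D hw hwy hD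
  have h2 : 0 < GD w y D := lt_of_lt_of_le one_pos (Siv_GD w y D hD)
  have ht0 : 0 ≤ t := le_trans (by positivity) ht
  rw [← Siv_mul w y hwy, mul_assoc]
  refine mul_le_mul_of_nonneg_left ?_ (Siv_VV_nonneg _ (Siv_PW w))
  rw [div_le_iff₀ h2]
  have h3 : 1 - t ≤ VV (PY w y) * GD w y D := by linarith
  have h4 : (1 - t) * (1 + 2 * t) ≤ VV (PY w y) * GD w y D * (1 + 2 * t) :=
    mul_le_mul_of_nonneg_right h3 (by linarith)
  have h5 : 1 ≤ (1 - t) * (1 + 2 * t) := by nlinarith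
  calc (1 : ℝ) ≤ _ := h5.trans h4
    _ = VV (PY w y) * (1 + 2 * t) * GD w y D := by ring

/-- `(1/e1) exp(-e4/(50 e1))` is small -/
private theorem Siv_small (e4 K δ : ℝ) (he4 : 0 < e4) (hK : 0 < K) (hδ : 0 < δ) :
    ∃ e10 : ℝ, 0 < e10 ∧ ∀ e1 : ℝ, 0 < e1 → e1 ≤ e10 → K / e1 * Real.exp (-(e4 / (50 * e1))) ≤ δ := by
  refine ⟨δ * e4 ^ 2 / (5000 * K), by positivity, fun e1 h0 h1 => ?_⟩
  have h2 : (e4 / (50 * e1)) ^ 2 / 2 ≤ Real.exp (e4 / (50 * e1)) := by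
    have := Real.quadratic_le_exp_of_nonneg (show 0 ≤ e4 / (50 * e1) by positivity)
    have h3 : 0 ≤ e4 / (50 * e1) := by positivity
    linarith
  rw [Real.exp_neg, ← div_eq_mul_inv, div_div, div_le_iff₀ (by positivity)]
  rw [le_div_iff₀ (by positivity)] at h1
  calc K = K := rfl
    _ ≤ δ * (e1 * ((e4 / (50 * e1)) ^ 2 / 2)) := by
        have h4 : δ * (e1 * ((e4 / (50 * e1)) ^ 2 / 2)) = δ * e4 ^ 2 / (5000 * e1) := by
          field_simp
          ring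
        rw [h4, le_div_iff₀ (by positivity)]
        linarith
    _ ≤ δ * (e1 * Real.exp (e4 / (50 * e1))) := by
        refine mul_le_mul_of_nonneg_left ?_ hδ.le
        exact mul_le_mul_of_nonneg_left h2 h0.le

/-- the mean value -/
private theorem Siv_mean (C C1 C2 : ℝ) (hC : 0 < C) (hC1 : 0 < C1) (hC2 : 0 < C2)
    (hg : ∀ w y D : ℕ, 2 ≤ w → w ≤ y → 1 ≤ D →
      1 - C * Real.exp (-(Real.log D / Real.log y)) ≤ VV (PY w y) * GD w y D)
    (hv : ∀ n : ℕ, 2 ≤ n → VV (PW n) ≤ C1 / Real.log n)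
    (hs : ∀ w y D : ℕ, 2 ≤ w → w ≤ y → y ≤ D →
      ∑ p ∈ PY w y, VV (PW (p - 1)) / p * Real.exp (-(Real.log D / Real.log p)) ≤
        C2 / Real.log y * Real.exp (-(Real.log D / Real.log y)))
    (w y r D x l : ℕ) (hw : 2 ≤ w) (hwy : w ≤ y) (hyD : y ≤ D) (hr : 6 * (1 + Real.log w) ≤ r + 1)
    (hE : C * Real.exp (-(Real.log D / Real.log y)) ≤ 1 / 2) :
    VV (PW w) * (1 / GD w y D) * l ≤ ∑ m ∈ Ioc x (x + l), rg y m
      + l * (2 * C * (C1 + C2) / Real.log y * Real.exp (-(Real.log D / Real.log y)))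
      + 2 * l * (2 + Real.log y) / 2 ^ r + 10 * y * ((w : ℝ) ^ (2 * r) * (D : ℝ) ^ 2) ^ 2
      + ((w : ℝ) + 1) ^ (2 * r + 1) := by
  classical
  have hD : 1 ≤ D := by omega
  have hsel : ∀ p : ℕ, ∃ ρ : Finset ℕ → ℝ, Rho w (p - 1) D ρ ∧ SF w (p - 1) ρ = 1 / GD w (p - 1) D :=
    fun p => Siv_sel w (p - 1) D (by omega) hD
  choose ρ hρ1 hρ2 using hsel
  have hGD : ∀ y' : ℕ, 0 < GD w y' D := fun y' => lt_of_lt_of_le one_pos (Siv_GD w y' D hD)
  have hb := buc w y r D x l ρ hw hwy hD hr (fun p _ => ⟨hρ1 p, by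
    rw [hρ2 p]; exact (div_pos one_pos (hGD _)).le, by
    rw [hρ2 p, div_le_one (hGD _)]; exact Siv_GD w (p - 1) D hD⟩)
  have hlogD : 0 ≤ Real.log D := Real.log_natCast_nonneg D
  have hlogy : 0 < Real.log y := Real.log_pos (by exact_mod_cast (by omega : 1 < y))
  -- the sum over the primes
  have h1 : ∑ p ∈ PY w y, VV (PW w) * SF w (p - 1) (ρ p) / p ≤
      ∑ p ∈ PY w y, VV (PW (p - 1)) / p +
        2 * C * (C2 / Real.log y * Real.exp (-(Real.log D / Real.log y))) := by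
    have h2 : ∀ p ∈ PY w y, VV (PW w) * SF w (p - 1) (ρ p) / p ≤ VV (PW (p - 1)) / p +
        2 * C * (VV (PW (p - 1)) / p * Real.exp (-(Real.log D / Real.log p))) := by
      intro p hp
      obtain ⟨p1, p2, p3⟩ := Siv_mem w y p hp
      have hp0 : (0 : ℝ) < p := by exact_mod_cast (by omega : 0 < p)
      have q1 : 0 < Real.log ((p - 1 : ℕ) : ℝ) := Real.log_pos (by exact_mod_cast (by omega : 1 < p - 1))
      have q2 : Real.log ((p - 1 : ℕ) : ℝ) ≤ Real.log p :=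
        Real.log_le_log (by exact_mod_cast (by omega : 0 < p - 1)) (by exact_mod_cast (by omega))
      have q3 : Real.log p ≤ Real.log y := Real.log_le_log hp0 (by exact_mod_cast p2)
      have q4 : 0 < Real.log (p : ℝ) := by linarith
      have q5 : Real.exp (-(Real.log D / Real.log ((p - 1 : ℕ) : ℝ))) ≤ Real.exp (-(Real.log D / Real.log p)) := by
        apply Real.exp_le_exp.2
        have := div_le_div_of_nonneg_left hlogD q1 q2
        linarith
      have q6 : Real.exp (-(Real.log D / Real.log p)) ≤ Real.exp (-(Real.log D / Real.log y)) := by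
        apply Real.exp_le_exp.2
        have := div_le_div_of_nonneg_left hlogD q4 q3
        linarith
      have q7 := Siv_inv C hC hg w (p - 1) D hw (by omega) hD (C * Real.exp (-(Real.log D / Real.log p)))
        (mul_le_mul_of_nonneg_left q5 hC.le) ((mul_le_mul_of_nonneg_left q6 hC.le).trans hE)
      rw [hρ2 p]
      have q8 := div_le_div_of_nonneg_right q7 hp0.le
      refine q8.trans (le_of_eq ?_)
      ring
    refine (sum_le_sum h2).trans ?_
    rw [sum_add_distrib, ← mul_sum]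
    have h3 := mul_le_mul_of_nonneg_left (hs w y D hw hwy hyD) (show 0 ≤ 2 * C by positivity)
    linarith
  have h4 := vbuch w y hwy
  have h5 : VV (PW w) * (1 / GD w y D) ≤ VV (PW y) +
      2 * C * (C1 / Real.log y * Real.exp (-(Real.log D / Real.log y))) := by
    have q7 := Siv_inv C hC hg w y D hw hwy hD _ le_rfl hE
    have q8 := mul_le_mul_of_nonneg_right (hv y (by omega))
      (show 0 ≤ 2 * C * Real.exp (-(Real.log D / Real.log y)) by positivity)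
    calc _ ≤ _ := q7
      _ = VV (PW y) + VV (PW y) * (2 * C * Real.exp (-(Real.log D / Real.log y))) := by ring
      _ ≤ VV (PW y) + C1 / Real.log y * (2 * C * Real.exp (-(Real.log D / Real.log y))) := by linarith
      _ = _ := by ring
  have hl : (0 : ℝ) ≤ l := Nat.cast_nonneg l
  have h6 : VV (PW w) * (1 / GD w y D) * l ≤ l * (VV (PW w) - ∑ p ∈ PY w y, VV (PW w) * SF w (p - 1) (ρ p) / p)
      + l * (2 * C * (C1 + C2) / Real.log y * Real.exp (-(Real.log D / Real.log y))) := by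
    have h7 : VV (PW w) * (1 / GD w y D) ≤ (VV (PW w) - ∑ p ∈ PY w y, VV (PW w) * SF w (p - 1) (ρ p) / p)
        + 2 * C * (C1 + C2) / Real.log y * Real.exp (-(Real.log D / Real.log y)) := by
      have h8 : 2 * C * (C1 + C2) / Real.log y * Real.exp (-(Real.log D / Real.log y)) =
          2 * C * (C1 / Real.log y * Real.exp (-(Real.log D / Real.log y))) +
          2 * C * (C2 / Real.log y * Real.exp (-(Real.log D / Real.log y))) := by ring
      rw [h8]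
      linarith
    have h9 := mul_le_mul_of_nonneg_left h7 hl
    calc VV (PW w) * (1 / GD w y D) * l = l * (VV (PW w) * (1 / GD w y D)) := by ring
      _ ≤ _ := h9
      _ = _ := by ring
  linarith

private theorem Siv_low (w y D : ℕ) (hw : 1 ≤ w) (hwy : w ≤ y) (hD : 1 ≤ D) :
    VV (PW y) ≤ VV (PW w) * (1 / GD w y D) := by
  have hG : GD w y D ≤ ∏ p ∈ PY w y, (1 + 1 / ((p : ℝ) - 1)) := by
    unfold GD
    rw [Finset.prod_one_add]
    refine sum_le_sum_of_subset_of_nonneg (filter_subset _ _) fun A hA _ => ?_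
    rw [mem_powerset] at hA
    refine prod_nonneg fun p hp => ?_
    have h2 : (1 : ℝ) ≤ p := by exact_mod_cast Siv_PY w y p (hA hp)
    have h3 : (0 : ℝ) ≤ (p : ℝ) - 1 := by linarith
    positivity
  have hP : VV (PY w y) * ∏ p ∈ PY w y, (1 + 1 / ((p : ℝ) - 1)) = 1 := by
    unfold VV
    rw [← prod_mul_distrib]
    refine prod_eq_one fun p hp => ?_
    have h5 := Siv_mem w y p hp
    have h6 : (1 : ℝ) < p := by exact_mod_cast (by omega : 1 < p)
    have h8 : (p : ℝ) ≠ 0 := by linarith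
    have h9 : (p : ℝ) - 1 ≠ 0 := by
      intro h
      linarith
    field_simp
    ring
  have hV := Siv_VV_nonneg (PY w y) (Siv_PY w y)
  have hW := Siv_VV_nonneg (PW w) (Siv_PW w)
  have hG1 : 0 < GD w y D := lt_of_lt_of_le one_pos (Siv_GD w y D hD)
  have h1 : VV (PY w y) * GD w y D ≤ 1 := by
    rw [← hP]
    exact mul_le_mul_of_nonneg_left hG hV
  rw [← Siv_mul w y hwy]
  refine mul_le_mul_of_nonneg_left ?_ hW
  rw [le_div_iff₀ hG1]
  exact h1

private theorem Siv_three (n : ℕ) (hn : 1 ≤ n) : (3 : ℝ) ^ n.primeFactors.card ≤ (n : ℝ) ^ 2 := by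
  have h1 : 2 ^ n.primeFactors.card ≤ n := by
    calc 2 ^ n.primeFactors.card ≤ ∏ p ∈ n.primeFactors, p :=
          Finset.pow_card_le_prod _ _ _ fun p hp => (Nat.prime_of_mem_primeFactors hp).two_le
      _ ≤ n := Nat.le_of_dvd hn (Nat.prod_primeFactors_dvd n)
  have h2 : (2 : ℝ) ^ n.primeFactors.card ≤ n := by exact_mod_cast h1
  calc (3 : ℝ) ^ n.primeFactors.card ≤ (2 ^ 2) ^ n.primeFactors.card :=
        pow_le_pow_left₀ (by norm_num) (by norm_num) _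
    _ = ((2 : ℝ) ^ n.primeFactors.card) ^ 2 := by rw [← pow_mul, ← pow_mul, mul_comm]
    _ ≤ (n : ℝ) ^ 2 := pow_le_pow_left₀ (by positivity) h2 2

private theorem Siv_abs (Q : ℕ) (g : ℕ → ℝ) (hg : ∀ n, |g n| ≤ 3 ^ n.primeFactors.card) :
    ∑ d ∈ Icc 1 Q, |g d| ≤ (Q : ℝ) ^ 3 := by
  have h1 : ∀ d ∈ Icc 1 Q, |g d| ≤ (Q : ℝ) ^ 2 := by
    intro d hd
    rw [mem_Icc] at hd
    refine (hg d).trans ((Siv_three d hd.1).trans ?_)
    have h2 : (d : ℝ) ≤ Q := by exact_mod_cast hd.2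
    exact pow_le_pow_left₀ (Nat.cast_nonneg d) h2 2
  refine (sum_le_sum h1).trans (le_of_eq ?_)
  rw [sum_const, Nat.card_Icc, nsmul_eq_mul]
  simp only [Nat.add_sub_cancel]
  ring

end Siv

open Finset
open Pool.Agent.H34PG (lam lam_val lam_mul lam_prime)
open Pool.Agent.H11.LQ Pool.Agent.H78.PG

open Classical in
theorem siv : ∃ κ c C : ℝ, 0 < κ ∧ κ ≤ 1 / 1000 ∧ 0 < c ∧ 0 < C ∧ ∃ m0 : ℕ, ∀ m : ℕ, m0 ≤ m →
    ∃ (S g : ℕ → ℝ) (Q : ℕ) (V : ℝ), (Q : ℝ) ≤ (m : ℝ) ^ (1 / 1000 : ℝ) ∧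
      (∀ n : ℕ, 1 ≤ n → S n = ∑ d ∈ (Icc 1 Q).filter (fun d => d ∣ n), g d) ∧
      ∑ d ∈ Icc 1 Q, |g d| ≤ (m : ℝ) ^ (1 / 500 : ℝ) ∧ V = ∑ d ∈ Icc 1 Q, g d / d ∧
      c / Real.log m ≤ V ∧ V ≤ C / Real.log m ∧
      (∀ n : ℕ, 1 ≤ n → 0 ≤ S n ∧ (rou (zN κ m) n → 1 ≤ S n)) ∧
      49 / 50 * V * M1 m ≤ (((Icc 1 (M1 m)).filter (fun n => rou (zN κ m) n)).card : ℝ) := by
  obtain ⟨C, hC, hg⟩ := SL.gup
  obtain ⟨C1, hC1, hv⟩ := SL.vv_le
  obtain ⟨C2, hC2, hs⟩ := SL.vsum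
  obtain ⟨c0, hc0, hlow⟩ := SL.vv_ge
  obtain ⟨a1, ha1, hs1⟩ := Siv_small (1 / 1000) (4 * C * (C1 + C2)) (c0 / 200 / 2) (by norm_num) (by positivity) (by positivity)
  obtain ⟨a2, ha2, hs2⟩ := Siv_small (1 / 1000) C (1 / 2) (by norm_num) hC (by norm_num)
  obtain ⟨κ, hκ⟩ : ∃ κ : ℝ, κ = min (min a1 a2) (1 / 1000 / 80) := ⟨_, rfl⟩
  have hκ0 : 0 < κ := by rw [hκ]; positivity
  have k1 : κ ≤ a1 := by rw [hκ]; exact (min_le_left _ _).trans (min_le_left _ _)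
  have k2 : κ ≤ a2 := by rw [hκ]; exact (min_le_left _ _).trans (min_le_right _ _)
  have k3 : κ ≤ 1 / 1000 / 80 := by rw [hκ]; exact min_le_right _ _
  have k4 : κ ≤ 1 / 1000 := by linarith
  refine ⟨κ, c0 / 2, 4 * C1 / κ + 1, hκ0, k4, by positivity, by positivity, ?_⟩
  obtain ⟨N0, hN0⟩ := SL.sv_ev (1 / 1000) κ (c0 / 200) (by norm_num) hκ0 k3 (by positivity) 2 1 le_rfl
  obtain ⟨N1, h1⟩ := Filter.eventually_atTop.1 ((Real.tendsto_log_atTop.comp
    (tendsto_natCast_atTop_atTop (R := ℝ))).eventually_ge_atTop (20 / c0))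
  refine ⟨max N0 (max N1 4), fun m hm => ?_⟩
  simp only [max_le_iff] at hm
  obtain ⟨hm0, hm1, hm2⟩ := hm
  have p1 : 20 / c0 ≤ Real.log m := h1 m hm1
  obtain ⟨w, hw⟩ : ∃ w, w = ⌊Real.log m ^ 1⌋₊ := ⟨_, rfl⟩
  obtain ⟨r, hr⟩ : ∃ r, r = ⌊Real.sqrt (Real.log m)⌋₊ := ⟨_, rfl⟩
  obtain ⟨D, hD⟩ : ∃ D, D = ⌊(m : ℝ) ^ ((1 / 1000 : ℝ) / 40)⌋₊ := ⟨_, rfl⟩
  obtain ⟨b1, b2, b3, b4, b5, b6, b7, b8, b9, b10, b11, b12, b13, b14, b15, b16, b17, b18, b19, b20⟩ :=
    hN0 m hm0 w r D (w ^ (2 * r) * D ^ 2) hw hr hD rfl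
  obtain ⟨y, hy⟩ : ∃ y, y = SL.yN κ m := ⟨_, rfl⟩
  have hyz : zN κ m = y := by rw [hy]; rfl
  rw [← hy] at b3 b6 b8 b9 b14 b15 b18
  obtain ⟨L, hL⟩ : ∃ L, L = Real.log (m : ℝ) := ⟨_, rfl⟩
  rw [← hL] at p1 b1 b4 b9 b11 b12 b13 b14 b15 b16 b17
  rw [hyz, ← hL]
  have hL0 : 0 < L := by linarith
  have hmr : (4 : ℝ) ≤ m := by exact_mod_cast hm2
  have hm00 : (0 : ℝ) < m := by linarith
  obtain ⟨ρ, hρ, hSF⟩ := Siv_sel w y D (by omega) b7
  have hGD1 := Siv_GD w y D b7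
  have hGD : 0 < SL.GD w y D := lt_of_lt_of_le one_pos hGD1
  have hAdm := Siv_adm w y r D ρ (by omega) b3 hρ
  have hsing := SL.gs_sing w y r D 1 ρ b2 b3 hρ b5 (by rw [hSF]; positivity)
    (by rw [hSF, div_le_one hGD]; exact hGD1) le_rfl (by omega)
  have hlowy := hlow y (by omega)
  have hvy := hv y (by omega)
  have hlogy : 0 < Real.log y := lt_of_lt_of_le (by positivity) b9
  have hlogy2 : Real.log y ≤ L := by
    have hy0 : (0 : ℝ) < y := by exact_mod_cast (by omega : 0 < y)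
    have h2 : Real.log y ≤ κ * L := by
      have := Real.log_le_log hy0 b8
      rwa [Real.log_rpow hm00, ← hL] at this
    have h3 : κ * L ≤ 1 * L := mul_le_mul_of_nonneg_right (by linarith) hL0.le
    linarith
  have hexp : Real.exp (-(Real.log D / Real.log y)) ≤ Real.exp (-((1 / 1000 : ℝ) / (50 * κ))) := by
    apply Real.exp_le_exp.2
    linarith
  have hE : C * Real.exp (-(Real.log D / Real.log y)) ≤ 1 / 2 := by
    have t1 := hs2 κ hκ0 k2
    have t2 : C * Real.exp (-((1 / 1000 : ℝ) / (50 * κ))) ≤ C / κ * Real.exp (-((1 / 1000 : ℝ) / (50 * κ))) := by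
      refine mul_le_mul_of_nonneg_right ?_ (Real.exp_pos _).le
      rw [le_div_iff₀ hκ0]
      have : C * κ ≤ C * 1 := mul_le_mul_of_nonneg_left (by linarith) hC.le
      linarith
    exact (mul_le_mul_of_nonneg_left hexp hC.le).trans (t2.trans t1)
  obtain ⟨kS, hkS⟩ : ∃ kS, kS = SL.VV (SL.PW w) * (1 / SL.GD w y D) := ⟨_, rfl⟩
  have hk1 : c0 / L ≤ kS := by
    have h2 := Siv_low w y D (by omega) b3 b7
    rw [← hkS] at h2
    have h3 : c0 / L ≤ c0 / Real.log y := div_le_div_of_nonneg_left hc0.le hlogy hlogy2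
    linarith
  have hk2 : kS ≤ 4 * C1 / κ / L := by
    have h2 := Siv_inv C hC hg w y D b2 b3 b7 _ le_rfl hE
    rw [← hkS] at h2
    have h3 : 0 ≤ SL.VV (SL.PW y) := Siv_VV_nonneg _ (Siv_PW y)
    have h4 : kS ≤ SL.VV (SL.PW y) * 2 :=
      h2.trans (mul_le_mul_of_nonneg_left (by linarith) h3)
    have h5 : C1 / Real.log y ≤ C1 / (κ / 2 * L) := div_le_div_of_nonneg_left hC1.le (by positivity) b9
    have h6 : C1 / (κ / 2 * L) * 2 = 4 * C1 / κ / L := by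
      field_simp
      ring
    linarith
  obtain ⟨Q, hQ⟩ : ∃ Q, Q = w ^ (2 * r) * D ^ 2 := ⟨_, rfl⟩
  have hQ' : (w : ℝ) ^ (2 * r) * (D : ℝ) ^ 2 = Q := by rw [hQ]; push_cast; ring
  rw [← hQ] at b10 b11 b12 b15 b17 b19 b20 hAdm hsing
  obtain ⟨V, hV⟩ : ∃ V, V = ∑ d ∈ Icc 1 Q, SL.gS w y r ρ d / d := ⟨_, rfl⟩
  have hVk : |V - kS| ≤ 1 / (8 * L ^ 2) := by
    have h2 : (Icc 1 Q).filter (fun n => 1 ∣ n) = Icc 1 Q := filter_true_of_mem fun n _ => one_dvd n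
    have h3 : |V - kS| ≤ 1 / 2 ^ r := by
      rw [h2, ← hV, hSF] at hsing
      simp only [ArithmeticFunction.moebius_apply_one, Int.cast_one, Nat.totient_one, Nat.cast_one, mul_one, div_one] at hsing
      rw [← hkS] at hsing
      exact hsing
    exact h3.trans (one_div_le_one_div_of_le (by positivity) b13)
  have hVk1 := (abs_le.1 hVk).1
  have hVk2 := (abs_le.1 hVk).2
  have hL20 : 20 / c0 ≤ L := p1
  have hcL : 20 ≤ c0 * L := by
    rw [div_le_iff₀ hc0] at hL20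
    linarith
  -- `1/(8 L²) ≤ c0/(160 L)`
  have hsm : 1 / (8 * L ^ 2) ≤ c0 / 160 / L := by
    rw [div_div, div_le_div_iff₀ (by positivity) (by positivity)]
    have : c0 * (8 * L ^ 2) = 8 * L * (c0 * L) := by ring
    rw [this]
    have h2 : 8 * L * 20 ≤ 8 * L * (c0 * L) := mul_le_mul_of_nonneg_left hcL (by positivity)
    linarith
  have hsm2 : 1 / (8 * L ^ 2) ≤ 1 / L := by
    apply one_div_le_one_div_of_le hL0
    have h2 : L * 8 ≤ L * L := mul_le_mul_of_nonneg_left b1 hL0.le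
    have h3 : L * L = L ^ 2 := by ring
    have h4 : 0 < L ^ 2 := by positivity
    linarith
  have e1 : c0 / 160 / L = 1 / 160 * (c0 / L) := by ring
  have e0 : 0 < c0 / L := by positivity
  refine ⟨SL.SS w y r ρ, SL.gS w y r ρ, Q, V, ?_, hAdm.2.2, ?_, hV, ?_, ?_, ?_, ?_⟩
  · refine b10.trans (Real.rpow_le_rpow_of_exponent_le (by linarith) (by norm_num))
  · refine (Siv_abs Q _ hAdm.2.1).trans ?_
    have hQ0 : (0 : ℝ) ≤ Q := Nat.cast_nonneg Q
    calc (Q : ℝ) ^ 3 ≤ ((m : ℝ) ^ ((1 / 1000 : ℝ) / 12)) ^ 3 := pow_le_pow_left₀ hQ0 b10 3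
      _ = (m : ℝ) ^ ((1 / 1000 : ℝ) / 12 * 3) := by
          rw [Real.rpow_mul hm00.le]
          norm_num
      _ ≤ _ := Real.rpow_le_rpow_of_exponent_le (by linarith) (by norm_num)
  · have h2 : c0 / 2 / L = 1 / 2 * (c0 / L) := by ring
    rw [h2]
    linarith
  · have h2 : (4 * C1 / κ + 1) / L = 4 * C1 / κ / L + 1 / L := by ring
    rw [h2]
    linarith
  · intro n hn
    refine ⟨SL.ss_nonneg w y r ρ n, fun h => ?_⟩
    have h2 := SL.ss_ge w y r D ρ b3 hρ n hn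
    have h3 : SL.rg y n = 1 := by
      unfold SL.rg
      exact if_pos h
    rw [h3] at h2
    exact h2
  · have hMr : (m : ℝ) ^ (1 / 1000 : ℝ) ≤ M1 m := by
      unfold M1
      have h2 : (m : ℝ) ^ (1 / 1000 : ℝ) + 1 ≤ (m : ℝ) ^ (201 / 400 : ℝ) := by
        have h4 : (m : ℝ) ^ (201 / 400 : ℝ) = (m : ℝ) ^ (1 / 1000 : ℝ) * (m : ℝ) ^ (1003 / 2000 : ℝ) := by
          rw [← Real.rpow_add hm00]
          norm_num
        have h5 : (2 : ℝ) ≤ (m : ℝ) ^ (1003 / 2000 : ℝ) := by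
          calc (2 : ℝ) = Real.sqrt (2 ^ 2) := (Real.sqrt_sq (by norm_num)).symm
            _ ≤ Real.sqrt m := Real.sqrt_le_sqrt (by linarith)
            _ = (m : ℝ) ^ (1 / 2 : ℝ) := Real.sqrt_eq_rpow _
            _ ≤ _ := Real.rpow_le_rpow_of_exponent_le (by linarith) (by norm_num)
        have h6 : (1 : ℝ) ≤ (m : ℝ) ^ (1 / 1000 : ℝ) := Real.one_le_rpow (by linarith) (by norm_num)
        have h7 := mul_le_mul_of_nonneg_left h5 (show 0 ≤ (m : ℝ) ^ (1 / 1000 : ℝ) by linarith)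
        rw [h4]
        linarith
      have h3 := Nat.lt_floor_add_one ((m : ℝ) ^ (201 / 400 : ℝ))
      linarith
    obtain ⟨M, hM⟩ : ∃ M, M = M1 m := ⟨_, rfl⟩
    rw [← hM] at hMr ⊢
    have key := Siv_mean C C1 C2 hC hC1 hC2 hg hv hs w y r D 0 M b2 b3 b6 b5 hE
    rw [← hkS, hQ', zero_add] at key
    have hcard : ∑ n ∈ Ioc 0 M, SL.rg y n =
        (((Icc 1 M).filter (fun n => rou y n)).card : ℝ) := by
      rw [card_filter]
      push_cast
      refine sum_congr (by ext n; simp [mem_Ioc, mem_Icc, Nat.succ_le_iff]) fun n _ => ?_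
      rfl
    rw [hcard] at key
    obtain ⟨R, hR⟩ : ∃ R : ℝ, R = (((Icc 1 M).filter (fun n => rou y n)).card : ℝ) := ⟨_, rfl⟩
    rw [← hR] at key ⊢
    have hM0 : (0 : ℝ) ≤ M := Nat.cast_nonneg M
    have h2r : (0 : ℝ) < 2 ^ r := by positivity
    obtain ⟨ε, hε⟩ : ∃ ε : ℝ, ε = c0 / 200 := ⟨_, rfl⟩
    have hε0 : 0 < ε := by rw [hε]; positivity
    rw [← hε] at hs1 b14 b15 b16
    have m1 : (M : ℝ) * (2 * C * (C1 + C2) / Real.log y * Real.exp (-(Real.log D / Real.log y))) ≤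
        ε / 2 * M / L := by
      have t1 := hs1 κ hκ0 k1
      have t2 : 2 * C * (C1 + C2) / Real.log y ≤ 4 * C * (C1 + C2) / κ / L := by
        rw [div_div, div_le_div_iff₀ hlogy (by positivity)]
        have t3 := mul_le_mul_of_nonneg_left b9 (show 0 ≤ 4 * C * (C1 + C2) by positivity)
        linarith
      have t4 : 2 * C * (C1 + C2) / Real.log y * Real.exp (-(Real.log D / Real.log y)) ≤
          4 * C * (C1 + C2) / κ / L * Real.exp (-((1 / 1000 : ℝ) / (50 * κ))) :=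
        mul_le_mul t2 hexp (Real.exp_pos _).le (by positivity)
      have t5 : 4 * C * (C1 + C2) / κ / L * Real.exp (-((1 / 1000 : ℝ) / (50 * κ))) =
          (4 * C * (C1 + C2) / κ * Real.exp (-((1 / 1000 : ℝ) / (50 * κ)))) / L := by ring
      rw [t5] at t4
      have t6 := t4.trans (div_le_div_of_nonneg_right t1 hL0.le)
      calc _ ≤ (M : ℝ) * (ε / 2 / L) := mul_le_mul_of_nonneg_left t6 hM0
        _ = ε / 2 * M / L := by ring
    have m2 : 2 * M * (2 + Real.log y) / 2 ^ r ≤ ε / 8 * M / L := by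
      rw [div_le_div_iff₀ h2r hL0]
      have t1 := mul_le_mul_of_nonneg_left b14 hM0
      linarith
    have m3 : 10 * y * (Q : ℝ) ^ 2 ≤ ε / 8 * M / L := by
      rw [le_div_iff₀ hL0]
      have t1 := mul_le_mul_of_nonneg_left hMr hε0.le
      linarith
    have m4 : ((w : ℝ) + 1) ^ (2 * r + 1) ≤ ε / 8 * M / L := by
      rw [le_div_iff₀ hL0]
      have t1 := mul_le_mul_of_nonneg_left hMr hε0.le
      linarith
    have m5 : ε * M / L = ε / 2 * M / L + ε / 8 * M / L + ε / 8 * M / L + ε / 8 * M / L + ε / 8 * M / L := by ring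
    have m6 : 0 ≤ ε / 8 * M / L := by positivity
    have m7 : kS * M ≤ R + ε * M / L := by
      rw [m5]
      linarith
    have m8 : 49 / 50 * V ≤ kS - ε / L := by
      have h2 : ε / L = 1 / 200 * (c0 / L) := by rw [hε]; ring
      rw [h2]
      linarith
    have m9 := mul_le_mul_of_nonneg_right m8 hM0
    have m10 : (kS - ε / L) * M = kS * M - ε * M / L := by ring
    linarith

end Pool.Agent.H78.PD
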