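import Pool.Agent.H78.PD.Par

/-!
# PD, Comp: vectors at comparable numbers are close

`N = max n n'`, `Y = m/(2N)`; `d χ = cc χ (vv n - vv n')`.  `quasi` (`PG/TQO.lean`) on `cop m Y`: `(#cop m Y - #U KK m) ∑_U |d χ|² ≤ ∑_{y ∈ cop m Y} |∑_U d χ χ(y)|²`, and
`∑_U d χ χ(y) = λ(n) GU(n y) - λ(n') GU(n' y)`, `|λ(n) GU(ny) - λ(y)| = |GU(ny) - λ(n)λ(y)|`, so the right side is `≤ 2 ∑_{y ≤ Y} |..n..|² + 2 ∑ |..n'..|² ≤ (φ/n) dn n + (φ/n') dn n'`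
(`cop m Y ⊆ cop m (m/(2n))`).  `Y ≥ m^(401/800)/2 - 1`; `#cop m Y ≥ φ Y/m - 2^ω` (`cop_card_ge`), `#U KK ≤ m^(1/2000 + 1/2 + 1/10000)` (`KK_le`), `φ ≥ m^(1 - 1/10000)` (`tot_le`), `2^ω ≤ m^(1/10000)` (`two_pow_le`): so
`#cop m Y - #U KK ≥ (φ/m)(Y/2)·... ≥ φ/(4N)` (`Y ≥ (9/10) m/(2N)`), and `∑_U |d χ|² = Nrm ≤ (4N/φ)(φ/n dn n + φ/n' dn n') ≤ 4R(dn n + dn n')` (`N ≤ R n`, `N ≤ R n'`).
-/

set_option autoImplicit false

namespace Pool.Agent.H78.PD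

open Finset
open Pool.Agent.H34PG (lam lam_val lam_mul lam_prime)
open Pool.Agent.H11.LQ Pool.Agent.H78.PG

theorem Comp_lam_sq {n : ℕ} (hn : 1 ≤ n) : ((lam n : ℤ) : ℂ) * ((lam n : ℤ) : ℂ) = 1 := by
  rcases lam_val n with h | h <;> rw [h] <;> norm_num

theorem Comp_lam_norm {n : ℕ} (hn : 1 ≤ n) : ‖((lam n : ℤ) : ℂ)‖ = 1 := by
  rcases lam_val n with h | h <;> rw [h] <;> simp

/-- the expansion at `x` -/
theorem Comp_exp (m : ℕ) [NeZero m] (η : ℤ) (U : Finset (DirichletCharacter ℂ m)) (n x : ℕ) :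
    ∑ χ ∈ U, cc m (FC m η) χ * vv m χ n * χ (x : ZMod m) = ((lam n : ℤ) : ℂ) * GU m η U (n * x) := by
  unfold GU vv
  rw [mul_sum]
  refine sum_congr rfl fun χ _ => ?_
  rw [Nat.cast_mul, map_mul]
  ring

theorem Comp_norm (m : ℕ) [NeZero m] (η : ℤ) (U : Finset (DirichletCharacter ℂ m)) {n : ℕ} (hn : 1 ≤ n) (x : ℕ) :
    ‖((lam n : ℤ) : ℂ) * GU m η U (n * x) - ((lam x : ℤ) : ℂ)‖
      = ‖((lam n : ℤ) : ℂ) * ((lam x : ℤ) : ℂ) - GU m η U (n * x)‖ := by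
  have h : ((lam n : ℤ) : ℂ) * GU m η U (n * x) - ((lam x : ℤ) : ℂ)
      = -(((lam n : ℤ) : ℂ) * (((lam n : ℤ) : ℂ) * ((lam x : ℤ) : ℂ) - GU m η U (n * x))) := by
    have h2 := Comp_lam_sq hn
    linear_combination ((lam x : ℤ) : ℂ) * h2
  rw [h, norm_neg, norm_mul, Comp_lam_norm hn, one_mul]

theorem Comp_tri (a b c : ℂ) : ‖a - b‖ ^ 2 ≤ 2 * ‖a - c‖ ^ 2 + 2 * ‖b - c‖ ^ 2 := by
  have h : ‖a - b‖ ≤ ‖a - c‖ + ‖b - c‖ := by
    have : a - b = (a - c) - (b - c) := by ring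
    rw [this]; exact norm_sub_le _ _
  have h0 := norm_nonneg (a - b)
  nlinarith [sq_nonneg (‖a - c‖ - ‖b - c‖), norm_nonneg (a - c), norm_nonneg (b - c)]

theorem Comp_dn_nonneg (m : ℕ) [NeZero m] (η : ℤ) (U : Finset (DirichletCharacter ℂ m)) (n : ℕ) : 0 ≤ dn m η U n := by
  unfold dn
  positivity

/-- the sum over a shorter range -/
theorem Comp_sum (m : ℕ) [NeZero m] (η : ℤ) (U : Finset (DirichletCharacter ℂ m)) {n Y : ℕ} (hn : 1 ≤ n) (hY : Y ≤ m / (2 * n)) :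
    ∑ x ∈ cop m Y, ‖((lam n : ℤ) : ℂ) * GU m η U (n * x) - ((lam x : ℤ) : ℂ)‖ ^ 2
      ≤ (m.totient : ℝ) / (2 * n) * dn m η U n := by
  have hn0 : (0 : ℝ) < n := by exact_mod_cast hn
  have hφ : (0 : ℝ) < m.totient := by
    exact_mod_cast Nat.totient_pos.2 (Nat.pos_of_ne_zero (NeZero.ne m))
  have h1 : (m.totient : ℝ) / (2 * n) * dn m η U n = ∑ y ∈ cop m (m / (2 * n)),
      ‖((lam n : ℤ) : ℂ) * ((lam y : ℤ) : ℂ) - GU m η U (n * y)‖ ^ 2 := by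
    unfold dn
    rw [← mul_assoc]
    have : (m.totient : ℝ) / (2 * n) * (2 * n / m.totient) = 1 := by field_simp
    rw [this, one_mul]
  rw [h1]
  have hsub : cop m Y ⊆ cop m (m / (2 * n)) := by
    intro x hx
    rw [mem_cop] at hx ⊢
    exact ⟨hx.1, hx.2.1.trans hY, hx.2.2⟩
  refine le_trans (le_of_eq ?_) (sum_le_sum_of_subset_of_nonneg hsub fun _ _ _ => by positivity)
  refine sum_congr rfl fun x _ => ?_
  rw [Comp_norm m η U hn]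

/-- the upper bound of the quasi-orthogonal sum -/
theorem Comp_upper (m : ℕ) [NeZero m] (η : ℤ) (U : Finset (DirichletCharacter ℂ m)) {n n' Y : ℕ} (hn : 1 ≤ n) (hn' : 1 ≤ n')
    (hY : Y ≤ m / (2 * n)) (hY' : Y ≤ m / (2 * n')) :
    ∑ x ∈ cop m Y, ‖∑ χ ∈ U, (cc m (FC m η) χ * (vv m χ n - vv m χ n')) * χ (x : ZMod m)‖ ^ 2
      ≤ (m.totient : ℝ) / n * dn m η U n + (m.totient : ℝ) / n' * dn m η U n' := by
  have h1 := Comp_sum m η U hn hY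
  have h2 := Comp_sum m η U hn' hY'
  have h3 : ∀ x ∈ cop m Y, ‖∑ χ ∈ U, (cc m (FC m η) χ * (vv m χ n - vv m χ n')) * χ (x : ZMod m)‖ ^ 2
      ≤ 2 * ‖((lam n : ℤ) : ℂ) * GU m η U (n * x) - ((lam x : ℤ) : ℂ)‖ ^ 2
        + 2 * ‖((lam n' : ℤ) : ℂ) * GU m η U (n' * x) - ((lam x : ℤ) : ℂ)‖ ^ 2 := by
    intro x _
    have h4 : ∑ χ ∈ U, (cc m (FC m η) χ * (vv m χ n - vv m χ n')) * χ (x : ZMod m)
        = ((lam n : ℤ) : ℂ) * GU m η U (n * x) - ((lam n' : ℤ) : ℂ) * GU m η U (n' * x) := by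
      rw [← Comp_exp, ← Comp_exp, ← sum_sub_distrib]
      exact sum_congr rfl fun χ _ => by ring
    rw [h4]
    exact Comp_tri _ _ _
  refine (sum_le_sum h3).trans ?_
  rw [sum_add_distrib, ← mul_sum, ← mul_sum]
  have e1 : (m.totient : ℝ) / n * dn m η U n = 2 * ((m.totient : ℝ) / (2 * n) * dn m η U n) := by
    have hn0 : (0 : ℝ) < n := by exact_mod_cast hn
    field_simp
  have e2 : (m.totient : ℝ) / n' * dn m η U n' = 2 * ((m.totient : ℝ) / (2 * n') * dn m η U n') := by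
    have hn0 : (0 : ℝ) < n' := by exact_mod_cast hn'
    field_simp
  rw [e1, e2]
  linarith

theorem Comp_nrm (m : ℕ) [NeZero m] (η : ℤ) (U : Finset (DirichletCharacter ℂ m)) (d : DirichletCharacter ℂ m → ℂ) :
    ∑ χ ∈ U, ‖cc m (FC m η) χ * d χ‖ ^ 2 = Nrm m η U d := by
  unfold Nrm ww
  exact sum_congr rfl fun χ _ => by rw [norm_mul, mul_pow]

/-- the lower bound of the number of summands -/
theorem Comp_lower : ∃ m0 : ℕ, ∀ m : ℕ, m0 ≤ m → ∀ c : ℝ, 0 ≤ c → c ≤ (m : ℝ) ^ (1 / 2000 : ℝ) → ∀ N : ℕ, 1 ≤ N →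
    (N : ℝ) ≤ (m : ℝ) ^ (399 / 800 : ℝ) →
    (m.totient : ℝ) / (4 * N) ≤ ((cop m (m / (2 * N))).card : ℝ) - c * KK m := by
  obtain ⟨m1, H1⟩ := two_pow_le (1 / 10000) (by norm_num)
  obtain ⟨m2, H2⟩ := KK_le (1 / 10000) (by norm_num)
  obtain ⟨m3, H3⟩ := tot_le (1 / 10000) (by norm_num)
  obtain ⟨m4, H4⟩ := grow 12 0 (1 / 2000) (by norm_num)
  refine ⟨m1 + m2 + m3 + m4 + 1, fun m hm c hc0 hc N hN hNm => ?_⟩
  have h1 := H1 m (by omega)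
  have h2 := H2 m (by omega)
  have h3 := H3 m (by omega)
  have h4 := H4 m (by omega)
  rw [pow_zero, mul_one] at h4
  have hmN : 1 ≤ m := by omega
  have hm1 : (1 : ℝ) ≤ m := by exact_mod_cast hmN
  have hm0 : (0 : ℝ) < m := by linarith
  have hN0 : (0 : ℝ) < N := by exact_mod_cast hN
  have hcop := cop_card_ge m (m / (2 * N)) hmN
  -- the length
  have hY : (m : ℝ) / (2 * N) - 1 ≤ ((m / (2 * N) : ℕ) : ℝ) := by
    have := Nat.lt_floor_add_one ((m : ℝ) / ((2 * N : ℕ) : ℝ))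
    rw [Nat.floor_div_natCast, Nat.floor_natCast] at this
    push_cast at this ⊢
    linarith
  have hφm : (m.totient : ℝ) ≤ m := by exact_mod_cast Nat.totient_le m
  have hφ0 : (0 : ℝ) ≤ m.totient := Nat.cast_nonneg _
  have hYφ : (m.totient : ℝ) / (2 * N) - 1 ≤ ((m / (2 * N) : ℕ) : ℝ) * m.totient / m := by
    have e1 : ((m : ℝ) / (2 * N) - 1) * m.totient / m ≤ ((m / (2 * N) : ℕ) : ℝ) * m.totient / m := by
      gcongr
    have e2 : ((m : ℝ) / (2 * N) - 1) * m.totient / m = (m.totient : ℝ) / (2 * N) - m.totient / m := by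
      field_simp
    have e3 : (m.totient : ℝ) / m ≤ 1 := by
      rw [div_le_one hm0]; exact hφm
    linarith
  -- the size of the other terms
  obtain ⟨A, hA⟩ : ∃ A : ℝ, A = (m : ℝ) ^ (5006 / 10000 : ℝ) := ⟨_, rfl⟩
  have hA1 : 1 ≤ A := by
    rw [hA]; exact Real.one_le_rpow hm1 (by norm_num)
  have hP : (2 : ℝ) ^ (m.primeFactors.card) ≤ A := by
    refine h1.trans ?_
    rw [hA]
    exact Real.rpow_le_rpow_of_exponent_le hm1 (by norm_num)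
  have hK : c * KK m ≤ A := by
    have e1 : c * KK m ≤ (m : ℝ) ^ (1 / 2000 : ℝ) * (m : ℝ) ^ (1 / 2 + 1 / 10000 : ℝ) := by
      refine (mul_le_mul_of_nonneg_left h2 hc0).trans ?_
      exact mul_le_mul_of_nonneg_right hc (by positivity)
    rw [← Real.rpow_add hm0] at e1
    refine e1.trans (le_of_eq ?_)
    rw [hA]; norm_num
  have hbig : 3 * A ≤ (m.totient : ℝ) / (4 * N) := by
    rw [le_div_iff₀ (by positivity)]
    have e1 : 3 * A * (4 * N) ≤ A * (m : ℝ) ^ (1 / 2000 : ℝ) * (m : ℝ) ^ (399 / 800 : ℝ) := by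
      have : 3 * A * (4 * N) = A * 12 * N := by ring
      rw [this]
      gcongr
    refine e1.trans ?_
    rw [hA, ← Real.rpow_add hm0, ← Real.rpow_add hm0]
    have e2 : (m : ℝ) ^ (1 / 10000 : ℝ) * (m : ℝ) ^ (5006 / 10000 + 1 / 2000 + 399 / 800 : ℝ) ≤ m := by
      rw [← Real.rpow_add hm0]
      calc (m : ℝ) ^ (1 / 10000 + (5006 / 10000 + 1 / 2000 + 399 / 800) : ℝ) ≤ (m : ℝ) ^ (1 : ℝ) :=
            Real.rpow_le_rpow_of_exponent_le hm1 (by norm_num)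
        _ = m := Real.rpow_one _
    have hpos : (0 : ℝ) < (m : ℝ) ^ (1 / 10000 : ℝ) := by positivity
    exact le_of_mul_le_mul_left (e2.trans h3) hpos
  have e5 : (m.totient : ℝ) / (2 * N) = (m.totient : ℝ) / (4 * N) + (m.totient : ℝ) / (4 * N) := by
    field_simp
    ring
  linarith

theorem comp : ∃ m0 : ℕ, ∀ (m : ℕ) [NeZero m], m0 ≤ m → ∀ η : ℤ, (η = 1 ∨ η = -1) →
    ∀ U : Finset (DirichletCharacter ℂ m), (U.card : ℝ) ≤ (m : ℝ) ^ (1 / 2000 : ℝ) →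
    ∀ R : ℝ, 1 ≤ R → ∀ n n' : ℕ, 1 ≤ n → 1 ≤ n' → n.Coprime m → n'.Coprime m →
    (n : ℝ) ≤ (m : ℝ) ^ (399 / 800 : ℝ) → (n' : ℝ) ≤ (m : ℝ) ^ (399 / 800 : ℝ) →
    (n : ℝ) ≤ R * n' → (n' : ℝ) ≤ R * n →
    Nrm m η U (fun χ => vv m χ n - vv m χ n') ≤ 4 * R * (dn m η U n + dn m η U n') := by
  obtain ⟨m1, H⟩ := Comp_lower
  refine ⟨m1 + 1, fun m _ hm η _ U hU R hR n n' hn hn' _ _ hnm hnm' hRn hRn' => ?_⟩
  have hφ : (0 : ℝ) < m.totient := by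
    exact_mod_cast Nat.totient_pos.2 (Nat.pos_of_ne_zero (NeZero.ne m))
  have hn0 : (0 : ℝ) < n := by exact_mod_cast hn
  have hn0' : (0 : ℝ) < n' := by exact_mod_cast hn'
  obtain ⟨N, hN1, hnN, hnN', hNm, hNR, hNR'⟩ : ∃ N : ℕ, 1 ≤ N ∧ n ≤ N ∧ n' ≤ N ∧ (N : ℝ) ≤ (m : ℝ) ^ (399 / 800 : ℝ) ∧
      (N : ℝ) ≤ R * n ∧ (N : ℝ) ≤ R * n' := by
    rcases le_total n n' with h | h
    · refine ⟨n', hn', h, le_rfl, hnm', hRn', ?_⟩
      nlinarith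
    · refine ⟨n, hn, le_rfl, h, hnm, ?_, hRn⟩
      nlinarith
  have hN0 : (0 : ℝ) < N := by exact_mod_cast hN1
  have hlow := H m (by omega) (U.card : ℝ) (Nat.cast_nonneg _) hU N hN1 hNm
  have hY : m / (2 * N) ≤ m / (2 * n) := Nat.div_le_div_left (by omega) (by omega)
  have hY' : m / (2 * N) ≤ m / (2 * n') := Nat.div_le_div_left (by omega) (by omega)
  have hup := Comp_upper m η U hn hn' hY hY'
  have hq := quasi m U (fun χ => cc m (FC m η) χ * (vv m χ n - vv m χ n')) (m / (2 * N))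
  simp only [Comp_nrm m η U (fun χ => vv m χ n - vv m χ n')] at hq
  have hN := hq.trans hup
  obtain ⟨T, hT⟩ : ∃ T : ℝ, T = Nrm m η U (fun χ => vv m χ n - vv m χ n') := ⟨_, rfl⟩
  rw [← hT] at hN ⊢
  have hT0 : 0 ≤ T := by
    rw [hT, ← Comp_nrm]
    exact sum_nonneg fun _ _ => by positivity
  have h1 : (m.totient : ℝ) / (4 * N) * T ≤ (m.totient : ℝ) / n * dn m η U n + (m.totient : ℝ) / n' * dn m η U n' :=
    (mul_le_mul_of_nonneg_right hlow hT0).trans hN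
  have d1 := Comp_dn_nonneg m η U n
  have d2 := Comp_dn_nonneg m η U n'
  obtain ⟨a, ha⟩ : ∃ a : ℝ, a = dn m η U n := ⟨_, rfl⟩
  obtain ⟨b, hb⟩ : ∃ b : ℝ, b = dn m η U n' := ⟨_, rfl⟩
  rw [← ha] at h1 d1
  rw [← hb] at h1 d2
  rw [← ha, ← hb]
  have h2 : T ≤ 4 * ((N : ℝ) / n * a + N / n' * b) := by
    have e1 : T = (4 * N / m.totient) * ((m.totient : ℝ) / (4 * N) * T) := by
      field_simp
    have e2 : 4 * ((N : ℝ) / n * a + N / n' * b) = (4 * N / m.totient) * ((m.totient : ℝ) / n * a + (m.totient : ℝ) / n' * b) := by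
      field_simp
    rw [e1, e2]
    exact mul_le_mul_of_nonneg_left h1 (by positivity)
  have e3 : (N : ℝ) / n ≤ R := by rw [div_le_iff₀ hn0]; exact hNR
  have e4 : (N : ℝ) / n' ≤ R := by rw [div_le_iff₀ hn0']; exact hNR'
  have e5 : (N : ℝ) / n * a ≤ R * a := mul_le_mul_of_nonneg_right e3 d1
  have e6 : (N : ℝ) / n' * b ≤ R * b := mul_le_mul_of_nonneg_right e4 d2
  calc T ≤ 4 * ((N : ℝ) / n * a + N / n' * b) := h2
    _ ≤ 4 * (R * a + R * b) := by linarith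
    _ = 4 * R * (a + b) := by ring

end Pool.Agent.H78.PD
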