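import Pool.Agent.H78.PD.Par

/-!
# PD, Del: the total defect

`dn n / n = (2/φ) ∑_{y ∈ cop m (m/(2n))} ‖λ(ny) - GU(ny)‖²` (`lam_mul`), `x = n y ∈ cop m (m/2)`; so `∑_{n ∈ BR} dn n/n ≤ (2/φ) ∑_{x ∈ cop m (m/2)} ‖λ(x) - GU x‖² #{n ∈ BR : n ∣ x}` and `half_phi`.
A number `x ≤ m` has at most `2^(1/κ)` `zN κ m`-rough divisors: the primes `> zN` are `> m^κ`, so the rough part of `x` has at most `1/κ` prime factors (with multiplicity), and `d(r) ≤ 2^Ω(r)`.
`τ = 2 · 2^(1/κ)`.
-/

set_option autoImplicit false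

namespace Pool.Agent.H78.PD

open Finset
open Pool.Agent.H34PG (lam lam_val lam_mul lam_prime)
open Pool.Agent.H11.LQ Pool.Agent.H78.PG

theorem del_prod (L : List ℕ) (y : ℝ) (hy : 0 ≤ y) (h : ∀ p ∈ L, y ≤ (p : ℝ)) : y ^ L.length ≤ (L.prod : ℝ) := by
  induction L with
  | nil => simp
  | cons a L ih =>
    rw [List.length_cons, List.prod_cons, pow_succ', Nat.cast_mul]
    have h1 := h a List.mem_cons_self
    have h2 := ih fun p hp => h p (List.mem_cons_of_mem _ hp)
    exact mul_le_mul h1 h2 (by positivity) (by positivity)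

open Classical in
theorem rough_div (κ : ℝ) (hκ : 0 < κ) : ∃ τ : ℝ, 0 < τ ∧ ∀ m x : ℕ, 1 ≤ x → x ≤ m →
    ((x.divisors.filter (fun d => rou (zN κ m) d)).card : ℝ) ≤ τ := by
  refine ⟨(2 : ℝ) ^ (1 / κ), by positivity, fun m x hx hxm => ?_⟩
  obtain ⟨z, hz⟩ : ∃ z, z = zN κ m := ⟨_, rfl⟩
  rw [← hz]
  obtain ⟨L, hL⟩ : ∃ L : List ℕ, L = x.primeFactorsList.filter (fun p => z < p) := ⟨_, rfl⟩
  have hx0 : x ≠ 0 := by omega
  -- the number of rough divisors
  have h1 : (x.divisors.filter (fun d => rou z d)).card ≤ 2 ^ L.length := by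
    have h2 : (x.divisors.filter (fun d => rou z d)).card ≤ L.sublists.toFinset.card := by
      refine card_le_card_of_injOn (fun d => d.primeFactorsList) ?_ ?_
      · intro d hd
        obtain ⟨hd1, hd2⟩ := mem_filter.1 (mem_coe.1 hd)
        have hdx := Nat.dvd_of_mem_divisors hd1
        rw [mem_coe, List.mem_toFinset, List.mem_sublists, hL]
        have h3 : d.primeFactorsList.filter (fun p => z < p) = d.primeFactorsList := by
          rw [List.filter_eq_self]
          intro p hp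
          have hp1 := Nat.prime_of_mem_primeFactorsList hp
          have hp2 := Nat.dvd_of_mem_primeFactorsList hp
          exact decide_eq_true (hd2 p hp1 hp2)
        show d.primeFactorsList.Sublist _
        rw [← h3]
        exact (Nat.primeFactorsList_sublist_of_dvd hdx hx0).filter _
      · intro d hd e he hde
        have hd1 := (mem_filter.1 (mem_coe.1 hd)).1
        have he1 := (mem_filter.1 (mem_coe.1 he)).1
        have hd0 : d ≠ 0 := fun h => by
          rw [h] at hd1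
          exact hx0 (Nat.eq_zero_of_zero_dvd (Nat.dvd_of_mem_divisors hd1))
        have he0 : e ≠ 0 := fun h => by
          rw [h] at he1
          exact hx0 (Nat.eq_zero_of_zero_dvd (Nat.dvd_of_mem_divisors he1))
        have h4 : d.primeFactorsList = e.primeFactorsList := hde
        rw [← Nat.prod_primeFactorsList hd0, h4, Nat.prod_primeFactorsList he0]
    refine h2.trans ((List.toFinset_card_le _).trans ?_)
    rw [List.length_sublists]
  -- the length
  have h5 : (L.length : ℝ) ≤ 1 / κ := by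
    rcases Nat.lt_or_ge m 2 with hm | hm
    · have hx1 : x = 1 := by omega
      have : L = [] := by
        rw [hL, hx1, Nat.primeFactorsList_one, List.filter_nil]
      rw [this]
      simp only [List.length_nil, Nat.cast_zero]
      positivity
    · have hm1 : (1 : ℝ) < m := by exact_mod_cast hm
      have hm0 : (0 : ℝ) < m := by linarith
      have h6 : ∀ p ∈ L, (m : ℝ) ^ κ ≤ (p : ℝ) := by
        intro p hp
        rw [hL, List.mem_filter] at hp
        have h7 : z < p := by simpa using hp.2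
        rw [hz] at h7
        unfold zN at h7
        exact (Nat.lt_of_floor_lt h7).le
      have h8 : ((m : ℝ) ^ κ) ^ L.length ≤ (L.prod : ℝ) := del_prod L _ (by positivity) h6
      have h9 : L.prod ∣ x := by
        have h10 : L.Sublist x.primeFactorsList := by
          rw [hL]
          exact List.filter_sublist
        have h11 := h10.prod_dvd_prod
        rwa [Nat.prod_primeFactorsList hx0] at h11
      have h12 : (L.prod : ℝ) ≤ m := by
        exact_mod_cast (Nat.le_of_dvd (by omega) h9).trans hxm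
      have h13 : (m : ℝ) ^ (κ * L.length) ≤ (m : ℝ) ^ (1 : ℝ) := by
        rw [Real.rpow_mul hm0.le, Real.rpow_natCast, Real.rpow_one]
        exact h8.trans h12
      have h14 : κ * L.length ≤ 1 := (Real.rpow_le_rpow_left_iff hm1).1 h13
      rw [le_div_iff₀ hκ]
      linarith
  calc ((x.divisors.filter (fun d => rou z d)).card : ℝ) ≤ (2 : ℝ) ^ L.length := by exact_mod_cast h1
    _ = (2 : ℝ) ^ (L.length : ℝ) := (Real.rpow_natCast _ _).symm
    _ ≤ (2 : ℝ) ^ (1 / κ) := Real.rpow_le_rpow_of_exponent_le (by norm_num) h5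

theorem dn_nonneg (m : ℕ) [NeZero m] (η : ℤ) (U : Finset (DirichletCharacter ℂ m)) (n : ℕ) :
    0 ≤ dn m η U n := by
  unfold dn
  exact mul_nonneg (by positivity) (sum_nonneg fun _ _ => by positivity)

theorem delta (κ : ℝ) (hκ : 0 < κ) : ∃ τ : ℝ, 0 < τ ∧ ∀ (m : ℕ) [NeZero m], 3 ≤ m →
    ∀ η : ℤ, (η = 1 ∨ η = -1) → ∀ U : Finset (DirichletCharacter ℂ m),
    ∑ n ∈ BR κ m, dn m η U n / n ≤ τ * wout m η U := by
  classical
  obtain ⟨τ, hτ, hdiv⟩ := rough_div κ hκ
  refine ⟨2 * τ, by positivity, fun m _ hm η _ U => ?_⟩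
  have hφ : (0 : ℝ) < m.totient := by exact_mod_cast Nat.totient_pos.2 (by omega)
  obtain ⟨f, hf⟩ : ∃ f : ℕ → ℝ, f = fun x => ‖((lam x : ℤ) : ℂ) - GU m η U x‖ ^ 2 := ⟨_, rfl⟩
  have hf0 : ∀ x, 0 ≤ f x := fun x => by
    rw [hf]
    positivity
  have h1 : ∀ n ∈ BR κ m, dn m η U n / n ≤ 2 / m.totient * ∑ x ∈ (cop m (m / 2)).filter (fun x => n ∣ x), f x := by
    intro n hn
    obtain ⟨hn1, _, hnc, _⟩ := mem_BR.1 hn
    have hn0 : (0 : ℝ) < n := by exact_mod_cast hn1
    have e : dn m η U n / n = 2 / m.totient * ∑ y ∈ cop m (m / (2 * n)), f (n * y) := by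
      unfold dn
      rw [hf]
      have e2 : ∑ y ∈ cop m (m / (2 * n)), ‖((lam n : ℤ) : ℂ) * ((lam y : ℤ) : ℂ) - GU m η U (n * y)‖ ^ 2 =
          ∑ y ∈ cop m (m / (2 * n)), ‖((lam (n * y) : ℤ) : ℂ) - GU m η U (n * y)‖ ^ 2 := by
        refine sum_congr rfl fun y hy => ?_
        rw [lam_mul n y hn1 (mem_cop.1 hy).1, Int.cast_mul]
      rw [e2]
      field_simp
    rw [e]
    refine mul_le_mul_of_nonneg_left ?_ (by positivity)
    have hinj : Set.InjOn (fun y => n * y) (cop m (m / (2 * n)) : Set ℕ) := fun a _ b _ hab =>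
      Nat.eq_of_mul_eq_mul_left hn1 hab
    rw [← sum_image (g := fun y => n * y) (f := f) hinj]
    refine sum_le_sum_of_subset_of_nonneg ?_ fun x _ _ => hf0 x
    intro x hx
    obtain ⟨y, hy, rfl⟩ := mem_image.1 hx
    obtain ⟨hy1, hy2, hy3⟩ := mem_cop.1 hy
    rw [mem_filter, mem_cop]
    refine ⟨⟨Nat.mul_pos hn1 hy1, ?_, Nat.Coprime.mul_left hnc hy3⟩, Dvd.intro y rfl⟩
    rw [Nat.le_div_iff_mul_le (by omega)] at hy2
    rw [Nat.le_div_iff_mul_le (by norm_num)]
    linarith
  have h2 : ∑ n ∈ BR κ m, dn m η U n / n ≤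
      2 / m.totient * ∑ n ∈ BR κ m, ∑ x ∈ (cop m (m / 2)).filter (fun x => n ∣ x), f x := by
    rw [mul_sum]
    exact sum_le_sum h1
  have h3 : ∑ n ∈ BR κ m, ∑ x ∈ (cop m (m / 2)).filter (fun x => n ∣ x), f x ≤ τ * ∑ x ∈ cop m (m / 2), f x := by
    have e1 : ∑ n ∈ BR κ m, ∑ x ∈ (cop m (m / 2)).filter (fun x => n ∣ x), f x =
        ∑ x ∈ cop m (m / 2), ∑ n ∈ (BR κ m).filter (fun n => n ∣ x), f x := by
      simp only [sum_filter]
      rw [sum_comm]
    rw [e1, mul_sum]
    refine sum_le_sum fun x hx => ?_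
    rw [sum_const, nsmul_eq_mul]
    refine mul_le_mul_of_nonneg_right ?_ (hf0 x)
    obtain ⟨hx1, hx2, _⟩ := mem_cop.1 hx
    refine le_trans ?_ (hdiv m x hx1 (hx2.trans (Nat.div_le_self m 2)))
    have hsub : (BR κ m).filter (fun n => n ∣ x) ⊆ x.divisors.filter (fun d => rou (zN κ m) d) := by
      intro n hn
      obtain ⟨hn1, hn2⟩ := mem_filter.1 hn
      exact mem_filter.2 ⟨Nat.mem_divisors.2 ⟨hn2, by omega⟩, (mem_BR.1 hn1).2.2.2⟩
    exact_mod_cast card_le_card hsub
  have h4 : ∑ x ∈ cop m (m / 2), f x ≤ (m.totient : ℝ) * wout m η U := by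
    rw [hf]
    exact half_phi m (by omega) η U
  calc ∑ n ∈ BR κ m, dn m η U n / n ≤ 2 / m.totient * (τ * (m.totient * wout m η U)) :=
        h2.trans (mul_le_mul_of_nonneg_left (h3.trans (mul_le_mul_of_nonneg_left h4 hτ.le)) (by positivity))
    _ = 2 * τ * wout m η U := by field_simp

end Pool.Agent.H78.PD
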