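import Pool.Agent.H78.PD.TDef
import Pool.Agent.H78.PD.Comp
import Pool.Agent.H78.PD.Del

/-!
# PD, T3a: one tuple

`x = (p, b)`, `x0 = (p0, b0)` in `PB`, `t ∈ Tt`: `vv (p b) = vv p · vv b` (`lam_mul`, `map_mul`), `|vv p χ| = 1` (`p` prime to `m`): so, with `‖a - c‖² ≤ 2‖a - b‖² + 2‖b - c‖²` and `vv p · vv (p0 t) = vv p0 · vv (p t)`,
`Nrm(vv(pb) - vv(p0b0)) ≤ 2 Nrm(vv b - vv(p0 t)) + 2 Nrm(vv(p t) - vv b0)`; `b ∈ (M1/(16p), M1/p]`, `p0 t ∈ (M1/p, A M1/p]`, both `≤ m^(399/800)` (`A m^(199/400) ≤ m^(399/800)`), and the same for `b0`, `p t`: `comp`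
with `R = 16 A`.
-/

set_option autoImplicit false

namespace Pool.Agent.H78.PD

open Finset
open Pool.Agent.H34PG (lam lam_val lam_mul lam_prime)
open Pool.Agent.H11.LQ Pool.Agent.H78.PG

theorem vv_mul (m : ℕ) (χ : DirichletCharacter ℂ m) (a b : ℕ) (ha : 1 ≤ a) (hb : 1 ≤ b) :
    vv m χ (a * b) = vv m χ a * vv m χ b := by
  unfold vv
  rw [lam_mul a b ha hb]
  push_cast
  rw [map_mul]
  ring

theorem vv_norm (m : ℕ) (χ : DirichletCharacter ℂ m) (a : ℕ) (ha : a.Coprime m) :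
    ‖vv m χ a‖ = 1 := by
  unfold vv
  have h1 : ‖((lam a : ℤ) : ℂ)‖ = 1 := by
    rcases lam_val a with h | h <;> rw [h] <;> norm_num
  have h2 : IsUnit ((a : ℕ) : ZMod m) := (ZMod.isUnit_iff_coprime a m).mpr ha
  have h3 : ‖χ ((a : ℕ) : ZMod m)‖ = 1 := by
    obtain ⟨u, hu⟩ := h2
    rw [← hu]
    exact DirichletCharacter.unit_norm_eq_one χ u
  rw [norm_mul, h1, h3, mul_one]

/-- the pointwise identity and inequality -/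
private theorem t3a_pt (m : ℕ) (χ : DirichletCharacter ℂ m) (p b p0 b0 t : ℕ) (hp : 1 ≤ p)
    (hb : 1 ≤ b) (hp0 : 1 ≤ p0) (hb0 : 1 ≤ b0) (ht : 1 ≤ t) (cp : p.Coprime m)
    (cp0 : p0.Coprime m) :
    ‖vv m χ (p * b) - vv m χ (p0 * b0)‖ ^ 2
      ≤ 2 * ‖vv m χ b - vv m χ (p0 * t)‖ ^ 2 + 2 * ‖vv m χ (p * t) - vv m χ b0‖ ^ 2 := by
  have e : vv m χ (p * b) - vv m χ (p0 * b0)
      = vv m χ p * (vv m χ b - vv m χ (p0 * t)) + vv m χ p0 * (vv m χ (p * t) - vv m χ b0) := by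
    rw [vv_mul m χ p b hp hb, vv_mul m χ p0 b0 hp0 hb0, vv_mul m χ p0 t hp0 ht,
      vv_mul m χ p t hp ht]
    ring
  have h1 : ‖vv m χ (p * b) - vv m χ (p0 * b0)‖
      ≤ ‖vv m χ b - vv m χ (p0 * t)‖ + ‖vv m χ (p * t) - vv m χ b0‖ := by
    rw [e]
    refine (norm_add_le _ _).trans ?_
    rw [norm_mul, norm_mul, vv_norm m χ p cp, vv_norm m χ p0 cp0, one_mul, one_mul]
  have h2 := norm_nonneg (vv m χ (p * b) - vv m χ (p0 * b0))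
  nlinarith [sq_nonneg (‖vv m χ b - vv m χ (p0 * t)‖ - ‖vv m χ (p * t) - vv m χ b0‖),
    mul_self_le_mul_self h2 h1]

/-- the comparison of `b` and `p0 t` -/
private theorem t3a_cmp (m : ℕ) (A : ℝ) (hA : 2 ≤ A) (hm : 1 ≤ m)
    (hAm : A ≤ (m : ℝ) ^ (1 / 800 : ℝ)) (p b p0 t : ℕ) (hp : 1 ≤ p) (hp0 : 1 ≤ p0)
    (hpm : (m : ℝ) ^ (1 / 200 : ℝ) < p) (h1 : p * b ≤ M1 m) (h2 : M1 m < 16 * (p * b))
    (ht1 : (M1 m : ℝ) / (p * p0) < t) (ht2 : (t : ℝ) ≤ A * ((M1 m : ℝ) / (p * p0))) :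
    (b : ℝ) ≤ 16 * A * ((p0 * t : ℕ) : ℝ) ∧ ((p0 * t : ℕ) : ℝ) ≤ 16 * A * b ∧
      ((p0 * t : ℕ) : ℝ) ≤ (m : ℝ) ^ (399 / 800 : ℝ) := by
  have hpR : (0 : ℝ) < p := by exact_mod_cast hp
  have hp0R : (0 : ℝ) < p0 := by exact_mod_cast hp0
  have hmR : (0 : ℝ) < m := by exact_mod_cast hm
  have h1R : (p : ℝ) * b ≤ M1 m := by exact_mod_cast h1
  have h2R : (M1 m : ℝ) ≤ 16 * ((p : ℝ) * b) := by exact_mod_cast h2.le
  have e1 : (M1 m : ℝ) / (p * p0) * p0 = M1 m / p := by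
    field_simp
  have k1 : (M1 m : ℝ) / p < p0 * t := by
    rw [← e1]
    nlinarith
  have k2 : (p0 : ℝ) * t ≤ A * (M1 m / p) := by
    rw [← e1]
    nlinarith
  have k3 : (b : ℝ) ≤ M1 m / p := by
    rw [le_div_iff₀ hpR]
    linarith
  have k4 : (M1 m : ℝ) / p ≤ 16 * b := by
    rw [div_le_iff₀ hpR]
    linarith
  have hM : (M1 m : ℝ) ≤ (m : ℝ) ^ (201 / 400 : ℝ) := by
    unfold M1
    exact Nat.floor_le (by positivity)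
  have k5 : (M1 m : ℝ) / p ≤ (m : ℝ) ^ (199 / 400 : ℝ) := by
    rw [div_le_iff₀ hpR]
    have e2 : (m : ℝ) ^ (201 / 400 : ℝ) = (m : ℝ) ^ (199 / 400 : ℝ) * (m : ℝ) ^ (1 / 200 : ℝ) := by
      rw [← Real.rpow_add hmR]
      norm_num
    rw [e2] at hM
    refine hM.trans ?_
    exact mul_le_mul_of_nonneg_left hpm.le (by positivity)
  have hb0 : (0 : ℝ) ≤ b := by positivity
  refine ⟨?_, ?_, ?_⟩
  · push_cast
    have : (b : ℝ) ≤ p0 * t := (k3.trans k1.le)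
    nlinarith
  · push_cast
    have : A * ((M1 m : ℝ) / p) ≤ A * (16 * b) := mul_le_mul_of_nonneg_left k4 (by linarith)
    linarith
  · push_cast
    have e3 : (m : ℝ) ^ (399 / 800 : ℝ) = (m : ℝ) ^ (1 / 800 : ℝ) * (m : ℝ) ^ (199 / 400 : ℝ) := by
      rw [← Real.rpow_add hmR]
      norm_num
    rw [e3]
    refine k2.trans ?_
    have h0 : (0 : ℝ) ≤ (M1 m : ℝ) / p := by positivity
    exact mul_le_mul hAm k5 h0 (by positivity)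

theorem t3_tuple (κ A : ℝ) (hκ : 0 < κ) (hκ1 : κ ≤ 1 / 1000) (hA : 2 ≤ A) : ∃ m0 : ℕ,
    ∀ (m : ℕ) [NeZero m], m0 ≤ m → ∀ η : ℤ, (η = 1 ∨ η = -1) →
    ∀ U : Finset (DirichletCharacter ℂ m), (U.card : ℝ) ≤ (m : ℝ) ^ (1 / 2000 : ℝ) →
    ∀ x ∈ PB κ m, ∀ x0 ∈ PB κ m, ∀ t ∈ Tt m A x.1 x0.1,
      Nrm m η U (fun χ => vv m χ (x.1 * x.2) - vv m χ (x0.1 * x0.2))
        ≤ 128 * A * (dn m η U x.2 + dn m η U (x0.1 * t) + dn m η U (x.1 * t) + dn m η U x0.2) := by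
  obtain ⟨m0, hm0⟩ := comp
  obtain ⟨m1, hm1⟩ := grow A 0 (1 / 800) (by norm_num)
  refine ⟨max m0 (max m1 1), ?_⟩
  intro m _ hm η hη U hU x hx x0 hx0 t ht
  simp only [max_le_iff] at hm
  obtain ⟨h0, h1, h2⟩ := hm
  have hAm : A ≤ (m : ℝ) ^ (1 / 800 : ℝ) := by
    have := hm1 m h1
    rw [pow_zero, mul_one] at this
    exact this
  obtain ⟨p, b⟩ := x
  obtain ⟨p0, b0⟩ := x0
  unfold PB at hx hx0
  rw [mem_filter, mem_product] at hx hx0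
  obtain ⟨⟨hp, hb⟩, hu, hl⟩ := hx
  obtain ⟨⟨hp0, hb0⟩, hu0, hl0⟩ := hx0
  dsimp only at hp hb hu hl hp0 hb0 hu0 hl0 ht ⊢
  unfold AP at hp hp0
  rw [mem_PI (by positivity)] at hp hp0
  rw [mem_BR] at hb hb0
  obtain ⟨pp, pm, pl, pu⟩ := hp
  obtain ⟨pp0, pm0, pl0, pu0⟩ := hp0
  obtain ⟨b1, b2, b3, b4⟩ := hb
  obtain ⟨c1, c2, c3, c4⟩ := hb0
  unfold Tt at ht
  rw [mem_PI (by positivity)] at ht
  obtain ⟨tp, tm, t1, t2⟩ := ht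
  have cp : p.Coprime m := (Nat.Prime.coprime_iff_not_dvd pp).mpr pm
  have cp0 : p0.Coprime m := (Nat.Prime.coprime_iff_not_dvd pp0).mpr pm0
  have ct : t.Coprime m := (Nat.Prime.coprime_iff_not_dvd tp).mpr tm
  have q1 : 1 ≤ p := pp.one_lt.le
  have q2 : 1 ≤ p0 := pp0.one_lt.le
  have q3 : 1 ≤ t := tp.one_lt.le
  obtain ⟨u1, u2, u3⟩ := t3a_cmp m A hA h2 hAm p b p0 t q1 q2 pl hu hl t1 t2
  have sw : (p : ℝ) * p0 = p0 * p := mul_comm _ _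
  rw [sw] at t1 t2
  obtain ⟨w1, w2, w3⟩ := t3a_cmp m A hA h2 hAm p0 b0 p t q2 q1 pl0 hu0 hl0 t1 t2
  have R1 : (1 : ℝ) ≤ 16 * A := by linarith
  have F1 := hm0 m h0 η hη U hU (16 * A) R1 b (p0 * t) b1 (Nat.mul_pos q2 q3) b3
    (Nat.Coprime.mul_left cp0 ct) b2 u3 u1 u2
  have F2 := hm0 m h0 η hη U hU (16 * A) R1 (p * t) b0 (Nat.mul_pos q1 q3) c1
    (Nat.Coprime.mul_left cp ct) c3 w3 c2 w2 w1
  have F3 : Nrm m η U (fun χ => vv m χ (p * b) - vv m χ (p0 * b0))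
      ≤ 2 * Nrm m η U (fun χ => vv m χ b - vv m χ (p0 * t))
        + 2 * Nrm m η U (fun χ => vv m χ (p * t) - vv m χ b0) := by
    unfold Nrm
    rw [mul_sum, mul_sum, ← sum_add_distrib]
    refine sum_le_sum fun χ _ => ?_
    have h3 := mul_le_mul_of_nonneg_left (t3a_pt m χ p b p0 b0 t q1 b1 q2 c1 q3 cp cp0)
      (ww_nonneg m η χ)
    refine h3.trans (le_of_eq ?_)
    ring
  linarith

end Pool.Agent.H78.PD
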