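import Pool.Agent.H78.PD.T5b
import Pool.Agent.H78.PD.T5c
import Pool.Agent.H78.PD.T3a

/-!
# PD, T5: the character is `-1` at most large primes

`v n = vv m χ n ∈ {1, -1}` for `n` prime to `m`, multiplicative.  If `v n ≠ v n'` (`n, n'` as in `comp` with `R`): `4 ww χ ≤ Nrm(vv n - vv n') ≤ 4R(dn n + dn n')`, so `dn n + dn n' ≥ 1/(2R)`.
For `q ∈ QQ` with `χ q ≠ -1`, i.e. `v q = -1`, and `s ∈ SS`, `h ∈ HH q`, `p ∈ PP s h`: if `v(s h) = v(p)` and `v(p h) = v(s q)`, then `v s v q = v(s q) = v(p) v(h) = v(s h) v(h) = v(s)`, so `v q = 1`, contradiction;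
`s h < p ≤ A s h` and `s q < s h² < p h ≤ A s h² ≤ A³ s q`: `dn(s h) + dn p + dn(p h) + dn(s q) ≥ 1/(2A³)`.  Sum over all tuples with `χ q ≠ -1` and weight `1/(q s h p)`: `∑_p 1/p ≥ c/L`, `∑_h 1/h ≥ c/L` (`pri_low`), `∑_{SS} 1/s ≥ 1/2`
(`pri_mert`, `log 2`): `(1/(2A³)) (c/L)² (1/2) ∑_q 1/q ≤ (C/L²) ∑_{BR} dn n/n ≤ (C/L²) τ wout` (`t5_sum1`, `t5_sum2`, `delta` with `κ = δ/4`).
-/

set_option autoImplicit false

namespace Pool.Agent.H78.PD

open Finset
open Pool.Agent.H34PG (lam lam_val lam_mul lam_prime)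
open Pool.Agent.H11.LQ Pool.Agent.H78.PG

private theorem t5_vv_sq {m : ℕ} {χ : DirichletCharacter ℂ m} (hχ : χ ^ 2 = 1) {n : ℕ}
    (hn : n.Coprime m) : vv m χ n * vv m χ n = 1 := by
  unfold vv
  have h1 : ((lam n : ℤ) : ℂ) * ((lam n : ℤ) : ℂ) = 1 := by
    rcases lam_val n with h | h <;> rw [h] <;> norm_num
  have h2 : χ (n : ZMod m) * χ (n : ZMod m) = 1 := by
    have h3 : IsUnit (n : ZMod m) := (ZMod.isUnit_iff_coprime n m).mpr hn
    have h4 : (χ ^ 2) (n : ZMod m) = (1 : DirichletCharacter ℂ m) (n : ZMod m) := by rw [hχ]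
    rw [MulChar.pow_apply' _ two_ne_zero, MulChar.one_apply h3, sq] at h4
    exact h4
  calc _ = (((lam n : ℤ) : ℂ) * ((lam n : ℤ) : ℂ)) * (χ (n : ZMod m) * χ (n : ZMod m)) := by ring
    _ = 1 := by rw [h1, h2, one_mul]

private theorem t5_two_le {m : ℕ} [NeZero m] {η : ℤ} {U : Finset (DirichletCharacter ℂ m)}
    {χ : DirichletCharacter ℂ m} (hχU : χ ∈ U) (hχ2 : χ ^ 2 = 1) (hw : 1 / 2 ≤ ww m η χ) {a b : ℕ}
    (ha : a.Coprime m) (hb : b.Coprime m) (hab : vv m χ a ≠ vv m χ b) :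
    2 ≤ Nrm m η U (fun χ => vv m χ a - vv m χ b) := by
  have h1 : ‖vv m χ a - vv m χ b‖ ^ 2 = 4 := by
    rcases mul_self_eq_one_iff.mp (t5_vv_sq hχ2 ha) with h | h <;>
      rcases mul_self_eq_one_iff.mp (t5_vv_sq hχ2 hb) with h' | h'
    · exact absurd (h.trans h'.symm) hab
    · rw [h, h']
      norm_num
    · rw [h, h']
      norm_num
    · exact absurd (h.trans h'.symm) hab
  have h2 : ww m η χ * ‖vv m χ a - vv m χ b‖ ^ 2 ≤ Nrm m η U (fun χ => vv m χ a - vv m χ b) := by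
    unfold Nrm
    exact single_le_sum (f := fun χ => ww m η χ * ‖vv m χ a - vv m χ b‖ ^ 2)
      (fun χ' _ => mul_nonneg (ww_nonneg _ _ _) (by positivity)) hχU
  rw [h1] at h2
  linarith

private theorem t5_tuple {m : ℕ} [NeZero m] {η : ℤ} {U : Finset (DirichletCharacter ℂ m)}
    {χ : DirichletCharacter ℂ m} (hχU : χ ∈ U) (hχ2 : χ ^ 2 = 1) (hw : 1 / 2 ≤ ww m η χ)
    {A : ℝ} (hA : 2 ≤ A) {q s h p : ℕ} (hq : q.Prime) (hs : s.Prime) (hh : h.Prime) (hp : p.Prime)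
    (hqm : q.Coprime m) (hsm : s.Coprime m) (hhm : h.Coprime m) (hpm : p.Coprime m)
    (hχq : χ (q : ZMod m) ≠ -1)
    (h1 : Nrm m η U (fun χ => vv m χ (s * h) - vv m χ p) ≤
      4 * A * (dn m η U (s * h) + dn m η U p))
    (h2 : Nrm m η U (fun χ => vv m χ (p * h) - vv m χ (s * q)) ≤
      4 * A ^ 3 * (dn m η U (p * h) + dn m η U (s * q))) :
    1 / (2 * A ^ 3) ≤
      (dn m η U (s * h) + dn m η U p) + (dn m η U (p * h) + dn m η U (s * q)) := by
  have d1 := dn_nonneg m η U (s * h)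
  have d2 := dn_nonneg m η U p
  have d3 := dn_nonneg m η U (p * h)
  have d4 := dn_nonneg m η U (s * q)
  have hA3 : A ≤ A ^ 3 := by nlinarith [sq_nonneg A, mul_pos (show (0 : ℝ) < A by linarith) (show (0 : ℝ) < A by linarith)]
  have hA0 : 0 < A ^ 3 := by positivity
  have hshm : (s * h).Coprime m := Nat.Coprime.mul_left hsm hhm
  have hphm : (p * h).Coprime m := Nat.Coprime.mul_left hpm hhm
  have hsqm : (s * q).Coprime m := Nat.Coprime.mul_left hsm hqm
  have key : 2 ≤ 4 * A ^ 3 * ((dn m η U (s * h) + dn m η U p) +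
      (dn m η U (p * h) + dn m η U (s * q))) := by
    by_cases e1 : vv m χ (s * h) = vv m χ p
    · by_cases e2 : vv m χ (p * h) = vv m χ (s * q)
      · exfalso
        have v1 := vv_mul m χ s h hs.one_lt.le hh.one_lt.le
        have v2 := vv_mul m χ p h hp.one_lt.le hh.one_lt.le
        have v3 := vv_mul m χ s q hs.one_lt.le hq.one_lt.le
        have s1 := t5_vv_sq hχ2 hsm
        have s2 := t5_vv_sq hχ2 hhm
        have s3 := t5_vv_sq hχ2 hqm
        have e3 : vv m χ s * vv m χ q = vv m χ s := by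
          calc vv m χ s * vv m χ q = vv m χ (s * q) := v3.symm
            _ = vv m χ (p * h) := e2.symm
            _ = vv m χ p * vv m χ h := v2
            _ = vv m χ (s * h) * vv m χ h := by rw [e1]
            _ = vv m χ s * (vv m χ h * vv m χ h) := by rw [v1]; ring
            _ = vv m χ s := by rw [s2, mul_one]
        have e4 : vv m χ q = 1 := by
          calc vv m χ q = (vv m χ s * vv m χ s) * vv m χ q := by rw [s1, one_mul]
            _ = vv m χ s * (vv m χ s * vv m χ q) := by ring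
            _ = 1 := by rw [e3, s1]
        have e5 : vv m χ q = - χ (q : ZMod m) := by
          unfold vv
          rw [lam_prime hq]
          push_cast
          ring
        rw [e5] at e4
        exact hχq (by linear_combination -e4)
      · have := t5_two_le (η := η) hχU hχ2 hw hphm hsqm e2
        nlinarith [mul_nonneg hA0.le (add_nonneg d1 d2)]
    · have := t5_two_le (η := η) hχU hχ2 hw hshm hpm e1
      nlinarith [mul_nonneg hA0.le (add_nonneg d3 d4),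
        mul_le_mul_of_nonneg_right hA3 (add_nonneg d1 d2)]
  rw [div_le_iff₀ (by positivity)]
  linarith

theorem t5 (δ : ℝ) (hδ : 0 < δ) (hδ1 : δ ≤ 1 / 100) : ∃ C : ℝ, 0 < C ∧ ∃ m0 : ℕ,
    ∀ (m : ℕ) [NeZero m], m0 ≤ m → ∀ η : ℤ, (η = 1 ∨ η = -1) →
    ∀ U : Finset (DirichletCharacter ℂ m),
    (U.card : ℝ) ≤ (m : ℝ) ^ (1 / 2000 : ℝ) → ∀ χ ∈ U, χ ^ 2 = 1 → 1 / 2 ≤ ww m η χ →
    ∑ q ∈ Bad m χ δ (49 / 100), 1 / (q : ℝ) ≤ C * wout m η U := by
  obtain ⟨A, c, hA, hc, hlow⟩ := pri_low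
  obtain ⟨C1, hC1, m1, H1⟩ := t5_sum1 δ A hδ hδ1 hA
  obtain ⟨C2, hC2, m2, H2⟩ := t5_sum2 δ A hδ hδ1 hA
  obtain ⟨τ, hτ, Hd⟩ := delta (δ / 4) (by positivity)
  obtain ⟨m3, H3⟩ := hlow (δ / 4) (by positivity)
  obtain ⟨m4, H4⟩ := pri_mert (δ / 4) (δ / 2) (1 / 10) (by positivity) (by linarith)
    (by linarith) (by norm_num)
  obtain ⟨m5, H5⟩ := comp
  obtain ⟨m6, H6⟩ := grow (A ^ 3) 0 (3 / 800) (by norm_num)
  refine ⟨4 * A ^ 3 * (C1 + C2) * τ / c ^ 2, by positivity,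
    max (max m1 m2) (max (max m3 m4) (max (max m5 m6) 3)), ?_⟩
  intro m _ hm η hη U hU χ hχU hχ2 hχw
  simp only [max_le_iff] at hm
  obtain ⟨⟨hm1, hm2⟩, ⟨hm3, hm4⟩, ⟨hm5, hm6⟩, hm7⟩ := hm
  have hM1 : (1 : ℝ) ≤ (m : ℝ) := by
    have : (3 : ℝ) ≤ (m : ℝ) := by exact_mod_cast hm7
    linarith
  have hM0 : (0 : ℝ) < (m : ℝ) := by linarith
  have hL : 0 < Real.log m := Real.log_pos (by
    have : (3 : ℝ) ≤ (m : ℝ) := by exact_mod_cast hm7
    linarith)
  have hA0 : 0 < A := by linarith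
  have hA3 : 0 < A ^ 3 := by positivity
  obtain ⟨x, hx⟩ : ∃ x : ℝ, x = (m : ℝ) ^ (99 / 200 : ℝ) := ⟨_, rfl⟩
  obtain ⟨Z, hZ⟩ : ∃ Z : ℝ, Z = (m : ℝ) ^ (399 / 800 : ℝ) := ⟨_, rfl⟩
  have hx0 : 0 < x := by rw [hx]; positivity
  have hxZ : A ^ 3 * x ≤ Z := by
    have h1 := H6 m hm6
    rw [pow_zero, mul_one] at h1
    have h2 : Z = (m : ℝ) ^ (3 / 800 : ℝ) * x := by
      rw [hZ, hx, ← Real.rpow_add hM0]
      norm_num
    rw [h2]
    exact mul_le_mul_of_nonneg_right h1 hx0.le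
  have hZm : Z ≤ (m : ℝ) := by
    rw [hZ]
    calc (m : ℝ) ^ (399 / 800 : ℝ) ≤ (m : ℝ) ^ (1 : ℝ) :=
        Real.rpow_le_rpow_of_exponent_le hM1 (by norm_num)
      _ = m := Real.rpow_one _
  have hcop : ∀ {r : ℕ}, r.Prime → ¬ r ∣ m → r.Coprime m := fun hr hrm =>
    (Nat.Prime.coprime_iff_not_dvd hr).mpr hrm
  -- sizes
  have hsize : ∀ q ∈ Bad m χ δ (49 / 100), ∀ s ∈ SS δ m, (s : ℝ) * q ≤ x := by
    intro q hq s hs
    rw [mem_Bad] at hq
    unfold SS at hs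
    rw [mem_PI (by positivity)] at hs
    have h1 : (s : ℝ) ≤ (m : ℝ) ^ (1 / 200 : ℝ) :=
      hs.2.2.2.trans (Real.rpow_le_rpow_of_exponent_le hM1 (by linarith))
    calc (s : ℝ) * q ≤ (m : ℝ) ^ (1 / 200 : ℝ) * (m : ℝ) ^ (49 / 100 : ℝ) :=
        mul_le_mul h1 hq.2.2.2.1 (Nat.cast_nonneg _) (by positivity)
      _ = x := by
        rw [hx, ← Real.rpow_add hM0]
        norm_num
  -- the tuples
  have htup : ∀ q ∈ Bad m χ δ (49 / 100), ∀ s ∈ SS δ m, ∀ h ∈ HH m A q, ∀ p ∈ PP m A s h,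
      1 / (2 * A ^ 3) ≤ (dn m η U (s * h) + dn m η U p) +
        (dn m η U (p * h) + dn m η U (s * q)) := by
    intro q hq s hs h hh p hp
    have hsq := hsize q hq s hs
    rw [mem_Bad] at hq
    unfold SS at hs
    rw [mem_PI (by positivity)] at hs
    unfold HH at hh
    rw [mem_PI (by positivity)] at hh
    unfold PP at hp
    rw [mem_PI (by positivity)] at hp
    obtain ⟨q1, q2, q3, q4, q5⟩ := hq
    obtain ⟨s1, s2, s3, s4⟩ := hs
    obtain ⟨h1, h2, h3, h4⟩ := hh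
    obtain ⟨p1, p2, p3, p4⟩ := hp
    have hq1 : (1 : ℝ) ≤ q := by exact_mod_cast q1.one_lt.le
    have hs1 : (1 : ℝ) ≤ s := by exact_mod_cast s1.one_lt.le
    have hh1 : (1 : ℝ) ≤ h := by exact_mod_cast h1.one_lt.le
    have hp1 : (1 : ℝ) ≤ p := by exact_mod_cast p1.one_lt.le
    have hqh : (q : ℝ) < (h : ℝ) ^ 2 := (Real.sqrt_lt' (by linarith)).mp h3
    have hhq : (h : ℝ) ^ 2 ≤ A ^ 2 * q := by
      calc (h : ℝ) ^ 2 ≤ (A * Real.sqrt q) ^ 2 := pow_le_pow_left₀ (by linarith) h4 2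
        _ = A ^ 2 * q := by rw [mul_pow, Real.sq_sqrt (by linarith)]
    have hhA : (h : ℝ) ≤ A * q := by
      refine h4.trans (mul_le_mul_of_nonneg_left ?_ hA0.le)
      rw [Real.sqrt_le_left (by linarith)]
      nlinarith
    have hA1 : 1 ≤ A := by linarith
    have hA12 : A ≤ A ^ 2 := by nlinarith
    have hA23 : A ^ 2 ≤ A ^ 3 := by nlinarith [sq_nonneg A]
    have b1 : (s : ℝ) * h ≤ A * x := by
      calc (s : ℝ) * h ≤ s * (A * q) := mul_le_mul_of_nonneg_left hhA (by linarith)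
        _ = A * (s * q) := by ring
        _ ≤ A * x := mul_le_mul_of_nonneg_left hsq hA0.le
    have b2 : (p : ℝ) ≤ A ^ 2 * x := by
      calc (p : ℝ) ≤ A * (s * h) := p4
        _ ≤ A * (A * x) := mul_le_mul_of_nonneg_left b1 hA0.le
        _ = A ^ 2 * x := by ring
    have b3 : (p : ℝ) * h ≤ A ^ 3 * (s * q) := by
      calc (p : ℝ) * h ≤ (A * (s * h)) * h := mul_le_mul_of_nonneg_right p4 (by linarith)
        _ = A * s * (h : ℝ) ^ 2 := by ring
        _ ≤ A * s * (A ^ 2 * q) := mul_le_mul_of_nonneg_left hhq (by positivity)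
        _ = A ^ 3 * (s * q) := by ring
    have b4 : (s : ℝ) * q ≤ p * h := by
      calc (s : ℝ) * q ≤ s * (h : ℝ) ^ 2 := mul_le_mul_of_nonneg_left hqh.le (by linarith)
        _ = (s * h) * h := by ring
        _ ≤ p * h := mul_le_mul_of_nonneg_right p3.le (by linarith)
    have c1 : A * x ≤ Z := (mul_le_mul_of_nonneg_right (hA12.trans hA23) hx0.le).trans hxZ
    have c2 : A ^ 2 * x ≤ Z := (mul_le_mul_of_nonneg_right hA23 hx0.le).trans hxZ
    have c0 : x ≤ Z := by nlinarith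
    have sh1 : 1 ≤ s * h := Nat.one_le_iff_ne_zero.mpr (mul_ne_zero s1.ne_zero h1.ne_zero)
    have ph1 : 1 ≤ p * h := Nat.one_le_iff_ne_zero.mpr (mul_ne_zero p1.ne_zero h1.ne_zero)
    have sq1 : 1 ≤ s * q := Nat.one_le_iff_ne_zero.mpr (mul_ne_zero s1.ne_zero q1.ne_zero)
    have n1 := H5 m hm5 η hη U hU A hA1 (s * h) p sh1 p1.one_lt.le
      (Nat.Coprime.mul_left (hcop s1 s2) (hcop h1 h2)) (hcop p1 p2)
      (by rw [← hZ]; push_cast; exact b1.trans c1) (by rw [← hZ]; exact b2.trans c2)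
      (by push_cast; nlinarith) (by push_cast; exact p4)
    have n2 := H5 m hm5 η hη U hU (A ^ 3) (hA1.trans (hA12.trans hA23)) (p * h) (s * q) ph1 sq1
      (Nat.Coprime.mul_left (hcop p1 p2) (hcop h1 h2))
      (Nat.Coprime.mul_left (hcop s1 s2) (hcop q1 q2))
      (by rw [← hZ]; push_cast
          exact (b3.trans (mul_le_mul_of_nonneg_left hsq hA3.le)).trans hxZ)
      (by rw [← hZ]; push_cast; exact hsq.trans c0)
      (by push_cast; exact b3)
      (by
        push_cast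
        have : (s : ℝ) * q ≤ 1 * (p * h) := by rw [one_mul]; exact b4
        refine this.trans (mul_le_mul_of_nonneg_right (hA1.trans (hA12.trans hA23)) (by positivity)))
    exact t5_tuple hχU hχ2 hχw hA q1 s1 h1 p1 (hcop q1 q2) (hcop s1 s2) (hcop h1 h2) (hcop p1 p2)
      q5 n1 n2
  -- the lower bound for one q
  obtain ⟨κ, hκ⟩ : ∃ κ : ℝ, κ = c / Real.log m := ⟨_, rfl⟩
  have hκ0 : 0 < κ := by rw [hκ]; positivity
  obtain ⟨e, he⟩ : ∃ e : ℝ, e = 1 / (2 * A ^ 3) := ⟨_, rfl⟩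
  have he0 : 0 < e := by rw [he]; positivity
  have hone : ∀ q ∈ Bad m χ δ (49 / 100), e * κ ^ 2 / 2 * (1 / (q : ℝ)) ≤
      ∑ s ∈ SS δ m, ∑ h ∈ HH m A q, ∑ p ∈ PP m A s h,
        ((dn m η U (s * h) + dn m η U p) + (dn m η U (p * h) + dn m η U (s * q))) /
          ((q : ℝ) * s * h * p) := by
    intro q hq
    have hq' := hq
    rw [mem_Bad] at hq'
    obtain ⟨q1, q2, q3, q4, q5⟩ := hq'
    have hq1 : (1 : ℝ) ≤ q := by exact_mod_cast q1.one_lt.le
    have step3 : ∀ s ∈ SS δ m, ∀ h ∈ HH m A q, e * κ * (1 / ((q : ℝ) * s * h)) ≤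
        ∑ p ∈ PP m A s h,
          ((dn m η U (s * h) + dn m η U p) + (dn m η U (p * h) + dn m η U (s * q))) /
            ((q : ℝ) * s * h * p) := by
      intro s hs h hh
      have hsq := hsize q hq s hs
      have hs' := hs
      unfold SS at hs'
      rw [mem_PI (by positivity)] at hs'
      have hh' := hh
      unfold HH at hh'
      rw [mem_PI (by positivity)] at hh'
      have hs1 : (1 : ℝ) ≤ s := by exact_mod_cast hs'.1.one_lt.le
      have hh1 : (1 : ℝ) ≤ h := by exact_mod_cast hh'.1.one_lt.le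
      have hhA : (h : ℝ) ≤ A * q := by
        refine hh'.2.2.2.trans (mul_le_mul_of_nonneg_left ?_ hA0.le)
        rw [Real.sqrt_le_left (by linarith)]
        nlinarith
      have hA13 : A ≤ A ^ 3 := by nlinarith [sq_nonneg A, mul_pos hA0 hA0]
      have b1 : (s : ℝ) * h ≤ m := by
        calc (s : ℝ) * h ≤ s * (A * q) := mul_le_mul_of_nonneg_left hhA (by linarith)
          _ = A * (s * q) := by ring
          _ ≤ A * x := mul_le_mul_of_nonneg_left hsq hA0.le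
          _ ≤ A ^ 3 * x := mul_le_mul_of_nonneg_right hA13 hx0.le
          _ ≤ m := hxZ.trans hZm
      have b0 : (m : ℝ) ^ (δ / 4) ≤ (s : ℝ) * h := by
        nlinarith [hs'.2.2.1]
      have hsum := H3 m hm3 ((s : ℝ) * h) b0 b1
      rw [← hκ] at hsum
      have hsum' : κ ≤ ∑ p ∈ PP m A s h, 1 / (p : ℝ) := hsum
      calc e * κ * (1 / ((q : ℝ) * s * h))
          ≤ e * (∑ p ∈ PP m A s h, 1 / (p : ℝ)) * (1 / ((q : ℝ) * s * h)) := by
            refine mul_le_mul_of_nonneg_right (mul_le_mul_of_nonneg_left hsum' he0.le) ?_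
            positivity
        _ = ∑ p ∈ PP m A s h, e / ((q : ℝ) * s * h * p) := by
            rw [mul_sum, sum_mul]
            refine sum_congr rfl fun p _ => ?_
            rw [mul_assoc, one_div_mul_one_div, mul_one_div]
            congr 1
            ring
        _ ≤ _ := by
            refine sum_le_sum fun p hp => ?_
            refine div_le_div_of_nonneg_right ?_ (by positivity)
            rw [he]
            exact htup q hq s hs h hh p hp
    have step2 : ∀ s ∈ SS δ m, e * κ ^ 2 * (1 / ((q : ℝ) * s)) ≤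
        ∑ h ∈ HH m A q, ∑ p ∈ PP m A s h,
          ((dn m η U (s * h) + dn m η U p) + (dn m η U (p * h) + dn m η U (s * q))) /
            ((q : ℝ) * s * h * p) := by
      intro s hs
      have hrt : (m : ℝ) ^ (δ / 4) ≤ Real.sqrt q := by
        refine Real.le_sqrt_of_sq_le ?_
        rw [← Real.rpow_natCast, ← Real.rpow_mul hM0.le]
        refine le_trans ?_ q3.le
        exact Real.rpow_le_rpow_of_exponent_le hM1 (by push_cast; linarith)
      have hrt2 : Real.sqrt q ≤ m := by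
        refine le_trans ?_ (q4.trans ?_)
        · rw [Real.sqrt_le_left (by linarith)]
          nlinarith
        · calc (m : ℝ) ^ (49 / 100 : ℝ) ≤ (m : ℝ) ^ (1 : ℝ) :=
              Real.rpow_le_rpow_of_exponent_le hM1 (by norm_num)
            _ = m := Real.rpow_one _
      have hsum := H3 m hm3 (Real.sqrt q) hrt hrt2
      rw [← hκ] at hsum
      have hsum' : κ ≤ ∑ h ∈ HH m A q, 1 / (h : ℝ) := hsum
      calc e * κ ^ 2 * (1 / ((q : ℝ) * s))
          = e * κ * κ * (1 / ((q : ℝ) * s)) := by ring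
        _ ≤ e * κ * (∑ h ∈ HH m A q, 1 / (h : ℝ)) * (1 / ((q : ℝ) * s)) := by
            refine mul_le_mul_of_nonneg_right
              (mul_le_mul_of_nonneg_left hsum' (by positivity)) ?_
            positivity
        _ = ∑ h ∈ HH m A q, e * κ * (1 / ((q : ℝ) * s * h)) := by
            rw [mul_sum, sum_mul]
            refine sum_congr rfl fun h _ => ?_
            rw [mul_assoc, one_div_mul_one_div]
            congr 2
            ring
        _ ≤ _ := sum_le_sum fun h hh => step3 s hs h hh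
    have hsum := H4 m hm4
    have hlog : Real.log (δ / 2 / (δ / 4)) = Real.log 2 := by
      congr 1
      field_simp
      norm_num
    rw [hlog, abs_le] at hsum
    have hlog2 := Real.log_two_gt_d9
    have hsum' : 1 / 2 ≤ ∑ s ∈ SS δ m, 1 / (s : ℝ) := by
      have : 1 / 2 ≤ ∑ s ∈ PI m ((m : ℝ) ^ (δ / 4)) ((m : ℝ) ^ (δ / 2)), 1 / (s : ℝ) := by
        linarith [hsum.1]
      exact this
    calc e * κ ^ 2 / 2 * (1 / (q : ℝ))
        = e * κ ^ 2 * (1 / 2) * (1 / (q : ℝ)) := by ring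
      _ ≤ e * κ ^ 2 * (∑ s ∈ SS δ m, 1 / (s : ℝ)) * (1 / (q : ℝ)) := by
          refine mul_le_mul_of_nonneg_right
            (mul_le_mul_of_nonneg_left hsum' (by positivity)) ?_
          positivity
      _ = ∑ s ∈ SS δ m, e * κ ^ 2 * (1 / ((q : ℝ) * s)) := by
          rw [mul_sum, sum_mul]
          refine sum_congr rfl fun s _ => ?_
          rw [mul_assoc, one_div_mul_one_div]
          congr 2
          ring
      _ ≤ _ := sum_le_sum fun s hs => step2 s hs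
  -- summation over q
  have hsub : Bad m χ δ (49 / 100) ⊆ QQ δ m := by
    unfold Bad QQ
    exact filter_subset _ _
  have hnn : ∀ q ∈ QQ δ m, q ∉ Bad m χ δ (49 / 100) → 0 ≤
      ∑ s ∈ SS δ m, ∑ h ∈ HH m A q, ∑ p ∈ PP m A s h,
        ((dn m η U (s * h) + dn m η U p) + (dn m η U (p * h) + dn m η U (s * q))) /
          ((q : ℝ) * s * h * p) := by
    intro q _ _
    refine sum_nonneg fun s _ => sum_nonneg fun h _ => sum_nonneg fun p _ => ?_
    have d1 := dn_nonneg m η U (s * h)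
    have d2 := dn_nonneg m η U p
    have d3 := dn_nonneg m η U (p * h)
    have d4 := dn_nonneg m η U (s * q)
    positivity
  have htot : e * κ ^ 2 / 2 * ∑ q ∈ Bad m χ δ (49 / 100), 1 / (q : ℝ) ≤
      (C1 / Real.log m ^ 2 + C2 / Real.log m ^ 2) * (τ * wout m η U) := by
    have t1 := H1 m hm1 (fun n => dn m η U n) (fun n => dn_nonneg m η U n)
    have t2 := H2 m hm2 (fun n => dn m η U n) (fun n => dn_nonneg m η U n)
    have t3 := Hd m hm7 η hη U
    calc e * κ ^ 2 / 2 * ∑ q ∈ Bad m χ δ (49 / 100), 1 / (q : ℝ)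
        = ∑ q ∈ Bad m χ δ (49 / 100), e * κ ^ 2 / 2 * (1 / (q : ℝ)) := by rw [mul_sum]
      _ ≤ ∑ q ∈ Bad m χ δ (49 / 100), ∑ s ∈ SS δ m, ∑ h ∈ HH m A q, ∑ p ∈ PP m A s h,
          ((dn m η U (s * h) + dn m η U p) + (dn m η U (p * h) + dn m η U (s * q))) /
            ((q : ℝ) * s * h * p) := sum_le_sum fun q hq => hone q hq
      _ ≤ ∑ q ∈ QQ δ m, ∑ s ∈ SS δ m, ∑ h ∈ HH m A q, ∑ p ∈ PP m A s h,
          ((dn m η U (s * h) + dn m η U p) + (dn m η U (p * h) + dn m η U (s * q))) /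
            ((q : ℝ) * s * h * p) := sum_le_sum_of_subset_of_nonneg hsub hnn
      _ = (∑ q ∈ QQ δ m, ∑ s ∈ SS δ m, ∑ h ∈ HH m A q, ∑ p ∈ PP m A s h,
            (dn m η U (s * h) + dn m η U p) / ((q : ℝ) * s * h * p)) +
          ∑ q ∈ QQ δ m, ∑ s ∈ SS δ m, ∑ h ∈ HH m A q, ∑ p ∈ PP m A s h,
            (dn m η U (p * h) + dn m η U (s * q)) / ((q : ℝ) * s * h * p) := by
          simp only [add_div, sum_add_distrib]
      _ ≤ C1 / Real.log m ^ 2 * ∑ n ∈ BR (δ / 4) m, dn m η U n / n +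
          C2 / Real.log m ^ 2 * ∑ n ∈ BR (δ / 4) m, dn m η U n / n := add_le_add t1 t2
      _ = (C1 / Real.log m ^ 2 + C2 / Real.log m ^ 2) *
          ∑ n ∈ BR (δ / 4) m, dn m η U n / n := by ring
      _ ≤ _ := mul_le_mul_of_nonneg_left t3 (by positivity)
  obtain ⟨S, hS⟩ : ∃ S : ℝ, S = ∑ q ∈ Bad m χ δ (49 / 100), 1 / (q : ℝ) := ⟨_, rfl⟩
  obtain ⟨W, hW⟩ : ∃ W : ℝ, W = wout m η U := ⟨_, rfl⟩
  rw [← hS, ← hW] at htot
  rw [← hS, ← hW]
  obtain ⟨L, hLL⟩ : ∃ L : ℝ, L = Real.log m := ⟨_, rfl⟩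
  rw [← hLL] at htot hκ hL
  have h1 : e * κ ^ 2 / 2 * S = c ^ 2 * S / (4 * A ^ 3) / L ^ 2 := by
    rw [he, hκ]
    field_simp
    ring
  have h2 : (C1 / L ^ 2 + C2 / L ^ 2) * (τ * W) = (C1 + C2) * (τ * W) / L ^ 2 := by ring
  rw [h1, h2, div_le_div_iff_of_pos_right (by positivity), div_le_iff₀ (by positivity)] at htot
  have h3 : 4 * A ^ 3 * (C1 + C2) * τ / c ^ 2 * W = (C1 + C2) * (τ * W) * (4 * A ^ 3) / c ^ 2 := by
    ring
  rw [h3, le_div_iff₀ (by positivity)]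
  linarith

end Pool.Agent.H78.PD
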