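import Pool.Agent.H78.PD.Defs

/-!
# PD, Par: coefficients as sums over `[1, m/2]`; distance of `λ` and `GU` on `[1, m/2]`

* `ww_le_half`: the units mod `m` (`m ≥ 3`) are the classes of `n` and `-n`, `n ∈ cop m (m/2)`; `F(n) = λ(n)`, `F(-n) = η λ(n)` (`F_small`, `F_neg`), so
  `cc m (FC m η) χ = (1/φ) ∑_{n ∈ cop m (m/2)} λ(n) (1 + η χ(-1)) conj χ(n)` and `|1 + η χ(-1)| ≤ 2`; `|∑ λ conj χ| = |∑ λ χ|`.
* `ww_inv`: `FC` is real, so `cc χ⁻¹ = conj (cc χ)` (`χ⁻¹ = conj χ`: `MulChar.star_apply'`).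
* `half_phi`: the proof of `half_le` (`PH/HW.lean`) gives `φ` in place of `m`.
* `wout_eq`: total weight `1`.
-/

set_option autoImplicit false

namespace Pool.Agent.H78.PD

open Finset
open Pool.Agent.H34PG (lam lam_val lam_mul lam_prime)
open Pool.Agent.H11.LQ Pool.Agent.H78.PG

private theorem par_norm_eta {η : ℤ} (hη : η = 1 ∨ η = -1) : ‖((η : ℤ) : ℂ)‖ = 1 := by
  rcases hη with h | h <;> rw [h] <;> simp

private theorem par_neg_val {m : ℕ} [NeZero m] (hm : 3 ≤ m) (u : (ZMod m)ˣ) :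
    ((-u : (ZMod m)ˣ) : ZMod m).val = m - (u : ZMod m).val ∧ 0 < (u : ZMod m).val ∧ (u : ZMod m).val < m ∧
      2 * (u : ZMod m).val ≠ m := by
  have hf : Fact (1 < m) := ⟨by omega⟩
  have h0 : (u : ZMod m) ≠ 0 := u.ne_zero
  have h1 : 0 < (u : ZMod m).val := Nat.pos_of_ne_zero fun h => h0 ((ZMod.val_eq_zero _).mp h)
  have h2 : (u : ZMod m).val < m := ZMod.val_lt _
  refine ⟨?_, h1, h2, ?_⟩
  · rw [Units.val_neg, ZMod.neg_val, if_neg h0]
  · intro h3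
    have h4 : Nat.Coprime (u : ZMod m).val m := ZMod.val_coe_unit_coprime u
    have h5 : (u : ZMod m).val ∣ m := ⟨2, by omega⟩
    have h6 : (u : ZMod m).val = 1 := Nat.Coprime.eq_one_of_dvd h4 h5
    omega

private theorem par_split (m : ℕ) [NeZero m] (hm : 3 ≤ m) (g : (ZMod m)ˣ → ℂ) :
    ∑ u : (ZMod m)ˣ, g u = ∑ u ∈ univ.filter (fun u : (ZMod m)ˣ => 2 * (u : ZMod m).val < m), (g u + g (-u)) := by
  classical
  rw [← Finset.sum_filter_add_sum_filter_not univ (fun u : (ZMod m)ˣ => 2 * (u : ZMod m).val < m) g, Finset.sum_add_distrib]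
  congr 1
  refine Finset.sum_bij (fun u _ => -u) ?_ ?_ ?_ ?_
  · intro u hu
    rw [mem_filter] at hu ⊢
    obtain ⟨h1, h2, h3, h4⟩ := par_neg_val hm u
    refine ⟨mem_univ _, ?_⟩
    rw [h1]
    have := hu.2
    omega
  · intro u _ v _ h
    exact neg_injective h
  · intro u hu
    rw [mem_filter] at hu
    obtain ⟨h1, h2, h3, h4⟩ := par_neg_val hm u
    refine ⟨-u, ?_, neg_neg u⟩
    rw [mem_filter]
    refine ⟨mem_univ _, ?_⟩
    rw [h1]
    have := hu.2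
    omega
  · intro u _
    rw [neg_neg]

private theorem par_half (m : ℕ) [NeZero m] (hm : 3 ≤ m) (g : ZMod m → ℂ) :
    ∑ u ∈ univ.filter (fun u : (ZMod m)ˣ => 2 * (u : ZMod m).val < m), g (u : ZMod m) = ∑ n ∈ cop m (m / 2), g (n : ZMod m) := by
  classical
  refine Finset.sum_bij (fun u _ => (u : ZMod m).val) ?_ ?_ ?_ ?_
  · intro u hu
    rw [mem_filter] at hu
    obtain ⟨h1, h2, h3, h4⟩ := par_neg_val hm u
    rw [mem_cop]
    exact ⟨h2, by have := hu.2; omega, ZMod.val_coe_unit_coprime u⟩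
  · intro u _ v _ h
    exact Units.ext (ZMod.val_injective m h)
  · intro n hn
    obtain ⟨h1, h2, h3⟩ := mem_cop.mp hn
    have h4 : 2 * n < m := by
      rcases (show 2 * n ≤ m by omega).lt_or_eq with h5 | h5
      · exact h5
      · exfalso
        have h6 : n = 1 := Nat.Coprime.eq_one_of_dvd h3 ⟨2, by omega⟩
        omega
    refine ⟨ZMod.unitOfCoprime n h3, ?_, ?_⟩
    · rw [mem_filter]
      refine ⟨mem_univ _, ?_⟩
      rw [ZMod.coe_unitOfCoprime, ZMod.val_natCast, Nat.mod_eq_of_lt (by omega)]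
      exact h4
    · rw [ZMod.coe_unitOfCoprime, ZMod.val_natCast, Nat.mod_eq_of_lt (by omega)]
  · intro u _
    rw [ZMod.natCast_zmod_val]

private theorem par_cc (m : ℕ) [NeZero m] (hm : 3 ≤ m) (η : ℤ) (hη : η = 1 ∨ η = -1) (χ : DirichletCharacter ℂ m) :
    cc m (FC m η) χ = (1 / (m.totient : ℂ)) * ((1 + (η : ℂ) * (starRingEnd ℂ) (χ (-1))) *
      (starRingEnd ℂ) (∑ n ∈ cop m (m / 2), ((lam n : ℤ) : ℂ) * χ (n : ZMod m))) := by
  have h1 : ∀ u : (ZMod m)ˣ, FC m η ((-u : (ZMod m)ˣ) : ZMod m) * (starRingEnd ℂ) (χ ((-u : (ZMod m)ˣ) : ZMod m)) =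
      (η : ℂ) * (starRingEnd ℂ) (χ (-1)) * (FC m η (u : ZMod m) * (starRingEnd ℂ) (χ (u : ZMod m))) := by
    intro u
    obtain ⟨h1, h2, h3, h4⟩ := par_neg_val hm u
    have h5 : F m η ((-u : (ZMod m)ˣ) : ZMod m).val = η * F m η (u : ZMod m).val := by
      refine F_neg hη ⟨1, ?_⟩ ?_
      · rw [h1]
        omega
      · rw [Nat.mod_eq_of_lt h3]
        exact h4
    have h6 : ((-u : (ZMod m)ˣ) : ZMod m) = (-1) * (u : ZMod m) := by
      rw [Units.val_neg]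
      ring
    have h7 : FC m η ((-u : (ZMod m)ˣ) : ZMod m) = (η : ℂ) * FC m η (u : ZMod m) := by
      unfold FC
      rw [h5]
      push_cast
      ring
    have h8 : χ ((-u : (ZMod m)ˣ) : ZMod m) = χ (-1) * χ (u : ZMod m) := by
      rw [h6, map_mul]
    rw [h7, h8, map_mul]
    ring
  unfold cc
  congr 1
  rw [par_split m hm (fun u => FC m η (u : ZMod m) * (starRingEnd ℂ) (χ (u : ZMod m)))]
  have h2 : ∀ u ∈ univ.filter (fun u : (ZMod m)ˣ => 2 * (u : ZMod m).val < m),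
      (FC m η (u : ZMod m) * (starRingEnd ℂ) (χ (u : ZMod m)) +
        FC m η ((-u : (ZMod m)ˣ) : ZMod m) * (starRingEnd ℂ) (χ ((-u : (ZMod m)ˣ) : ZMod m))) =
      (1 + (η : ℂ) * (starRingEnd ℂ) (χ (-1))) * (FC m η (u : ZMod m) * (starRingEnd ℂ) (χ (u : ZMod m))) := by
    intro u _
    rw [h1 u]
    ring
  rw [sum_congr rfl h2, ← mul_sum]
  congr 1
  rw [par_half m hm (fun x => FC m η x * (starRingEnd ℂ) (χ x)), map_sum]
  refine sum_congr rfl fun n hn => ?_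
  obtain ⟨h3, h4, h5⟩ := mem_cop.mp hn
  rw [FC_natCast, F_small (by omega) (by omega), map_mul, map_intCast]

theorem ww_le_half (m : ℕ) [NeZero m] (hm : 3 ≤ m) (η : ℤ) (hη : η = 1 ∨ η = -1)
    (χ : DirichletCharacter ℂ m) :
    ww m η χ ≤ 4 / (m.totient : ℝ) ^ 2 *
      ‖∑ n ∈ cop m (m / 2), ((lam n : ℤ) : ℂ) * χ (n : ZMod m)‖ ^ 2 := by
  unfold ww
  rw [par_cc m hm η hη χ, norm_mul, norm_mul, RCLike.norm_conj, norm_div, norm_one, Complex.norm_natCast]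
  have h1 : ‖(1 : ℂ) + (η : ℂ) * (starRingEnd ℂ) (χ (-1))‖ ≤ 2 := by
    refine (norm_add_le _ _).trans ?_
    rw [norm_one, norm_mul, RCLike.norm_conj, par_norm_eta hη, one_mul]
    have h2 := DirichletCharacter.norm_le_one χ (-1)
    linarith
  have h0 : 0 ≤ ‖(1 : ℂ) + (η : ℂ) * (starRingEnd ℂ) (χ (-1))‖ := norm_nonneg _
  obtain ⟨S, hS⟩ : ∃ S, S = ‖∑ n ∈ cop m (m / 2), ((lam n : ℤ) : ℂ) * χ (n : ZMod m)‖ := ⟨_, rfl⟩
  obtain ⟨T, hT⟩ : ∃ T, T = ‖(1 : ℂ) + (η : ℂ) * (starRingEnd ℂ) (χ (-1))‖ := ⟨_, rfl⟩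
  rw [← hS, ← hT]
  rw [← hT] at h1 h0
  have e1 : (1 / (m.totient : ℝ) * (T * S)) ^ 2 = T ^ 2 * ((1 / (m.totient : ℝ)) ^ 2 * S ^ 2) := by ring
  have e2 : 4 / (m.totient : ℝ) ^ 2 * S ^ 2 = 4 * ((1 / (m.totient : ℝ)) ^ 2 * S ^ 2) := by ring
  rw [e1, e2]
  refine mul_le_mul_of_nonneg_right ?_ (by positivity)
  nlinarith

theorem ww_inv (m : ℕ) [NeZero m] (η : ℤ) (χ : DirichletCharacter ℂ m) :
    ww m η χ⁻¹ = ww m η χ := by
  have h1 : cc m (FC m η) χ⁻¹ = (starRingEnd ℂ) (cc m (FC m η) χ) := by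
    unfold cc
    rw [map_mul, map_sum, map_div₀, map_one, map_natCast]
    congr 1
    refine sum_congr rfl fun u _ => ?_
    have h2 : (starRingEnd ℂ) (χ (u : ZMod m)) = χ⁻¹ (u : ZMod m) := MulChar.star_apply' χ (u : ZMod m)
    rw [map_mul, ← h2]
    congr 1
    unfold FC
    rw [map_intCast]
  unfold ww
  rw [h1, RCLike.norm_conj]

private theorem par_units (m : ℕ) [NeZero m] (g : ZMod m → ℝ) (hg : ∀ z, 0 ≤ g z) :
    ∑ y ∈ cop m (m / 2), g (y : ZMod m) ≤ ∑ u : (ZMod m)ˣ, g (u : ZMod m) := by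
  classical
  let f : ℕ → (ZMod m)ˣ := fun y => if h : y.Coprime m then ZMod.unitOfCoprime y h else 1
  have hf : ∀ y ∈ cop m (m / 2), ((f y : (ZMod m)ˣ) : ZMod m) = (y : ZMod m) := by
    intro y hy
    have h := (mem_cop.mp hy).2.2
    simp only [f, dif_pos h, ZMod.coe_unitOfCoprime]
  have e1 : ∑ y ∈ cop m (m / 2), g (y : ZMod m) = ∑ u ∈ (cop m (m / 2)).image f, g (u : ZMod m) := by
    rw [sum_image]
    · exact sum_congr rfl fun y hy => by rw [hf y hy]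
    · intro a ha b hb hab
      have ha1 := mem_cop.mp (mem_coe.mp ha)
      have hb1 := mem_cop.mp (mem_coe.mp hb)
      have h3 : ((a : ℕ) : ZMod m) = ((b : ℕ) : ZMod m) := by
        rw [← hf a (mem_coe.mp ha), ← hf b (mem_coe.mp hb), hab]
      rw [ZMod.natCast_eq_natCast_iff'] at h3
      have hm0 : 0 < m := Nat.pos_of_ne_zero (NeZero.ne m)
      rwa [Nat.mod_eq_of_lt (by omega), Nat.mod_eq_of_lt (by omega)] at h3
  rw [e1]
  exact sum_le_sum_of_subset_of_nonneg (subset_univ _) fun u _ _ => hg _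

theorem half_phi (m : ℕ) [NeZero m] (hm : 2 ≤ m) (η : ℤ) (U : Finset (DirichletCharacter ℂ m)) :
    ∑ y ∈ cop m (m / 2), ‖((lam y : ℤ) : ℂ) - GU m η U y‖ ^ 2
      ≤ (m.totient : ℝ) * wout m η U := by
  classical
  have g1 := par_units m
    (fun z => ‖FC m η z - ∑ χ ∈ U, cc m (FC m η) χ * χ z‖ ^ 2) (fun z => by positivity)
  have g2 := part_sum m (FC m η) U
  have g4 : ∑ y ∈ cop m (m / 2), ‖((lam y : ℤ) : ℂ) - GU m η U y‖ ^ 2
      = ∑ y ∈ cop m (m / 2), ‖FC m η (y : ZMod m) - ∑ χ ∈ U, cc m (FC m η) χ * χ (y : ZMod m)‖ ^ 2 := by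
    refine sum_congr rfl fun y hy => ?_
    obtain ⟨hy1, hy2, _⟩ := mem_cop.mp hy
    rw [FC_natCast, F_small (by omega) (by omega)]
    rfl
  rw [g4]
  refine g1.trans (le_of_eq ?_)
  unfold wout ww
  convert g2 using 2

theorem wout_eq (m : ℕ) [NeZero m] (hm : 2 ≤ m) (η : ℤ) (hη : η = 1 ∨ η = -1)
    (X : Finset (DirichletCharacter ℂ m)) : wout m η X = 1 - ∑ χ ∈ X, ww m η χ := by
  classical
  have h1 := Finset.sum_filter_add_sum_filter_not univ (fun χ : DirichletCharacter ℂ m => χ ∈ X) (fun χ => ww m η χ)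
  have h2 : univ.filter (fun χ : DirichletCharacter ℂ m => χ ∈ X) = X := by
    ext χ
    simp
  rw [h2, ww_sum m hm η hη] at h1
  have h3 : wout m η X = ∑ χ ∈ univ.filter (fun χ => χ ∉ X), ww m η χ := by
    unfold wout
    congr 1
  rw [h3]
  linarith

end Pool.Agent.H78.PD
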