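import Pool.Agent.H78.PD.T6a
import Pool.Agent.H78.PD.Par

/-!
# PD, T6: the logarithmic sum of `λχ`

`f(n) = λ(n) χ(n)` (`±1` for `n` prime to `m`), `k = cc χ`, `f(p) = 1` for a prime with `χ(p) = -1`.  `B = Bad m χ (3/10) (37/100)`.
* For `a ∈ cop m ⌊m^(1/100)⌋` and a triple of `t6_triples`: `x = a p1 p2 p3 ≤ m/2` (`p3 ≤ A X`), prime to `m`, `f(x) = f(a)`; each `x` comes from at most `27` triples (`p1, p2, p3` are prime factors `> m^(3/10)` of `x ≤ m`, at most `3` of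
  them, and `a` is determined): `∑_a |f(a) - k|² c m/(a L) ≤ 27 ∑_{x ∈ cop m (m/2)} |f(x) - k|²`, `|f(x) - k| = |λ(x) - k χ(x)|`, and `half_phi` with `U = {χ}`: `≤ 27 φ wout {χ} ≤ 27 φ δ0`.
* `S = ∑_{a ∈ cop m x} 1/a ≥ (φ/m) log x` (`x = ⌊m^(1/100)⌋`): `(∑_{a ∈ cop m x} 1/a) ∏_{p ∣ m} (1 - 1/p)⁻¹ ≥ ∑_{n ≤ x} 1/n`; so `S ≥ (φ/m)(log m)/200`.
* `|k|² = 1 - wout {χ} ≥ 1 - δ0`; `|∑ f(a)/a| ≥ |k| S - (∑ |f(a) - k|²/a)^(1/2) S^(1/2) ≥ S/2`.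
-/

set_option autoImplicit false

namespace Pool.Agent.H78.PD

open Finset
open Pool.Agent.H34PG (lam lam_val lam_mul lam_prime)
open Pool.Agent.H11.LQ Pool.Agent.H78.PG

/-- numbers up to `x` prime to all elements of `P` -/
private def t6S (P : Finset ℕ) (x : ℕ) : Finset ℕ :=
  (Icc 1 x).filter (fun a => ∀ p ∈ P, ¬ p ∣ a)

private theorem t6_mem {P : Finset ℕ} {x a : ℕ} :
    a ∈ t6S P x ↔ 1 ≤ a ∧ a ≤ x ∧ ∀ p ∈ P, ¬ p ∣ a := by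
  unfold t6S
  rw [mem_filter, mem_Icc, and_assoc]

private theorem t6_step (P : Finset ℕ) (q x : ℕ) (hq : q.Prime) :
    (1 - 1 / (q : ℝ)) * ∑ a ∈ t6S P x, 1 / (a : ℝ) ≤ ∑ a ∈ t6S (insert q P) x, 1 / (a : ℝ) := by
  classical
  have hq0 : (0 : ℝ) < q := by exact_mod_cast hq.pos
  have h1 : ∑ a ∈ t6S P x, 1 / (a : ℝ) =
      ∑ a ∈ (t6S P x).filter (fun a => q ∣ a), 1 / (a : ℝ) +
        ∑ a ∈ (t6S P x).filter (fun a => ¬ q ∣ a), 1 / (a : ℝ) :=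
    (sum_filter_add_sum_filter_not _ _ _).symm
  have h2 : (t6S P x).filter (fun a => ¬ q ∣ a) = t6S (insert q P) x := by
    ext a
    rw [mem_filter, t6_mem, t6_mem]
    constructor
    · rintro ⟨⟨h1, h2, h3⟩, h4⟩
      refine ⟨h1, h2, fun p hp => ?_⟩
      rcases mem_insert.mp hp with rfl | hp
      · exact h4
      · exact h3 p hp
    · rintro ⟨h1, h2, h3⟩
      exact ⟨⟨h1, h2, fun p hp => h3 p (mem_insert_of_mem hp)⟩, h3 q (mem_insert_self _ _)⟩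
  have h3 : ∑ a ∈ (t6S P x).filter (fun a => q ∣ a), 1 / (a : ℝ) ≤
      1 / (q : ℝ) * ∑ a ∈ t6S P x, 1 / (a : ℝ) := by
    have e1 : ∑ a ∈ (t6S P x).filter (fun a => q ∣ a), 1 / (a : ℝ) =
        ∑ a ∈ (t6S P x).filter (fun a => q ∣ a), 1 / (q : ℝ) * (1 / ((a / q : ℕ) : ℝ)) := by
      refine sum_congr rfl fun a ha => ?_
      rw [mem_filter] at ha
      obtain ⟨b, rfl⟩ := ha.2
      rw [Nat.mul_div_cancel_left b hq.pos]
      push_cast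
      rw [one_div_mul_one_div]
    have e2 : ∑ a ∈ (t6S P x).filter (fun a => q ∣ a), 1 / ((a / q : ℕ) : ℝ) =
        ∑ b ∈ ((t6S P x).filter (fun a => q ∣ a)).image (fun a => a / q), 1 / (b : ℝ) := by
      rw [sum_image]
      intro a ha b hb hab
      have ha1 := (mem_filter.mp (mem_coe.mp ha)).2
      have hb1 := (mem_filter.mp (mem_coe.mp hb)).2
      obtain ⟨c, rfl⟩ := ha1
      obtain ⟨d, rfl⟩ := hb1
      simp only at hab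
      rw [Nat.mul_div_cancel_left c hq.pos, Nat.mul_div_cancel_left d hq.pos] at hab
      rw [hab]
    rw [e1, ← mul_sum, e2]
    refine mul_le_mul_of_nonneg_left ?_ (by positivity)
    refine sum_le_sum_of_subset_of_nonneg ?_ fun _ _ _ => by positivity
    intro b hb
    rw [mem_image] at hb
    obtain ⟨a, ha, rfl⟩ := hb
    rw [mem_filter, t6_mem] at ha
    obtain ⟨⟨a1, a2, a3⟩, b, rfl⟩ := ha
    rw [Nat.mul_div_cancel_left b hq.pos, t6_mem]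
    have hb0 : 1 ≤ b := by
      rcases Nat.eq_zero_or_pos b with h | h
      · subst h
        omega
      · exact h
    refine ⟨hb0, ?_, fun p hp hpb => a3 p hp (Dvd.dvd.mul_left hpb q)⟩
    exact (Nat.le_mul_of_pos_left b hq.pos).trans a2
  rw [h2] at h1
  have h4 : (1 - 1 / (q : ℝ)) * ∑ a ∈ t6S P x, 1 / (a : ℝ) =
      ∑ a ∈ t6S P x, 1 / (a : ℝ) - 1 / (q : ℝ) * ∑ a ∈ t6S P x, 1 / (a : ℝ) := by ring
  rw [h4]
  linarith

private theorem t6_prod (x : ℕ) (P : Finset ℕ) (hP : ∀ p ∈ P, p.Prime) :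
    (∏ p ∈ P, (1 - 1 / (p : ℝ))) * ∑ a ∈ Icc 1 x, 1 / (a : ℝ) ≤ ∑ a ∈ t6S P x, 1 / (a : ℝ) := by
  classical
  induction P using Finset.induction_on with
  | empty =>
    rw [prod_empty, one_mul]
    refine le_of_eq (sum_congr ?_ fun _ _ => rfl)
    ext a
    rw [t6_mem, mem_Icc]
    constructor
    · rintro ⟨h1, h2⟩
      exact ⟨h1, h2, fun p hp => absurd hp (notMem_empty p)⟩
    · rintro ⟨h1, h2, _⟩
      exact ⟨h1, h2⟩
  | insert q P hqP ih =>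
    have hq : q.Prime := hP q (mem_insert_self _ _)
    have hP' : ∀ p ∈ P, p.Prime := fun p hp => hP p (mem_insert_of_mem hp)
    rw [prod_insert hqP, mul_assoc]
    refine le_trans ?_ (t6_step P q x hq)
    refine mul_le_mul_of_nonneg_left (ih hP') ?_
    have h1 : (1 : ℝ) ≤ q := by exact_mod_cast hq.one_lt.le
    have h2 : 1 / (q : ℝ) ≤ 1 := by
      rw [div_le_one (by linarith)]
      exact h1
    linarith

theorem cop_harm (m x : ℕ) (hm : 1 ≤ m) (hx : 1 ≤ x) :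
    (m.totient : ℝ) / m * Real.log x ≤ ∑ a ∈ cop m x, 1 / (a : ℝ) := by
  classical
  have hm0 : (0 : ℝ) < m := by exact_mod_cast hm
  have hP : ∀ p ∈ m.primeFactors, p.Prime := fun p hp => Nat.prime_of_mem_primeFactors hp
  have h1 := t6_prod x m.primeFactors hP
  have h2 : t6S m.primeFactors x = cop m x := by
    ext a
    rw [t6_mem, mem_cop]
    refine and_congr_right fun _ => and_congr_right fun _ => ?_
    constructor
    · intro h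
      refine Nat.Coprime.symm (Nat.coprime_of_dvd fun p hp hpm hpa => ?_)
      exact h p (Nat.mem_primeFactors.mpr ⟨hp, hpm, by omega⟩) hpa
    · intro h p hp hpa
      have hp' := Nat.mem_primeFactors.mp hp
      have := Nat.dvd_gcd hpa hp'.2.1
      rw [h] at this
      exact hp'.1.one_lt.ne' (Nat.dvd_one.mp this)
  have h3 : (m.totient : ℝ) / m = ∏ p ∈ m.primeFactors, (1 - 1 / (p : ℝ)) := by
    have e1 := Nat.totient_eq_mul_prod_factors m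
    have e2 : ((m.totient : ℚ) : ℝ) = ((m * ∏ p ∈ m.primeFactors, (1 - (p : ℚ)⁻¹) : ℚ) : ℝ) := by
      rw [e1]
    push_cast at e2
    rw [e2, mul_div_assoc, mul_comm, div_mul_cancel₀ _ hm0.ne']
    refine prod_congr rfl fun p _ => ?_
    rw [one_div]
  have h4 : Real.log x ≤ ∑ a ∈ Icc 1 x, 1 / (a : ℝ) := by
    have e1 := log_add_one_le_harmonic x
    have e2 : ((harmonic x : ℚ) : ℝ) = ∑ a ∈ Icc 1 x, 1 / (a : ℝ) := by
      rw [harmonic_eq_sum_Icc]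
      push_cast
      refine sum_congr rfl fun a _ => ?_
      rw [one_div]
    rw [← e2]
    refine le_trans ?_ e1
    have hx0 : (0 : ℝ) < x := by exact_mod_cast hx
    exact Real.log_le_log hx0 (by push_cast; linarith)
  rw [h2, ← h3] at h1
  refine le_trans ?_ h1
  exact mul_le_mul_of_nonneg_left h4 (by positivity)

/-- at most three prime factors exceed `m^(3/10)` -/
private theorem t6_three (m x : ℕ) (hm : 2 ≤ m) (hx0 : 1 ≤ x) (hx : x ≤ m) :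
    (x.primeFactors.filter (fun p : ℕ => (m : ℝ) ^ (3 / 10 : ℝ) < (p : ℝ))).card ≤ 3 := by
  classical
  obtain ⟨T, hT⟩ : ∃ T, T = x.primeFactors.filter (fun p : ℕ => (m : ℝ) ^ (3 / 10 : ℝ) < (p : ℝ)) :=
    ⟨_, rfl⟩
  rw [← hT]
  by_contra hc
  push Not at hc
  have hm1 : (1 : ℝ) < m := by exact_mod_cast hm
  have hm0 : (0 : ℝ) < m := by linarith
  have hsub : T ⊆ x.primeFactors := by
    rw [hT]
    exact filter_subset _ _
  have h1 : ∏ p ∈ T, p ∣ x :=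
    (prod_dvd_prod_of_subset _ _ _ hsub).trans (Nat.prod_primeFactors_dvd x)
  have h2 : ∏ p ∈ T, p ≤ x := Nat.le_of_dvd (by omega) h1
  have h3 : ((∏ p ∈ T, p : ℕ) : ℝ) ≤ m := by
    exact_mod_cast h2.trans hx
  have h4 : ((m : ℝ) ^ (3 / 10 : ℝ)) ^ T.card ≤ ((∏ p ∈ T, p : ℕ) : ℝ) := by
    push_cast
    rw [← prod_const]
    refine prod_le_prod (fun _ _ => by positivity) fun p hp => ?_
    rw [hT, mem_filter] at hp
    exact hp.2.le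
  have h5 : (1 : ℝ) ≤ (m : ℝ) ^ (3 / 10 : ℝ) := Real.one_le_rpow hm1.le (by norm_num)
  have h6 : ((m : ℝ) ^ (3 / 10 : ℝ)) ^ 4 ≤ ((m : ℝ) ^ (3 / 10 : ℝ)) ^ T.card :=
    pow_le_pow_right₀ h5 hc
  have h7 : ((m : ℝ) ^ (3 / 10 : ℝ)) ^ 4 = (m : ℝ) ^ (12 / 10 : ℝ) := by
    rw [← Real.rpow_natCast, ← Real.rpow_mul hm0.le]
    congr 1
    norm_num
  have h8 : (m : ℝ) ^ (1 : ℝ) < (m : ℝ) ^ (12 / 10 : ℝ) :=
    Real.rpow_lt_rpow_of_exponent_lt hm1 (by norm_num)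
  rw [Real.rpow_one] at h8
  rw [h7] at h6
  linarith

/-- the index set of the triples at `a` -/
private noncomputable def t6T (m : ℕ) (A : ℝ) (B : Finset ℕ) (a : ℕ) : Finset (Σ _ : ℕ × ℕ, ℕ) :=
  ((P3 m \ B) ×ˢ (P3 m \ B)).sigma (fun t => XX3 m A a t.1 t.2 \ B)

private theorem t6_card (m : ℕ) (A : ℝ) (B : Finset ℕ) (a : ℕ) :
    (t6T m A B a).card = ∑ p1 ∈ P3 m \ B, ∑ p2 ∈ P3 m \ B, (XX3 m A a p1 p2 \ B).card := by
  unfold t6T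
  rw [card_sigma, sum_product]

/-- the properties of the triples -/
private theorem t6_prop (m : ℕ) (A : ℝ) (hA : 2 ≤ A) (hm : 2 ≤ m) (χ : DirichletCharacter ℂ m)
    (hA2 : 2 * A ≤ (m : ℝ) ^ (3 / 100 : ℝ)) (a : ℕ)
    (ha : a ∈ cop m ⌊(m : ℝ) ^ (1 / 100 : ℝ)⌋₊) (t : Σ _ : ℕ × ℕ, ℕ)
    (ht : t ∈ t6T m A (Bad m χ (3 / 10) (37 / 100)) a) :
    (t.1.1.Prime ∧ ¬ t.1.1 ∣ m ∧ χ (t.1.1 : ZMod m) = -1 ∧ (m : ℝ) ^ (3 / 10 : ℝ) < (t.1.1 : ℝ)) ∧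
    (t.1.2.Prime ∧ ¬ t.1.2 ∣ m ∧ χ (t.1.2 : ZMod m) = -1 ∧ (m : ℝ) ^ (3 / 10 : ℝ) < (t.1.2 : ℝ)) ∧
    (t.2.Prime ∧ ¬ t.2 ∣ m ∧ χ (t.2 : ZMod m) = -1 ∧ (m : ℝ) ^ (3 / 10 : ℝ) < (t.2 : ℝ)) ∧
    a * t.1.1 * t.1.2 * t.2 ≤ m / 2 := by
  obtain ⟨⟨p1, p2⟩, p3⟩ := t
  unfold t6T at ht
  rw [mem_sigma, mem_product, mem_sdiff, mem_sdiff, mem_sdiff] at ht
  obtain ⟨⟨⟨h1, h1'⟩, ⟨h2, h2'⟩⟩, ⟨h3, h3'⟩⟩ := ht
  simp only at h1 h1' h2 h2' h3 h3' ⊢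
  have hm1 : (1 : ℝ) < m := by exact_mod_cast hm
  have hm0 : (0 : ℝ) < m := by linarith
  have hA0 : 0 < A := by linarith
  obtain ⟨ha1, ha2, ha3⟩ := mem_cop.mp ha
  have ha4 : (a : ℝ) ≤ (m : ℝ) ^ (1 / 100 : ℝ) := (Nat.le_floor_iff (by positivity)).mp ha2
  have ha0 : (0 : ℝ) < a := by exact_mod_cast ha1
  -- the primes in P3
  have hlt : (m : ℝ) ^ (3 / 10 : ℝ) < (m : ℝ) ^ (32 / 100 : ℝ) :=
    Real.rpow_lt_rpow_of_exponent_lt hm1 (by norm_num)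
  have hle : (m : ℝ) ^ (33 / 100 : ℝ) ≤ (m : ℝ) ^ (37 / 100 : ℝ) :=
    Real.rpow_le_rpow_of_exponent_le hm1.le (by norm_num)
  have key : ∀ p : ℕ, p ∈ P3 m → p ∉ Bad m χ (3 / 10) (37 / 100) →
      (p.Prime ∧ ¬ p ∣ m ∧ χ (p : ZMod m) = -1 ∧ (m : ℝ) ^ (3 / 10 : ℝ) < (p : ℝ)) ∧
      (m : ℝ) ^ (32 / 100 : ℝ) < (p : ℝ) ∧ (p : ℝ) ≤ (m : ℝ) ^ (33 / 100 : ℝ) := by
    intro p hp hpB
    unfold P3 at hp
    rw [mem_PI (by positivity)] at hp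
    obtain ⟨a1, a2, a3, a4⟩ := hp
    refine ⟨⟨a1, a2, ?_, hlt.trans a3⟩, a3, a4⟩
    by_contra hc
    exact hpB (mem_Bad.mpr ⟨a1, a2, hlt.trans a3, a4.trans hle, hc⟩)
  obtain ⟨k1, l1, u1⟩ := key p1 h1 h1'
  obtain ⟨k2, l2, u2⟩ := key p2 h2 h2'
  have p10 : (0 : ℝ) < p1 := by exact_mod_cast k1.1.pos
  have p20 : (0 : ℝ) < p2 := by exact_mod_cast k2.1.pos
  -- the third prime
  have hX0 : 0 < (m : ℝ) / (2 * A * a * p1 * p2) := by positivity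
  unfold XX3 at h3
  rw [mem_PI (by positivity)] at h3
  obtain ⟨b1, b2, b3, b4⟩ := h3
  have hAX : A * ((m : ℝ) / (2 * A * a * p1 * p2)) = m / (2 * a * p1 * p2) := by
    field_simp
  rw [hAX] at b4
  have p30 : (0 : ℝ) < p3 := by exact_mod_cast b1.pos
  have hX1 : (m : ℝ) ^ (3 / 10 : ℝ) ≤ (m : ℝ) / (2 * A * a * p1 * p2) := by
    rw [le_div_iff₀ (by positivity)]
    have e1 : 2 * A * (a : ℝ) * p1 * p2 ≤ (m : ℝ) ^ (3 / 100 : ℝ) * (m : ℝ) ^ (1 / 100 : ℝ) *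
        (m : ℝ) ^ (33 / 100 : ℝ) * (m : ℝ) ^ (33 / 100 : ℝ) := by
      gcongr
    calc (m : ℝ) ^ (3 / 10 : ℝ) * (2 * A * (a : ℝ) * p1 * p2)
        ≤ (m : ℝ) ^ (3 / 10 : ℝ) * ((m : ℝ) ^ (3 / 100 : ℝ) * (m : ℝ) ^ (1 / 100 : ℝ) *
        (m : ℝ) ^ (33 / 100 : ℝ) * (m : ℝ) ^ (33 / 100 : ℝ)) := by gcongr
      _ = m := by
        rw [← Real.rpow_add hm0, ← Real.rpow_add hm0, ← Real.rpow_add hm0, ← Real.rpow_add hm0]
        nth_rewrite 2 [← Real.rpow_one (m : ℝ)]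
        congr 1
        norm_num
  have hX2 : (m : ℝ) / (2 * a * p1 * p2) ≤ (m : ℝ) ^ (37 / 100 : ℝ) := by
    rw [div_le_iff₀ (by positivity)]
    have e1 : 1 * 1 * (m : ℝ) ^ (32 / 100 : ℝ) * (m : ℝ) ^ (32 / 100 : ℝ) ≤
        2 * (a : ℝ) * p1 * p2 := by
      have : (1 : ℝ) ≤ a := by exact_mod_cast ha1
      gcongr
      norm_num
    have e2 : (m : ℝ) ≤ (m : ℝ) ^ (37 / 100 : ℝ) *
        (1 * 1 * (m : ℝ) ^ (32 / 100 : ℝ) * (m : ℝ) ^ (32 / 100 : ℝ)) := by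
      rw [one_mul, one_mul, ← Real.rpow_add hm0, ← Real.rpow_add hm0]
      nth_rewrite 1 [← Real.rpow_one (m : ℝ)]
      exact Real.rpow_le_rpow_of_exponent_le hm1.le (by norm_num)
    refine e2.trans ?_
    gcongr
  refine ⟨k1, k2, ⟨b1, b2, ?_, hX1.trans_lt b3⟩, ?_⟩
  · by_contra hc
    exact h3' (mem_Bad.mpr ⟨b1, b2, hX1.trans_lt b3, b4.trans hX2, hc⟩)
  · rw [Nat.le_div_iff_mul_le (by norm_num)]
    rw [le_div_iff₀ (by positivity)] at b4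
    have : ((a * p1 * p2 * p3 * 2 : ℕ) : ℝ) ≤ m := by
      push_cast
      linarith
    exact_mod_cast this

private theorem t6_vv (m : ℕ) (χ : DirichletCharacter ℂ m) (a p : ℕ) (ha : 1 ≤ a) (hp : p.Prime)
    (h : χ (p : ZMod m) = -1) : vv m χ (a * p) = vv m χ a := by
  unfold vv
  rw [lam_mul a p (by omega) hp.pos, lam_prime hp, Nat.cast_mul, map_mul, h]
  push_cast
  ring

/-- the comparison -/
private theorem t6_cmp (m : ℕ) [NeZero m] (A : ℝ) (hA : 2 ≤ A) (hm : 2 ≤ m)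
    (χ : DirichletCharacter ℂ m) (hA2 : 2 * A ≤ (m : ℝ) ^ (3 / 100 : ℝ)) (k : ℂ) :
    ∑ a ∈ cop m ⌊(m : ℝ) ^ (1 / 100 : ℝ)⌋₊,
      ((t6T m A (Bad m χ (3 / 10) (37 / 100)) a).card : ℝ) * ‖vv m χ a - k‖ ^ 2
      ≤ 27 * ∑ x ∈ cop m (m / 2), ‖vv m χ x - k‖ ^ 2 := by
  classical
  obtain ⟨B, hB⟩ : ∃ B, B = Bad m χ (3 / 10) (37 / 100) := ⟨_, rfl⟩
  obtain ⟨C, hC⟩ : ∃ C, C = cop m ⌊(m : ℝ) ^ (1 / 100 : ℝ)⌋₊ := ⟨_, rfl⟩
  have hprop := t6_prop m A hA hm χ hA2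
  rw [← hB, ← hC] at hprop
  rw [← hB, ← hC]
  have e1 : ∑ a ∈ C, ((t6T m A B a).card : ℝ) * ‖vv m χ a - k‖ ^ 2 =
      ∑ w ∈ C.sigma (fun a => t6T m A B a), ‖vv m χ w.1 - k‖ ^ 2 := by
    rw [sum_sigma]
    refine sum_congr rfl fun a _ => ?_
    change _ = ∑ s ∈ t6T m A B a, ‖vv m χ a - k‖ ^ 2
    rw [sum_const, nsmul_eq_mul]
  rw [e1]
  -- the map
  obtain ⟨g, hg⟩ : ∃ g : (Σ _ : ℕ, Σ _ : ℕ × ℕ, ℕ) → ℕ,
    g = fun w => w.1 * w.2.1.1 * w.2.1.2 * w.2.2 := ⟨_, rfl⟩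
  have hgv : ∀ w, g w = w.1 * w.2.1.1 * w.2.1.2 * w.2.2 := fun w => by rw [hg]
  have hmaps : ∀ w ∈ C.sigma (fun a => t6T m A B a), g w ∈ cop m (m / 2) := by
    intro w hw
    rw [mem_sigma] at hw
    obtain ⟨h1, h2⟩ := hw
    obtain ⟨⟨q1, q2, _, _⟩, ⟨r1, r2, _, _⟩, ⟨s1, s2, _, _⟩, hle⟩ := hprop w.1 h1 w.2 h2
    have hw1 : 1 ≤ w.1 ∧ w.1.Coprime m := by
      rw [hC] at h1
      exact ⟨(mem_cop.mp h1).1, (mem_cop.mp h1).2.2⟩
    rw [mem_cop, hgv]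
    refine ⟨?_, hle, ?_⟩
    · have := Nat.mul_pos (Nat.mul_pos (Nat.mul_pos hw1.1 q1.pos) r1.pos) s1.pos
      omega
    · exact Nat.Coprime.mul_left (Nat.Coprime.mul_left (Nat.Coprime.mul_left hw1.2
        ((Nat.Prime.coprime_iff_not_dvd q1).mpr q2)) ((Nat.Prime.coprime_iff_not_dvd r1).mpr r2))
        ((Nat.Prime.coprime_iff_not_dvd s1).mpr s2)
  have hval : ∀ w ∈ C.sigma (fun a => t6T m A B a), vv m χ (g w) = vv m χ w.1 := by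
    intro w hw
    rw [mem_sigma] at hw
    obtain ⟨h1, h2⟩ := hw
    obtain ⟨⟨q1, _, q3, _⟩, ⟨r1, _, r3, _⟩, ⟨s1, _, s3, _⟩, _⟩ := hprop w.1 h1 w.2 h2
    have hw1 : 1 ≤ w.1 := by
      rw [hC] at h1
      exact (mem_cop.mp h1).1
    have hw2 : 1 ≤ w.1 * w.2.1.1 := Nat.mul_pos hw1 q1.pos
    have hw3 : 1 ≤ w.1 * w.2.1.1 * w.2.1.2 := Nat.mul_pos hw2 r1.pos
    rw [hgv, t6_vv m χ _ _ hw3 s1 s3, t6_vv m χ _ _ hw2 r1 r3, t6_vv m χ _ _ hw1 q1 q3]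
  rw [← sum_fiberwise_of_maps_to hmaps, mul_sum]
  refine sum_le_sum fun x hx => ?_
  obtain ⟨hx1, hx2, hx3⟩ := mem_cop.mp hx
  have e2 : ∑ w ∈ (C.sigma (fun a => t6T m A B a)).filter (fun w => g w = x),
      ‖vv m χ w.1 - k‖ ^ 2 =
      ∑ w ∈ (C.sigma (fun a => t6T m A B a)).filter (fun w => g w = x), ‖vv m χ x - k‖ ^ 2 := by
    refine sum_congr rfl fun w hw => ?_
    rw [mem_filter] at hw
    rw [← hval w hw.1, hw.2]
  rw [e2, sum_const, nsmul_eq_mul]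
  refine mul_le_mul_of_nonneg_right ?_ (by positivity)
  have hT := t6_three m x hm hx1 (hx2.trans (Nat.div_le_self _ _))
  obtain ⟨T, hTd⟩ : ∃ T, T = x.primeFactors.filter (fun p : ℕ => (m : ℝ) ^ (3 / 10 : ℝ) < (p : ℝ)) :=
    ⟨_, rfl⟩
  rw [← hTd] at hT
  have hcard : ((C.sigma (fun a => t6T m A B a)).filter (fun w => g w = x)).card ≤
      (T ×ˢ (T ×ˢ T)).card := by
    refine card_le_card_of_injOn (fun w => (w.2.1.1, (w.2.1.2, w.2.2))) ?_ ?_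
    · intro w hw
      rw [mem_coe, mem_filter, mem_sigma] at hw
      obtain ⟨⟨h1, h2⟩, h3⟩ := hw
      obtain ⟨⟨q1, _, _, q4⟩, ⟨r1, _, _, r4⟩, ⟨s1, _, _, s4⟩, _⟩ := hprop w.1 h1 w.2 h2
      rw [hgv] at h3
      have hx0 : x ≠ 0 := by omega
      rw [mem_coe, mem_product, mem_product, hTd]
      simp only [mem_filter, Nat.mem_primeFactors]
      refine ⟨⟨⟨q1, ?_, hx0⟩, q4⟩, ⟨⟨r1, ?_, hx0⟩, r4⟩, ⟨s1, ?_, hx0⟩, s4⟩
      · rw [← h3]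
        exact Dvd.dvd.mul_right (Dvd.dvd.mul_right (Dvd.intro_left _ rfl) _) _
      · rw [← h3]
        exact Dvd.dvd.mul_right (Dvd.intro_left _ rfl) _
      · rw [← h3]
        exact Dvd.intro_left _ rfl
    · intro w hw w' hw' hww
      rw [mem_coe, mem_filter, mem_sigma] at hw hw'
      obtain ⟨⟨h1, h2⟩, h3⟩ := hw
      obtain ⟨⟨h1', h2'⟩, h3'⟩ := hw'
      obtain ⟨⟨q1, _, _, _⟩, ⟨r1, _, _, _⟩, ⟨s1, _, _, _⟩, _⟩ := hprop w.1 h1 w.2 h2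
      obtain ⟨a, ⟨⟨p1, p2⟩, p3⟩⟩ := w
      obtain ⟨a', ⟨⟨p1', p2'⟩, p3'⟩⟩ := w'
      simp only [Prod.mk.injEq] at hww
      obtain ⟨rfl, rfl, rfl⟩ := hww
      rw [hgv] at h3 h3'
      simp only at h3 h3' q1 r1 s1
      have h4 : a * p1 * p2 * p3 = a' * p1 * p2 * p3 := by rw [h3, h3']
      have h5 := Nat.eq_of_mul_eq_mul_right s1.pos h4
      have h6 := Nat.eq_of_mul_eq_mul_right r1.pos h5
      have h7 := Nat.eq_of_mul_eq_mul_right q1.pos h6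
      rw [h7]
  rw [card_product, card_product] at hcard
  have h27 : T.card * (T.card * T.card) ≤ 3 * (3 * 3) :=
    Nat.mul_le_mul hT (Nat.mul_le_mul hT hT)
  have := hcard.trans h27
  exact_mod_cast this

/-- distance to a multiple of the character -/
private theorem t6_dist (m : ℕ) [NeZero m] (χ : DirichletCharacter ℂ m) (hχ : χ ^ 2 = 1) (k : ℂ)
    (x : ℕ) (hx : x.Coprime m) :
    ‖vv m χ x - k‖ = ‖((lam x : ℤ) : ℂ) - k * χ (x : ZMod m)‖ := by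
  obtain ⟨u, hu⟩ : IsUnit (x : ZMod m) := (ZMod.isUnit_iff_coprime x m).mpr hx
  have h1 : χ (x : ZMod m) * χ (x : ZMod m) = 1 := by
    rw [← hu, ← MulChar.mul_apply, ← sq, hχ]
    exact MulChar.one_apply_coe u
  have h2 : ‖χ (x : ZMod m)‖ = 1 := by
    rw [← hu]
    exact DirichletCharacter.unit_norm_eq_one χ u
  have h3 : ((lam x : ℤ) : ℂ) - k * χ (x : ZMod m) = χ (x : ZMod m) * (vv m χ x - k) := by
    unfold vv
    have : χ (x : ZMod m) * (((lam x : ℤ) : ℂ) * χ (x : ZMod m) - k) =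
        ((lam x : ℤ) : ℂ) * (χ (x : ZMod m) * χ (x : ZMod m)) - k * χ (x : ZMod m) := by ring
    rw [this, h1, mul_one]
  rw [h3, norm_mul, h2, one_mul]

/-- Cauchy and the triangle inequality -/
private theorem t6_end (C : Finset ℕ) (f : ℕ → ℂ) (k : ℂ)
    (hk : 3 / 4 ≤ ‖k‖) (S : ℝ) (hS : ∑ a ∈ C, 1 / (a : ℝ) = S)
    (hD : ∑ a ∈ C, ‖f a - k‖ ^ 2 / a ≤ 1 / 16 * S) : 1 / 2 * S ≤ ‖∑ a ∈ C, f a / a‖ := by
  have hS0 : 0 ≤ S := by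
    rw [← hS]
    exact sum_nonneg fun _ _ => by positivity
  have h1 : (∑ a ∈ C, ‖f a - k‖ / a) ^ 2 ≤ (∑ a ∈ C, ‖f a - k‖ ^ 2 / a) * ∑ a ∈ C, 1 / (a : ℝ) := by
    apply Finset.sum_sq_le_sum_mul_sum_of_sq_le_mul
    · intro i _
      positivity
    · intro i _
      positivity
    · intro i _
      apply le_of_eq
      ring
  have h2 : (∑ a ∈ C, ‖f a - k‖ / a) ^ 2 ≤ (1 / 4 * S) ^ 2 := by
    refine h1.trans ?_
    rw [hS]
    calc (∑ a ∈ C, ‖f a - k‖ ^ 2 / a) * S ≤ (1 / 16 * S) * S := by gcongr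
      _ = (1 / 4 * S) ^ 2 := by ring
  have h3 : ∑ a ∈ C, ‖f a - k‖ / a ≤ 1 / 4 * S :=
    (sq_le_sq₀ (sum_nonneg fun _ _ => by positivity) (by positivity)).mp h2
  have h4 : ∑ a ∈ C, f a / a = k * ((S : ℝ) : ℂ) + ∑ a ∈ C, (f a - k) / a := by
    rw [← hS]
    push_cast
    rw [mul_sum, ← sum_add_distrib]
    refine sum_congr rfl fun a ha => ?_
    ring
  have h5 : ‖∑ a ∈ C, (f a - k) / a‖ ≤ 1 / 4 * S := by
    refine (norm_sum_le _ _).trans (le_trans (le_of_eq ?_) h3)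
    refine sum_congr rfl fun a _ => ?_
    rw [norm_div, Complex.norm_natCast]
  have h6 : ‖k * ((S : ℝ) : ℂ)‖ = ‖k‖ * S := by
    rw [norm_mul, Complex.norm_real, Real.norm_of_nonneg hS0]
  have h7 : ‖k * ((S : ℝ) : ℂ)‖ ≤ ‖∑ a ∈ C, f a / a‖ + ‖∑ a ∈ C, (f a - k) / a‖ := by
    have : k * ((S : ℝ) : ℂ) = ∑ a ∈ C, f a / a - ∑ a ∈ C, (f a - k) / a := by
      rw [h4]
      ring
    rw [this]
    exact norm_sub_le _ _
  rw [h6] at h7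
  have h8 : 3 / 4 * S ≤ ‖k‖ * S := by gcongr
  linarith

theorem t6 : ∃ δ0 : ℝ, 0 < δ0 ∧ ∃ m0 : ℕ, ∀ (m : ℕ) [NeZero m], m0 ≤ m →
    ∀ η : ℤ, (η = 1 ∨ η = -1) → ∀ χ : DirichletCharacter ℂ m, χ ^ 2 = 1 →
    wout m η {χ} ≤ δ0 → ∑ q ∈ Bad m χ (3 / 10) (37 / 100), 1 / (q : ℝ) ≤ δ0 →
    1 / 400 * (m.totient / m) * Real.log m
      ≤ ‖∑ a ∈ cop m ⌊(m : ℝ) ^ (1 / 100 : ℝ)⌋₊, vv m χ a / a‖ := by
  obtain ⟨A, δ1, c, hA, hδ1, hc, m1, htr⟩ := t6_triples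
  obtain ⟨m2, hg2⟩ := grow (2 * A) 0 (3 / 100) (by norm_num)
  obtain ⟨m3, hg3⟩ := grow 2 0 (1 / 200) (by norm_num)
  refine ⟨min δ1 (min (1 / 4) (c / 86400)), by positivity, m1 + m2 + m3 + 3, ?_⟩
  intro m _ hm η hη χ hχ hw hB
  have hw1 : wout m η {χ} ≤ 1 / 4 := hw.trans ((min_le_right _ _).trans (min_le_left _ _))
  have hw2 : wout m η {χ} ≤ c / 86400 := hw.trans ((min_le_right _ _).trans (min_le_right _ _))
  have hB1 := hB.trans (min_le_left _ _)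
  have g2 := hg2 m (by omega)
  have g3 := hg3 m (by omega)
  rw [pow_zero, mul_one] at g2 g3
  have hm2 : 2 ≤ m := by omega
  have hm1 : (1 : ℝ) < m := by exact_mod_cast hm2
  have hm0 : (0 : ℝ) < m := by linarith
  have hL : 0 < Real.log m := Real.log_pos hm1
  have hφ : (0 : ℝ) < m.totient := by
    have h2 : 0 < m.totient := Nat.totient_pos.mpr (by omega)
    exact_mod_cast h2
  obtain ⟨k, hk⟩ : ∃ k, k = cc m (FC m η) χ := ⟨_, rfl⟩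
  obtain ⟨C, hC⟩ : ∃ C, C = cop m ⌊(m : ℝ) ^ (1 / 100 : ℝ)⌋₊ := ⟨_, rfl⟩
  obtain ⟨S, hS⟩ : ∃ S : ℝ, ∑ a ∈ C, 1 / (a : ℝ) = S := ⟨_, rfl⟩
  -- the size of `k`
  have hk2 : 3 / 4 ≤ ‖k‖ := by
    have h1 := wout_eq m hm2 η hη {χ}
    rw [sum_singleton] at h1
    have h2 : ww m η χ = ‖k‖ ^ 2 := by
      rw [hk]
      rfl
    rw [h2] at h1
    by_contra hcon
    push Not at hcon
    have h3 : ‖k‖ ^ 2 < (3 / 4) ^ 2 := by
      have := norm_nonneg k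
      gcongr
    norm_num at h3
    linarith
  -- the size of `S`
  have hS2 : m.totient / m * (Real.log m / 200) ≤ S := by
    have e0 : (m : ℝ) ^ (1 / 200 : ℝ) ≤ (⌊(m : ℝ) ^ (1 / 100 : ℝ)⌋₊ : ℝ) := by
      have e1 : (m : ℝ) ^ (1 / 100 : ℝ) = (m : ℝ) ^ (1 / 200 : ℝ) * (m : ℝ) ^ (1 / 200 : ℝ) := by
        rw [← Real.rpow_add hm0]
        congr 1
        norm_num
      have e2 := Nat.lt_floor_add_one ((m : ℝ) ^ (1 / 100 : ℝ))
      have e3 : (m : ℝ) ^ (1 / 200 : ℝ) + 1 ≤ (m : ℝ) ^ (1 / 100 : ℝ) := by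
        rw [e1]
        nlinarith
      linarith
    have e4 : 1 ≤ ⌊(m : ℝ) ^ (1 / 100 : ℝ)⌋₊ := by
      have : (1 : ℝ) ≤ (⌊(m : ℝ) ^ (1 / 100 : ℝ)⌋₊ : ℝ) := by linarith
      exact_mod_cast this
    have e5 := cop_harm m ⌊(m : ℝ) ^ (1 / 100 : ℝ)⌋₊ (by omega) e4
    rw [← hC, hS] at e5
    refine le_trans ?_ e5
    refine mul_le_mul_of_nonneg_left ?_ (by positivity)
    have e6 : Real.log ((m : ℝ) ^ (1 / 200 : ℝ)) ≤ Real.log (⌊(m : ℝ) ^ (1 / 100 : ℝ)⌋₊ : ℝ) :=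
      Real.log_le_log (by positivity) e0
    rw [Real.log_rpow hm0] at e6
    linarith
  -- the comparison
  have hcmp := t6_cmp m A hA hm2 χ g2 k
  rw [← hC] at hcmp
  have hR : ∑ x ∈ cop m (m / 2), ‖vv m χ x - k‖ ^ 2 ≤ m.totient * wout m η {χ} := by
    have h1 := half_phi m hm2 η {χ}
    refine le_trans (le_of_eq ?_) h1
    refine sum_congr rfl fun x hx => ?_
    rw [t6_dist m χ hχ k x (mem_cop.mp hx).2.2]
    unfold GU
    rw [sum_singleton, hk]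
  have hlow : c * m / Real.log m * ∑ a ∈ C, ‖vv m χ a - k‖ ^ 2 / a ≤
      ∑ a ∈ C, ((t6T m A (Bad m χ (3 / 10) (37 / 100)) a).card : ℝ) * ‖vv m χ a - k‖ ^ 2 := by
    rw [mul_sum]
    refine sum_le_sum fun a ha => ?_
    rw [hC] at ha
    obtain ⟨ha1, ha2, _⟩ := mem_cop.mp ha
    have ha0 : (0 : ℝ) < a := by exact_mod_cast ha1
    have h1 := htr m (by omega) (Bad m χ (3 / 10) (37 / 100)) (fun q hq => (mem_Bad.mp hq).1) hB1 a
      ha1 ((Nat.le_floor_iff (by positivity)).mp ha2)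
    rw [← t6_card] at h1
    calc c * m / Real.log m * (‖vv m χ a - k‖ ^ 2 / a)
        = c * m / (a * Real.log m) * ‖vv m χ a - k‖ ^ 2 := by
          field_simp
      _ ≤ _ := by gcongr
  have hD : ∑ a ∈ C, ‖vv m χ a - k‖ ^ 2 / a ≤ 1 / 16 * S := by
    obtain ⟨D, hDd⟩ : ∃ D, D = ∑ a ∈ C, ‖vv m χ a - k‖ ^ 2 / a := ⟨_, rfl⟩
    rw [← hDd] at hlow ⊢
    have h1 : c * m / Real.log m * D ≤ 27 * (m.totient * (c / 86400)) := by
      refine hlow.trans (hcmp.trans ?_)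
      have := hR.trans (mul_le_mul_of_nonneg_left hw2 hφ.le)
      linarith
    have h2 : D ≤ 27 * (m.totient * (c / 86400)) * (Real.log m / (c * m)) := by
      have h3 : D = c * m / Real.log m * D * (Real.log m / (c * m)) := by
        field_simp
      rw [h3]
      gcongr
    refine h2.trans ?_
    have h4 : 27 * (m.totient * (c / 86400)) * (Real.log m / (c * m)) =
        1 / 16 * (m.totient / m * (Real.log m / 200)) := by
      field_simp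
      norm_num
    rw [h4]
    gcongr
  have hend := t6_end C (vv m χ) k hk2 S hS hD
  rw [← hC]
  refine le_trans ?_ hend
  have : 1 / 400 * (m.totient / m : ℝ) * Real.log m = 1 / 2 * (m.totient / m * (Real.log m / 200)) := by
    ring
  rw [this]
  gcongr

/-- the distance of `λχ` to `k` in logarithmic mean -/
theorem t6_D : ∃ δ1 C : ℝ, 0 < δ1 ∧ 0 < C ∧ ∃ m0 : ℕ, ∀ (m : ℕ) [NeZero m], m0 ≤ m →
    ∀ η : ℤ, (η = 1 ∨ η = -1) → ∀ χ : DirichletCharacter ℂ m, χ ^ 2 = 1 →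
    ∑ q ∈ Bad m χ (3 / 10) (37 / 100), 1 / (q : ℝ) ≤ δ1 →
    ∑ a ∈ cop m ⌊(m : ℝ) ^ (1 / 100 : ℝ)⌋₊, ‖vv m χ a - cc m (FC m η) χ‖ ^ 2 / a
      ≤ C * wout m η {χ} * (m.totient / m * Real.log m) := by
  obtain ⟨A, δ1, c, hA, hδ1, hc, m1, htr⟩ := t6_triples
  obtain ⟨m2, hg2⟩ := grow (2 * A) 0 (3 / 100) (by norm_num)
  refine ⟨δ1, 27 / c, hδ1, by positivity, m1 + m2 + 3, ?_⟩
  intro m _ hm η hη χ hχ hB1
  have g2 := hg2 m (by omega)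
  rw [pow_zero, mul_one] at g2
  have hm2 : 2 ≤ m := by omega
  have hm1 : (1 : ℝ) < m := by exact_mod_cast hm2
  have hm0 : (0 : ℝ) < m := by linarith
  have hL : 0 < Real.log m := Real.log_pos hm1
  obtain ⟨k, hk⟩ : ∃ k, k = cc m (FC m η) χ := ⟨_, rfl⟩
  obtain ⟨C, hC⟩ : ∃ C, C = cop m ⌊(m : ℝ) ^ (1 / 100 : ℝ)⌋₊ := ⟨_, rfl⟩
  have hcmp := t6_cmp m A hA hm2 χ g2 k
  rw [← hC] at hcmp
  rw [← hC, ← hk]
  have hR : ∑ x ∈ cop m (m / 2), ‖vv m χ x - k‖ ^ 2 ≤ m.totient * wout m η {χ} := by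
    have h1 := half_phi m hm2 η {χ}
    refine le_trans (le_of_eq ?_) h1
    refine sum_congr rfl fun x hx => ?_
    rw [t6_dist m χ hχ k x (mem_cop.mp hx).2.2]
    unfold GU
    rw [sum_singleton, hk]
  have hlow : c * m / Real.log m * ∑ a ∈ C, ‖vv m χ a - k‖ ^ 2 / a ≤
      ∑ a ∈ C, ((t6T m A (Bad m χ (3 / 10) (37 / 100)) a).card : ℝ) * ‖vv m χ a - k‖ ^ 2 := by
    rw [mul_sum]
    refine sum_le_sum fun a ha => ?_
    rw [hC] at ha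
    obtain ⟨ha1, ha2, _⟩ := mem_cop.mp ha
    have ha0 : (0 : ℝ) < a := by exact_mod_cast ha1
    have h1 := htr m (by omega) (Bad m χ (3 / 10) (37 / 100)) (fun q hq => (mem_Bad.mp hq).1) hB1 a
      ha1 ((Nat.le_floor_iff (by positivity)).mp ha2)
    rw [← t6_card] at h1
    calc c * m / Real.log m * (‖vv m χ a - k‖ ^ 2 / a)
        = c * m / (a * Real.log m) * ‖vv m χ a - k‖ ^ 2 := by
          field_simp
      _ ≤ _ := by gcongr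
  obtain ⟨D, hDd⟩ : ∃ D, D = ∑ a ∈ C, ‖vv m χ a - k‖ ^ 2 / a := ⟨_, rfl⟩
  rw [← hDd] at hlow ⊢
  have h1 : c * m / Real.log m * D ≤ 27 * (m.totient * wout m η {χ}) := by
    refine hlow.trans (hcmp.trans ?_)
    linarith
  have h3 : D = c * m / Real.log m * D * (Real.log m / (c * m)) := by
    field_simp
  rw [h3]
  calc c * m / Real.log m * D * (Real.log m / (c * m))
      ≤ 27 * (m.totient * wout m η {χ}) * (Real.log m / (c * m)) := by gcongr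
    _ = 27 / c * wout m η {χ} * (m.totient / m * Real.log m) := by
      field_simp

end Pool.Agent.H78.PD
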