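import Pool.Agent.H84.PD.HT

/-!
# PD, T7: upper bound for `∑ (1 * f)(n)`

`HT_conv_sum` of helper84.
-/

set_option autoImplicit false

namespace Pool.Agent.H78.PD

open Finset

theorem t7 : ∃ C : ℝ, 0 < C ∧ ∀ f : ℕ → ℝ, f 1 = 1 → (∀ a b : ℕ, 1 ≤ a → 1 ≤ b → f (a * b) = f a * f b) →
    (∀ n, f n = 0 ∨ f n = 1 ∨ f n = -1) → ∀ x : ℕ, 2 ≤ x →
    ∑ n ∈ Icc 1 x, ∑ d ∈ n.divisors, f d ≤ C * (x / Real.log x) *
      Real.exp (∑ p ∈ (Icc 1 x).filter Nat.Prime, (1 + f p) / p) := by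
  obtain ⟨C, hC, H⟩ := Pool.Agent.H84.PD.HT_conv_sum
  refine ⟨C, hC, fun f h1 hmul hv x hx => ?_⟩
  obtain ⟨g, hg⟩ : ∃ g : ℕ → ℝ, ∀ n, g n = if n = 0 then 0 else f n := ⟨_, fun _ => rfl⟩
  have hgf : ∀ n : ℕ, 1 ≤ n → g n = f n := fun n hn => by
    rw [hg, if_neg (by omega)]
  have h := H g (by rw [hgf 1 le_rfl, h1]) (fun a b => by
    rcases Nat.eq_zero_or_pos a with ha | ha
    · rw [ha, zero_mul, hg 0, if_pos rfl, zero_mul]
    rcases Nat.eq_zero_or_pos b with hb | hb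
    · rw [hb, mul_zero, hg 0, if_pos rfl, mul_zero]
    rw [hgf _ (Nat.mul_pos ha hb), hgf _ ha, hgf _ hb, hmul a b ha hb]) (fun n => by
    rcases Nat.eq_zero_or_pos n with hn | hn
    · left
      rw [hn, hg 0, if_pos rfl]
    · rw [hgf n hn]
      exact hv n) x hx
  have e1 : ∑ n ∈ Icc 1 x, ∑ d ∈ n.divisors, g d = ∑ n ∈ Icc 1 x, ∑ d ∈ n.divisors, f d :=
    sum_congr rfl fun n _ => sum_congr rfl fun d hd => hgf d (Nat.pos_of_mem_divisors hd)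
  have e2 : ∑ p ∈ (Icc 1 x).filter Nat.Prime, (1 + g p) / p
      = ∑ p ∈ (Icc 1 x).filter Nat.Prime, (1 + f p) / p :=
    sum_congr rfl fun p hp => by rw [hgf p (mem_filter.mp hp).2.one_lt.le]
  rwa [e1, e2] at h

end Pool.Agent.H78.PD
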