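import Pool.Agent.H78.PD.Defs
import Pool.Agent.H78.PH.OmB

/-!
# PD, TotW: `m/φ(m)` and `ω(m)`

* `tot_omega`: the proof of `tot_log` (`PH/HNum.lean`; `hnum_prod`: `∏ p/(p-1) ≤ #+1` for distinct `p ≥ 2`).
* `tot_logw`: `w = ω(m) + 2`; `∏_{p ∣ m, p ≤ w} (1-1/p)⁻¹ ≤ ∏_{p ≤ w} (1-1/p)⁻¹ ≤ C(1 + log w)` (`omb_mertens` in `PH/OmB.lean`) and `∏_{p ∣ m, p > w} p/(p-1) ≤ (1 + 1/w)^w ≤ e`.
-/

set_option autoImplicit false

namespace Pool.Agent.H78.PD

open Finset
open Pool.Agent.H34PG (lam lam_val lam_mul lam_prime)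
open Pool.Agent.H11.LQ Pool.Agent.H78.PG

private theorem totW_prod (S : Finset ℕ) : (∀ p ∈ S, 2 ≤ p) →
    ∏ p ∈ S, p ≤ (S.card + 1) * ∏ p ∈ S, (p - 1) := by
  induction S using Finset.induction_on_max with
  | empty => intro _; simp
  | insert M S hM ih =>
    intro h
    have hS : ∀ p ∈ S, 2 ≤ p := fun p hp => h p (mem_insert_of_mem hp)
    have hM2 : 2 ≤ M := h M (mem_insert_self _ _)
    have hnot : M ∉ S := fun h1 => (hM M h1).false
    have hcard : S.card + 2 ≤ M := by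
      have h1 : S ⊆ Ico 2 M := fun p hp => mem_Ico.mpr ⟨hS p hp, hM p hp⟩
      have h2 := card_le_card h1
      rw [Nat.card_Ico] at h2
      omega
    rw [prod_insert hnot, prod_insert hnot, card_insert_of_notMem hnot]
    obtain ⟨N, rfl⟩ : ∃ N, M = N + 1 := ⟨M - 1, by omega⟩
    have h3 := ih hS
    have h4 : (N + 1) * (S.card + 1) ≤ (S.card + 1 + 1) * N := by nlinarith
    calc (N + 1) * ∏ p ∈ S, p ≤ (N + 1) * ((S.card + 1) * ∏ p ∈ S, (p - 1)) :=
          Nat.mul_le_mul_left _ h3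
      _ = ((N + 1) * (S.card + 1)) * ∏ p ∈ S, (p - 1) := by ring
      _ ≤ ((S.card + 1 + 1) * N) * ∏ p ∈ S, (p - 1) := Nat.mul_le_mul_right _ h4
      _ = (S.card + 1 + 1) * ((N + 1 - 1) * ∏ p ∈ S, (p - 1)) := by
          rw [Nat.add_sub_cancel]; ring

theorem tot_omega (m : ℕ) (hm : 1 ≤ m) : (m : ℝ) ≤ (m.primeFactors.card + 1) * m.totient := by
  have h1 := totW_prod m.primeFactors fun p hp => (Nat.prime_of_mem_primeFactors hp).two_le
  have h2 := Nat.totient_mul_prod_primeFactors m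
  have h3 : 0 < ∏ p ∈ m.primeFactors, (p - 1) :=
    prod_pos fun p hp => Nat.sub_pos_of_lt (Nat.prime_of_mem_primeFactors hp).one_lt
  have h4 : m ≤ (m.primeFactors.card + 1) * m.totient := by
    refine Nat.le_of_mul_le_mul_right ?_ h3
    rw [← h2]
    calc m.totient * ∏ p ∈ m.primeFactors, p
        ≤ m.totient * ((m.primeFactors.card + 1) * ∏ p ∈ m.primeFactors, (p - 1)) :=
          Nat.mul_le_mul_left _ h1
      _ = (m.primeFactors.card + 1) * m.totient * ∏ p ∈ m.primeFactors, (p - 1) := by ring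
  exact_mod_cast h4

private theorem totW_mertens : ∃ A : ℝ, 0 < A ∧ ∀ N : ℕ, 1 ≤ N →
    ∏ p ∈ (N + 1).primesBelow, (1 - 1 / (p : ℝ))⁻¹ ≤ A * (1 + Real.log N) := by
  obtain ⟨c, hc⟩ := Pool.Agent.H36.IS.mertA
  have h1 := hc.eventually (gt_mem_nhds (show c < c + 1 by linarith))
  rw [Filter.eventually_atTop] at h1
  obtain ⟨n0, hn0⟩ := h1
  have hprod : ∀ n : ℕ, ∏ p ∈ (n + 1).primesBelow, (1 - 1 / (p : ℝ))⁻¹
      = Real.exp (Pool.Agent.H36.IS.fS n) := by
    intro n
    unfold Pool.Agent.H36.IS.fS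
    rw [Real.exp_sum]
    have : (n + 1).primesBelow = (range (n + 1)).filter Nat.Prime := rfl
    rw [this]
    refine Finset.prod_congr rfl (fun p hp => ?_)
    rw [mem_filter] at hp
    have hp2 : (2 : ℝ) ≤ p := by exact_mod_cast hp.2.two_le
    have h2 : 1 / (p : ℝ) ≤ 1 / 2 := one_div_le_one_div_of_le (by norm_num) hp2
    have h3 : 0 < 1 - 1 / (p : ℝ) := by linarith
    rw [Real.exp_neg, Real.exp_log h3]
  have hmono : ∀ a b : ℕ, a ≤ b → ∏ p ∈ (a + 1).primesBelow, (1 - 1 / (p : ℝ))⁻¹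
      ≤ ∏ p ∈ (b + 1).primesBelow, (1 - 1 / (p : ℝ))⁻¹ := by
    intro a b hab
    rw [hprod, hprod]
    apply Real.exp_le_exp.2
    unfold Pool.Agent.H36.IS.fS
    apply Finset.sum_le_sum_of_subset_of_nonneg
    · intro p hp
      rw [mem_filter, mem_range] at hp ⊢
      exact ⟨by omega, hp.2⟩
    · intro p hp _
      rw [mem_filter] at hp
      have hp2 : (2 : ℝ) ≤ p := by exact_mod_cast hp.2.two_le
      have h2 : 1 / (p : ℝ) ≤ 1 / 2 := one_div_le_one_div_of_le (by norm_num) hp2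
      have h4 : 0 < 1 / (p : ℝ) := by positivity
      have := Real.log_nonpos (show (0 : ℝ) ≤ 1 - 1 / p by linarith) (by linarith)
      linarith
  set n1 := max n0 3 with hn1
  set B := ∏ p ∈ (n1 + 1).primesBelow, (1 - 1 / (p : ℝ))⁻¹ with hB
  have hB0 : 0 < B := by
    rw [hB, hprod]
    exact Real.exp_pos _
  refine ⟨B + Real.exp (c + 1), by positivity, fun N hN => ?_⟩
  have hlog : 0 ≤ Real.log N := Real.log_nonneg (by exact_mod_cast hN)
  rcases Nat.lt_or_ge N n1 with h | h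
  · have h2 := hmono N n1 h.le
    have h3 : (0 : ℝ) < Real.exp (c + 1) := Real.exp_pos _
    calc ∏ p ∈ (N + 1).primesBelow, (1 - 1 / (p : ℝ))⁻¹ ≤ B := h2
      _ = B * 1 := by ring
      _ ≤ (B + Real.exp (c + 1)) * (1 + Real.log N) :=
        mul_le_mul (by linarith) (by linarith) (by norm_num) (by positivity)
  · have h2 := hn0 N ((le_max_left _ _).trans h)
    have hN3 : (3 : ℝ) ≤ N := by exact_mod_cast (le_max_right _ _).trans h
    have hlogpos : 0 < Real.log N := Real.log_pos (by linarith)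
    rw [hprod]
    have h3 : Pool.Agent.H36.IS.fS N ≤ (c + 1) + Real.log (Real.log N) := by linarith
    calc Real.exp (Pool.Agent.H36.IS.fS N) ≤ Real.exp ((c + 1) + Real.log (Real.log N)) :=
          Real.exp_le_exp.2 h3
      _ = Real.exp (c + 1) * Real.log N := by rw [Real.exp_add, Real.exp_log hlogpos]
      _ ≤ (B + Real.exp (c + 1)) * (1 + Real.log N) :=
        mul_le_mul (by linarith) (by linarith) hlogpos.le (by positivity)

theorem tot_logw : ∃ C : ℝ, 0 < C ∧ ∀ m : ℕ, 1 ≤ m →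
    (m : ℝ) ≤ C * Real.log (m.primeFactors.card + 2) * m.totient := by
  obtain ⟨A, hA, H⟩ := totW_mertens
  refine ⟨3 * A * Real.exp 1, by positivity, fun m hm => ?_⟩
  obtain ⟨w, hw⟩ : ∃ w : ℕ, w = m.primeFactors.card + 2 := ⟨_, rfl⟩
  have hwR : ((m.primeFactors.card : ℝ) + 2) = (w : ℝ) := by rw [hw]; push_cast; ring
  rw [hwR]
  have hw2 : 2 ≤ w := by omega
  have hw2R : (2 : ℝ) ≤ w := by exact_mod_cast hw2
  have hw0 : (0 : ℝ) < w := by linarith
  obtain ⟨Q, hQ⟩ : ∃ Q : ℝ, Q = ∏ p ∈ m.primeFactors, (1 - 1 / (p : ℝ))⁻¹ := ⟨_, rfl⟩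
  have hfac : ∀ p ∈ m.primeFactors, 0 < 1 - 1 / (p : ℝ) := by
    intro p hp
    have hp2 : (2 : ℝ) ≤ p := by exact_mod_cast (Nat.prime_of_mem_primeFactors hp).two_le
    have h2 : 1 / (p : ℝ) ≤ 1 / 2 := one_div_le_one_div_of_le (by norm_num) hp2
    linarith
  have hmQ : (m : ℝ) = Q * m.totient := by
    have h1 : (m.totient : ℝ) = m * ∏ p ∈ m.primeFactors, (1 - 1 / (p : ℝ)) := by
      have h2 := Nat.totient_eq_mul_prod_factors m
      have h3 : ((m.totient : ℚ) : ℝ) = ((m * ∏ p ∈ m.primeFactors, (1 - (p : ℚ)⁻¹) : ℚ) : ℝ) := by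
        rw [h2]
      push_cast at h3
      rw [h3]
      congr 1
      exact prod_congr rfl fun p _ => by rw [one_div]
    rw [h1, hQ, Finset.prod_inv_distrib]
    have h4 : 0 < ∏ p ∈ m.primeFactors, (1 - 1 / (p : ℝ)) := prod_pos hfac
    field_simp
  have hsplit : Q = (∏ p ∈ m.primeFactors.filter (fun p => p ≤ w), (1 - 1 / (p : ℝ))⁻¹)
      * ∏ p ∈ m.primeFactors.filter (fun p => ¬ p ≤ w), (1 - 1 / (p : ℝ))⁻¹ := by
    rw [hQ]
    exact (prod_filter_mul_prod_filter_not _ _ _).symm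
  have hsmall : ∏ p ∈ m.primeFactors.filter (fun p => p ≤ w), (1 - 1 / (p : ℝ))⁻¹
      ≤ A * (1 + Real.log w) := by
    refine le_trans ?_ (H w (by omega))
    have hsub : m.primeFactors.filter (fun p => p ≤ w) ⊆ (w + 1).primesBelow := by
      intro p hp
      rw [mem_filter] at hp
      rw [Nat.mem_primesBelow]
      exact ⟨by omega, Nat.prime_of_mem_primeFactors hp.1⟩
    rw [← prod_sdiff hsub]
    have hone : 1 ≤ ∏ p ∈ (w + 1).primesBelow \ m.primeFactors.filter (fun p => p ≤ w),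
        (1 - 1 / (p : ℝ))⁻¹ := by
      have h0 : ∏ _p ∈ (w + 1).primesBelow \ m.primeFactors.filter (fun p => p ≤ w), (1 : ℝ)
          ≤ ∏ p ∈ (w + 1).primesBelow \ m.primeFactors.filter (fun p => p ≤ w),
            (1 - 1 / (p : ℝ))⁻¹ := by
        refine prod_le_prod (fun _ _ => zero_le_one) (fun p hp => ?_)
        rw [mem_sdiff, Nat.mem_primesBelow] at hp
        have hp2 : (2 : ℝ) ≤ p := by exact_mod_cast hp.1.2.two_le
        have h2 : 1 / (p : ℝ) ≤ 1 / 2 := one_div_le_one_div_of_le (by norm_num) hp2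
        have h3 : 0 < 1 / (p : ℝ) := by positivity
        rw [one_le_inv₀ (by linarith)]
        linarith
      rwa [prod_const_one] at h0
    exact le_mul_of_one_le_left (prod_nonneg fun p hp =>
      inv_nonneg.mpr (hfac p (mem_filter.mp hp).1).le) hone
  have hbig : ∏ p ∈ m.primeFactors.filter (fun p => ¬ p ≤ w), (1 - 1 / (p : ℝ))⁻¹
      ≤ Real.exp 1 := by
    have h1 : ∏ p ∈ m.primeFactors.filter (fun p => ¬ p ≤ w), (1 - 1 / (p : ℝ))⁻¹
        ≤ ∏ _p ∈ m.primeFactors.filter (fun p => ¬ p ≤ w), Real.exp (1 / w) := by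
      refine prod_le_prod (fun p hp => ?_) (fun p hp => ?_)
      · exact inv_nonneg.mpr (hfac p (mem_filter.mp hp).1).le
      · have hp1 := (mem_filter.mp hp).2
        have hp2 : (w : ℝ) + 1 ≤ p := by
          have : w + 1 ≤ p := by omega
          exact_mod_cast this
        have h3 : (1 - 1 / (p : ℝ))⁻¹ ≤ 1 + 1 / w := by
          have hp0 : (0 : ℝ) < p := by linarith
          have h4 : 1 - 1 / (p : ℝ) = (p - 1) / p := by field_simp
          rw [h4, inv_div, div_le_iff₀ (by linarith)]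
          have h5 : (1 : ℝ) ≤ (p - 1) / w := by
            rw [one_le_div hw0]; linarith
          calc (p : ℝ) = (p - 1) + 1 := by ring
            _ ≤ (p - 1) + (p - 1) / w := by linarith
            _ = (1 + 1 / w) * (p - 1) := by ring
        refine h3.trans ?_
        have := Real.add_one_le_exp (1 / (w : ℝ))
        linarith
    refine h1.trans ?_
    rw [prod_const, ← Real.exp_nat_mul]
    refine Real.exp_le_exp.mpr ?_
    have h6 : (m.primeFactors.filter (fun p => ¬ p ≤ w)).card ≤ w := by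
      have := card_filter_le m.primeFactors (fun p => ¬ p ≤ w)
      omega
    have h7 : ((m.primeFactors.filter (fun p => ¬ p ≤ w)).card : ℝ) ≤ w := by exact_mod_cast h6
    rw [mul_one_div, div_le_one hw0]
    exact h7
  have hlog : (1 : ℝ) / 2 ≤ Real.log w := by
    have h8 := Real.log_two_gt_d9
    have h9 : Real.log 2 ≤ Real.log w := Real.log_le_log (by norm_num) hw2R
    linarith
  have hQle : Q ≤ 3 * A * Real.exp 1 * Real.log w := by
    rw [hsplit]
    calc _ ≤ (A * (1 + Real.log w)) * Real.exp 1 :=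
          mul_le_mul hsmall hbig (prod_nonneg fun p hp =>
            inv_nonneg.mpr (hfac p (mem_filter.mp hp).1).le) (by positivity)
      _ ≤ (A * (3 * Real.log w)) * Real.exp 1 := by
          refine mul_le_mul_of_nonneg_right ?_ (Real.exp_pos 1).le
          exact mul_le_mul_of_nonneg_left (by linarith) hA.le
      _ = 3 * A * Real.exp 1 * Real.log w := by ring
  rw [hmQ]
  exact mul_le_mul_of_nonneg_right hQle (Nat.cast_nonneg _)

end Pool.Agent.H78.PD
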