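import Pool.Agent.H78.PD.Main1
import Pool.Agent.H78.PD.Top
import Pool.Agent.H78.PD.T6c
import Pool.Agent.H78.PD.T8

/-!
# PD, Ana3: the analytic theorem of stage 3

`t8` gives `δ, δ2, ε, k`; `t6_up` gives `δ1`; `top`; `energy_main` with `σ = 1/2000`, `ε = ε0`.
`analytic3_base` is the version without the uniqueness across moduli (no `t6_up`, `t8`).
-/

set_option autoImplicit false

namespace Pool.Agent.H78.PD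

open Finset
open Pool.Agent.H11.LQ Pool.Agent.H78.PG

theorem analytic3_base : ∃ θ ε1 C : ℝ, 0 < θ ∧ 0 < ε1 ∧ 0 < C ∧ ∃ Q0 m0 : ℕ,
    ∀ (m : ℕ) [NeZero m], m0 ≤ m → ∀ Q : ℕ, Q0 ≤ Q →
    (m : ℝ) ≤ (Q : ℝ) ^ θ * m.totient → ∀ η : ℤ, (η = 1 ∨ η = -1) →
    (∀ q : ℕ, q.Prime → q ≤ Q → (Q : ℝ) * ((Ex m η q).card : ℝ) ≤ ε1 * m.totient) →
    ∃ χ : DirichletCharacter ℂ m, χ ^ 2 = 1 ∧ χ ≠ 1 ∧ χ (-1) = (η : ℂ) ∧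
      ‖DirichletCharacter.LFunction χ 1‖ ≤ C * (m / m.totient) / Real.log m := by
  obtain ⟨ε0, C, hε0, hC, m1, H1⟩ := top (1 / 100) 1 (by norm_num) (by norm_num) (by norm_num)
  obtain ⟨θ, ε1, hθ, hε1, Q0, m2, H2⟩ := energy_main (1 / 2000) ε0 (by norm_num) (by norm_num) hε0
  refine ⟨θ, ε1, C, hθ, hε1, hC, Q0, max m1 m2, fun m _ hm Q hQ hw η hη hE => ?_⟩
  obtain ⟨U, hU1, hU2⟩ := H2 m ((le_max_right _ _).trans hm) Q hQ hw η hη (fun q hq hqQ =>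
    (mul_le_mul_of_nonneg_left (by exact_mod_cast ExU_card_le m η q) (Nat.cast_nonneg _)).trans
      (hE q hq hqQ))
  obtain ⟨χ, e1, e2, e3, e4, _, _⟩ := H1 m ((le_max_left _ _).trans hm) η hη U hU1 hU2
  exact ⟨χ, e1, e2, e3, e4⟩

/-- the data of a failing modulus -/
def Fail (θ ε1 : ℝ) (m : ℕ) (η : ℤ) (Q : ℕ) : Prop :=
  (m : ℝ) ≤ (Q : ℝ) ^ θ * m.totient ∧ (η = 1 ∨ η = -1) ∧
    ∀ q : ℕ, q.Prime → q ≤ Q → (Q : ℝ) * ((Ex m η q).card : ℝ) ≤ ε1 * m.totient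

/-- there is a family of real characters, one for each failing modulus, with small `L(1,χ)`, and
with a common conductor for all moduli of `[X^(1-k), X]` -/
theorem analytic3 : ∃ θ ε1 C k : ℝ, 0 < θ ∧ 0 < ε1 ∧ 0 < C ∧ 0 < k ∧ k ≤ 1 / 100 ∧ ∃ Q0 m0 X0 : ℕ,
    (∀ (m : ℕ) [NeZero m], m0 ≤ m → ∀ Q : ℕ, Q0 ≤ Q → ∀ η : ℤ, Fail θ ε1 m η Q →
      ∃ χ : DirichletCharacter ℂ m, χ ^ 2 = 1 ∧ χ ≠ 1 ∧ χ (-1) = (η : ℂ) ∧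
        ‖DirichletCharacter.LFunction χ 1‖ ≤ C * (m / m.totient) / Real.log m) ∧
    ∀ X : ℕ, X0 ≤ X → ∃ c : ℕ, ∃ e : ℤ, ∀ (m : ℕ) [NeZero m], m0 ≤ m → (X : ℝ) ^ (1 - k) ≤ m → m ≤ X →
      ∀ Q : ℕ, Q0 ≤ Q → ∀ η : ℤ, Fail θ ε1 m η Q →
      η = e ∧ ∃ χ : DirichletCharacter ℂ m, χ ^ 2 = 1 ∧ χ ≠ 1 ∧ χ (-1) = (η : ℂ) ∧
        ‖DirichletCharacter.LFunction χ 1‖ ≤ C * (m / m.totient) / Real.log m ∧
        χ.conductor = c := by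
  obtain ⟨δ, δ2, ε, k, h2, h3, h4, h5, h6, h7, h8, X1, H8⟩ := t8
  obtain ⟨δ1, hδ1, m3, H3⟩ := t6_up δ δ2 ε h2 h3 h4 h5 h6
  obtain ⟨ε0, C, hε0, hC, m1, H1⟩ := top δ δ1 h4 (by linarith) hδ1
  obtain ⟨θ, ε1, hθ, hε1, Q0, m2, H2⟩ := energy_main (1 / 2000) ε0 (by norm_num) (by norm_num) hε0
  have key : ∀ (m : ℕ) [NeZero m], max m3 (max m1 m2) ≤ m → ∀ Q : ℕ, Q0 ≤ Q → ∀ η : ℤ,
      Fail θ ε1 m η Q → ∃ χ : DirichletCharacter ℂ m, χ ^ 2 = 1 ∧ χ ≠ 1 ∧ χ (-1) = (η : ℂ) ∧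
        ‖DirichletCharacter.LFunction χ 1‖ ≤ C * (m / m.totient) / Real.log m ∧
        ∑ q ∈ Bad m χ δ (1 - δ2), 1 / (q : ℝ) ≤ ε := by
    intro m _ hm Q hQ η hF
    obtain ⟨U, hU1, hU2⟩ := H2 m (((le_max_right _ _).trans (le_max_right _ _)).trans hm) Q hQ
      hF.1 η hF.2.1 (fun q hq hqQ =>
      (mul_le_mul_of_nonneg_left (by exact_mod_cast ExU_card_le m η q) (Nat.cast_nonneg _)).trans
        (hF.2.2 q hq hqQ))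
    obtain ⟨χ, e1, e2, e3, e4, e5, e6⟩ := H1 m (((le_max_left _ _).trans (le_max_right _ _)).trans hm)
      η hF.2.1 U hU1 hU2
    exact ⟨χ, e1, e2, e3, e4, H3 m ((le_max_left _ _).trans hm) η hF.2.1 χ e1 e5 e6⟩
  refine ⟨θ, ε1, C, k, hθ, hε1, hC, h7, h8, Q0, max m3 (max m1 m2), X1, ?_, ?_⟩
  · intro m _ hm Q hQ η hF
    obtain ⟨χ, e1, e2, e3, e4, _⟩ := key m hm Q hQ η hF
    exact ⟨χ, e1, e2, e3, e4⟩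
  · intro X hX
    by_cases hex : ∃ (m : ℕ) (_ : NeZero m), max m3 (max m1 m2) ≤ m ∧ (X : ℝ) ^ (1 - k) ≤ m ∧ m ≤ X ∧
        ∃ Q : ℕ, Q0 ≤ Q ∧ ∃ η : ℤ, Fail θ ε1 m η Q
    · obtain ⟨m', _, g1, g2, g3, Q', g4, η', g5⟩ := hex
      obtain ⟨χ', e1', _, e3', _, e5'⟩ := key m' g1 Q' g4 η' g5
      refine ⟨χ'.conductor, η', fun m _ hm hm1 hm2 Q hQ η hF => ?_⟩
      obtain ⟨χ, e1, e2, e3, e4, e5⟩ := key m hm Q hQ η hF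
      obtain ⟨f1, f2⟩ := H8 X hX m m' hm1 hm2 g2 g3 χ χ' e1 e1' e5 e5'
      refine ⟨?_, χ, e1, e2, e3, e4, f1⟩
      rw [e3, e3'] at f2
      exact_mod_cast f2
    · refine ⟨0, 0, fun m inst hm hm1 hm2 Q hQ η hF => ?_⟩
      exact absurd ⟨m, inst, hm, hm1, hm2, Q, hQ, η, hF⟩ hex

end Pool.Agent.H78.PD
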