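import Pool.Agent.H78.PD.Defs
import Pool.Agent.H78.PH.Analytic2

/-!
# PD, Lift3: lifting a real character

`χ' = changeLevel χ`; `L(1, χ') = L(1, χ) ∏_{p ∣ N} (1 - χ(p)/p)` (see `lift_par` in `PH/Analytic2.lean`); `|1 - χ(p)/p| ≤ 1 + 1/p ≤ (1 - 1/p)⁻¹` for `p ∤ m`, `= 1` for `p ∣ m`;
`φ(N)/N = ∏_{p ∣ N} (1 - 1/p)`.
-/

set_option autoImplicit false

namespace Pool.Agent.H78.PD

open Finset
open Pool.Agent.H78.PG

theorem lift3_tot (N : ℕ) [NeZero N] :
    (N.totient : ℝ) / N = ∏ p ∈ N.primeFactors, (1 - (p : ℝ)⁻¹) := by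
  have hN0 : (N : ℝ) ≠ 0 := by exact_mod_cast NeZero.ne N
  have h1 : ((N.totient : ℚ) : ℝ) = ((N * ∏ p ∈ N.primeFactors, (1 - (p : ℚ)⁻¹) : ℚ) : ℝ) := by
    rw [Nat.totient_eq_mul_prod_factors]
  push_cast at h1
  rw [h1]
  field_simp

theorem lift3 (m N : ℕ) [NeZero m] [NeZero N] (h : m ∣ N) (χ : DirichletCharacter ℂ m)
    (h2 : χ ^ 2 = 1) (h1 : χ ≠ 1) : ∃ χ' : DirichletCharacter ℂ N, χ' ^ 2 = 1 ∧ χ' ≠ 1 ∧
      χ' (-1) = χ (-1) ∧
      (N.totient : ℝ) / N * ‖DirichletCharacter.LFunction χ' 1‖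
        ≤ (m.totient : ℝ) / m * ‖DirichletCharacter.LFunction χ 1‖ := by
  refine ⟨DirichletCharacter.changeLevel h χ, ?_, ?_, ?_, ?_⟩
  · rw [← map_pow, h2, map_one]
  · intro hh
    apply h1
    apply DirichletCharacter.changeLevel_injective h
    rw [hh, map_one]
  · have h4 := DirichletCharacter.changeLevel_eq_cast_of_dvd χ h (-1)
    rw [Units.val_neg, Units.val_one] at h4
    rw [h4]
    congr 1
    rw [ZMod.cast_neg h, ZMod.cast_one h]
  · have h3 := DirichletCharacter.LFunction_changeLevel h χ (s := 1) (Or.inl h1)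
    rw [h3, norm_mul, mul_comm ‖DirichletCharacter.LFunction χ 1‖, ← mul_assoc]
    refine mul_le_mul_of_nonneg_right ?_ (norm_nonneg _)
    rw [lift3_tot, lift3_tot, norm_prod, ← Finset.prod_mul_distrib]
    have hsub : m.primeFactors ⊆ N.primeFactors := Nat.primeFactors_mono h (NeZero.ne N)
    rw [← Finset.prod_sdiff hsub]
    have hP : ∀ p ∈ N.primeFactors, (0 : ℝ) < 1 - (p : ℝ)⁻¹ := by
      intro p hp
      have hp2 : (2 : ℝ) ≤ p := by exact_mod_cast (Nat.prime_of_mem_primeFactors hp).two_le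
      have : (p : ℝ)⁻¹ ≤ 2⁻¹ := inv_anti₀ (by norm_num) hp2
      norm_num at this ⊢
      linarith
    have ha : ∏ p ∈ N.primeFactors \ m.primeFactors,
        ((1 - (p : ℝ)⁻¹) * ‖(1 : ℂ) - χ p * (p : ℂ) ^ (-(1 : ℂ))‖) ≤ 1 := by
      refine Finset.prod_le_one (fun p hp => ?_) fun p hp => ?_
      · have := hP p (Finset.mem_sdiff.1 hp).1
        positivity
      · have h6 := hP p (Finset.mem_sdiff.1 hp).1
        have h3 : ‖χ p * (p : ℂ) ^ (-(1 : ℂ))‖ ≤ (p : ℝ)⁻¹ := by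
          rw [Complex.cpow_neg, Complex.cpow_one, norm_mul, norm_inv, Complex.norm_natCast]
          have h3 := DirichletCharacter.norm_le_one χ (p : ZMod m)
          have h4 : (0 : ℝ) ≤ (p : ℝ)⁻¹ := by positivity
          exact mul_le_of_le_one_left h4 h3
        have h5 : ‖(1 : ℂ) - χ p * (p : ℂ) ^ (-(1 : ℂ))‖ ≤ 1 + (p : ℝ)⁻¹ := by
          refine (norm_sub_le _ _).trans ?_
          rw [norm_one]
          linarith
        calc (1 - (p : ℝ)⁻¹) * ‖(1 : ℂ) - χ p * (p : ℂ) ^ (-(1 : ℂ))‖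
            ≤ (1 - (p : ℝ)⁻¹) * (1 + (p : ℝ)⁻¹) := mul_le_mul_of_nonneg_left h5 h6.le
          _ ≤ 1 := by nlinarith [sq_nonneg ((p : ℝ)⁻¹)]
    have hb : ∏ p ∈ m.primeFactors,
        ((1 - (p : ℝ)⁻¹) * ‖(1 : ℂ) - χ p * (p : ℂ) ^ (-(1 : ℂ))‖) =
        ∏ p ∈ m.primeFactors, (1 - (p : ℝ)⁻¹) := by
      refine Finset.prod_congr rfl fun p hp => ?_
      have hpm : ¬ IsUnit (p : ZMod m) := by
        intro hu
        have hc := (ZMod.isUnit_iff_coprime p m).1 hu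
        have hpp := Nat.prime_of_mem_primeFactors hp
        have hpd := Nat.dvd_of_mem_primeFactors hp
        exact hpp.one_lt.ne' (Nat.eq_one_of_dvd_coprimes hc dvd_rfl hpd)
      have h0 : χ (p : ZMod m) = 0 := MulChar.map_nonunit χ hpm
      rw [h0, zero_mul, sub_zero, norm_one, mul_one]
    rw [hb]
    refine mul_le_of_le_one_left ?_ ha
    exact Finset.prod_nonneg fun p hp => (hP p (hsub hp)).le

end Pool.Agent.H78.PD
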