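import Pool.Agent.H78.PD.Defs
import Pool.Agent.H36.IS.MtA

/-!
# PD, BNum: numbers and mass of the blocks

* `bnum`: `(1 + 1/H)^H ≥ 2`, so `aj x J ≥ e^x 2^(2x²) ≥ e^(x²)`; `(1 + 1/H)^J ≤ e^(J/H) ≤ e^(2x²+1)`, so `aj x J ≤ e^(3x²)`; `J ≤ 2(log x + 1)x² + 1 ≤ x³`; `H ≥ 2`.
* `W_low`: the blocks `(aj x j, aj x (j+1)]`, `j < J`, cover `(e^x, aj x J] ⊇ (e^x, e^(x²)]`, so `WB ≥ ∑_{e^x < p ≤ e^(x²)} 1/p - ∑_{p ∣ m, p > e^x} 1/p ≥ (log x - 1) - ω(m) e^(-x) ≥ log x - 2`;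
  Mertens: `∑_{p ≤ y} 1/p = log log y + c + o(1)` (`Pool.Agent.H36.IS.mertA`, used in `PG/TMert.lean`).
* `TB_card`: the blocks are disjoint sets of numbers in `[1, aj x J]`.
-/

set_option autoImplicit false

namespace Pool.Agent.H78.PD

open Finset
open Pool.Agent.H34PG (lam lam_val lam_mul lam_prime)
open Pool.Agent.H11.LQ Pool.Agent.H78.PG

theorem bnum : ∃ x0 : ℝ, 3 ≤ x0 ∧ ∀ x : ℝ, x0 ≤ x → 2 ≤ Hn x ∧ (Jn x : ℝ) ≤ x ^ 3 ∧
    Real.exp (x ^ 2) ≤ aj x (Jn x) ∧ aj x (Jn x) ≤ Real.exp (3 * x ^ 2) := by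
  refine ⟨10, by norm_num, fun x hx => ?_⟩
  have hx0 : 0 < x := by linarith
  have hlog8 : Real.log 8 ≤ 2.08 := by
    have h : Real.log 8 = 3 * Real.log 2 := by
      rw [show (8 : ℝ) = 2 ^ 3 by norm_num, Real.log_pow]
      norm_num
    have := Real.log_two_lt_d9
    linarith
  have hlogx : Real.log x ≤ x / 8 + 1.08 := by
    have h := Real.log_le_sub_one_of_pos (x := x / 8) (by positivity)
    rw [Real.log_div hx0.ne' (by norm_num)] at h
    linarith
  have hlog1 : 1 < Real.log x := by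
    rw [Real.lt_log_iff_exp_lt hx0]
    have := Real.exp_one_lt_d9
    linarith
  have hH2 : 2 ≤ Hn x := by
    unfold Hn
    have : 1 < ⌈Real.log x⌉₊ := by
      rw [Nat.lt_ceil]
      simpa using hlog1
    omega
  have hHle : (Hn x : ℝ) ≤ Real.log x + 1 := by
    unfold Hn
    exact (Nat.ceil_lt_add_one (by linarith)).le
  have hH2' : (2 : ℝ) ≤ (Hn x : ℝ) := by exact_mod_cast hH2
  have hJle : (Jn x : ℝ) ≤ 2 * (Hn x : ℝ) * x ^ 2 + 1 := by
    unfold Jn
    exact (Nat.ceil_lt_add_one (by positivity)).le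
  have hJge : 2 * (Hn x : ℝ) * x ^ 2 ≤ (Jn x : ℝ) := by
    unfold Jn
    exact Nat.le_ceil _
  obtain ⟨H, hH⟩ : ∃ H : ℝ, H = (Hn x : ℝ) := ⟨_, rfl⟩
  rw [← hH] at hHle hH2' hJle hJge
  have hlogH : 0 ≤ Real.log (1 + 1 / H) := Real.log_nonneg (by
    have : 0 ≤ 1 / H := by positivity
    linarith)
  have haj : aj x (Jn x) = Real.exp (x + (Jn x : ℝ) * Real.log (1 + 1 / H)) := by
    unfold aj
    rw [← hH, Real.exp_add, mul_comm (Jn x : ℝ), Real.exp_mul, Real.exp_log (by positivity), Real.rpow_natCast]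
  generalize Jn x = J at *
  refine ⟨hH2, ?_, ?_, ?_⟩
  · have h1 : H ≤ x / 8 + 2.08 := by linarith
    have h2 : 2 * H * x ^ 2 ≤ 2 * (x / 8 + 2.08) * x ^ 2 := by
      have := sq_nonneg x
      nlinarith
    have h3 : (100 : ℝ) ≤ x ^ 2 := by nlinarith
    nlinarith
  · rw [haj]
    apply Real.exp_le_exp.2
    have h1 : 1 / (H + 1) ≤ Real.log (1 + 1 / H) := by
      have h := Real.one_sub_inv_le_log_of_pos (x := 1 + 1 / H) (by positivity)
      have e : 1 - (1 + 1 / H)⁻¹ = 1 / (H + 1) := by field_simp; ring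
      linarith
    have h2 : 1 / 2 ≤ H * (1 / (H + 1)) := by
      rw [mul_one_div, le_div_iff₀ (by positivity)]
      linarith
    have h3 : x ^ 2 ≤ (J : ℝ) * Real.log (1 + 1 / H) := by
      calc x ^ 2 = 2 * x ^ 2 * (1 / 2) := by ring
        _ ≤ 2 * x ^ 2 * (H * (1 / (H + 1))) := mul_le_mul_of_nonneg_left h2 (by positivity)
        _ = (2 * H * x ^ 2) * (1 / (H + 1)) := by ring
        _ ≤ (J : ℝ) * Real.log (1 + 1 / H) := mul_le_mul hJge h1 (by positivity) (Nat.cast_nonneg _)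
    linarith
  · rw [haj]
    apply Real.exp_le_exp.2
    have h1 : Real.log (1 + 1 / H) ≤ 1 / H := by
      have h := Real.log_le_sub_one_of_pos (x := 1 + 1 / H) (by positivity)
      linarith
    have h2 : (J : ℝ) * Real.log (1 + 1 / H) ≤ 2 * x ^ 2 + 1 := by
      calc (J : ℝ) * Real.log (1 + 1 / H) ≤ (2 * H * x ^ 2 + 1) * (1 / H) :=
            mul_le_mul hJle h1 hlogH (by positivity)
        _ = 2 * x ^ 2 + 1 / H := by field_simp
        _ ≤ 2 * x ^ 2 + 1 := by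
            have : 1 / H ≤ 1 := by
              rw [div_le_one (by positivity)]
              linarith
            linarith
    nlinarith

theorem aj_mono (x : ℝ) {i j : ℕ} (h : i ≤ j) : aj x i ≤ aj x j := by
  unfold aj
  refine mul_le_mul_of_nonneg_left (pow_le_pow_right₀ ?_ h) (Real.exp_pos x).le
  have : 0 ≤ 1 / (Hn x : ℝ) := by positivity
  linarith

/-- splitting a set of primes at `Y` -/
theorem bnum_split {m : ℕ} {X Y Z : ℝ} (hY : 0 ≤ Y) (hXY : X ≤ Y) (hYZ : Y ≤ Z) (f : ℕ → ℝ) :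
    ∑ p ∈ PI m X Z, f p = ∑ p ∈ PI m X Y, f p + ∑ p ∈ PI m Y Z, f p := by
  have hd : Disjoint (PI m X Y) (PI m Y Z) := by
    rw [Finset.disjoint_left]
    intro p h1 h2
    rw [mem_PI hY] at h1
    rw [mem_PI (hY.trans hYZ)] at h2
    linarith [h1.2.2.2, h2.2.2.1]
  rw [← sum_union hd]
  congr 1
  ext p
  rw [mem_union, mem_PI hY, mem_PI (hY.trans hYZ), mem_PI (hY.trans hYZ)]
  constructor
  · rintro ⟨h1, h2, h3, h4⟩
    rcases le_or_gt (p : ℝ) Y with h | h
    · exact Or.inl ⟨h1, h2, h3, h⟩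
    · exact Or.inr ⟨h1, h2, h, h4⟩
  · rintro (⟨h1, h2, h3, h4⟩ | ⟨h1, h2, h3, h4⟩)
    · exact ⟨h1, h2, h3, h4.trans hYZ⟩
    · exact ⟨h1, h2, lt_of_le_of_lt hXY h3, h4⟩

/-- the blocks together -/
theorem bnum_sum (m : ℕ) (x : ℝ) (f : ℕ → ℝ) (J : ℕ) :
    ∑ j ∈ range J, ∑ p ∈ TB m x j, f p = ∑ p ∈ PI m (aj x 0) (aj x J), f p := by
  induction J with
  | zero =>
    rw [range_zero, sum_empty]
    symm
    apply sum_eq_zero
    intro p hp
    rw [mem_PI (aj_pos x 0).le] at hp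
    exact absurd hp.2.2.2 (not_le.2 hp.2.2.1)
  | succ J ih =>
    rw [sum_range_succ, ih, bnum_split (m := m) (aj_pos x J).le (aj_mono x (Nat.zero_le J)) (aj_mono x (Nat.le_succ J)) f]
    rfl

theorem TB_card (m : ℕ) (x : ℝ) : ((∑ j ∈ range (Jn x), (TB m x j).card : ℕ) : ℝ) ≤ aj x (Jn x) := by
  have h := bnum_sum m x (fun _ => 1) (Jn x)
  simp only [sum_const, nsmul_eq_mul, mul_one] at h
  rw [Nat.cast_sum, h]
  have h1 : (PI m (aj x 0) (aj x (Jn x))).card ≤ ⌊aj x (Jn x)⌋₊ := by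
    unfold PI
    refine (card_filter_le _ _).trans ?_
    rw [Nat.card_Icc]
    omega
  calc (((PI m (aj x 0) (aj x (Jn x))).card : ℕ) : ℝ) ≤ ((⌊aj x (Jn x)⌋₊ : ℕ) : ℝ) := by exact_mod_cast h1
    _ ≤ aj x (Jn x) := Nat.floor_le (aj_pos x _).le

/-- the telescoping sum -/
theorem bnum_tel (w z : ℕ) (hwz : w ≤ z) :
    ∑ n ∈ Ioc w z, (1 / ((n : ℝ) - 1) - 1 / (n : ℝ)) = 1 / (w : ℝ) - 1 / (z : ℝ) := by
  induction z, hwz using Nat.le_induction with
  | base => simp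
  | succ z hz ih =>
    rw [sum_Ioc_succ_top (by omega), ih]
    push_cast
    ring

/-- Mertens, from below -/
theorem bnum_mert : ∃ n0 : ℕ, ∀ w z : ℕ, n0 ≤ w → w ≤ z → 2 ≤ w →
    Real.log (Real.log z) - Real.log (Real.log w) - 1 / 50 - 1 / (w : ℝ) ≤
      ∑ p ∈ (Ioc w z).filter Nat.Prime, (1 : ℝ) / p := by
  obtain ⟨c, hc⟩ := Pool.Agent.H36.IS.mertA
  obtain ⟨n0, hn0⟩ := Metric.tendsto_atTop.1 hc (1 / 100) (by norm_num)
  refine ⟨n0, fun w z hw hwz hw2 => ?_⟩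
  have hfz := hn0 z (hw.trans hwz)
  have hfw := hn0 w hw
  rw [Real.dist_eq, abs_lt] at hfz hfw
  have hsub : (range (w + 1)).filter Nat.Prime ⊆ (range (z + 1)).filter Nat.Prime := by
    intro p hp
    rw [mem_filter, mem_range] at hp ⊢
    exact ⟨by omega, hp.2⟩
  have hdiff := sum_sdiff (f := fun p : ℕ => -Real.log (1 - 1 / (p : ℝ))) hsub
  have hset : (range (z + 1)).filter Nat.Prime \ (range (w + 1)).filter Nat.Prime = (Ioc w z).filter Nat.Prime := by
    ext p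
    simp only [mem_filter, mem_Ioc, mem_sdiff, mem_range]
    constructor
    · rintro ⟨⟨h1, h2⟩, h3⟩
      refine ⟨⟨?_, by omega⟩, h2⟩
      by_contra h4
      exact h3 ⟨by omega, h2⟩
    · rintro ⟨⟨h1, h2⟩, h3⟩
      exact ⟨⟨by omega, h3⟩, fun h5 => by omega⟩
  rw [hset] at hdiff
  have hle : ∑ p ∈ (Ioc w z).filter Nat.Prime, -Real.log (1 - 1 / (p : ℝ)) ≤
      ∑ p ∈ (Ioc w z).filter Nat.Prime, ((1 : ℝ) / p + (1 / ((p : ℝ) - 1) - 1 / (p : ℝ))) := by
    apply sum_le_sum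
    intro p hp
    rw [mem_filter, mem_Ioc] at hp
    have hp2 : (2 : ℝ) ≤ p := by exact_mod_cast hp.2.two_le
    have hp1 : (0 : ℝ) < (p : ℝ) - 1 := by linarith
    have e : 1 - 1 / (p : ℝ) = ((p : ℝ) - 1) / p := by field_simp
    rw [e, ← Real.log_inv, inv_div]
    have h := Real.log_le_sub_one_of_pos (x := (p : ℝ) / ((p : ℝ) - 1)) (by positivity)
    have e2 : (p : ℝ) / ((p : ℝ) - 1) - 1 = 1 / ((p : ℝ) - 1) := by field_simp; ring
    linarith
  have htel : ∑ p ∈ (Ioc w z).filter Nat.Prime, (1 / ((p : ℝ) - 1) - 1 / (p : ℝ)) ≤ 1 / (w : ℝ) := by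
    calc ∑ p ∈ (Ioc w z).filter Nat.Prime, (1 / ((p : ℝ) - 1) - 1 / (p : ℝ))
        ≤ ∑ p ∈ Ioc w z, (1 / ((p : ℝ) - 1) - 1 / (p : ℝ)) := by
          apply sum_le_sum_of_subset_of_nonneg (filter_subset _ _)
          intro n hn _
          rw [mem_Ioc] at hn
          have hn2 : (2 : ℝ) ≤ n := by
            have : 2 ≤ n := by omega
            exact_mod_cast this
          have : 1 / (n : ℝ) ≤ 1 / ((n : ℝ) - 1) := one_div_le_one_div_of_le (by linarith) (by linarith)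
          linarith
      _ = 1 / (w : ℝ) - 1 / (z : ℝ) := bnum_tel w z hwz
      _ ≤ 1 / (w : ℝ) := by
          have : 0 ≤ 1 / (z : ℝ) := by positivity
          linarith
  rw [sum_add_distrib] at hle
  have hfS : ∀ n : ℕ, Pool.Agent.H36.IS.fS n =
      ∑ p ∈ (range (n + 1)).filter Nat.Prime, -Real.log (1 - 1 / (p : ℝ)) := fun n => rfl
  rw [hfS] at hfz hfw
  linarith [hfz.1, hfz.2, hfw.1, hfw.2]

theorem W_low : ∃ x0 : ℝ, ∀ x : ℝ, x0 ≤ x → ∀ m : ℕ, 1 ≤ m →
    (m.primeFactors.card : ℝ) ≤ Real.exp x → Real.log x / 2 ≤ WB m x := by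
  obtain ⟨x1, hx1, hb⟩ := bnum
  obtain ⟨n0, hn0⟩ := bnum_mert
  have hev : ∀ᶠ x : ℝ in Filter.atTop, n0 ≤ ⌊Real.exp x⌋₊ :=
    (tendsto_nat_floor_atTop.comp Real.tendsto_exp_atTop).eventually_ge_atTop n0
  obtain ⟨x2, hx2⟩ := Filter.eventually_atTop.1 hev
  obtain ⟨x3, hx3⟩ := Filter.eventually_atTop.1 (Real.tendsto_log_atTop.eventually_ge_atTop 4)
  refine ⟨max (max x1 x2) (max x3 3), fun x hx m hm hω => ?_⟩
  have hxa : x1 ≤ x := (le_max_left _ _).trans ((le_max_left _ _).trans hx)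
  have hxb : x2 ≤ x := (le_max_right _ _).trans ((le_max_left _ _).trans hx)
  have hxc : x3 ≤ x := (le_max_left _ _).trans ((le_max_right _ _).trans hx)
  have hxd : 3 ≤ x := (le_max_right _ _).trans ((le_max_right _ _).trans hx)
  obtain ⟨-, -, hJ, -⟩ := hb x hxa
  have hlogx : 4 ≤ Real.log x := hx3 x hxc
  have hwn : n0 ≤ ⌊Real.exp x⌋₊ := hx2 x hxb
  have hexp3 : (4 : ℝ) ≤ Real.exp x := by
    have := Real.add_one_le_exp x
    linarith
  obtain ⟨w, hw⟩ : ∃ w, w = ⌊Real.exp x⌋₊ := ⟨_, rfl⟩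
  obtain ⟨z, hz⟩ : ∃ z, z = ⌊Real.exp (x ^ 2)⌋₊ := ⟨_, rfl⟩
  rw [← hw] at hwn
  have hwle : (w : ℝ) ≤ Real.exp x := by rw [hw]; exact Nat.floor_le (Real.exp_pos _).le
  have hwge : Real.exp x < (w : ℝ) + 1 := by rw [hw]; exact Nat.lt_floor_add_one _
  have hzle : (z : ℝ) ≤ Real.exp (x ^ 2) := by rw [hz]; exact Nat.floor_le (Real.exp_pos _).le
  have hzge : Real.exp (x ^ 2) < (z : ℝ) + 1 := by rw [hz]; exact Nat.lt_floor_add_one _
  have hxx : x ≤ x ^ 2 := by nlinarith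
  have hexx : Real.exp x ≤ Real.exp (x ^ 2) := Real.exp_le_exp.2 hxx
  have hwz : w ≤ z := by rw [hw, hz]; exact Nat.floor_le_floor hexx
  have hw3 : (3 : ℝ) < w := by linarith
  have hw2 : 2 ≤ w := by
    have : (2 : ℝ) < (w : ℝ) := by linarith
    exact_mod_cast this.le
  have hM := hn0 w z hwn hwz hw2
  have hw0 : (0 : ℝ) < w := by linarith
  have hz0 : (0 : ℝ) < z := lt_of_lt_of_le hw0 (by exact_mod_cast hwz)
  have hlw1 : 1 < Real.log w := by
    rw [Real.lt_log_iff_exp_lt hw0]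
    have := Real.exp_one_lt_d9
    linarith
  have hlw : Real.log w ≤ x := by
    have := Real.log_le_log hw0 hwle
    rwa [Real.log_exp] at this
  have hlz : x ^ 2 - 1 ≤ Real.log z := by
    have h1 : Real.exp (x ^ 2) / 2 ≤ z := by linarith
    have h2 := Real.log_le_log (by positivity) h1
    rw [Real.log_div (Real.exp_pos _).ne' (by norm_num), Real.log_exp] at h2
    have := Real.log_two_lt_d9
    linarith
  have hll : Real.log x - 1 / 8 ≤ Real.log (Real.log z) - Real.log (Real.log w) := by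
    have hx0 : 0 < x := by linarith
    have h9 : 9 ≤ x ^ 2 := by nlinarith
    have h1 : Real.log (x ^ 2 - 1) ≤ Real.log (Real.log z) := Real.log_le_log (by linarith) hlz
    have h2 : Real.log (Real.log w) ≤ Real.log x := Real.log_le_log (by linarith) hlw
    have h3 : 2 * Real.log x - 1 / 8 ≤ Real.log (x ^ 2 - 1) := by
      have h4 := Real.one_sub_inv_le_log_of_pos (x := (x ^ 2 - 1) / x ^ 2) (div_pos (by linarith) (by positivity))
      rw [Real.log_div (by linarith) (by positivity), Real.log_pow, inv_div] at h4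
      have h5 : x ^ 2 / (x ^ 2 - 1) ≤ 9 / 8 := by
        rw [div_le_div_iff₀ (by linarith) (by norm_num)]
        linarith
      push_cast at h4
      linarith
    linarith
  -- the blocks
  have hWB : WB m x = ∑ p ∈ PI m (aj x 0) (aj x (Jn x)), 1 / (p : ℝ) := by
    unfold WB
    exact bnum_sum m x (fun p => 1 / (p : ℝ)) (Jn x)
  have haj0 : aj x 0 = Real.exp x := by unfold aj; simp
  have hsub : (Ioc w z).filter Nat.Prime ⊆ PI m (aj x 0) (aj x (Jn x)) ∪ (m.primeFactors.filter (fun p => w < p)) := by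
    intro p hp
    rw [mem_filter, mem_Ioc] at hp
    obtain ⟨⟨h1, h2⟩, h3⟩ := hp
    rw [mem_union]
    by_cases hd : p ∣ m
    · right
      rw [mem_filter, Nat.mem_primeFactors]
      exact ⟨⟨h3, hd, by omega⟩, h1⟩
    · left
      rw [mem_PI (aj_pos _ _).le, haj0]
      have h4 : ((w + 1 : ℕ) : ℝ) ≤ p := by exact_mod_cast h1
      have h5 : (p : ℝ) ≤ z := by exact_mod_cast h2
      push_cast at h4
      exact ⟨h3, hd, by linarith, by linarith⟩
  have hsum : ∑ p ∈ (Ioc w z).filter Nat.Prime, (1 : ℝ) / p ≤ WB m x + 1 := by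
    have hnn : ∀ p : ℕ, 0 ≤ (1 : ℝ) / p := fun p => by positivity
    have h1 : ∑ p ∈ m.primeFactors.filter (fun p => w < p), (1 : ℝ) / p ≤ 1 := by
      calc ∑ p ∈ m.primeFactors.filter (fun p => w < p), (1 : ℝ) / p
          ≤ ∑ p ∈ m.primeFactors.filter (fun p => w < p), 1 / Real.exp x := by
            apply sum_le_sum
            intro p hp
            rw [mem_filter] at hp
            have h4 : ((w + 1 : ℕ) : ℝ) ≤ p := by exact_mod_cast hp.2
            push_cast at h4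
            exact one_div_le_one_div_of_le (Real.exp_pos x) (by linarith)
        _ = (m.primeFactors.filter (fun p => w < p)).card * (1 / Real.exp x) := by
            rw [sum_const, nsmul_eq_mul]
        _ ≤ (m.primeFactors.card : ℝ) * (1 / Real.exp x) := by
            refine mul_le_mul_of_nonneg_right ?_ (by positivity)
            exact_mod_cast card_filter_le _ _
        _ ≤ Real.exp x * (1 / Real.exp x) := mul_le_mul_of_nonneg_right hω (by positivity)
        _ = 1 := by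
            rw [mul_one_div, div_self (Real.exp_pos x).ne']
    calc ∑ p ∈ (Ioc w z).filter Nat.Prime, (1 : ℝ) / p
        ≤ ∑ p ∈ PI m (aj x 0) (aj x (Jn x)) ∪ (m.primeFactors.filter (fun p => w < p)), (1 : ℝ) / p :=
          sum_le_sum_of_subset_of_nonneg hsub fun p _ _ => hnn p
      _ ≤ ∑ p ∈ PI m (aj x 0) (aj x (Jn x)), (1 : ℝ) / p + ∑ p ∈ m.primeFactors.filter (fun p => w < p), (1 : ℝ) / p := by
          have := sum_union_inter (s₁ := PI m (aj x 0) (aj x (Jn x))) (s₂ := m.primeFactors.filter (fun p => w < p))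
            (f := fun p : ℕ => (1 : ℝ) / p)
          have h0 : 0 ≤ ∑ p ∈ PI m (aj x 0) (aj x (Jn x)) ∩ (m.primeFactors.filter (fun p => w < p)), (1 : ℝ) / p :=
            sum_nonneg fun p _ => hnn p
          linarith
      _ ≤ WB m x + 1 := by rw [hWB]; linarith
  have h1w : 1 / (w : ℝ) ≤ 1 / 3 := one_div_le_one_div_of_le (by norm_num) hw3.le
  linarith

end Pool.Agent.H78.PD
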