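import Pool.Agent.H78.PD.Ort

/-!
# PD, ExU: the exceptional residues prime to `m`
-/

set_option autoImplicit false

namespace Pool.Agent.H78.PD

open Finset
open Pool.Agent.H11.LQ

/-- the exceptional residues of `q` which are prime to `m` -/
def ExU (m : ℕ) (η : ℤ) (q : ℕ) : Finset ℕ := (Ex m η q).filter (fun x => x.Coprime m)

theorem mem_ExU {m : ℕ} {η : ℤ} {q x : ℕ} :
    x ∈ ExU m η q ↔ x ∈ Ex m η q ∧ x.Coprime m := by
  unfold ExU
  rw [mem_filter]

theorem ExU_card_le (m : ℕ) (η : ℤ) (q : ℕ) : (ExU m η q).card ≤ (Ex m η q).card :=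
  card_le_card (filter_subset _ _)

theorem val_coprime {m : ℕ} [NeZero m] (u : (ZMod m)ˣ) : (u : ZMod m).val.Coprime m :=
  ZMod.val_coe_unit_coprime u

theorem val_mem_ExU {m : ℕ} [NeZero m] {η : ℤ} {q : ℕ} (u : (ZMod m)ˣ) :
    (u : ZMod m).val ∈ ExU m η q ↔ (u : ZMod m).val ∈ Ex m η q := by
  rw [mem_ExU]
  exact ⟨fun h => h.1, fun h => ⟨h, val_coprime u⟩⟩

end Pool.Agent.H78.PD
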