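import Pool.Agent.H78.PD.L2
import Pool.Agent.H78.PD.ExU

/-!
# PD, BaseN: the base case when more than half of the primes `≤ Q` divide `m`

`T'` = primes `≤ Q` dividing `m`, `D = ∏ T' ≥ 2^(π(Q)/2) ≥ exp(Q^(3/4))` (Chebyshev `π(Q) ≥ Q/(4 log Q)`), `D ∣ m`.
For `q ∈ T'` and a unit `u ≡ 1 mod m/q`: `q u x = q x` in `ZMod m`, so for `x.val ∉ Ex(q)` and `(u x).val ∉ Ex(q)`: `- F(x) = F(q x) = F(q u x) = - F(u x)` (`lam q = -1`).
So `∑_χ w |χ(u) - 1|² = (1/φ) ∑_x |F(u x) - F(x)|² ≤ 8 #Ex(q)/φ` (`parseval` for `x ↦ F(u x) - F(x)`, as in `twist`, `PG/TFour.lean`).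
Average over the group `G_q` of these `u`: for `χ` not trivial on `G_q`, `∑_{u ∈ G_q} |χ(u) - 1|² = 2 #G_q` (`∑_{u ∈ G_q} χ(u) = 0`).  So the weight of these `χ` is `≤ 4 #Ex(q)/φ ≤ 4 κ/Q`.
`X` = the `χ` trivial on all `G_q`, `q ∈ T'`: `wout X ≤ ∑_{q ∈ T'} 4 κ/Q ≤ 4 κ` (`#T' ≤ Q`).  `χ` trivial on `G_q` means `χ(y) = χ(y')` for `y ≡ y' mod m/q`, both prime to `m`
(`u = y' y⁻¹`).  `gen` with `S = T'` and `period` give the LSP for `1 ≤ P ≤ D`, and `exp(Q^(3/4)) ≤ D`.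
-/

set_option autoImplicit false

namespace Pool.Agent.H78.PD

open Finset
open Pool.Agent.H34PG (lam lam_val lam_mul lam_prime)
open Pool.Agent.H11.LQ Pool.Agent.H78.PG

private theorem basen_norm (z : ℂ) (h : ‖z‖ = 1) : ‖z - 1‖ ^ 2 = 2 - 2 * z.re := by
  have h1 : ‖z‖ ^ 2 = 1 := by rw [h]; norm_num
  rw [Complex.sq_norm, Complex.normSq_apply] at h1 ⊢
  simp only [Complex.sub_re, Complex.sub_im, Complex.one_re, Complex.one_im, sub_zero]
  linarith [h1, show (z.re - 1) * (z.re - 1) + z.im * z.im =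
    (z.re * z.re + z.im * z.im) + 1 - 2 * z.re by ring]

private theorem basen_val {m : ℕ} [NeZero m] (hm : 2 ≤ m) (u : (ZMod m)ˣ) :
    ¬ m ∣ (u : ZMod m).val := by
  intro h
  have h1 : (u : ZMod m).val < m := ZMod.val_lt _
  have h2 : (u : ZMod m).val = 0 := Nat.eq_zero_of_dvd_of_lt h h1
  have h3 : (u : ZMod m) = 0 := (ZMod.val_eq_zero _).mp h2
  have : Fact (1 < m) := ⟨by omega⟩
  exact u.ne_zero h3

/-- the twist by `u` -/
private theorem basen_twist (m : ℕ) [NeZero m] (f : ZMod m → ℂ) (a' : (ZMod m)ˣ) :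
    ∑ χ : DirichletCharacter ℂ m, ‖cc m f χ‖ ^ 2 * ‖χ (a' : ZMod m) - 1‖ ^ 2
      = (1 / (m.totient : ℝ)) * ∑ u : (ZMod m)ˣ, ‖f ((a' : ZMod m) * u) - f (u : ZMod m)‖ ^ 2 := by
  have h1 : ∀ χ : DirichletCharacter ℂ m,
      cc m (fun x => f ((a' : ZMod m) * x) - f x) χ = cc m f χ * (χ (a' : ZMod m) - 1) := by
    intro χ
    unfold cc
    have h2 : ∑ u : (ZMod m)ˣ, f ((a' : ZMod m) * u) * (starRingEnd ℂ) (χ (u : ZMod m))
        = χ (a' : ZMod m) * ∑ u : (ZMod m)ˣ, f (u : ZMod m) * (starRingEnd ℂ) (χ (u : ZMod m)) := by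
      rw [Finset.mul_sum]
      rw [← Equiv.sum_comp (Equiv.mulLeft a')
        (fun u : (ZMod m)ˣ => χ (a' : ZMod m) * (f (u : ZMod m) * (starRingEnd ℂ) (χ (u : ZMod m))))]
      refine Finset.sum_congr rfl (fun u _ => ?_)
      simp only [Equiv.coe_mulLeft, Units.val_mul, map_mul]
      have h3 : χ (a' : ZMod m) * (starRingEnd ℂ) (χ (a' : ZMod m)) = 1 := by
        have h1 : ‖χ (a' : ZMod m)‖ = 1 := DirichletCharacter.unit_norm_eq_one χ a'
        rw [Complex.mul_conj, Complex.normSq_eq_norm_sq, h1]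
        norm_num
      calc f ((a' : ZMod m) * u) * (starRingEnd ℂ) (χ (u : ZMod m))
          = (χ (a' : ZMod m) * (starRingEnd ℂ) (χ (a' : ZMod m))) *
            (f ((a' : ZMod m) * u) * (starRingEnd ℂ) (χ (u : ZMod m))) := by rw [h3, one_mul]
        _ = _ := by ring
    simp only [sub_mul, Finset.sum_sub_distrib, h2]
    ring
  have h3 := parseval m (fun x => f ((a' : ZMod m) * x) - f x)
  rw [← h3]
  refine Finset.sum_congr rfl (fun χ _ => ?_)
  rw [h1, norm_mul]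
  ring

private theorem basen_count {m : ℕ} [NeZero m] (E : Finset ℕ) (g : (ZMod m)ˣ → (ZMod m)ˣ)
    (hg : Function.Injective g) :
    (((univ : Finset (ZMod m)ˣ).filter (fun u => ((g u : (ZMod m)ˣ) : ZMod m).val ∈ E)).card : ℝ)
      ≤ (E.card : ℝ) := by
  rw [Nat.cast_le]
  refine card_le_card_of_injOn (fun u : (ZMod m)ˣ => ((g u : (ZMod m)ˣ) : ZMod m).val) ?_ ?_
  · intro u hu
    rw [mem_coe, mem_filter] at hu
    exact hu.2
  · intro u _ v _ huv
    exact hg (Units.ext (ZMod.val_injective m huv))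

private theorem basen_bound {m : ℕ} [NeZero m] (hm : 2 ≤ m) {η : ℤ} (hη : η = 1 ∨ η = -1) {q : ℕ}
    (hq : q.Prime) (a : (ZMod m)ˣ) (ha : (q : ZMod m) * (a : ZMod m) = (q : ZMod m)) :
    ∑ u : (ZMod m)ˣ, ‖FC m η ((a : ZMod m) * u) - FC m η (u : ZMod m)‖ ^ 2
      ≤ 8 * ((ExU m η q).card : ℝ) := by
  classical
  have h1 : ∀ u : (ZMod m)ˣ, ‖FC m η ((a : ZMod m) * u) - FC m η (u : ZMod m)‖ ^ 2
      ≤ (if (u : ZMod m).val ∈ ExU m η q then (4 : ℝ) else 0) +
        (if ((a * u : (ZMod m)ˣ) : ZMod m).val ∈ ExU m η q then (4 : ℝ) else 0) := by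
    intro u
    have e1 : FC m η ((a : ZMod m) * u) = ((F m η ((a * u : (ZMod m)ˣ) : ZMod m).val : ℤ) : ℂ) := rfl
    have e2 : FC m η (u : ZMod m) = ((F m η (u : ZMod m).val : ℤ) : ℂ) := rfl
    have n1 : ‖((F m η ((a * u : (ZMod m)ˣ) : ZMod m).val : ℤ) : ℂ)‖ = 1 := by
      rcases F_val (m := m) hη (basen_val hm (a * u)) with h | h <;> rw [h] <;> simp
    have n2 : ‖((F m η (u : ZMod m).val : ℤ) : ℂ)‖ = 1 := by
      rcases F_val (m := m) hη (basen_val hm u) with h | h <;> rw [h] <;> simp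
    have n3 : ‖FC m η ((a : ZMod m) * u) - FC m η (u : ZMod m)‖ ^ 2 ≤ 4 := by
      rw [e1, e2]
      have h5 := norm_sub_le ((F m η ((a * u : (ZMod m)ˣ) : ZMod m).val : ℤ) : ℂ)
        ((F m η (u : ZMod m).val : ℤ) : ℂ)
      rw [n1, n2] at h5
      nlinarith [norm_nonneg (((F m η ((a * u : (ZMod m)ˣ) : ZMod m).val : ℤ) : ℂ) -
        ((F m η (u : ZMod m).val : ℤ) : ℂ))]
    by_cases c1 : (u : ZMod m).val ∈ ExU m η q
    · rw [if_pos c1]
      have : (0 : ℝ) ≤ if ((a * u : (ZMod m)ˣ) : ZMod m).val ∈ ExU m η q then (4 : ℝ) else 0 := by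
        split_ifs <;> norm_num
      linarith
    · by_cases c2 : ((a * u : (ZMod m)ˣ) : ZMod m).val ∈ ExU m η q
      · rw [if_neg c1, if_pos c2]
        linarith
      · rw [if_neg c1, if_neg c2]
        rw [val_mem_ExU, mem_Ex, not_and, not_not] at c1 c2
        have d1 := c1 (ZMod.val_lt _)
        have d2 := c2 (ZMod.val_lt _)
        have d3 : F m η (q * ((a * u : (ZMod m)ˣ) : ZMod m).val) =
            F m η (q * (u : ZMod m).val) := by
          apply F_congr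
          have h6 : ((q * ((a * u : (ZMod m)ˣ) : ZMod m).val : ℕ) : ZMod m) =
              ((q * (u : ZMod m).val : ℕ) : ZMod m) := by
            rw [Nat.cast_mul, Nat.cast_mul, ZMod.natCast_zmod_val, ZMod.natCast_zmod_val,
              Units.val_mul, ← mul_assoc, ha]
          exact (ZMod.natCast_eq_natCast_iff' _ _ _).1 h6
        rw [d1, d2, lam_prime hq] at d3
        have d4 : F m η ((a * u : (ZMod m)ˣ) : ZMod m).val = F m η (u : ZMod m).val := by
          linarith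
        rw [e1, e2, d4]
        simp
  refine (sum_le_sum fun u _ => h1 u).trans ?_
  rw [sum_add_distrib, ← sum_filter, ← sum_filter, sum_const, sum_const, nsmul_eq_mul,
    nsmul_eq_mul]
  have g1 := basen_count (m := m) (ExU m η q) (fun u => u) Function.injective_id
  have g2 := basen_count (m := m) (ExU m η q) (fun u => a * u) (mul_right_injective a)
  linarith

/-- the sum over the group of the units `= 1` mod `m/q` -/
private theorem basen_group (m : ℕ) [NeZero m] (χ : DirichletCharacter ℂ m)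
    (H : Subgroup (ZMod m)ˣ) [Fintype H] (hχ : ∃ u ∈ H, χ ((u : (ZMod m)ˣ) : ZMod m) ≠ 1) :
    ∑ u : H, ‖χ (((u : (ZMod m)ˣ) : (ZMod m)ˣ) : ZMod m) - 1‖ ^ 2 = 2 * (Fintype.card H : ℝ) := by
  have h1 : ∀ u : H, ‖χ (((u : (ZMod m)ˣ) : (ZMod m)ˣ) : ZMod m) - 1‖ ^ 2
      = 2 - 2 * (χ (((u : (ZMod m)ˣ) : (ZMod m)ˣ) : ZMod m)).re := fun u =>
    basen_norm _ (DirichletCharacter.unit_norm_eq_one χ _)
  let f : H →* ℂ := (χ.toMonoidHom.comp (Units.coeHom (ZMod m))).comp H.subtype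
  have hf : f ≠ 1 := by
    intro h
    obtain ⟨u, hu, hu1⟩ := hχ
    apply hu1
    have := congrArg (fun g : H →* ℂ => g ⟨u, hu⟩) h
    simpa [f] using this
  have h2 := sum_hom_units_eq_zero f hf
  have h3 : ∑ u : H, (χ (((u : (ZMod m)ˣ) : (ZMod m)ˣ) : ZMod m)).re = 0 := by
    rw [← Complex.re_sum]
    have : ∑ u : H, χ (((u : (ZMod m)ˣ) : (ZMod m)ˣ) : ZMod m) = 0 := h2
    rw [this, Complex.zero_re]
  rw [sum_congr rfl fun u _ => h1 u, sum_sub_distrib, ← mul_sum, h3]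
  simp [mul_comm]

private theorem basen_pi (B : ℕ) (hB : 16 ≤ B) :
    (B : ℝ) / 2 ≤ (((Icc 1 B).filter Nat.Prime).card : ℝ) * Real.log B := by
  have h0 : Nat.primeCounting B = ((Icc 1 B).filter Nat.Prime).card := by
    rw [Nat.primeCounting, Nat.primeCounting', Nat.count_eq_card_filter_range]
    congr 1
    ext p
    rw [mem_filter, mem_filter, mem_range, mem_Icc]
    constructor
    · rintro ⟨h1, h2⟩
      exact ⟨⟨h2.one_lt.le, by omega⟩, h2⟩
    · rintro ⟨⟨h1, h3⟩, h2⟩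
      exact ⟨by omega, h2⟩
  rw [← h0]
  have h1 := Chebyshev.psi_ge B
  have h2 := Chebyshev.psi_le_primeCounting_mul_log B
  have hB' : (16 : ℝ) ≤ B := by exact_mod_cast hB
  have h3 : Real.log ((B : ℝ) + 1) ≤ ((B : ℝ) + 1) / 16 - 1 + 4 * Real.log 2 := by
    have h4 : (B : ℝ) + 1 = ((B : ℝ) + 1) / 16 * 2 ^ 4 := by ring
    have h5 : Real.log ((B : ℝ) + 1) = Real.log (((B : ℝ) + 1) / 16) + 4 * Real.log 2 := by
      conv_lhs => rw [h4]
      rw [Real.log_mul (by positivity) (by positivity), Real.log_pow]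
      norm_num
    rw [h5]
    have := Real.log_le_sub_one_of_pos (show (0 : ℝ) < ((B : ℝ) + 1) / 16 by positivity)
    linarith
  have h6 := Real.log_two_gt_d9
  have h7 := Real.log_two_lt_d9
  nlinarith

private theorem basen_num : ∃ Q0 : ℕ, ∀ Q : ℕ, Q0 ≤ Q → 16 ≤ Q ∧ 1 ≤ Real.log Q ∧
    8 * Real.log Q * (Q : ℝ) ^ (3 / 4 : ℝ) ≤ Q := by
  have h1 := (isLittleO_log_rpow_atTop (show (0 : ℝ) < 1 / 4 by positivity)).bound
    (show (0 : ℝ) < 1 / 8 by norm_num)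
  have h2 := tendsto_natCast_atTop_atTop (R := ℝ) |>.eventually h1
  rw [Filter.eventually_atTop] at h2
  obtain ⟨Q1, hQ1⟩ := h2
  refine ⟨max Q1 16, fun Q hQ => ?_⟩
  have hQ16 : 16 ≤ Q := (le_max_right _ _).trans hQ
  have hQR : (16 : ℝ) ≤ Q := by exact_mod_cast hQ16
  have hL : 1 ≤ Real.log Q := by
    rw [Real.le_log_iff_exp_le (by linarith)]
    linarith [Real.exp_one_lt_d9]
  refine ⟨hQ16, hL, ?_⟩
  have h3 := hQ1 Q ((le_max_left _ _).trans hQ)
  rw [Real.norm_of_nonneg (by linarith), Real.norm_of_nonneg (by positivity)] at h3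
  have h6 : (Q : ℝ) = (Q : ℝ) ^ (1 / 4 : ℝ) * (Q : ℝ) ^ (3 / 4 : ℝ) := by
    rw [← Real.rpow_add (by linarith)]
    norm_num
  have h5 : (0 : ℝ) ≤ (Q : ℝ) ^ (3 / 4 : ℝ) := by positivity
  calc 8 * Real.log Q * (Q : ℝ) ^ (3 / 4 : ℝ)
      ≤ (Q : ℝ) ^ (1 / 4 : ℝ) * (Q : ℝ) ^ (3 / 4 : ℝ) :=
        mul_le_mul_of_nonneg_right (by linarith) h5
    _ = Q := h6.symm

private theorem basen_prod (T : Finset ℕ) (hT : ∀ q ∈ T, 2 ≤ q) : 2 ^ T.card ≤ ∏ q ∈ T, q := by
  rw [← prod_const]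
  exact prod_le_prod' hT

/-- the characters not of period `m/q` -/
theorem base_n_q (m : ℕ) [NeZero m] (hm : 3 ≤ m) (η : ℤ) (hη : η = 1 ∨ η = -1) (q : ℕ)
    (hq : q.Prime) (hqm : q ∣ m) (Z : Finset (DirichletCharacter ℂ m))
    (hZ : ∀ χ ∈ Z, ∃ y y' : ℕ, y.Coprime m ∧ y'.Coprime m ∧ y ≡ y' [MOD m / q] ∧
      χ (y : ZMod m) ≠ χ (y' : ZMod m)) :
    ∑ χ ∈ Z, ww m η χ ≤ 4 * ((ExU m η q).card : ℝ) / m.totient := by
  classical
  have hd : m / q ∣ m := Nat.div_dvd_of_dvd hqm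
  set H : Subgroup (ZMod m)ˣ := (ZMod.unitsMap hd).ker with hH
  have : Fintype H := Fintype.ofFinite _
  have hcard : (0 : ℝ) < (Fintype.card H : ℝ) := by exact_mod_cast Fintype.card_pos
  have hφ : (0 : ℝ) < m.totient := by exact_mod_cast Nat.totient_pos.2 (NeZero.pos m)
  have hmem : ∀ u : (ZMod m)ˣ, u ∈ H ↔
      ZMod.castHom hd (ZMod (m / q)) (u : ZMod m) = 1 := by
    intro u
    rw [hH, MonoidHom.mem_ker, Units.ext_iff]
    rfl
  -- the elements of the group fix q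
  have hfix : ∀ u ∈ H, (q : ZMod m) * (u : ZMod m) = (q : ZMod m) := by
    intro u hu
    rw [hmem] at hu
    have h1 : ((u : ZMod m).val : ZMod (m / q)) = ((1 : ℕ) : ZMod (m / q)) := by
      rw [Nat.cast_one, ← hu, ← map_natCast (ZMod.castHom hd (ZMod (m / q))),
        ZMod.natCast_zmod_val]
    rw [ZMod.natCast_eq_natCast_iff] at h1
    have h2 := Nat.ModEq.mul_left' q h1
    rw [Nat.mul_div_cancel' hqm] at h2
    have h3 := (ZMod.natCast_eq_natCast_iff _ _ _).2 h2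
    rw [Nat.cast_mul, ZMod.natCast_zmod_val] at h3
    simpa using h3
  -- the characters of Z are not trivial on the group
  have hnt : ∀ χ ∈ Z, ∃ u ∈ H, χ ((u : (ZMod m)ˣ) : ZMod m) ≠ 1 := by
    intro χ hχ
    obtain ⟨y, y', hy, hy', hyy, hne⟩ := hZ χ hχ
    refine ⟨ZMod.unitOfCoprime y' hy' * (ZMod.unitOfCoprime y hy)⁻¹, ?_, ?_⟩
    · rw [hH, MonoidHom.mem_ker, map_mul, map_inv, mul_inv_eq_one, Units.ext_iff]
      change ZMod.castHom hd (ZMod (m / q)) (ZMod.unitOfCoprime y' hy' : ZMod m) =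
        ZMod.castHom hd (ZMod (m / q)) (ZMod.unitOfCoprime y hy : ZMod m)
      rw [ZMod.coe_unitOfCoprime, ZMod.coe_unitOfCoprime, map_natCast, map_natCast]
      exact (ZMod.natCast_eq_natCast_iff _ _ _).2 hyy.symm
    · intro h
      apply hne
      have h1 : χ ((y' : ℕ) : ZMod m) = χ (((ZMod.unitOfCoprime y' hy' *
          (ZMod.unitOfCoprime y hy)⁻¹ : (ZMod m)ˣ) : ZMod m) * (y : ZMod m)) := by
        congr 1
        rw [Units.val_mul, mul_assoc, ← ZMod.coe_unitOfCoprime y hy, ← Units.val_mul,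
          inv_mul_cancel, Units.val_one, mul_one, ZMod.coe_unitOfCoprime]
      rw [h1, map_mul, h, one_mul]
  have h1 : (∑ χ ∈ Z, ww m η χ) * (2 * (Fintype.card H : ℝ)) ≤
      (Fintype.card H : ℝ) * (8 * ((ExU m η q).card : ℝ) / m.totient) := by
    calc (∑ χ ∈ Z, ww m η χ) * (2 * (Fintype.card H : ℝ))
        = ∑ χ ∈ Z, ww m η χ * ∑ u : H,
            ‖χ (((u : (ZMod m)ˣ) : (ZMod m)ˣ) : ZMod m) - 1‖ ^ 2 := by
          rw [sum_mul]
          exact sum_congr rfl fun χ hχ => by rw [basen_group m χ H (hnt χ hχ)]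
      _ ≤ ∑ χ : DirichletCharacter ℂ m, ww m η χ * ∑ u : H,
            ‖χ (((u : (ZMod m)ˣ) : (ZMod m)ˣ) : ZMod m) - 1‖ ^ 2 :=
          sum_le_sum_of_subset_of_nonneg (subset_univ _) fun χ _ _ =>
            mul_nonneg (ww_nonneg m η χ) (sum_nonneg fun _ _ => by positivity)
      _ = ∑ u : H, ∑ χ : DirichletCharacter ℂ m,
            ww m η χ * ‖χ (((u : (ZMod m)ˣ) : (ZMod m)ˣ) : ZMod m) - 1‖ ^ 2 := by
          rw [sum_comm]
          exact sum_congr rfl fun χ _ => by rw [mul_sum]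
      _ ≤ ∑ u : H, 8 * ((ExU m η q).card : ℝ) / m.totient := by
          refine sum_le_sum fun u _ => ?_
          have h2 := basen_twist m (FC m η) (u : (ZMod m)ˣ)
          have h3 := basen_bound (m := m) (by omega) hη hq (u : (ZMod m)ˣ) (hfix u u.2)
          unfold ww
          rw [h2, one_div, inv_mul_eq_div]
          exact div_le_div_of_nonneg_right h3 hφ.le
      _ = (Fintype.card H : ℝ) * (8 * ((ExU m η q).card : ℝ) / m.totient) := by
          rw [sum_const, nsmul_eq_mul, card_univ]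
  have h2 : (∑ χ ∈ Z, ww m η χ) * (2 * (Fintype.card H : ℝ)) ≤
      (4 * ((ExU m η q).card : ℝ) / m.totient) * (2 * (Fintype.card H : ℝ)) := by
    refine h1.trans (le_of_eq ?_)
    ring
  exact le_of_mul_le_mul_right h2 (by positivity)

theorem base_n : ∃ Q0 : ℕ, ∀ Q : ℕ, Q0 ≤ Q →
    ∀ (m : ℕ) [NeZero m], 3 ≤ m → ∀ η : ℤ, (η = 1 ∨ η = -1) → ∀ κ : ℝ,
    (∀ q : ℕ, q.Prime → q ≤ Q → (Q : ℝ) * ((ExU m η q).card : ℝ) ≤ κ * m.totient) →
    2 * ((Icc 1 Q).filter (fun q => q.Prime ∧ ¬ q ∣ m)).card ≤ ((Icc 1 Q).filter Nat.Prime).card →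
    ∃ X : Finset (DirichletCharacter ℂ m), wout m η X ≤ 4 * κ ∧
      LSP m X ((m : ℝ) / m.totient) 0 1 (Real.exp ((Q : ℝ) ^ (3 / 4 : ℝ))) := by
  obtain ⟨Q0, hQ0⟩ := basen_num
  refine ⟨Q0, fun Q hQ m _ hm η hη κ hEx hcard => ?_⟩
  obtain ⟨hQ16, hL, hnum⟩ := hQ0 Q hQ
  have hQR : (16 : ℝ) ≤ Q := by exact_mod_cast hQ16
  classical
  set T := (Icc 1 Q).filter (fun q => q.Prime ∧ q ∣ m) with hTdef
  have hT : ∀ q ∈ T, q.Prime ∧ q ∣ m := fun q hq => (mem_filter.1 hq).2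
  have hTQ : ∀ q ∈ T, 1 ≤ q ∧ q ≤ Q := fun q hq => mem_Icc.1 (mem_filter.1 hq).1
  have hφ : (0 : ℝ) < m.totient := by
    exact_mod_cast Nat.totient_pos.2 (NeZero.pos m)
  have hTc : T.card ≤ Q := by
    have := card_le_card (filter_subset (fun q => q.Prime ∧ q ∣ m) (Icc 1 Q))
    rwa [Nat.card_Icc, Nat.add_sub_cancel] at this
  have hsplit : ((Icc 1 Q).filter Nat.Prime).card ≤ T.card +
      ((Icc 1 Q).filter (fun q => q.Prime ∧ ¬ q ∣ m)).card := by
    refine le_trans (card_le_card ?_) (card_union_le _ _)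
    intro q hq
    rw [mem_filter] at hq
    rw [mem_union, hTdef, mem_filter, mem_filter]
    by_cases hqm : q ∣ m
    · exact Or.inl ⟨hq.1, hq.2, hqm⟩
    · exact Or.inr ⟨hq.1, hq.2, hqm⟩
  have hTcard : (Q : ℝ) / (4 * Real.log Q) ≤ (T.card : ℝ) := by
    have h1 := basen_pi Q hQ16
    have h2 : ((((Icc 1 Q).filter Nat.Prime).card : ℕ) : ℝ) ≤ 2 * (T.card : ℝ) := by
      have : ((Icc 1 Q).filter Nat.Prime).card ≤ 2 * T.card := by omega
      exact_mod_cast this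
    rw [div_le_iff₀ (by linarith)]
    nlinarith
  set Z : ℕ → Finset (DirichletCharacter ℂ m) := fun q => univ.filter (fun χ =>
    ∃ y y' : ℕ, y.Coprime m ∧ y'.Coprime m ∧ y ≡ y' [MOD m / q] ∧
      χ (y : ZMod m) ≠ χ (y' : ZMod m)) with hZ
  set X : Finset (DirichletCharacter ℂ m) := univ.filter (fun χ => ∀ q ∈ T, χ ∉ Z q) with hX
  have hXmem : ∀ χ ∈ X, ∀ q ∈ T, ∀ y y' : ℕ, y.Coprime m → y'.Coprime m →
      y ≡ y' [MOD m / q] → χ (y : ZMod m) = χ (y' : ZMod m) := by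
    intro χ hχ q hq y y' hy hy' hyy
    by_contra hne
    rw [hX, mem_filter] at hχ
    refine hχ.2 q hq ?_
    rw [hZ, mem_filter]
    exact ⟨mem_univ _, y, y', hy, hy', hyy, hne⟩
  refine ⟨X, ?_, ?_⟩
  · have h1 : wout m η X ≤ ∑ q ∈ T, ∑ χ ∈ Z q, ww m η χ := by
      unfold wout
      calc ∑ χ ∈ univ.filter (fun χ => χ ∉ X), ww m η χ
          ≤ ∑ χ ∈ univ.filter (fun χ => χ ∉ X), ∑ q ∈ T, (if χ ∈ Z q then ww m η χ else 0) := by
            refine sum_le_sum fun χ hχ => ?_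
            rw [mem_filter, hX, mem_filter] at hχ
            have h2 : ¬ ∀ q ∈ T, χ ∉ Z q := fun h => hχ.2 ⟨mem_univ _, h⟩
            push Not at h2
            obtain ⟨q, hq, hχq⟩ := h2
            have h3 := single_le_sum (f := fun q => if χ ∈ Z q then ww m η χ else 0)
              (fun q _ => by
                split_ifs
                · exact ww_nonneg m η χ
                · exact le_rfl) hq
            rwa [if_pos hχq] at h3
        _ ≤ ∑ χ : DirichletCharacter ℂ m, ∑ q ∈ T, (if χ ∈ Z q then ww m η χ else 0) := by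
            refine sum_le_sum_of_subset_of_nonneg (subset_univ _) fun χ _ _ =>
              sum_nonneg fun q _ => ?_
            split_ifs
            · exact ww_nonneg m η χ
            · exact le_rfl
        _ = ∑ q ∈ T, ∑ χ ∈ Z q, ww m η χ := by
            rw [sum_comm]
            refine sum_congr rfl fun q _ => ?_
            rw [← sum_filter]
            congr 1
            ext χ
            simp
    have h2 : ∀ q ∈ T, ∑ χ ∈ Z q, ww m η χ ≤ 4 * κ / Q := by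
      intro q hq
      have h3 := base_n_q m hm η hη q (hT q hq).1 (hT q hq).2 (Z q) (fun χ hχ => by
        rw [hZ, mem_filter] at hχ
        exact hχ.2)
      refine h3.trans ?_
      have h4 := hEx q (hT q hq).1 (hTQ q hq).2
      rw [div_le_div_iff₀ hφ (by linarith)]
      linarith
    have hκ : 0 ≤ κ := by
      have h4 := hEx 2 Nat.prime_two (by omega)
      have h5 : 0 ≤ κ * m.totient := le_trans (by positivity) h4
      exact nonneg_of_mul_nonneg_left h5 hφ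
    calc wout m η X ≤ ∑ q ∈ T, ∑ χ ∈ Z q, ww m η χ := h1
      _ ≤ ∑ q ∈ T, 4 * κ / Q := sum_le_sum h2
      _ = (T.card : ℝ) * (4 * κ / Q) := by rw [sum_const, nsmul_eq_mul]
      _ ≤ Q * (4 * κ / Q) := by
          refine mul_le_mul_of_nonneg_right (by exact_mod_cast hTc) (by positivity)
      _ = 4 * κ := by
          field_simp
  · have hD : (∏ q ∈ T, q) ∣ m :=
      prod_primes_dvd m (fun q hq => (hT q hq).1.prime) (fun q hq => (hT q hq).2)
    have h1 := period m (∏ q ∈ T, q) hD X (fun χ hχ => gen m χ T hT (hXmem χ hχ))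
    intro P hP1 hP2
    refine h1 P hP1 (hP2.trans ?_)
    have h2 := basen_prod T (fun q hq => (hT q hq).1.two_le)
    have h3 : (2 : ℝ) ^ T.card ≤ ((∏ q ∈ T, q : ℕ) : ℝ) := by exact_mod_cast h2
    refine le_trans ?_ h3
    rw [← Real.exp_log (show (0 : ℝ) < 2 by norm_num), ← Real.exp_nat_mul, Real.exp_le_exp]
    have h4 := Real.log_two_gt_d9
    have h5 : (Q : ℝ) ^ (3 / 4 : ℝ) ≤ (Q : ℝ) / (8 * Real.log Q) := by
      rw [le_div_iff₀ (by linarith)]
      linarith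
    have h6 : (Q : ℝ) / (8 * Real.log Q) = (Q : ℝ) / (4 * Real.log Q) * (1 / 2) := by
      field_simp
      norm_num
    have h7 : (0 : ℝ) ≤ (Q : ℝ) / (4 * Real.log Q) := by positivity
    nlinarith

end Pool.Agent.H78.PD
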