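import Pool.Agent.H78.PD.BaseU
import Pool.Agent.H78.PD.BaseN

/-!
# PD, Base: the base case

`base_u` or `base_n`; `1 ≤ m/φ`, `P^(-2+0) ≤ P^(-2+b)` for `P ≥ 1`, `Q^(3b/4) ≤ Q^(3/4)`.
-/

set_option autoImplicit false

namespace Pool.Agent.H78.PD

open Finset
open Pool.Agent.H34PG (lam lam_val lam_mul lam_prime)
open Pool.Agent.H11.LQ Pool.Agent.H78.PG

theorem base (b : ℝ) (hb : 0 < b) (hb1 : b ≤ 1) : ∃ Q0 : ℕ, ∀ Q : ℕ, Q0 ≤ Q →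
    ∀ (m : ℕ) [NeZero m], 3 ≤ m → ∀ η : ℤ, (η = 1 ∨ η = -1) → ∀ κ : ℝ,
    (∀ q : ℕ, q.Prime → q ≤ Q → (Q : ℝ) * ((ExU m η q).card : ℝ) ≤ κ * m.totient) →
    ∃ X : Finset (DirichletCharacter ℂ m), wout m η X ≤ 4 * κ ∧
      LSP m X (Q * ((m : ℝ) / m.totient)) b Q (Real.exp ((Q : ℝ) ^ (3 * b / 4))) := by
  obtain ⟨Q1, H1⟩ := base_u b hb hb1
  obtain ⟨Q2, H2⟩ := base_n
  refine ⟨max (max Q1 Q2) 1, fun Q hQ m _ hm η hη κ hE => ?_⟩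
  have hQ1 : Q1 ≤ Q := ((le_max_left _ _).trans (le_max_left _ _)).trans hQ
  have hQ2 : Q2 ≤ Q := ((le_max_right _ _).trans (le_max_left _ _)).trans hQ
  have hQ3 : (1 : ℝ) ≤ Q := by exact_mod_cast (le_max_right _ _).trans hQ
  have hφ : (0 : ℝ) < m.totient := by
    exact_mod_cast Nat.totient_pos.2 (by omega)
  have hφm : (m.totient : ℝ) ≤ m := by exact_mod_cast Nat.totient_le m
  have hr : 1 ≤ (m : ℝ) / m.totient := by
    rw [le_div_iff₀ hφ]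
    linarith
  have hm0 : (0 : ℝ) ≤ m := Nat.cast_nonneg m
  rcases le_total ((Icc 1 Q).filter Nat.Prime).card
    (2 * ((Icc 1 Q).filter (fun q => q.Prime ∧ ¬ q ∣ m)).card) with h | h
  · obtain ⟨X, hX1, hX2⟩ := H1 Q hQ1 m hm η hη κ hE h
    refine ⟨X, hX1, fun P hP1 hP2 Y hY f hf => (hX2 P hP1 hP2 Y hY f hf).trans ?_⟩
    have hP0 : 0 < P := by linarith
    have h1 : 0 ≤ P ^ (-2 + b) := Real.rpow_nonneg hP0.le _
    have h2 : (Q : ℝ) ≤ Q * ((m : ℝ) / m.totient) := le_mul_of_one_le_right (by linarith) hr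
    gcongr
  · obtain ⟨X, hX1, hX2⟩ := H2 Q hQ2 m hm η hη κ hE h
    refine ⟨X, hX1, fun P hP1 hP2 Y hY f hf => ?_⟩
    have hP0 : 1 ≤ P := by linarith
    have h3 : Real.exp ((Q : ℝ) ^ (3 * b / 4)) ≤ Real.exp ((Q : ℝ) ^ (3 / 4 : ℝ)) := by
      refine Real.exp_le_exp.mpr (Real.rpow_le_rpow_of_exponent_le hQ3 ?_)
      linarith
    refine (hX2 P hP0 (hP2.trans h3) Y hY f hf).trans ?_
    have h1 : P ^ (-2 + 0 : ℝ) ≤ P ^ (-2 + b) :=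
      Real.rpow_le_rpow_of_exponent_le hP0 (by linarith)
    have h4 : 0 ≤ P ^ (-2 + 0 : ℝ) := Real.rpow_nonneg (by linarith) _
    have h2 : (m : ℝ) / m.totient ≤ Q * ((m : ℝ) / m.totient) :=
      le_mul_of_one_le_left (by linarith) hQ3
    gcongr

end Pool.Agent.H78.PD
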