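import Pool.Agent.H78.PD.L1
import Pool.Agent.H78.PD.ExU

/-!
# PD, BaseU: the base case when at least half of the primes `≤ Q` do not divide `m`

`T` = primes `≤ Q` not dividing `m`, `#T ≥ π(Q)/2 ≥ Q/(8 log Q)` (Chebyshev; in the Pool e.g. the tools used in `PH/HCnt.lean`), `X = {χ : |∑_T χ(q)| ≥ #T/2}`.
* `χ ∉ X`: `∑_T |χ(q) + 1|² = ∑ (2 + 2 Re χ(q)) ≥ #T`; and by `twist` (`PG/TFour.lean`) `∑_χ w |χ(q) + 1|² = (1/φ) ∑_u |F(qu) + F(u)|² ≤ 4 #Ex(q)/φ` (see `hw_bound` in `PH/HW.lean`), so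
  `wout X · #T ≤ ∑_T 4 #Ex(q)/φ ≤ #T · 4 κ/Q`.
* LSP: `P ≥ Q`, `r ≥ 1` with `Q^r ≤ P < Q^(r+1)`, `Z = Q`, `Θ = #T/2 ≥ Q/(16 log Q)`, `W ≤ 1 + log Q`, `2PY ≤ m`: `large_value` gives
  `∑_X ≤ φ Q^r Y (W(W+r)/Θ²)^r ≤ φ (m/(2P)) Q^(-r) (256 log² Q (1+log Q)² (1+r))^r ≤ φ (m/(2P)) (Q/P) (Q^b)^r ≤ Q φ m P^(-2+b)` as soon as `256 log² Q (1+log Q)² (1+r) ≤ Q^b`, where
  `r ≤ log P ≤ Q^(3b/4)`.
-/

set_option autoImplicit false

namespace Pool.Agent.H78.PD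

open Finset
open Pool.Agent.H34PG (lam lam_val lam_mul lam_prime)
open Pool.Agent.H11.LQ Pool.Agent.H78.PG

private theorem baseu_chi {m : ℕ} [NeZero m] (χ : DirichletCharacter ℂ m) {q : ℕ} (hq : q.Prime)
    (h : ¬ q ∣ m) : ‖χ (q : ZMod m)‖ = 1 := by
  have h1 : q.Coprime m := (Nat.Prime.coprime_iff_not_dvd hq).2 h
  have h2 := DirichletCharacter.unit_norm_eq_one χ (ZMod.unitOfCoprime q h1)
  rwa [ZMod.coe_unitOfCoprime] at h2

private theorem baseu_norm (z : ℂ) (h : ‖z‖ = 1) : ‖z + 1‖ ^ 2 = 2 + 2 * z.re := by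
  have h1 : ‖z‖ ^ 2 = 1 := by rw [h]; norm_num
  rw [Complex.sq_norm, Complex.normSq_apply] at h1 ⊢
  simp only [Complex.add_re, Complex.add_im, Complex.one_re, Complex.one_im, add_zero]
  linarith [h1, show (z.re + 1) * (z.re + 1) + z.im * z.im =
    (z.re * z.re + z.im * z.im) + 1 + 2 * z.re by ring]

private theorem baseu_one {m : ℕ} [NeZero m] (χ : DirichletCharacter ℂ m) (T : Finset ℕ)
    (hT : ∀ q ∈ T, q.Prime ∧ ¬ q ∣ m)
    (h : ¬ (T.card : ℝ) / 2 ≤ ‖∑ q ∈ T, χ (q : ZMod m)‖) :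
    (T.card : ℝ) ≤ ∑ q ∈ T, ‖χ (q : ZMod m) + 1‖ ^ 2 := by
  have h1 : ∑ q ∈ T, ‖χ (q : ZMod m) + 1‖ ^ 2 = 2 * T.card + 2 * (∑ q ∈ T, χ (q : ZMod m)).re := by
    rw [sum_congr rfl fun q hq => baseu_norm _ (baseu_chi χ (hT q hq).1 (hT q hq).2),
      sum_add_distrib, ← mul_sum, Complex.re_sum, sum_const, nsmul_eq_mul]
    ring
  have h2 := Complex.abs_re_le_norm (∑ q ∈ T, χ (q : ZMod m))
  have h3 := neg_abs_le (∑ q ∈ T, χ (q : ZMod m)).re
  rw [h1]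
  push Not at h
  linarith

private theorem baseu_val {m : ℕ} [NeZero m] (hm : 2 ≤ m) (u : (ZMod m)ˣ) :
    ¬ m ∣ (u : ZMod m).val := by
  intro h
  have h1 : (u : ZMod m).val < m := ZMod.val_lt _
  have h2 : (u : ZMod m).val = 0 := Nat.eq_zero_of_dvd_of_lt h h1
  have h3 : (u : ZMod m) = 0 := (ZMod.val_eq_zero _).mp h2
  have : Fact (1 < m) := ⟨by omega⟩
  exact u.ne_zero h3

private theorem baseu_bound {m : ℕ} [NeZero m] (hm : 2 ≤ m) {η : ℤ} (hη : η = 1 ∨ η = -1) {q : ℕ}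
    (hq : q.Prime) :
    ∑ u : (ZMod m)ˣ, ‖FC m η ((q : ZMod m) * u) + FC m η (u : ZMod m)‖ ^ 2
      ≤ 4 * ((ExU m η q).card : ℝ) := by
  classical
  have h1 : ∀ u : (ZMod m)ˣ, ‖FC m η ((q : ZMod m) * u) + FC m η (u : ZMod m)‖ ^ 2
      ≤ if (u : ZMod m).val ∈ Ex m η q then (4 : ℝ) else 0 := by
    intro u
    have e1 : FC m η ((q : ZMod m) * u) = ((F m η (q * (u : ZMod m).val) : ℤ) : ℂ) := by
      rw [← FC_natCast]
      congr 1
      rw [Nat.cast_mul, ZMod.natCast_zmod_val]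
    have e2 : FC m η (u : ZMod m) = ((F m η (u : ZMod m).val : ℤ) : ℂ) := rfl
    rw [e1, e2]
    split_ifs with h
    · have h3 : ‖((F m η (q * (u : ZMod m).val) : ℤ) : ℂ)‖ ≤ 1 := by
        by_cases h4 : m ∣ q * (u : ZMod m).val
        · rw [F_dvd h4]; simp
        · rcases F_val (m := m) hη h4 with h5 | h5 <;> rw [h5] <;> simp
      have h4 : ‖((F m η (u : ZMod m).val : ℤ) : ℂ)‖ = 1 := by
        rcases F_val (m := m) hη (baseu_val hm u) with h | h <;> rw [h] <;> simp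
      have h5 := norm_add_le ((F m η (q * (u : ZMod m).val) : ℤ) : ℂ)
        ((F m η (u : ZMod m).val : ℤ) : ℂ)
      have h6 : ‖((F m η (q * (u : ZMod m).val) : ℤ) : ℂ) + ((F m η (u : ZMod m).val : ℤ) : ℂ)‖
          ≤ 2 := by
        linarith
      nlinarith [norm_nonneg (((F m η (q * (u : ZMod m).val) : ℤ) : ℂ) +
        ((F m η (u : ZMod m).val : ℤ) : ℂ))]
    · have h3 : F m η (q * (u : ZMod m).val) = lam q * F m η (u : ZMod m).val := by
        by_contra hc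
        exact h (mem_Ex.mpr ⟨ZMod.val_lt _, hc⟩)
      rw [h3, lam_prime hq]
      simp
  refine (sum_le_sum fun u _ => h1 u).trans ?_
  rw [← sum_filter, sum_const, nsmul_eq_mul, mul_comm]
  refine mul_le_mul_of_nonneg_left ?_ (by norm_num)
  rw [Nat.cast_le]
  refine card_le_card_of_injOn (fun u : (ZMod m)ˣ => (u : ZMod m).val) ?_ ?_
  · intro u hu
    rw [mem_coe, mem_filter] at hu
    exact (val_mem_ExU u).2 hu.2
  · intro u _ v _ huv
    exact Units.ext (ZMod.val_injective m huv)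

private theorem baseu_pi (B : ℕ) (hB : 16 ≤ B) :
    (B : ℝ) / 2 ≤ (((Icc 1 B).filter Nat.Prime).card : ℝ) * Real.log B := by
  have h0 : Nat.primeCounting B = ((Icc 1 B).filter Nat.Prime).card := by
    rw [Nat.primeCounting, Nat.primeCounting', Nat.count_eq_card_filter_range]
    congr 1
    ext p
    rw [mem_filter, mem_filter, mem_range, mem_Icc]
    constructor
    · rintro ⟨h1, h2⟩
      exact ⟨⟨h2.one_lt.le, by omega⟩, h2⟩
    · rintro ⟨⟨h1, h3⟩, h2⟩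
      exact ⟨by omega, h2⟩
  rw [← h0]
  have h1 := Chebyshev.psi_ge B
  have h2 := Chebyshev.psi_le_primeCounting_mul_log B
  have hB' : (16 : ℝ) ≤ B := by exact_mod_cast hB
  have h3 : Real.log ((B : ℝ) + 1) ≤ ((B : ℝ) + 1) / 16 - 1 + 4 * Real.log 2 := by
    have h4 : (B : ℝ) + 1 = ((B : ℝ) + 1) / 16 * 2 ^ 4 := by ring
    have h5 : Real.log ((B : ℝ) + 1) = Real.log (((B : ℝ) + 1) / 16) + 4 * Real.log 2 := by
      conv_lhs => rw [h4]
      rw [Real.log_mul (by positivity) (by positivity), Real.log_pow]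
      norm_num
    rw [h5]
    have := Real.log_le_sub_one_of_pos (show (0 : ℝ) < ((B : ℝ) + 1) / 16 by positivity)
    linarith
  have h6 := Real.log_two_gt_d9
  have h7 := Real.log_two_lt_d9
  nlinarith

private theorem baseu_W (Q : ℕ) (T : Finset ℕ) (hT : ∀ q ∈ T, 1 ≤ q ∧ q ≤ Q) :
    ∑ q ∈ T, 1 / (q : ℝ) ≤ 1 + Real.log Q := by
  have h1 : ∑ q ∈ T, 1 / (q : ℝ) ≤ ∑ q ∈ Icc 1 Q, 1 / (q : ℝ) := by
    refine sum_le_sum_of_subset_of_nonneg (fun q hq => mem_Icc.2 (hT q hq)) fun q _ _ => ?_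
    positivity
  refine h1.trans ?_
  have h2 := harmonic_le_one_add_log Q
  rw [harmonic_eq_sum_Icc] at h2
  push_cast at h2
  simpa [one_div] using h2

private theorem baseu_alg1 {L x y : ℝ} (hL : 1 ≤ L) (hx : 1 ≤ x) (h : L ^ 4 ≤ 1 / 512 * y) :
    64 * L ^ 2 * ((1 + L) ^ 2 * (1 + x)) ≤ y * x := by
  have h7 : (1 + L) ^ 2 ≤ (2 * L) ^ 2 := pow_le_pow_left₀ (by linarith) (by linarith) 2
  calc 64 * L ^ 2 * ((1 + L) ^ 2 * (1 + x)) ≤ 64 * L ^ 2 * ((2 * L) ^ 2 * (2 * x)) := by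
        gcongr
        linarith
    _ = 512 * L ^ 4 * x := by ring
    _ ≤ y * x := by
        refine mul_le_mul_of_nonneg_right ?_ (by linarith)
        linarith

private theorem baseu_alg2 {W r L x : ℝ} (hW0 : 0 ≤ W) (hr0 : 0 ≤ r) (hL : 1 ≤ L)
    (hW : W ≤ 1 + L) (hr : r ≤ x) : W * (W + r) ≤ (1 + L) ^ 2 * (1 + x) := by
  have hx : 0 ≤ x := hr0.trans hr
  have h1 : 0 ≤ L := by linarith
  calc W * (W + r) ≤ (1 + L) * ((1 + L) + x) := by gcongr
    _ ≤ (1 + L) * ((1 + L) + (1 + L) * x) := by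
      gcongr
      nlinarith
    _ = (1 + L) ^ 2 * (1 + x) := by ring

private theorem baseu_num (b : ℝ) (hb : 0 < b) : ∃ Q0 : ℕ, ∀ Q : ℕ, Q0 ≤ Q → 16 ≤ Q ∧
    1 ≤ Real.log Q ∧
    64 * Real.log Q ^ 2 * ((1 + Real.log Q) ^ 2 * (1 + (Q : ℝ) ^ (3 * b / 4))) ≤ (Q : ℝ) ^ b := by
  have h1 := (isLittleO_log_rpow_rpow_atTop (4 : ℝ) (show (0 : ℝ) < b / 4 by positivity)).bound
    (show (0 : ℝ) < 1 / 512 by norm_num)
  have h2 := tendsto_natCast_atTop_atTop (R := ℝ) |>.eventually h1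
  rw [Filter.eventually_atTop] at h2
  obtain ⟨Q1, hQ1⟩ := h2
  refine ⟨max Q1 16, fun Q hQ => ?_⟩
  have hQ16 : 16 ≤ Q := (le_max_right _ _).trans hQ
  have hQR : (16 : ℝ) ≤ Q := by exact_mod_cast hQ16
  have hL : 1 ≤ Real.log Q := by
    rw [Real.le_log_iff_exp_le (by linarith)]
    linarith [Real.exp_one_lt_d9]
  refine ⟨hQ16, hL, ?_⟩
  have h3 := hQ1 Q ((le_max_left _ _).trans hQ)
  rw [Real.norm_of_nonneg (by positivity), Real.norm_of_nonneg (by positivity)] at h3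
  have h4 : Real.log Q ^ (4 : ℝ) = Real.log Q ^ 4 := by
    rw [← Real.rpow_natCast]
    norm_num
  rw [h4] at h3
  have h5 : (1 : ℝ) ≤ (Q : ℝ) ^ (3 * b / 4) := Real.one_le_rpow (by linarith) (by positivity)
  have h6 : (Q : ℝ) ^ b = (Q : ℝ) ^ (b / 4) * (Q : ℝ) ^ (3 * b / 4) := by
    rw [← Real.rpow_add (by linarith)]
    congr 1
    ring
  rw [h6]
  exact baseu_alg1 hL h5 h3

/-- the choice of `r` -/
private theorem baseu_r {Q P : ℝ} (hQ : 1 < Q) (hL : 1 ≤ Real.log Q) (hP : Q ≤ P) :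
    ∃ r : ℕ, Q ^ r ≤ P ∧ P ≤ Q ^ (r + 1) ∧ (r : ℝ) ≤ Real.log P := by
  have hP0 : 0 < P := by linarith
  have hlP : 0 ≤ Real.log P := Real.log_nonneg (by linarith)
  refine ⟨⌊Real.log P / Real.log Q⌋₊, ?_, ?_, ?_⟩
  · have h1 := Nat.floor_le (div_nonneg hlP (by linarith : (0 : ℝ) ≤ Real.log Q))
    rw [le_div_iff₀ (by linarith)] at h1
    rw [← Real.log_le_log_iff (by positivity) hP0, Real.log_pow]
    exact h1
  · have h1 := Nat.lt_floor_add_one (Real.log P / Real.log Q)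
    rw [div_lt_iff₀ (by linarith)] at h1
    rw [← Real.log_le_log_iff hP0 (by positivity), Real.log_pow]
    push_cast
    exact h1.le
  · exact (Nat.floor_le (div_nonneg hlP (by linarith))).trans (div_le_self hlP hL)

/-- the final estimate -/
private theorem baseu_fin {Q P φ m Y l S V b : ℝ} (r : ℕ) (hQ : 1 < Q) (hP : Q ≤ P) (hl : 0 < l)
    (hφ : 0 ≤ φ) (hY0 : 0 ≤ Y) (hY : 2 * P * Y ≤ m) (hS : 0 ≤ S) (hV : 0 ≤ V) (hb : 0 < b)
    (hr1 : Q ^ r ≤ P) (hr2 : P ≤ Q ^ (r + 1)) (hVb : 64 * l ^ 2 * V ≤ Q ^ b)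
    (h : (Q / (8 * l)) ^ (2 * r) * S ≤ φ * (Q ^ r * Y) * V ^ r) :
    S ≤ Q * φ * m * P ^ (-2 + b) := by
  have hQ0 : 0 < Q := by linarith
  have hP0 : 0 < P := by linarith
  have h1 : (Q / (8 * l)) ^ (2 * r) * (64 * l ^ 2) ^ r = Q ^ r * Q ^ r := by
    rw [pow_mul, ← mul_pow, ← mul_pow]
    congr 1
    field_simp
    norm_num
  have h2 : Q ^ r * Q ^ r * S ≤ φ * (Q ^ r * Y) * (64 * l ^ 2 * V) ^ r := by
    rw [← h1, mul_pow (64 * l ^ 2) V r]
    calc (Q / (8 * l)) ^ (2 * r) * (64 * l ^ 2) ^ r * S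
        = (64 * l ^ 2) ^ r * ((Q / (8 * l)) ^ (2 * r) * S) := by ring
      _ ≤ (64 * l ^ 2) ^ r * (φ * (Q ^ r * Y) * V ^ r) := by gcongr
      _ = φ * (Q ^ r * Y) * ((64 * l ^ 2) ^ r * V ^ r) := by ring
  have h3 : (64 * l ^ 2 * V) ^ r ≤ P ^ b := by
    calc (64 * l ^ 2 * V) ^ r ≤ (Q ^ b) ^ r := by gcongr
      _ = (Q ^ r) ^ b := by
        rw [← Real.rpow_natCast, ← Real.rpow_mul hQ0.le, mul_comm, Real.rpow_mul hQ0.le,
          Real.rpow_natCast]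
      _ ≤ P ^ b := Real.rpow_le_rpow (by positivity) hr1 hb.le
  have h4 : Q ^ r * S ≤ φ * Y * P ^ b := by
    have hQr : 0 < Q ^ r := by positivity
    have h5 : Q ^ r * (Q ^ r * S) ≤ Q ^ r * (φ * Y * P ^ b) := by
      calc Q ^ r * (Q ^ r * S) = Q ^ r * Q ^ r * S := by ring
        _ ≤ φ * (Q ^ r * Y) * (64 * l ^ 2 * V) ^ r := h2
        _ ≤ φ * (Q ^ r * Y) * P ^ b := by gcongr
        _ = _ := by ring
    exact le_of_mul_le_mul_left h5 hQr
  have h5 : P * S ≤ Q * (φ * Y * P ^ b) := by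
    calc P * S ≤ Q ^ (r + 1) * S := by gcongr
      _ = Q * (Q ^ r * S) := by ring
      _ ≤ _ := by gcongr
  have h6 : P ^ (-2 + b) = P ^ b / P ^ 2 := by
    rw [add_comm, Real.rpow_add hP0, Real.rpow_neg hP0.le, div_eq_mul_inv]
    norm_num
  have h7 : P ^ 2 * S ≤ Q * φ * m * P ^ b := by
    have hPb : 0 ≤ P ^ b := by positivity
    calc P ^ 2 * S = P * (P * S) := by ring
      _ ≤ P * (Q * (φ * Y * P ^ b)) := by gcongr
      _ = Q * φ * (P * Y) * P ^ b := by ring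
      _ ≤ Q * φ * m * P ^ b := by
        gcongr
        nlinarith [mul_nonneg hP0.le hY0]
  rw [h6, ← mul_div_assoc, le_div_iff₀ (by positivity)]
  linarith

theorem base_u (b : ℝ) (hb : 0 < b) (hb1 : b ≤ 1) : ∃ Q0 : ℕ, ∀ Q : ℕ, Q0 ≤ Q →
    ∀ (m : ℕ) [NeZero m], 3 ≤ m → ∀ η : ℤ, (η = 1 ∨ η = -1) → ∀ κ : ℝ,
    (∀ q : ℕ, q.Prime → q ≤ Q → (Q : ℝ) * ((ExU m η q).card : ℝ) ≤ κ * m.totient) →
    ((Icc 1 Q).filter Nat.Prime).card ≤ 2 * ((Icc 1 Q).filter (fun q => q.Prime ∧ ¬ q ∣ m)).card →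
    ∃ X : Finset (DirichletCharacter ℂ m), wout m η X ≤ 4 * κ ∧
      LSP m X Q b Q (Real.exp ((Q : ℝ) ^ (3 * b / 4))) := by
  obtain ⟨Q0, hQ0⟩ := baseu_num b hb
  refine ⟨Q0, fun Q hQ m _ hm η hη κ hEx hcard => ?_⟩
  obtain ⟨hQ16, hL, hnum⟩ := hQ0 Q hQ
  have hQR : (16 : ℝ) ≤ Q := by exact_mod_cast hQ16
  classical
  set T := (Icc 1 Q).filter (fun q => q.Prime ∧ ¬ q ∣ m) with hTdef
  have hT : ∀ q ∈ T, q.Prime ∧ ¬ q ∣ m := fun q hq => (mem_filter.1 hq).2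
  have hTQ : ∀ q ∈ T, 1 ≤ q ∧ q ≤ Q := fun q hq => mem_Icc.1 (mem_filter.1 hq).1
  have hTcard : (Q : ℝ) / (8 * Real.log Q) ≤ (T.card : ℝ) / 2 := by
    have h1 := baseu_pi Q hQ16
    have h2 : ((((Icc 1 Q).filter Nat.Prime).card : ℕ) : ℝ) ≤ 2 * (T.card : ℝ) := by
      exact_mod_cast hcard
    rw [div_le_iff₀ (by linarith)]
    nlinarith
  have hTpos : 0 < (T.card : ℝ) := by
    have : 0 < (Q : ℝ) / (8 * Real.log Q) := by positivity
    linarith
  have hφ : (0 : ℝ) < m.totient := by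
    exact_mod_cast Nat.totient_pos.2 (NeZero.pos m)
  set X : Finset (DirichletCharacter ℂ m) :=
    univ.filter (fun χ => (T.card : ℝ) / 2 ≤ ‖∑ q ∈ T, χ (q : ZMod m)‖) with hX
  refine ⟨X, ?_, ?_⟩
  · have h1 : wout m η X * T.card ≤ ∑ q ∈ T, 4 * ((ExU m η q).card : ℝ) / m.totient := by
      calc wout m η X * T.card
          = ∑ χ ∈ univ.filter (fun χ => χ ∉ X), ww m η χ * T.card := by
            unfold wout
            rw [sum_mul]
        _ ≤ ∑ χ ∈ univ.filter (fun χ => χ ∉ X), ww m η χ * ∑ q ∈ T, ‖χ (q : ZMod m) + 1‖ ^ 2 := by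
            refine sum_le_sum fun χ hχ => mul_le_mul_of_nonneg_left ?_ (ww_nonneg m η χ)
            rw [mem_filter, hX, mem_filter] at hχ
            exact baseu_one χ T hT fun h => hχ.2 ⟨mem_univ _, h⟩
        _ ≤ ∑ χ : DirichletCharacter ℂ m, ww m η χ * ∑ q ∈ T, ‖χ (q : ZMod m) + 1‖ ^ 2 :=
            sum_le_sum_of_subset_of_nonneg (subset_univ _) fun χ _ _ =>
              mul_nonneg (ww_nonneg m η χ) (sum_nonneg fun _ _ => by positivity)
        _ = ∑ q ∈ T, ∑ χ : DirichletCharacter ℂ m, ww m η χ * ‖χ (q : ZMod m) + 1‖ ^ 2 := by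
            rw [sum_comm]
            exact sum_congr rfl fun χ _ => by rw [mul_sum]
        _ ≤ ∑ q ∈ T, 4 * ((ExU m η q).card : ℝ) / m.totient := by
            refine sum_le_sum fun q hq => ?_
            have hc : q.Coprime m := (Nat.Prime.coprime_iff_not_dvd (hT q hq).1).2 (hT q hq).2
            have hu : IsUnit (q : ZMod m) := by
              rw [← ZMod.coe_unitOfCoprime q hc]
              exact Units.isUnit _
            have h2 := twist m (FC m η) (q : ZMod m) hu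
            have h3 := baseu_bound (m := m) (by omega) hη (hT q hq).1
            unfold ww
            rw [h2, one_div, inv_mul_eq_div]
            exact div_le_div_of_nonneg_right h3 hφ.le
    have h2 : ∑ q ∈ T, 4 * ((ExU m η q).card : ℝ) / m.totient ≤ T.card * (4 * κ) := by
      rw [← nsmul_eq_mul, ← sum_const]
      refine sum_le_sum fun q hq => ?_
      have h3 := hEx q (hT q hq).1 (hTQ q hq).2
      rw [div_le_iff₀ hφ]
      have h4 : ((ExU m η q).card : ℝ) ≤ Q * ((ExU m η q).card : ℝ) := by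
        have : (0 : ℝ) ≤ ((ExU m η q).card : ℝ) := by positivity
        nlinarith
      linarith
    have h3 : wout m η X * T.card ≤ 4 * κ * T.card := by linarith
    exact le_of_mul_le_mul_right h3 hTpos
  · intro P hP1 hP2 Y hY f hf
    have hP0 : 0 < P := by linarith
    obtain ⟨r, hr1, hr2, hr3⟩ := baseu_r (by linarith : (1 : ℝ) < Q) hL hP1
    have hrQ : (r : ℝ) ≤ (Q : ℝ) ^ (3 * b / 4) := by
      refine hr3.trans ?_
      rw [Real.log_le_iff_le_exp hP0]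
      exact hP2
    have hY0 : (0 : ℝ) ≤ Y := by positivity
    have h1 := large_value m X T Q (Q / (8 * Real.log Q)) (by positivity) r Y
      (fun q hq => ⟨(hT q hq).1, (hT q hq).2, by exact_mod_cast (hTQ q hq).2⟩)
      (by
        refine (mul_le_mul_of_nonneg_right hr1 hY0).trans ?_
        nlinarith [mul_nonneg hP0.le hY0]) f hf
      (fun χ hχ => by
        rw [hX, mem_filter] at hχ
        exact hTcard.trans hχ.2)
    have hW := baseu_W Q T hTQ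
    have hW0 : 0 ≤ ∑ q ∈ T, 1 / (q : ℝ) := sum_nonneg fun _ _ => by positivity
    refine baseu_fin (l := Real.log Q) (b := b) r (by linarith) hP1 (by linarith) hφ.le hY0 hY
      (sum_nonneg fun _ _ => by positivity)
      (mul_nonneg hW0 (add_nonneg hW0 (by positivity : (0 : ℝ) ≤ (r : ℝ)))) hb hr1 hr2 ?_ h1
    refine le_trans ?_ hnum
    have hr0 : (0 : ℝ) ≤ r := by positivity
    exact mul_le_mul_of_nonneg_left (baseu_alg2 hW0 hr0 hL hW hrQ) (by positivity)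

end Pool.Agent.H78.PD
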