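import Pool.Agent.H78.PH.HW
import Pool.Agent.H78.PH.HQU
import Pool.Agent.H78.PH.HNum
import Pool.Agent.H78.PG.TCop
import Pool.Agent.H78.PG.TQO

/-!
# PD (LQ stage 3, MP_967f73_nt): definitions (helper78)

`m` is the modulus, `L = log m`, `φ = φ(m)`; all characters are Dirichlet characters mod `m` with complex values.

* `ww m η χ = ‖cc m (FC m η) χ‖²` (total `1`), `wout m η X` the weight outside `X`;
* `LSP m X B γ P1 P2`: `∑_{χ ∈ X} |∑_{y ∈ cop m Y} f(y) χ(y)|² ≤ B φ m P^(-2+γ)` for `P1 ≤ P ≤ P2`, `2PY ≤ m`, `|f| ≤ 1`;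
* blocks: `Hn x = ⌈log x⌉`, `aj x j = e^x (1 + 1/Hn x)^j`, `Jn x = ⌈2 Hn x x²⌉`, `TB m x j` = primes `p ∤ m` in `(aj x j, aj x (j+1)]`,
  `WB m x = ∑_{j < Jn x} ∑_{p ∈ TB m x j} 1/p`, `YB m x j = ⌊m/(2 aj x (j+1))⌋`;
* `UU m x α` = the characters with `|∑_{p ∈ TB m x j} χ(p)| ≥ (aj x j)^(1-α)` for some `j < Jn x`;
* `gB m x n = (1/WB) #{(j, p) : p ∈ TB m x j, p ∣ n, n ≤ p YB m x j}`;
* `GU m η U n = ∑_{χ ∈ U} cc χ · χ(n)`, `dn m η U n = (2n/φ) ∑_{y ∈ cop m (m/(2n))} ‖λ(n)λ(y) - GU(n y)‖²`;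
* `vv m χ n = λ(n) χ(n)`, `Nrm m η U d = ∑_{χ ∈ U} ww χ ‖d χ‖²`;
* `PI m X Y` = primes `p ∤ m` with `X < p ≤ Y`; `rou z n`: all prime factors of `n` are `> z`;
* `zN κ m = ⌊m^κ⌋`, `BR κ m` = the `zN κ m`-rough `b ≤ m^(399/800)` prime to `m`; `M1 m = ⌊m^(201/400)⌋`;
* `AP m` = `PI m (m^(1/200)) (m^(23/100))`; `RR κ m` = the `zN κ m`-rough `n` prime to `m` in `(M1/16, M1]` with a prime factor in `AP m`.
-/

set_option autoImplicit false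

namespace Pool.Agent.H78.PD

open Finset
open Pool.Agent.H34PG (lam lam_val lam_mul lam_prime)
open Pool.Agent.H11.LQ Pool.Agent.H78.PG

/-- the weights -/
noncomputable def ww (m : ℕ) [NeZero m] (η : ℤ) (χ : DirichletCharacter ℂ m) : ℝ :=
  ‖cc m (FC m η) χ‖ ^ 2

open Classical in
/-- the weight outside `X` -/
noncomputable def wout (m : ℕ) [NeZero m] (η : ℤ) (X : Finset (DirichletCharacter ℂ m)) : ℝ :=
  ∑ χ ∈ univ.filter (fun χ => χ ∉ X), ww m η χ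

/-- the large sieve property -/
def LSP (m : ℕ) [NeZero m] (X : Finset (DirichletCharacter ℂ m)) (B γ P1 P2 : ℝ) : Prop :=
  ∀ P : ℝ, P1 ≤ P → P ≤ P2 → ∀ Y : ℕ, 2 * P * Y ≤ m → ∀ f : ℕ → ℂ, (∀ y, ‖f y‖ ≤ 1) →
    ∑ χ ∈ X, ‖∑ y ∈ cop m Y, f y * χ (y : ZMod m)‖ ^ 2
      ≤ B * m.totient * m * P ^ (-2 + γ)

/-- the refinement of the blocks -/
noncomputable def Hn (x : ℝ) : ℕ := ⌈Real.log x⌉₊

/-- the ends of the blocks -/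
noncomputable def aj (x : ℝ) (j : ℕ) : ℝ := Real.exp x * (1 + 1 / (Hn x : ℝ)) ^ j

/-- the number of blocks -/
noncomputable def Jn (x : ℝ) : ℕ := ⌈2 * (Hn x : ℝ) * x ^ 2⌉₊

/-- the primes of a block not dividing `m` -/
noncomputable def TB (m : ℕ) (x : ℝ) (j : ℕ) : Finset ℕ :=
  (Icc 1 ⌊aj x (j + 1)⌋₊).filter (fun p : ℕ => p.Prime ∧ ¬ p ∣ m ∧ aj x j < (p : ℝ))

/-- the mass of all blocks -/
noncomputable def WB (m : ℕ) (x : ℝ) : ℝ := ∑ j ∈ range (Jn x), ∑ p ∈ TB m x j, 1 / (p : ℝ)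

/-- the complementary lengths -/
noncomputable def YB (m : ℕ) (x : ℝ) (j : ℕ) : ℕ := ⌊(m : ℝ) / (2 * aj x (j + 1))⌋₊

open Classical in
/-- the characters which are large on some block -/
noncomputable def UU (m : ℕ) [NeZero m] (x α : ℝ) : Finset (DirichletCharacter ℂ m) :=
  univ.filter (fun χ => ∃ j < Jn x, aj x j ^ (1 - α) ≤ ‖∑ p ∈ TB m x j, χ (p : ZMod m)‖)

/-- the normalised number of block primes -/
noncomputable def gB (m : ℕ) (x : ℝ) (n : ℕ) : ℝ :=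
  (1 / WB m x) * ∑ j ∈ range (Jn x), ∑ p ∈ TB m x j,
    if p ∣ n ∧ n ≤ p * YB m x j then (1 : ℝ) else 0

/-- the part of the expansion of `F` with characters in `U` -/
noncomputable def GU (m : ℕ) [NeZero m] (η : ℤ) (U : Finset (DirichletCharacter ℂ m)) (n : ℕ) : ℂ :=
  ∑ χ ∈ U, cc m (FC m η) χ * χ (n : ZMod m)

/-- the defect at `n` -/
noncomputable def dn (m : ℕ) [NeZero m] (η : ℤ) (U : Finset (DirichletCharacter ℂ m)) (n : ℕ) : ℝ :=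
  2 * n / m.totient * ∑ y ∈ cop m (m / (2 * n)),
    ‖((lam n : ℤ) : ℂ) * ((lam y : ℤ) : ℂ) - GU m η U (n * y)‖ ^ 2

/-- the vector `λ(n) χ(n)` -/
noncomputable def vv (m : ℕ) (χ : DirichletCharacter ℂ m) (n : ℕ) : ℂ :=
  ((lam n : ℤ) : ℂ) * χ (n : ZMod m)

/-- the weighted square norm -/
noncomputable def Nrm (m : ℕ) [NeZero m] (η : ℤ) (U : Finset (DirichletCharacter ℂ m))
    (d : DirichletCharacter ℂ m → ℂ) : ℝ :=
  ∑ χ ∈ U, ww m η χ * ‖d χ‖ ^ 2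

/-- primes `p ∤ m` in `(X, Y]` -/
noncomputable def PI (m : ℕ) (X Y : ℝ) : Finset ℕ :=
  (Icc 1 ⌊Y⌋₊).filter (fun p : ℕ => p.Prime ∧ ¬ p ∣ m ∧ X < (p : ℝ))

/-- all prime factors are larger than `z` -/
def rou (z n : ℕ) : Prop := ∀ p : ℕ, p.Prime → p ∣ n → z < p

/-- the sifting limit -/
noncomputable def zN (κ : ℝ) (m : ℕ) : ℕ := ⌊(m : ℝ) ^ κ⌋₊

open Classical in
/-- the rough numbers `b ≤ m^(399/800)` prime to `m` -/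
noncomputable def BR (κ : ℝ) (m : ℕ) : Finset ℕ :=
  (Icc 1 ⌊(m : ℝ) ^ (399 / 800 : ℝ)⌋₊).filter (fun b => b.Coprime m ∧ rou (zN κ m) b)

/-- the length `m^(201/400)` -/
noncomputable def M1 (m : ℕ) : ℕ := ⌊(m : ℝ) ^ (201 / 400 : ℝ)⌋₊

/-- the middle primes -/
noncomputable def AP (m : ℕ) : Finset ℕ := PI m ((m : ℝ) ^ (1 / 200 : ℝ)) ((m : ℝ) ^ (23 / 100 : ℝ))

open Classical in
/-- the rough numbers in `(M1/16, M1]` prime to `m` with a middle prime factor -/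
noncomputable def RR (κ : ℝ) (m : ℕ) : Finset ℕ :=
  (Icc 1 (M1 m)).filter (fun n => M1 m < 16 * n ∧ n.Coprime m ∧ rou (zN κ m) n ∧ ∃ p ∈ AP m, p ∣ n)

open Classical in
theorem mem_UU {m : ℕ} [NeZero m] {x α : ℝ} {χ : DirichletCharacter ℂ m} :
    χ ∈ UU m x α ↔ ∃ j < Jn x, aj x j ^ (1 - α) ≤ ‖∑ p ∈ TB m x j, χ (p : ZMod m)‖ := by
  unfold UU
  simp

theorem mem_PI {m : ℕ} {X Y : ℝ} (hY : 0 ≤ Y) {p : ℕ} :
    p ∈ PI m X Y ↔ p.Prime ∧ ¬ p ∣ m ∧ X < (p : ℝ) ∧ (p : ℝ) ≤ Y := by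
  unfold PI
  rw [mem_filter, mem_Icc]
  constructor
  · rintro ⟨⟨_, h2⟩, h3, h4, h5⟩
    exact ⟨h3, h4, h5, (Nat.le_floor_iff hY).mp h2⟩
  · rintro ⟨h3, h4, h5, h2⟩
    exact ⟨⟨h3.one_lt.le, (Nat.le_floor_iff hY).mpr h2⟩, h3, h4, h5⟩

theorem aj_pos (x : ℝ) (j : ℕ) : 0 < aj x j := by
  unfold aj
  positivity

theorem mem_TB {m : ℕ} {x : ℝ} {j p : ℕ} :
    p ∈ TB m x j ↔ p.Prime ∧ ¬ p ∣ m ∧ aj x j < (p : ℝ) ∧ (p : ℝ) ≤ aj x (j + 1) := by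
  unfold TB
  rw [mem_filter, mem_Icc]
  constructor
  · rintro ⟨⟨_, h2⟩, h3, h4, h5⟩
    exact ⟨h3, h4, h5, (Nat.le_floor_iff (aj_pos _ _).le).mp h2⟩
  · rintro ⟨h3, h4, h5, h2⟩
    exact ⟨⟨h3.one_lt.le, (Nat.le_floor_iff (aj_pos _ _).le).mpr h2⟩, h3, h4, h5⟩

open Classical in
theorem mem_BR {κ : ℝ} {m b : ℕ} :
    b ∈ BR κ m ↔ 1 ≤ b ∧ (b : ℝ) ≤ (m : ℝ) ^ (399 / 800 : ℝ) ∧ b.Coprime m ∧ rou (zN κ m) b := by
  unfold BR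
  rw [mem_filter, mem_Icc, Nat.le_floor_iff (by positivity), and_assoc]

open Classical in
theorem mem_RR {κ : ℝ} {m n : ℕ} :
    n ∈ RR κ m ↔ 1 ≤ n ∧ n ≤ M1 m ∧ M1 m < 16 * n ∧ n.Coprime m ∧ rou (zN κ m) n ∧
      ∃ p ∈ AP m, p ∣ n := by
  unfold RR
  rw [mem_filter, mem_Icc, and_assoc]

theorem ww_nonneg (m : ℕ) [NeZero m] (η : ℤ) (χ : DirichletCharacter ℂ m) : 0 ≤ ww m η χ := by
  unfold ww
  positivity

theorem wout_nonneg (m : ℕ) [NeZero m] (η : ℤ) (X : Finset (DirichletCharacter ℂ m)) :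
    0 ≤ wout m η X := by
  unfold wout
  exact sum_nonneg fun _ _ => ww_nonneg _ _ _

theorem ww_sum (m : ℕ) [NeZero m] (hm : 2 ≤ m) (η : ℤ) (hη : η = 1 ∨ η = -1) :
    ∑ χ : DirichletCharacter ℂ m, ww m η χ = 1 :=
  weight_one m hm η hη

end Pool.Agent.H78.PD
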