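import Pool.Agent.H78.PD.Defs

/-!
# PD, Ort: orthogonality with coefficients

Orthogonality of the characters mod `m`: the `s ∈ S` are in different residue classes prime to `m`.  (`ortho_sum` in `PG/TFour.lean` is the case `a = 1`; the same proof, or `parseval` there
for the function `u ↦ a s` if `u = s`, `s ∈ S`, else `0`.)
-/

set_option autoImplicit false

namespace Pool.Agent.H78.PD

open Finset
open Pool.Agent.H34PG (lam lam_val lam_mul lam_prime)
open Pool.Agent.H11.LQ Pool.Agent.H78.PG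

theorem ortho_coef (m : ℕ) [NeZero m] (S : Finset ℕ)
    (hS : ∀ s ∈ S, s.Coprime m ∧ 1 ≤ s ∧ s ≤ m) (a : ℕ → ℂ) :
    ∑ χ : DirichletCharacter ℂ m, ‖∑ s ∈ S, a s * χ (s : ZMod m)‖ ^ 2
      = (m.totient : ℝ) * ∑ s ∈ S, ‖a s‖ ^ 2 := by
  have hinj : ∀ s ∈ S, ∀ t ∈ S, (s : ZMod m) = (t : ZMod m) → s = t := by
    intro s hs t ht h
    rw [ZMod.natCast_eq_natCast_iff] at h
    obtain ⟨hs1, hs2, hs3⟩ := hS s hs
    obtain ⟨ht1, ht2, ht3⟩ := hS t ht
    rcases Nat.lt_or_ge 1 m with hm | hm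
    · have hs4 : s < m := by
        refine lt_of_le_of_ne hs3 (fun h' => ?_)
        rw [h'] at hs1
        have : m = 1 := by simpa using hs1
        omega
      have ht4 : t < m := by
        refine lt_of_le_of_ne ht3 (fun h' => ?_)
        rw [h'] at ht1
        have : m = 1 := by simpa using ht1
        omega
      have := h
      unfold Nat.ModEq at this
      rwa [Nat.mod_eq_of_lt hs4, Nat.mod_eq_of_lt ht4] at this
    · omega
  have h1 : ∀ χ : DirichletCharacter ℂ m, ((‖∑ s ∈ S, a s * χ (s : ZMod m)‖ ^ 2 : ℝ) : ℂ)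
      = ∑ s ∈ S, ∑ t ∈ S, ((starRingEnd ℂ) (a s) * a t) *
          ((starRingEnd ℂ) (χ (s : ZMod m)) * χ (t : ZMod m)) := by
    intro χ
    have : ((‖∑ s ∈ S, a s * χ (s : ZMod m)‖ ^ 2 : ℝ) : ℂ)
        = (starRingEnd ℂ) (∑ s ∈ S, a s * χ (s : ZMod m)) * ∑ t ∈ S, a t * χ (t : ZMod m) := by
      rw [mul_comm, Complex.mul_conj, Complex.normSq_eq_norm_sq]
    rw [this, map_sum, Finset.sum_mul_sum]
    refine Finset.sum_congr rfl (fun s _ => Finset.sum_congr rfl (fun t _ => ?_))
    rw [map_mul]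
    ring
  have h2 : ((∑ χ : DirichletCharacter ℂ m, ‖∑ s ∈ S, a s * χ (s : ZMod m)‖ ^ 2 : ℝ) : ℂ)
      = ((m.totient : ℝ) * ∑ s ∈ S, ‖a s‖ ^ 2 : ℝ) := by
    rw [Complex.ofReal_sum, Finset.sum_congr rfl (fun χ _ => h1 χ), Finset.sum_comm]
    have h3 : ∀ s ∈ S, ∑ χ : DirichletCharacter ℂ m, ∑ t ∈ S,
        ((starRingEnd ℂ) (a s) * a t) *
          ((starRingEnd ℂ) (χ (s : ZMod m)) * χ (t : ZMod m))
        = (m.totient : ℂ) * ((‖a s‖ ^ 2 : ℝ) : ℂ) := by
      intro s hs
      rw [Finset.sum_comm]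
      have h4 : ∀ t ∈ S, ∑ χ : DirichletCharacter ℂ m,
          ((starRingEnd ℂ) (a s) * a t) *
            ((starRingEnd ℂ) (χ (s : ZMod m)) * χ (t : ZMod m))
          = if s = t then (m.totient : ℂ) * ((‖a s‖ ^ 2 : ℝ) : ℂ) else 0 := by
        intro t ht
        have hsu : IsUnit (s : ZMod m) := (ZMod.isUnit_iff_coprime _ _).2 (hS s hs).1
        have htu : IsUnit (t : ZMod m) := (ZMod.isUnit_iff_coprime _ _).2 (hS t ht).1
        have h5 := tfour_ortho m hsu.unit htu.unit
        simp only [IsUnit.unit_spec] at h5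
        rw [← Finset.mul_sum, h5]
        by_cases hst : s = t
        · subst hst
          rw [if_pos rfl, if_pos rfl, mul_comm ((starRingEnd ℂ) (a s)) (a s), Complex.mul_conj,
            Complex.normSq_eq_norm_sq, mul_comm]
        · rw [if_neg hst, if_neg, mul_zero]
          intro h6
          apply hst
          apply hinj s hs t ht
          have := congrArg (fun u : (ZMod m)ˣ => (u : ZMod m)) h6
          simpa using this
      rw [Finset.sum_congr rfl h4, Finset.sum_ite_eq, if_pos hs]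
    rw [Finset.sum_congr rfl h3, ← Finset.mul_sum]
    push_cast
    ring
  exact_mod_cast h2

end Pool.Agent.H78.PD
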