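import Pool.Agent.H78.PD.BNum
import Pool.Agent.H78.PD.Ort
import Pool.Agent.H78.PD.Par

/-!
# PD, Ener: the energy inequality

`ww χ ≤ (4/φ²) |∑_{n ∈ cop m (m/2)} λ χ|²` (`ww_le_half`), `λ = λ g + λ (1 - g)`, `|a + b|² ≤ 2|a|² + 2|b|²`; by `ortho_coef` the sum over all `χ` of `|∑ λ (1 - g) χ|²` is `φ ∑ (1 - g)²`.
For `χ ∉ UU`: `λ(n) g(n) = -(1/W) ∑_j ∑_{p ∈ TB j} [n = p y, y ≤ YB j] λ(y)`, so `∑_n λ g χ = -(1/W) ∑_j (∑_{TB j} χ(p)) S_j`, `S_j = ∑_{y ∈ cop m (YB j)} λ(y) χ(y)`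
(`n ↔ y`; `p y ≤ m/2` is automatic), `|.|² ≤ (J/W²) ∑_j (aj x j)^(2-2α) |S_j|²` (Cauchy-Schwarz); LSP with `P = aj x (j+1)`, `f = λ`:
`∑_X |S_j|² ≤ B φ m (aj x (j+1))^(-2+γ)`, and `aj^(2-2α) aj(j+1)^(-2+γ) ≤ aj^(-(2α-γ)) ≤ exp(-(2α-γ)x)`.
-/

set_option autoImplicit false

namespace Pool.Agent.H78.PD

open Finset
open Pool.Agent.H34PG (lam lam_val lam_mul lam_prime)
open Pool.Agent.H11.LQ Pool.Agent.H78.PG

/-- the sum over the complementary variable -/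
private noncomputable def enS (m : ℕ) (χ : DirichletCharacter ℂ m) (Y : ℕ) : ℂ :=
  ∑ y ∈ cop m Y, ((lam y : ℤ) : ℂ) * χ (y : ZMod m)

private theorem ener_cop {m p : ℕ} {x : ℝ} {j : ℕ} (hp : p ∈ TB m x j) :
    (cop m (m / 2)).filter (fun n => p ∣ n ∧ n ≤ p * YB m x j)
      = (cop m (YB m x j)).image (fun y => p * y) := by
  obtain ⟨hp1, hp2, _, hp4⟩ := mem_TB.mp hp
  have hpc : p.Coprime m := (Nat.Prime.coprime_iff_not_dvd hp1).mpr hp2
  ext n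
  rw [mem_filter, mem_cop, mem_image]
  constructor
  · rintro ⟨⟨h1, h2, h3⟩, ⟨y, rfl⟩, h5⟩
    refine ⟨y, mem_cop.mpr ⟨?_, Nat.le_of_mul_le_mul_left h5 hp1.pos, ?_⟩, rfl⟩
    · rcases Nat.eq_zero_or_pos y with h6 | h6
      · subst h6
        omega
      · exact h6
    · exact Nat.Coprime.coprime_mul_left h3
  · rintro ⟨y, hy, rfl⟩
    obtain ⟨h1, h2, h3⟩ := mem_cop.mp hy
    refine ⟨⟨Nat.mul_pos hp1.pos h1, ?_, Nat.Coprime.mul_left hpc h3⟩, Dvd.intro _ rfl,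
      Nat.mul_le_mul_left _ h2⟩
    rw [Nat.le_div_iff_mul_le (by norm_num)]
    have ha : 0 < aj x (j + 1) := aj_pos _ _
    have h4 : (y : ℝ) ≤ (m : ℝ) / (2 * aj x (j + 1)) := by
      have h5 : (y : ℝ) ≤ (YB m x j : ℝ) := by exact_mod_cast h2
      refine h5.trans ?_
      unfold YB
      exact Nat.floor_le (by positivity)
    rw [le_div_iff₀ (by positivity)] at h4
    have h5 : ((p * y * 2 : ℕ) : ℝ) ≤ (m : ℝ) := by
      push_cast
      have h6 : (p : ℝ) * y ≤ aj x (j + 1) * y :=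
        mul_le_mul_of_nonneg_right hp4 (Nat.cast_nonneg y)
      nlinarith
    exact_mod_cast h5

private theorem ener_inner {m p : ℕ} (χ : DirichletCharacter ℂ m) {x : ℝ} {j : ℕ}
    (hp : p ∈ TB m x j) :
    ∑ n ∈ cop m (m / 2), (((if p ∣ n ∧ n ≤ p * YB m x j then (1 : ℝ) else 0) : ℝ) : ℂ) *
        (((lam n : ℤ) : ℂ) * χ (n : ZMod m))
      = - (χ (p : ZMod m) * enS m χ (YB m x j)) := by
  have hp1 := (mem_TB.mp hp).1
  have e1 : ∑ n ∈ cop m (m / 2), (((if p ∣ n ∧ n ≤ p * YB m x j then (1 : ℝ) else 0) : ℝ) : ℂ) *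
        (((lam n : ℤ) : ℂ) * χ (n : ZMod m))
      = ∑ n ∈ (cop m (m / 2)).filter (fun n => p ∣ n ∧ n ≤ p * YB m x j),
          ((lam n : ℤ) : ℂ) * χ (n : ZMod m) := by
    rw [sum_filter]
    refine sum_congr rfl fun n _ => ?_
    split_ifs <;> simp
  rw [e1, ener_cop hp, sum_image]
  · unfold enS
    rw [mul_sum, ← sum_neg_distrib]
    refine sum_congr rfl fun y hy => ?_
    have hy1 := (mem_cop.mp hy).1
    rw [lam_mul p y hp1.pos hy1, lam_prime hp1, Nat.cast_mul, map_mul]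
    push_cast
    ring
  · intro a _ b _ hab
    exact Nat.eq_of_mul_eq_mul_left hp1.pos hab

private theorem ener_main (m : ℕ) (χ : DirichletCharacter ℂ m) (x : ℝ) :
    ∑ n ∈ cop m (m / 2), ((lam n : ℤ) : ℂ) * ((gB m x n : ℝ) : ℂ) * χ (n : ZMod m)
      = -((1 / WB m x : ℝ) : ℂ) * ∑ j ∈ range (Jn x),
          (∑ p ∈ TB m x j, χ (p : ZMod m)) * enS m χ (YB m x j) := by
  have e1 : ∀ n : ℕ, ((lam n : ℤ) : ℂ) * ((gB m x n : ℝ) : ℂ) * χ (n : ZMod m)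
      = ((1 / WB m x : ℝ) : ℂ) * ∑ j ∈ range (Jn x), ∑ p ∈ TB m x j,
        (((if p ∣ n ∧ n ≤ p * YB m x j then (1 : ℝ) else 0) : ℝ) : ℂ) *
        (((lam n : ℤ) : ℂ) * χ (n : ZMod m)) := by
    intro n
    have e2 : ∑ j ∈ range (Jn x), ∑ p ∈ TB m x j,
        (((if p ∣ n ∧ n ≤ p * YB m x j then (1 : ℝ) else 0) : ℝ) : ℂ) *
        (((lam n : ℤ) : ℂ) * χ (n : ZMod m))
        = ((∑ j ∈ range (Jn x), ∑ p ∈ TB m x j,
          (if p ∣ n ∧ n ≤ p * YB m x j then (1 : ℝ) else 0) : ℝ) : ℂ) *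
          (((lam n : ℤ) : ℂ) * χ (n : ZMod m)) := by
      rw [Complex.ofReal_sum, sum_mul]
      refine sum_congr rfl fun j _ => ?_
      rw [Complex.ofReal_sum, sum_mul]
    rw [e2]
    unfold gB
    rw [Complex.ofReal_mul]
    ring
  rw [sum_congr rfl fun n _ => e1 n, ← mul_sum, sum_comm]
  have e3 : ∀ j ∈ range (Jn x), ∑ n ∈ cop m (m / 2), ∑ p ∈ TB m x j,
        (((if p ∣ n ∧ n ≤ p * YB m x j then (1 : ℝ) else 0) : ℝ) : ℂ) *
        (((lam n : ℤ) : ℂ) * χ (n : ZMod m))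
      = - ((∑ p ∈ TB m x j, χ (p : ZMod m)) * enS m χ (YB m x j)) := by
    intro j _
    rw [sum_comm, sum_mul, ← sum_neg_distrib]
    exact sum_congr rfl fun p hp => ener_inner χ hp
  rw [sum_congr rfl e3, sum_neg_distrib]
  ring

private theorem ener_exp (x : ℝ) (j : ℕ) : Real.exp x ≤ aj x j := by
  unfold aj
  have h1 : (1 : ℝ) ≤ (1 + 1 / (Hn x : ℝ)) ^ j := by
    apply one_le_pow₀
    have : (0 : ℝ) ≤ 1 / (Hn x : ℝ) := by positivity
    linarith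
  exact le_mul_of_one_le_right (Real.exp_pos x).le h1

/-- the exponents -/
private theorem ener_pow (x α γ : ℝ) (hγ : γ ≤ 2 * α) (hγ2 : γ ≤ 2) (j : ℕ) :
    (aj x j ^ (1 - α)) ^ 2 * aj x (j + 1) ^ (-2 + γ) ≤ Real.exp (-((2 * α - γ) * x)) := by
  have h0 : 0 < aj x j := aj_pos x j
  have h1 : aj x j ≤ aj x (j + 1) := aj_mono x (Nat.le_succ j)
  have h2 : aj x (j + 1) ^ (-2 + γ) ≤ aj x j ^ (-2 + γ) :=
    Real.rpow_le_rpow_of_nonpos h0 h1 (by linarith)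
  have h3 : (aj x j ^ (1 - α)) ^ 2 = aj x j ^ (2 - 2 * α) := by
    rw [← Real.rpow_natCast, ← Real.rpow_mul h0.le]
    congr 1
    push_cast
    ring
  rw [h3]
  calc aj x j ^ (2 - 2 * α) * aj x (j + 1) ^ (-2 + γ)
      ≤ aj x j ^ (2 - 2 * α) * aj x j ^ (-2 + γ) :=
        mul_le_mul_of_nonneg_left h2 (Real.rpow_nonneg h0.le _)
    _ = aj x j ^ (-(2 * α - γ)) := by
        rw [← Real.rpow_add h0]
        congr 1
        ring
    _ ≤ (Real.exp x) ^ (-(2 * α - γ)) :=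
        Real.rpow_le_rpow_of_nonpos (Real.exp_pos x) (ener_exp x j) (by linarith)
    _ = Real.exp (-((2 * α - γ) * x)) := by
        rw [← Real.exp_mul]
        congr 1
        ring

/-- the large sieve for one block -/
private theorem ener_block (m : ℕ) [NeZero m] (x B γ P1 P2 : ℝ)
    (X : Finset (DirichletCharacter ℂ m)) (hX : LSP m X B γ P1 P2)
    (h1 : P1 ≤ Real.exp x) (h2 : aj x (Jn x) ≤ P2) (j : ℕ) (hj : j < Jn x) :
    ∑ χ ∈ X, ‖enS m χ (YB m x j)‖ ^ 2 ≤ B * m.totient * m * aj x (j + 1) ^ (-2 + γ) := by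
  have ha : 0 < aj x (j + 1) := aj_pos _ _
  refine hX (aj x (j + 1)) (h1.trans (ener_exp x _)) ((aj_mono x hj).trans h2) (YB m x j) ?_
    (fun y => ((lam y : ℤ) : ℂ)) ?_
  · have h3 : (YB m x j : ℝ) ≤ (m : ℝ) / (2 * aj x (j + 1)) := by
      unfold YB
      exact Nat.floor_le (by positivity)
    rw [le_div_iff₀ (by positivity)] at h3
    linarith
  · intro y
    rcases lam_val y with h | h <;> simp [h]

/-- the bound for one character outside `UU` -/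
private theorem ener_char (m : ℕ) [NeZero m] (χ : DirichletCharacter ℂ m) (x α : ℝ)
    (hW : 0 < WB m x) (hχ : χ ∉ UU m x α) :
    ‖∑ n ∈ cop m (m / 2), ((lam n : ℤ) : ℂ) * ((gB m x n : ℝ) : ℂ) * χ (n : ZMod m)‖ ^ 2
      ≤ Jn x / WB m x ^ 2 * ∑ j ∈ range (Jn x),
          (aj x j ^ (1 - α)) ^ 2 * ‖enS m χ (YB m x j)‖ ^ 2 := by
  rw [mem_UU] at hχ
  push Not at hχ
  rw [ener_main, norm_mul, norm_neg, Complex.norm_real, Real.norm_of_nonneg (by positivity),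
    mul_pow, one_div, inv_pow]
  have e1 : (Jn x : ℝ) / WB m x ^ 2 * ∑ j ∈ range (Jn x),
      (aj x j ^ (1 - α)) ^ 2 * ‖enS m χ (YB m x j)‖ ^ 2
      = (WB m x ^ 2)⁻¹ * ((Jn x : ℝ) * ∑ j ∈ range (Jn x),
      (aj x j ^ (1 - α)) ^ 2 * ‖enS m χ (YB m x j)‖ ^ 2) := by
    rw [div_eq_mul_inv]
    ring
  rw [e1]
  refine mul_le_mul_of_nonneg_left ?_ (by positivity)
  have h1 : ‖∑ j ∈ range (Jn x), (∑ p ∈ TB m x j, χ (p : ZMod m)) * enS m χ (YB m x j)‖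
      ≤ ∑ j ∈ range (Jn x), aj x j ^ (1 - α) * ‖enS m χ (YB m x j)‖ := by
    refine (norm_sum_le _ _).trans (sum_le_sum fun j hj => ?_)
    rw [norm_mul]
    exact mul_le_mul_of_nonneg_right (hχ j (mem_range.mp hj)).le (norm_nonneg _)
  have h2 : (∑ j ∈ range (Jn x), aj x j ^ (1 - α) * ‖enS m χ (YB m x j)‖) ^ 2
      ≤ ((range (Jn x)).card : ℝ) * ∑ j ∈ range (Jn x),
        (aj x j ^ (1 - α) * ‖enS m χ (YB m x j)‖) ^ 2 :=
    sq_sum_le_card_mul_sum_sq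
  rw [card_range] at h2
  calc _ ≤ (∑ j ∈ range (Jn x), aj x j ^ (1 - α) * ‖enS m χ (YB m x j)‖) ^ 2 :=
        pow_le_pow_left₀ (norm_nonneg _) h1 2
    _ ≤ _ := h2
    _ = _ := by
        congr 1
        exact sum_congr rfl fun j _ => by rw [mul_pow]

open Classical in
theorem energy (m : ℕ) [NeZero m] (hm : 3 ≤ m) (η : ℤ) (hη : η = 1 ∨ η = -1)
    (x α B γ P1 P2 : ℝ) (X : Finset (DirichletCharacter ℂ m)) (hX : LSP m X B γ P1 P2)
    (hx : 1 ≤ x) (h1 : P1 ≤ Real.exp x) (h2 : aj x (Jn x) ≤ P2) (hγ : γ ≤ 2 * α) (hγ2 : γ ≤ 2)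
    (hB : 0 ≤ B) (hW : 0 < WB m x) :
    ∑ χ ∈ X.filter (fun χ => χ ∉ UU m x α), ww m η χ
      ≤ 8 * B * (m / m.totient) * (Jn x / WB m x) ^ 2 * Real.exp (-((2 * α - γ) * x))
        + 8 / m.totient * ∑ n ∈ cop m (m / 2), (1 - gB m x n) ^ 2 := by
  have hφ : (0 : ℝ) < m.totient := by
    exact_mod_cast Nat.totient_pos.2 (by omega)
  obtain ⟨E, hE⟩ : ∃ E, E = Real.exp (-((2 * α - γ) * x)) := ⟨_, rfl⟩
  have hE0 : 0 ≤ E := by
    rw [hE]
    exact (Real.exp_pos _).le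
  -- the two parts
  have hA : ∀ χ : DirichletCharacter ℂ m, ww m η χ ≤
      8 / (m.totient : ℝ) ^ 2 *
        ‖∑ n ∈ cop m (m / 2), ((lam n : ℤ) : ℂ) * ((gB m x n : ℝ) : ℂ) * χ (n : ZMod m)‖ ^ 2 +
      8 / (m.totient : ℝ) ^ 2 *
        ‖∑ n ∈ cop m (m / 2), ((lam n : ℤ) : ℂ) * ((1 - gB m x n : ℝ) : ℂ) *
          χ (n : ZMod m)‖ ^ 2 := by
    intro χ
    refine (ww_le_half m hm η hη χ).trans ?_
    have e1 : ∑ n ∈ cop m (m / 2), ((lam n : ℤ) : ℂ) * χ (n : ZMod m)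
        = ∑ n ∈ cop m (m / 2), ((lam n : ℤ) : ℂ) * ((gB m x n : ℝ) : ℂ) * χ (n : ZMod m) +
          ∑ n ∈ cop m (m / 2), ((lam n : ℤ) : ℂ) * ((1 - gB m x n : ℝ) : ℂ) *
            χ (n : ZMod m) := by
      rw [← sum_add_distrib]
      refine sum_congr rfl fun n _ => ?_
      push_cast
      ring
    rw [e1]
    obtain ⟨a, ha⟩ : ∃ a, a = ∑ n ∈ cop m (m / 2), ((lam n : ℤ) : ℂ) *
      ((gB m x n : ℝ) : ℂ) * χ (n : ZMod m) := ⟨_, rfl⟩
    obtain ⟨b, hb⟩ : ∃ b, b = ∑ n ∈ cop m (m / 2), ((lam n : ℤ) : ℂ) *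
      ((1 - gB m x n : ℝ) : ℂ) * χ (n : ZMod m) := ⟨_, rfl⟩
    rw [← ha, ← hb]
    have h3 : ‖a + b‖ ^ 2 ≤ 2 * ‖a‖ ^ 2 + 2 * ‖b‖ ^ 2 := by
      have h4 := norm_add_le a b
      have h5 := norm_nonneg (a + b)
      nlinarith [sq_nonneg (‖a‖ - ‖b‖), norm_nonneg a, norm_nonneg b]
    calc 4 / (m.totient : ℝ) ^ 2 * ‖a + b‖ ^ 2
        ≤ 4 / (m.totient : ℝ) ^ 2 * (2 * ‖a‖ ^ 2 + 2 * ‖b‖ ^ 2) :=
          mul_le_mul_of_nonneg_left h3 (by positivity)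
      _ = _ := by ring
  refine (sum_le_sum fun χ _ => hA χ).trans ?_
  rw [sum_add_distrib, ← mul_sum, ← mul_sum]
  refine add_le_add ?_ ?_
  · -- the main part
    have h3 : ∑ χ ∈ X.filter (fun χ => χ ∉ UU m x α),
        ‖∑ n ∈ cop m (m / 2), ((lam n : ℤ) : ℂ) * ((gB m x n : ℝ) : ℂ) * χ (n : ZMod m)‖ ^ 2
        ≤ Jn x / WB m x ^ 2 * (Jn x * (B * m.totient * m * E)) := by
      calc _ ≤ ∑ χ ∈ X.filter (fun χ => χ ∉ UU m x α), Jn x / WB m x ^ 2 *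
            ∑ j ∈ range (Jn x), (aj x j ^ (1 - α)) ^ 2 * ‖enS m χ (YB m x j)‖ ^ 2 :=
            sum_le_sum fun χ hχ => ener_char m χ x α hW (mem_filter.mp hχ).2
        _ = Jn x / WB m x ^ 2 * ∑ j ∈ range (Jn x), (aj x j ^ (1 - α)) ^ 2 *
            ∑ χ ∈ X.filter (fun χ => χ ∉ UU m x α), ‖enS m χ (YB m x j)‖ ^ 2 := by
            rw [← mul_sum, sum_comm]
            congr 1
            exact sum_congr rfl fun j _ => by rw [mul_sum]
        _ ≤ Jn x / WB m x ^ 2 * ∑ _j ∈ range (Jn x), B * m.totient * m * E := by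
            refine mul_le_mul_of_nonneg_left (sum_le_sum fun j hj => ?_) (by positivity)
            have h4 : ∑ χ ∈ X.filter (fun χ => χ ∉ UU m x α), ‖enS m χ (YB m x j)‖ ^ 2
                ≤ B * m.totient * m * aj x (j + 1) ^ (-2 + γ) :=
              (sum_le_sum_of_subset_of_nonneg (filter_subset _ _) fun _ _ _ =>
                by positivity).trans
                (ener_block m x B γ P1 P2 X hX h1 h2 j (mem_range.mp hj))
            have h5 := ener_pow x α γ hγ hγ2 j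
            rw [← hE] at h5
            calc _ ≤ (aj x j ^ (1 - α)) ^ 2 * (B * m.totient * m * aj x (j + 1) ^ (-2 + γ)) :=
                  mul_le_mul_of_nonneg_left h4 (by positivity)
              _ = B * m.totient * m * ((aj x j ^ (1 - α)) ^ 2 * aj x (j + 1) ^ (-2 + γ)) := by
                  ring
              _ ≤ B * m.totient * m * E := mul_le_mul_of_nonneg_left h5 (by positivity)
        _ = _ := by rw [sum_const, card_range, nsmul_eq_mul]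
    calc _ ≤ 8 / (m.totient : ℝ) ^ 2 *
          (Jn x / WB m x ^ 2 * (Jn x * (B * m.totient * m * E))) :=
          mul_le_mul_of_nonneg_left h3 (by positivity)
      _ = 8 * B * (m / m.totient) * (Jn x / WB m x) ^ 2 * E := by
          field_simp
      _ = _ := by rw [hE]
  · -- the error part
    have h3 : ∑ χ ∈ X.filter (fun χ => χ ∉ UU m x α),
        ‖∑ n ∈ cop m (m / 2), ((lam n : ℤ) : ℂ) * ((1 - gB m x n : ℝ) : ℂ) *
          χ (n : ZMod m)‖ ^ 2 ≤ (m.totient : ℝ) * ∑ n ∈ cop m (m / 2), (1 - gB m x n) ^ 2 := by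
      calc _ ≤ ∑ χ : DirichletCharacter ℂ m, ‖∑ n ∈ cop m (m / 2), ((lam n : ℤ) : ℂ) *
            ((1 - gB m x n : ℝ) : ℂ) * χ (n : ZMod m)‖ ^ 2 :=
            sum_le_sum_of_subset_of_nonneg (subset_univ _) fun _ _ _ => by positivity
        _ = (m.totient : ℝ) * ∑ n ∈ cop m (m / 2),
            ‖((lam n : ℤ) : ℂ) * ((1 - gB m x n : ℝ) : ℂ)‖ ^ 2 := by
            refine ortho_coef m (cop m (m / 2)) (fun s hs => ?_) _
            obtain ⟨h4, h5, h6⟩ := mem_cop.mp hs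
            exact ⟨h6, h4, h5.trans (Nat.div_le_self m 2)⟩
        _ = _ := by
            congr 1
            refine sum_congr rfl fun n _ => ?_
            rw [norm_mul, Complex.norm_real, mul_pow, Real.norm_eq_abs, sq_abs]
            rcases lam_val n with h | h <;> rw [h] <;> simp
    calc _ ≤ 8 / (m.totient : ℝ) ^ 2 *
          ((m.totient : ℝ) * ∑ n ∈ cop m (m / 2), (1 - gB m x n) ^ 2) :=
          mul_le_mul_of_nonneg_left h3 (by positivity)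
      _ = _ := by
          field_simp

end Pool.Agent.H78.PD
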