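import Pool.Agent.H78.PD.Ort

/-!
# PD, L1: the large value lemma

`W = ∑_{q ∈ T} 1/q`.  For `χ ∈ X`: `Θ^(2r) |∑_y f χ|² ≤ |(∑_T χ(q))^r ∑_y f(y) χ(y)|²`, so the left side is `≤ ∑_χ |∑_n a_n χ(n)|²` over all `χ`, with
`a_n = ∑_{(q, y) ∈ T^r × cop m Y, q_1 ⋯ q_r y = n} f(y)` (all `n ≤ Z^r Y ≤ m`, prime to `m`); by `ortho_coef` it is `φ ∑ |a_n|²`, and (`|f| ≤ 1`)
`∑ |a_n|² ≤ #{(q, q', y, y') : Πq · y = Πq' · y'} ≤ ∑_{q, q' ∈ T^r} #{n ≤ Z^r Y : Πq ∣ n, Πq' ∣ n} ≤ Z^r Y ∑_{q, q'} gcd(Πq, Πq')/(Πq Πq')` (given `q, q'`, `(y, y') ↦ n` is injective).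
For fixed `q`: `gcd(Πq, Πq')` divides `Π_j (q'_j if q'_j ∈ {q_i} else 1)`, so `∑_{q'} gcd/Πq' ≤ Π_j (∑_{q' ∈ T} (1 if q' ∈ {q_i} else 1/q')) ≤ (W + r)^r`, and `∑_q 1/Πq = W^r`
(`Finset.prod_univ_sum`, `T^r = Fintype.piFinset (fun _ : Fin r => T)`).
-/

set_option autoImplicit false

namespace Pool.Agent.H78.PD

open Finset
open Pool.Agent.H34PG (lam lam_val lam_mul lam_prime)
open Pool.Agent.H11.LQ Pool.Agent.H78.PG

private theorem L1_pow {R : Type*} [CommSemiring R] (T : Finset ℕ) (r : ℕ) (h : ℕ → R) :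
    ∑ q ∈ Fintype.piFinset (fun _ : Fin r => T), ∏ i, h (q i) = (∑ t ∈ T, h t) ^ r := by
  rw [← Finset.prod_univ_sum (fun _ : Fin r => T) (fun _ t => h t)]
  simp

/-- The number of solutions of `b y' = a y`. -/
private theorem L1_cnt (m Y a b : ℕ) (ha : 0 < a) (hb : 0 < b) :
    ∑ y ∈ cop m Y, (((cop m Y).filter (fun y' => b * y' = a * y)).card : ℝ) ≤
      Y * ((Nat.gcd a b : ℝ) / b) := by
  obtain ⟨a', b', hco, ea, eb⟩ := Nat.exists_coprime a b
  obtain ⟨g, hg⟩ : ∃ g, g = Nat.gcd a b := ⟨_, rfl⟩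
  rw [← hg] at ea eb ⊢
  have hg0 : 0 < g := by
    rw [hg]
    exact Nat.gcd_pos_of_pos_left _ ha
  have hb0 : 0 < b' := by
    rcases Nat.eq_zero_or_pos b' with h | h
    · rw [h, zero_mul] at eb
      omega
    · exact h
  have h1 : ∀ y ∈ cop m Y, (((cop m Y).filter (fun y' => b * y' = a * y)).card : ℝ) ≤
      if b' ∣ y then (1 : ℝ) else 0 := by
    intro y _
    split_ifs with hd
    · have : ((cop m Y).filter (fun y' => b * y' = a * y)).card ≤ 1 := by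
        rw [Finset.card_le_one]
        intro u hu v hv
        rw [mem_filter] at hu hv
        exact Nat.eq_of_mul_eq_mul_left hb (hu.2.trans hv.2.symm)
      exact_mod_cast this
    · have : (cop m Y).filter (fun y' => b * y' = a * y) = ∅ := by
        rw [Finset.filter_eq_empty_iff]
        intro y' _ he
        apply hd
        rw [ea, eb] at he
        have h2 : b' * y' = a' * y := by
          apply Nat.eq_of_mul_eq_mul_left hg0
          calc g * (b' * y') = b' * g * y' := by ring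
            _ = a' * g * y := he
            _ = g * (a' * y) := by ring
        have h3 : b' ∣ a' * y := ⟨y', h2.symm⟩
        exact hco.symm.dvd_of_dvd_mul_left h3
      rw [this]
      simp
  have h2 : ((cop m Y).filter (fun y => b' ∣ y)).card ≤ Y / b' := by
    rw [← Nat.Ioc_filter_dvd_card_eq_div Y b']
    refine Finset.card_le_card ?_
    intro y hy
    unfold cop at hy
    rw [mem_filter, mem_filter, mem_Icc] at hy
    rw [mem_filter, mem_Ioc]
    exact ⟨⟨hy.1.1.1, hy.1.1.2⟩, hy.2⟩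
  have hb0' : (0 : ℝ) < b' := by exact_mod_cast hb0
  have hg0' : (0 : ℝ) < g := by exact_mod_cast hg0
  calc ∑ y ∈ cop m Y, (((cop m Y).filter (fun y' => b * y' = a * y)).card : ℝ)
      ≤ ∑ y ∈ cop m Y, (if b' ∣ y then (1 : ℝ) else 0) := sum_le_sum h1
    _ = (((cop m Y).filter (fun y => b' ∣ y)).card : ℝ) := by
        rw [Finset.sum_boole]
    _ ≤ ((Y / b' : ℕ) : ℝ) := by exact_mod_cast h2
    _ ≤ (Y : ℝ) / b' := Nat.cast_div_le
    _ = Y * ((g : ℝ) / b) := by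
        rw [eb]
        push_cast
        field_simp

private theorem L1_gcd_prod {ι : Type*} (a : ℕ) (b : ι → ℕ) (s : Finset ι) :
    Nat.gcd a (∏ j ∈ s, b j) ∣ ∏ j ∈ s, Nat.gcd a (b j) := by
  classical
  induction s using Finset.induction_on with
  | empty => simp
  | insert i s hi ih =>
    rw [prod_insert hi, prod_insert hi]
    exact (Nat.gcd_mul_right_dvd_mul_gcd a (b i) _).trans (mul_dvd_mul_left _ ih)

private theorem L1_gcd (r : ℕ) (q q' : Fin r → ℕ) (hq : ∀ i, (q i).Prime)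
    (hq' : ∀ i, (q' i).Prime) :
    ((Nat.gcd (∏ i, q i) (∏ i, q' i) : ℕ) : ℝ) / ((∏ i, q' i : ℕ) : ℝ) ≤
      ∏ j, (if q' j ∈ univ.image q then (1 : ℝ) else 1 / (q' j : ℝ)) := by
  have h1 : Nat.gcd (∏ i, q i) (∏ i, q' i) ∣ ∏ j, (if q' j ∈ univ.image q then q' j else 1) := by
    refine (L1_gcd_prod _ _ _).trans (Finset.prod_dvd_prod_of_dvd _ _ fun j _ => ?_)
    split_ifs with h
    · exact Nat.gcd_dvd_right _ _
    · rw [Nat.dvd_one]
      have h2 : ¬ q' j ∣ ∏ i, q i := by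
        intro hd
        obtain ⟨i, _, hi⟩ := (Nat.Prime.prime (hq' j)).exists_mem_finset_dvd hd
        apply h
        rw [mem_image]
        exact ⟨i, mem_univ _, ((Nat.prime_dvd_prime_iff_eq (hq' j) (hq i)).1 hi).symm⟩
      exact (((hq' j).coprime_iff_not_dvd).2 h2).symm
  have h3 : 0 < ∏ j, (if q' j ∈ univ.image q then q' j else 1) := by
    refine Finset.prod_pos fun j _ => ?_
    split_ifs
    · exact (hq' j).pos
    · exact one_pos
  have h4 : (Nat.gcd (∏ i, q i) (∏ i, q' i) : ℝ) ≤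
      ((∏ j, (if q' j ∈ univ.image q then q' j else 1) : ℕ) : ℝ) := by
    exact_mod_cast Nat.le_of_dvd h3 h1
  have h5 : (0 : ℝ) < ((∏ i, q' i : ℕ) : ℝ) := by
    exact_mod_cast Finset.prod_pos fun j _ => (hq' j).pos
  rw [div_le_iff₀ h5]
  refine h4.trans (le_of_eq ?_)
  push_cast
  rw [← Finset.prod_mul_distrib]
  refine Finset.prod_congr rfl fun j _ => ?_
  have hj : (q' j : ℝ) ≠ 0 := by exact_mod_cast (hq' j).pos.ne'
  split_ifs
  · rw [one_mul]
  · rw [one_div, inv_mul_cancel₀ hj]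

/-- The sum over the second tuple. -/
private theorem L1_inner (T : Finset ℕ) (r : ℕ) (q : Fin r → ℕ) (hT : ∀ t ∈ T, t.Prime)
    (hq : ∀ i, (q i).Prime) :
    ∑ q' ∈ Fintype.piFinset (fun _ : Fin r => T),
      ((Nat.gcd (∏ i, q i) (∏ i, q' i) : ℕ) : ℝ) / ((∏ i, q' i : ℕ) : ℝ) ≤
      ((∑ t ∈ T, 1 / (t : ℝ)) + r) ^ r := by
  have h1 : ∀ q' ∈ Fintype.piFinset (fun _ : Fin r => T),
      ((Nat.gcd (∏ i, q i) (∏ i, q' i) : ℕ) : ℝ) / ((∏ i, q' i : ℕ) : ℝ) ≤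
      ∏ j, (if q' j ∈ univ.image q then (1 : ℝ) else 1 / (q' j : ℝ)) := by
    intro q' hq'
    rw [Fintype.mem_piFinset] at hq'
    exact L1_gcd r q q' hq fun i => hT _ (hq' i)
  refine (sum_le_sum h1).trans ?_
  rw [L1_pow T r (fun t => if t ∈ univ.image q then (1 : ℝ) else 1 / (t : ℝ))]
  have h2 : ∀ t ∈ T, (if t ∈ univ.image q then (1 : ℝ) else 1 / (t : ℝ)) ≤
      1 / (t : ℝ) + if t ∈ univ.image q then (1 : ℝ) else 0 := by
    intro t _
    have : (0 : ℝ) ≤ 1 / (t : ℝ) := by positivity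
    split_ifs <;> linarith
  have h3 : ∑ t ∈ T, (if t ∈ univ.image q then (1 : ℝ) else 0) ≤ r := by
    rw [Finset.sum_boole]
    have : (T.filter (fun t => t ∈ univ.image q)).card ≤ r := by
      calc (T.filter (fun t => t ∈ univ.image q)).card ≤ (univ.image q).card :=
            Finset.card_le_card fun t ht => (mem_filter.1 ht).2
        _ ≤ (univ : Finset (Fin r)).card := Finset.card_image_le
        _ = r := by simp
    exact_mod_cast this
  have h4 : 0 ≤ ∑ t ∈ T, (if t ∈ univ.image q then (1 : ℝ) else 1 / (t : ℝ)) := by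
    refine sum_nonneg fun t _ => ?_
    split_ifs
    · exact zero_le_one
    · positivity
  refine pow_le_pow_left₀ h4 ?_ r
  refine (sum_le_sum h2).trans ?_
  rw [sum_add_distrib]
  linarith

theorem large_value (m : ℕ) [NeZero m] (X : Finset (DirichletCharacter ℂ m)) (T : Finset ℕ)
    (Z Θ : ℝ) (hΘ : 0 ≤ Θ) (r Y : ℕ) (hT : ∀ q ∈ T, q.Prime ∧ ¬ q ∣ m ∧ (q : ℝ) ≤ Z)
    (hY : Z ^ r * Y ≤ m) (f : ℕ → ℂ) (hf : ∀ y, ‖f y‖ ≤ 1)
    (hX : ∀ χ ∈ X, Θ ≤ ‖∑ q ∈ T, χ (q : ZMod m)‖) :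
    Θ ^ (2 * r) * ∑ χ ∈ X, ‖∑ y ∈ cop m Y, f y * χ (y : ZMod m)‖ ^ 2
      ≤ (m.totient : ℝ) * (Z ^ r * Y) *
        ((∑ q ∈ T, 1 / (q : ℝ)) * ((∑ q ∈ T, 1 / (q : ℝ)) + r)) ^ r := by
  classical
  obtain ⟨W, hW⟩ : ∃ W : ℝ, W = ∑ q ∈ T, 1 / (q : ℝ) := ⟨_, rfl⟩
  rw [← hW]
  have hW0 : 0 ≤ W := by
    rw [hW]
    exact sum_nonneg fun t _ => by positivity
  obtain ⟨P, hP⟩ : ∃ P : Finset (Fin r → ℕ), P = Fintype.piFinset (fun _ : Fin r => T) := ⟨_, rfl⟩
  have hPm : ∀ q ∈ P, ∀ i, q i ∈ T := fun q hq => by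
    rw [hP, Fintype.mem_piFinset] at hq
    exact hq
  obtain ⟨A, hA⟩ : ∃ A : Finset ((Fin r → ℕ) × ℕ), A = P ×ˢ cop m Y := ⟨_, rfl⟩
  obtain ⟨g, hg⟩ : ∃ g : ((Fin r → ℕ) × ℕ) → ℕ, g = fun x => (∏ i, x.1 i) * x.2 := ⟨_, rfl⟩
  obtain ⟨a, ha⟩ : ∃ a : ℕ → ℂ, a = fun n => ∑ x ∈ A.filter (fun x => g x = n), f x.2 := ⟨_, rfl⟩
  have hpr : ∀ q ∈ P, ((∏ i, q i : ℕ) : ℝ) ≤ Z ^ r := by
    intro q hq
    push_cast
    calc ∏ i, (q i : ℝ) ≤ ∏ _i : Fin r, Z :=
          Finset.prod_le_prod (fun i _ => by positivity) fun i _ => (hT _ (hPm q hq i)).2.2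
      _ = Z ^ r := by simp
  have hpp : ∀ q ∈ P, 0 < ∏ i, q i := fun q hq =>
    Finset.prod_pos fun i _ => (hT _ (hPm q hq i)).1.pos
  -- the range of `g`
  have hgS : ∀ x ∈ A, g x ∈ cop m m := by
    intro x hx
    rw [hA, mem_product] at hx
    have hx1 := hx.1
    have hx2 := hx.2
    unfold cop at hx2 ⊢
    rw [mem_filter, mem_Icc] at hx2 ⊢
    rw [hg]
    have hco : (∏ i, x.1 i).Coprime m := Nat.Coprime.prod_left fun i _ =>
      ((hT _ (hPm _ hx1 i)).1.coprime_iff_not_dvd).2 (hT _ (hPm _ hx1 i)).2.1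
    refine ⟨⟨Nat.mul_pos (hpp _ hx1) hx2.1.1, ?_⟩, hco.mul_left hx2.2⟩
    have h1 : (((∏ i, x.1 i) * x.2 : ℕ) : ℝ) ≤ m := by
      rw [Nat.cast_mul]
      calc ((∏ i, x.1 i : ℕ) : ℝ) * x.2 ≤ Z ^ r * Y := by
            refine mul_le_mul (hpr _ hx1) ?_ (by positivity) ?_
            · exact_mod_cast hx2.1.2
            · exact le_trans (by positivity) (hpr _ hx1)
        _ ≤ m := hY
    exact_mod_cast h1
  -- the product of the two sums
  have hprod : ∀ χ : DirichletCharacter ℂ m,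
      (∑ q ∈ T, χ (q : ZMod m)) ^ r * ∑ y ∈ cop m Y, f y * χ (y : ZMod m) =
        ∑ n ∈ cop m m, a n * χ (n : ZMod m) := by
    intro χ
    rw [← L1_pow T r (fun t => χ (t : ZMod m)), ← hP, Finset.sum_mul_sum, ← Finset.sum_product',
      ← hA, ← Finset.sum_fiberwise_of_maps_to hgS]
    refine Finset.sum_congr rfl fun n _ => ?_
    rw [ha]
    simp only
    rw [Finset.sum_mul]
    refine Finset.sum_congr rfl fun x hx => ?_
    rw [← (mem_filter.1 hx).2, hg]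
    simp only
    rw [Nat.cast_mul, map_mul, Nat.cast_prod, map_prod]
    ring
  -- the left side
  have hleft : Θ ^ (2 * r) * ∑ χ ∈ X, ‖∑ y ∈ cop m Y, f y * χ (y : ZMod m)‖ ^ 2 ≤
      ∑ χ : DirichletCharacter ℂ m, ‖∑ n ∈ cop m m, a n * χ (n : ZMod m)‖ ^ 2 := by
    rw [Finset.mul_sum]
    refine le_trans (sum_le_sum (g := fun χ : DirichletCharacter ℂ m =>
      ‖∑ n ∈ cop m m, a n * χ (n : ZMod m)‖ ^ 2) fun χ hχ => ?_)
      (sum_le_sum_of_subset_of_nonneg (subset_univ X) fun χ _ _ => by positivity)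
    rw [← hprod, norm_mul, norm_pow, mul_pow, ← pow_mul, mul_comm r 2]
    refine mul_le_mul_of_nonneg_right ?_ (by positivity)
    exact pow_le_pow_left₀ hΘ (hX χ hχ) _
  have hort := ortho_coef m (cop m m) (fun s hs => by
    unfold cop at hs
    rw [mem_filter, mem_Icc] at hs
    exact ⟨hs.2, hs.1.1, hs.1.2⟩) a
  rw [hort] at hleft
  refine hleft.trans ?_
  rw [mul_assoc]
  refine mul_le_mul_of_nonneg_left ?_ (by positivity)
  -- the count
  have hc1 : ∀ n ∈ cop m m, ‖a n‖ ^ 2 ≤ ∑ x ∈ A.filter (fun x => g x = n),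
      ((A.filter (fun x' => g x' = g x)).card : ℝ) := by
    intro n _
    have h1 : ‖a n‖ ≤ ((A.filter (fun x => g x = n)).card : ℝ) := by
      rw [ha]
      refine (norm_sum_le _ _).trans ?_
      refine (sum_le_sum fun x _ => hf x.2).trans (le_of_eq ?_)
      rw [sum_const, nsmul_eq_mul, mul_one]
    have h2 : ∑ x ∈ A.filter (fun x => g x = n),
        ((A.filter (fun x' => g x' = g x)).card : ℝ) =
        ((A.filter (fun x => g x = n)).card : ℝ) ^ 2 := by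
      rw [Finset.sum_congr rfl (g := fun _ => ((A.filter (fun x => g x = n)).card : ℝ))
        fun x hx => by rw [(mem_filter.1 hx).2]]
      rw [sum_const, nsmul_eq_mul, sq]
    rw [h2]
    exact pow_le_pow_left₀ (norm_nonneg _) h1 2
  refine (sum_le_sum hc1).trans ?_
  rw [Finset.sum_fiberwise_of_maps_to hgS, hA, Finset.sum_product]
  have hc2 : ∀ q ∈ P, ∑ y ∈ cop m Y,
      (((P ×ˢ cop m Y).filter (fun x' => g x' = g (q, y))).card : ℝ) ≤
      Z ^ r * Y * (1 / ((∏ i, q i : ℕ) : ℝ)) * (W + r) ^ r := by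
    intro q hq
    have e1 : ∀ y : ℕ, (((P ×ˢ cop m Y).filter (fun x' => g x' = g (q, y))).card : ℝ) =
        ∑ q' ∈ P, (((cop m Y).filter (fun y' => (∏ i, q' i) * y' = (∏ i, q i) * y)).card : ℝ) := by
      intro y
      rw [← Finset.sum_boole, Finset.sum_product]
      refine Finset.sum_congr rfl fun q' _ => ?_
      rw [← Finset.sum_boole]
      refine Finset.sum_congr rfl fun y' _ => ?_
      rw [hg]
    rw [Finset.sum_congr rfl fun y _ => e1 y, Finset.sum_comm]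
    have hq0 : (0 : ℝ) < ((∏ i, q i : ℕ) : ℝ) := by exact_mod_cast hpp q hq
    calc ∑ q' ∈ P, ∑ y ∈ cop m Y,
          (((cop m Y).filter (fun y' => (∏ i, q' i) * y' = (∏ i, q i) * y)).card : ℝ)
        ≤ ∑ q' ∈ P, (Y : ℝ) * (((Nat.gcd (∏ i, q i) (∏ i, q' i) : ℕ) : ℝ) /
            ((∏ i, q' i : ℕ) : ℝ)) :=
          sum_le_sum fun q' hq' => L1_cnt m Y _ _ (hpp q hq) (hpp q' hq')
      _ = (Y : ℝ) * ∑ q' ∈ P, (((Nat.gcd (∏ i, q i) (∏ i, q' i) : ℕ) : ℝ) /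
            ((∏ i, q' i : ℕ) : ℝ)) := by rw [Finset.mul_sum]
      _ ≤ (Y : ℝ) * (W + r) ^ r := by
          refine mul_le_mul_of_nonneg_left ?_ (by positivity)
          rw [hW, hP]
          exact L1_inner T r q (fun t ht => (hT t ht).1) fun i => (hT _ (hPm q hq i)).1
      _ ≤ Z ^ r * Y * (1 / ((∏ i, q i : ℕ) : ℝ)) * (W + r) ^ r := by
          refine mul_le_mul_of_nonneg_right ?_ (by positivity)
          rw [mul_one_div, le_div_iff₀ hq0, mul_comm]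
          exact mul_le_mul_of_nonneg_right (hpr q hq) (by positivity)
  refine (sum_le_sum hc2).trans (le_of_eq ?_)
  rw [← Finset.sum_mul, ← Finset.mul_sum]
  have h7 : ∑ q ∈ P, 1 / ((∏ i, q i : ℕ) : ℝ) = W ^ r := by
    rw [hW, hP, ← L1_pow T r (fun t => 1 / (t : ℝ))]
    refine Finset.sum_congr rfl fun q _ => ?_
    rw [Nat.cast_prod, Finset.prod_div_distrib, Finset.prod_const_one]
  rw [h7, mul_pow]
  ring

end Pool.Agent.H78.PD
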