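import Pool.Agent.H78.PD.BNum
import Pool.Agent.H78.PD.L1

/-!
# PD, LspU: the large sieve property of `UU`

`UU = ∪_{j < J} U_j`, `U_j = {|∑_{TB j} χ(p)| ≥ (aj j)^(1-α)}`.  `P ≥ exp(3x²) ≥ aj J ≥ a := aj (j+1)`, `r ≥ 1` with `a^r ≤ P < a^(r+1)`; `large_value` with `T = TB j`, `Z = a`, `Θ = (aj j)^(1-α)`,
`W ≤ #{integers in (aj j, a]}/aj j ≤ 1/H + 1/aj j ≤ 1`, `a^r Y ≤ P Y ≤ m/2`:
`∑_{U_j} ≤ φ a^r (m/(2P)) (1+r)^r (aj j)^(-2r(1-α))`, `aj j ≥ a/2`, so `(aj j)^(-2r(1-α)) ≤ 4^r a^(-2r(1-α))` and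
`∑_{U_j} ≤ φ (m/(2P)) a^(-r) a^(2rα) (4(1+r))^r ≤ φ (m/(2P)) (a/P) P^(2α) P^b`, as `4(1+r) ≤ 4(2 + log P2) ≤ exp(b x) ≤ a^b` (`r ≤ log P ≤ log P2`).  Sum over `j`:
`≤ (J/2) aj J φ m P^(-2+2α+b)` and `J aj J ≤ x³ exp(3x²) ≤ exp(4x²)`.
-/

set_option autoImplicit false

namespace Pool.Agent.H78.PD

open Finset
open Pool.Agent.H34PG (lam lam_val lam_mul lam_prime)
open Pool.Agent.H11.LQ Pool.Agent.H78.PG

private theorem LspU_exp_le (x : ℝ) (j : ℕ) : Real.exp x ≤ aj x j := by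
  unfold aj
  have h1 : (1 : ℝ) ≤ (1 + 1 / (Hn x : ℝ)) ^ j := by
    apply one_le_pow₀
    have : (0 : ℝ) ≤ 1 / (Hn x : ℝ) := by positivity
    linarith
  nlinarith [Real.exp_pos x]

private theorem LspU_succ (x : ℝ) (j : ℕ) : aj x (j + 1) = aj x j * (1 + 1 / (Hn x : ℝ)) := by
  unfold aj
  rw [pow_succ]
  ring

private theorem LspU_W (m : ℕ) (x : ℝ) (j : ℕ) (hH : 2 ≤ Hn x) (hx : 3 ≤ x) :
    ∑ q ∈ TB m x j, 1 / (q : ℝ) ≤ 1 := by
  have hH' : (2 : ℝ) ≤ (Hn x : ℝ) := by exact_mod_cast hH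
  have hA : Real.exp x ≤ aj x j := LspU_exp_le x j
  have h4 : x + 1 ≤ Real.exp x := Real.add_one_le_exp x
  have ha0 := aj_pos x j
  have hsub : TB m x j ⊆ Ioc ⌊aj x j⌋₊ ⌊aj x (j + 1)⌋₊ := by
    intro q hq
    rw [mem_TB] at hq
    rw [mem_Ioc]
    exact ⟨(Nat.floor_lt ha0.le).mpr hq.2.2.1, (Nat.le_floor_iff (aj_pos _ _).le).mpr hq.2.2.2⟩
  have hcard : ((TB m x j).card : ℝ) ≤ aj x (j + 1) - aj x j + 1 := by
    have h1 : (TB m x j).card ≤ ⌊aj x (j + 1)⌋₊ - ⌊aj x j⌋₊ := by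
      have := card_le_card hsub
      rwa [Nat.card_Ioc] at this
    have h2 : ⌊aj x j⌋₊ ≤ ⌊aj x (j + 1)⌋₊ := Nat.floor_le_floor (aj_mono x (Nat.le_succ j))
    have h3 : ((TB m x j).card : ℝ) ≤ (⌊aj x (j + 1)⌋₊ : ℝ) - (⌊aj x j⌋₊ : ℝ) := by
      have h4 : ((TB m x j).card : ℝ) ≤ ((⌊aj x (j + 1)⌋₊ - ⌊aj x j⌋₊ : ℕ) : ℝ) := by
        exact_mod_cast h1
      rwa [Nat.cast_sub h2] at h4
    have h5 := Nat.floor_le (aj_pos x (j + 1)).le
    have h6 := Nat.lt_floor_add_one (aj x j)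
    linarith
  have hterm : ∀ q ∈ TB m x j, 1 / (q : ℝ) ≤ 1 / aj x j := by
    intro q hq
    rw [mem_TB] at hq
    exact one_div_le_one_div_of_le ha0 hq.2.2.1.le
  calc ∑ q ∈ TB m x j, 1 / (q : ℝ) ≤ ∑ q ∈ TB m x j, 1 / aj x j := sum_le_sum hterm
    _ = ((TB m x j).card : ℝ) * (1 / aj x j) := by rw [sum_const, nsmul_eq_mul]
    _ ≤ (aj x (j + 1) - aj x j + 1) * (1 / aj x j) :=
        mul_le_mul_of_nonneg_right hcard (by positivity)
    _ = 1 / (Hn x : ℝ) + 1 / aj x j := by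
        rw [LspU_succ]
        field_simp
        ring
    _ ≤ 1 / 2 + 1 / 2 := by
        apply add_le_add
        · exact one_div_le_one_div_of_le (by norm_num) hH'
        · exact one_div_le_one_div_of_le (by norm_num) (by linarith)
    _ = 1 := by norm_num

private theorem LspU_biUnion {ι β : Type*} [DecidableEq ι] [DecidableEq β] (s : Finset ι)
    (U : ι → Finset β) (g : β → ℝ) (hg : ∀ a, 0 ≤ g a) :
    ∑ a ∈ s.biUnion U, g a ≤ ∑ j ∈ s, ∑ a ∈ U j, g a := by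
  induction s using Finset.induction_on with
  | empty => simp
  | insert j s hj ih =>
    rw [biUnion_insert, sum_insert hj]
    have h := sum_union_inter (s₁ := U j) (s₂ := s.biUnion U) (f := g)
    have h0 : 0 ≤ ∑ a ∈ U j ∩ s.biUnion U, g a := sum_nonneg fun a _ => hg a
    linarith

/-- the choice of the exponent -/
private theorem LspU_r {a P : ℝ} (ha : 1 < a) (hP : a ≤ P) :
    ∃ r : ℕ, 1 ≤ r ∧ a ^ r ≤ P ∧ P < a ^ (r + 1) := by
  obtain ⟨n, hn1, hn2⟩ := exists_nat_pow_near (ha.le.trans hP) ha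
  refine ⟨n, ?_, hn1, hn2⟩
  rcases Nat.eq_zero_or_pos n with h | h
  · subst h
    simp only [zero_add, pow_one] at hn2
    linarith
  · exact h

private theorem LspU_block (m : ℕ) [NeZero m] (x α b P2 P : ℝ) (j : ℕ) (hH : 2 ≤ Hn x)
    (hx : 3 ≤ x) (hα0 : 0 ≤ α) (hα1 : α ≤ 1) (hb : 0 ≤ b)
    (hP2 : 4 * (2 + Real.log P2) ≤ Real.exp (b * x)) (haP : aj x (j + 1) ≤ P) (hPP : P ≤ P2)
    (X : Finset (DirichletCharacter ℂ m))
    (hX : ∀ χ ∈ X, aj x j ^ (1 - α) ≤ ‖∑ p ∈ TB m x j, χ (p : ZMod m)‖)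
    (Y : ℕ) (hY : 2 * P * Y ≤ m) (f : ℕ → ℂ) (hf : ∀ y, ‖f y‖ ≤ 1) :
    ∑ χ ∈ X, ‖∑ y ∈ cop m Y, f y * χ (y : ZMod m)‖ ^ 2
      ≤ 1 / 2 * m.totient * m * aj x (j + 1) * P ^ (-2 + (2 * α + b)) := by
  have hA : Real.exp x ≤ aj x j := LspU_exp_le x j
  have hA1 : Real.exp x ≤ aj x (j + 1) := LspU_exp_le x (j + 1)
  have h4 : x + 1 ≤ Real.exp x := Real.add_one_le_exp x
  have ha0 := aj_pos x j
  have hH' : (2 : ℝ) ≤ (Hn x : ℝ) := by exact_mod_cast hH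
  have hhalf : aj x (j + 1) ≤ 2 * aj x j := by
    rw [LspU_succ]
    have h1 : 1 / (Hn x : ℝ) ≤ 1 / 2 := one_div_le_one_div_of_le (by norm_num) hH'
    nlinarith
  have hW := LspU_W m x j hH hx
  have hW0 : 0 ≤ ∑ q ∈ TB m x j, 1 / (q : ℝ) := sum_nonneg fun q _ => by positivity
  have hTq : ∀ q ∈ TB m x j, q.Prime ∧ ¬ q ∣ m ∧ (q : ℝ) ≤ aj x (j + 1) := by
    intro q hq
    rw [mem_TB] at hq
    exact ⟨hq.1, hq.2.1, hq.2.2.2⟩
  obtain ⟨a, ha⟩ : ∃ a, a = aj x (j + 1) := ⟨_, rfl⟩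
  obtain ⟨c, hc⟩ : ∃ c, c = aj x j := ⟨_, rfl⟩
  rw [← ha] at hA1 hhalf haP hTq ⊢
  rw [← hc] at hA hhalf hX ha0
  have ha1 : 1 < a := by linarith
  obtain ⟨r, hr1, hrP, hPr⟩ := LspU_r ha1 haP
  have hP0 : 0 < P := by linarith
  have hP1 : 1 < P := by linarith
  have hapos : 0 < a := by linarith
  have hYr : a ^ r * (Y : ℝ) ≤ m := by
    have h1 : a ^ r * (Y : ℝ) ≤ P * Y := mul_le_mul_of_nonneg_right hrP (Nat.cast_nonneg _)
    have h2 : (0 : ℝ) ≤ P * Y := by positivity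
    linarith
  have hΘ : 0 ≤ c ^ (1 - α) := by positivity
  have hlv := large_value m X (TB m x j) a (c ^ (1 - α)) hΘ r Y hTq hYr f hf hX
  obtain ⟨W, hWd⟩ : ∃ W, W = ∑ q ∈ TB m x j, 1 / (q : ℝ) := ⟨_, rfl⟩
  rw [← hWd] at hlv hW hW0
  obtain ⟨S, hS⟩ : ∃ S, S = ∑ χ ∈ X, ‖∑ y ∈ cop m Y, f y * χ (y : ZMod m)‖ ^ 2 := ⟨_, rfl⟩
  rw [← hS] at hlv ⊢
  -- the size of `r`
  have hlogr : (r : ℝ) ≤ Real.log P2 := by
    have h1 : Real.log (a ^ r) ≤ Real.log P2 :=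
      Real.log_le_log (by positivity) (hrP.trans hPP)
    rw [Real.log_pow] at h1
    have h2 : (1 : ℝ) ≤ Real.log a := by
      have h3 : Real.log (Real.exp x) ≤ Real.log a := Real.log_le_log (Real.exp_pos x) hA1
      rw [Real.log_exp] at h3
      linarith
    have h3 : (0 : ℝ) ≤ (r : ℝ) := Nat.cast_nonneg _
    nlinarith
  have hrb : 4 * (1 + (r : ℝ)) ≤ a ^ b := by
    have h1 : Real.exp (b * x) ≤ a ^ b := by
      have h2 : Real.exp (b * x) = (Real.exp x) ^ b := by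
        rw [← Real.exp_mul, mul_comm]
      rw [h2]
      exact Real.rpow_le_rpow (Real.exp_pos x).le hA1 hb
    linarith
  have hr0 : (0 : ℝ) ≤ (r : ℝ) := Nat.cast_nonneg _
  have hWr : (W * (W + r)) ^ r ≤ (1 + (r : ℝ)) ^ r := by
    apply pow_le_pow_left₀ (by positivity)
    nlinarith
  have hYP : (Y : ℝ) ≤ m / (2 * P) := by
    rw [le_div_iff₀ (by positivity)]
    linarith
  have hm0 : (0 : ℝ) ≤ (m : ℝ) := Nat.cast_nonneg _
  have hphi0 : (0 : ℝ) ≤ (m.totient : ℝ) := Nat.cast_nonneg _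
  -- the main estimate
  have hmain : (c ^ (1 - α)) ^ (2 * r) * S ≤
      (m.totient : ℝ) * (a ^ r * (m / (2 * P))) * (1 + (r : ℝ)) ^ r := by
    refine hlv.trans ?_
    apply mul_le_mul _ hWr (by positivity) (by positivity)
    apply mul_le_mul_of_nonneg_left _ hphi0
    exact mul_le_mul_of_nonneg_left hYP (by positivity)
  -- a lower bound for the power of `c`
  have hclow : a ^ (2 * (r : ℝ)) * a ^ (-(2 * (r : ℝ) * α)) ≤ 4 ^ r * (c ^ (1 - α)) ^ (2 * r) := by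
    have h1 : a ^ (1 - α) ≤ 2 * c ^ (1 - α) := by
      calc a ^ (1 - α) ≤ (2 * c) ^ (1 - α) :=
            Real.rpow_le_rpow hapos.le hhalf (by linarith)
        _ = (2 : ℝ) ^ (1 - α) * c ^ (1 - α) := Real.mul_rpow (by norm_num) ha0.le
        _ ≤ 2 * c ^ (1 - α) := by
            apply mul_le_mul_of_nonneg_right _ hΘ
            calc (2 : ℝ) ^ (1 - α) ≤ (2 : ℝ) ^ (1 : ℝ) :=
                  Real.rpow_le_rpow_of_exponent_le (by norm_num) (by linarith)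
              _ = 2 := Real.rpow_one 2
    have h2 : (a ^ (1 - α)) ^ (2 * r) ≤ (2 * c ^ (1 - α)) ^ (2 * r) :=
      pow_le_pow_left₀ (by positivity) h1 _
    have h3 : (a ^ (1 - α)) ^ (2 * r) = a ^ (2 * (r : ℝ)) * a ^ (-(2 * (r : ℝ) * α)) := by
      rw [← Real.rpow_natCast, ← Real.rpow_mul hapos.le, ← Real.rpow_add hapos]
      congr 1
      push_cast
      ring
    have h5 : (2 * c ^ (1 - α)) ^ (2 * r) = 4 ^ r * (c ^ (1 - α)) ^ (2 * r) := by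
      rw [mul_pow, pow_mul (2 : ℝ) 2 r]
      norm_num
    rw [← h3, ← h5]
    exact h2
  have hS0 : 0 ≤ S := by
    rw [hS]
    exact sum_nonneg fun _ _ => by positivity
  -- combine
  have hcomb : a ^ (2 * (r : ℝ)) * a ^ (-(2 * (r : ℝ) * α)) * S ≤
      (m.totient : ℝ) * (m / (2 * P)) * (a ^ r * (4 * (1 + (r : ℝ))) ^ r) := by
    calc a ^ (2 * (r : ℝ)) * a ^ (-(2 * (r : ℝ) * α)) * S
        ≤ 4 ^ r * (c ^ (1 - α)) ^ (2 * r) * S := mul_le_mul_of_nonneg_right hclow hS0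
      _ = 4 ^ r * ((c ^ (1 - α)) ^ (2 * r) * S) := by ring
      _ ≤ 4 ^ r * ((m.totient : ℝ) * (a ^ r * (m / (2 * P))) * (1 + (r : ℝ)) ^ r) :=
          mul_le_mul_of_nonneg_left hmain (by positivity)
      _ = (m.totient : ℝ) * (m / (2 * P)) * (a ^ r * (4 * (1 + (r : ℝ))) ^ r) := by
          rw [mul_pow]
          ring
  have har : a ^ (2 * (r : ℝ)) = a ^ r * a ^ r := by
    rw [← pow_add, ← Real.rpow_natCast]
    congr 1
    push_cast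
    ring
  have har0 : 0 < a ^ r := by positivity
  have hneg : a ^ (-(2 * (r : ℝ) * α)) = (a ^ (2 * (r : ℝ) * α))⁻¹ := Real.rpow_neg hapos.le _
  have hpos1 : 0 < a ^ (2 * (r : ℝ) * α) := Real.rpow_pos_of_pos hapos _
  have hkey : a ^ r * S ≤
      (m.totient : ℝ) * (m / (2 * P)) * (a ^ (2 * (r : ℝ) * α) * (4 * (1 + (r : ℝ))) ^ r) := by
    rw [har, hneg] at hcomb
    have h1 : a ^ r * (a ^ r * S) ≤ a ^ r * ((m.totient : ℝ) * (m / (2 * P)) *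
        (a ^ (2 * (r : ℝ) * α) * (4 * (1 + (r : ℝ))) ^ r)) := by
      have h2 := mul_le_mul_of_nonneg_left hcomb hpos1.le
      have h3 : a ^ (2 * (r : ℝ) * α) * (a ^ r * a ^ r * (a ^ (2 * (r : ℝ) * α))⁻¹ * S) =
          a ^ r * (a ^ r * S) := by
        field_simp
      rw [h3] at h2
      refine h2.trans (le_of_eq ?_)
      ring
    exact le_of_mul_le_mul_left h1 har0
  have hpa : a ^ (2 * (r : ℝ) * α) ≤ P ^ (2 * α) := by
    have h1 : a ^ (2 * (r : ℝ) * α) = (a ^ r) ^ (2 * α) := by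
      rw [← Real.rpow_natCast a r, ← Real.rpow_mul hapos.le]
      congr 1
      ring
    rw [h1]
    exact Real.rpow_le_rpow har0.le hrP (by linarith)
  have hpb : (4 * (1 + (r : ℝ))) ^ r ≤ P ^ b := by
    calc (4 * (1 + (r : ℝ))) ^ r ≤ (a ^ b) ^ r := pow_le_pow_left₀ (by positivity) hrb _
      _ = (a ^ r) ^ b := by
          rw [← Real.rpow_natCast (a ^ b) r, ← Real.rpow_mul hapos.le,
            ← Real.rpow_natCast a r, ← Real.rpow_mul hapos.le, mul_comm]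
      _ ≤ P ^ b := Real.rpow_le_rpow har0.le hrP hb
  have hfin : a ^ r * S ≤ (m.totient : ℝ) * (m / (2 * P)) * (P ^ (2 * α) * P ^ b) := by
    refine hkey.trans (mul_le_mul_of_nonneg_left ?_ (by positivity))
    exact mul_le_mul hpa hpb (by positivity) (by positivity)
  have hPS : P * S ≤ a * (a ^ r * S) := by
    have h1 : P * S ≤ a ^ (r + 1) * S := mul_le_mul_of_nonneg_right hPr.le hS0
    rw [pow_succ] at h1
    linarith
  have hPS2 : P * S ≤ a * ((m.totient : ℝ) * (m / (2 * P)) * (P ^ (2 * α) * P ^ b)) :=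
    hPS.trans (mul_le_mul_of_nonneg_left hfin hapos.le)
  have hrw : P ^ (-2 + (2 * α + b)) = (P ^ (2 * α) * P ^ b) / P ^ 2 := by
    rw [Real.rpow_add hP0, Real.rpow_add hP0, Real.rpow_neg hP0.le]
    norm_num
    ring
  rw [hrw]
  have h6 : S ≤ a * ((m.totient : ℝ) * (m / (2 * P)) * (P ^ (2 * α) * P ^ b)) / P := by
    rw [le_div_iff₀ hP0]
    linarith
  refine h6.trans (le_of_eq ?_)
  field_simp

theorem lsp_U : ∃ x0 : ℝ, ∀ x : ℝ, x0 ≤ x → ∀ (m : ℕ) [NeZero m], ∀ α b P2 : ℝ,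
    0 ≤ α → α ≤ 1 → 0 ≤ b → 4 * (2 + Real.log P2) ≤ Real.exp (b * x) →
    LSP m (UU m x α) (Real.exp (4 * x ^ 2)) (2 * α + b) (Real.exp (3 * x ^ 2)) P2 := by
  classical
  obtain ⟨x0, h3, hb⟩ := bnum
  refine ⟨x0, fun x hx m _ α b P2 hα0 hα1 hb0 hP2 P hP1 hPP Y hY f hf => ?_⟩
  obtain ⟨hH, hJ, -, hJ2⟩ := hb x hx
  have hx3 : 3 ≤ x := h3.trans hx
  have hajJ : ∀ j ∈ range (Jn x), aj x (j + 1) ≤ aj x (Jn x) := fun j hj =>
    aj_mono x (Nat.succ_le_of_lt (mem_range.mp hj))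
  obtain ⟨g, hg⟩ : ∃ g : DirichletCharacter ℂ m → ℝ,
      g = fun χ => ‖∑ y ∈ cop m Y, f y * χ (y : ZMod m)‖ ^ 2 := ⟨_, rfl⟩
  obtain ⟨U, hU⟩ : ∃ U : ℕ → Finset (DirichletCharacter ℂ m),
      U = fun j => univ.filter (fun χ => aj x j ^ (1 - α) ≤ ‖∑ p ∈ TB m x j, χ (p : ZMod m)‖) :=
    ⟨_, rfl⟩
  have hblock : ∀ j ∈ range (Jn x), ∑ χ ∈ U j, g χ ≤
      1 / 2 * m.totient * m * aj x (Jn x) * P ^ (-2 + (2 * α + b)) := by
    intro j hj
    have h1 := LspU_block m x α b P2 P j hH hx3 hα0 hα1 hb0 hP2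
      ((hajJ j hj).trans (hJ2.trans hP1)) hPP (U j)
      (fun χ hχ => by rw [hU] at hχ; exact (mem_filter.mp hχ).2) Y hY f hf
    rw [hg]
    refine h1.trans ?_
    apply mul_le_mul_of_nonneg_right _
      (Real.rpow_nonneg ((Real.exp_pos _).le.trans hP1) _)
    exact mul_le_mul_of_nonneg_left (hajJ j hj) (by positivity)
  have hsub : UU m x α ⊆ (range (Jn x)).biUnion U := by
    intro χ hχ
    rw [mem_UU] at hχ
    obtain ⟨j, hj, h⟩ := hχ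
    rw [mem_biUnion]
    refine ⟨j, mem_range.mpr hj, ?_⟩
    rw [hU]
    exact mem_filter.mpr ⟨mem_univ _, h⟩
  have hg0 : ∀ χ, 0 ≤ g χ := fun χ => by
    rw [hg]
    positivity
  have hPr : 0 ≤ P ^ (-2 + (2 * α + b)) := Real.rpow_nonneg ((Real.exp_pos _).le.trans hP1) _
  have hsum : ∑ χ ∈ UU m x α, g χ ≤
      (Jn x : ℝ) * (1 / 2 * m.totient * m * aj x (Jn x) * P ^ (-2 + (2 * α + b))) := by
    calc ∑ χ ∈ UU m x α, g χ ≤ ∑ χ ∈ (range (Jn x)).biUnion U, g χ :=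
          sum_le_sum_of_subset_of_nonneg hsub fun χ _ _ => hg0 χ
      _ ≤ ∑ j ∈ range (Jn x), ∑ χ ∈ U j, g χ := LspU_biUnion (range (Jn x)) U g hg0
      _ ≤ ∑ j ∈ range (Jn x),
          (1 / 2 * m.totient * m * aj x (Jn x) * P ^ (-2 + (2 * α + b))) := sum_le_sum hblock
      _ = _ := by rw [sum_const, card_range, nsmul_eq_mul]
  have hexp : (Jn x : ℝ) * aj x (Jn x) ≤ Real.exp (4 * x ^ 2) := by
    have h1 : (Jn x : ℝ) * aj x (Jn x) ≤ x ^ 3 * Real.exp (3 * x ^ 2) :=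
      mul_le_mul hJ hJ2 (aj_pos _ _).le (by positivity)
    have h2 : x ^ 3 ≤ Real.exp (x ^ 2) := by
      have h4 := Real.quadratic_le_exp_of_nonneg (x := x ^ 2) (by positivity)
      nlinarith [sq_nonneg x, mul_nonneg (sq_nonneg x) (show (0 : ℝ) ≤ x - 3 by linarith),
        mul_nonneg (pow_nonneg (show (0 : ℝ) ≤ x by linarith) 3) (show (0 : ℝ) ≤ x - 3 by linarith)]
    have h5 : Real.exp (4 * x ^ 2) = Real.exp (x ^ 2) * Real.exp (3 * x ^ 2) := by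
      rw [← Real.exp_add]
      congr 1
      ring
    rw [h5]
    exact h1.trans (mul_le_mul_of_nonneg_right h2 (Real.exp_pos _).le)
  have hfinal : (Jn x : ℝ) * (1 / 2 * m.totient * m * aj x (Jn x) * P ^ (-2 + (2 * α + b))) ≤
      Real.exp (4 * x ^ 2) * m.totient * m * P ^ (-2 + (2 * α + b)) := by
    have h1 : (0 : ℝ) ≤ (m.totient : ℝ) * m * P ^ (-2 + (2 * α + b)) := by positivity
    have h2 : (0 : ℝ) ≤ (Jn x : ℝ) * aj x (Jn x) := mul_nonneg (Nat.cast_nonneg _) (aj_pos _ _).le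
    nlinarith [mul_le_mul_of_nonneg_right hexp h1, mul_nonneg h2 h1]
  rw [hg] at hsum
  exact hsum.trans hfinal

end Pool.Agent.H78.PD
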