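import Pool.Agent.H78.PD.Step
import Pool.Agent.H78.PD.LspU

/-!
# PD, Iter: iteration of the step

`x ↦ x' = exp(√x/8)`, `α' = α + 1/√x`, `b = 1/√x`.  Induction (e.g. on `n` with `4 (log log m)² ≤ x + n`; `x' ≥ x + 1`, indeed `x' ≥ 4x`).
* If `√x ≥ 2 log log m`: `U = UU m x α`; `lsp_U` with `b = 1/√x`, `P2 = m/2` (`4(2 + log m) ≤ (log m)² ≤ exp(√x)`), `P = m/2`, `Y = 1`, `f = 1`:
  `#U ≤ exp(4x²) φ m (m/2)^(-2+2α+b) ≤ 4 exp(4x²) m^(2α+b) ≤ m^σ`, as `4x² ≤ 4 (log m)^(1/2)` and `2α + b ≤ σ/4`.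
* If `√x < 2 log log m`: `x' ≤ (log m)^(1/4)`; `lsp_U` with `b = 1/√x`, `P2 = exp(3x'^2)` (`4(2 + 3x'^2) = 8 + 12 exp(√x/4) ≤ exp(√x)`); `step` at `x'` with `X = UU m x α`, `B = exp(4x²)`, `γ = 2α + b`,
  `P1 = exp(3x²) ≤ exp(x')`, `2α' - γ = 1/√x`: `exp(4x²) (m/φ) x'^7 exp(-x'/√x) ≤ 1` (`m/φ ≤ x^(1/4) ≤ exp x`), `3x'^2 ≤ 3 (log m)^(1/2) ≤ log m/100`.  `α' + 2/√x' ≤ α + 2/√x` (`x' ≥ 4x`);
  errors `C/log x' + C'/log x' ≤ C'/log x` with `log x' = √x/8 ≥ 2 log x`, `C' = 2C`.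
-/

set_option autoImplicit false

namespace Pool.Agent.H78.PD

open Finset
open Pool.Agent.H34PG (lam lam_val lam_mul lam_prime)
open Pool.Agent.H11.LQ Pool.Agent.H78.PG

/-- the numerical facts for large `x` -/
private theorem iter_large (A : ℝ) : ∃ x0 : ℝ, 64 ≤ x0 ∧ ∀ x : ℝ, x0 ≤ x →
    A ≤ Real.exp (Real.sqrt x / 8) ∧
    8 + 12 * Real.exp (Real.sqrt x / 4) ≤ Real.exp (Real.sqrt x) ∧
    3 * x ^ 2 ≤ Real.exp (Real.sqrt x / 8) ∧
    (4 * x ^ 2 + x + 7 * (Real.sqrt x / 8)) * Real.sqrt x ≤ Real.exp (Real.sqrt x / 8) ∧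
    4 * x ≤ Real.exp (Real.sqrt x / 8) ∧
    2 * Real.log x ≤ Real.sqrt x / 8 := by
  have h1 := Real.tendsto_exp_div_pow_atTop 6
  have h2 := (h1.eventually_ge_atTop ((8 : ℝ) ^ 6)).and (Real.tendsto_exp_atTop.eventually_ge_atTop A)
  obtain ⟨z0, hz0⟩ := Filter.eventually_atTop.1 h2
  refine ⟨max 64 ((8 * z0) ^ 2), le_max_left _ _, fun x hx => ?_⟩
  have hx64 : 64 ≤ x := (le_max_left _ _).trans hx
  have hxz : (8 * z0) ^ 2 ≤ x := (le_max_right _ _).trans hx
  have hx0 : 0 ≤ x := by linarith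
  obtain ⟨y, hy⟩ : ∃ y, y = Real.sqrt x := ⟨_, rfl⟩
  rw [← hy]
  have hyx : y ^ 2 = x := by rw [hy]; exact Real.sq_sqrt hx0
  have hy0 : 0 ≤ y := by rw [hy]; exact Real.sqrt_nonneg _
  have hy8 : 8 ≤ y := by
    rw [hy]
    refine Real.le_sqrt_of_sq_le ?_
    norm_num
    exact hx64
  have hyz : z0 ≤ y / 8 := by
    rcases le_or_gt z0 0 with h | h
    · linarith
    · have : 8 * z0 ≤ y := by
        rw [hy]
        exact Real.le_sqrt_of_sq_le hxz
      linarith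
  obtain ⟨h3, h4⟩ := hz0 (y / 8) hyz
  have hpow : y ^ 6 ≤ Real.exp (y / 8) := by
    have hz : 0 < (y / 8) ^ 6 := by positivity
    rw [le_div_iff₀ hz] at h3
    calc y ^ 6 = 8 ^ 6 * (y / 8) ^ 6 := by ring
      _ ≤ Real.exp (y / 8) := h3
  have hy4 : (0 : ℝ) ≤ y ^ 4 := by positivity
  have hy5 : (0 : ℝ) ≤ y ^ 5 := by positivity
  have e46 : 64 * y ^ 4 ≤ y ^ 6 := by
    have : (64 : ℝ) ≤ y ^ 2 := by rw [hyx]; exact hx64
    calc 64 * y ^ 4 ≤ y ^ 2 * y ^ 4 := mul_le_mul_of_nonneg_right this hy4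
      _ = y ^ 6 := by ring
  have e56 : 8 * y ^ 5 ≤ y ^ 6 := by
    calc 8 * y ^ 5 ≤ y * y ^ 5 := mul_le_mul_of_nonneg_right hy8 hy5
      _ = y ^ 6 := by ring
  have e34 : 8 * y ^ 3 ≤ y ^ 4 := by
    have : (0 : ℝ) ≤ y ^ 3 := by positivity
    calc 8 * y ^ 3 ≤ y * y ^ 3 := mul_le_mul_of_nonneg_right hy8 this
      _ = y ^ 4 := by ring
  have e23 : 8 * y ^ 2 ≤ y ^ 3 := by
    have : (0 : ℝ) ≤ y ^ 2 := by positivity
    calc 8 * y ^ 2 ≤ y * y ^ 2 := mul_le_mul_of_nonneg_right hy8 this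
      _ = y ^ 3 := by ring
  have hy2 : (0 : ℝ) ≤ y ^ 2 := by positivity
  have hy3 : (0 : ℝ) ≤ y ^ 3 := by positivity
  have c3 : 3 * x ^ 2 ≤ Real.exp (y / 8) := by
    rw [← hyx]
    have : 3 * (y ^ 2) ^ 2 = 3 * y ^ 4 := by ring
    rw [this]
    linarith
  refine ⟨h4, ?_, c3, ?_, ?_, ?_⟩
  · obtain ⟨t, ht⟩ : ∃ t, t = Real.exp (y / 4) := ⟨_, rfl⟩
    have ht4 : Real.exp y = t ^ 4 := by
      rw [ht, ← Real.exp_nat_mul]
      congr 1
      push_cast
      ring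
    have ht3 : 3 ≤ t := by
      rw [ht]
      have := Real.add_one_le_exp (y / 4)
      linarith
    rw [ht4, ← ht]
    have h27 : 27 ≤ t ^ 3 := by
      have := pow_le_pow_left₀ (by norm_num : (0 : ℝ) ≤ 3) ht3 3
      norm_num at this
      exact this
    have h27t : 27 * t ≤ t ^ 4 := by
      calc 27 * t ≤ t ^ 3 * t := mul_le_mul_of_nonneg_right h27 (by linarith)
        _ = t ^ 4 := by ring
    linarith
  · rw [← hyx]
    have : (4 * (y ^ 2) ^ 2 + y ^ 2 + 7 * (y / 8)) * y = 4 * y ^ 5 + y ^ 3 + 7 / 8 * y ^ 2 := by ring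
    rw [this]
    linarith
  · rw [← hyx]
    linarith
  · have hlog : Real.log (3 * x ^ 2) ≤ y / 8 := by
      have := Real.log_le_log (by positivity) c3
      rwa [Real.log_exp] at this
    rw [Real.log_mul (by norm_num) (by positivity), Real.log_pow] at hlog
    have h30 : 0 ≤ Real.log 3 := Real.log_nonneg (by norm_num)
    push_cast at hlog
    linarith

/-- the first case: the characters in `UU` are few -/
private theorem iter_card (σ : ℝ) (hσ : 0 < σ) : ∃ ℓ0 : ℝ, 1 ≤ ℓ0 ∧ ∀ (m : ℕ) [NeZero m], ℓ0 ≤ Real.log m →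
    ∀ (U : Finset (DirichletCharacter ℂ m)) (x γ : ℝ), 0 ≤ x → x ≤ Real.log m ^ (1 / 4 : ℝ) → 0 ≤ γ → γ ≤ σ / 4 → γ ≤ 2 →
    LSP m U (Real.exp (4 * x ^ 2)) γ (Real.exp (3 * x ^ 2)) ((m : ℝ) / 2) → (U.card : ℝ) ≤ (m : ℝ) ^ σ := by
  refine ⟨max 90000 ((8 / σ) ^ 2), (by norm_num : (1 : ℝ) ≤ 90000).trans (le_max_left _ _), ?_⟩
  intro m _ hm U x γ hx0 hx hγ0 hγ hγ2 hL
  obtain ⟨ℓ, hℓ⟩ : ∃ ℓ, ℓ = Real.log m := ⟨_, rfl⟩
  rw [← hℓ] at hm hx
  have hℓ9 : 90000 ≤ ℓ := (le_max_left _ _).trans hm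
  have hℓσ : (8 / σ) ^ 2 ≤ ℓ := (le_max_right _ _).trans hm
  have hℓ0 : 0 ≤ ℓ := by linarith
  have hm0 : (0 : ℝ) < m := Nat.cast_pos.2 (Nat.pos_of_ne_zero (NeZero.ne m))
  have hme : (m : ℝ) = Real.exp ℓ := by rw [hℓ, Real.exp_log hm0]
  obtain ⟨s, hs⟩ : ∃ s, s = Real.sqrt ℓ := ⟨_, rfl⟩
  have hs0 : 0 ≤ s := by rw [hs]; exact Real.sqrt_nonneg _
  have hsq : s ^ 2 = ℓ := by rw [hs]; exact Real.sq_sqrt hℓ0
  have hs300 : 300 ≤ s := by
    rw [hs]
    refine Real.le_sqrt_of_sq_le ?_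
    norm_num
    linarith
  have hs300' : 300 * s ≤ ℓ := by
    calc 300 * s ≤ s * s := mul_le_mul_of_nonneg_right hs300 hs0
      _ = ℓ := by rw [← hsq]; ring
  have hsσ : 8 / σ ≤ s := by
    rw [hs]
    exact Real.le_sqrt_of_sq_le hℓσ
  have hxs : x ^ 2 ≤ s := by
    have h1 : x ^ 2 ≤ (ℓ ^ (1 / 4 : ℝ)) ^ 2 := pow_le_pow_left₀ hx0 hx 2
    have h2 : (ℓ ^ (1 / 4 : ℝ)) ^ 2 = s := by
      rw [hs, Real.sqrt_eq_rpow, ← Real.rpow_natCast, ← Real.rpow_mul hℓ0]
      norm_num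
    rw [h2] at h1
    exact h1
  have hlog2 : Real.log 2 ≤ 1 := by
    have := Real.log_two_lt_d9
    linarith
  have hlog20 : 0 < Real.log 2 := Real.log_pos (by norm_num)
  have hhalf : (m : ℝ) / 2 = Real.exp (ℓ - Real.log 2) := by
    rw [Real.exp_sub, Real.exp_log (by norm_num), hme]
  have hP : Real.exp (3 * x ^ 2) ≤ (m : ℝ) / 2 := by
    rw [hhalf]
    refine Real.exp_le_exp.2 ?_
    linarith
  have hmain := hL ((m : ℝ) / 2) hP le_rfl 1 (by push_cast; linarith) (fun _ => 1) (fun _ => by simp)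
  have hsum : ∑ χ ∈ U, ‖∑ y ∈ cop m 1, (1 : ℂ) * χ (y : ZMod m)‖ ^ 2 = (U.card : ℝ) := by
    have hcop : cop m 1 = {1} := by
      unfold cop
      rw [Finset.Icc_self, Finset.filter_singleton, if_pos (Nat.coprime_one_left m)]
    rw [Finset.card_eq_sum_ones, Nat.cast_sum]
    refine Finset.sum_congr rfl fun χ _ => ?_
    rw [hcop, Finset.sum_singleton]
    simp
  rw [hsum] at hmain
  refine hmain.trans ?_
  have hφ : ((m.totient : ℕ) : ℝ) ≤ m := Nat.cast_le.2 (Nat.totient_le m)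
  have hpw : ((m : ℝ) / 2) ^ (-2 + γ) = Real.exp ((ℓ - Real.log 2) * (-2 + γ)) := by
    rw [hhalf, ← Real.exp_mul]
  rw [hpw]
  have hσm : (m : ℝ) ^ σ = Real.exp (ℓ * σ) := by rw [hme, ← Real.exp_mul]
  rw [hσm]
  have e1 : Real.exp (4 * x ^ 2) * (m.totient : ℝ) * m * Real.exp ((ℓ - Real.log 2) * (-2 + γ)) ≤
      Real.exp (4 * x ^ 2) * m * m * Real.exp ((ℓ - Real.log 2) * (-2 + γ)) := by
    gcongr
  refine e1.trans ?_
  rw [hme, ← Real.exp_add, ← Real.exp_add, ← Real.exp_add]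
  refine Real.exp_le_exp.2 ?_
  have h8 : 8 ≤ σ * s := by
    rw [div_le_iff₀ hσ] at hsσ
    linarith
  have h9 : 6 * s ≤ 3 * σ / 4 * ℓ := by
    have h12 := mul_le_mul_of_nonneg_right h8 hs0
    have h13 : σ * s * s = σ * ℓ := by rw [← hsq]; ring
    rw [h13] at h12
    linarith
  have hexp : 4 * x ^ 2 + ℓ + ℓ + (ℓ - Real.log 2) * (-2 + γ) =
      4 * x ^ 2 + γ * ℓ + 2 * Real.log 2 - γ * Real.log 2 := by ring
  rw [hexp]
  have h10 := mul_nonneg hγ0 hlog20.le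
  have h11 := mul_le_mul_of_nonneg_right hγ hℓ0
  linarith

theorem iter (σ : ℝ) (hσ : 0 < σ) (hσ1 : σ ≤ 1) : ∃ x0 C : ℝ, 3 ≤ x0 ∧ 0 < C ∧ ∃ m0 : ℕ,
    ∀ (m : ℕ) [NeZero m], m0 ≤ m → ∀ η : ℤ, (η = 1 ∨ η = -1) → ∀ x α : ℝ, x0 ≤ x →
    x ≤ Real.log m ^ (1 / 4 : ℝ) → 0 ≤ α → α + 2 / Real.sqrt x ≤ σ / 8 →
    (m : ℝ) ≤ x ^ (1 / 4 : ℝ) * m.totient →
    ∃ U : Finset (DirichletCharacter ℂ m), (U.card : ℝ) ≤ (m : ℝ) ^ σ ∧
      wout m η U ≤ wout m η (UU m x α) + C / Real.log x := by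
  obtain ⟨xs, Cs, hxs3, hCs, ms, hstep⟩ := step
  obtain ⟨xl, hlsp⟩ := lsp_U
  obtain ⟨ℓ1, hℓ1, hcard⟩ := iter_card σ hσ
  obtain ⟨x1, hx1, hlarge⟩ := iter_large xs
  refine ⟨max x1 xl, Cs, (by linarith : (3 : ℝ) ≤ x1).trans (le_max_left _ _), hCs,
    max ms ⌈Real.exp (max ℓ1 90000)⌉₊, ?_⟩
  intro m _ hm η hη
  have hms : ms ≤ m := (le_max_left _ _).trans hm
  have hm0 : (0 : ℝ) < m := Nat.cast_pos.2 (Nat.pos_of_ne_zero (NeZero.ne m))
  have hmℓ : max ℓ1 90000 ≤ Real.log m := by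
    have h1 : Real.exp (max ℓ1 90000) ≤ m := by
      refine (Nat.le_ceil _).trans ?_
      exact_mod_cast (le_max_right _ _).trans hm
    rw [Real.le_log_iff_exp_le hm0]
    exact h1
  have hℓ1' : ℓ1 ≤ Real.log m := (le_max_left _ _).trans hmℓ
  have hℓ9 : 90000 ≤ Real.log m := (le_max_right _ _).trans hmℓ
  obtain ⟨ℓ, hℓ⟩ : ∃ ℓ, ℓ = Real.log m := ⟨_, rfl⟩
  rw [← hℓ] at hℓ1' hℓ9
  have hℓpos : 0 < ℓ := by linarith
  have hφ0 : (0 : ℝ) < m.totient := Nat.cast_pos.2 (Nat.totient_pos.2 (Nat.pos_of_ne_zero (NeZero.ne m)))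
  have caseA : ∀ (x α : ℝ), 2 * Real.log ℓ ≤ Real.sqrt x → max x1 xl ≤ x → x ≤ ℓ ^ (1 / 4 : ℝ) → 0 ≤ α →
      α + 2 / Real.sqrt x ≤ σ / 8 →
      ∃ U : Finset (DirichletCharacter ℂ m), (U.card : ℝ) ≤ (m : ℝ) ^ σ ∧
        wout m η U ≤ wout m η (UU m x α) + Cs / Real.log x := by
    intro x α hc hx hxℓ hα hασ
    have hxx1 : x1 ≤ x := (le_max_left _ _).trans hx
    have hx0 : 0 ≤ x := by linarith
    have hsx : 0 < Real.sqrt x := Real.sqrt_pos.2 (by linarith)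
    have hb : 0 ≤ 1 / Real.sqrt x := by positivity
    have h2b : 2 / Real.sqrt x = 2 * (1 / Real.sqrt x) := by ring
    rw [h2b] at hασ
    refine ⟨UU m x α, ?_, ?_⟩
    · refine hcard m (by rw [← hℓ]; exact hℓ1') (UU m x α) x (2 * α + 1 / Real.sqrt x) hx0 (by rw [← hℓ]; exact hxℓ)
        (by positivity) (by linarith) (by linarith) ?_
      refine hlsp x ((le_max_right _ _).trans hx) m α (1 / Real.sqrt x) ((m : ℝ) / 2) hα (by linarith) hb ?_
      have h1 : 1 / Real.sqrt x * x = Real.sqrt x := by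
        rw [one_div, inv_mul_eq_div]
        exact Real.div_sqrt
      rw [h1]
      have h2 : Real.log ((m : ℝ) / 2) ≤ ℓ := by
        rw [hℓ]
        exact Real.log_le_log (by positivity) (by linarith)
      have h3 : ℓ ^ 2 ≤ Real.exp (Real.sqrt x) := by
        have h4 : ℓ ^ 2 = Real.exp (2 * Real.log ℓ) := by
          rw [two_mul, Real.exp_add, Real.exp_log hℓpos]
          ring
        rw [h4]
        exact Real.exp_le_exp.2 hc
      have h6 : 90000 * ℓ ≤ ℓ ^ 2 := by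
        calc 90000 * ℓ ≤ ℓ * ℓ := mul_le_mul_of_nonneg_right hℓ9 hℓpos.le
          _ = ℓ ^ 2 := by ring
      linarith
    · have h5 : 0 ≤ Cs / Real.log x := by
        have : 0 < Real.log x := Real.log_pos (by linarith)
        positivity
      linarith
  have key : ∀ (n : ℕ) (x α : ℝ), 4 * Real.log ℓ ^ 2 ≤ x + n → max x1 xl ≤ x → x ≤ ℓ ^ (1 / 4 : ℝ) → 0 ≤ α →
      α + 2 / Real.sqrt x ≤ σ / 8 → (m : ℝ) ≤ x ^ (1 / 4 : ℝ) * m.totient →
      ∃ U : Finset (DirichletCharacter ℂ m), (U.card : ℝ) ≤ (m : ℝ) ^ σ ∧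
        wout m η U ≤ wout m η (UU m x α) + Cs / Real.log x := by
    intro n
    induction n with
    | zero =>
      intro x α h4 hx hxℓ hα hασ hω
      exact caseA x α (by
        have h5 : (0 : ℝ) ≤ x := by
          have := (le_max_left _ _).trans hx
          linarith
        refine Real.le_sqrt_of_sq_le ?_
        rw [Nat.cast_zero, add_zero] at h4
        have h6 : (2 * Real.log ℓ) ^ 2 = 4 * Real.log ℓ ^ 2 := by ring
        rw [h6]
        exact h4) hx hxℓ hα hασ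
    | succ n ih =>
      intro x α h4 hx hxℓ hα hασ hω
      rcases le_or_gt (2 * Real.log ℓ) (Real.sqrt x) with hc | hc
      · exact caseA x α hc hx hxℓ hα hασ
      · have hxx1 : x1 ≤ x := (le_max_left _ _).trans hx
        obtain ⟨hl1, hl2, hl3, hl4, hl5, hl6⟩ := hlarge x hxx1
        obtain ⟨y, hy⟩ : ∃ y, y = Real.sqrt x := ⟨_, rfl⟩
        obtain ⟨x', hx'⟩ : ∃ x', x' = Real.exp (Real.sqrt x / 8) := ⟨_, rfl⟩
        rw [← hx'] at hl1 hl3 hl4 hl5
        rw [← hy] at hx' hl2 hl4 hl6 hc hασ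
        have hx64 : 64 ≤ x := hx1.trans hxx1
        have hx0 : 0 ≤ x := by linarith
        have hy0 : 0 < y := by rw [hy]; exact Real.sqrt_pos.2 (by linarith)
        have hyx : y ^ 2 = x := by rw [hy]; exact Real.sq_sqrt hx0
        have hx'0 : 0 < x' := by rw [hx']; exact Real.exp_pos _
        have hlogx' : Real.log x' = y / 8 := by rw [hx', Real.log_exp]
        have hx'ℓ : x' ≤ ℓ ^ (1 / 4 : ℝ) := by
          rw [hx', Real.rpow_def_of_pos hℓpos]
          refine Real.exp_le_exp.2 ?_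
          linarith
        have hx'sq : x' ^ 2 ≤ Real.sqrt ℓ := by
          have h1 : x' ^ 2 ≤ (ℓ ^ (1 / 4 : ℝ)) ^ 2 := pow_le_pow_left₀ hx'0.le hx'ℓ 2
          have h2 : (ℓ ^ (1 / 4 : ℝ)) ^ 2 = Real.sqrt ℓ := by
            rw [Real.sqrt_eq_rpow, ← Real.rpow_natCast, ← Real.rpow_mul hℓpos.le]
            norm_num
          rw [h2] at h1
          exact h1
        have h3x' : 3 * x' ^ 2 ≤ Real.log m / 100 := by
          rw [← hℓ]
          obtain ⟨s, hs⟩ : ∃ s, s = Real.sqrt ℓ := ⟨_, rfl⟩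
          rw [← hs] at hx'sq
          have hs0 : 0 ≤ s := by rw [hs]; exact Real.sqrt_nonneg _
          have hsq : s ^ 2 = ℓ := by rw [hs]; exact Real.sq_sqrt hℓpos.le
          have hs300 : 300 ≤ s := by
            rw [hs]
            refine Real.le_sqrt_of_sq_le ?_
            norm_num
            linarith
          have hs300' : 300 * s ≤ ℓ := by
            calc 300 * s ≤ s * s := mul_le_mul_of_nonneg_right hs300 hs0
              _ = ℓ := by rw [← hsq]; ring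
          linarith
        have hxx' : x ≤ x' := by linarith
        have hωx' : (m : ℝ) ≤ x' ^ (1 / 4 : ℝ) * m.totient :=
          hω.trans (mul_le_mul_of_nonneg_right (Real.rpow_le_rpow hx0 hxx' (by norm_num)) hφ0.le)
        have hb : 0 ≤ 1 / y := by positivity
        have h2b : 2 / y = 2 * (1 / y) := by ring
        rw [h2b] at hασ
        have hlspx := hlsp x ((le_max_right _ _).trans hx) m α (1 / y) (Real.exp (3 * x' ^ 2)) hα (by linarith) hb (by
          have h1 : 1 / y * x = y := by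
            rw [← hyx]
            field_simp
          rw [h1, Real.log_exp]
          have h2 : x' ^ 2 = Real.exp (y / 4) := by
            rw [hx', ← Real.exp_nat_mul]
            congr 1
            push_cast
            ring
          rw [h2]
          linarith)
        have hst := hstep m hms η hη x' hl1 h3x' hωx' (UU m x α) (Real.exp (4 * x ^ 2)) (2 * α + 1 / y) (Real.exp (3 * x ^ 2))
          (Real.exp (3 * x' ^ 2)) (α + 1 / y) hlspx (Real.exp_le_exp.2 hl3) le_rfl (by linarith) (by linarith)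
          (Real.exp_pos _).le (by
            have h1 : (m : ℝ) / m.totient ≤ Real.exp x := by
              rw [div_le_iff₀ hφ0]
              refine hω.trans (mul_le_mul_of_nonneg_right ?_ hφ0.le)
              calc x ^ (1 / 4 : ℝ) ≤ x ^ (1 : ℝ) :=
                    Real.rpow_le_rpow_of_exponent_le (by linarith) (by norm_num)
                _ = x := Real.rpow_one x
                _ ≤ Real.exp x := by
                    have := Real.add_one_le_exp x
                    linarith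
            have h2 : x' ^ 7 = Real.exp (7 * (y / 8)) := by
              rw [hx', ← Real.exp_nat_mul]
              push_cast
              rfl
            rw [h2]
            have h3 : (2 * (α + 1 / y) - (2 * α + 1 / y)) * x' = x' / y := by ring
            rw [h3]
            have h4 : Real.exp (4 * x ^ 2) * ((m : ℝ) / m.totient) * Real.exp (7 * (y / 8)) * Real.exp (-(x' / y)) ≤
                Real.exp (4 * x ^ 2) * Real.exp x * Real.exp (7 * (y / 8)) * Real.exp (-(x' / y)) := by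
              gcongr
            refine h4.trans ?_
            rw [← Real.exp_add, ← Real.exp_add, ← Real.exp_add, Real.exp_le_one_iff]
            have h5 : 4 * x ^ 2 + x + 7 * (y / 8) ≤ x' / y := by
              rw [le_div_iff₀ hy0]
              exact hl4
            linarith)
        have hsx' : 2 * y ≤ Real.sqrt x' := by
          refine Real.le_sqrt_of_sq_le ?_
          have : (2 * y) ^ 2 = 4 * x := by rw [← hyx]; ring
          rw [this]
          exact hl5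
        have hinv : 2 / Real.sqrt x' ≤ 1 / y := by
          rw [div_le_div_iff₀ (by linarith) hy0]
          linarith
        obtain ⟨U, hU1, hU2⟩ := ih x' (α + 1 / y) (by push_cast at h4; linarith) (hx.trans hxx') hx'ℓ (by linarith)
          (by linarith) hωx'
        refine ⟨U, hU1, ?_⟩
        have hlx : 0 < Real.log x := Real.log_pos (by linarith)
        have hlx' : 2 * Real.log x ≤ Real.log x' := by rw [hlogx']; exact hl6
        have hfin : Cs / Real.log x' + Cs / Real.log x' ≤ Cs / Real.log x := by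
          have h1 : Cs / Real.log x' ≤ Cs / (2 * Real.log x) := div_le_div_of_nonneg_left hCs.le (by linarith) hlx'
          have h2 : Cs / (2 * Real.log x) + Cs / (2 * Real.log x) = Cs / Real.log x := by
            field_simp
            ring
          linarith
        linarith
  intro x α hx hxℓ hα hασ hω
  rw [← hℓ] at hxℓ
  obtain ⟨n, hn⟩ := exists_nat_ge (4 * Real.log ℓ ^ 2 - x)
  exact key n x α (by linarith) hx hxℓ hα hασ hω

end Pool.Agent.H78.PD
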