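import Pool.Agent.H78.PD.Ort

/-!
# PD, L2: characters of smaller period

`gen`: induction on `S`.  `y ≡ y' mod m/(q D)`, `q ∤ D`, `q D ∣ m`: `gcd(m/q, m/D) = m/(q D)`, so there is `z` with `z ≡ y mod m/q`, `z ≡ y' mod m/D` (`Nat.chineseRemainder'`);
`z` is prime to `m`: a prime `p ∣ m` divides `m/q` or (`p = q`) divides `m/D`.

`period`: `M = m/D`.  Every `χ ∈ X` is `changeLevel` of a character `χ'` mod `M` (`DirichletCharacter.FactorsThrough`), `χ(y) = χ'(y)` for `y` prime to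
`m`, the map `χ ↦ χ'` is injective, and `ortho_coef` mod `M` for `g(u) = ∑_{y ∈ cop m Y, y = u mod M} f(y)`.
Then `|g(u)| ≤ #{y ≤ Y : y = u} ≤ Y/M + 1`, `∑_u |g(u)| ≤ Y`, `φ(M) ≤ M`: total `≤ (Y/M + 1) Y M = Y² + Y M`.  `2PY ≤ m`, `1 ≤ P ≤ D`, `M = m/D ≤ m/P`: `≤ m²/(4P²) + m²/(2P²) ≤ m² P^(-2) = (m/φ) φ m P^(-2)`.
-/

set_option autoImplicit false

namespace Pool.Agent.H78.PD

open Finset
open Pool.Agent.H34PG (lam lam_val lam_mul lam_prime)
open Pool.Agent.H11.LQ Pool.Agent.H78.PG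

/-- the product of different primes dividing `m` divides `m` -/
private theorem l2_prod_dvd (m : ℕ) (S : Finset ℕ) (hS : ∀ q ∈ S, q.Prime ∧ q ∣ m) :
    ∏ q ∈ S, q ∣ m := by
  induction S using Finset.induction_on with
  | empty => simp
  | insert q S hq ih =>
    rw [prod_insert hq]
    refine Nat.Coprime.mul_dvd_of_dvd_of_dvd ?_ (hS q (mem_insert_self _ _)).2
      (ih fun p hp => hS p (mem_insert_of_mem hp))
    rw [Nat.coprime_prod_right_iff]
    intro p hp
    exact (Nat.coprime_primes (hS q (mem_insert_self _ _)).1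
      (hS p (mem_insert_of_mem hp)).1).2 (fun h => hq (h ▸ hp))

theorem gen (m : ℕ) [NeZero m] (χ : DirichletCharacter ℂ m) (S : Finset ℕ)
    (hS : ∀ q ∈ S, q.Prime ∧ q ∣ m)
    (h : ∀ q ∈ S, ∀ y y' : ℕ, y.Coprime m → y'.Coprime m → y ≡ y' [MOD m / q] →
      χ (y : ZMod m) = χ (y' : ZMod m)) :
    ∀ y y' : ℕ, y.Coprime m → y'.Coprime m → y ≡ y' [MOD m / ∏ q ∈ S, q] →
      χ (y : ZMod m) = χ (y' : ZMod m) := by
  have hm : 0 < m := Nat.pos_of_ne_zero (NeZero.ne m)
  induction S using Finset.induction_on with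
  | empty =>
    intro y y' _ _ hyy
    rw [prod_empty, Nat.div_one] at hyy
    rw [(ZMod.natCast_eq_natCast_iff y y' m).2 hyy]
  | insert q S hq ih =>
    intro y y' hy hy' hyy
    obtain ⟨hqp, hqm⟩ := hS q (mem_insert_self _ _)
    have hS' : ∀ p ∈ S, p.Prime ∧ p ∣ m := fun p hp => hS p (mem_insert_of_mem hp)
    have ih' := ih hS' (fun p hp => h p (mem_insert_of_mem hp))
    have hD : ∏ p ∈ insert q S, p ∣ m := l2_prod_dvd m _ hS
    rw [prod_insert hq] at hD hyy
    obtain ⟨D, hDdef⟩ : ∃ D, D = ∏ p ∈ S, p := ⟨_, rfl⟩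
    rw [← hDdef] at hD hyy ih'
    have hcop : q.Coprime D := by
      rw [hDdef, Nat.coprime_prod_right_iff]
      intro p hp
      exact (Nat.coprime_primes hqp (hS' p hp).1).2 (fun h => hq (h ▸ hp))
    obtain ⟨k, hk⟩ := hD
    have hq0 : 0 < q := hqp.pos
    have hD0 : 0 < D := by
      rcases Nat.eq_zero_or_pos D with h0 | h0
      · rw [h0] at hk
        simp at hk
        omega
      · exact h0
    have e1 : m / (q * D) = k := by
      rw [hk]
      exact Nat.mul_div_cancel_left k (Nat.mul_pos hq0 hD0)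
    have e2 : m / q = D * k := by
      rw [hk, mul_assoc]
      exact Nat.mul_div_cancel_left _ hq0
    have e3 : m / D = q * k := by
      rw [hk, mul_comm q D, mul_assoc]
      exact Nat.mul_div_cancel_left _ hD0
    have hg : Nat.gcd (m / q) (m / D) = k := by
      rw [e2, e3, Nat.gcd_mul_right, Nat.gcd_comm D q]
      rw [Nat.Coprime] at hcop
      rw [hcop, one_mul]
    rw [e1, ← hg] at hyy
    obtain ⟨z, hz1, hz2⟩ := Nat.chineseRemainder' hyy
    have hz : z.Coprime m := by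
      rw [Nat.coprime_iff_gcd_eq_one]
      by_contra hne
      obtain ⟨p, hp, hpd⟩ := Nat.exists_prime_and_dvd hne
      have hpz : p ∣ z := hpd.trans (Nat.gcd_dvd_left _ _)
      have hpm : p ∣ m := hpd.trans (Nat.gcd_dvd_right _ _)
      by_cases hpq : p ∣ m / q
      · have : p ∣ y := ((hz1.of_dvd hpq).dvd_iff (dvd_refl p)).1 hpz
        have h1 := Nat.dvd_gcd this hpm
        rw [Nat.Coprime] at hy
        rw [hy] at h1
        exact hp.one_lt.ne' (Nat.dvd_one.1 h1)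
      · have hpq' : p ∣ q * (m / q) := by
          rw [Nat.mul_div_cancel' hqm]
          exact hpm
        have hpe : p ∣ q := ((Nat.Prime.dvd_mul hp).1 hpq').resolve_right hpq
        have hpD : p ∣ m / D := by
          rw [e3]
          exact hpe.mul_right k
        have : p ∣ y' := ((hz2.of_dvd hpD).dvd_iff (dvd_refl p)).1 hpz
        have h1 := Nat.dvd_gcd this hpm
        rw [Nat.Coprime] at hy'
        rw [hy'] at h1
        exact hp.one_lt.ne' (Nat.dvd_one.1 h1)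
    rw [← h q (mem_insert_self _ _) z y hz hy hz1]
    exact ih' z y' hz hy' hz2

/-- characters periodic mod `M` come from characters mod `M` -/
private theorem l2_factors (m M : ℕ) [NeZero m] (hM : M ∣ m) (χ : DirichletCharacter ℂ m)
    (h : ∀ y y' : ℕ, y.Coprime m → y'.Coprime m → y ≡ y' [MOD M] →
      χ (y : ZMod m) = χ (y' : ZMod m)) : χ.FactorsThrough M := by
  rw [DirichletCharacter.factorsThrough_iff_ker_unitsMap hM]
  intro u hu
  rw [MonoidHom.mem_ker] at hu ⊢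
  have h1 : ((ZMod.unitsMap hM u : (ZMod M)ˣ) : ZMod M) = 1 := by rw [hu]; rfl
  rw [ZMod.unitsMap_val] at h1
  have hcop : ((u : ZMod m).val).Coprime m := ZMod.val_coe_unit_coprime u
  have h2 : (((u : ZMod m).val : ℕ) : ZMod M) = ((1 : ℕ) : ZMod M) := by
    rw [Nat.cast_one, ← h1, ZMod.cast_eq_val]
  have h3 := h _ 1 hcop (Nat.coprime_one_left m) ((ZMod.natCast_eq_natCast_iff _ _ _).1 h2)
  rw [ZMod.natCast_zmod_val, Nat.cast_one, map_one] at h3
  ext
  rw [Units.val_one]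
  exact h3

/-- the residue in `[1, M]` -/
private def l2r (M y : ℕ) : ℕ := (y - 1) % M + 1

private theorem l2r_modEq (M y : ℕ) (hy : 1 ≤ y) : l2r M y ≡ y [MOD M] := by
  unfold l2r
  have h1 : (y - 1) % M ≡ y - 1 [MOD M] := Nat.mod_modEq _ _
  have h2 := h1.add_right 1
  rwa [Nat.sub_add_cancel hy] at h2

private theorem l2_card (M Y u : ℕ) :
    ((Icc 1 Y).filter (fun y => l2r M y = u)).card ≤ Y / M + 1 := by
  rw [← card_range (Y / M + 1)]
  refine card_le_card_of_injOn (fun y => (y - 1) / M) ?_ ?_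
  · intro y hy
    rw [mem_coe, mem_filter, mem_Icc] at hy
    rw [mem_coe, mem_range]
    have : (y - 1) / M ≤ Y / M := Nat.div_le_div_right (by omega)
    show (y - 1) / M < Y / M + 1
    omega
  · intro y hy y' hy' heq
    rw [mem_coe, mem_filter, mem_Icc] at hy hy'
    have heq' : (y - 1) / M = (y' - 1) / M := heq
    have h1 : (y - 1) % M = (y' - 1) % M := by
      have h3 := hy.2.trans hy'.2.symm
      unfold l2r at h3
      omega
    have h2 := Nat.div_add_mod (y - 1) M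
    have h3 := Nat.div_add_mod (y' - 1) M
    rw [heq', h1] at h2
    omega

theorem period (m D : ℕ) [NeZero m] (hD : D ∣ m) (X : Finset (DirichletCharacter ℂ m))
    (hX : ∀ χ ∈ X, ∀ y y' : ℕ, y.Coprime m → y'.Coprime m → y ≡ y' [MOD m / D] →
      χ (y : ZMod m) = χ (y' : ZMod m)) :
    LSP m X ((m : ℝ) / m.totient) 0 1 D := by
  classical
  intro P hP1 hPD Y hPY f hf
  have hm : 0 < m := Nat.pos_of_ne_zero (NeZero.ne m)
  obtain ⟨M, hMD⟩ := hD
  have hD0 : 0 < D := by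
    rcases Nat.eq_zero_or_pos D with h0 | h0
    · rw [h0] at hMD
      omega
    · exact h0
  have hM0 : 0 < M := by
    rcases Nat.eq_zero_or_pos M with h0 | h0
    · rw [h0] at hMD
      omega
    · exact h0
  have : NeZero M := ⟨hM0.ne'⟩
  have hMm : M ∣ m := ⟨D, by rw [hMD]; ring⟩
  have eM : m / D = M := by
    rw [hMD]
    exact Nat.mul_div_cancel_left M hD0
  rw [eM] at hX
  have hF : ∀ χ ∈ X, χ.FactorsThrough M := fun χ hχ => l2_factors m M hMm χ (hX χ hχ)
  -- the character mod `M`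
  obtain ⟨g, hg⟩ : ∃ g : DirichletCharacter ℂ m → DirichletCharacter ℂ M,
      ∀ χ ∈ X, χ = DirichletCharacter.changeLevel hMm (g χ) := by
    refine ⟨fun χ => if h : χ.FactorsThrough M then h.χ₀ else 1, ?_⟩
    intro χ hχ
    have h1 := (hF χ hχ).eq_changeLevel
    show χ = DirichletCharacter.changeLevel hMm
      (if h : χ.FactorsThrough M then h.χ₀ else 1)
    rw [dif_pos (hF χ hχ)]
    exact h1
  have hginj : Set.InjOn g X := by
    intro χ hχ χ' hχ' heq
    rw [hg χ hχ, hg χ' hχ', heq]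
  have hval : ∀ χ ∈ X, ∀ y : ℕ, y.Coprime m → χ (y : ZMod m) = (g χ) (y : ZMod M) := by
    intro χ hχ y hy
    have h1 := DirichletCharacter.changeLevel_eq_cast_of_dvd (g χ) hMm (ZMod.unitOfCoprime y hy)
    rw [← hg χ hχ, ZMod.coe_unitOfCoprime] at h1
    rw [h1, ZMod.cast_natCast hMm]
  -- the coefficients
  obtain ⟨G, hG⟩ : ∃ G : ℕ → ℂ, G = fun u => ∑ y ∈ (cop m Y).filter (fun y => l2r M y = u), f y :=
    ⟨_, rfl⟩
  have hmaps : ∀ y ∈ cop m Y, l2r M y ∈ cop M M := by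
    intro y hy
    rw [mem_cop] at hy ⊢
    refine ⟨by unfold l2r; omega, ?_, ?_⟩
    · have := Nat.mod_lt (y - 1) hM0
      unfold l2r
      omega
    · have h1 : y.Coprime M := Nat.Coprime.coprime_dvd_right hMm hy.2.2
      have h2 := (l2r_modEq M y hy.1).gcd_eq
      rw [Nat.coprime_iff_gcd_eq_one] at h1 ⊢
      rw [h2]
      exact h1
  have hsum : ∀ χ ∈ X, ∑ y ∈ cop m Y, f y * χ (y : ZMod m)
      = ∑ u ∈ cop M M, G u * (g χ) (u : ZMod M) := by
    intro χ hχ
    rw [← sum_fiberwise_of_maps_to hmaps]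
    refine sum_congr rfl fun u hu => ?_
    rw [hG, sum_mul]
    refine sum_congr rfl fun y hy => ?_
    rw [mem_filter, mem_cop] at hy
    rw [hval χ hχ y hy.1.2.2]
    have h1 : ((l2r M y : ℕ) : ZMod M) = ((y : ℕ) : ZMod M) :=
      (ZMod.natCast_eq_natCast_iff _ _ _).2 (l2r_modEq M y hy.1.1)
    rw [← h1, hy.2]
  have hle : ∑ χ ∈ X, ‖∑ y ∈ cop m Y, f y * χ (y : ZMod m)‖ ^ 2
      ≤ (M.totient : ℝ) * ∑ u ∈ cop M M, ‖G u‖ ^ 2 := by
    rw [← ortho_coef M (cop M M) (fun s hs => by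
      rw [mem_cop] at hs
      exact ⟨hs.2.2, hs.1, hs.2.1⟩) G]
    calc ∑ χ ∈ X, ‖∑ y ∈ cop m Y, f y * χ (y : ZMod m)‖ ^ 2
        = ∑ χ ∈ X, ‖∑ u ∈ cop M M, G u * (g χ) (u : ZMod M)‖ ^ 2 :=
          sum_congr rfl fun χ hχ => by rw [hsum χ hχ]
      _ = ∑ ψ ∈ X.image g, ‖∑ u ∈ cop M M, G u * ψ (u : ZMod M)‖ ^ 2 := by
          rw [sum_image hginj]
      _ ≤ _ := sum_le_univ_sum_of_nonneg fun _ => by positivity
  -- the size of the coefficients
  have hcard : ∀ u, ‖G u‖ ≤ (((cop m Y).filter (fun y => l2r M y = u)).card : ℝ) := by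
    intro u
    rw [hG]
    refine (norm_sum_le _ _).trans ?_
    refine (sum_le_sum (g := fun _ => (1 : ℝ)) fun y _ => hf y).trans ?_
    rw [sum_const, nsmul_eq_mul, mul_one]
  have hcard2 : ∀ u, (((cop m Y).filter (fun y => l2r M y = u)).card : ℝ) ≤ (Y : ℝ) / M + 1 := by
    intro u
    have h1 : ((cop m Y).filter (fun y => l2r M y = u)).card ≤ Y / M + 1 := by
      refine le_trans (card_le_card ?_) (l2_card M Y u)
      intro y hy
      rw [mem_filter, mem_cop] at hy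
      rw [mem_filter, mem_Icc]
      exact ⟨⟨hy.1.1, hy.1.2.1⟩, hy.2⟩
    have h2 : (((cop m Y).filter (fun y => l2r M y = u)).card : ℝ) ≤ ((Y / M + 1 : ℕ) : ℝ) := by
      exact_mod_cast h1
    refine h2.trans ?_
    rw [Nat.cast_add, Nat.cast_one]
    have := @Nat.cast_div_le ℝ _ _ _ Y M
    linarith
  have htot : ∑ u ∈ cop M M, (((cop m Y).filter (fun y => l2r M y = u)).card : ℝ) ≤ Y := by
    have h1 : ∑ u ∈ cop M M, ((cop m Y).filter (fun y => l2r M y = u)).card = (cop m Y).card :=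
      (card_eq_sum_card_fiberwise hmaps).symm
    have h2 : (cop m Y).card ≤ Y := by
      have : (cop m Y).card ≤ (Icc 1 Y).card := card_le_card (filter_subset _ _)
      rwa [Nat.card_Icc, Nat.add_sub_cancel] at this
    rw [← Nat.cast_sum, h1]
    exact_mod_cast h2
  have hMpos : (0 : ℝ) < M := by exact_mod_cast hM0
  have hY0 : (0 : ℝ) ≤ Y := Nat.cast_nonneg _
  have hsq : ∑ u ∈ cop M M, ‖G u‖ ^ 2 ≤ ((Y : ℝ) / M + 1) * Y := by
    calc ∑ u ∈ cop M M, ‖G u‖ ^ 2
        ≤ ∑ u ∈ cop M M, ((Y : ℝ) / M + 1) *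
            (((cop m Y).filter (fun y => l2r M y = u)).card : ℝ) := by
          refine sum_le_sum fun u _ => ?_
          rw [pow_two]
          exact mul_le_mul ((hcard u).trans (hcard2 u)) (hcard u) (norm_nonneg _) (by positivity)
      _ = ((Y : ℝ) / M + 1) *
            ∑ u ∈ cop M M, (((cop m Y).filter (fun y => l2r M y = u)).card : ℝ) := by
          rw [mul_sum]
      _ ≤ _ := mul_le_mul_of_nonneg_left htot (by positivity)
  have htot' : (M.totient : ℝ) ≤ M := by exact_mod_cast Nat.totient_le M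
  have hfin : (M.totient : ℝ) * ∑ u ∈ cop M M, ‖G u‖ ^ 2 ≤ (Y : ℝ) ^ 2 + M * Y := by
    calc (M.totient : ℝ) * ∑ u ∈ cop M M, ‖G u‖ ^ 2
        ≤ M * (((Y : ℝ) / M + 1) * Y) :=
          mul_le_mul htot' hsq (sum_nonneg fun _ _ => by positivity) hMpos.le
      _ = (Y : ℝ) ^ 2 + M * Y := by
          field_simp
  refine (hle.trans hfin).trans ?_
  have hP0 : (0 : ℝ) < P := by linarith
  have hφ : (0 : ℝ) < m.totient := by exact_mod_cast Nat.totient_pos.2 hm
  have hrpow : P ^ (-2 + 0 : ℝ) = (P ^ 2)⁻¹ := by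
    rw [add_zero, Real.rpow_neg hP0.le]
    norm_cast
  rw [hrpow]
  have e1 : (m : ℝ) / m.totient * m.totient * m * (P ^ 2)⁻¹ = (m : ℝ) ^ 2 / P ^ 2 := by
    field_simp
  rw [e1, le_div_iff₀ (by positivity)]
  have hmD : (m : ℝ) = D * M := by rw [hMD]; push_cast; ring
  have hPM : P * M ≤ m := by
    rw [hmD]
    exact mul_le_mul_of_nonneg_right hPD hMpos.le
  have h1 : (P * Y) ^ 2 ≤ (m / 2) ^ 2 := by
    have : P * Y ≤ m / 2 := by linarith
    exact pow_le_pow_left₀ (by positivity) this 2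
  have h2 : (P * M) * (P * Y) ≤ m * (m / 2) := by
    have : P * Y ≤ m / 2 := by linarith
    exact mul_le_mul hPM this (by positivity) (by positivity)
  nlinarith [sq_nonneg (m : ℝ)]

end Pool.Agent.H78.PD
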