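import Pool.Agent.H78.PD.Base
import Pool.Agent.H78.PD.Iter

/-!
# PD, Main1: the main theorem of Part I

`b = σ/16`, `θ = b/12`.  Replace `Q` by `Q' = min Q ⌈(C log log m)^(1/θ)⌉` (the hypotheses get weaker, except `m/φ(m) ≤ Q'^θ`, which for `Q' < Q` follows from `m/φ(m) ≤ C log log m`: `tot_logw`, and `omega_le`
in `PH/HNum.lean`).  `x = Q'^(b/3) ≤ (log m)^(1/4)`.  `base b` with `κ = ε1 = ε/16`; `step` at `x` with `α = b`, `γ = b`, `P1 = Q' ≤ exp x`, `P2 = exp(Q'^(3b/4)) ≥ exp(3x²)`, `B = Q' (m/φ)`: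
`Q' (m/φ)² x^7 exp(-b x) ≤ 1` as `m/φ ≤ x^(1/4)` and `x = Q'^(b/3)`; `iter` at `x`, `α = b` (`b + 2/√x ≤ σ/8`).  Total `4 ε1 + (C + C')/log x ≤ ε`.
-/

set_option autoImplicit false

namespace Pool.Agent.H78.PD

open Finset
open Pool.Agent.H34PG (lam lam_val lam_mul lam_prime)
open Pool.Agent.H11.LQ Pool.Agent.H78.PG

theorem Main1_x (b : ℝ) (hb : 0 < b) : ∃ X1 : ℝ, ∀ x : ℝ, X1 ≤ x →
    3 / b * Real.log x ≤ x ∧ (3 / b + 7) * Real.log x + 2 * x ^ (3 / 4 : ℝ) ≤ b * x := by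
  have e1 : ∀ᶠ x : ℝ in Filter.atTop, 1 ≤ x := Filter.eventually_ge_atTop 1
  have e2 : ∀ᶠ x : ℝ in Filter.atTop, ‖Real.log x‖ ≤ (b / 3) * ‖x‖ :=
    Real.isLittleO_log_id_atTop.bound (by positivity)
  have e3 : ∀ᶠ x : ℝ in Filter.atTop, ‖Real.log x‖ ≤ (b / (2 * (3 / b + 7))) * ‖x‖ :=
    Real.isLittleO_log_id_atTop.bound (by positivity)
  have e4 : ∀ᶠ x : ℝ in Filter.atTop, 4 / b ≤ x ^ (1 / 4 : ℝ) :=
    (tendsto_rpow_atTop (by norm_num : (0 : ℝ) < 1 / 4)).eventually_ge_atTop (4 / b)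
  obtain ⟨X1, h⟩ := Filter.eventually_atTop.1 (e1.and (e2.and (e3.and e4)))
  refine ⟨X1, fun x hx => ?_⟩
  obtain ⟨h1, h2, h3, h4⟩ := h x hx
  have hx0 : 0 < x := by linarith
  have hl0 : 0 ≤ Real.log x := Real.log_nonneg h1
  rw [Real.norm_of_nonneg hl0, Real.norm_of_nonneg hx0.le] at h2 h3
  constructor
  · calc 3 / b * Real.log x ≤ 3 / b * (b / 3 * x) := by gcongr
      _ = x := by field_simp
  · have h5 : (3 / b + 7) * Real.log x ≤ b / 2 * x := by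
      calc (3 / b + 7) * Real.log x ≤ (3 / b + 7) * (b / (2 * (3 / b + 7)) * x) := by gcongr
        _ = b / 2 * x := by field_simp
    have h6 : x ^ (3 / 4 : ℝ) * x ^ (1 / 4 : ℝ) = x := by
      rw [← Real.rpow_add hx0]
      norm_num
    have h7 : 0 < x ^ (3 / 4 : ℝ) := Real.rpow_pos_of_pos hx0 _
    have h8 : 2 * x ^ (3 / 4 : ℝ) ≤ b / 2 * x := by
      calc 2 * x ^ (3 / 4 : ℝ) = b / 2 * (x ^ (3 / 4 : ℝ) * (4 / b)) := by field_simp; norm_num
        _ ≤ b / 2 * (x ^ (3 / 4 : ℝ) * x ^ (1 / 4 : ℝ)) := by gcongr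
        _ = b / 2 * x := by rw [h6]
    linarith

theorem Main1_y (b D : ℝ) (hb : 0 < b) (hb1 : b ≤ 1) (hD : 0 < D) : ∃ Y0 : ℝ, ∀ y : ℝ, Y0 ≤ y →
    ((D * y) ^ (12 / b) + 1) ^ (b / 3) ≤ Real.exp (y / 4) := by
  have e1 := (Real.tendsto_exp_div_pow_atTop 4).eventually_ge_atTop (2 * (4 * D) ^ 4)
  have e2 : Filter.Tendsto (fun y : ℝ => y / 4) Filter.atTop Filter.atTop :=
    Filter.tendsto_id.atTop_div_const (by norm_num)
  obtain ⟨Y1, h1⟩ := Filter.eventually_atTop.1 (e2.eventually e1)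
  refine ⟨max Y1 (max 1 (1 / D)), fun y hy => ?_⟩
  have hy1 : Y1 ≤ y := (le_max_left _ _).trans hy
  have hy2 : 1 ≤ y := ((le_max_left _ _).trans (le_max_right _ _)).trans hy
  have hy3 : 1 / D ≤ y := ((le_max_right _ _).trans (le_max_right _ _)).trans hy
  have hDy : 1 ≤ D * y := by
    rw [div_le_iff₀ hD] at hy3
    linarith
  have h2 : 1 ≤ (D * y) ^ (12 / b) := Real.one_le_rpow hDy (by positivity)
  have h3 : ((D * y) ^ (12 / b) + 1) ^ (b / 3) ≤ (2 * (D * y) ^ (12 / b)) ^ (b / 3) := by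
    refine Real.rpow_le_rpow (by linarith) ?_ (by positivity)
    linarith
  have h4 : (2 * (D * y) ^ (12 / b)) ^ (b / 3) = 2 ^ (b / 3) * (D * y) ^ 4 := by
    rw [Real.mul_rpow (by norm_num) (by positivity), ← Real.rpow_mul (by linarith),
      ← Real.rpow_natCast (D * y) 4]
    congr 2
    field_simp
    norm_num
  have h5 : (2 : ℝ) ^ (b / 3) ≤ 2 := by
    calc (2 : ℝ) ^ (b / 3) ≤ 2 ^ (1 : ℝ) :=
          Real.rpow_le_rpow_of_exponent_le (by norm_num) (by linarith)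
      _ = 2 := by rw [Real.rpow_one]
  have h6 := h1 y hy1
  rw [le_div_iff₀ (by positivity)] at h6
  calc ((D * y) ^ (12 / b) + 1) ^ (b / 3) ≤ 2 ^ (b / 3) * (D * y) ^ 4 := by
        rw [← h4]
        exact h3
    _ ≤ 2 * (D * y) ^ 4 := by gcongr
    _ = 2 * (4 * D) ^ 4 * (y / 4) ^ 4 := by ring
    _ ≤ Real.exp (y / 4) := h6

theorem Main1_m (b D R : ℝ) (hb : 0 < b) (hb1 : b ≤ 1) (hD : 0 < D) : ∃ m0 : ℕ, ∀ m : ℕ, m0 ≤ m →
    3 ≤ m ∧ 1 ≤ Real.log m ∧ 0 < Real.log (Real.log m) ∧ R ≤ Real.log (Real.log m) ∧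
      ((D * Real.log (Real.log m)) ^ (12 / b) + 1) ^ (b / 3) ≤ Real.log m ^ (1 / 4 : ℝ) ∧
      300 * Real.log m ^ (1 / 2 : ℝ) ≤ Real.log m ∧ 2 * Real.log m + 2 ≤ Real.log m ^ 2 := by
  have t1 : Filter.Tendsto (fun m : ℕ => Real.log (Real.log m)) Filter.atTop Filter.atTop :=
    Real.tendsto_log_atTop.comp (Real.tendsto_log_atTop.comp tendsto_natCast_atTop_atTop)
  have t2 : Filter.Tendsto (fun m : ℕ => Real.log m) Filter.atTop Filter.atTop :=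
    Real.tendsto_log_atTop.comp tendsto_natCast_atTop_atTop
  obtain ⟨Y0, hY0⟩ := Main1_y b D hb hb1 hD
  obtain ⟨m0, h⟩ := Filter.eventually_atTop.1 ((Filter.eventually_ge_atTop 3).and
    ((t2.eventually_ge_atTop 1).and ((t1.eventually_ge_atTop R).and
      ((t1.eventually_ge_atTop 3072).and (t1.eventually_ge_atTop Y0)))))
  refine ⟨m0, fun m hm => ?_⟩
  obtain ⟨h1, h2, h3, h4, h5⟩ := h m hm
  have hL : 0 < Real.log m := by linarith
  obtain ⟨y, hy⟩ : ∃ y, y = Real.log (Real.log m) := ⟨_, rfl⟩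
  have hy2 : Real.log m = Real.exp y := by rw [hy, Real.exp_log hL]
  rw [← hy] at h3 h4 h5 ⊢
  have k1 := hY0 y h5
  have k4 : Real.log m ^ (1 / 4 : ℝ) = Real.exp (y / 4) := by
    rw [hy2, ← Real.exp_mul]
    congr 1
    ring
  have k5 : Real.log m ^ (1 / 2 : ℝ) = Real.exp (y / 2) := by
    rw [hy2, ← Real.exp_mul]
    congr 1
    ring
  have k2 : 300 * Real.exp (y / 2) ≤ Real.exp y := by
    have h1 : Real.exp y = Real.exp (y / 2) * Real.exp (y / 2) := by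
      rw [← Real.exp_add]
      congr 1
      ring
    have h2 : 300 ≤ Real.exp (y / 2) := by
      have := Real.add_one_le_exp (y / 2)
      linarith
    rw [h1]
    have h3 : 0 < Real.exp (y / 2) := Real.exp_pos _
    nlinarith
  have k3 : 2 * Real.exp y + 2 ≤ Real.exp y ^ 2 := by
    have h1 : 3 ≤ Real.exp y := by
      have := Real.add_one_le_exp y
      linarith
    nlinarith
  rw [k4, k5, hy2]
  exact ⟨h1, by rw [← hy2]; exact h2, by linarith, h3, k1, k2, k3⟩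

theorem energy_main0 (σ : ℝ) (hσ : 0 < σ) (hσ1 : σ ≤ 1) : ∃ θ : ℝ, 0 < θ ∧ ∀ ε : ℝ, 0 < ε →
    ∃ ε1 : ℝ, 0 < ε1 ∧ ∃ Q0 m0 : ℕ, ∀ (m : ℕ) [NeZero m], m0 ≤ m → ∀ Q : ℕ, Q0 ≤ Q →
    (m : ℝ) ≤ (Q : ℝ) ^ θ * m.totient → ∀ η : ℤ, (η = 1 ∨ η = -1) →
    (∀ q : ℕ, q.Prime → q ≤ Q → (Q : ℝ) * ((ExU m η q).card : ℝ) ≤ ε1 * m.totient) →
    ∃ U : Finset (DirichletCharacter ℂ m), (U.card : ℝ) ≤ (m : ℝ) ^ σ ∧ wout m η U ≤ ε := by
  obtain ⟨b, hbdef⟩ : ∃ b, b = σ / 16 := ⟨_, rfl⟩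
  have hb : 0 < b := by rw [hbdef]; positivity
  have hb1 : b ≤ 1 := by rw [hbdef]; linarith
  refine ⟨b / 12, by positivity, fun ε hε => ?_⟩
  obtain ⟨Q1, HB⟩ := base b hb hb1
  obtain ⟨xs, Cs, hxs, hCs, ms, HS⟩ := step
  obtain ⟨xi, Ci, hxi, hCi, mi, HI⟩ := iter σ hσ hσ1
  obtain ⟨X1, HX⟩ := Main1_x b hb
  obtain ⟨D0, hD0, HD⟩ := tot_logw
  obtain ⟨X0, hX0⟩ : ∃ X0, X0 = max (max (max xs xi) (max ((32 / σ) ^ 2) (Real.exp (2 * (Cs + Ci) / ε))))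
      (max X1 81) := ⟨_, rfl⟩
  have hXs : xs ≤ X0 := by
    rw [hX0]
    exact ((le_max_left _ _).trans (le_max_left _ _)).trans (le_max_left _ _)
  have hXi : xi ≤ X0 := by
    rw [hX0]
    exact ((le_max_right _ _).trans (le_max_left _ _)).trans (le_max_left _ _)
  have hXσ : (32 / σ) ^ 2 ≤ X0 := by
    rw [hX0]
    exact ((le_max_left _ _).trans (le_max_right _ _)).trans (le_max_left _ _)
  have hXe : Real.exp (2 * (Cs + Ci) / ε) ≤ X0 := by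
    rw [hX0]
    exact ((le_max_right _ _).trans (le_max_right _ _)).trans (le_max_left _ _)
  have hX1 : X1 ≤ X0 := by
    rw [hX0]
    exact (le_max_left _ _).trans (le_max_right _ _)
  have hX81 : 81 ≤ X0 := by
    rw [hX0]
    exact (le_max_right _ _).trans (le_max_right _ _)
  have hX00 : 0 < X0 := by linarith
  obtain ⟨Q0, hQ0⟩ : ∃ Q0 : ℕ, Q0 = max (max Q1 ⌈X0 ^ (3 / b)⌉₊) 1 := ⟨_, rfl⟩
  have hQ01 : Q1 ≤ Q0 := by
    rw [hQ0]
    exact (le_max_left _ _).trans (le_max_left _ _)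
  have hQ02 : X0 ^ (3 / b) ≤ (Q0 : ℝ) := by
    refine (Nat.le_ceil _).trans ?_
    rw [hQ0]
    exact_mod_cast (le_max_right _ _).trans (le_max_left _ _)
  have hQ03 : 1 ≤ Q0 := by
    rw [hQ0]
    exact le_max_right _ _
  obtain ⟨mm, HM⟩ := Main1_m b (2 * D0) ((Q0 : ℝ) ^ (b / 12) / (2 * D0) + 1) hb hb1 (by positivity)
  refine ⟨ε / 16, by positivity, Q0, max (max ms mi) mm, ?_⟩
  intro m _ hm Q hQ hω η hη hE
  have hms : ms ≤ m := ((le_max_left _ _).trans (le_max_left _ _)).trans hm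
  have hmi : mi ≤ m := ((le_max_right _ _).trans (le_max_left _ _)).trans hm
  have hmm : mm ≤ m := (le_max_right _ _).trans hm
  obtain ⟨hm3, hL1, hLL, hLR, hLx, hL300, hLsq⟩ := HM m hmm
  obtain ⟨N, hN⟩ : ∃ N : ℕ, N = ⌈(2 * D0 * Real.log (Real.log m)) ^ (12 / b)⌉₊ := ⟨_, rfl⟩
  have hNl : (2 * D0 * Real.log (Real.log m)) ^ (12 / b) ≤ (N : ℝ) := by
    rw [hN]
    exact Nat.le_ceil _
  have hNu : (N : ℝ) ≤ (2 * D0 * Real.log (Real.log m)) ^ (12 / b) + 1 := by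
    rw [hN]
    exact (Nat.ceil_lt_add_one (by positivity)).le
  have hNθ : 2 * D0 * Real.log (Real.log m) ≤ (N : ℝ) ^ (b / 12) := by
    calc 2 * D0 * Real.log (Real.log m)
        = ((2 * D0 * Real.log (Real.log m)) ^ (12 / b)) ^ (b / 12) := by
          rw [← Real.rpow_mul (by positivity)]
          have : 12 / b * (b / 12) = 1 := by field_simp
          rw [this, Real.rpow_one]
      _ ≤ (N : ℝ) ^ (b / 12) := Real.rpow_le_rpow (by positivity) hNl (by positivity)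
  have hNQ0 : Q0 ≤ N := by
    by_contra hcon
    rw [not_le] at hcon
    have h1 : (N : ℝ) ^ (b / 12) ≤ (Q0 : ℝ) ^ (b / 12) :=
      Real.rpow_le_rpow (by positivity) (by exact_mod_cast hcon.le) (by positivity)
    have h2 : (Q0 : ℝ) ^ (b / 12) < 2 * D0 * Real.log (Real.log m) := by
      have h3 : (Q0 : ℝ) ^ (b / 12) / (2 * D0) < Real.log (Real.log m) := by linarith
      rw [div_lt_iff₀ (by positivity)] at h3
      linarith
    linarith
  obtain ⟨Q', hQ'⟩ : ∃ Q' : ℕ, Q' = min Q N := ⟨_, rfl⟩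
  have hQ'Q : Q' ≤ Q := by
    rw [hQ']
    exact min_le_left _ _
  have hQ'N : Q' ≤ N := by
    rw [hQ']
    exact min_le_right _ _
  have hQ'0 : Q0 ≤ Q' := by
    rw [hQ']
    exact le_min hQ hNQ0
  have hQ'1 : (1 : ℝ) ≤ Q' := by exact_mod_cast hQ03.trans hQ'0
  have hQ'p : (0 : ℝ) < Q' := by linarith
  have hω' : (m : ℝ) ≤ (Q' : ℝ) ^ (b / 12) * m.totient := by
    rcases le_total Q N with h | h
    · rw [hQ', min_eq_left h]
      exact hω
    · rw [hQ', min_eq_right h]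
      have h1 := Pool.Agent.H78.PH.omega_le m m (by omega) (le_refl _)
      have h3 : Real.log ((m.primeFactors.card : ℝ) + 2) ≤ 2 * Real.log (Real.log m) := by
        have h4 : (m.primeFactors.card : ℝ) + 2 ≤ Real.log m ^ 2 := by linarith
        have h5 := Real.log_le_log (by positivity) h4
        rw [Real.log_pow] at h5
        push_cast at h5
        exact h5
      calc (m : ℝ) ≤ D0 * Real.log (m.primeFactors.card + 2) * m.totient := HD m (by omega)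
        _ ≤ D0 * (2 * Real.log (Real.log m)) * m.totient := by gcongr
        _ = 2 * D0 * Real.log (Real.log m) * m.totient := by ring
        _ ≤ (N : ℝ) ^ (b / 12) * m.totient := by gcongr
  obtain ⟨x, hx⟩ : ∃ x : ℝ, x = (Q' : ℝ) ^ (b / 3) := ⟨_, rfl⟩
  have hx0 : X0 ≤ x := by
    have h1 : X0 ^ (3 / b) ≤ (Q' : ℝ) := hQ02.trans (by exact_mod_cast hQ'0)
    calc X0 = (X0 ^ (3 / b)) ^ (b / 3) := by
          rw [← Real.rpow_mul hX00.le]
          have : 3 / b * (b / 3) = 1 := by field_simp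
          rw [this, Real.rpow_one]
      _ ≤ x := by
          rw [hx]
          exact Real.rpow_le_rpow (by positivity) h1 (by positivity)
  have hxp : 0 < x := by linarith
  have hx1 : 1 ≤ x := by linarith
  have hxL : x ≤ Real.log m ^ (1 / 4 : ℝ) := by
    refine le_trans ?_ hLx
    rw [hx]
    refine Real.rpow_le_rpow hQ'p.le ?_ (by positivity)
    exact le_trans (by exact_mod_cast hQ'N) hNu
  have hlogx : Real.log x = b / 3 * Real.log Q' := by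
    rw [hx, Real.log_rpow hQ'p]
  have hlogQ : Real.log Q' = 3 / b * Real.log x := by
    rw [hlogx]
    field_simp
  have hx34 : (Q' : ℝ) ^ (b / 12) = x ^ (1 / 4 : ℝ) := by
    rw [hx, ← Real.rpow_mul hQ'p.le]
    congr 1
    ring
  have hx94 : (Q' : ℝ) ^ (3 * b / 4) = x ^ (9 / 4 : ℝ) := by
    rw [hx, ← Real.rpow_mul hQ'p.le]
    congr 1
    ring
  obtain ⟨hA1, hA2⟩ := HX x (hX1.trans hx0)
  have hωx : (m : ℝ) ≤ x ^ (1 / 4 : ℝ) * m.totient := by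
    rw [← hx34]
    exact hω'
  have hsq : x ^ 2 ≤ Real.log m ^ (1 / 2 : ℝ) := by
    calc x ^ 2 ≤ (Real.log m ^ (1 / 4 : ℝ)) ^ 2 := by gcongr
      _ = Real.log m ^ (1 / 2 : ℝ) := by
          rw [← Real.rpow_natCast, ← Real.rpow_mul (by linarith)]
          norm_num
  have h3x : 3 * x ^ 2 ≤ Real.log m / 100 := by linarith
  obtain ⟨X, hXw, hXL⟩ := HB Q' (hQ01.trans hQ'0) m hm3 η hη (ε / 16) (fun q hq hqQ => by
    refine le_trans ?_ (hE q hq (hqQ.trans hQ'Q))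
    have : (Q' : ℝ) ≤ Q := by exact_mod_cast hQ'Q
    exact mul_le_mul_of_nonneg_right this (Nat.cast_nonneg _))
  have hφ : (0 : ℝ) < m.totient := by
    exact_mod_cast Nat.totient_pos.2 (by omega)
  have hr0 : 0 ≤ (m : ℝ) / m.totient := by positivity
  have hr : (m : ℝ) / m.totient ≤ Real.exp (x ^ (3 / 4 : ℝ)) := by
    rw [div_le_iff₀ hφ]
    refine hωx.trans (mul_le_mul_of_nonneg_right ?_ hφ.le)
    calc x ^ (1 / 4 : ℝ) ≤ x ^ (3 / 4 : ℝ) :=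
          Real.rpow_le_rpow_of_exponent_le hx1 (by norm_num)
      _ ≤ Real.exp (x ^ (3 / 4 : ℝ)) := by
          have := Real.add_one_le_exp (x ^ (3 / 4 : ℝ))
          linarith
  have hP1 : (Q' : ℝ) ≤ Real.exp x := by
    rw [← Real.log_le_iff_le_exp hQ'p, hlogQ]
    exact hA1
  have hP2 : Real.exp (3 * x ^ 2) ≤ Real.exp ((Q' : ℝ) ^ (3 * b / 4)) := by
    rw [hx94]
    refine Real.exp_le_exp.2 ?_
    have h1 : (3 : ℝ) ≤ x ^ (1 / 4 : ℝ) := by
      calc (3 : ℝ) = (81 : ℝ) ^ (1 / 4 : ℝ) := by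
            rw [show (81 : ℝ) = 3 ^ (4 : ℝ) by norm_num, ← Real.rpow_mul (by norm_num)]
            norm_num
        _ ≤ x ^ (1 / 4 : ℝ) := Real.rpow_le_rpow (by norm_num) (by linarith) (by norm_num)
    have h2 : x ^ (9 / 4 : ℝ) = x ^ (1 / 4 : ℝ) * x ^ 2 := by
      rw [← Real.rpow_natCast, ← Real.rpow_add hxp]
      norm_num
    rw [h2]
    gcongr
  have hBx : (Q' : ℝ) * ((m : ℝ) / m.totient) * ((m : ℝ) / m.totient) * x ^ 7 *
      Real.exp (-((2 * b - b) * x)) ≤ 1 := by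
    have e1 : (Q' : ℝ) = Real.exp (3 / b * Real.log x) := by
      rw [← hlogQ, Real.exp_log hQ'p]
    have e2 : x ^ 7 = Real.exp (7 * Real.log x) := by
      rw [mul_comm, Real.exp_mul, Real.exp_log hxp, ← Real.rpow_natCast]
      norm_num
    calc (Q' : ℝ) * ((m : ℝ) / m.totient) * ((m : ℝ) / m.totient) * x ^ 7 * Real.exp (-((2 * b - b) * x))
        ≤ (Q' : ℝ) * Real.exp (x ^ (3 / 4 : ℝ)) * Real.exp (x ^ (3 / 4 : ℝ)) * x ^ 7 *
          Real.exp (-((2 * b - b) * x)) := by gcongr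
      _ = Real.exp (3 / b * Real.log x + x ^ (3 / 4 : ℝ) + x ^ (3 / 4 : ℝ) + 7 * Real.log x +
          -((2 * b - b) * x)) := by
          rw [e2, Real.exp_add, Real.exp_add, Real.exp_add, Real.exp_add, ← e1]
      _ ≤ Real.exp 0 := by
          refine Real.exp_le_exp.2 ?_
          linarith
      _ = 1 := Real.exp_zero
  have hS := HS m hms η hη x (hXs.trans hx0) h3x hωx X _ b _ _ b hXL hP1 hP2 (by linarith)
    (by linarith) (by positivity) hBx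
  have hb2 : b + 2 / Real.sqrt x ≤ σ / 8 := by
    have h1 : 32 / σ ≤ Real.sqrt x := by
      refine Real.le_sqrt_of_sq_le ?_
      linarith
    have h2 : 0 < 32 / σ := by positivity
    have h3 : 2 / Real.sqrt x ≤ 2 / (32 / σ) := by gcongr
    have h4 : 2 / (32 / σ) = σ / 16 := by
      field_simp
      norm_num
    rw [hbdef]
    linarith
  obtain ⟨U, hU1, hU2⟩ := HI m hmi η hη x b (hXi.trans hx0) hxL hb.le hb2 hωx
  refine ⟨U, hU1, ?_⟩
  have hlog : 2 * (Cs + Ci) / ε ≤ Real.log x := by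
    rw [Real.le_log_iff_exp_le hxp]
    linarith
  have hlogp : 0 < Real.log x := lt_of_lt_of_le (by positivity) hlog
  have hfin : Cs / Real.log x + Ci / Real.log x ≤ ε / 2 := by
    rw [← add_div, div_le_iff₀ hlogp]
    rw [div_le_iff₀ hε] at hlog
    linarith
  linarith

theorem energy_main (σ ε : ℝ) (hσ : 0 < σ) (hσ1 : σ ≤ 1) (hε : 0 < ε) : ∃ θ ε1 : ℝ, 0 < θ ∧ 0 < ε1 ∧
    ∃ Q0 m0 : ℕ, ∀ (m : ℕ) [NeZero m], m0 ≤ m → ∀ Q : ℕ, Q0 ≤ Q →
    (m : ℝ) ≤ (Q : ℝ) ^ θ * m.totient → ∀ η : ℤ, (η = 1 ∨ η = -1) →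
    (∀ q : ℕ, q.Prime → q ≤ Q → (Q : ℝ) * ((ExU m η q).card : ℝ) ≤ ε1 * m.totient) →
    ∃ U : Finset (DirichletCharacter ℂ m), (U.card : ℝ) ≤ (m : ℝ) ^ σ ∧ wout m η U ≤ ε := by
  obtain ⟨θ, hθ, H⟩ := energy_main0 σ hσ hσ1
  obtain ⟨ε1, hε1, Q0, m0, H1⟩ := H ε hε
  exact ⟨θ, ε1, hθ, hε1, Q0, m0, H1⟩

end Pool.Agent.H78.PD
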