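import Mathlib

set_option autoImplicit false

namespace Pool.Agent.H78.PD

/-- a real nonprincipal character modulo `p ^ n` or `2 p ^ n`, `p ≡ 3` mod 4, is odd -/
theorem odd_of_three {p n N : ℕ} [NeZero N] (hp : p.Prime) (h3 : p % 4 = 3)
    (hN : N = p ^ n ∨ N = 2 * p ^ n) (χ : DirichletCharacter ℂ N) (h2 : χ ^ 2 = 1) (h1 : χ ≠ 1) :
    χ (-1) = -1 := by
  have hpo : Odd p := by
    rw [Nat.odd_iff]
    omega
  have hn : 1 ≤ n := by
    by_contra hn
    have hn0 : n = 0 := by omega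
    rw [hn0, pow_zero] at hN
    apply h1
    ext u
    have hs : Subsingleton (ZMod N)ˣ := by
      rcases hN with h | h
      · subst h
        infer_instance
      · subst h
        exact ⟨by decide⟩
    rw [Subsingleton.elim u 1]
    simp
  have hcyc : IsCyclic (ZMod N)ˣ := by
    rw [ZMod.isCyclic_units_iff]
    exact Or.inr (Or.inr (Or.inr (Or.inr ⟨p, n, hp, hpo, hn, hN⟩)))
  obtain ⟨g, hg⟩ := hcyc.exists_generator
  have hpN : p ∣ N := by
    rcases hN with h | h
    · rw [h]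
      exact dvd_pow_self p (by omega)
    · rw [h]
      exact Dvd.dvd.mul_left (dvd_pow_self p (by omega)) 2
  obtain ⟨k, hk⟩ := Subgroup.mem_zpowers_iff.1 (hg (-1))
  have hz : ∀ j : ℤ, χ.toUnitHom (g ^ j) = χ.toUnitHom g ^ j := fun j => map_zpow _ _ _
  have hsq : χ.toUnitHom g ^ 2 = 1 := by
    ext
    rw [Units.val_pow_eq_pow_val, MulChar.coe_toUnitHom, ← MulChar.pow_apply' _ two_ne_zero, h2,
      MulChar.one_apply g.isUnit]
    rfl
  have hg1 : χ.toUnitHom g = 1 ∨ χ.toUnitHom g = -1 := by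
    have h4 : ((χ.toUnitHom g : ℂˣ) : ℂ) ^ 2 = 1 := by
      rw [← Units.val_pow_eq_pow_val, hsq]
      rfl
    rcases sq_eq_one_iff.1 h4 with h | h
    · exact Or.inl (Units.ext h)
    · exact Or.inr (Units.ext h)
  have hg2 : χ.toUnitHom g = -1 := by
    refine hg1.resolve_left fun h => h1 ?_
    ext u
    obtain ⟨j, hj⟩ := Subgroup.mem_zpowers_iff.1 (hg u)
    rw [← MulChar.coe_toUnitHom, ← hj, hz, h, one_zpow, MulChar.one_apply (g ^ j).isUnit]
    rfl
  have hodd : Odd k := by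
    by_contra hk2
    rw [Int.not_odd_iff_even] at hk2
    obtain ⟨l, hl⟩ := hk2
    have : Fact p.Prime := ⟨hp⟩
    have h5 : ((g ^ l : (ZMod N)ˣ) : ZMod N) ^ 2 = -1 := by
      rw [← Units.val_pow_eq_pow_val, ← zpow_natCast, ← zpow_mul]
      have : l * ((2 : ℕ) : ℤ) = k := by
        push_cast
        omega
      rw [this, hk]
      rfl
    have h6 : (ZMod.castHom hpN (ZMod p) ((g ^ l : (ZMod N)ˣ) : ZMod N)) ^ 2 = -1 := by
      rw [← map_pow, h5, map_neg, map_one]
    exact ZMod.mod_four_ne_three_of_sq_eq_neg_one h6 h3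
  have h7 : χ.toUnitHom (-1) = -1 := by
    rw [← hk, hz, hg2]
    exact hodd.neg_one_zpow
  have h8 : ((χ.toUnitHom (-1 : (ZMod N)ˣ) : ℂˣ) : ℂ) = -1 := by
    rw [h7]
    rfl
  rw [MulChar.coe_toUnitHom] at h8
  exact h8

end Pool.Agent.H78.PD
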