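import Pool.Agent.H78.PD.Defs
import Pool.Agent.H78.PH.HT7a

/-!
# PD, Par2: characters of positive weight have the right parity
-/

set_option autoImplicit false

namespace Pool.Agent.H78.PD

open Finset
open Pool.Agent.H11.LQ Pool.Agent.H78.PG

theorem ww_par (m : ℕ) [NeZero m] (hm : 3 ≤ m) {η : ℤ} (hη : η = 1 ∨ η = -1)
    (χ : DirichletCharacter ℂ m) (h : ww m η χ ≠ 0) : χ (-1) = (η : ℂ) := by
  refine Pool.Agent.H78.PH.ht7a_par m hm hη χ fun h1 => h ?_
  unfold ww
  rw [h1, norm_zero]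
  norm_num

end Pool.Agent.H78.PD
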