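import Pool.Agent.H78.PD.Siv
import Pool.Agent.H78.PD.Pri

/-!
# PD, Rgh: rough numbers with a middle prime factor

`siv`; `S1(x) = ∑_{n ≤ x} S(n) = V x + O(E)`, `E = m^(1/500)`; `S1 = S1(M1)`; `A = AP m`, `W = ∑_A 1/p ∈ [3.7, 4]` (`pri_mert` with `a = 1/200`, `b = 23/100`, `log 46 = 3.828`), `ω_A(n) = #{p ∈ A : p ∣ n}`.
For `p ∈ A`: `p > m^(1/200) > Q`, so `S(p n) = S(n)`; `M1/(p p') ≥ m^(1/25)/2`, so the errors `E` are `≤ m^(-1/40)` relative to the main terms `V M1/(pp')` (`V ≥ c/log m`) .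
Turán-Kubilius: `∑_{n ≤ M1} S(n)(ω_A(n) - W)² ≤ W S1 + S1/100`, so `∑ {S(n) : ω_A(n) = 0} ≤ S1 (W + 1/100)/W² ≤ (28/100) S1`.
`#RR ≥ #{rough n ≤ M1} - #{rough n ≤ M1/16} - #{rough n ≤ M1, ω_A = 0} - #{n ≤ M1 : n not prime to m, rough}`, the second is `≤ S1(M1/16) ≤ S1/16 + S1/1000`, the third is `≤ (28/100) S1` (`S ≥ 1` there), the last is
`≤ (1/κ) M1 m^(-κ) ≤ S1/1000` (`n` has a prime factor `p ∣ m`, `p > z`; there are at most `1/κ` such `p`).  So `#RR ≥ (98/100 - 28/100 - 1/16 - 1/100) S1 ≥ (11/20) S1`.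
`#{rough n ≤ X} ≤ S1(X) ≤ V X + E ≤ C X/log m` for `X ≥ m^(1/4)`.
-/

set_option autoImplicit false

namespace Pool.Agent.H78.PD

open Finset
open Pool.Agent.H34PG (lam lam_val lam_mul lam_prime)
open Pool.Agent.H11.LQ Pool.Agent.H78.PG

private theorem Rgh_count (q d x : ℕ) (h : Nat.Coprime q d) :
    (((Icc 1 x).filter (fun n => q ∣ n)).filter (fun n => d ∣ n)).card = x / (q * d) := by
  rw [filter_filter]
  have h1 : (Icc 1 x).filter (fun n => q ∣ n ∧ d ∣ n) = (Ioc 0 x).filter (fun n => q * d ∣ n) := by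
    ext n
    rw [mem_filter, mem_filter, mem_Icc, mem_Ioc]
    constructor
    · rintro ⟨⟨h1, h2⟩, h3, h4⟩
      exact ⟨⟨h1, h2⟩, h.mul_dvd_of_dvd_of_dvd h3 h4⟩
    · rintro ⟨⟨h1, h2⟩, h3⟩
      exact ⟨⟨h1, h2⟩, (dvd_mul_right _ _).trans h3, (dvd_mul_left _ _).trans h3⟩
  rw [h1, Nat.Ioc_filter_dvd_card_eq_div]

private theorem Rgh_sum {S g : ℕ → ℝ} {Q : ℕ} {E : ℝ}
    (hS : ∀ n : ℕ, 1 ≤ n → S n = ∑ d ∈ (Icc 1 Q).filter (fun d => d ∣ n), g d)
    (hE : ∑ d ∈ Icc 1 Q, |g d| ≤ E) (q x : ℕ) (hq : 1 ≤ q)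
    (hc : ∀ d ∈ Icc 1 Q, Nat.Coprime q d) :
    |∑ n ∈ (Icc 1 x).filter (fun n => q ∣ n), S n - (∑ d ∈ Icc 1 Q, g d / d) * (x / q)| ≤ E := by
  have h1 : ∑ n ∈ (Icc 1 x).filter (fun n => q ∣ n), S n
      = ∑ d ∈ Icc 1 Q, g d * ((x / (q * d) : ℕ) : ℝ) := by
    calc ∑ n ∈ (Icc 1 x).filter (fun n => q ∣ n), S n
        = ∑ n ∈ (Icc 1 x).filter (fun n => q ∣ n), ∑ d ∈ Icc 1 Q, if d ∣ n then g d else 0 := by
          refine sum_congr rfl fun n hn => ?_
          rw [hS n (mem_Icc.mp (mem_filter.mp hn).1).1, sum_filter]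
      _ = ∑ d ∈ Icc 1 Q, ∑ n ∈ (Icc 1 x).filter (fun n => q ∣ n), if d ∣ n then g d else 0 :=
          sum_comm
      _ = ∑ d ∈ Icc 1 Q, g d * ((x / (q * d) : ℕ) : ℝ) := by
          refine sum_congr rfl fun d hd => ?_
          rw [← sum_filter, sum_const, Rgh_count q d x (hc d hd), nsmul_eq_mul, mul_comm]
  rw [h1, sum_mul, ← sum_sub_distrib]
  refine (abs_sum_le_sum_abs _ _).trans (le_trans (sum_le_sum fun d hd => ?_) hE)
  have hd1 : (0 : ℝ) < d := by exact_mod_cast (mem_Icc.mp hd).1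
  have hq1 : (0 : ℝ) < q := by exact_mod_cast hq
  have h2 : g d * ((x / (q * d) : ℕ) : ℝ) - g d / d * (x / q)
      = g d * (((x / (q * d) : ℕ) : ℝ) - (x : ℝ) / (q * d)) := by
    field_simp
  rw [h2, abs_mul]
  have h3 : |((x / (q * d) : ℕ) : ℝ) - (x : ℝ) / (q * d)| ≤ 1 := by
    have h4 : (((x / (q * d) : ℕ) : ℝ)) ≤ (x : ℝ) / ((q * d : ℕ) : ℝ) := Nat.cast_div_le
    have h5 := Nat.lt_floor_add_one ((x : ℝ) / ((q * d : ℕ) : ℝ))
    rw [Nat.floor_div_eq_div] at h5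
    push_cast at h4 h5 ⊢
    rw [abs_le]
    constructor <;> linarith
  calc |g d| * |((x / (q * d) : ℕ) : ℝ) - (x : ℝ) / (q * d)| ≤ |g d| * 1 :=
        mul_le_mul_of_nonneg_left h3 (abs_nonneg _)
    _ = |g d| := mul_one _

private theorem Rgh_one {S g : ℕ → ℝ} {Q : ℕ} {E V : ℝ}
    (hS : ∀ n : ℕ, 1 ≤ n → S n = ∑ d ∈ (Icc 1 Q).filter (fun d => d ∣ n), g d)
    (hE : ∑ d ∈ Icc 1 Q, |g d| ≤ E) (hV : V = ∑ d ∈ Icc 1 Q, g d / d) (x : ℕ) :
    |∑ n ∈ Icc 1 x, S n - V * x| ≤ E := by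
  have h := Rgh_sum hS hE 1 x le_rfl fun d _ => Nat.coprime_one_left d
  rw [← hV] at h
  have h1 : (Icc 1 x).filter (fun n => 1 ∣ n) = Icc 1 x := filter_true_of_mem fun n _ => one_dvd n
  rw [h1, Nat.cast_one, div_one] at h
  exact h

private theorem Rgh_TK {S g : ℕ → ℝ} {Q : ℕ} {E V W : ℝ} {A : Finset ℕ} {M : ℕ}
    (hS : ∀ n : ℕ, 1 ≤ n → S n = ∑ d ∈ (Icc 1 Q).filter (fun d => d ∣ n), g d)
    (hE : ∑ d ∈ Icc 1 Q, |g d| ≤ E) (hV : V = ∑ d ∈ Icc 1 Q, g d / d) (hV0 : 0 ≤ V)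
    (hA : ∀ p ∈ A, p.Prime ∧ Q < p) (hW : W = ∑ p ∈ A, 1 / (p : ℝ))
    (hpos : ∀ n : ℕ, 1 ≤ n → 0 ≤ S n) :
    W ^ 2 * ∑ n ∈ (Icc 1 M).filter (fun n => ∀ p ∈ A, ¬ p ∣ n), S n
      ≤ V * M * W + E * ((A.card : ℝ) ^ 2 + 2 * W * A.card + W ^ 2) := by
  have hcopr : ∀ p ∈ A, ∀ d ∈ Icc 1 Q, Nat.Coprime p d := by
    intro p hp d hd
    rw [mem_Icc] at hd
    refine (Nat.Prime.coprime_iff_not_dvd (hA p hp).1).mpr fun h => ?_
    have := Nat.le_of_dvd hd.1 h
    have := (hA p hp).2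
    omega
  have hW0 : 0 ≤ W := by
    rw [hW]
    exact sum_nonneg fun p _ => by positivity
  obtain ⟨w, hw⟩ : ∃ w : ℕ → ℝ, ∀ n, w n = ∑ p ∈ A, if p ∣ n then (1 : ℝ) else 0 := ⟨_, fun n => rfl⟩
  -- the zeroth moment
  have hB0 := abs_le.mp (Rgh_one hS hE hV M)
  -- the first moment
  have hB1 : V * M * W - A.card * E ≤ ∑ n ∈ Icc 1 M, S n * w n := by
    have h1 : ∑ n ∈ Icc 1 M, S n * w n = ∑ p ∈ A, ∑ n ∈ (Icc 1 M).filter (fun n => p ∣ n), S n := by
      calc ∑ n ∈ Icc 1 M, S n * w n = ∑ n ∈ Icc 1 M, ∑ p ∈ A, if p ∣ n then S n else 0 := by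
            refine sum_congr rfl fun n _ => ?_
            rw [hw, mul_sum]
            refine sum_congr rfl fun p _ => ?_
            by_cases h1 : p ∣ n <;> simp [h1]
        _ = ∑ p ∈ A, ∑ n ∈ Icc 1 M, if p ∣ n then S n else 0 := sum_comm
        _ = ∑ p ∈ A, ∑ n ∈ (Icc 1 M).filter (fun n => p ∣ n), S n := by
            refine sum_congr rfl fun p _ => ?_
            rw [sum_filter]
    rw [h1]
    have h2 : V * M * W - A.card * E = ∑ p ∈ A, (V * (M / p) - E) := by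
      rw [sum_sub_distrib, sum_const, nsmul_eq_mul, hW, mul_sum]
      congr 1
      refine sum_congr rfl fun p _ => ?_
      ring
    rw [h2]
    refine sum_le_sum fun p hp => ?_
    have h3 := Rgh_sum hS hE p M (hA p hp).1.one_lt.le (hcopr p hp)
    rw [← hV] at h3
    have := (abs_le.mp h3).1
    linarith
  -- the second moment
  have hB2 : ∑ n ∈ Icc 1 M, S n * (w n * w n)
      ≤ V * M * W ^ 2 + V * M * W + (A.card : ℝ) ^ 2 * E := by
    have h2 : ∑ n ∈ Icc 1 M, S n * (w n * w n)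
        = ∑ p ∈ A, ∑ r ∈ A, ∑ n ∈ (Icc 1 M).filter (fun n => p ∣ n ∧ r ∣ n), S n := by
      calc ∑ n ∈ Icc 1 M, S n * (w n * w n)
          = ∑ n ∈ Icc 1 M, ∑ p ∈ A, ∑ r ∈ A, if p ∣ n ∧ r ∣ n then S n else 0 := by
            refine sum_congr rfl fun n _ => ?_
            rw [hw, sum_mul_sum, mul_sum]
            refine sum_congr rfl fun p _ => ?_
            rw [mul_sum]
            refine sum_congr rfl fun r _ => ?_
            by_cases h1 : p ∣ n <;> by_cases h2 : r ∣ n <;> simp [h1, h2]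
        _ = ∑ p ∈ A, ∑ n ∈ Icc 1 M, ∑ r ∈ A, if p ∣ n ∧ r ∣ n then S n else 0 := sum_comm
        _ = ∑ p ∈ A, ∑ r ∈ A, ∑ n ∈ (Icc 1 M).filter (fun n => p ∣ n ∧ r ∣ n), S n := by
            refine sum_congr rfl fun p _ => ?_
            rw [sum_comm]
            refine sum_congr rfl fun r _ => ?_
            rw [sum_filter]
    rw [h2]
    have h3 : ∀ p ∈ A, ∀ r ∈ A, ∑ n ∈ (Icc 1 M).filter (fun n => p ∣ n ∧ r ∣ n), S n
        ≤ V * M * (1 / p * (1 / r)) + (if p = r then V * M * (1 / p) else 0) + E := by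
      intro p hp r hr
      have hVM : 0 ≤ V * M := mul_nonneg hV0 (Nat.cast_nonneg _)
      by_cases hpr : p = r
      · subst hpr
        rw [if_pos rfl]
        have h4 := Rgh_sum hS hE p M (hA p hp).1.one_lt.le (hcopr p hp)
        rw [← hV] at h4
        have h5 := (abs_le.mp h4).2
        have h6 : (Icc 1 M).filter (fun n => p ∣ n ∧ p ∣ n) = (Icc 1 M).filter (fun n => p ∣ n) := by
          refine filter_congr fun n _ => ?_
          exact and_self_iff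
        rw [h6]
        have h7 : 0 ≤ V * M * (1 / (p : ℝ) * (1 / p)) := by positivity
        have h8 : V * (M / (p : ℝ)) = V * M * (1 / p) := by ring
        linarith
      · rw [if_neg hpr]
        have hcpr : Nat.Coprime p r := (Nat.coprime_primes (hA p hp).1 (hA r hr).1).mpr hpr
        have h4 := Rgh_sum hS hE (p * r) M
          (Nat.one_le_iff_ne_zero.mpr (mul_ne_zero (hA p hp).1.ne_zero (hA r hr).1.ne_zero))
          fun d hd => Nat.Coprime.mul_left (hcopr p hp d hd) (hcopr r hr d hd)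
        rw [← hV] at h4
        have h5 := (abs_le.mp h4).2
        have h6 : (Icc 1 M).filter (fun n => p ∣ n ∧ r ∣ n)
            = (Icc 1 M).filter (fun n => p * r ∣ n) := by
          refine filter_congr fun n _ => ⟨fun h => hcpr.mul_dvd_of_dvd_of_dvd h.1 h.2, fun h =>
            ⟨(dvd_mul_right _ _).trans h, (dvd_mul_left _ _).trans h⟩⟩
        rw [h6]
        have h8 : V * (M / ((p * r : ℕ) : ℝ)) = V * M * (1 / p * (1 / r)) := by
          push_cast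
          rw [div_mul_div_comm, one_mul]
          ring
        linarith
    calc ∑ p ∈ A, ∑ r ∈ A, ∑ n ∈ (Icc 1 M).filter (fun n => p ∣ n ∧ r ∣ n), S n
        ≤ ∑ p ∈ A, ∑ r ∈ A, (V * M * (1 / p * (1 / r)) + (if p = r then V * M * (1 / p) else 0)
            + E) := sum_le_sum fun p hp => sum_le_sum fun r hr => h3 p hp r hr
      _ = V * M * W ^ 2 + V * M * W + (A.card : ℝ) ^ 2 * E := by
          have h4 : ∀ p ∈ A, ∑ r ∈ A, (V * M * (1 / (p : ℝ) * (1 / r))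
              + (if p = r then V * M * (1 / (p : ℝ)) else 0) + E)
              = V * M * W * (1 / p) + V * M * (1 / p) + A.card * E := by
            intro p hp
            rw [sum_add_distrib, sum_add_distrib, sum_const, nsmul_eq_mul, sum_ite_eq, if_pos hp,
              ← mul_sum, ← mul_sum, ← hW]
            ring
          rw [sum_congr rfl h4, sum_add_distrib, sum_add_distrib, sum_const, nsmul_eq_mul,
            ← mul_sum, ← mul_sum, ← hW]
          ring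
  -- the comparison
  have h1 : W ^ 2 * ∑ n ∈ (Icc 1 M).filter (fun n => ∀ p ∈ A, ¬ p ∣ n), S n
      ≤ ∑ n ∈ Icc 1 M, S n * (w n - W) ^ 2 := by
    rw [mul_sum]
    refine le_trans (sum_le_sum fun n hn => ?_) (sum_le_sum_of_subset_of_nonneg
      (filter_subset (fun n => ∀ p ∈ A, ¬ p ∣ n) (Icc 1 M)) fun n hn _ =>
        mul_nonneg (hpos n (mem_Icc.mp hn).1) (sq_nonneg _))
    have h2 : w n = 0 := by
      rw [hw]
      refine sum_eq_zero fun p hp => if_neg ((mem_filter.mp hn).2 p hp)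
    rw [h2]
    apply le_of_eq
    ring
  have h2 : ∑ n ∈ Icc 1 M, S n * (w n - W) ^ 2
      = ∑ n ∈ Icc 1 M, S n * (w n * w n) - 2 * W * ∑ n ∈ Icc 1 M, S n * w n
        + W ^ 2 * ∑ n ∈ Icc 1 M, S n := by
    rw [mul_sum, mul_sum, ← sum_sub_distrib, ← sum_add_distrib]
    refine sum_congr rfl fun n _ => ?_
    ring
  have h3 : 2 * W * (V * M * W - A.card * E) ≤ 2 * W * ∑ n ∈ Icc 1 M, S n * w n :=
    mul_le_mul_of_nonneg_left hB1 (by positivity)
  have h4 : W ^ 2 * ∑ n ∈ Icc 1 M, S n ≤ W ^ 2 * (V * M + E) :=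
    mul_le_mul_of_nonneg_left (by linarith [hB0.2]) (by positivity)
  refine h1.trans ?_
  rw [h2]
  have h5 : V * M * W ^ 2 + V * M * W + (A.card : ℝ) ^ 2 * E - 2 * W * (V * M * W - A.card * E)
      + W ^ 2 * (V * M + E) = V * M * W + E * ((A.card : ℝ) ^ 2 + 2 * W * A.card + W ^ 2) := by
    ring
  linarith

open Classical in
/-- rough numbers which are not prime to `m` -/
private theorem Rgh_nc (m z M : ℕ) (y : ℝ) (hy : 0 < y) (hm : 1 ≤ m) (hz : y < z + 1) :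
    (((Icc 1 M).filter (fun n => rou z n ∧ ¬ n.Coprime m)).card : ℝ)
      ≤ 2 * Real.log m * (M / y) := by
  have h1 : (Icc 1 M).filter (fun n => rou z n ∧ ¬ n.Coprime m)
      ⊆ (m.primeFactors.filter (fun p => z < p)).biUnion
        (fun p => (Ioc 0 M).filter (fun n => p ∣ n)) := by
    intro n hn
    rw [mem_filter, mem_Icc] at hn
    obtain ⟨⟨hn1, hn2⟩, hn3, hn4⟩ := hn
    obtain ⟨p, hp, hp1, hp2⟩ := Nat.Prime.not_coprime_iff_dvd.mp hn4
    rw [mem_biUnion]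
    refine ⟨p, ?_, ?_⟩
    · rw [mem_filter, Nat.mem_primeFactors]
      exact ⟨⟨hp, hp2, by omega⟩, hn3 p hp hp1⟩
    · rw [mem_filter, mem_Ioc]
      exact ⟨⟨hn1, hn2⟩, hp1⟩
  have h2 : (((Icc 1 M).filter (fun n => rou z n ∧ ¬ n.Coprime m)).card : ℝ)
      ≤ ∑ p ∈ m.primeFactors.filter (fun p => z < p), (M / y) := by
    calc (((Icc 1 M).filter (fun n => rou z n ∧ ¬ n.Coprime m)).card : ℝ)
        ≤ (((m.primeFactors.filter (fun p => z < p)).biUnion
          (fun p => (Ioc 0 M).filter (fun n => p ∣ n))).card : ℝ) := by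
          exact_mod_cast card_le_card h1
      _ ≤ ((∑ p ∈ m.primeFactors.filter (fun p => z < p),
          ((Ioc 0 M).filter (fun n => p ∣ n)).card : ℕ) : ℝ) := by
          exact_mod_cast card_biUnion_le
      _ ≤ ∑ p ∈ m.primeFactors.filter (fun p => z < p), (M / y) := by
          rw [Nat.cast_sum]
          refine sum_le_sum fun p hp => ?_
          rw [Nat.Ioc_filter_dvd_card_eq_div]
          have h3 : ((z : ℝ)) + 1 ≤ p := by exact_mod_cast (mem_filter.mp hp).2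
          refine (Nat.cast_div_le (α := ℝ)).trans ?_
          exact div_le_div_of_nonneg_left (Nat.cast_nonneg _) hy (by linarith)
  refine h2.trans ?_
  rw [sum_const, nsmul_eq_mul]
  refine mul_le_mul_of_nonneg_right ?_ (by positivity)
  refine le_trans ?_ (Pool.Agent.H78.PH.omega_le m m hm le_rfl)
  exact_mod_cast card_le_card (filter_subset _ _)

private theorem Rgh_log : (3.71 : ℝ) ≤ Real.log (23 / 100 / (1 / 200)) - 1 / 10 ∧
    Real.log (23 / 100 / (1 / 200)) + 1 / 10 ≤ 4 := by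
  have h0 : (23 / 100 / (1 / 200) : ℝ) = 46 := by norm_num
  rw [h0]
  have h2 := Real.log_two_gt_d9
  have h3 := Real.log_two_lt_d9
  constructor
  · have h4 : Real.log ((2 : ℝ) ^ 11) ≤ Real.log ((46 : ℝ) ^ 2) :=
      Real.log_le_log (by norm_num) (by norm_num)
    rw [Real.log_pow, Real.log_pow] at h4
    push_cast at h4
    linarith
  · have h4 : Real.log ((46 : ℝ) ^ 5) ≤ Real.log ((2 : ℝ) ^ 28) :=
      Real.log_le_log (by norm_num) (by norm_num)
    rw [Real.log_pow, Real.log_pow] at h4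
    push_cast at h4
    linarith

open Classical in
theorem rgh : ∃ κ c C : ℝ, 0 < κ ∧ κ ≤ 1 / 1000 ∧ 0 < c ∧ 0 < C ∧ ∃ m0 : ℕ, ∀ m : ℕ, m0 ≤ m →
    (∀ X : ℕ, (m : ℝ) ^ (1 / 4 : ℝ) ≤ X → X ≤ m →
      (((Icc 1 X).filter (fun n => rou (zN κ m) n)).card : ℝ) ≤ C * X / Real.log m) ∧
    ∃ (S g : ℕ → ℝ) (Q : ℕ) (S1 : ℝ), (Q : ℝ) ≤ (m : ℝ) ^ (1 / 1000 : ℝ) ∧
      (∀ n : ℕ, 1 ≤ n → S n = ∑ d ∈ (Icc 1 Q).filter (fun d => d ∣ n), g d) ∧
      ∑ d ∈ Icc 1 Q, |g d| ≤ (m : ℝ) ^ (1 / 500 : ℝ) ∧ S1 = ∑ n ∈ Icc 1 (M1 m), S n ∧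
      c * M1 m / Real.log m ≤ S1 ∧ S1 ≤ C * M1 m / Real.log m ∧
      (∀ n : ℕ, 1 ≤ n → 0 ≤ S n ∧ (rou (zN κ m) n → 1 ≤ S n)) ∧
      11 / 20 * S1 ≤ ((RR κ m).card : ℝ) := by
  obtain ⟨κ, c, C, hκ0, hκ1, hc, hC, m1, hsiv⟩ := siv
  obtain ⟨m2, hm2⟩ := grow (10 ^ 6 / c) 1 (405 / 10000) (by norm_num)
  obtain ⟨m3, hm3⟩ := grow (10 ^ 6 / c) 2 κ hκ0
  obtain ⟨m4, hm4⟩ := grow 1 1 (248 / 1000) (by norm_num)
  obtain ⟨m5, hm5⟩ := grow 2 0 (201 / 400) (by norm_num)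
  obtain ⟨m6, hm6⟩ := pri_mert (1 / 200) (23 / 100) (1 / 10) (by norm_num) (by norm_num)
    (by norm_num) (by norm_num)
  refine ⟨κ, c / 2, 2 * C + 2, hκ0, hκ1, by positivity, by positivity,
    max (max (max m1 m2) (max m3 m4)) (max (max m5 m6) 3), fun m hm => ?_⟩
  have a1 : m1 ≤ m := by omega
  have a2 : m2 ≤ m := by omega
  have a3 : m3 ≤ m := by omega
  have a4 : m4 ≤ m := by omega
  have a5 : m5 ≤ m := by omega
  have a6 : m6 ≤ m := by omega
  have a7 : 3 ≤ m := by omega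
  have b2 := hm2 m a2
  have b3 := hm3 m a3
  have b4 := hm4 m a4
  have b5 := hm5 m a5
  have b6 := hm6 m a6
  clear hm2 hm3 hm4 hm5 hm6
  have hm0 : (0 : ℝ) < m := by
    have : 0 < m := by omega
    exact_mod_cast this
  have hmr : (3 : ℝ) ≤ m := by exact_mod_cast a7
  have hL1 : 1 ≤ Real.log m := by
    rw [Real.le_log_iff_exp_le hm0]
    exact le_trans Real.exp_one_lt_d9.le (by linarith)
  obtain ⟨S, g, Q, V, hQ, hS, hg, hV, hVl, hVu, hSr, hro⟩ := hsiv m a1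
  obtain ⟨L, hL⟩ : ∃ L, L = Real.log m := ⟨_, rfl⟩
  obtain ⟨E, hE⟩ : ∃ E, E = (m : ℝ) ^ (1 / 500 : ℝ) := ⟨_, rfl⟩
  obtain ⟨M, hM⟩ : ∃ M, M = M1 m := ⟨_, rfl⟩
  rw [← hL] at b2 b3 b4 b5 hL1 hVl hVu
  rw [← hE] at hg
  rw [← hL, ← hM, ← hE]
  rw [← hM] at hro
  have hL0 : 0 < L := by linarith
  have hV0 : 0 < V := lt_of_lt_of_le (by positivity) hVl
  have hone := Rgh_one hS hg hV
  have hE0 : 0 < E := by
    rw [hE]
    positivity
  -- the number of rough integers up to `X`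
  have hrou : ∀ X : ℕ, (((Icc 1 X).filter (fun n => rou (zN κ m) n)).card : ℝ) ≤ V * X + E := by
    intro X
    have h1 := (abs_le.mp (hone X)).2
    have h2 : (((Icc 1 X).filter (fun n => rou (zN κ m) n)).card : ℝ) ≤ ∑ n ∈ Icc 1 X, S n := by
      rw [card_eq_sum_ones, Nat.cast_sum]
      refine le_trans (sum_le_sum (g := S) fun n hn => ?_)
        (sum_le_sum_of_subset_of_nonneg (filter_subset _ _) fun n hn _ =>
          (hSr n (mem_Icc.mp hn).1).1)
      rw [Nat.cast_one]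
      rw [mem_filter, mem_Icc] at hn
      exact (hSr n hn.1.1).2 hn.2
    linarith
  refine ⟨?_, S, g, Q, ∑ n ∈ Icc 1 M, S n, hQ, hS, hg, rfl, ?_⟩
  · intro X hX _
    have h1 : E * L ≤ X := by
      calc E * L ≤ E * (1 * (1 + L) ^ 1) := by
            refine mul_le_mul_of_nonneg_left (by linarith) hE0.le
        _ ≤ E * (m : ℝ) ^ (248 / 1000 : ℝ) := mul_le_mul_of_nonneg_left b4 hE0.le
        _ = (m : ℝ) ^ (1 / 4 : ℝ) := by
            rw [hE, ← Real.rpow_add hm0]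
            norm_num
        _ ≤ X := hX
    have h2 : E ≤ X / L := (le_div_iff₀ hL0).mpr h1
    have h3 : V * X ≤ C / L * X := mul_le_mul_of_nonneg_right hVu (Nat.cast_nonneg _)
    have h4 : (2 * C + 2) * X / L = C / L * X + C / L * X + X / L + X / L := by ring
    have h5 : 0 ≤ C / L * X := by positivity
    have h6 : 0 ≤ (X : ℝ) / L := by positivity
    rw [h4]
    have := hrou X
    linarith
  -- sizes
  obtain ⟨y, hy⟩ : ∃ y, y = (m : ℝ) ^ (201 / 400 : ℝ) := ⟨_, rfl⟩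
  rw [← hy] at b5
  have hMy : y / 2 ≤ M := by
    have h1 := Nat.lt_floor_add_one y
    have h2 : M = ⌊y⌋₊ := by
      rw [hM, hy]
      rfl
    rw [← h2] at h1
    rw [pow_zero, mul_one] at b5
    linarith
  obtain ⟨b, hb⟩ : ∃ b, b = (m : ℝ) ^ (23 / 100 : ℝ) := ⟨_, rfl⟩
  have hb1 : 1 ≤ b := by
    rw [hb]
    exact Real.one_le_rpow (by linarith) (by norm_num)
  obtain ⟨T, hT⟩ : ∃ T, T = V * M := ⟨_, rfl⟩
  have hEb : 10 ^ 5 * (E * b ^ 2) ≤ T := by
    have h1 : 10 ^ 6 / c * L * (E * b ^ 2) ≤ y := by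
      calc 10 ^ 6 / c * L * (E * b ^ 2) ≤ 10 ^ 6 / c * (1 + L) ^ 1 * (E * b ^ 2) := by
            refine mul_le_mul_of_nonneg_right ?_ (by positivity)
            refine mul_le_mul_of_nonneg_left (by linarith) (by positivity)
        _ ≤ (m : ℝ) ^ (405 / 10000 : ℝ) * (E * b ^ 2) :=
            mul_le_mul_of_nonneg_right b2 (by positivity)
        _ = y := by
            rw [hE, hb, hy, ← Real.rpow_natCast, ← Real.rpow_mul hm0.le, ← Real.rpow_add hm0,
              ← Real.rpow_add hm0]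
            norm_num
    have h2 : c / L * (y / 2) ≤ T := by
      rw [hT]
      exact mul_le_mul hVl hMy (by rw [hy]; positivity) hV0.le
    refine le_trans ?_ h2
    have h3 : c / L * (10 ^ 6 / c * L * (E * b ^ 2) / 2) = 10 ^ 6 / 2 * (E * b ^ 2) := by
      field_simp
    have h4 : c / L * (10 ^ 6 / c * L * (E * b ^ 2) / 2) ≤ c / L * (y / 2) :=
      mul_le_mul_of_nonneg_left (by linarith) (by positivity)
    rw [h3] at h4
    have h5 : 0 ≤ E * b ^ 2 := by positivity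
    linarith
  have hET : 10 ^ 5 * E ≤ T := by
    refine le_trans (mul_le_mul_of_nonneg_left ?_ (by norm_num)) hEb
    have h1 : 1 ≤ b ^ 2 := one_le_pow₀ hb1
    nlinarith
  have hT0 : 0 < T := lt_of_lt_of_le (by positivity) hET
  have hS1 := abs_le.mp (hone M)
  rw [← hT] at hS1
  have hTl : c * M / L ≤ T := by
    have h1 : c * M / L = c / L * M := by ring
    rw [h1, hT]
    exact mul_le_mul_of_nonneg_right hVl (Nat.cast_nonneg _)
  have hTu : T ≤ C * M / L := by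
    have h1 : C * M / L = C / L * M := by ring
    rw [h1, hT]
    exact mul_le_mul_of_nonneg_right hVu (Nat.cast_nonneg _)
  refine ⟨?_, ?_, hSr, ?_⟩
  · have h1 : c / 2 * M / L = c * M / L / 2 := by ring
    rw [h1]
    linarith
  · have h1 : (2 * C + 2) * M / L = 2 * (C * M / L) + 2 * (M / L) := by ring
    have h2 : 0 ≤ (M : ℝ) / L := by positivity
    rw [h1]
    linarith
  -- the four parts
  obtain ⟨A, hA⟩ : ∃ A, A = AP m := ⟨_, rfl⟩
  obtain ⟨W, hW⟩ : ∃ W, W = ∑ p ∈ A, 1 / (p : ℝ) := ⟨_, rfl⟩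
  have hWb : 3.71 ≤ W ∧ W ≤ 4 := by
    have h1 := abs_le.mp b6
    have h2 : ∑ p ∈ PI m ((m : ℝ) ^ (1 / 200 : ℝ)) ((m : ℝ) ^ (23 / 100 : ℝ)), 1 / (p : ℝ) = W := by
      rw [hW, hA]
      rfl
    rw [h2] at h1
    have h3 := Rgh_log
    constructor <;> linarith [h1.1, h1.2, h3.1, h3.2]
  have hAm : ∀ p ∈ A, p.Prime ∧ Q < p := by
    intro p hp
    rw [hA] at hp
    unfold AP at hp
    rw [mem_PI (by positivity)] at hp
    refine ⟨hp.1, ?_⟩
    have h1 : (Q : ℝ) < p := by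
      refine lt_of_le_of_lt (hQ.trans ?_) hp.2.2.1
      exact Real.rpow_le_rpow_of_exponent_le (by linarith) (by norm_num)
    exact_mod_cast h1
  have hAc : (A.card : ℝ) ≤ b := by
    have h1 : A.card ≤ ⌊b⌋₊ := by
      rw [hA, hb]
      unfold AP PI
      refine (card_filter_le _ _).trans ?_
      rw [Nat.card_Icc]
      omega
    exact le_trans (by exact_mod_cast h1) (Nat.floor_le (by linarith))
  have hTK := Rgh_TK (M := M) hS hg hV hV0.le hAm hW fun n hn => (hSr n hn).1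
  obtain ⟨Z, hZ⟩ : ∃ Z, Z = ∑ n ∈ (Icc 1 M).filter (fun n => ∀ p ∈ A, ¬ p ∣ n), S n := ⟨_, rfl⟩
  rw [← hZ, ← hT] at hTK
  have hZ0 : 0 ≤ Z := by
    rw [hZ]
    exact sum_nonneg fun n hn => (hSr n (mem_Icc.mp (mem_filter.mp hn).1).1).1
  have hZu : Z ≤ 28 / 100 * T := by
    have h0 : (0 : ℝ) ≤ A.card := Nat.cast_nonneg _
    have h1 : (A.card : ℝ) ^ 2 + 2 * W * A.card + W ^ 2 ≤ 25 * b ^ 2 := by
      have h2 : (A.card : ℝ) ^ 2 ≤ b ^ 2 := pow_le_pow_left₀ h0 hAc 2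
      have h3 : 2 * W * A.card ≤ 8 * b ^ 2 := by
        have h4 : 2 * W * A.card ≤ 8 * b :=
          mul_le_mul (by linarith [hWb.2]) hAc h0 (by norm_num)
        nlinarith
      have h4 : W ^ 2 ≤ 16 * b ^ 2 := by
        have h5 : W ^ 2 ≤ 4 ^ 2 := pow_le_pow_left₀ (by linarith [hWb.1]) hWb.2 2
        nlinarith
      linarith
    have h2 : W ^ 2 * Z ≤ T * W + T / 1000 := by
      have h3 := mul_le_mul_of_nonneg_left h1 hE0.le
      have h4 : E * (25 * b ^ 2) = 25 * (E * b ^ 2) := by ring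
      linarith
    by_contra hcon
    rw [not_le] at hcon
    have h3 : W ^ 2 * (28 / 100 * T) ≤ W ^ 2 * Z :=
      mul_le_mul_of_nonneg_left hcon.le (by positivity)
    have h4 : W ^ 2 * (28 / 100) ≤ W + 1 / 1000 := by
      have h5 : T * (W ^ 2 * (28 / 100)) ≤ T * (W + 1 / 1000) := by linarith
      exact le_of_mul_le_mul_left h5 hT0
    nlinarith [hWb.1, hWb.2]
  have hsub : (Icc 1 M).filter (fun n => rou (zN κ m) n)
      ⊆ ((RR κ m ∪ (Icc 1 (M / 16)).filter (fun n => rou (zN κ m) n))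
        ∪ (Icc 1 M).filter (fun n => rou (zN κ m) n ∧ ∀ p ∈ A, ¬ p ∣ n))
        ∪ (Icc 1 M).filter (fun n => rou (zN κ m) n ∧ ¬ n.Coprime m) := by
    intro n hn
    rw [mem_filter, mem_Icc] at hn
    rw [mem_union, mem_union, mem_union, mem_RR, mem_filter, mem_filter, mem_filter, mem_Icc,
      mem_Icc, ← hM, ← hA]
    by_cases h1 : n.Coprime m
    · by_cases h2 : ∀ p ∈ A, ¬ p ∣ n
      · exact Or.inl (Or.inr ⟨hn.1, hn.2, h2⟩)
      · by_cases h3 : M < 16 * n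
        · push Not at h2
          exact Or.inl (Or.inl (Or.inl ⟨hn.1.1, hn.1.2, h3, h1, hn.2, h2⟩))
        · exact Or.inl (Or.inl (Or.inr ⟨⟨hn.1.1, by omega⟩, hn.2⟩))
    · exact Or.inr ⟨hn.1, hn.2, h1⟩
  have hcard : (((Icc 1 M).filter (fun n => rou (zN κ m) n)).card : ℝ)
      ≤ (RR κ m).card + ((Icc 1 (M / 16)).filter (fun n => rou (zN κ m) n)).card
        + ((Icc 1 M).filter (fun n => rou (zN κ m) n ∧ ∀ p ∈ A, ¬ p ∣ n)).card
        + ((Icc 1 M).filter (fun n => rou (zN κ m) n ∧ ¬ n.Coprime m)).card := by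
    have h1 := card_le_card hsub
    have h2 := card_union_le ((RR κ m ∪ (Icc 1 (M / 16)).filter (fun n => rou (zN κ m) n))
        ∪ (Icc 1 M).filter (fun n => rou (zN κ m) n ∧ ∀ p ∈ A, ¬ p ∣ n))
        ((Icc 1 M).filter (fun n => rou (zN κ m) n ∧ ¬ n.Coprime m))
    have h3 := card_union_le (RR κ m ∪ (Icc 1 (M / 16)).filter (fun n => rou (zN κ m) n))
        ((Icc 1 M).filter (fun n => rou (zN κ m) n ∧ ∀ p ∈ A, ¬ p ∣ n))
    have h4 := card_union_le (RR κ m) ((Icc 1 (M / 16)).filter (fun n => rou (zN κ m) n))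
    have h5 : ((Icc 1 M).filter (fun n => rou (zN κ m) n)).card
      ≤ (RR κ m).card + ((Icc 1 (M / 16)).filter (fun n => rou (zN κ m) n)).card
        + ((Icc 1 M).filter (fun n => rou (zN κ m) n ∧ ∀ p ∈ A, ¬ p ∣ n)).card
        + ((Icc 1 M).filter (fun n => rou (zN κ m) n ∧ ¬ n.Coprime m)).card := by
      omega
    exact_mod_cast h5
  have hP1 : (((Icc 1 (M / 16)).filter (fun n => rou (zN κ m) n)).card : ℝ) ≤ T / 16 + E := by
    refine (hrou (M / 16)).trans ?_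
    have h1 : ((M / 16 : ℕ) : ℝ) ≤ (M : ℝ) / 16 := by
      exact_mod_cast (Nat.cast_div_le (α := ℝ) (m := M) (n := 16))
    have h2 : V * ((M / 16 : ℕ) : ℝ) ≤ V * ((M : ℝ) / 16) := mul_le_mul_of_nonneg_left h1 hV0.le
    have h3 : V * ((M : ℝ) / 16) = T / 16 := by
      rw [hT]
      ring
    linarith
  have hP2 : (((Icc 1 M).filter (fun n => rou (zN κ m) n ∧ ∀ p ∈ A, ¬ p ∣ n)).card : ℝ) ≤ Z := by
    rw [hZ, card_eq_sum_ones, Nat.cast_sum]
    refine le_trans (sum_le_sum (g := S) fun n hn => ?_)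
      (sum_le_sum_of_subset_of_nonneg (fun n hn => ?_) fun n hn _ =>
        (hSr n (mem_Icc.mp (mem_filter.mp hn).1).1).1)
    · rw [Nat.cast_one]
      rw [mem_filter, mem_Icc] at hn
      exact (hSr n hn.1.1).2 hn.2.1
    · rw [mem_filter] at hn ⊢
      exact ⟨hn.1, hn.2.2⟩
  have hP3 : (((Icc 1 M).filter (fun n => rou (zN κ m) n ∧ ¬ n.Coprime m)).card : ℝ)
      ≤ T / 1000 := by
    obtain ⟨x, hx⟩ : ∃ x, x = (m : ℝ) ^ κ := ⟨_, rfl⟩
    have hx0 : 0 < x := by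
      rw [hx]
      positivity
    have h1 := Rgh_nc m (zN κ m) M x hx0 (by omega) (by
      have := Nat.lt_floor_add_one x
      unfold zN
      rw [hx]
      rw [hx] at this
      exact this)
    rw [← hL] at h1
    rw [← hx] at b3
    have h2 : 2 * L * (M / x) ≤ T / 1000 := by
      have h3 : 10 ^ 6 / c * L ^ 2 ≤ x := by
        refine le_trans (mul_le_mul_of_nonneg_left ?_ (by positivity)) b3
        exact pow_le_pow_left₀ hL0.le (by linarith) 2
      have h4 : 10 ^ 6 * L ^ 2 ≤ c * x := by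
        have h5 := mul_le_mul_of_nonneg_left h3 hc.le
        have h6 : c * (10 ^ 6 / c * L ^ 2) = 10 ^ 6 * L ^ 2 := by
          field_simp
        linarith
      have h5 : 2 * L * (M / x) ≤ c * M / L / 1000 := by
        rw [div_div, ← mul_div_assoc, div_le_div_iff₀ hx0 (by positivity)]
        have h6 : 2 * L * M * (L * 1000) = (2000 * L ^ 2) * M := by ring
        have h7 : c * M * x = (c * x) * M := by ring
        rw [h6, h7]
        refine mul_le_mul_of_nonneg_right ?_ (Nat.cast_nonneg _)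
        have h8 : 0 ≤ L ^ 2 := by positivity
        linarith
      linarith
    exact h1.trans h2
  have hro' : 49 / 50 * T ≤ (((Icc 1 M).filter (fun n => rou (zN κ m) n)).card : ℝ) := by
    have h1 : 49 / 50 * T = 49 / 50 * V * M := by
      rw [hT]
      ring
    rw [h1]
    exact hro
  linarith [hS1.2]

end Pool.Agent.H78.PD
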