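import Pool.Agent.H78.PD.BNum

/-!
# PD, Wlo: the sum of the reciprocals of the primes of the blocks

`W_low2` is `W_low` of `BNum` with the condition `m / φ(m) ≤ x ^ (1/4)`.
-/

set_option autoImplicit false

namespace Pool.Agent.H78.PD

open Finset
open Pool.Agent.H34PG (lam lam_val lam_mul lam_prime)
open Pool.Agent.H11.LQ Pool.Agent.H78.PG

/-- the sum of `1/p` over the prime factors of `m` is at most `log (m / φ(m))` -/
theorem inv_sum_le (m : ℕ) (hm : 1 ≤ m) :
    ∑ p ∈ m.primeFactors, (1 : ℝ) / p ≤ Real.log ((m : ℝ) / m.totient) := by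
  have hm0 : (m : ℝ) ≠ 0 := by exact_mod_cast (by omega : m ≠ 0)
  have h1 : (m : ℝ) / m.totient = ∏ p ∈ m.primeFactors, (1 - (p : ℝ)⁻¹)⁻¹ := by
    have h2 : ((m.totient : ℚ) : ℝ) = ((m * ∏ p ∈ m.primeFactors, (1 - (p : ℚ)⁻¹) : ℚ) : ℝ) := by
      rw [Nat.totient_eq_mul_prod_factors]
    push_cast at h2
    rw [h2, prod_inv_distrib]
    have h3 : ∏ p ∈ m.primeFactors, (1 - (p : ℝ)⁻¹) ≠ 0 := by
      refine prod_ne_zero_iff.2 fun p hp => ?_
      have hp2 : (2 : ℝ) ≤ p := by exact_mod_cast (Nat.prime_of_mem_primeFactors hp).two_le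
      have : (p : ℝ)⁻¹ ≤ 2⁻¹ := inv_anti₀ (by norm_num) hp2
      norm_num at this ⊢
      intro h
      linarith
    field_simp
  rw [h1, Real.log_prod]
  · refine sum_le_sum fun p hp => ?_
    have hp2 : (2 : ℝ) ≤ p := by exact_mod_cast (Nat.prime_of_mem_primeFactors hp).two_le
    have h4 : (p : ℝ)⁻¹ ≤ 2⁻¹ := inv_anti₀ (by norm_num) hp2
    have h5 : (0 : ℝ) < 1 - (p : ℝ)⁻¹ := by
      norm_num at h4 ⊢
      linarith
    rw [Real.log_inv]
    have h6 := Real.log_le_sub_one_of_pos h5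
    rw [one_div]
    linarith
  · intro p hp
    have hp2 : (2 : ℝ) ≤ p := by exact_mod_cast (Nat.prime_of_mem_primeFactors hp).two_le
    have h4 : (p : ℝ)⁻¹ ≤ 2⁻¹ := inv_anti₀ (by norm_num) hp2
    have h5 : (0 : ℝ) < 1 - (p : ℝ)⁻¹ := by
      norm_num at h4 ⊢
      linarith
    exact (inv_pos.2 h5).ne'

theorem W_low2 : ∃ x0 : ℝ, ∀ x : ℝ, x0 ≤ x → ∀ m : ℕ, 1 ≤ m →
    (m : ℝ) ≤ x ^ (1 / 4 : ℝ) * m.totient → Real.log x / 2 ≤ WB m x := by
  obtain ⟨x1, hx1, hb⟩ := bnum
  obtain ⟨n0, hn0⟩ := bnum_mert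
  have hev : ∀ᶠ x : ℝ in Filter.atTop, n0 ≤ ⌊Real.exp x⌋₊ :=
    (tendsto_nat_floor_atTop.comp Real.tendsto_exp_atTop).eventually_ge_atTop n0
  obtain ⟨x2, hx2⟩ := Filter.eventually_atTop.1 hev
  obtain ⟨x3, hx3⟩ := Filter.eventually_atTop.1 (Real.tendsto_log_atTop.eventually_ge_atTop 4)
  refine ⟨max (max x1 x2) (max x3 3), fun x hx m hm hω => ?_⟩
  have hxa : x1 ≤ x := (le_max_left _ _).trans ((le_max_left _ _).trans hx)
  have hxb : x2 ≤ x := (le_max_right _ _).trans ((le_max_left _ _).trans hx)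
  have hxc : x3 ≤ x := (le_max_left _ _).trans ((le_max_right _ _).trans hx)
  have hxd : 3 ≤ x := (le_max_right _ _).trans ((le_max_right _ _).trans hx)
  obtain ⟨-, -, hJ, -⟩ := hb x hxa
  have hlogx : 4 ≤ Real.log x := hx3 x hxc
  have hwn : n0 ≤ ⌊Real.exp x⌋₊ := hx2 x hxb
  have hexp3 : (4 : ℝ) ≤ Real.exp x := by
    have := Real.add_one_le_exp x
    linarith
  obtain ⟨w, hw⟩ : ∃ w, w = ⌊Real.exp x⌋₊ := ⟨_, rfl⟩
  obtain ⟨z, hz⟩ : ∃ z, z = ⌊Real.exp (x ^ 2)⌋₊ := ⟨_, rfl⟩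
  rw [← hw] at hwn
  have hwle : (w : ℝ) ≤ Real.exp x := by rw [hw]; exact Nat.floor_le (Real.exp_pos _).le
  have hwge : Real.exp x < (w : ℝ) + 1 := by rw [hw]; exact Nat.lt_floor_add_one _
  have hzle : (z : ℝ) ≤ Real.exp (x ^ 2) := by rw [hz]; exact Nat.floor_le (Real.exp_pos _).le
  have hzge : Real.exp (x ^ 2) < (z : ℝ) + 1 := by rw [hz]; exact Nat.lt_floor_add_one _
  have hxx : x ≤ x ^ 2 := by nlinarith
  have hexx : Real.exp x ≤ Real.exp (x ^ 2) := Real.exp_le_exp.2 hxx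
  have hwz : w ≤ z := by rw [hw, hz]; exact Nat.floor_le_floor hexx
  have hw3 : (3 : ℝ) < w := by linarith
  have hw2 : 2 ≤ w := by
    have : (2 : ℝ) < (w : ℝ) := by linarith
    exact_mod_cast this.le
  have hM := hn0 w z hwn hwz hw2
  have hw0 : (0 : ℝ) < w := by linarith
  have hz0 : (0 : ℝ) < z := lt_of_lt_of_le hw0 (by exact_mod_cast hwz)
  have hlw1 : 1 < Real.log w := by
    rw [Real.lt_log_iff_exp_lt hw0]
    have := Real.exp_one_lt_d9
    linarith
  have hlw : Real.log w ≤ x := by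
    have := Real.log_le_log hw0 hwle
    rwa [Real.log_exp] at this
  have hlz : x ^ 2 - 1 ≤ Real.log z := by
    have h1 : Real.exp (x ^ 2) / 2 ≤ z := by linarith
    have h2 := Real.log_le_log (by positivity) h1
    rw [Real.log_div (Real.exp_pos _).ne' (by norm_num), Real.log_exp] at h2
    have := Real.log_two_lt_d9
    linarith
  have hll : Real.log x - 1 / 8 ≤ Real.log (Real.log z) - Real.log (Real.log w) := by
    have hx0 : 0 < x := by linarith
    have h9 : 9 ≤ x ^ 2 := by nlinarith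
    have h1 : Real.log (x ^ 2 - 1) ≤ Real.log (Real.log z) := Real.log_le_log (by linarith) hlz
    have h2 : Real.log (Real.log w) ≤ Real.log x := Real.log_le_log (by linarith) hlw
    have h3 : 2 * Real.log x - 1 / 8 ≤ Real.log (x ^ 2 - 1) := by
      have h4 := Real.one_sub_inv_le_log_of_pos (x := (x ^ 2 - 1) / x ^ 2) (div_pos (by linarith) (by positivity))
      rw [Real.log_div (by linarith) (by positivity), Real.log_pow, inv_div] at h4
      have h5 : x ^ 2 / (x ^ 2 - 1) ≤ 9 / 8 := by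
        rw [div_le_div_iff₀ (by linarith) (by norm_num)]
        linarith
      push_cast at h4
      linarith
    linarith
  -- the blocks
  have hWB : WB m x = ∑ p ∈ PI m (aj x 0) (aj x (Jn x)), 1 / (p : ℝ) := by
    unfold WB
    exact bnum_sum m x (fun p => 1 / (p : ℝ)) (Jn x)
  have haj0 : aj x 0 = Real.exp x := by unfold aj; simp
  have hsub : (Ioc w z).filter Nat.Prime ⊆ PI m (aj x 0) (aj x (Jn x)) ∪ (m.primeFactors.filter (fun p => w < p)) := by
    intro p hp
    rw [mem_filter, mem_Ioc] at hp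
    obtain ⟨⟨h1, h2⟩, h3⟩ := hp
    rw [mem_union]
    by_cases hd : p ∣ m
    · right
      rw [mem_filter, Nat.mem_primeFactors]
      exact ⟨⟨h3, hd, by omega⟩, h1⟩
    · left
      rw [mem_PI (aj_pos _ _).le, haj0]
      have h4 : ((w + 1 : ℕ) : ℝ) ≤ p := by exact_mod_cast h1
      have h5 : (p : ℝ) ≤ z := by exact_mod_cast h2
      push_cast at h4
      exact ⟨h3, hd, by linarith, by linarith⟩
  have hsum : ∑ p ∈ (Ioc w z).filter Nat.Prime, (1 : ℝ) / p ≤ WB m x + Real.log x / 4 := by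
    have hnn : ∀ p : ℕ, 0 ≤ (1 : ℝ) / p := fun p => by positivity
    have h1 : ∑ p ∈ m.primeFactors.filter (fun p => w < p), (1 : ℝ) / p ≤ Real.log x / 4 := by
      calc ∑ p ∈ m.primeFactors.filter (fun p => w < p), (1 : ℝ) / p
          ≤ ∑ p ∈ m.primeFactors, (1 : ℝ) / p :=
            sum_le_sum_of_subset_of_nonneg (filter_subset _ _) fun p _ _ => hnn p
        _ ≤ Real.log x / 4 := by
            have h4 := inv_sum_le m hm
            have h5 : Real.log ((m : ℝ) / m.totient) ≤ Real.log (x ^ (1 / 4 : ℝ)) := by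
              have hφ : (0 : ℝ) < m.totient := by exact_mod_cast Nat.totient_pos.2 hm
              have hm0 : (0 : ℝ) < m := by exact_mod_cast hm
              refine Real.log_le_log (by positivity) ?_
              rw [div_le_iff₀ hφ]
              exact hω
            rw [Real.log_rpow (by linarith)] at h5
            linarith
    calc ∑ p ∈ (Ioc w z).filter Nat.Prime, (1 : ℝ) / p
        ≤ ∑ p ∈ PI m (aj x 0) (aj x (Jn x)) ∪ (m.primeFactors.filter (fun p => w < p)), (1 : ℝ) / p :=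
          sum_le_sum_of_subset_of_nonneg hsub fun p _ _ => hnn p
      _ ≤ ∑ p ∈ PI m (aj x 0) (aj x (Jn x)), (1 : ℝ) / p + ∑ p ∈ m.primeFactors.filter (fun p => w < p), (1 : ℝ) / p := by
          have := sum_union_inter (s₁ := PI m (aj x 0) (aj x (Jn x))) (s₂ := m.primeFactors.filter (fun p => w < p))
            (f := fun p : ℕ => (1 : ℝ) / p)
          have h0 : 0 ≤ ∑ p ∈ PI m (aj x 0) (aj x (Jn x)) ∩ (m.primeFactors.filter (fun p => w < p)), (1 : ℝ) / p :=
            sum_nonneg fun p _ => hnn p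
          linarith
      _ ≤ WB m x + Real.log x / 4 := by rw [hWB]; linarith
  have h1w : 1 / (w : ℝ) ≤ 1 / 3 := one_div_le_one_div_of_le (by norm_num) hw3.le
  linarith

end Pool.Agent.H78.PD
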