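import Pool.Agent.H78.PD.TK
import Pool.Agent.H78.PD.Ener
import Pool.Agent.H78.PD.TotW
import Pool.Agent.H78.PD.Wlo

/-!
# PD, Step: one step of the energy argument

`wout (UU) ≤ wout X + ∑_{X - UU} ww`.  `energy` + `tk` with `bnum`, `W_low2` (`W ≥ (log x)/2 ≥ 1`), `H ≥ log x`, `(J/W)² ≤ x^6`:
`∑_{X - UU} ww ≤ 8 B (m/φ) x^6 exp(-(2α-γ)x) + 8 (1/log x + 1/log x) + (64/φ) 2^ω exp(6x²)`; the first term is `≤ 8/x ≤ 8/log x` by hypothesis; `2^ω ≤ m^(1/100)` (`two_pow_le`), `m ≤ m^(1/100) φ` (`tot_le`),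
`exp(6x²) ≤ m^(1/50)`, so the last term is `≤ 64 m^(-9/10) ≤ 1/log m ≤ 1/log x` (`x ≤ log m`).
-/

set_option autoImplicit false

namespace Pool.Agent.H78.PD

open Finset
open Pool.Agent.H34PG (lam lam_val lam_mul lam_prime)
open Pool.Agent.H11.LQ Pool.Agent.H78.PG

private theorem step_split (m : ℕ) [NeZero m] (η : ℤ) (x α : ℝ)
    (X : Finset (DirichletCharacter ℂ m)) (S : ℝ)
    (h : ∑ χ ∈ X.filter (fun χ => χ ∉ UU m x α), ww m η χ ≤ S) :
    wout m η (UU m x α) ≤ wout m η X + S := by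
  classical
  have h1 : wout m η (UU m x α) ≤ wout m η X
      + ∑ χ ∈ X.filter (fun χ => χ ∉ UU m x α), ww m η χ := by
    unfold wout
    have hsub : univ.filter (fun χ => χ ∉ UU m x α) ⊆
        univ.filter (fun χ => χ ∉ X) ∪ X.filter (fun χ => χ ∉ UU m x α) := by
      intro χ hχ
      rw [mem_filter] at hχ
      rw [mem_union, mem_filter, mem_filter]
      by_cases hX : χ ∈ X
      · exact Or.inr ⟨hX, hχ.2⟩
      · exact Or.inl ⟨mem_univ _, hX⟩
    have hdisj : Disjoint (univ.filter (fun χ => χ ∉ X)) (X.filter (fun χ => χ ∉ UU m x α)) := by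
      rw [Finset.disjoint_left]
      intro χ h1 h2
      rw [mem_filter] at h1 h2
      exact h1.2 h2.1
    calc ∑ χ ∈ univ.filter (fun χ => χ ∉ UU m x α), ww m η χ
        ≤ ∑ χ ∈ univ.filter (fun χ => χ ∉ X) ∪ X.filter (fun χ => χ ∉ UU m x α), ww m η χ :=
          sum_le_sum_of_subset_of_nonneg hsub (fun _ _ _ => ww_nonneg _ _ _)
      _ = _ := sum_union hdisj
  linarith

/-- the arithmetic of the last term -/
private theorem step_tail (M φ p a e Lm lx : ℝ) (hφ : 0 < φ) (_hp : 0 ≤ p)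
    (ha : 1 ≤ a) (hL : 0 < lx) (hLx : lx ≤ Lm) (hpa : p ≤ a) (hM : M ≤ a * φ)
    (he : e ≤ a ^ 2) (he0 : 0 ≤ e) (hg : 64 * (1 + Lm) * a ^ 4 ≤ M) :
    8 / φ * (8 * p * e) ≤ 1 / lx := by
  have hLm : 0 < Lm := by linarith
  have h1 : p * e ≤ a * a ^ 2 := mul_le_mul hpa he he0 (by linarith)
  have h2 : 8 / φ * (8 * p * e) = 64 * (p * e) / φ := by ring
  rw [h2, div_le_div_iff₀ hφ hL]
  have h3 : 64 * (p * e) * lx ≤ 64 * a ^ 3 * Lm := by
    have e1 : 64 * (p * e) ≤ 64 * a ^ 3 := by nlinarith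
    exact mul_le_mul e1 hLx hL.le (by positivity)
  have h4 : 64 * a ^ 3 * Lm * a ≤ a * φ := by
    calc 64 * a ^ 3 * Lm * a = 64 * Lm * a ^ 4 := by ring
      _ ≤ 64 * (1 + Lm) * a ^ 4 := by
          apply mul_le_mul_of_nonneg_right _ (by positivity)
          linarith
      _ ≤ M := hg
      _ ≤ _ := hM
  have h5 : 64 * a ^ 3 * Lm ≤ φ := by
    have ha0 : 0 < a := by linarith
    have : (64 * a ^ 3 * Lm) * a ≤ φ * a := by linarith
    exact le_of_mul_le_mul_right this ha0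
  linarith

theorem step : ∃ x0 C : ℝ, 3 ≤ x0 ∧ 0 < C ∧ ∃ m0 : ℕ, ∀ (m : ℕ) [NeZero m], m0 ≤ m →
    ∀ η : ℤ, (η = 1 ∨ η = -1) → ∀ x : ℝ, x0 ≤ x → 3 * x ^ 2 ≤ Real.log m / 100 →
    (m : ℝ) ≤ x ^ (1 / 4 : ℝ) * m.totient →
    ∀ (X : Finset (DirichletCharacter ℂ m)) (B γ P1 P2 α : ℝ), LSP m X B γ P1 P2 →
    P1 ≤ Real.exp x → Real.exp (3 * x ^ 2) ≤ P2 → γ ≤ 2 * α → γ ≤ 2 → 0 ≤ B →
    B * (m / m.totient) * x ^ 7 * Real.exp (-((2 * α - γ) * x)) ≤ 1 →
    wout m η (UU m x α) ≤ wout m η X + C / Real.log x := by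
  obtain ⟨x1, hx13, hb⟩ := bnum
  obtain ⟨x2, hWl⟩ := W_low2
  obtain ⟨m1, hm1⟩ := two_pow_le (1 / 100) (by norm_num)
  obtain ⟨m2, hm2⟩ := tot_le (1 / 100) (by norm_num)
  obtain ⟨m3, hm3⟩ := grow 64 1 (1 / 2) (by norm_num)
  refine ⟨max x1 (max x2 8), 25, ?_, by norm_num, max (max m1 m2) (max m3 3), ?_⟩
  · exact hx13.trans (le_max_left _ _)
  intro m _ hm η hη x hx h3x hom X B γ P1 P2 α hX hP1 hP2 hγα hγ2 hB hhyp
  simp only [max_le_iff] at hm hx
  obtain ⟨⟨hma, hmb⟩, hmc, hmd⟩ := hm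
  obtain ⟨hxa, hxb, hxc⟩ := hx
  obtain ⟨hH2, hJ, -, haj⟩ := hb x hxa
  have hx0 : 0 < x := by linarith
  have hmR : (3 : ℝ) ≤ m := by exact_mod_cast hmd
  have hm0 : (0 : ℝ) < m := by linarith
  have hφ : (0 : ℝ) < m.totient := by
    have : 0 < m.totient := Nat.totient_pos.mpr (by omega)
    exact_mod_cast this
  -- log x
  have hlog2 : 2 ≤ Real.log x := by
    rw [Real.le_log_iff_exp_le hx0]
    have h1 : Real.exp 2 = Real.exp 1 * Real.exp 1 := by
      rw [← Real.exp_add]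
      norm_num
    have h2 := Real.exp_one_lt_d9
    have h3 := Real.exp_pos 1
    nlinarith
  have hlogx : Real.log x ≤ x := by
    have := Real.log_le_sub_one_of_pos hx0
    linarith
  have hxL : x ≤ Real.log m := by nlinarith
  have hW := hWl x hxb m (by omega) hom
  have hW1 : 1 ≤ WB m x := by linarith
  have hHlog : Real.log x ≤ (Hn x : ℝ) := by
    unfold Hn
    exact Nat.le_ceil _
  have hen := energy m hmd η hη x α B γ P1 P2 X hX (by linarith) hP1 (haj.trans hP2) hγα hγ2 hB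
    (by linarith)
  have htk := tk m x (by linarith) hH2 hW1
  have haj0 : 0 < aj x (Jn x) := aj_pos _ _
  have hJ0 : (0 : ℝ) ≤ Jn x := Nat.cast_nonneg _
  -- the first term
  have hT1 : 8 * B * (m / m.totient) * (Jn x / WB m x) ^ 2 * Real.exp (-((2 * α - γ) * x))
      ≤ 8 / Real.log x := by
    obtain ⟨E, hE⟩ : ∃ E, E = Real.exp (-((2 * α - γ) * x)) := ⟨_, rfl⟩
    have hE0 : 0 < E := by rw [hE]; exact Real.exp_pos _
    rw [← hE] at hhyp ⊢
    obtain ⟨R, hR⟩ : ∃ R : ℝ, R = (m : ℝ) / m.totient := ⟨_, rfl⟩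
    have hR0 : 0 ≤ R := by rw [hR]; positivity
    rw [← hR] at hhyp ⊢
    have h1 : (Jn x / WB m x) ^ 2 ≤ x ^ 6 := by
      have h2 : (Jn x : ℝ) / WB m x ≤ x ^ 3 := by
        rw [div_le_iff₀ (by linarith)]
        calc (Jn x : ℝ) ≤ x ^ 3 := hJ
          _ = x ^ 3 * 1 := by ring
          _ ≤ x ^ 3 * WB m x := mul_le_mul_of_nonneg_left hW1 (by positivity)
      have h3 : (0 : ℝ) ≤ Jn x / WB m x := div_nonneg hJ0 (by linarith)
      calc ((Jn x : ℝ) / WB m x) ^ 2 ≤ (x ^ 3) ^ 2 := pow_le_pow_left₀ h3 h2 2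
        _ = x ^ 6 := by ring
    have h4 : 8 * B * R * (Jn x / WB m x) ^ 2 * E ≤ 8 * B * R * x ^ 6 * E := by
      apply mul_le_mul_of_nonneg_right _ hE0.le
      exact mul_le_mul_of_nonneg_left h1 (by positivity)
    have h5 : 8 * B * R * x ^ 6 * E ≤ 8 / x := by
      rw [le_div_iff₀ hx0]
      calc 8 * B * R * x ^ 6 * E * x = 8 * (B * R * x ^ 7 * E) := by ring
        _ ≤ 8 * 1 := by linarith
        _ = 8 := by ring
    have h6 : 8 / x ≤ 8 / Real.log x :=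
      div_le_div_of_nonneg_left (by norm_num) (by linarith) hlogx
    linarith
  -- the tail
  have hT3 : 8 / (m.totient : ℝ) * (8 * 2 ^ m.primeFactors.card * aj x (Jn x) ^ 2)
      ≤ 1 / Real.log x := by
    obtain ⟨a, ha⟩ : ∃ a : ℝ, a = (m : ℝ) ^ (1 / 100 : ℝ) := ⟨_, rfl⟩
    have hq1 := hm1 m hma
    have hq2 := hm2 m hmb
    have hq3 := hm3 m hmc
    rw [← ha] at hq1 hq2
    have ha1 : 1 ≤ a := by
      rw [ha]
      exact Real.one_le_rpow (by linarith) (by norm_num)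
    have haa : aj x (Jn x) ^ 2 ≤ a ^ 2 := by
      apply pow_le_pow_left₀ haj0.le
      refine haj.trans ?_
      rw [ha, Real.rpow_def_of_pos hm0]
      apply Real.exp_le_exp.mpr
      linarith
    refine step_tail (m : ℝ) _ _ a _ (Real.log m) _ hφ (by positivity) ha1 (by linarith)
      (by linarith) hq1 hq2 haa (by positivity) ?_
    rw [pow_one] at hq3
    have h8 : (m : ℝ) ^ (1 / 2 : ℝ) = a ^ 50 := by
      rw [ha, ← Real.rpow_natCast, ← Real.rpow_mul hm0.le]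
      norm_num
    have h9 : (m : ℝ) = a ^ 100 := by
      rw [ha, ← Real.rpow_natCast, ← Real.rpow_mul hm0.le]
      norm_num
    rw [h8] at hq3
    calc 64 * (1 + Real.log m) * a ^ 4 ≤ a ^ 50 * a ^ 4 :=
          mul_le_mul_of_nonneg_right hq3 (by positivity)
      _ = a ^ 54 := by ring
      _ ≤ a ^ 100 := pow_le_pow_right₀ ha1 (by norm_num)
      _ = m := h9.symm
  -- the middle term
  have hT2 : 8 / (m.totient : ℝ) * (m.totient * (1 / (Hn x : ℝ) + 1 / (2 * WB m x)))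
      ≤ 16 / Real.log x := by
    have h1 : 1 / (Hn x : ℝ) ≤ 1 / Real.log x :=
      one_div_le_one_div_of_le (by linarith) hHlog
    have h2 : 1 / (2 * WB m x) ≤ 1 / Real.log x :=
      one_div_le_one_div_of_le (by linarith) (by linarith)
    calc 8 / (m.totient : ℝ) * (m.totient * (1 / (Hn x : ℝ) + 1 / (2 * WB m x)))
        = 8 * (1 / (Hn x : ℝ) + 1 / (2 * WB m x)) := by field_simp
      _ ≤ 8 * (1 / Real.log x + 1 / Real.log x) := by linarith
      _ = 16 / Real.log x := by ring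
  apply step_split
  refine hen.trans ?_
  have h8 : 8 / (m.totient : ℝ) * ∑ n ∈ cop m (m / 2), (1 - gB m x n) ^ 2
      ≤ 8 / (m.totient : ℝ) * (m.totient * (1 / (Hn x : ℝ) + 1 / (2 * WB m x))
        + 8 * 2 ^ m.primeFactors.card * aj x (Jn x) ^ 2) :=
    mul_le_mul_of_nonneg_left htk (by positivity)
  rw [mul_add] at h8
  have h9 : 8 / Real.log x + 16 / Real.log x + 1 / Real.log x = 25 / Real.log x := by ring
  linarith

end Pool.Agent.H78.PD
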