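import Pool.Agent.H78.PD.TDef
import Pool.Agent.H78.PD.Pri

/-!
# PD, T3b: the two sums

`RC κ C m` : the upper bound for the number of rough numbers.
* `rough_block`: `∑ {1/b : b rough, X/16 < b ≤ X} ≤ (16/X) #{..} ≤ 16 C/log m` for `m^(1/4) ≤ X ≤ m` (`X` real; `⌊X⌋`).
* `t3_sum_b`: `∑_{x, x0, t} d(b)/(p b p0 b0 t) = ∑_b d(b)/b ∑_p 1/p ∑_{p0} 1/p0 ∑_{b0} 1/b0 ∑_t 1/t`: given `b`, `p ∈ (M1/(16b), M1/b]`: `∑_p 1/p ≤ C/log m` (`pri_up` with `X = M1/(16 b) ≥ m^(1/400)`, `R = 16`);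
  `∑_{p0 ∈ AP} 1/p0 ≤ 4`; given `p0`, `b0 ∈ (M1/(16p0), M1/p0]`, rough: `≤ 16 C/log m` (`M1/p0 ≥ m^(1/4)`); given `p, p0`: `∑_t 1/t ≤ C/log m` (`pri_up` with `X = M1/(p p0) ≥ m^(1/400)`, `R = A`).
* `t3_sum_t`: `∑_{x, x0, t} d(p0 t)/(p b p0 b0 t)`: given `p0, t`: `p ∈ (M1/(p0 t), A M1/(p0 t)]`: `≤ C/log m` (`p0 t ≤ A M1/p ≤ A m^(199/400) ≤ m^(399/800)`), then `∑_b 1/b ≤ 16 C/log m`, `∑_{b0} 1/b0 ≤ 16 C/log m`; `(p0, t) ↦ n = p0 t ∈ BR`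
  takes each value at most twice.  Same for `t3_sum_b0`, `t3_sum_pt` by the symmetry `x ↔ x0`.
-/

set_option autoImplicit false

namespace Pool.Agent.H78.PD

open Finset
open Pool.Agent.H34PG (lam lam_val lam_mul lam_prime)
open Pool.Agent.H11.LQ Pool.Agent.H78.PG

open Classical in
/-- the upper bound for the number of rough numbers -/
def RC (κ C : ℝ) (m : ℕ) : Prop :=
  ∀ X : ℕ, (m : ℝ) ^ (1 / 4 : ℝ) ≤ X → X ≤ m →
    (((Icc 1 X).filter (fun n => rou (zN κ m) n)).card : ℝ) ≤ C * X / Real.log m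

/-- powers of `m` are large -/
private theorem t3b_pow (c K : ℝ) (hc : 0 < c) : ∃ m0 : ℕ, ∀ m : ℕ, m0 ≤ m → K ≤ (m : ℝ) ^ c := by
  have h1 : Filter.Tendsto (fun m : ℕ => (m : ℝ) ^ c) Filter.atTop Filter.atTop :=
    (tendsto_rpow_atTop hc).comp tendsto_natCast_atTop_atTop
  obtain ⟨m0, h⟩ := (h1.eventually_ge_atTop K).exists_forall_of_atTop
  exact ⟨m0, h⟩

private theorem t3b_M : ∃ m0 : ℕ, ∀ m : ℕ, m0 ≤ m → (m : ℝ) ^ (201 / 400 : ℝ) / 2 ≤ (M1 m : ℝ) := by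
  obtain ⟨m0, h⟩ := t3b_pow (201 / 400) 2 (by norm_num)
  refine ⟨m0, fun m hm => ?_⟩
  have h1 := h m hm
  have h2 := Nat.lt_floor_add_one ((m : ℝ) ^ (201 / 400 : ℝ))
  unfold M1
  linarith

private theorem t3b_M_le (m : ℕ) : (M1 m : ℝ) ≤ (m : ℝ) ^ (201 / 400 : ℝ) := Nat.floor_le (by positivity)

private theorem t3b_mem_AP {m p : ℕ} :
    p ∈ AP m ↔ p.Prime ∧ ¬ p ∣ m ∧ (m : ℝ) ^ (1 / 200 : ℝ) < (p : ℝ) ∧ (p : ℝ) ≤ (m : ℝ) ^ (23 / 100 : ℝ) := by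
  unfold AP
  exact mem_PI (by positivity)

/-- the block of rough numbers -/
private theorem t3b_b (κ C1 : ℝ) (hC1 : 0 < C1) : ∃ m0 : ℕ, ∀ m : ℕ, m0 ≤ m → RC κ C1 m → ∀ p ∈ AP m,
    ∑ b ∈ (BR κ m).filter (fun b => p * b ≤ M1 m ∧ M1 m < 16 * (p * b)), 1 / (b : ℝ) ≤ 16 * C1 / Real.log m := by
  obtain ⟨m1, h1⟩ := t3b_M
  obtain ⟨m2, h2⟩ := t3b_pow (9 / 400) 4 (by norm_num)
  refine ⟨max (max m1 m2) 3, fun m hm hRC p hp => ?_⟩
  have hm1 : m1 ≤ m := le_trans (le_trans (le_max_left _ _) (le_max_left _ _)) hm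
  have hm2 : m2 ≤ m := le_trans (le_trans (le_max_right _ _) (le_max_left _ _)) hm
  have hm3 : 3 ≤ m := le_trans (le_max_right _ _) hm
  have hmR : (3 : ℝ) ≤ m := by exact_mod_cast hm3
  have hm0 : (0 : ℝ) < m := by linarith
  have hL : 0 < Real.log m := Real.log_pos (by linarith)
  obtain ⟨hp1, hp2, hp3, hp4⟩ := t3b_mem_AP.mp hp
  have hpp : (0 : ℝ) < p := by exact_mod_cast hp1.pos
  have hM := h1 m hm1
  have hMle := t3b_M_le m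
  have ha1 : (1 : ℝ) ≤ (m : ℝ) ^ (1 / 4 : ℝ) := Real.one_le_rpow (by linarith) (by norm_num)
  have hq0 : (0 : ℝ) < (m : ℝ) ^ (23 / 100 : ℝ) := by positivity
  have hpow : (m : ℝ) ^ (201 / 400 : ℝ) = (m : ℝ) ^ (23 / 100 : ℝ) * (m : ℝ) ^ (1 / 4 : ℝ) * (m : ℝ) ^ (9 / 400 : ℝ) := by
    rw [← Real.rpow_add hm0, ← Real.rpow_add hm0]
    norm_num
  have hM2 : 2 * ((m : ℝ) ^ (23 / 100 : ℝ) * (m : ℝ) ^ (1 / 4 : ℝ)) ≤ (M1 m : ℝ) := by
    refine le_trans ?_ hM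
    rw [hpow]
    have := mul_le_mul_of_nonneg_left (h2 m hm2) (show (0 : ℝ) ≤ (m : ℝ) ^ (23 / 100 : ℝ) * (m : ℝ) ^ (1 / 4 : ℝ) by positivity)
    linarith
  have hM0 : (0 : ℝ) < M1 m := lt_of_lt_of_le (by positivity) hM2
  have hX0 : M1 m < p * (M1 m / p + 1) := Nat.lt_mul_div_succ _ hp1.pos
  have hX0' : (M1 m : ℝ) < p * (((M1 m / p : ℕ) : ℝ) + 1) := by exact_mod_cast hX0
  have hX1 : (m : ℝ) ^ (1 / 4 : ℝ) ≤ ((M1 m / p : ℕ) : ℝ) := by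
    by_contra hcon
    push Not at hcon
    have e1 : (p : ℝ) * (((M1 m / p : ℕ) : ℝ) + 1) ≤ (m : ℝ) ^ (23 / 100 : ℝ) * (2 * (m : ℝ) ^ (1 / 4 : ℝ)) :=
      mul_le_mul hp4 (by linarith) (by positivity) hq0.le
    linarith
  have hX2 : M1 m / p ≤ m := by
    have e1 : (M1 m : ℝ) ≤ m := by
      refine hMle.trans ?_
      have := Real.rpow_le_rpow_of_exponent_le (show (1 : ℝ) ≤ m by linarith) (show (201 / 400 : ℝ) ≤ 1 by norm_num)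
      rwa [Real.rpow_one] at this
    exact (Nat.div_le_self _ _).trans (by exact_mod_cast e1)
  have hX3 : ((M1 m / p : ℕ) : ℝ) * p ≤ M1 m := by exact_mod_cast Nat.div_mul_le_self (M1 m) p
  have hcard : (((BR κ m).filter (fun b => p * b ≤ M1 m ∧ M1 m < 16 * (p * b))).card : ℝ) ≤
      C1 * ((M1 m / p : ℕ) : ℝ) / Real.log m := by
    refine (Nat.cast_le.mpr (card_le_card ?_)).trans (hRC (M1 m / p) hX1 hX2)
    intro b hb
    obtain ⟨hb1, hb2, hb3⟩ := mem_filter.mp hb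
    obtain ⟨hb4, hb5, hb6, hb7⟩ := mem_BR.mp hb1
    classical
    refine mem_filter.mpr ⟨mem_Icc.mpr ⟨hb4, ?_⟩, hb7⟩
    rw [Nat.le_div_iff_mul_le hp1.pos, mul_comm]
    exact hb2
  have hterm : ∀ b ∈ (BR κ m).filter (fun b => p * b ≤ M1 m ∧ M1 m < 16 * (p * b)), 1 / (b : ℝ) ≤ 16 * p / M1 m := by
    intro b hb
    obtain ⟨hb1, hb2, hb3⟩ := mem_filter.mp hb
    have hb4 := (mem_BR.mp hb1).1
    have hb0 : (0 : ℝ) < b := by exact_mod_cast hb4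
    have e1 : (M1 m : ℝ) < 16 * (p * b) := by exact_mod_cast hb3
    rw [div_le_div_iff₀ hb0 hM0]
    linarith
  calc ∑ b ∈ (BR κ m).filter (fun b => p * b ≤ M1 m ∧ M1 m < 16 * (p * b)), 1 / (b : ℝ)
      ≤ (((BR κ m).filter (fun b => p * b ≤ M1 m ∧ M1 m < 16 * (p * b))).card : ℝ) * (16 * p / M1 m) := by
        have := sum_le_card_nsmul _ _ _ hterm
        rwa [nsmul_eq_mul] at this
    _ ≤ (C1 * ((M1 m / p : ℕ) : ℝ) / Real.log m) * (16 * p / M1 m) := mul_le_mul_of_nonneg_right hcard (by positivity)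
    _ = (16 * C1 / Real.log m) * ((((M1 m / p : ℕ) : ℝ) * p) / M1 m) := by ring
    _ ≤ (16 * C1 / Real.log m) * 1 := by
        refine mul_le_mul_of_nonneg_left ?_ (by positivity)
        rw [div_le_one hM0]
        exact hX3
    _ = 16 * C1 / Real.log m := mul_one _

private theorem t3b_AP : ∃ C : ℝ, 0 < C ∧ ∃ m0 : ℕ, ∀ m : ℕ, m0 ≤ m → ∑ p ∈ AP m, 1 / (p : ℝ) ≤ C := by
  obtain ⟨m0, h⟩ := pri_mert (1 / 200) (23 / 100) 1 (by norm_num) (by norm_num) (by norm_num) one_pos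
  refine ⟨|Real.log ((23 / 100) / (1 / 200))| + 1, by positivity, m0, fun m hm => ?_⟩
  have h1 := abs_le.mp (h m hm)
  have h2 := le_abs_self (Real.log ((23 / 100) / (1 / 200)))
  unfold AP
  linarith [h1.2]

private theorem t3b_pb : ∃ C : ℝ, 0 < C ∧ ∃ m0 : ℕ, ∀ m : ℕ, m0 ≤ m → ∀ b : ℕ, 1 ≤ b →
    ∑ p ∈ (AP m).filter (fun p => p * b ≤ M1 m ∧ M1 m < 16 * (p * b)), 1 / (p : ℝ) ≤ C / Real.log m := by
  obtain ⟨C, hC, m1, h1⟩ := pri_up (1 / 400) (by norm_num)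
  obtain ⟨m2, h2⟩ := t3b_pow (1 / 400) 16 (by norm_num)
  have hl16 : 0 < Real.log 16 := Real.log_pos (by norm_num)
  refine ⟨C * (1 + Real.log 16), by positivity, max (max m1 m2) 3, fun m hm b hb => ?_⟩
  have hm1 : m1 ≤ m := le_trans (le_trans (le_max_left _ _) (le_max_left _ _)) hm
  have hm2 : m2 ≤ m := le_trans (le_trans (le_max_right _ _) (le_max_left _ _)) hm
  have hm3 : 3 ≤ m := le_trans (le_max_right _ _) hm
  have hmR : (3 : ℝ) ≤ m := by exact_mod_cast hm3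
  have hm0 : (0 : ℝ) < m := by linarith
  have hL : 0 < Real.log m := Real.log_pos (by linarith)
  have hb0 : (0 : ℝ) < b := by exact_mod_cast hb
  rcases ((AP m).filter (fun p => p * b ≤ M1 m ∧ M1 m < 16 * (p * b))).eq_empty_or_nonempty with he | ⟨p, hp⟩
  · rw [he, sum_empty]
    positivity
  obtain ⟨hp1, hp2, hp3⟩ := mem_filter.mp hp
  obtain ⟨hp4, hp5, hp6, hp7⟩ := t3b_mem_AP.mp hp1
  have e1 : (p : ℝ) * b ≤ M1 m := by exact_mod_cast hp2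
  have hX : (m : ℝ) ^ (1 / 400 : ℝ) ≤ (M1 m : ℝ) / (16 * b) := by
    rw [le_div_iff₀ (by positivity)]
    have e2 : (m : ℝ) ^ (1 / 200 : ℝ) = (m : ℝ) ^ (1 / 400 : ℝ) * (m : ℝ) ^ (1 / 400 : ℝ) := by
      rw [← Real.rpow_add hm0]
      norm_num
    have e3 : (16 : ℝ) * (m : ℝ) ^ (1 / 400 : ℝ) ≤ p := by
      have e4 := mul_le_mul_of_nonneg_right (h2 m hm2) (show (0 : ℝ) ≤ (m : ℝ) ^ (1 / 400 : ℝ) by positivity)
      linarith
    have e5 := mul_le_mul_of_nonneg_right e3 hb0.le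
    linarith
  refine le_trans ?_ (h1 m hm1 ((M1 m : ℝ) / (16 * b)) 16 hX (by norm_num))
  refine sum_le_sum_of_subset_of_nonneg ?_ fun _ _ _ => by positivity
  intro p' hp'
  obtain ⟨k1, k2, k3⟩ := mem_filter.mp hp'
  obtain ⟨k4, k5, k6, k7⟩ := t3b_mem_AP.mp k1
  have k2' : (p' : ℝ) * b ≤ M1 m := by exact_mod_cast k2
  have k3' : (M1 m : ℝ) < 16 * (p' * b) := by exact_mod_cast k3
  rw [mem_PI (by positivity)]
  refine ⟨k4, k5, ?_, ?_⟩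
  · rw [div_lt_iff₀ (by positivity)]
    linarith
  · rw [show (16 : ℝ) * ((M1 m : ℝ) / (16 * b)) = M1 m / b by field_simp, le_div_iff₀ hb0]
    exact k2'

/-- the lower bound for `M1 / (p p0)` -/
private theorem t3b_X : ∃ m0 : ℕ, ∀ m : ℕ, m0 ≤ m → ∀ p ∈ AP m, ∀ p0 ∈ AP m,
    (m : ℝ) ^ (1 / 400 : ℝ) ≤ (M1 m : ℝ) / (p * p0) := by
  obtain ⟨m1, h1⟩ := t3b_M
  obtain ⟨m2, h2⟩ := t3b_pow (16 / 400) 2 (by norm_num)
  refine ⟨max (max m1 m2) 3, fun m hm p hp p0 hp0 => ?_⟩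
  have hm1 : m1 ≤ m := le_trans (le_trans (le_max_left _ _) (le_max_left _ _)) hm
  have hm2 : m2 ≤ m := le_trans (le_trans (le_max_right _ _) (le_max_left _ _)) hm
  have hm3 : 3 ≤ m := le_trans (le_max_right _ _) hm
  have hmR : (3 : ℝ) ≤ m := by exact_mod_cast hm3
  have hm0 : (0 : ℝ) < m := by linarith
  obtain ⟨hp4, hp5, hp6, hp7⟩ := t3b_mem_AP.mp hp
  obtain ⟨hq4, hq5, hq6, hq7⟩ := t3b_mem_AP.mp hp0
  have hpp : (0 : ℝ) < p := by exact_mod_cast hp4.pos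
  have hqq : (0 : ℝ) < p0 := by exact_mod_cast hq4.pos
  have hpow : (m : ℝ) ^ (201 / 400 : ℝ) =
      (m : ℝ) ^ (1 / 400 : ℝ) * ((m : ℝ) ^ (23 / 100 : ℝ) * (m : ℝ) ^ (23 / 100 : ℝ)) * (m : ℝ) ^ (16 / 400 : ℝ) := by
    rw [← Real.rpow_add hm0, ← Real.rpow_add hm0, ← Real.rpow_add hm0]
    norm_num
  rw [le_div_iff₀ (by positivity)]
  have e1 : (p : ℝ) * p0 ≤ (m : ℝ) ^ (23 / 100 : ℝ) * (m : ℝ) ^ (23 / 100 : ℝ) := mul_le_mul hp7 hq7 hqq.le (by positivity)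
  have e2 : (m : ℝ) ^ (1 / 400 : ℝ) * (p * p0) ≤
      (m : ℝ) ^ (1 / 400 : ℝ) * ((m : ℝ) ^ (23 / 100 : ℝ) * (m : ℝ) ^ (23 / 100 : ℝ)) :=
    mul_le_mul_of_nonneg_left e1 (by positivity)
  have e3 := h1 m hm1
  rw [hpow] at e3
  have e4 := mul_le_mul_of_nonneg_left (h2 m hm2)
    (show (0 : ℝ) ≤ (m : ℝ) ^ (1 / 400 : ℝ) * ((m : ℝ) ^ (23 / 100 : ℝ) * (m : ℝ) ^ (23 / 100 : ℝ)) by positivity)
  linarith

private theorem t3b_t (A : ℝ) (hA : 2 ≤ A) : ∃ C : ℝ, 0 < C ∧ ∃ m0 : ℕ, ∀ m : ℕ, m0 ≤ m → ∀ p ∈ AP m, ∀ p0 ∈ AP m,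
    ∑ t ∈ Tt m A p p0, 1 / (t : ℝ) ≤ C / Real.log m := by
  obtain ⟨C, hC, m1, h1⟩ := pri_up (1 / 400) (by norm_num)
  obtain ⟨m2, h2⟩ := t3b_X
  have hlA : 0 < Real.log A := Real.log_pos (by linarith)
  refine ⟨C * (1 + Real.log A), by positivity, max m1 m2, fun m hm p hp p0 hp0 => ?_⟩
  exact h1 m ((le_max_left _ _).trans hm) _ A (h2 m ((le_max_right _ _).trans hm) p hp p0 hp0) (by linarith)

private theorem t3b_pt (A : ℝ) (hA : 2 ≤ A) : ∃ C : ℝ, 0 < C ∧ ∃ m0 : ℕ, ∀ m : ℕ, m0 ≤ m → ∀ p0 t : ℕ, 1 ≤ p0 → 1 ≤ t →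
    ∑ p ∈ (AP m).filter (fun p => t ∈ Tt m A p p0), 1 / (p : ℝ) ≤ C / Real.log m := by
  obtain ⟨C, hC, m1, h1⟩ := pri_up (1 / 400) (by norm_num)
  obtain ⟨m2, h2⟩ := t3b_pow (1 / 400) A (by norm_num)
  have hlA : 0 < Real.log A := Real.log_pos (by linarith)
  have hA0 : 0 < A := by linarith
  refine ⟨C * (1 + Real.log A), by positivity, max (max m1 m2) 3, fun m hm p0 t hp0 ht => ?_⟩
  have hm1 : m1 ≤ m := le_trans (le_trans (le_max_left _ _) (le_max_left _ _)) hm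
  have hm2 : m2 ≤ m := le_trans (le_trans (le_max_right _ _) (le_max_left _ _)) hm
  have hm3 : 3 ≤ m := le_trans (le_max_right _ _) hm
  have hmR : (3 : ℝ) ≤ m := by exact_mod_cast hm3
  have hm0 : (0 : ℝ) < m := by linarith
  have hL : 0 < Real.log m := Real.log_pos (by linarith)
  have hp00 : (0 : ℝ) < p0 := by exact_mod_cast hp0
  have ht0 : (0 : ℝ) < t := by exact_mod_cast ht
  have hmem : ∀ p : ℕ, 0 < p → t ∈ Tt m A p p0 →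
      (M1 m : ℝ) / (p0 * t) < p ∧ (p : ℝ) ≤ A * ((M1 m : ℝ) / (p0 * t)) := by
    intro p hp htt
    have hp0' : (0 : ℝ) < p := by exact_mod_cast hp
    unfold Tt at htt
    obtain ⟨_, _, k3, k4⟩ := (mem_PI (by positivity)).mp htt
    constructor
    · rw [div_lt_iff₀ (by positivity)] at k3 ⊢
      linarith
    · have e1 : A * ((M1 m : ℝ) / (p * p0)) = (A * M1 m) / (p * p0) := by ring
      have e2 : A * ((M1 m : ℝ) / (p0 * t)) = (A * M1 m) / (p0 * t) := by ring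
      rw [e1, le_div_iff₀ (by positivity)] at k4
      rw [e2, le_div_iff₀ (by positivity)]
      linarith
  rcases ((AP m).filter (fun p => t ∈ Tt m A p p0)).eq_empty_or_nonempty with he | ⟨p, hp⟩
  · rw [he, sum_empty]
    positivity
  obtain ⟨hp1, hp2⟩ := mem_filter.mp hp
  obtain ⟨hp4, hp5, hp6, hp7⟩ := t3b_mem_AP.mp hp1
  have hX : (m : ℝ) ^ (1 / 400 : ℝ) ≤ (M1 m : ℝ) / (p0 * t) := by
    have e1 := (hmem p hp4.pos hp2).2
    have e2 : (m : ℝ) ^ (1 / 200 : ℝ) = (m : ℝ) ^ (1 / 400 : ℝ) * (m : ℝ) ^ (1 / 400 : ℝ) := by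
      rw [← Real.rpow_add hm0]
      norm_num
    have e4 := mul_le_mul_of_nonneg_right (h2 m hm2) (show (0 : ℝ) ≤ (m : ℝ) ^ (1 / 400 : ℝ) by positivity)
    have e5 : A * (m : ℝ) ^ (1 / 400 : ℝ) ≤ A * ((M1 m : ℝ) / (p0 * t)) := by linarith
    exact le_of_mul_le_mul_left e5 hA0
  refine le_trans ?_ (h1 m hm1 ((M1 m : ℝ) / (p0 * t)) A hX (by linarith))
  refine sum_le_sum_of_subset_of_nonneg ?_ fun _ _ _ => by positivity
  intro p' hp'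
  obtain ⟨k1, k2⟩ := mem_filter.mp hp'
  obtain ⟨k4, k5, k6, k7⟩ := t3b_mem_AP.mp k1
  rw [mem_PI (by positivity)]
  exact ⟨k4, k5, hmem p' k4.pos k2⟩

/-- the products `p0 t` -/
private theorem t3b_mem (κ A : ℝ) (hκ1 : κ ≤ 1 / 1000) (hA : 2 ≤ A) : ∃ m0 : ℕ, ∀ m : ℕ, m0 ≤ m →
    ∀ p ∈ AP m, ∀ p0 ∈ AP m, ∀ t ∈ Tt m A p p0,
      t.Prime ∧ t ∈ Icc 1 ⌊(m : ℝ) ^ (399 / 800 : ℝ)⌋₊ ∧ p0 * t ∈ BR κ m := by
  obtain ⟨m1, h1⟩ := t3b_X
  obtain ⟨m2, h2⟩ := t3b_pow (1 / 800) A (by norm_num)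
  have hA0 : 0 < A := by linarith
  refine ⟨max (max m1 m2) 3, fun m hm p hp p0 hp0 t ht => ?_⟩
  have hm1 : m1 ≤ m := le_trans (le_trans (le_max_left _ _) (le_max_left _ _)) hm
  have hm2 : m2 ≤ m := le_trans (le_trans (le_max_right _ _) (le_max_left _ _)) hm
  have hm3 : 3 ≤ m := le_trans (le_max_right _ _) hm
  have hmR : (3 : ℝ) ≤ m := by exact_mod_cast hm3
  have hm0 : (0 : ℝ) < m := by linarith
  obtain ⟨hp4, hp5, hp6, hp7⟩ := t3b_mem_AP.mp hp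
  obtain ⟨hq4, hq5, hq6, hq7⟩ := t3b_mem_AP.mp hp0
  have hpp : (0 : ℝ) < p := by exact_mod_cast hp4.pos
  have hqq : (0 : ℝ) < p0 := by exact_mod_cast hq4.pos
  have hX := h1 m hm1 p hp p0 hp0
  unfold Tt at ht
  obtain ⟨t1, t2, t3, t4⟩ := (mem_PI (by positivity)).mp ht
  have ht0 : (0 : ℝ) < t := by exact_mod_cast t1.pos
  have hle : ((p0 * t : ℕ) : ℝ) ≤ (m : ℝ) ^ (399 / 800 : ℝ) := by
    push_cast
    have e1 : A * ((M1 m : ℝ) / (p * p0)) = (A * M1 m) / (p * p0) := by ring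
    rw [e1, le_div_iff₀ (by positivity)] at t4
    have e2 := t3b_M_le m
    have e3 : (m : ℝ) ^ (201 / 400 : ℝ) = (m : ℝ) ^ (1 / 200 : ℝ) * (m : ℝ) ^ (199 / 400 : ℝ) := by
      rw [← Real.rpow_add hm0]
      norm_num
    have e4 : (m : ℝ) ^ (399 / 800 : ℝ) = (m : ℝ) ^ (1 / 800 : ℝ) * (m : ℝ) ^ (199 / 400 : ℝ) := by
      rw [← Real.rpow_add hm0]
      norm_num
    have e5 : (m : ℝ) ^ (1 / 200 : ℝ) * ((p0 : ℝ) * t) ≤ (m : ℝ) ^ (1 / 200 : ℝ) * (A * (m : ℝ) ^ (199 / 400 : ℝ)) := by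
      have e6 : (m : ℝ) ^ (1 / 200 : ℝ) * ((p0 : ℝ) * t) ≤ p * (p0 * t) := mul_le_mul_of_nonneg_right hp6.le (by positivity)
      have e7 : A * (M1 m : ℝ) ≤ A * (m : ℝ) ^ (201 / 400 : ℝ) := mul_le_mul_of_nonneg_left e2 hA0.le
      rw [e3] at e7
      linarith
    have e8 : (p0 : ℝ) * t ≤ A * (m : ℝ) ^ (199 / 400 : ℝ) := le_of_mul_le_mul_left e5 (by positivity)
    rw [e4]
    exact e8.trans (mul_le_mul_of_nonneg_right (h2 m hm2) (by positivity))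
  have hpos : 1 ≤ p0 * t := Nat.mul_pos hq4.pos t1.pos
  have hκ4 : (m : ℝ) ^ κ ≤ (m : ℝ) ^ (1 / 400 : ℝ) := Real.rpow_le_rpow_of_exponent_le (by linarith) (by linarith)
  have hκ2 : (m : ℝ) ^ κ ≤ (m : ℝ) ^ (1 / 200 : ℝ) := Real.rpow_le_rpow_of_exponent_le (by linarith) (by linarith)
  refine ⟨t1, ?_, ?_⟩
  · rw [mem_Icc, Nat.le_floor_iff (by positivity)]
    refine ⟨t1.one_lt.le, le_trans ?_ hle⟩
    have : t ≤ p0 * t := Nat.le_mul_of_pos_left t hq4.pos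
    exact_mod_cast this
  · rw [mem_BR]
    refine ⟨hpos, hle, ?_, ?_⟩
    · exact Nat.Coprime.mul_left ((Nat.Prime.coprime_iff_not_dvd hq4).mpr hq5) ((Nat.Prime.coprime_iff_not_dvd t1).mpr t2)
    · intro q hq hqd
      rcases (Nat.Prime.dvd_mul hq).mp hqd with h | h
      · rw [(Nat.prime_dvd_prime_iff_eq hq hq4).mp h, zN, Nat.floor_lt (by positivity)]
        linarith
      · rw [(Nat.prime_dvd_prime_iff_eq hq t1).mp h, zN, Nat.floor_lt (by positivity)]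
        linarith

/-- every number is a product of two primes in at most two ways -/
private theorem t3b_two (S T B : Finset ℕ) (hS : ∀ p ∈ S, p.Prime) (g : ℕ → ℝ) (hg : ∀ n, 0 ≤ g n) :
    ∑ y ∈ (S ×ˢ T).filter (fun y => y.2.Prime ∧ y.1 * y.2 ∈ B), g (y.1 * y.2) ≤ 2 * ∑ n ∈ B, g n := by
  classical
  rw [← sum_fiberwise_of_maps_to (t := B) (g := fun y : ℕ × ℕ => y.1 * y.2) fun y hy => (mem_filter.mp hy).2.2, mul_sum]
  refine sum_le_sum fun n _ => ?_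
  have h1 : ∀ y ∈ ((S ×ˢ T).filter (fun y => y.2.Prime ∧ y.1 * y.2 ∈ B)).filter (fun y => y.1 * y.2 = n), g (y.1 * y.2) = g n :=
    fun y hy => by rw [(mem_filter.mp hy).2]
  rw [sum_congr rfl h1, sum_const, nsmul_eq_mul]
  refine mul_le_mul_of_nonneg_right ?_ (hg n)
  rcases (((S ×ˢ T).filter (fun y => y.2.Prime ∧ y.1 * y.2 ∈ B)).filter (fun y => y.1 * y.2 = n)).eq_empty_or_nonempty with he | ⟨y0, hy0⟩
  · rw [he, card_empty]
    norm_num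
  obtain ⟨a1, a2⟩ := mem_filter.mp hy0
  obtain ⟨a3, a4, a5⟩ := mem_filter.mp a1
  obtain ⟨a6, a7⟩ := mem_product.mp a3
  have hsub : ((S ×ˢ T).filter (fun y => y.2.Prime ∧ y.1 * y.2 ∈ B)).filter (fun y => y.1 * y.2 = n) ⊆ {y0, (y0.2, y0.1)} := by
    intro y hy
    obtain ⟨b1, b2⟩ := mem_filter.mp hy
    obtain ⟨b3, b4, b5⟩ := mem_filter.mp b1
    obtain ⟨b6, b7⟩ := mem_product.mp b3
    have hy1 := hS _ b6
    have hy01 := hS _ a6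
    have hprod : y.1 * y.2 = y0.1 * y0.2 := by rw [b2, a2]
    rw [mem_insert, mem_singleton]
    rcases (Nat.Prime.dvd_mul hy1).mp (show y.1 ∣ y0.1 * y0.2 from hprod ▸ Dvd.intro _ rfl) with h | h
    · left
      have e1 := (Nat.prime_dvd_prime_iff_eq hy1 hy01).mp h
      refine Prod.ext e1 ?_
      rw [e1] at hprod
      exact Nat.eq_of_mul_eq_mul_left hy01.pos hprod
    · right
      have e1 := (Nat.prime_dvd_prime_iff_eq hy1 a4).mp h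
      refine Prod.ext e1 ?_
      rw [e1, mul_comm y0.1] at hprod
      exact Nat.eq_of_mul_eq_mul_left a4.pos hprod
  have hc := (card_le_card hsub).trans card_le_two
  exact_mod_cast hc

/-- sums over `PB` -/
private theorem t3b_PB (κ : ℝ) (m : ℕ) (f : ℕ → ℕ → ℝ) : ∑ x ∈ PB κ m, f x.1 x.2 =
    ∑ p ∈ AP m, ∑ b ∈ (BR κ m).filter (fun b => p * b ≤ M1 m ∧ M1 m < 16 * (p * b)), f p b := by
  unfold PB
  rw [sum_filter, sum_product]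
  refine sum_congr rfl fun p _ => ?_
  rw [sum_filter]

private theorem t3b_PB' (κ : ℝ) (m : ℕ) (f : ℕ → ℕ → ℝ) : ∑ x ∈ PB κ m, f x.1 x.2 =
    ∑ b ∈ BR κ m, ∑ p ∈ (AP m).filter (fun p => p * b ≤ M1 m ∧ M1 m < 16 * (p * b)), f p b := by
  unfold PB
  rw [sum_filter, sum_product_right]
  refine sum_congr rfl fun b _ => ?_
  rw [sum_filter]

theorem t3_sum_b (κ A C1 : ℝ) (hκ : 0 < κ) (hκ1 : κ ≤ 1 / 1000) (hA : 2 ≤ A) (hC1 : 0 < C1) :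
    ∃ C : ℝ, 0 < C ∧ ∃ m0 : ℕ, ∀ m : ℕ, m0 ≤ m → RC κ C1 m → ∀ d : ℕ → ℝ, (∀ n, 0 ≤ d n) →
    ∑ x ∈ PB κ m, ∑ x0 ∈ PB κ m, ∑ t ∈ Tt m A x.1 x0.1,
      d x.2 / ((x.1 : ℝ) * x.2 * (x0.1 * x0.2) * t)
      ≤ C / Real.log m ^ 3 * ∑ n ∈ BR κ m, d n / n := by
  obtain ⟨Ct, hCt, m1, h1⟩ := t3b_t A hA
  obtain ⟨Ca, hCa, m2, h2⟩ := t3b_AP
  obtain ⟨Cb, hCb, m3, h3⟩ := t3b_pb
  obtain ⟨m4, h4⟩ := t3b_b κ C1 hC1
  refine ⟨Cb * ((Ca * (16 * C1)) * Ct), by positivity, max (max (max m1 m2) (max m3 m4)) 3, fun m hm hRC d hd => ?_⟩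
  have hm3 : 3 ≤ m := le_trans (le_max_right _ _) hm
  have hmax : max (max m1 m2) (max m3 m4) ≤ m := le_trans (le_max_left _ _) hm
  have hm1 : m1 ≤ m := le_trans (le_trans (le_max_left _ _) (le_max_left _ _)) hmax
  have hm2 : m2 ≤ m := le_trans (le_trans (le_max_right _ _) (le_max_left _ _)) hmax
  have hm3' : m3 ≤ m := le_trans (le_trans (le_max_left _ _) (le_max_right _ _)) hmax
  have hm4 : m4 ≤ m := le_trans (le_trans (le_max_right _ _) (le_max_right _ _)) hmax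
  have hmR : (3 : ℝ) ≤ m := by exact_mod_cast hm3
  have hL : 0 < Real.log m := Real.log_pos (by linarith)
  obtain ⟨L, hLd⟩ : ∃ L, L = Real.log m := ⟨_, rfl⟩
  rw [← hLd] at hL ⊢
  -- the sum over `x0`
  have hx0 : ∑ x0 ∈ PB κ m, 1 / ((x0.1 : ℝ) * x0.2) ≤ Ca * (16 * C1 / L) := by
    rw [t3b_PB κ m fun p b => 1 / ((p : ℝ) * b)]
    have e1 : ∀ p ∈ AP m, ∑ b ∈ (BR κ m).filter (fun b => p * b ≤ M1 m ∧ M1 m < 16 * (p * b)), 1 / ((p : ℝ) * b) ≤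
        (1 / (p : ℝ)) * (16 * C1 / L) := by
      intro p hp
      have e2 := h4 m hm4 hRC p hp
      rw [← hLd] at e2
      have e3 : ∑ b ∈ (BR κ m).filter (fun b => p * b ≤ M1 m ∧ M1 m < 16 * (p * b)), 1 / ((p : ℝ) * b) =
          (1 / (p : ℝ)) * ∑ b ∈ (BR κ m).filter (fun b => p * b ≤ M1 m ∧ M1 m < 16 * (p * b)), 1 / (b : ℝ) := by
        rw [mul_sum]
        exact sum_congr rfl fun b _ => by rw [div_mul_div_comm, one_mul]
      rw [e3]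
      exact mul_le_mul_of_nonneg_left e2 (by positivity)
    refine (sum_le_sum e1).trans ?_
    rw [← sum_mul]
    exact mul_le_mul_of_nonneg_right (h2 m hm2) (by positivity)
  -- the sums over `x0` and `t`
  have hin : ∀ x ∈ PB κ m, ∑ x0 ∈ PB κ m, ∑ t ∈ Tt m A x.1 x0.1, d x.2 / ((x.1 : ℝ) * x.2 * (x0.1 * x0.2) * t) ≤
      (d x.2 / ((x.1 : ℝ) * x.2)) * ((Ca * (16 * C1 / L)) * (Ct / L)) := by
    intro x hx
    have hxAP : x.1 ∈ AP m := (mem_product.mp (mem_filter.mp hx).1).1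
    have e0 : 0 ≤ d x.2 / ((x.1 : ℝ) * x.2) := div_nonneg (hd _) (by positivity)
    have e1 : ∀ x0 ∈ PB κ m, ∑ t ∈ Tt m A x.1 x0.1, d x.2 / ((x.1 : ℝ) * x.2 * (x0.1 * x0.2) * t) ≤
        (d x.2 / ((x.1 : ℝ) * x.2)) * (1 / ((x0.1 : ℝ) * x0.2) * (Ct / L)) := by
      intro x0 hx0'
      have hx0AP : x0.1 ∈ AP m := (mem_product.mp (mem_filter.mp hx0').1).1
      have e2 := h1 m hm1 x.1 hxAP x0.1 hx0AP
      rw [← hLd] at e2
      have e3 : ∑ t ∈ Tt m A x.1 x0.1, d x.2 / ((x.1 : ℝ) * x.2 * (x0.1 * x0.2) * t) =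
          (d x.2 / ((x.1 : ℝ) * x.2)) * (1 / ((x0.1 : ℝ) * x0.2) * ∑ t ∈ Tt m A x.1 x0.1, 1 / (t : ℝ)) := by
        rw [mul_sum, mul_sum]
        refine sum_congr rfl fun t _ => ?_
        rw [div_mul_div_comm, div_mul_div_comm]
        ring_nf
      rw [e3]
      exact mul_le_mul_of_nonneg_left (mul_le_mul_of_nonneg_left e2 (by positivity)) e0
    refine (sum_le_sum e1).trans ?_
    rw [← mul_sum, ← sum_mul]
    exact mul_le_mul_of_nonneg_left (mul_le_mul_of_nonneg_right hx0 (by positivity)) e0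
  refine (sum_le_sum hin).trans ?_
  rw [← sum_mul]
  have hx : ∑ x ∈ PB κ m, d x.2 / ((x.1 : ℝ) * x.2) ≤ (Cb / L) * ∑ n ∈ BR κ m, d n / n := by
    rw [t3b_PB' κ m fun p b => d b / ((p : ℝ) * b), mul_sum]
    refine sum_le_sum fun b hb => ?_
    have hb1 := (mem_BR.mp hb).1
    have e2 := h3 m hm3' b hb1
    rw [← hLd] at e2
    have e3 : ∑ p ∈ (AP m).filter (fun p => p * b ≤ M1 m ∧ M1 m < 16 * (p * b)), d b / ((p : ℝ) * b) =
        (∑ p ∈ (AP m).filter (fun p => p * b ≤ M1 m ∧ M1 m < 16 * (p * b)), 1 / (p : ℝ)) * (d b / b) := by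
      rw [sum_mul]
      refine sum_congr rfl fun p _ => ?_
      rw [div_mul_div_comm, one_mul]
    rw [e3]
    exact mul_le_mul_of_nonneg_right e2 (div_nonneg (hd _) (by positivity))
  refine (mul_le_mul_of_nonneg_right hx (by positivity)).trans (le_of_eq ?_)
  field_simp

theorem t3_sum_t (κ A C1 : ℝ) (hκ : 0 < κ) (hκ1 : κ ≤ 1 / 1000) (hA : 2 ≤ A) (hC1 : 0 < C1) :
    ∃ C : ℝ, 0 < C ∧ ∃ m0 : ℕ, ∀ m : ℕ, m0 ≤ m → RC κ C1 m → ∀ d : ℕ → ℝ, (∀ n, 0 ≤ d n) →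
    ∑ x ∈ PB κ m, ∑ x0 ∈ PB κ m, ∑ t ∈ Tt m A x.1 x0.1,
      d (x0.1 * t) / ((x.1 : ℝ) * x.2 * (x0.1 * x0.2) * t)
      ≤ C / Real.log m ^ 3 * ∑ n ∈ BR κ m, d n / n := by
  obtain ⟨Cp, hCp, m1, h1⟩ := t3b_pt A hA
  obtain ⟨m2, h2⟩ := t3b_mem κ A hκ1 hA
  obtain ⟨m4, h4⟩ := t3b_b κ C1 hC1
  refine ⟨(16 * C1) * (16 * C1) * (Cp * 2), by positivity, max (max m1 (max m2 m4)) 3, fun m hm hRC d hd => ?_⟩
  have hm3 : 3 ≤ m := le_trans (le_max_right _ _) hm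
  have hmax : max m1 (max m2 m4) ≤ m := le_trans (le_max_left _ _) hm
  have hm1 : m1 ≤ m := le_trans (le_max_left _ _) hmax
  have hm2 : m2 ≤ m := le_trans (le_trans (le_max_left _ _) (le_max_right _ _)) hmax
  have hm4 : m4 ≤ m := le_trans (le_trans (le_max_right _ _) (le_max_right _ _)) hmax
  have hmR : (3 : ℝ) ≤ m := by exact_mod_cast hm3
  have hL : 0 < Real.log m := Real.log_pos (by linarith)
  obtain ⟨L, hLd⟩ : ∃ L, L = Real.log m := ⟨_, rfl⟩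
  rw [← hLd] at hL ⊢
  obtain ⟨S, hSd⟩ : ∃ S : ℕ → ℕ → ℝ, S = fun p p0 => ∑ t ∈ Tt m A p p0, d (p0 * t) / ((p : ℝ) * (p0 * t)) := ⟨_, rfl⟩
  have hS0 : ∀ p p0, 0 ≤ S p p0 := by
    intro p p0
    rw [hSd]
    exact sum_nonneg fun t _ => div_nonneg (hd _) (by positivity)
  have hb : ∀ p ∈ AP m, ∑ b ∈ (BR κ m).filter (fun b => p * b ≤ M1 m ∧ M1 m < 16 * (p * b)), 1 / (b : ℝ) ≤ 16 * C1 / L := by
    intro p hp
    have := h4 m hm4 hRC p hp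
    rwa [← hLd] at this
  -- separate the variables
  have hsep : ∑ x ∈ PB κ m, ∑ x0 ∈ PB κ m, ∑ t ∈ Tt m A x.1 x0.1,
      d (x0.1 * t) / ((x.1 : ℝ) * x.2 * (x0.1 * x0.2) * t) =
      ∑ p ∈ AP m, ∑ p0 ∈ AP m, (∑ b ∈ (BR κ m).filter (fun b => p * b ≤ M1 m ∧ M1 m < 16 * (p * b)), 1 / (b : ℝ)) *
        ((∑ b ∈ (BR κ m).filter (fun b => p0 * b ≤ M1 m ∧ M1 m < 16 * (p0 * b)), 1 / (b : ℝ)) * S p p0) := by
    have e1 : ∀ x ∈ PB κ m, ∑ x0 ∈ PB κ m, ∑ t ∈ Tt m A x.1 x0.1,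
        d (x0.1 * t) / ((x.1 : ℝ) * x.2 * (x0.1 * x0.2) * t) =
        (1 / (x.2 : ℝ)) * ∑ p0 ∈ AP m,
          (∑ b ∈ (BR κ m).filter (fun b => p0 * b ≤ M1 m ∧ M1 m < 16 * (p0 * b)), 1 / (b : ℝ)) * S x.1 p0 := by
      intro x _
      have e2 : ∀ x0 ∈ PB κ m, ∑ t ∈ Tt m A x.1 x0.1, d (x0.1 * t) / ((x.1 : ℝ) * x.2 * (x0.1 * x0.2) * t) =
          (1 / (x.2 : ℝ)) * (1 / (x0.2 : ℝ) * S x.1 x0.1) := by
        intro x0 _
        rw [hSd]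
        simp only
        rw [mul_sum, mul_sum]
        refine sum_congr rfl fun t _ => ?_
        rw [div_mul_div_comm, div_mul_div_comm]
        ring_nf
      rw [sum_congr rfl e2, ← mul_sum, t3b_PB κ m fun p b => 1 / (b : ℝ) * S x.1 p]
      congr 1
      exact sum_congr rfl fun p0 _ => by rw [sum_mul]
    rw [sum_congr rfl e1, t3b_PB κ m fun p b => (1 / (b : ℝ)) * ∑ p0 ∈ AP m,
          (∑ b ∈ (BR κ m).filter (fun b => p0 * b ≤ M1 m ∧ M1 m < 16 * (p0 * b)), 1 / (b : ℝ)) * S p p0]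
    refine sum_congr rfl fun p _ => ?_
    rw [← sum_mul, mul_sum]
  rw [hsep]
  have hstep : ∑ p ∈ AP m, ∑ p0 ∈ AP m, (∑ b ∈ (BR κ m).filter (fun b => p * b ≤ M1 m ∧ M1 m < 16 * (p * b)), 1 / (b : ℝ)) *
        ((∑ b ∈ (BR κ m).filter (fun b => p0 * b ≤ M1 m ∧ M1 m < 16 * (p0 * b)), 1 / (b : ℝ)) * S p p0) ≤
      (16 * C1 / L) * (16 * C1 / L) * ∑ p ∈ AP m, ∑ p0 ∈ AP m, S p p0 := by
    rw [mul_sum]
    refine sum_le_sum fun p hp => ?_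
    rw [mul_sum]
    refine sum_le_sum fun p0 hp0 => ?_
    have e1 : 0 ≤ ∑ b ∈ (BR κ m).filter (fun b => p0 * b ≤ M1 m ∧ M1 m < 16 * (p0 * b)), 1 / (b : ℝ) :=
      sum_nonneg fun _ _ => by positivity
    rw [mul_assoc]
    refine mul_le_mul (hb p hp) (mul_le_mul_of_nonneg_right (hb p0 hp0) (hS0 _ _)) (mul_nonneg e1 (hS0 _ _)) (by positivity)
  refine hstep.trans ?_
  -- the sum over `p`
  have hmain : ∑ p ∈ AP m, ∑ p0 ∈ AP m, S p p0 ≤ (Cp / L) * (2 * ∑ n ∈ BR κ m, d n / n) := by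
    obtain ⟨U, hUd⟩ : ∃ U, U = Icc 1 ⌊(m : ℝ) ^ (399 / 800 : ℝ)⌋₊ := ⟨_, rfl⟩
    obtain ⟨g, hgd⟩ : ∃ g : ℕ → ℝ, g = fun n => d n / n := ⟨_, rfl⟩
    have hg0 : ∀ n, 0 ≤ g n := by
      intro n
      rw [hgd]
      exact div_nonneg (hd _) (by positivity)
    have e1 : ∀ p ∈ AP m, ∀ p0 ∈ AP m, S p p0 = ∑ t ∈ U, if t ∈ Tt m A p p0 then
        (if t.Prime ∧ p0 * t ∈ BR κ m then (1 / (p : ℝ)) * g (p0 * t) else 0) else 0 := by
      intro p hp p0 hp0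
      rw [← sum_filter, hSd]
      simp only
      have e2 : U.filter (fun t => t ∈ Tt m A p p0) = Tt m A p p0 := by
        ext t
        rw [mem_filter]
        refine ⟨fun h => h.2, fun h => ⟨?_, h⟩⟩
        rw [hUd]
        exact (h2 m hm2 p hp p0 hp0 t h).2.1
      rw [e2]
      refine sum_congr rfl fun t ht => ?_
      have e3 := h2 m hm2 p hp p0 hp0 t ht
      rw [if_pos ⟨e3.1, e3.2.2⟩, hgd]
      simp only
      rw [div_mul_div_comm, one_mul]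
      push_cast
      rfl
    have e4 : ∑ p ∈ AP m, ∑ p0 ∈ AP m, S p p0 = ∑ p0 ∈ AP m, ∑ t ∈ U,
        if t.Prime ∧ p0 * t ∈ BR κ m then (∑ p ∈ (AP m).filter (fun p => t ∈ Tt m A p p0), 1 / (p : ℝ)) * g (p0 * t) else 0 := by
      rw [sum_congr rfl fun p hp => sum_congr rfl fun p0 hp0 => e1 p hp p0 hp0, sum_comm]
      refine sum_congr rfl fun p0 _ => ?_
      rw [sum_comm]
      refine sum_congr rfl fun t _ => ?_
      rw [← sum_filter]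
      split_ifs with hc
      · rw [sum_mul]
      · exact sum_const_zero
    rw [e4]
    have e5 : ∀ p0 ∈ AP m, ∀ t ∈ U, (if t.Prime ∧ p0 * t ∈ BR κ m then
        (∑ p ∈ (AP m).filter (fun p => t ∈ Tt m A p p0), 1 / (p : ℝ)) * g (p0 * t) else 0) ≤
        (Cp / L) * (if t.Prime ∧ p0 * t ∈ BR κ m then g (p0 * t) else 0) := by
      intro p0 hp0 t ht
      rw [hUd] at ht
      split_ifs with hc
      · have e6 := h1 m hm1 p0 t (t3b_mem_AP.mp hp0).1.one_lt.le (mem_Icc.mp ht).1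
        rw [← hLd] at e6
        exact mul_le_mul_of_nonneg_right e6 (hg0 _)
      · rw [mul_zero]
    refine (sum_le_sum fun p0 hp0 => sum_le_sum fun t ht => e5 p0 hp0 t ht).trans ?_
    have e7 : ∑ p0 ∈ AP m, ∑ t ∈ U, (Cp / L) * (if t.Prime ∧ p0 * t ∈ BR κ m then g (p0 * t) else 0) =
        (Cp / L) * ∑ y ∈ (AP m ×ˢ U).filter (fun y => y.2.Prime ∧ y.1 * y.2 ∈ BR κ m), g (y.1 * y.2) := by
      rw [sum_filter, sum_product, mul_sum]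
      exact sum_congr rfl fun p0 _ => by rw [mul_sum]
    rw [e7]
    refine mul_le_mul_of_nonneg_left ?_ (by positivity)
    have e8 := t3b_two (AP m) U (BR κ m) (fun p hp => (t3b_mem_AP.mp hp).1) g hg0
    rw [hgd] at e8 ⊢
    exact e8
  refine (mul_le_mul_of_nonneg_left hmain (by positivity)).trans (le_of_eq ?_)
  field_simp

end Pool.Agent.H78.PD
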