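import Pool.Agent.H78.PD.T3a
import Pool.Agent.H78.PD.T3b

/-!
# PD, T3: the vectors of the rough numbers are nearly constant

`A`, `c` from `pri_low`; `D = ∑_{BR} dn n/n ≤ τ wout` (`delta`); `∑_{t ∈ Tt} 1/t ≥ c/log m` (`M1/(p p0) ≥ m^(1/25)/2 ≥ m^(1/200)`).
`(c/L) ∑_{x, x0} Nrm/(p b p0 b0) ≤ ∑_{x, x0, t} Nrm/(p b p0 b0 t) ≤ 128 A ∑ (dn b + dn(p0 t) + dn(p t) + dn b0)/(p b p0 b0 t) ≤ 128 A · 4 · (C/L³) D` (`t3_tuple`, `t3_sum_b`, `t3_sum_t`, and for the last two terms the symmetry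
`x ↔ x0`: `Tt m A p p0 = Tt m A p0 p`, swap the sums).  `∑_{x0} 1/(p0 b0) ≥ ∑_{n ∈ RR} 1/n ≥ c1/L` (every `n ∈ RR` is `p b`, `(p, b) ∈ PB`: `b = n/p ≤ m^(199/400)`); so there is `x0` with
`∑_x Nrm(vv(pb) - vv(p0b0))/(p b) ≤ C' D/L`, and `∑_{n ∈ RR} (1/n) Nrm(vv n - vv n0) ≤` this sum; `n ≤ M1`.
-/

set_option autoImplicit false

namespace Pool.Agent.H78.PD

open Finset
open Pool.Agent.H34PG (lam lam_val lam_mul lam_prime)
open Pool.Agent.H11.LQ Pool.Agent.H78.PG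

private theorem T3_mem_PB {κ : ℝ} {m : ℕ} {x : ℕ × ℕ} :
    x ∈ PB κ m ↔ (x.1 ∈ AP m ∧ x.2 ∈ BR κ m) ∧ x.1 * x.2 ≤ M1 m ∧ M1 m < 16 * (x.1 * x.2) := by
  unfold PB
  rw [mem_filter, mem_product]

private theorem T3_dn_nonneg (m : ℕ) [NeZero m] (η : ℤ) (U : Finset (DirichletCharacter ℂ m))
    (n : ℕ) : 0 ≤ dn m η U n := by
  unfold dn
  positivity

private theorem T3_Nrm_nonneg (m : ℕ) [NeZero m] (η : ℤ) (U : Finset (DirichletCharacter ℂ m))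
    (d : DirichletCharacter ℂ m → ℂ) : 0 ≤ Nrm m η U d := by
  unfold Nrm
  exact sum_nonneg fun χ _ => mul_nonneg (ww_nonneg m η χ) (by positivity)

private theorem T3_Tt_symm (m : ℕ) (A : ℝ) (p q : ℕ) : Tt m A p q = Tt m A q p := by
  unfold Tt
  rw [mul_comm (p : ℝ) (q : ℝ)]

private theorem T3_AP {m p : ℕ} (hp : p ∈ AP m) :
    p.Prime ∧ ¬ p ∣ m ∧ (m : ℝ) ^ (1 / 200 : ℝ) < (p : ℝ) ∧ (p : ℝ) ≤ (m : ℝ) ^ (23 / 100 : ℝ) := by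
  unfold AP at hp
  rwa [mem_PI (by positivity)] at hp

private theorem T3_M1_ge (m : ℕ) (hm : 1 ≤ m) : (m : ℝ) ^ (201 / 400 : ℝ) / 2 ≤ (M1 m : ℝ) := by
  have hm' : (1 : ℝ) ≤ m := by exact_mod_cast hm
  have h1 : (1 : ℝ) ≤ (m : ℝ) ^ (201 / 400 : ℝ) := Real.one_le_rpow hm' (by norm_num)
  unfold M1
  have h2 : (m : ℝ) ^ (201 / 400 : ℝ) < (⌊(m : ℝ) ^ (201 / 400 : ℝ)⌋₊ : ℝ) + 1 :=
    Nat.lt_floor_add_one _
  have h3 : 1 ≤ ⌊(m : ℝ) ^ (201 / 400 : ℝ)⌋₊ := by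
    rw [Nat.le_floor_iff (by positivity)]
    exact_mod_cast h1
  have h4 : (1 : ℝ) ≤ (⌊(m : ℝ) ^ (201 / 400 : ℝ)⌋₊ : ℝ) := by exact_mod_cast h3
  linarith

private theorem T3_M1_le (m : ℕ) : (M1 m : ℝ) ≤ (m : ℝ) ^ (201 / 400 : ℝ) := by
  unfold M1
  exact Nat.floor_le (by positivity)

/-- the range of the auxiliary primes -/
private theorem T3_X (m : ℕ) (hm : 2 ^ 27 ≤ m) {p q : ℕ} (hp : p ∈ AP m) (hq : q ∈ AP m) :
    (m : ℝ) ^ (1 / 200 : ℝ) ≤ (M1 m : ℝ) / (p * q) ∧ (M1 m : ℝ) / (p * q) ≤ m := by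
  have hm1 : 1 ≤ m := le_trans (by norm_num) hm
  have hm' : (1 : ℝ) ≤ m := by exact_mod_cast hm1
  have hm0 : (0 : ℝ) < m := by linarith
  obtain ⟨p1, p2, p3, p4⟩ := T3_AP hp
  obtain ⟨q1, q2, q3, q4⟩ := T3_AP hq
  have hp0 : (1 : ℝ) ≤ (p : ℝ) := by exact_mod_cast p1.one_lt.le
  have hq0 : (1 : ℝ) ≤ (q : ℝ) := by exact_mod_cast q1.one_lt.le
  have hpq : (0 : ℝ) < (p : ℝ) * q := by positivity
  have hM := T3_M1_ge m hm1
  have hM2 := T3_M1_le m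
  constructor
  · rw [le_div_iff₀ hpq]
    have h1 : (p : ℝ) * q ≤ (m : ℝ) ^ (46 / 100 : ℝ) := by
      calc (p : ℝ) * q ≤ (m : ℝ) ^ (23 / 100 : ℝ) * (m : ℝ) ^ (23 / 100 : ℝ) :=
            mul_le_mul p4 q4 (by positivity) (by positivity)
        _ = (m : ℝ) ^ (46 / 100 : ℝ) := by rw [← Real.rpow_add hm0]; norm_num
    have h2 : (2 : ℝ) ≤ (m : ℝ) ^ (15 / 400 : ℝ) := by
      have h3 : ((2 : ℝ) ^ (27 : ℕ)) ≤ (m : ℝ) := by exact_mod_cast hm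
      have h4 : ((2 : ℝ) ^ (27 : ℕ)) ^ (15 / 400 : ℝ) ≤ (m : ℝ) ^ (15 / 400 : ℝ) :=
        Real.rpow_le_rpow (by positivity) h3 (by norm_num)
      refine le_trans ?_ h4
      rw [← Real.rpow_natCast (2 : ℝ) 27, ← Real.rpow_mul (by norm_num)]
      calc (2 : ℝ) = (2 : ℝ) ^ (1 : ℝ) := (Real.rpow_one 2).symm
        _ ≤ (2 : ℝ) ^ (((27 : ℕ) : ℝ) * (15 / 400)) :=
            Real.rpow_le_rpow_of_exponent_le (by norm_num) (by norm_num)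
    calc (m : ℝ) ^ (1 / 200 : ℝ) * ((p : ℝ) * q)
        ≤ (m : ℝ) ^ (1 / 200 : ℝ) * (m : ℝ) ^ (46 / 100 : ℝ) :=
          mul_le_mul_of_nonneg_left h1 (by positivity)
      _ = (m : ℝ) ^ (1 / 200 : ℝ) * (m : ℝ) ^ (46 / 100 : ℝ) * 2 / 2 := by ring
      _ ≤ (m : ℝ) ^ (1 / 200 : ℝ) * (m : ℝ) ^ (46 / 100 : ℝ) * (m : ℝ) ^ (15 / 400 : ℝ) / 2 := by
          gcongr
      _ = (m : ℝ) ^ (201 / 400 : ℝ) / 2 := by
          rw [← Real.rpow_add hm0, ← Real.rpow_add hm0]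
          norm_num
      _ ≤ (M1 m : ℝ) := hM
  · rw [div_le_iff₀ hpq]
    calc (M1 m : ℝ) ≤ (m : ℝ) ^ (201 / 400 : ℝ) := hM2
      _ ≤ (m : ℝ) ^ (1 : ℝ) := Real.rpow_le_rpow_of_exponent_le hm' (by norm_num)
      _ = (m : ℝ) * 1 := by rw [Real.rpow_one, mul_one]
      _ ≤ (m : ℝ) * ((p : ℝ) * q) := by
          apply mul_le_mul_of_nonneg_left _ hm0.le
          nlinarith

/-- the factorisation of the elements of `RR` -/
private theorem T3_RR (κ : ℝ) (m : ℕ) (hm : 1 ≤ m) {n : ℕ} (hn : n ∈ RR κ m) :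
    ∃ x ∈ PB κ m, x.1 * x.2 = n := by
  rw [mem_RR] at hn
  obtain ⟨h1, h2, h3, h4, h5, p, hp, hpn⟩ := hn
  have hm' : (1 : ℝ) ≤ m := by exact_mod_cast hm
  have hm0 : (0 : ℝ) < m := by linarith
  obtain ⟨p1, p2, p3, p4⟩ := T3_AP hp
  obtain ⟨b, rfl⟩ := hpn
  have hb1 : 1 ≤ b := by
    rcases Nat.eq_zero_or_pos b with h | h
    · subst h
      simp at h1
    · exact h
  refine ⟨(p, b), ?_, rfl⟩
  rw [T3_mem_PB]
  refine ⟨⟨hp, ?_⟩, h2, h3⟩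
  rw [mem_BR]
  refine ⟨hb1, ?_, Nat.Coprime.coprime_mul_left h4, fun q hq hqb => h5 q hq (hqb.mul_left p)⟩
  have h6 : ((p : ℝ) * b) ≤ (m : ℝ) ^ (201 / 400 : ℝ) := by
    refine le_trans ?_ (T3_M1_le m)
    exact_mod_cast h2
  have h7 : (m : ℝ) ^ (1 / 200 : ℝ) * b ≤ (m : ℝ) ^ (1 / 200 : ℝ) * (m : ℝ) ^ (399 / 800 : ℝ) := by
    calc (m : ℝ) ^ (1 / 200 : ℝ) * b ≤ (p : ℝ) * b :=
          mul_le_mul_of_nonneg_right p3.le (by positivity)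
      _ ≤ (m : ℝ) ^ (201 / 400 : ℝ) := h6
      _ ≤ (m : ℝ) ^ (1 / 200 + 399 / 800 : ℝ) :=
          Real.rpow_le_rpow_of_exponent_le hm' (by norm_num)
      _ = (m : ℝ) ^ (1 / 200 : ℝ) * (m : ℝ) ^ (399 / 800 : ℝ) := Real.rpow_add hm0 _ _
  exact le_of_mul_le_mul_left h7 (by positivity)

/-- sums over `RR` are at most sums over `PB` -/
private theorem T3_sum_le (κ : ℝ) (m : ℕ) (hm : 1 ≤ m) (f : ℕ → ℝ) (hf : ∀ n, 0 ≤ f n) :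
    ∑ n ∈ RR κ m, f n ≤ ∑ x ∈ PB κ m, f (x.1 * x.2) := by
  classical
  choose! g hg hg2 using fun (n : ℕ) (hn : n ∈ RR κ m) => T3_RR κ m hm hn
  have h1 : ∑ n ∈ RR κ m, f n = ∑ x ∈ (RR κ m).image g, f (x.1 * x.2) := by
    rw [sum_image]
    · exact sum_congr rfl fun n hn => by rw [hg2 n hn]
    · intro a ha b hb hab
      rw [← hg2 a ha, ← hg2 b hb, hab]
  rw [h1]
  refine sum_le_sum_of_subset_of_nonneg ?_ fun x _ _ => hf _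
  intro x hx
  rw [mem_image] at hx
  obtain ⟨n, hn, rfl⟩ := hx
  exact hg n hn

/-- weighted pigeonhole -/
private theorem T3_pigeon {ι : Type*} (s : Finset ι) (w S : ι → ℝ) (hw : ∀ i ∈ s, 0 < w i)
    {a B : ℝ} (ha : 0 < a) (hwa : a ≤ ∑ i ∈ s, w i) (hB : 0 ≤ B)
    (h : ∑ i ∈ s, w i * S i ≤ B) : ∃ i ∈ s, S i ≤ B / a := by
  by_contra hcon
  push Not at hcon
  have hne : s.Nonempty := by
    rw [nonempty_iff_ne_empty]
    rintro rfl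
    rw [sum_empty] at hwa
    linarith
  have h1 : ∑ i ∈ s, w i * (B / a) < ∑ i ∈ s, w i * S i :=
    sum_lt_sum_of_nonempty hne fun i hi => mul_lt_mul_of_pos_left (hcon i hi) (hw i hi)
  rw [← sum_mul] at h1
  have h2 : a * (B / a) ≤ (∑ i ∈ s, w i) * (B / a) :=
    mul_le_mul_of_nonneg_right hwa (by positivity)
  rw [mul_div_cancel₀ _ ha.ne'] at h2
  linarith

theorem t3 (κ c1 C1 : ℝ) (hκ : 0 < κ) (hκ1 : κ ≤ 1 / 1000) (hc1 : 0 < c1) (hC1 : 0 < C1) :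
    ∃ C : ℝ, 0 < C ∧ ∃ m0 : ℕ, ∀ (m : ℕ) [NeZero m], m0 ≤ m → RC κ C1 m →
    c1 * M1 m / Real.log m ≤ ((RR κ m).card : ℝ) → ∀ η : ℤ, (η = 1 ∨ η = -1) →
    ∀ U : Finset (DirichletCharacter ℂ m), (U.card : ℝ) ≤ (m : ℝ) ^ (1 / 2000 : ℝ) →
    ∃ n0 : ℕ, 1 ≤ n0 ∧ n0.Coprime m ∧
      ∑ n ∈ RR κ m, Nrm m η U (fun χ => vv m χ n - vv m χ n0)
        ≤ C * wout m η U * M1 m / Real.log m := by
  obtain ⟨A, c, hA, hc, hlow⟩ := pri_low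
  obtain ⟨mA, hlow⟩ := hlow (1 / 200) (by norm_num)
  obtain ⟨τ, hτ, hdel⟩ := delta κ hκ
  obtain ⟨Cb, hCb, mb, hb⟩ := t3_sum_b κ A C1 hκ hκ1 hA hC1
  obtain ⟨Ct, hCt, mt, ht⟩ := t3_sum_t κ A C1 hκ hκ1 hA hC1
  obtain ⟨mu, htup⟩ := t3_tuple κ A hκ hκ1 hA
  have hA0 : 0 < A := by linarith
  refine ⟨128 * A * (2 * Cb + 2 * Ct) * τ / c / c1, by positivity,
    mA + mb + mt + mu + 2 ^ 27, ?_⟩
  intro m _ hm hRC hcard η hη U hU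
  have hm27 : 2 ^ 27 ≤ m := by omega
  have hm1 : 1 ≤ m := le_trans (by norm_num) hm27
  have hm3 : 3 ≤ m := le_trans (by norm_num) hm27
  have hmr : (3 : ℝ) ≤ m := by exact_mod_cast hm3
  have hL : 0 < Real.log m := Real.log_pos (by linarith)
  obtain ⟨L, hLdef⟩ : ∃ L : ℝ, L = Real.log m := ⟨_, rfl⟩
  rw [← hLdef] at hL hcard ⊢
  obtain ⟨W, hW⟩ : ∃ W : ℝ, W = wout m η U := ⟨_, rfl⟩
  have hW0 : 0 ≤ W := hW ▸ wout_nonneg m η U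
  obtain ⟨N, hN⟩ : ∃ N : ℕ × ℕ → ℕ × ℕ → ℝ, N = fun x x0 =>
    Nrm m η U (fun χ => vv m χ (x.1 * x.2) - vv m χ (x0.1 * x0.2)) := ⟨_, rfl⟩
  obtain ⟨d, hd⟩ : ∃ d : ℕ → ℝ, d = fun n => dn m η U n := ⟨_, rfl⟩
  have hd0 : ∀ n, 0 ≤ d n := fun n => by rw [hd]; exact T3_dn_nonneg m η U n
  have hN0 : ∀ x x0, 0 ≤ N x x0 := fun x x0 => by rw [hN]; exact T3_Nrm_nonneg m η U _
  have hD : ∑ n ∈ BR κ m, d n / n ≤ τ * W := by
    rw [hd, hW]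
    exact hdel m hm3 η hη U
  have hD0 : 0 ≤ ∑ n ∈ BR κ m, d n / n := sum_nonneg fun n _ => div_nonneg (hd0 n) (by positivity)
  have hM10 : 0 < (M1 m : ℝ) := by
    have := T3_M1_ge m hm1
    have h2 : 0 < (m : ℝ) ^ (201 / 400 : ℝ) := Real.rpow_pos_of_pos (by linarith) _
    linarith
  -- positivity of the elements of `PB`
  have hpos : ∀ x ∈ PB κ m, (0 : ℝ) < x.1 ∧ (0 : ℝ) < x.2 := by
    intro x hx
    rw [T3_mem_PB] at hx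
    refine ⟨?_, ?_⟩
    · exact_mod_cast (T3_AP hx.1.1).1.pos
    · have := (mem_BR.mp hx.1.2).1
      exact_mod_cast this
  -- the sum over all tuples
  have key : ∑ x ∈ PB κ m, ∑ x0 ∈ PB κ m, ∑ t ∈ Tt m A x.1 x0.1,
      N x x0 / ((x.1 : ℝ) * x.2 * (x0.1 * x0.2) * t)
      ≤ 128 * A * ((2 * Cb + 2 * Ct) / L ^ 3 * (τ * W)) := by
    have e1 := hb m (by omega) hRC d hd0
    have e2 := ht m (by omega) hRC d hd0
    rw [← hLdef] at e1 e2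
    have e3 : ∑ x ∈ PB κ m, ∑ x0 ∈ PB κ m, ∑ t ∈ Tt m A x.1 x0.1,
        d x0.2 / ((x.1 : ℝ) * x.2 * (x0.1 * x0.2) * t)
        ≤ Cb / L ^ 3 * ∑ n ∈ BR κ m, d n / n := by
      refine le_trans (le_of_eq ?_) e1
      rw [sum_comm]
      refine sum_congr rfl fun x _ => sum_congr rfl fun x0 _ => ?_
      rw [T3_Tt_symm]
      refine sum_congr rfl fun t _ => ?_
      congr 1
      ring
    have e4 : ∑ x ∈ PB κ m, ∑ x0 ∈ PB κ m, ∑ t ∈ Tt m A x.1 x0.1,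
        d (x.1 * t) / ((x.1 : ℝ) * x.2 * (x0.1 * x0.2) * t)
        ≤ Ct / L ^ 3 * ∑ n ∈ BR κ m, d n / n := by
      refine le_trans (le_of_eq ?_) e2
      rw [sum_comm]
      refine sum_congr rfl fun x _ => sum_congr rfl fun x0 _ => ?_
      rw [T3_Tt_symm]
      refine sum_congr rfl fun t _ => ?_
      congr 1
      ring
    have e5 : ∑ x ∈ PB κ m, ∑ x0 ∈ PB κ m, ∑ t ∈ Tt m A x.1 x0.1,
        N x x0 / ((x.1 : ℝ) * x.2 * (x0.1 * x0.2) * t)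
        ≤ ∑ x ∈ PB κ m, ∑ x0 ∈ PB κ m, ∑ t ∈ Tt m A x.1 x0.1,
          128 * A * (d x.2 / ((x.1 : ℝ) * x.2 * (x0.1 * x0.2) * t)
            + d (x0.1 * t) / ((x.1 : ℝ) * x.2 * (x0.1 * x0.2) * t)
            + d (x.1 * t) / ((x.1 : ℝ) * x.2 * (x0.1 * x0.2) * t)
            + d x0.2 / ((x.1 : ℝ) * x.2 * (x0.1 * x0.2) * t)) := by
      refine sum_le_sum fun x hx => sum_le_sum fun x0 hx0 => sum_le_sum fun t htt => ?_
      have h1 := htup m (by omega) η hη U hU x hx x0 hx0 t htt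
      rw [← add_div, ← add_div, ← add_div, ← mul_div_assoc]
      refine div_le_div_of_nonneg_right ?_ (by positivity)
      rw [hN, hd]
      exact h1
    refine le_trans e5 ?_
    have e6 : ∑ x ∈ PB κ m, ∑ x0 ∈ PB κ m, ∑ t ∈ Tt m A x.1 x0.1,
          128 * A * (d x.2 / ((x.1 : ℝ) * x.2 * (x0.1 * x0.2) * t)
            + d (x0.1 * t) / ((x.1 : ℝ) * x.2 * (x0.1 * x0.2) * t)
            + d (x.1 * t) / ((x.1 : ℝ) * x.2 * (x0.1 * x0.2) * t)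
            + d x0.2 / ((x.1 : ℝ) * x.2 * (x0.1 * x0.2) * t))
        = 128 * A * (∑ x ∈ PB κ m, ∑ x0 ∈ PB κ m, ∑ t ∈ Tt m A x.1 x0.1,
            d x.2 / ((x.1 : ℝ) * x.2 * (x0.1 * x0.2) * t)
          + ∑ x ∈ PB κ m, ∑ x0 ∈ PB κ m, ∑ t ∈ Tt m A x.1 x0.1,
            d (x0.1 * t) / ((x.1 : ℝ) * x.2 * (x0.1 * x0.2) * t)
          + ∑ x ∈ PB κ m, ∑ x0 ∈ PB κ m, ∑ t ∈ Tt m A x.1 x0.1,
            d (x.1 * t) / ((x.1 : ℝ) * x.2 * (x0.1 * x0.2) * t)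
          + ∑ x ∈ PB κ m, ∑ x0 ∈ PB κ m, ∑ t ∈ Tt m A x.1 x0.1,
            d x0.2 / ((x.1 : ℝ) * x.2 * (x0.1 * x0.2) * t)) := by
      simp only [← sum_add_distrib, mul_sum]
    rw [e6]
    refine mul_le_mul_of_nonneg_left ?_ (by positivity)
    have hcb : 0 ≤ Cb / L ^ 3 := by positivity
    have hct : 0 ≤ Ct / L ^ 3 := by positivity
    have f1 := mul_le_mul_of_nonneg_left hD hcb
    have f2 := mul_le_mul_of_nonneg_left hD hct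
    have f3 : (2 * Cb + 2 * Ct) / L ^ 3 * (τ * W)
        = 2 * (Cb / L ^ 3 * (τ * W)) + 2 * (Ct / L ^ 3 * (τ * W)) := by ring
    rw [f3]
    linarith
  -- the sum over the pairs
  have key2 : c / L * ∑ x ∈ PB κ m, ∑ x0 ∈ PB κ m, N x x0 / ((x.1 : ℝ) * x.2 * (x0.1 * x0.2))
      ≤ 128 * A * ((2 * Cb + 2 * Ct) / L ^ 3 * (τ * W)) := by
    refine le_trans ?_ key
    rw [mul_sum]
    refine sum_le_sum fun x hx => ?_
    rw [mul_sum]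
    refine sum_le_sum fun x0 hx0 => ?_
    have hx' := (T3_mem_PB.mp hx).1.1
    have hx0' := (T3_mem_PB.mp hx0).1.1
    obtain ⟨g1, g2⟩ := T3_X m hm27 hx' hx0'
    have g3 := hlow m (by omega) _ g1 g2
    rw [← hLdef] at g3
    have g4 : c / L ≤ ∑ t ∈ Tt m A x.1 x0.1, 1 / (t : ℝ) := g3
    have g5 : ∑ t ∈ Tt m A x.1 x0.1, N x x0 / ((x.1 : ℝ) * x.2 * (x0.1 * x0.2) * t)
        = (∑ t ∈ Tt m A x.1 x0.1, 1 / (t : ℝ)) * (N x x0 / ((x.1 : ℝ) * x.2 * (x0.1 * x0.2))) := by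
      rw [sum_mul]
      refine sum_congr rfl fun t _ => ?_
      rw [div_mul_div_comm, one_mul, mul_comm (t : ℝ)]
    rw [g5]
    exact mul_le_mul_of_nonneg_right g4 (div_nonneg (hN0 _ _) (by positivity))
  have key3 : ∑ x ∈ PB κ m, ∑ x0 ∈ PB κ m, N x x0 / ((x.1 : ℝ) * x.2 * (x0.1 * x0.2))
      ≤ 128 * A * (2 * Cb + 2 * Ct) * τ / c * W / L ^ 2 := by
    have hcL : 0 < c / L := by positivity
    refine le_of_mul_le_mul_left (le_trans key2 (le_of_eq ?_)) hcL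
    field_simp
  -- the weights
  have hwt : c1 / L ≤ ∑ x0 ∈ PB κ m, 1 / ((x0.1 : ℝ) * x0.2) := by
    have h1 : ∑ n ∈ RR κ m, 1 / (n : ℝ) ≤ ∑ x ∈ PB κ m, 1 / (((x.1 * x.2 : ℕ)) : ℝ) :=
      T3_sum_le κ m hm1 (fun n => 1 / (n : ℝ)) fun n => by positivity
    have h2 : ∑ n ∈ RR κ m, 1 / (M1 m : ℝ) ≤ ∑ n ∈ RR κ m, 1 / (n : ℝ) := by
      refine sum_le_sum fun n hn => ?_
      rw [mem_RR] at hn
      have h3 : (1 : ℝ) ≤ n := by exact_mod_cast hn.1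
      have h4 : (n : ℝ) ≤ M1 m := by exact_mod_cast hn.2.1
      exact one_div_le_one_div_of_le (by linarith) h4
    rw [sum_const, nsmul_eq_mul] at h2
    have h5 : c1 / L ≤ ((RR κ m).card : ℝ) * (1 / (M1 m : ℝ)) := by
      rw [mul_one_div, le_div_iff₀ hM10]
      refine le_trans (le_of_eq ?_) hcard
      ring
    push_cast at h1
    linarith
  -- the choice of `x0`
  obtain ⟨S, hS⟩ : ∃ S : ℕ × ℕ → ℝ, S = fun x0 => ∑ x ∈ PB κ m, N x x0 / ((x.1 : ℝ) * x.2) :=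
    ⟨_, rfl⟩
  have hsum : ∑ x0 ∈ PB κ m, 1 / ((x0.1 : ℝ) * x0.2) * S x0
      ≤ 128 * A * (2 * Cb + 2 * Ct) * τ / c * W / L ^ 2 := by
    refine le_trans (le_of_eq ?_) key3
    rw [sum_comm]
    refine sum_congr rfl fun x0 _ => ?_
    rw [hS, mul_sum]
    refine sum_congr rfl fun x _ => ?_
    rw [div_mul_div_comm, one_mul, mul_comm ((x0.1 : ℝ) * x0.2)]
  obtain ⟨x0, hx0, hx0S⟩ := T3_pigeon (PB κ m) (fun x0 => 1 / ((x0.1 : ℝ) * x0.2)) S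
    (fun x hx => by
      obtain ⟨h1, h2⟩ := hpos x hx
      positivity) (a := c1 / L) (by positivity) hwt (by positivity) hsum
  have hx0' := T3_mem_PB.mp hx0
  have hp0 := T3_AP hx0'.1.1
  have hb0 := mem_BR.mp hx0'.1.2
  refine ⟨x0.1 * x0.2, Nat.mul_pos hp0.1.pos hb0.1, ?_, ?_⟩
  · exact Nat.Coprime.mul_left ((Nat.Prime.coprime_iff_not_dvd hp0.1).mpr hp0.2.1) hb0.2.2.1
  · have h1 : ∑ n ∈ RR κ m, Nrm m η U (fun χ => vv m χ n - vv m χ (x0.1 * x0.2)) / n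
        ≤ S x0 := by
      refine le_trans (T3_sum_le κ m hm1
        (fun n => Nrm m η U (fun χ => vv m χ n - vv m χ (x0.1 * x0.2)) / n)
        fun n => div_nonneg (T3_Nrm_nonneg m η U _) (by positivity)) (le_of_eq ?_)
      rw [hS, hN]
      refine sum_congr rfl fun x _ => ?_
      push_cast
      rfl
    have h2 : ∑ n ∈ RR κ m, Nrm m η U (fun χ => vv m χ n - vv m χ (x0.1 * x0.2))
        ≤ (M1 m : ℝ) * ∑ n ∈ RR κ m,
          Nrm m η U (fun χ => vv m χ n - vv m χ (x0.1 * x0.2)) / n := by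
      rw [mul_sum]
      refine sum_le_sum fun n hn => ?_
      rw [mem_RR] at hn
      have h3 : (1 : ℝ) ≤ n := by exact_mod_cast hn.1
      have h4 : (n : ℝ) ≤ M1 m := by exact_mod_cast hn.2.1
      have h5 := T3_Nrm_nonneg m η U (fun χ => vv m χ n - vv m χ (x0.1 * x0.2))
      rw [mul_div_assoc', le_div_iff₀ (by linarith), mul_comm]
      exact mul_le_mul_of_nonneg_right h4 h5
    refine le_trans h2 ?_
    refine le_trans (mul_le_mul_of_nonneg_left (le_trans h1 hx0S) hM10.le) (le_of_eq ?_)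
    rw [← hW]
    field_simp

end Pool.Agent.H78.PD
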