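import Pool.Agent.H78.PD.T3
import Pool.Agent.H78.PD.Rgh
import Pool.Agent.H78.PD.Par2

/-!
# PD, T4: one character

`rgh`, `t3` (`c1 = 11 c/20`).  `v χ = ∑_{n ∈ RR} |vv n χ - vv n0 χ|²`; `∑_U ww χ v χ ≤ C wout M1/L ≤ C' wout S1`.  `e = (C' wout)^(1/2)`; `{χ ∈ U : v χ > e S1}` has weight `≤ e`.
Two different `χ1, χ2` with `v ≤ e S1`: `ψ = χ1 χ2⁻¹ ≠ 1`, `ψ(n) = vv n χ1 conj(vv n χ2)` for `n` prime to `m`, `∑_{RR} |vv n χi - vv n0 χi| ≤ (#RR e S1)^(1/2) ≤ √e S1` (`#RR ≤ S1` as `S ≥ 1`), so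
`|∑_{RR} ψ(n) - #RR vv n0 χ1 conj(vv n0 χ2)| ≤ 2√e S1`, `|∑_{n ≤ M1} S(n) ψ(n)| ≥ |∑_{RR} ψ| - (S1 - #RR) ≥ 2 #RR - S1 - 2√e S1 ≥ (1/10 - 2√e) S1 > 0`, and
`∑_{n ≤ M1} S ψ = ∑_{d ≤ Q} g(d) ψ(d) ∑_{n ≤ M1/d} ψ(n)`, so `|..| ≤ m^(1/500) KK m` (`pv`, `PG/TPV.lean`) `≤ m^(1/500 + 1/2 + 1/10000) < c M1/(40 L)`: contradiction.
So at most one such `χ`; the rest has weight `≤ wout + e < 1/2`, so there is exactly one, `χ`, `ww χ > 1/2`; `ww χ⁻¹ = ww χ` (`ww_inv`), so `χ⁻¹ = χ` (else total weight `> 1`), `χ² = 1`; `ww_par`.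
-/

set_option autoImplicit false

namespace Pool.Agent.H78.PD

open Finset
open Pool.Agent.H34PG (lam lam_val lam_mul lam_prime)
open Pool.Agent.H11.LQ Pool.Agent.H78.PG

private theorem t4_lam_sq (n : ℕ) : ((lam n : ℤ) : ℂ) * ((lam n : ℤ) : ℂ) = 1 := by
  unfold lam
  push_cast
  rw [← mul_pow]
  norm_num

private theorem t4_unit (m : ℕ) [NeZero m] (χ : DirichletCharacter ℂ m) (n : ℕ)
    (hn : n.Coprime m) : ‖χ (n : ZMod m)‖ = 1 := by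
  have h1 : ((ZMod.unitOfCoprime n hn : (ZMod m)ˣ) : ZMod m) = (n : ZMod m) :=
    ZMod.coe_unitOfCoprime n hn
  rw [← h1]
  exact DirichletCharacter.unit_norm_eq_one χ _

private theorem t4_vvn (m : ℕ) [NeZero m] (χ : DirichletCharacter ℂ m) (n : ℕ)
    (hn : n.Coprime m) : ‖vv m χ n‖ = 1 := by
  unfold vv
  rw [norm_mul, t4_unit m χ n hn, mul_one]
  have h := congrArg norm (t4_lam_sq n)
  rw [norm_mul, norm_one] at h
  have h0 := norm_nonneg ((lam n : ℤ) : ℂ)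
  nlinarith

private theorem t4_psi (m : ℕ) [NeZero m] (χ1 χ2 : DirichletCharacter ℂ m) (n : ℕ) :
    (χ1 * χ2⁻¹) (n : ZMod m) = vv m χ1 n * (starRingEnd ℂ) (vv m χ2 n) := by
  have h : (starRingEnd ℂ) (χ2 (n : ZMod m)) = χ2⁻¹ (n : ZMod m) := MulChar.star_apply' χ2 _
  have h0 : (starRingEnd ℂ) ((lam n : ℤ) : ℂ) = ((lam n : ℤ) : ℂ) := map_intCast (starRingEnd ℂ) _
  unfold vv
  rw [MulChar.mul_apply, map_mul, h0, h]
  have h2 := t4_lam_sq n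
  calc χ1 (n : ZMod m) * χ2⁻¹ (n : ZMod m)
      = (((lam n : ℤ) : ℂ) * ((lam n : ℤ) : ℂ)) * (χ1 (n : ZMod m) * χ2⁻¹ (n : ZMod m)) := by
        rw [h2, one_mul]
    _ = _ := by ring

private theorem t4_two (a b u w : ℂ) (hb : ‖b‖ = 1) (hu : ‖u‖ = 1) :
    ‖a * (starRingEnd ℂ) b - u * (starRingEnd ℂ) w‖ ≤ ‖a - u‖ + ‖b - w‖ := by
  have h : a * (starRingEnd ℂ) b - u * (starRingEnd ℂ) w
      = (a - u) * (starRingEnd ℂ) b + u * (starRingEnd ℂ) (b - w) := by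
    rw [map_sub]
    ring
  rw [h]
  refine (norm_add_le _ _).trans ?_
  rw [norm_mul, norm_mul, RCLike.norm_conj, RCLike.norm_conj, hb, hu, mul_one, one_mul]

/-- the sum of the distances -/
private theorem t4_cs (R : Finset ℕ) (f : ℕ → ℝ) (e S1 : ℝ) (he : 0 ≤ e) (hS : 0 ≤ S1)
    (hc : (R.card : ℝ) ≤ S1) (h : ∑ n ∈ R, f n ^ 2 ≤ e * S1) :
    ∑ n ∈ R, f n ≤ Real.sqrt e * S1 := by
  have h1 : (∑ n ∈ R, f n) ^ 2 ≤ (R.card : ℝ) * ∑ n ∈ R, f n ^ 2 := sq_sum_le_card_mul_sum_sq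
  have h2 : (R.card : ℝ) * ∑ n ∈ R, f n ^ 2 ≤ S1 * (e * S1) :=
    mul_le_mul hc h (sum_nonneg fun _ _ => sq_nonneg _) hS
  have h3 : S1 * (e * S1) = (Real.sqrt e * S1) ^ 2 := by
    rw [mul_pow, Real.sq_sqrt he]
    ring
  exact (abs_le_of_sq_le_sq' ((h1.trans h2).trans (le_of_eq h3)) (by positivity)).2

/-- the lower bound of the weighted character sum -/
private theorem t4_low (m : ℕ) [NeZero m] (χ1 χ2 : DirichletCharacter ℂ m) (R I : Finset ℕ)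
    (hRI : R ⊆ I) (hR : ∀ n ∈ R, n.Coprime m) (S : ℕ → ℝ) (S1 e : ℝ) (he : 0 ≤ e)
    (hS0 : ∀ n ∈ I, 0 ≤ S n) (hS : ∀ n ∈ R, 1 ≤ S n) (hS1 : S1 = ∑ n ∈ I, S n) (n0 : ℕ)
    (hn0 : n0.Coprime m) (h1 : ∑ n ∈ R, ‖vv m χ1 n - vv m χ1 n0‖ ^ 2 ≤ e * S1)
    (h2 : ∑ n ∈ R, ‖vv m χ2 n - vv m χ2 n0‖ ^ 2 ≤ e * S1) :
    2 * (R.card : ℝ) - S1 - 2 * (Real.sqrt e * S1)
      ≤ ‖∑ n ∈ I, ((S n : ℝ) : ℂ) * (χ1 * χ2⁻¹) (n : ZMod m)‖ := by
  set ψ := χ1 * χ2⁻¹ with hψ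
  have hψ1 : ∀ x : ZMod m, ‖ψ x‖ ≤ 1 := fun x => DirichletCharacter.norm_le_one ψ x
  have hsub : ∑ n ∈ R, S n + ∑ n ∈ I \ R, S n = S1 := by
    rw [hS1, add_comm]
    exact sum_sdiff hRI
  have hsd : 0 ≤ ∑ n ∈ I \ R, S n := sum_nonneg fun n hn => hS0 n (mem_sdiff.mp hn).1
  have hcR : (R.card : ℝ) ≤ ∑ n ∈ R, S n := by
    calc (R.card : ℝ) = ∑ n ∈ R, (1 : ℝ) := by simp
      _ ≤ _ := sum_le_sum hS
  have hc : (R.card : ℝ) ≤ S1 := by linarith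
  have hS10 : 0 ≤ S1 := (Nat.cast_nonneg _).trans hc
  have a1 := t4_cs R (fun n => ‖vv m χ1 n - vv m χ1 n0‖) e S1 he hS10 hc h1
  have a2 := t4_cs R (fun n => ‖vv m χ2 n - vv m χ2 n0‖) e S1 he hS10 hc h2
  -- the sum over `R`
  have b1 : ‖(∑ n ∈ R, ψ (n : ZMod m)) - (R.card : ℂ) * (vv m χ1 n0 * (starRingEnd ℂ) (vv m χ2 n0))‖
      ≤ 2 * (Real.sqrt e * S1) := by
    have : (∑ n ∈ R, ψ (n : ZMod m)) - (R.card : ℂ) * (vv m χ1 n0 * (starRingEnd ℂ) (vv m χ2 n0))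
        = ∑ n ∈ R, (vv m χ1 n * (starRingEnd ℂ) (vv m χ2 n)
            - vv m χ1 n0 * (starRingEnd ℂ) (vv m χ2 n0)) := by
      rw [sum_sub_distrib, sum_const, nsmul_eq_mul]
      congr 1
      exact sum_congr rfl fun n _ => t4_psi m χ1 χ2 n
    rw [this]
    calc _ ≤ ∑ n ∈ R, ‖vv m χ1 n * (starRingEnd ℂ) (vv m χ2 n)
            - vv m χ1 n0 * (starRingEnd ℂ) (vv m χ2 n0)‖ := norm_sum_le _ _
      _ ≤ ∑ n ∈ R, (‖vv m χ1 n - vv m χ1 n0‖ + ‖vv m χ2 n - vv m χ2 n0‖) :=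
          sum_le_sum fun n hn => t4_two _ _ _ _ (t4_vvn m χ2 n (hR n hn)) (t4_vvn m χ1 n0 hn0)
      _ ≤ _ := by
          rw [sum_add_distrib]
          linarith
  have b2 : ‖(R.card : ℂ) * (vv m χ1 n0 * (starRingEnd ℂ) (vv m χ2 n0))‖ = (R.card : ℝ) := by
    rw [norm_mul, norm_mul, RCLike.norm_conj, t4_vvn m χ1 n0 hn0, t4_vvn m χ2 n0 hn0,
      Complex.norm_natCast]
    ring
  have b3 : (R.card : ℝ) - 2 * (Real.sqrt e * S1) ≤ ‖∑ n ∈ R, ψ (n : ZMod m)‖ := by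
    have := norm_sub_norm_le ((R.card : ℂ) * (vv m χ1 n0 * (starRingEnd ℂ) (vv m χ2 n0)))
      (∑ n ∈ R, ψ (n : ZMod m))
    rw [norm_sub_rev] at this
    linarith
  -- the rest
  have c1 : ‖(∑ n ∈ I, ((S n : ℝ) : ℂ) * ψ (n : ZMod m)) - ∑ n ∈ R, ψ (n : ZMod m)‖
      ≤ S1 - R.card := by
    have : (∑ n ∈ I, ((S n : ℝ) : ℂ) * ψ (n : ZMod m)) - ∑ n ∈ R, ψ (n : ZMod m)
        = ∑ n ∈ I \ R, ((S n : ℝ) : ℂ) * ψ (n : ZMod m)
          + ∑ n ∈ R, ((S n - 1 : ℝ) : ℂ) * ψ (n : ZMod m) := by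
      rw [← sum_sdiff hRI, add_sub_assoc, ← sum_sub_distrib]
      congr 1
      refine sum_congr rfl fun n _ => ?_
      push_cast
      ring
    rw [this]
    refine (norm_add_le _ _).trans ?_
    have d1 : ‖∑ n ∈ I \ R, ((S n : ℝ) : ℂ) * ψ (n : ZMod m)‖ ≤ ∑ n ∈ I \ R, S n := by
      refine (norm_sum_le _ _).trans (sum_le_sum fun n hn => ?_)
      have s0 := hS0 n (mem_sdiff.mp hn).1
      rw [norm_mul, Complex.norm_real, Real.norm_of_nonneg s0]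
      exact mul_le_of_le_one_right s0 (hψ1 _)
    have d2 : ‖∑ n ∈ R, ((S n - 1 : ℝ) : ℂ) * ψ (n : ZMod m)‖ ≤ ∑ n ∈ R, (S n - 1) := by
      refine (norm_sum_le _ _).trans (sum_le_sum fun n hn => ?_)
      have s0 : 0 ≤ S n - 1 := by linarith [hS n hn]
      rw [norm_mul, Complex.norm_real, Real.norm_of_nonneg s0]
      exact mul_le_of_le_one_right s0 (hψ1 _)
    have d3 : ∑ n ∈ R, (S n - 1) = ∑ n ∈ R, S n - R.card := by
      rw [sum_sub_distrib]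
      simp
    linarith
  have c2 := norm_sub_norm_le (∑ n ∈ R, ψ (n : ZMod m))
    (∑ n ∈ I, ((S n : ℝ) : ℂ) * ψ (n : ZMod m))
  rw [norm_sub_rev] at c2
  linarith

/-- the multiples of `d` in `[1, M]` -/
private theorem t4_mult (m : ℕ) [NeZero m] (ψ : DirichletCharacter ℂ m) (M d : ℕ) (hd : 1 ≤ d) :
    ∑ n ∈ (Icc 1 M).filter (fun n => d ∣ n), ψ (n : ZMod m)
      = ψ (d : ZMod m) * ∑ k ∈ Icc 1 (M / d), ψ (k : ZMod m) := by
  have h : (Icc 1 M).filter (fun n => d ∣ n) = (Icc 1 (M / d)).image (fun k => d * k) := by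
    ext n
    simp only [mem_filter, mem_Icc, mem_image]
    constructor
    · rintro ⟨⟨h1, h2⟩, k, rfl⟩
      refine ⟨k, ⟨?_, ?_⟩, rfl⟩
      · rcases Nat.eq_zero_or_pos k with h | h
        · subst h
          simp at h1
        · exact h
      · exact (Nat.le_div_iff_mul_le hd).mpr (by rw [mul_comm]; exact h2)
    · rintro ⟨k, ⟨h1, h2⟩, rfl⟩
      refine ⟨⟨Nat.mul_pos hd h1, ?_⟩, dvd_mul_right _ _⟩
      have := (Nat.le_div_iff_mul_le hd).mp h2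
      rw [mul_comm]
      exact this
  rw [h, sum_image fun a _ b _ hab => Nat.eq_of_mul_eq_mul_left hd hab, mul_sum]
  refine sum_congr rfl fun k _ => ?_
  push_cast
  rw [map_mul]

/-- the upper bound of the weighted character sum -/
private theorem t4_up (m : ℕ) [NeZero m] (ψ : DirichletCharacter ℂ m) (hψ : ψ ≠ 1) (M Q : ℕ)
    (S g : ℕ → ℝ)
    (hS : ∀ n : ℕ, 1 ≤ n → S n = ∑ d ∈ (Icc 1 Q).filter (fun d => d ∣ n), g d) :
    ‖∑ n ∈ Icc 1 M, ((S n : ℝ) : ℂ) * ψ (n : ZMod m)‖ ≤ (∑ d ∈ Icc 1 Q, |g d|) * KK m := by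
  have hm : 1 ≤ m := Nat.one_le_iff_ne_zero.mpr (NeZero.ne m)
  have e : ∑ n ∈ Icc 1 M, ((S n : ℝ) : ℂ) * ψ (n : ZMod m)
      = ∑ d ∈ Icc 1 Q, ((g d : ℝ) : ℂ) * (ψ (d : ZMod m) * ∑ k ∈ Icc 1 (M / d), ψ (k : ZMod m)) := by
    have e1 : ∑ n ∈ Icc 1 M, ((S n : ℝ) : ℂ) * ψ (n : ZMod m)
        = ∑ n ∈ Icc 1 M, ∑ d ∈ Icc 1 Q,
            if d ∣ n then ((g d : ℝ) : ℂ) * ψ (n : ZMod m) else 0 := by
      refine sum_congr rfl fun n hn => ?_
      rw [hS n (mem_Icc.mp hn).1]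
      push_cast
      rw [sum_mul, sum_filter]
    rw [e1, sum_comm]
    refine sum_congr rfl fun d hd => ?_
    rw [← t4_mult m ψ M d (mem_Icc.mp hd).1, mul_sum, sum_filter]
  rw [e, sum_mul]
  refine (norm_sum_le _ _).trans (sum_le_sum fun d _ => ?_)
  rw [norm_mul, norm_mul, Complex.norm_real, Real.norm_eq_abs]
  refine mul_le_mul_of_nonneg_left ?_ (abs_nonneg _)
  calc ‖ψ (d : ZMod m)‖ * ‖∑ k ∈ Icc 1 (M / d), ψ (k : ZMod m)‖
      ≤ 1 * KK m := mul_le_mul (DirichletCharacter.norm_le_one ψ _) (pv m ψ hψ _)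
        (norm_nonneg _) zero_le_one
    _ = KK m := one_mul _

/-- growth -/
private theorem t4_grow (c : ℝ) (hc : 0 < c) : ∃ m0 : ℕ, ∀ m : ℕ, m0 ≤ m →
    (m : ℝ) ^ (1 / 500 : ℝ) * KK m < c * M1 m / (20 * Real.log m) := by
  obtain ⟨m1, h1⟩ := KK_le (1 / 10000) (by norm_num)
  obtain ⟨m2, h2⟩ := grow (41 / c) 1 (1 / 5000) (by norm_num)
  refine ⟨max (max m1 m2) 3, fun m hm => ?_⟩
  simp only [max_le_iff] at hm
  obtain ⟨⟨hm1, hm2⟩, hm3⟩ := hm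
  have hm3R : (3 : ℝ) ≤ m := by exact_mod_cast hm3
  have hm0 : (0 : ℝ) < m := by linarith
  have hlog : 0 < Real.log m := Real.log_pos (by linarith)
  have a1 := h1 m hm1
  have a2 := h2 m hm2
  rw [pow_one] at a2
  -- `M1 ≥ m^(201/400)/2`
  have b1 : (m : ℝ) ^ (201 / 400 : ℝ) / 2 ≤ M1 m := by
    have h3 : (1 : ℝ) ≤ (m : ℝ) ^ (201 / 400 : ℝ) := Real.one_le_rpow (by linarith) (by norm_num)
    have h4 : (m : ℝ) ^ (201 / 400 : ℝ) < (M1 m : ℝ) + 1 := by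
      unfold M1
      exact Nat.lt_floor_add_one _
    have h5 : (1 : ℝ) ≤ M1 m := by
      have : 1 ≤ M1 m := by
        unfold M1
        exact Nat.le_floor (by exact_mod_cast h3)
      exact_mod_cast this
    linarith
  have b2 : (m : ℝ) ^ (1 / 500 : ℝ) * (m : ℝ) ^ (1 / 2 + 1 / 10000 : ℝ)
      = (m : ℝ) ^ (5021 / 10000 : ℝ) := by
    rw [← Real.rpow_add hm0]
    norm_num
  have b3 : (m : ℝ) ^ (5021 / 10000 : ℝ) * (m : ℝ) ^ (1 / 5000 : ℝ)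
      ≤ (m : ℝ) ^ (201 / 400 : ℝ) := by
    rw [← Real.rpow_add hm0]
    exact Real.rpow_le_rpow_of_exponent_le (by linarith) (by norm_num)
  set X := (m : ℝ) ^ (5021 / 10000 : ℝ) with hX
  have hX0 : 0 < X := Real.rpow_pos_of_pos hm0 _
  have b4 : X * (41 / c * (1 + Real.log m)) ≤ (m : ℝ) ^ (201 / 400 : ℝ) :=
    (mul_le_mul_of_nonneg_left a2 hX0.le).trans b3
  have b5 : X * (41 / c * (1 + Real.log m)) * c = 41 * X * (1 + Real.log m) := by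
    field_simp
  have b6 : 41 * X * (1 + Real.log m) ≤ (m : ℝ) ^ (201 / 400 : ℝ) * c := by
    rw [← b5]
    exact mul_le_mul_of_nonneg_right b4 hc.le
  have b7 : (m : ℝ) ^ (1 / 500 : ℝ) * KK m ≤ X := by
    rw [← b2]
    exact mul_le_mul_of_nonneg_left a1 (Real.rpow_nonneg hm0.le _)
  refine lt_of_le_of_lt b7 ?_
  rw [lt_div_iff₀ (by positivity)]
  have b8 : (m : ℝ) ^ (201 / 400 : ℝ) / 2 * c ≤ M1 m * c := mul_le_mul_of_nonneg_right b1 hc.le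
  have b9 : 0 < X * Real.log m := mul_pos hX0 hlog
  nlinarith

theorem t4 : ∃ ε0 C : ℝ, 0 < ε0 ∧ 0 < C ∧ ∃ m0 : ℕ, ∀ (m : ℕ) [NeZero m], m0 ≤ m →
    ∀ η : ℤ, (η = 1 ∨ η = -1) → ∀ U : Finset (DirichletCharacter ℂ m),
    (U.card : ℝ) ≤ (m : ℝ) ^ (1 / 2000 : ℝ) → wout m η U ≤ ε0 →
    ∃ χ ∈ U, χ ^ 2 = 1 ∧ χ (-1) = (η : ℂ) ∧ 1 / 2 ≤ ww m η χ ∧
      wout m η {χ} ≤ C * Real.sqrt (wout m η U) := by
  classical
  obtain ⟨κ, c, C, hκ, hκ1, hc, hC, mr, hr⟩ := rgh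
  obtain ⟨C3, hC3, m3, h3⟩ := t3 κ (11 / 20 * c) C hκ hκ1 (by positivity) hC
  obtain ⟨mg, hg⟩ := t4_grow c hc
  set C' : ℝ := C3 / c with hC'
  have hC'0 : 0 < C' := by positivity
  refine ⟨min (1 / 4) (1 / (1600 ^ 2 * C')), 1 + Real.sqrt C', by positivity, by positivity,
    max (max mr m3) (max mg 3), fun m _ hm η hη U hU hw => ?_⟩
  simp only [max_le_iff] at hm
  obtain ⟨⟨hmr, hm3⟩, hmg, hm3'⟩ := hm
  obtain ⟨hRC, S, g, Q, S1, hQ, hSg, hgs, hS1, hS1l, hS1u, hSp, hRR⟩ := hr m hmr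
  have hm3R : (3 : ℝ) ≤ m := by exact_mod_cast hm3'
  have hlog : 0 < Real.log m := Real.log_pos (by linarith)
  have hRC' : RC κ C m := hRC
  have hcard : 11 / 20 * c * M1 m / Real.log m ≤ ((RR κ m).card : ℝ) := by
    have : 11 / 20 * c * M1 m / Real.log m = 11 / 20 * (c * M1 m / Real.log m) := by ring
    rw [this]
    linarith
  obtain ⟨n0, hn01, hn0, hT⟩ := h3 m hm3 hRC' hcard η hη U hU
  have hw0 := wout_nonneg m η U
  set w := wout m η U with hwdef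
  have hw1 : w ≤ 1 / 4 := hw.trans (min_le_left _ _)
  have hw2 : w ≤ 1 / (1600 ^ 2 * C') := hw.trans (min_le_right _ _)
  -- `S1` is positive
  have hM1 : 0 < c * M1 m / (20 * Real.log m) := by
    refine lt_of_le_of_lt ?_ (hg m hmg)
    refine mul_nonneg (by positivity) ?_
    unfold KK
    have : 0 ≤ 1 + Real.log m := by linarith
    positivity
  have hM1' : c * M1 m / (20 * Real.log m) = c * M1 m / Real.log m / 20 := by
    field_simp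
  have hS10 : 0 < S1 := by
    rw [hM1'] at hM1
    linarith
  -- the numbers `v χ`
  set v : DirichletCharacter ℂ m → ℝ :=
    fun χ => ∑ n ∈ RR κ m, ‖vv m χ n - vv m χ n0‖ ^ 2 with hv
  have hv0 : ∀ χ, 0 ≤ v χ := fun χ => sum_nonneg fun _ _ => sq_nonneg _
  have hsum : ∑ χ ∈ U, ww m η χ * v χ ≤ C' * w * S1 := by
    have e1 : ∑ χ ∈ U, ww m η χ * v χ
        = ∑ n ∈ RR κ m, Nrm m η U (fun χ => vv m χ n - vv m χ n0) := by
      unfold Nrm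
      rw [sum_comm]
      refine sum_congr rfl fun χ _ => ?_
      rw [hv, mul_sum]
    rw [e1]
    refine hT.trans ?_
    have e2 : C3 * w * M1 m / Real.log m = C' * w * (c * M1 m / Real.log m) := by
      rw [hC']
      field_simp
    rw [e2]
    exact mul_le_mul_of_nonneg_left hS1l (by positivity)
  set e : ℝ := Real.sqrt (C' * w) with he
  have he0 : 0 ≤ e := Real.sqrt_nonneg _
  have hee : e * e = C' * w := Real.mul_self_sqrt (by positivity)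
  have he1 : e ≤ 1 / 1600 := by
    have h5 : C' * w ≤ (1 / 1600) ^ 2 := by
      calc C' * w ≤ C' * (1 / (1600 ^ 2 * C')) := mul_le_mul_of_nonneg_left hw2 hC'0.le
        _ = (1 / 1600) ^ 2 := by
          field_simp
    rw [he]
    exact Real.sqrt_le_left (by norm_num) |>.mpr h5
  -- the weight of the characters with large `v`
  have hbad : ∑ χ ∈ U.filter (fun χ => e * S1 < v χ), ww m η χ ≤ e := by
    have h5 : (∑ χ ∈ U.filter (fun χ => e * S1 < v χ), ww m η χ) * (e * S1) ≤ e * (e * S1) := by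
      calc _ = ∑ χ ∈ U.filter (fun χ => e * S1 < v χ), ww m η χ * (e * S1) := by rw [sum_mul]
        _ ≤ ∑ χ ∈ U.filter (fun χ => e * S1 < v χ), ww m η χ * v χ :=
          sum_le_sum fun χ hχ =>
            mul_le_mul_of_nonneg_left (mem_filter.mp hχ).2.le (ww_nonneg _ _ _)
        _ ≤ ∑ χ ∈ U, ww m η χ * v χ :=
          sum_le_sum_of_subset_of_nonneg (filter_subset _ _)
            fun χ _ _ => mul_nonneg (ww_nonneg _ _ _) (hv0 χ)
        _ ≤ C' * w * S1 := hsum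
        _ = e * (e * S1) := by rw [← hee]; ring
    rcases eq_or_lt_of_le he0 with h6 | h6
    · -- `e = 0`
      have h7 : ∑ χ ∈ U, ww m η χ * v χ ≤ 0 := by
        refine hsum.trans (le_of_eq ?_)
        rw [← hee, ← h6]
        ring
      have h8 : ∀ χ ∈ U, ww m η χ * v χ = 0 := by
        have h9 : ∑ χ ∈ U, ww m η χ * v χ = 0 :=
          le_antisymm h7 (sum_nonneg fun χ _ => mul_nonneg (ww_nonneg _ _ _) (hv0 χ))
        exact (sum_eq_zero_iff_of_nonneg fun χ _ => mul_nonneg (ww_nonneg _ _ _) (hv0 χ)).mp h9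
      rw [← h6]
      refine le_of_eq (sum_eq_zero fun χ hχ => ?_)
      rw [mem_filter, zero_mul] at hχ
      rcases mul_eq_zero.mp (h8 χ hχ.1) with h | h
      · exact h
      · exact absurd h hχ.2.ne'
    · exact le_of_mul_le_mul_right h5 (mul_pos h6 hS10)
  -- two characters with small `v` are equal
  have huniq : ∀ χ1 χ2 : DirichletCharacter ℂ m, v χ1 ≤ e * S1 → v χ2 ≤ e * S1 → χ1 = χ2 := by
    intro χ1 χ2 h1 h2
    by_contra hne
    have hψ : χ1 * χ2⁻¹ ≠ 1 := fun h => hne (mul_inv_eq_one.mp h)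
    have hlow := t4_low m χ1 χ2 (RR κ m) (Icc 1 (M1 m)) (filter_subset _ _)
      (fun n hn => (mem_RR.mp hn).2.2.2.1) S S1 e he0
      (fun n hn => (hSp n (mem_Icc.mp hn).1).1)
      (fun n hn => (hSp n (mem_RR.mp hn).1).2 (mem_RR.mp hn).2.2.2.2.1) hS1 n0 hn0 h1 h2
    have hup := t4_up m (χ1 * χ2⁻¹) hψ (M1 m) Q S g hSg
    have hKK : 0 ≤ KK m := by
      unfold KK
      have : 0 ≤ 1 + Real.log m := by linarith
      positivity
    have hup2 : (∑ d ∈ Icc 1 Q, |g d|) * KK m < c * M1 m / Real.log m / 20 := by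
      rw [← hM1']
      exact lt_of_le_of_lt (mul_le_mul_of_nonneg_right hgs hKK) (hg m hmg)
    have hse : Real.sqrt e ≤ 1 / 40 := by
      refine (Real.sqrt_le_left (by norm_num)).mpr ?_
      refine he1.trans (by norm_num)
    have h6 : Real.sqrt e * S1 ≤ 1 / 40 * S1 := mul_le_mul_of_nonneg_right hse hS10.le
    linarith
  -- the good characters
  set G := U.filter (fun χ => ¬ e * S1 < v χ) with hG
  have hsplit : ∑ χ ∈ U.filter (fun χ => e * S1 < v χ), ww m η χ + ∑ χ ∈ G, ww m η χ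
      = ∑ χ ∈ U, ww m η χ := sum_filter_add_sum_filter_not _ _ _
  have hm2 : 2 ≤ m := by omega
  have hUw := wout_eq m hm2 η hη U
  have hGw : 1 - w - e ≤ ∑ χ ∈ G, ww m η χ := by
    rw [← hwdef] at hUw
    linarith
  have hGne : G.Nonempty := by
    rw [nonempty_iff_ne_empty]
    intro h
    rw [h, sum_empty] at hGw
    linarith
  obtain ⟨χ, hχG⟩ := hGne
  have hχU : χ ∈ U := (mem_filter.mp hχG).1
  have hχv : v χ ≤ e * S1 := not_lt.mp (mem_filter.mp hχG).2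
  have hGs : G = {χ} := by
    ext χ'
    rw [mem_singleton]
    constructor
    · intro h
      exact huniq χ' χ (not_lt.mp (mem_filter.mp h).2) hχv
    · rintro rfl
      exact hχG
  rw [hGs, sum_singleton] at hGw
  have hhalf : 1 / 2 < ww m η χ := by linarith
  have hinv : χ⁻¹ = χ := by
    by_contra hne
    have h5 : ∑ χ' ∈ ({χ⁻¹, χ} : Finset (DirichletCharacter ℂ m)), ww m η χ'
        ≤ ∑ χ' : DirichletCharacter ℂ m, ww m η χ' :=
      sum_le_sum_of_subset_of_nonneg (subset_univ _) fun _ _ _ => ww_nonneg _ _ _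
    rw [sum_pair hne, ww_inv, ww_sum m hm2 η hη] at h5
    linarith
  refine ⟨χ, hχU, ?_, ww_par m hm3' hη χ (by linarith), hhalf.le, ?_⟩
  · rw [sq]
    nth_rewrite 1 [← hinv]
    exact inv_mul_cancel χ
  · rw [wout_eq m hm2 η hη, sum_singleton]
    have h5 : w ≤ Real.sqrt w := by
      refine Real.le_sqrt_of_sq_le ?_
      nlinarith
    have h6 : e = Real.sqrt C' * Real.sqrt w := by
      rw [he, Real.sqrt_mul hC'0.le]
    have h7 : (1 + Real.sqrt C') * Real.sqrt w = Real.sqrt w + e := by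
      rw [h6]
      ring
    rw [h7]
    linarith

end Pool.Agent.H78.PD
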