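import Pool.Agent.H78.PD.TDef
import Pool.Agent.H78.PD.Pri

/-!
# PD, T5b: two of the four sums

Sums over `q ∈ QQ`, `s ∈ SS`, `h ∈ HH q` (`√q < h ≤ A√q`, i.e. `h²/A² ≤ q < h²`), `p ∈ PP s h` (`s h < p ≤ A s h`), weight `1/(q s h p)`; `L = log m`; by `pri_up` (`C` depends on `A, δ`):
given `h`: `∑_q 1/q ≤ C/L` (`X = h²/(2A²)`, `R = 2A²`); given `q`: `∑_h 1/h ≤ C/L`; given `s, h`: `∑_p 1/p ≤ C/L`; given `p, s`: `∑_h 1/h ≤ C/L` (`p/(As) ≤ h < p/s`); `∑_{SS} 1/s ≤ 1` (`pri_mert`).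
* `d(s h)`: sum over `q` and `p` first; `(s, h) ↦ s h` is injective (`s < h` primes), `s h ∈ BR`;
* `d(p)`: sum over `q`, then `h`, then `s`; `p ∈ BR`.
All these numbers are `zN (δ/4) m`-rough (all primes `> m^(δ/4)`), prime to `m`, `≤ A² m^(δ/2 + 49/200) ≤ m^(399/800)`.
-/

set_option autoImplicit false

namespace Pool.Agent.H78.PD

open Finset
open Pool.Agent.H34PG (lam lam_val lam_mul lam_prime)
open Pool.Agent.H11.LQ Pool.Agent.H78.PG

private theorem t5b_swap {α β : Type*} (S : Finset α) (T : α → Finset β) (U : Finset β)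
    (V : β → Finset α) (f : α → β → ℝ) (hf : ∀ a b, 0 ≤ f a b)
    (h : ∀ a ∈ S, ∀ b ∈ T a, b ∈ U ∧ a ∈ V b) :
    ∑ a ∈ S, ∑ b ∈ T a, f a b ≤ ∑ b ∈ U, ∑ a ∈ V b, f a b := by
  classical
  calc ∑ a ∈ S, ∑ b ∈ T a, f a b ≤ ∑ a ∈ S, ∑ b ∈ U, (if a ∈ V b then f a b else 0) := by
        refine sum_le_sum fun a ha => ?_
        rw [← sum_filter]
        refine sum_le_sum_of_subset_of_nonneg (fun b hb => ?_) (fun b _ _ => hf a b)
        exact mem_filter.2 (h a ha b hb)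
    _ = ∑ b ∈ U, ∑ a ∈ S, (if a ∈ V b then f a b else 0) := sum_comm
    _ ≤ ∑ b ∈ U, ∑ a ∈ V b, f a b := by
        refine sum_le_sum fun b _ => ?_
        rw [← sum_filter]
        exact sum_le_sum_of_subset_of_nonneg (fun a ha => (mem_filter.1 ha).2)
          (fun a _ _ => hf a b)

/-- the primes `h` -/
private noncomputable def t5b_HB (δ A : ℝ) (m : ℕ) : Finset ℕ :=
  PI m ((m : ℝ) ^ (δ / 2)) (A * (m : ℝ) ^ (49 / 200 : ℝ))

private theorem t5b_mem_HB {δ A : ℝ} {m h : ℕ} (hA : 2 ≤ A) :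
    h ∈ t5b_HB δ A m ↔ h.Prime ∧ ¬ h ∣ m ∧ (m : ℝ) ^ (δ / 2) < (h : ℝ) ∧
      (h : ℝ) ≤ A * (m : ℝ) ^ (49 / 200 : ℝ) := by
  unfold t5b_HB
  exact mem_PI (by positivity)

private theorem t5b_mem_SS {δ : ℝ} {m s : ℕ} :
    s ∈ SS δ m ↔ s.Prime ∧ ¬ s ∣ m ∧ (m : ℝ) ^ (δ / 4) < (s : ℝ) ∧
      (s : ℝ) ≤ (m : ℝ) ^ (δ / 2) := by
  unfold SS
  exact mem_PI (by positivity)

private theorem t5b_mem_QQ {δ : ℝ} {m q : ℕ} :
    q ∈ QQ δ m ↔ q.Prime ∧ ¬ q ∣ m ∧ (m : ℝ) ^ δ < (q : ℝ) ∧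
      (q : ℝ) ≤ (m : ℝ) ^ (49 / 100 : ℝ) := by
  unfold QQ
  exact mem_PI (by positivity)

private theorem t5b_mem_HH {A : ℝ} {m q h : ℕ} (hA : 2 ≤ A) :
    h ∈ HH m A q ↔ h.Prime ∧ ¬ h ∣ m ∧ Real.sqrt q < (h : ℝ) ∧
      (h : ℝ) ≤ A * Real.sqrt q := by
  unfold HH
  exact mem_PI (by positivity)

private theorem t5b_mem_PP {A : ℝ} {m s h p : ℕ} (hA : 2 ≤ A) :
    p ∈ PP m A s h ↔ p.Prime ∧ ¬ p ∣ m ∧ (s : ℝ) * h < (p : ℝ) ∧
      (p : ℝ) ≤ A * ((s : ℝ) * h) := by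
  unfold PP
  exact mem_PI (by positivity)

private theorem t5b_q (δ A : ℝ) (hδ : 0 < δ) (hA : 2 ≤ A) :
    ∃ C : ℝ, 0 < C ∧ ∃ m0 : ℕ, ∀ m : ℕ, m0 ≤ m → ∀ g : ℕ → ℝ, (∀ n, 0 ≤ g n) →
    ∑ q ∈ QQ δ m, ∑ h ∈ HH m A q, g h / q ≤ C / Real.log m * ∑ h ∈ t5b_HB δ A m, g h := by
  obtain ⟨C, hC, m1, h1⟩ := pri_up (δ / 2) (by positivity)
  obtain ⟨m2, h2⟩ := grow (2 * A ^ 2) 0 (δ / 2) (by positivity)
  have hA1 : 1 ≤ 2 * A ^ 2 := by nlinarith
  have hA0 : 0 < 2 * A ^ 2 := by linarith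
  have hlog : 0 ≤ Real.log (2 * A ^ 2) := Real.log_nonneg hA1
  refine ⟨C * (1 + Real.log (2 * A ^ 2)), by positivity, max m1 (max m2 1), fun m hm g hg => ?_⟩
  simp only [max_le_iff] at hm
  obtain ⟨hm1, hm2, hm3⟩ := hm
  have hmR : (1 : ℝ) ≤ m := by exact_mod_cast hm3
  have hm0 : (0 : ℝ) < m := by linarith
  have e2 := h2 m hm2
  rw [pow_zero, mul_one] at e2
  have sq : ((m : ℝ) ^ (δ / 2)) ^ 2 = (m : ℝ) ^ δ := by
    rw [← Real.rpow_natCast, ← Real.rpow_mul hm0.le]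
    congr 1
    push_cast
    ring
  have sqt : Real.sqrt ((m : ℝ) ^ δ) = (m : ℝ) ^ (δ / 2) := by
    rw [← sq, Real.sqrt_sq (by positivity)]
  have sqt2 : Real.sqrt ((m : ℝ) ^ (49 / 100 : ℝ)) = (m : ℝ) ^ (49 / 200 : ℝ) := by
    have : ((m : ℝ) ^ (49 / 200 : ℝ)) ^ 2 = (m : ℝ) ^ (49 / 100 : ℝ) := by
      rw [← Real.rpow_natCast, ← Real.rpow_mul hm0.le]
      congr 1
      norm_num
    rw [← this, Real.sqrt_sq (by positivity)]
  refine (t5b_swap (QQ δ m) (fun q => HH m A q) (t5b_HB δ A m)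
    (fun h => PI m ((h : ℝ) ^ 2 / (2 * A ^ 2)) (2 * A ^ 2 * ((h : ℝ) ^ 2 / (2 * A ^ 2))))
    (fun q h => g h / q) (fun q h => by have := hg h; positivity) ?_).trans ?_
  · intro q hq h hh
    rw [t5b_mem_QQ] at hq
    rw [t5b_mem_HH hA] at hh
    obtain ⟨q1, q2, q3, q4⟩ := hq
    obtain ⟨k1, k2, k3, k4⟩ := hh
    have l1 : (m : ℝ) ^ (δ / 2) ≤ Real.sqrt q := by
      rw [← sqt]
      exact Real.sqrt_le_sqrt q3.le
    have l2 : Real.sqrt q ≤ (m : ℝ) ^ (49 / 200 : ℝ) := by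
      rw [← sqt2]
      exact Real.sqrt_le_sqrt q4
    have hq0 : (0 : ℝ) < q := by exact_mod_cast q1.pos
    have hs0 : 0 < Real.sqrt q := Real.sqrt_pos.2 hq0
    have hsq : Real.sqrt q ^ 2 = q := Real.sq_sqrt hq0.le
    refine ⟨(t5b_mem_HB hA).2 ⟨k1, k2, l1.trans_lt k3, k4.trans (by gcongr)⟩, ?_⟩
    rw [mem_PI (by positivity)]
    refine ⟨q1, q2, ?_, ?_⟩
    · rw [div_lt_iff₀ hA0]
      have : (h : ℝ) ^ 2 ≤ (A * Real.sqrt q) ^ 2 := by gcongr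
      rw [mul_pow, hsq] at this
      have h3 : 0 < A ^ 2 * q := by positivity
      linarith
    · rw [mul_div_cancel₀ _ hA0.ne']
      have : Real.sqrt q ^ 2 ≤ (h : ℝ) ^ 2 := by gcongr
      linarith
  · rw [mul_sum]
    refine sum_le_sum fun h hh => ?_
    rw [t5b_mem_HB hA] at hh
    obtain ⟨k1, k2, k3, k4⟩ := hh
    have hX : (m : ℝ) ^ (δ / 2) ≤ (h : ℝ) ^ 2 / (2 * A ^ 2) := by
      rw [le_div_iff₀ hA0]
      have u1 : ((m : ℝ) ^ (δ / 2)) ^ 2 ≤ (h : ℝ) ^ 2 := by gcongr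
      have u0 : 0 < (m : ℝ) ^ (δ / 2) := by positivity
      nlinarith
    have e := h1 m hm1 _ (2 * A ^ 2) hX hA1
    have hgh := hg h
    calc ∑ q ∈ PI m ((h : ℝ) ^ 2 / (2 * A ^ 2)) (2 * A ^ 2 * ((h : ℝ) ^ 2 / (2 * A ^ 2))), g h / q
        = g h * ∑ q ∈ PI m ((h : ℝ) ^ 2 / (2 * A ^ 2))
            (2 * A ^ 2 * ((h : ℝ) ^ 2 / (2 * A ^ 2))), 1 / (q : ℝ) := by
          rw [mul_sum]
          exact sum_congr rfl fun q _ => by ring
      _ ≤ g h * (C * (1 + Real.log (2 * A ^ 2)) / Real.log m) := by gcongr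
      _ = _ := by ring

private theorem t5b_size (δ A : ℝ) (hδ : 0 < δ) (hδ1 : δ ≤ 1 / 100) (hA : 2 ≤ A) :
    ∃ m0 : ℕ, ∀ m : ℕ, m0 ≤ m → A * ((m : ℝ) ^ (δ / 2) * (A * (m : ℝ) ^ (49 / 200 : ℝ)))
      ≤ (m : ℝ) ^ (399 / 800 : ℝ) := by
  obtain ⟨m2, h2⟩ := grow (A ^ 2) 0 (199 / 800) (by norm_num)
  refine ⟨max m2 1, fun m hm => ?_⟩
  simp only [max_le_iff] at hm
  obtain ⟨hm2, hm3⟩ := hm
  have hmR : (1 : ℝ) ≤ m := by exact_mod_cast hm3
  have hm0 : (0 : ℝ) < m := by linarith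
  have e2 := h2 m hm2
  rw [pow_zero, mul_one] at e2
  have e3 : (m : ℝ) ^ (δ / 2) ≤ (m : ℝ) ^ (1 / 200 : ℝ) :=
    Real.rpow_le_rpow_of_exponent_le hmR (by linarith)
  have e4 : (m : ℝ) ^ (399 / 800 : ℝ)
      = (m : ℝ) ^ (199 / 800 : ℝ) * ((m : ℝ) ^ (1 / 200 : ℝ) * (m : ℝ) ^ (49 / 200 : ℝ)) := by
    rw [← Real.rpow_add hm0, ← Real.rpow_add hm0]
    norm_num
  rw [e4]
  calc A * ((m : ℝ) ^ (δ / 2) * (A * (m : ℝ) ^ (49 / 200 : ℝ)))
      = A ^ 2 * ((m : ℝ) ^ (δ / 2) * (m : ℝ) ^ (49 / 200 : ℝ)) := by ring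
    _ ≤ _ := by gcongr

private theorem t5b_z {κ : ℝ} {m n : ℕ} (h : (m : ℝ) ^ κ < (n : ℝ)) : zN κ m < n := by
  unfold zN
  exact (Nat.floor_lt (by positivity)).2 h

private theorem t5b_a (δ A : ℝ) (hδ : 0 < δ) (hδ1 : δ ≤ 1 / 100) (hA : 2 ≤ A) :
    ∃ C : ℝ, 0 < C ∧ ∃ m0 : ℕ, ∀ m : ℕ, m0 ≤ m → ∀ d : ℕ → ℝ, (∀ n, 0 ≤ d n) →
    ∑ h ∈ t5b_HB δ A m, ∑ s ∈ SS δ m, ∑ p ∈ PP m A s h, d (s * h) / ((s : ℝ) * h * p)
      ≤ C / Real.log m * ∑ n ∈ BR (δ / 4) m, d n / n := by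
  obtain ⟨C, hC, m1, h1⟩ := pri_up (δ / 4) (by positivity)
  obtain ⟨m2, h2⟩ := t5b_size δ A hδ hδ1 hA
  have hlog : 0 ≤ Real.log A := Real.log_nonneg (by linarith)
  refine ⟨C * (1 + Real.log A), by positivity, max m1 (max m2 1), fun m hm d hd => ?_⟩
  simp only [max_le_iff] at hm
  obtain ⟨hm1, hm2, hm3⟩ := hm
  have hmR : (1 : ℝ) ≤ m := by exact_mod_cast hm3
  have hm0 : (0 : ℝ) < m := by linarith
  have hLm : 0 ≤ Real.log m := Real.log_nonneg hmR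
  have hmono : (m : ℝ) ^ (δ / 4) ≤ (m : ℝ) ^ (δ / 2) :=
    Real.rpow_le_rpow_of_exponent_le hmR (by linarith)
  have step : ∀ h ∈ t5b_HB δ A m, ∀ s ∈ SS δ m,
      ∑ p ∈ PP m A s h, d (s * h) / ((s : ℝ) * h * p)
        ≤ C * (1 + Real.log A) / Real.log m * (d (s * h) / ((s : ℝ) * h)) := by
    intro h hh s hs
    rw [t5b_mem_HB hA] at hh
    rw [t5b_mem_SS] at hs
    obtain ⟨k1, k2, k3, k4⟩ := hh
    obtain ⟨s1, s2, s3, s4⟩ := hs
    have hs0 : (0 : ℝ) < s := by exact_mod_cast s1.pos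
    have hh1 : (1 : ℝ) ≤ h := by exact_mod_cast k1.one_lt.le
    have hX : (m : ℝ) ^ (δ / 4) ≤ (s : ℝ) * h := by nlinarith
    have e := h1 m hm1 _ A hX (by linarith)
    have hdd := hd (s * h)
    calc ∑ p ∈ PP m A s h, d (s * h) / ((s : ℝ) * h * p)
        = d (s * h) / ((s : ℝ) * h) * ∑ p ∈ PP m A s h, 1 / (p : ℝ) := by
          rw [mul_sum]
          refine sum_congr rfl fun p _ => ?_
          rw [div_mul_div_comm, mul_one]
      _ ≤ d (s * h) / ((s : ℝ) * h) * (C * (1 + Real.log A) / Real.log m) := by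
          unfold PP
          gcongr
      _ = _ := by ring
  calc ∑ h ∈ t5b_HB δ A m, ∑ s ∈ SS δ m, ∑ p ∈ PP m A s h, d (s * h) / ((s : ℝ) * h * p)
      ≤ ∑ h ∈ t5b_HB δ A m, ∑ s ∈ SS δ m,
          C * (1 + Real.log A) / Real.log m * (d (s * h) / ((s : ℝ) * h)) :=
        sum_le_sum fun h hh => sum_le_sum fun s hs => step h hh s hs
    _ = C * (1 + Real.log A) / Real.log m *
          ∑ h ∈ t5b_HB δ A m, ∑ s ∈ SS δ m, d (s * h) / ((s : ℝ) * h) := by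
        rw [mul_sum]
        exact sum_congr rfl fun h _ => by rw [mul_sum]
    _ ≤ C * (1 + Real.log A) / Real.log m * ∑ n ∈ BR (δ / 4) m, d n / n := by
        refine mul_le_mul_of_nonneg_left ?_ (by positivity)
        rw [← sum_product']
        have inj : Set.InjOn (fun x : ℕ × ℕ => x.2 * x.1)
            (t5b_HB δ A m ×ˢ SS δ m : Finset (ℕ × ℕ)) := by
          rintro ⟨h, s⟩ hx ⟨h', s'⟩ hx' e
          rw [mem_coe, mem_product, t5b_mem_HB hA, t5b_mem_SS] at hx hx'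
          obtain ⟨⟨k1, k2, k3, k4⟩, s1, s2, s3, s4⟩ := hx
          obtain ⟨⟨k1', k2', k3', k4'⟩, s1', s2', s3', s4'⟩ := hx'
          simp only at e k1 k2 k3 k4 s1 s2 s3 s4 k1' k2' k3' k4' s1' s2' s3' s4'
          have lt1 : s < h' := by
            have : (s : ℝ) < h' := by linarith
            exact_mod_cast this
          have hs : s ∣ s' * h' := e ▸ dvd_mul_right s h
          have hss : s = s' := by
            rcases (s1.dvd_mul).1 hs with h3 | h3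
            · exact (Nat.prime_dvd_prime_iff_eq s1 s1').1 h3
            · exact absurd ((Nat.prime_dvd_prime_iff_eq s1 k1').1 h3) lt1.ne
          subst hss
          have : h = h' := Nat.eq_of_mul_eq_mul_left s1.pos e
          rw [this]
        calc ∑ x ∈ t5b_HB δ A m ×ˢ SS δ m, d (x.2 * x.1) / ((x.2 : ℝ) * x.1)
            = ∑ n ∈ (t5b_HB δ A m ×ˢ SS δ m).image (fun x : ℕ × ℕ => x.2 * x.1),
                d n / (n : ℝ) := by
              rw [sum_image inj]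
              exact sum_congr rfl fun x _ => by push_cast; rfl
          _ ≤ _ := by
              refine sum_le_sum_of_subset_of_nonneg ?_ (fun n _ _ => by
                have := hd n; positivity)
              intro n hn
              obtain ⟨⟨h, s⟩, hx, rfl⟩ := mem_image.1 hn
              rw [mem_product, t5b_mem_HB hA, t5b_mem_SS] at hx
              obtain ⟨⟨k1, k2, k3, k4⟩, s1, s2, s3, s4⟩ := hx
              simp only at k1 k2 k3 k4 s1 s2 s3 s4 ⊢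
              rw [mem_BR]
              refine ⟨Nat.mul_pos s1.pos k1.pos, ?_, ?_, ?_⟩
              · refine le_trans ?_ (h2 m hm2)
                push_cast
                have u1 : (s : ℝ) * h ≤ (m : ℝ) ^ (δ / 2) * (A * (m : ℝ) ^ (49 / 200 : ℝ)) := by
                  gcongr
                have u0 : 0 ≤ (m : ℝ) ^ (δ / 2) * (A * (m : ℝ) ^ (49 / 200 : ℝ)) := by
                  positivity
                nlinarith
              · exact Nat.Coprime.mul_left ((Nat.Prime.coprime_iff_not_dvd s1).2 s2)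
                  ((Nat.Prime.coprime_iff_not_dvd k1).2 k2)
              · intro r hr hrd
                rcases (hr.dvd_mul).1 hrd with h3 | h3
                · rw [(Nat.prime_dvd_prime_iff_eq hr s1).1 h3]
                  exact t5b_z s3
                · rw [(Nat.prime_dvd_prime_iff_eq hr k1).1 h3]
                  exact t5b_z (hmono.trans_lt k3)

private theorem t5b_b (δ A : ℝ) (hδ : 0 < δ) (hδ1 : δ ≤ 1 / 100) (hA : 2 ≤ A) :
    ∃ C : ℝ, 0 < C ∧ ∃ m0 : ℕ, ∀ m : ℕ, m0 ≤ m → ∀ d : ℕ → ℝ, (∀ n, 0 ≤ d n) →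
    ∑ h ∈ t5b_HB δ A m, ∑ s ∈ SS δ m, ∑ p ∈ PP m A s h, d p / ((s : ℝ) * h * p)
      ≤ C / Real.log m * ∑ n ∈ BR (δ / 4) m, d n / n := by
  obtain ⟨C, hC, m1, h1⟩ := pri_up (δ / 4) (by positivity)
  obtain ⟨m2, h2⟩ := t5b_size δ A hδ hδ1 hA
  obtain ⟨m4, h4⟩ := grow (2 * A) 0 (δ / 4) (by positivity)
  obtain ⟨m5, h5⟩ := pri_mert (δ / 4) (δ / 2) (1 / 4) (by positivity) (by linarith)
    (by linarith) (by norm_num)
  have hA1 : 1 ≤ 2 * A := by linarith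
  have hA0 : 0 < 2 * A := by linarith
  have hlog : 0 ≤ Real.log (2 * A) := Real.log_nonneg hA1
  refine ⟨C * (1 + Real.log (2 * A)), by positivity, max m1 (max m2 (max m4 (max m5 1))),
    fun m hm d hd => ?_⟩
  simp only [max_le_iff] at hm
  obtain ⟨hm1, hm2, hm4, hm5, hm3⟩ := hm
  have hmR : (1 : ℝ) ≤ m := by exact_mod_cast hm3
  have hm0 : (0 : ℝ) < m := by linarith
  have hLm : 0 ≤ Real.log m := Real.log_nonneg hmR
  have hmono : (m : ℝ) ^ (δ / 4) ≤ (m : ℝ) ^ (δ / 2) :=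
    Real.rpow_le_rpow_of_exponent_le hmR (by linarith)
  have e4 := h4 m hm4
  rw [pow_zero, mul_one] at e4
  have sq : (m : ℝ) ^ (δ / 4) * (m : ℝ) ^ (δ / 4) = (m : ℝ) ^ (δ / 2) := by
    rw [← Real.rpow_add hm0]
    congr 1
    ring
  have hSS : ∑ s ∈ SS δ m, 1 / (s : ℝ) ≤ 1 := by
    have e5 := h5 m hm5
    have e6 : δ / 2 / (δ / 4) = 2 := by
      field_simp
      norm_num
    rw [e6] at e5
    have e7 := (abs_le.1 e5).2
    have e8 := Real.log_two_lt_d9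
    unfold SS
    linarith
  have hBR0 : 0 ≤ ∑ n ∈ BR (δ / 4) m, d n / (n : ℝ) :=
    sum_nonneg fun n _ => by have := hd n; positivity
  have key : ∀ s ∈ SS δ m, ∑ h ∈ t5b_HB δ A m, ∑ p ∈ PP m A s h, d p / (p : ℝ) * (1 / (h : ℝ))
      ≤ C * (1 + Real.log (2 * A)) / Real.log m * ∑ n ∈ BR (δ / 4) m, d n / n := by
    intro s hs
    rw [t5b_mem_SS] at hs
    obtain ⟨s1, s2, s3, s4⟩ := hs
    have hs0 : (0 : ℝ) < s := by exact_mod_cast s1.pos
    refine (t5b_swap (t5b_HB δ A m) (fun h => PP m A s h) (BR (δ / 4) m)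
      (fun p => (t5b_HB δ A m).filter (fun h : ℕ => (s : ℝ) * h < p ∧ (p : ℝ) ≤ A * (s * h)))
      (fun h p => d p / (p : ℝ) * (1 / (h : ℝ)))
      (fun h p => by have := hd p; positivity) ?_).trans ?_
    · intro h hh p hp
      have hh' := hh
      rw [t5b_mem_HB hA] at hh
      rw [t5b_mem_PP hA] at hp
      obtain ⟨k1, k2, k3, k4⟩ := hh
      obtain ⟨p1, p2, p3, p4⟩ := hp
      refine ⟨?_, mem_filter.2 ⟨hh', p3, p4⟩⟩
      rw [mem_BR]
      refine ⟨p1.pos, ?_, (Nat.Prime.coprime_iff_not_dvd p1).2 p2, ?_⟩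
      · refine le_trans (p4.trans ?_) (h2 m hm2)
        gcongr
      · intro r hr hrd
        rw [(Nat.prime_dvd_prime_iff_eq hr p1).1 hrd]
        refine t5b_z ?_
        have hh1 : (1 : ℝ) ≤ h := by exact_mod_cast k1.one_lt.le
        nlinarith
    · rw [mul_sum]
      refine sum_le_sum fun p hp => ?_
      have hdp := hd p
      have hp0 : (0 : ℝ) ≤ p := Nat.cast_nonneg p
      rw [← mul_sum]
      rw [mul_comm (C * (1 + Real.log (2 * A)) / Real.log m) (d p / (p : ℝ))]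
      refine mul_le_mul_of_nonneg_left ?_ (by positivity)
      rcases ((t5b_HB δ A m).filter
        (fun h : ℕ => (s : ℝ) * h < p ∧ (p : ℝ) ≤ A * (s * h))).eq_empty_or_nonempty with
        hE | ⟨h0, hh0⟩
      · rw [hE, sum_empty]
        positivity
      · rw [mem_filter, t5b_mem_HB hA] at hh0
        obtain ⟨⟨k1, k2, k3, k4⟩, k5, k6⟩ := hh0
        have hX : (m : ℝ) ^ (δ / 4) ≤ (p : ℝ) / (2 * A * s) := by
          rw [le_div_iff₀ (by positivity)]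
          have u0 : 0 < (m : ℝ) ^ (δ / 4) := by positivity
          have u1 : (m : ℝ) ^ (δ / 4) * (2 * A) ≤ (m : ℝ) ^ (δ / 2) := by
            rw [← sq]
            gcongr
          have u2 : (m : ℝ) ^ (δ / 2) * s ≤ h0 * s := by gcongr
          have u3 : (m : ℝ) ^ (δ / 4) * (2 * A) * s ≤ (m : ℝ) ^ (δ / 2) * s := by gcongr
          linarith
        have e := h1 m hm1 _ (2 * A) hX hA1
        refine le_trans ?_ e
        refine sum_le_sum_of_subset_of_nonneg ?_ (fun n _ _ => by positivity)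
        intro h hh
        rw [mem_filter, t5b_mem_HB hA] at hh
        obtain ⟨⟨j1, j2, j3, j4⟩, j5, j6⟩ := hh
        have hh0 : (0 : ℝ) < h := by exact_mod_cast j1.pos
        rw [mem_PI (by positivity)]
        refine ⟨j1, j2, ?_, ?_⟩
        · rw [div_lt_iff₀ (by positivity)]
          have : 0 < A * (s * h) := by positivity
          nlinarith
        · have : 2 * A * ((p : ℝ) / (2 * A * s)) = p / s := by
            field_simp
          rw [this, le_div_iff₀ hs0]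
          linarith
  calc ∑ h ∈ t5b_HB δ A m, ∑ s ∈ SS δ m, ∑ p ∈ PP m A s h, d p / ((s : ℝ) * h * p)
      = ∑ s ∈ SS δ m, 1 / (s : ℝ) *
          ∑ h ∈ t5b_HB δ A m, ∑ p ∈ PP m A s h, d p / (p : ℝ) * (1 / (h : ℝ)) := by
        rw [sum_comm]
        refine sum_congr rfl fun s _ => ?_
        rw [mul_sum]
        refine sum_congr rfl fun h _ => ?_
        rw [mul_sum]
        refine sum_congr rfl fun p _ => ?_
        rw [div_mul_div_comm, div_mul_div_comm, mul_one, one_mul]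
        congr 1
        ring
    _ ≤ ∑ s ∈ SS δ m, 1 / (s : ℝ) *
          (C * (1 + Real.log (2 * A)) / Real.log m * ∑ n ∈ BR (δ / 4) m, d n / n) := by
        refine sum_le_sum fun s hs => ?_
        exact mul_le_mul_of_nonneg_left (key s hs) (by positivity)
    _ = (∑ s ∈ SS δ m, 1 / (s : ℝ)) *
          (C * (1 + Real.log (2 * A)) / Real.log m * ∑ n ∈ BR (δ / 4) m, d n / n) := by
        rw [sum_mul]
    _ ≤ 1 * (C * (1 + Real.log (2 * A)) / Real.log m * ∑ n ∈ BR (δ / 4) m, d n / n) := by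
        gcongr
    _ = _ := by ring

theorem t5_sum1 (δ A : ℝ) (hδ : 0 < δ) (hδ1 : δ ≤ 1 / 100) (hA : 2 ≤ A) :
    ∃ C : ℝ, 0 < C ∧ ∃ m0 : ℕ, ∀ m : ℕ, m0 ≤ m → ∀ d : ℕ → ℝ, (∀ n, 0 ≤ d n) →
    ∑ q ∈ QQ δ m, ∑ s ∈ SS δ m, ∑ h ∈ HH m A q, ∑ p ∈ PP m A s h,
      (d (s * h) + d p) / ((q : ℝ) * s * h * p)
      ≤ C / Real.log m ^ 2 * ∑ n ∈ BR (δ / 4) m, d n / n := by
  obtain ⟨C1, hC1, m1, h1⟩ := t5b_q δ A hδ hA
  obtain ⟨C2, hC2, m2, h2⟩ := t5b_a δ A hδ hδ1 hA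
  obtain ⟨C3, hC3, m3, h3⟩ := t5b_b δ A hδ hδ1 hA
  refine ⟨C1 * (C2 + C3), by positivity, max m1 (max m2 (max m3 1)), fun m hm d hd => ?_⟩
  simp only [max_le_iff] at hm
  obtain ⟨hm1, hm2, hm3, hm4⟩ := hm
  have hmR : (1 : ℝ) ≤ m := by exact_mod_cast hm4
  have hLm : 0 ≤ Real.log m := Real.log_nonneg hmR
  have e1 := h1 m hm1 (fun h => ∑ s ∈ SS δ m, ∑ p ∈ PP m A s h,
    (d (s * h) + d p) / ((s : ℝ) * h * p))
    (fun h => sum_nonneg fun s _ => sum_nonneg fun p _ => by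
      have := hd (s * h)
      have := hd p
      positivity)
  have e2 := h2 m hm2 d hd
  have e3 := h3 m hm3 d hd
  have e4 : ∑ q ∈ QQ δ m, ∑ s ∈ SS δ m, ∑ h ∈ HH m A q, ∑ p ∈ PP m A s h,
      (d (s * h) + d p) / ((q : ℝ) * s * h * p)
      = ∑ q ∈ QQ δ m, ∑ h ∈ HH m A q, (∑ s ∈ SS δ m, ∑ p ∈ PP m A s h,
          (d (s * h) + d p) / ((s : ℝ) * h * p)) / (q : ℝ) := by
    refine sum_congr rfl fun q _ => ?_
    rw [sum_comm]
    refine sum_congr rfl fun h _ => ?_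
    rw [sum_div]
    refine sum_congr rfl fun s _ => ?_
    rw [sum_div]
    refine sum_congr rfl fun p _ => ?_
    rw [div_div]
    congr 1
    ring
  have e5 : ∑ h ∈ t5b_HB δ A m, ∑ s ∈ SS δ m, ∑ p ∈ PP m A s h,
      (d (s * h) + d p) / ((s : ℝ) * h * p)
      = ∑ h ∈ t5b_HB δ A m, ∑ s ∈ SS δ m, ∑ p ∈ PP m A s h, d (s * h) / ((s : ℝ) * h * p)
        + ∑ h ∈ t5b_HB δ A m, ∑ s ∈ SS δ m, ∑ p ∈ PP m A s h, d p / ((s : ℝ) * h * p) := by
    rw [← sum_add_distrib]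
    refine sum_congr rfl fun h _ => ?_
    rw [← sum_add_distrib]
    refine sum_congr rfl fun s _ => ?_
    rw [← sum_add_distrib]
    refine sum_congr rfl fun p _ => ?_
    rw [add_div]
  rw [e4]
  refine e1.trans ?_
  rw [e5]
  calc C1 / Real.log m * (∑ h ∈ t5b_HB δ A m, ∑ s ∈ SS δ m, ∑ p ∈ PP m A s h,
          d (s * h) / ((s : ℝ) * h * p)
        + ∑ h ∈ t5b_HB δ A m, ∑ s ∈ SS δ m, ∑ p ∈ PP m A s h, d p / ((s : ℝ) * h * p))
      ≤ C1 / Real.log m * (C2 / Real.log m * ∑ n ∈ BR (δ / 4) m, d n / n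
        + C3 / Real.log m * ∑ n ∈ BR (δ / 4) m, d n / n) := by
        refine mul_le_mul_of_nonneg_left (add_le_add e2 e3) (by positivity)
    _ = _ := by ring

end Pool.Agent.H78.PD
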