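import Pool.Agent.H78.PD.TDef
import Pool.Agent.H78.PD.Pri

/-!
# PD, T6a: many triples

`B` = a set of bad primes with `∑_B 1/q ≤ δ0`.  `a ≤ m^(1/100)`, `p1, p2 ∈ P3 m`, `X = m/(2 A a p1 p2)`, `p3 ∈ XX3 m A a p1 p2` (`X < p3 ≤ A X`): `X ≥ m^(33/100)/(2A) ≥ m^(3/10)`, `A X ≤ m^(36/100)`.
The number of triples is `≥ ∑ X/p3 = (m/(2Aa)) ∑_{p1, p2, p3 not in B} 1/(p1 p2 p3)`; all triples: `≥ (1/50)² c/L` (`pri_mert`: `log(33/32) ≥ 3/100`; `pri_low`); those with `p1 ∈ B`: `≤ δ0 · 1 · C/L` (`pri_up`), the same for `p2`; those with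
`p3 ∈ B`: given `p2, p3`: `p1 ∈ [m/(2Aap2p3), m/(2ap2p3))`: `≤ δ0 · 1 · C/L`.  `δ0` small.
-/

set_option autoImplicit false

namespace Pool.Agent.H78.PD

open Finset
open Pool.Agent.H34PG (lam lam_val lam_mul lam_prime)
open Pool.Agent.H11.LQ Pool.Agent.H78.PG

private theorem t6_split (P B : Finset ℕ) (X : ℕ → ℕ → Finset ℕ) (f : ℕ → ℕ → ℕ → ℝ)
    (hf : ∀ a b c, 0 ≤ f a b c) :
    ∑ p1 ∈ P, ∑ p2 ∈ P, ∑ p3 ∈ X p1 p2, f p1 p2 p3 ≤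
      (∑ p1 ∈ P \ B, ∑ p2 ∈ P \ B, ∑ p3 ∈ X p1 p2 \ B, f p1 p2 p3) +
      (∑ p1 ∈ P ∩ B, ∑ p2 ∈ P, ∑ p3 ∈ X p1 p2, f p1 p2 p3) +
      (∑ p1 ∈ P, ∑ p2 ∈ P ∩ B, ∑ p3 ∈ X p1 p2, f p1 p2 p3) +
      (∑ p1 ∈ P, ∑ p2 ∈ P, ∑ p3 ∈ X p1 p2 ∩ B, f p1 p2 p3) := by
  have e1 : ∑ p1 ∈ P, ∑ p2 ∈ P, ∑ p3 ∈ X p1 p2, f p1 p2 p3 =
      (∑ p1 ∈ P ∩ B, ∑ p2 ∈ P, ∑ p3 ∈ X p1 p2, f p1 p2 p3) +
      ∑ p1 ∈ P \ B, ∑ p2 ∈ P, ∑ p3 ∈ X p1 p2, f p1 p2 p3 :=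
    (sum_inter_add_sum_sdiff P B _).symm
  have e2 : ∑ p1 ∈ P \ B, ∑ p2 ∈ P, ∑ p3 ∈ X p1 p2, f p1 p2 p3 =
      (∑ p1 ∈ P \ B, ∑ p2 ∈ P ∩ B, ∑ p3 ∈ X p1 p2, f p1 p2 p3) +
      ∑ p1 ∈ P \ B, ∑ p2 ∈ P \ B, ∑ p3 ∈ X p1 p2, f p1 p2 p3 := by
    rw [← sum_add_distrib]
    exact sum_congr rfl fun p1 _ => (sum_inter_add_sum_sdiff P B _).symm
  have e3 : ∑ p1 ∈ P \ B, ∑ p2 ∈ P \ B, ∑ p3 ∈ X p1 p2, f p1 p2 p3 =
      (∑ p1 ∈ P \ B, ∑ p2 ∈ P \ B, ∑ p3 ∈ X p1 p2 ∩ B, f p1 p2 p3) +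
      ∑ p1 ∈ P \ B, ∑ p2 ∈ P \ B, ∑ p3 ∈ X p1 p2 \ B, f p1 p2 p3 := by
    rw [← sum_add_distrib]
    refine sum_congr rfl fun p1 _ => ?_
    rw [← sum_add_distrib]
    exact sum_congr rfl fun p2 _ => (sum_inter_add_sum_sdiff (X p1 p2) B _).symm
  have i2 : ∑ p1 ∈ P \ B, ∑ p2 ∈ P ∩ B, ∑ p3 ∈ X p1 p2, f p1 p2 p3 ≤
      ∑ p1 ∈ P, ∑ p2 ∈ P ∩ B, ∑ p3 ∈ X p1 p2, f p1 p2 p3 :=
    sum_le_sum_of_subset_of_nonneg sdiff_subset fun _ _ _ =>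
      sum_nonneg fun _ _ => sum_nonneg fun _ _ => hf _ _ _
  have i3 : ∑ p1 ∈ P \ B, ∑ p2 ∈ P \ B, ∑ p3 ∈ X p1 p2 ∩ B, f p1 p2 p3 ≤
      ∑ p1 ∈ P, ∑ p2 ∈ P, ∑ p3 ∈ X p1 p2 ∩ B, f p1 p2 p3 := by
    refine le_trans (sum_le_sum_of_subset_of_nonneg (t := P) sdiff_subset fun _ _ _ =>
      sum_nonneg fun _ _ => sum_nonneg fun _ _ => hf _ _ _) ?_
    exact sum_le_sum fun p1 _ => sum_le_sum_of_subset_of_nonneg sdiff_subset fun _ _ _ =>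
      sum_nonneg fun _ _ => hf _ _ _
  rw [e1, e2, e3]
  linarith

theorem t6_triples : ∃ A δ0 c : ℝ, 2 ≤ A ∧ 0 < δ0 ∧ 0 < c ∧ ∃ m0 : ℕ, ∀ m : ℕ, m0 ≤ m →
    ∀ B : Finset ℕ, (∀ q ∈ B, q.Prime) → ∑ q ∈ B, 1 / (q : ℝ) ≤ δ0 → ∀ a : ℕ, 1 ≤ a →
    (a : ℝ) ≤ (m : ℝ) ^ (1 / 100 : ℝ) →
    c * m / (a * Real.log m) ≤
      ((∑ p1 ∈ P3 m \ B, ∑ p2 ∈ P3 m \ B, (XX3 m A a p1 p2 \ B).card : ℕ) : ℝ) := by
  obtain ⟨A, c, hA, hc, hlow⟩ := pri_low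
  obtain ⟨C, hC, m1, H1⟩ := pri_up (3 / 10) (by norm_num)
  obtain ⟨m2, H2⟩ := hlow (3 / 10) (by norm_num)
  obtain ⟨m3, H3⟩ := pri_mert (32 / 100) (33 / 100) (1 / 100) (by norm_num) (by norm_num)
    (by norm_num) (by norm_num)
  have hA0 : 0 < A := by linarith
  have hlogA : 0 ≤ Real.log A := Real.log_nonneg (by linarith)
  obtain ⟨m4, H4⟩ := grow (2 * A) 0 (2 / 100) (by norm_num)
  obtain ⟨D, hD⟩ : ∃ D : ℝ, D = C * (1 + Real.log A) := ⟨_, rfl⟩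
  have hD0 : 0 < D := by rw [hD]; positivity
  refine ⟨A, c / (15000 * D), c / (10000 * A), hA, by positivity, by positivity,
    max (max m1 m2) (max (max m3 m4) 3), ?_⟩
  intro m hm B hB hBs a ha ham
  simp only [max_le_iff] at hm
  obtain ⟨⟨hm1, hm2⟩, ⟨hm3, hm4⟩, hm5⟩ := hm
  have hM3 : (3 : ℝ) ≤ (m : ℝ) := by exact_mod_cast hm5
  have hM1 : (1 : ℝ) ≤ (m : ℝ) := by linarith
  have hM0 : (0 : ℝ) < (m : ℝ) := by linarith
  have hL : 0 < Real.log m := Real.log_pos (by linarith)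
  obtain ⟨L, hLL⟩ : ∃ L : ℝ, L = Real.log m := ⟨_, rfl⟩
  rw [← hLL] at hL
  have ha1 : (1 : ℝ) ≤ a := by exact_mod_cast ha
  have ha0 : (0 : ℝ) < a := by linarith
  -- the sum over P3
  obtain ⟨S, hS⟩ : ∃ S : ℝ, S = ∑ p ∈ P3 m, 1 / (p : ℝ) := ⟨_, rfl⟩
  have hS0 : 0 ≤ S := by rw [hS]; exact sum_nonneg fun _ _ => by positivity
  have hSb : 1 / 50 ≤ S ∧ S ≤ 1 := by
    have h1 := H3 m hm3
    have h2 : ∑ p ∈ PI m ((m : ℝ) ^ (32 / 100 : ℝ)) ((m : ℝ) ^ (33 / 100 : ℝ)), 1 / (p : ℝ) = S := by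
      rw [hS]
      rfl
    rw [h2, abs_le] at h1
    have h3 : Real.log (33 / 100 / (32 / 100)) ≤ 1 / 32 := by
      refine (Real.log_le_sub_one_of_pos (by norm_num)).trans (by norm_num)
    have h4 : 1 / 33 ≤ Real.log (33 / 100 / (32 / 100)) := by
      refine le_trans (by norm_num) (Real.one_sub_inv_le_log_of_pos (by norm_num))
    constructor
    · linarith [h1.1]
    · linarith [h1.2]
  have hP3 : ∀ {p : ℕ}, p ∈ P3 m → p.Prime ∧ ¬ p ∣ m ∧ (m : ℝ) ^ (32 / 100 : ℝ) < (p : ℝ) ∧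
      (p : ℝ) ≤ (m : ℝ) ^ (33 / 100 : ℝ) := by
    intro p hp
    unfold P3 at hp
    exact (mem_PI (by positivity)).mp hp
  have h2A : 2 * A ≤ (m : ℝ) ^ (2 / 100 : ℝ) := by
    have h1 := H4 m hm4
    rwa [pow_zero, mul_one] at h1
  -- the size of X
  have hX : ∀ p1 ∈ P3 m, ∀ p2 ∈ P3 m,
      (m : ℝ) ^ (3 / 10 : ℝ) ≤ (m : ℝ) / (2 * A * a * p1 * p2) ∧
      (m : ℝ) / (2 * A * a * p1 * p2) ≤ m := by
    intro p1 hp1 p2 hp2
    obtain ⟨q1, q2, q3, q4⟩ := hP3 hp1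
    obtain ⟨r1, r2, r3, r4⟩ := hP3 hp2
    have o1 : (1 : ℝ) ≤ p1 := by exact_mod_cast q1.one_lt.le
    have o2 : (1 : ℝ) ≤ p2 := by exact_mod_cast r1.one_lt.le
    constructor
    · rw [le_div_iff₀ (by positivity)]
      calc (m : ℝ) ^ (3 / 10 : ℝ) * (2 * A * a * p1 * p2)
          ≤ (m : ℝ) ^ (3 / 10 : ℝ) * ((m : ℝ) ^ (2 / 100 : ℝ) * (m : ℝ) ^ (1 / 100 : ℝ) *
              (m : ℝ) ^ (33 / 100 : ℝ) * (m : ℝ) ^ (33 / 100 : ℝ)) := by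
            refine mul_le_mul_of_nonneg_left ?_ (by positivity)
            refine mul_le_mul (mul_le_mul (mul_le_mul h2A ham ?_ ?_) q4 ?_ ?_) r4 ?_ ?_ <;>
              positivity
        _ = (m : ℝ) ^ (99 / 100 : ℝ) := by
            rw [← Real.rpow_add hM0, ← Real.rpow_add hM0, ← Real.rpow_add hM0,
              ← Real.rpow_add hM0]
            norm_num
        _ ≤ (m : ℝ) ^ (1 : ℝ) := Real.rpow_le_rpow_of_exponent_le hM1 (by norm_num)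
        _ = m := Real.rpow_one _
    · rw [div_le_iff₀ (by positivity)]
      have h1 : 1 ≤ 2 * A * a * p1 * p2 := by
        have g1 : (1 : ℝ) ≤ 2 * A := by linarith
        exact one_le_mul_of_one_le_of_one_le (one_le_mul_of_one_le_of_one_le
          (one_le_mul_of_one_le_of_one_le g1 ha1) o1) o2
      nlinarith
  -- the function
  obtain ⟨f, hf⟩ : ∃ f : ℕ → ℕ → ℕ → ℝ, f = fun (p1 p2 p3 : ℕ) =>
      1 / (p1 : ℝ) * (1 / (p2 : ℝ) * (1 / (p3 : ℝ))) := ⟨_, rfl⟩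
  have hf0 : ∀ x y z, 0 ≤ f x y z := by
    intro x y z
    rw [hf]
    positivity
  have hfv : ∀ x y z, f x y z = 1 / (x : ℝ) * (1 / (y : ℝ) * (1 / (z : ℝ))) := by
    intro x y z
    rw [hf]
  have hsplit := t6_split (P3 m) B (fun p1 p2 => XX3 m A a p1 p2) f hf0
  have hin : ∀ p1 ∈ P3 m, ∀ p2 ∈ P3 m, ∑ p3 ∈ XX3 m A a p1 p2, 1 / (p3 : ℝ) ≤ D / L := by
    intro p1 hp1 p2 hp2
    have h1 := H1 m hm1 _ A (hX p1 hp1 p2 hp2).1 (by linarith)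
    rw [← hD, ← hLL] at h1
    exact h1
  have hDL : 0 < D / L := by positivity
  have hBP : ∀ P : Finset ℕ, ∑ q ∈ P ∩ B, 1 / (q : ℝ) ≤ c / (15000 * D) := fun P =>
    (sum_le_sum_of_subset_of_nonneg inter_subset_right fun _ _ _ => by positivity).trans hBs
  -- all triples
  have hall : (1 / 50) ^ 2 * (c / L) ≤
      ∑ p1 ∈ P3 m, ∑ p2 ∈ P3 m, ∑ p3 ∈ XX3 m A a p1 p2, f p1 p2 p3 := by
    have h1 : ∀ p1 ∈ P3 m, ∀ p2 ∈ P3 m, c / L ≤ ∑ p3 ∈ XX3 m A a p1 p2, 1 / (p3 : ℝ) := by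
      intro p1 hp1 p2 hp2
      have := H2 m hm2 _ (hX p1 hp1 p2 hp2).1 (hX p1 hp1 p2 hp2).2
      rw [← hLL] at this
      exact this
    calc (1 / 50) ^ 2 * (c / L) ≤ S * (S * (c / L)) := by
          have g1 : 0 < c / L := by positivity
          have g2 : (1 / 50 : ℝ) * (1 / 50) ≤ S * S :=
            mul_le_mul hSb.1 hSb.1 (by norm_num) hS0
          have g3 := mul_le_mul_of_nonneg_right g2 g1.le
          calc (1 / 50) ^ 2 * (c / L) = 1 / 50 * (1 / 50) * (c / L) := by ring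
            _ ≤ S * S * (c / L) := g3
            _ = S * (S * (c / L)) := by ring
      _ = ∑ p1 ∈ P3 m, ∑ p2 ∈ P3 m, 1 / (p1 : ℝ) * (1 / (p2 : ℝ) * (c / L)) := by
          simp only [← mul_sum, ← sum_mul, ← hS]
      _ ≤ _ := by
          refine sum_le_sum fun p1 hp1 => sum_le_sum fun p2 hp2 => ?_
          simp only [hfv, ← mul_sum]
          refine mul_le_mul_of_nonneg_left (mul_le_mul_of_nonneg_left (h1 p1 hp1 p2 hp2) ?_) ?_ <;>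
            positivity
  have hT1 : ∑ p1 ∈ P3 m ∩ B, ∑ p2 ∈ P3 m, ∑ p3 ∈ XX3 m A a p1 p2, f p1 p2 p3 ≤
      c / 15000 / L := by
    calc ∑ p1 ∈ P3 m ∩ B, ∑ p2 ∈ P3 m, ∑ p3 ∈ XX3 m A a p1 p2, f p1 p2 p3
        ≤ ∑ p1 ∈ P3 m ∩ B, ∑ p2 ∈ P3 m, 1 / (p1 : ℝ) * (1 / (p2 : ℝ) * (D / L)) := by
          refine sum_le_sum fun p1 hp1 => sum_le_sum fun p2 hp2 => ?_
          simp only [hfv, ← mul_sum]
          refine mul_le_mul_of_nonneg_left (mul_le_mul_of_nonneg_left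
            (hin p1 (mem_inter.mp hp1).1 p2 hp2) ?_) ?_ <;> positivity
      _ = (∑ p1 ∈ P3 m ∩ B, 1 / (p1 : ℝ)) * (S * (D / L)) := by
          simp only [← mul_sum, ← sum_mul, ← hS]
      _ ≤ c / (15000 * D) * (1 * (D / L)) := by
          refine mul_le_mul (hBP _) (mul_le_mul_of_nonneg_right hSb.2 hDL.le) ?_ ?_ <;> positivity
      _ = c / 15000 / L := by
          field_simp
  have hT2 : ∑ p1 ∈ P3 m, ∑ p2 ∈ P3 m ∩ B, ∑ p3 ∈ XX3 m A a p1 p2, f p1 p2 p3 ≤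
      c / 15000 / L := by
    calc ∑ p1 ∈ P3 m, ∑ p2 ∈ P3 m ∩ B, ∑ p3 ∈ XX3 m A a p1 p2, f p1 p2 p3
        ≤ ∑ p1 ∈ P3 m, ∑ p2 ∈ P3 m ∩ B, 1 / (p1 : ℝ) * (1 / (p2 : ℝ) * (D / L)) := by
          refine sum_le_sum fun p1 hp1 => sum_le_sum fun p2 hp2 => ?_
          simp only [hfv, ← mul_sum]
          refine mul_le_mul_of_nonneg_left (mul_le_mul_of_nonneg_left
            (hin p1 hp1 p2 (mem_inter.mp hp2).1) ?_) ?_ <;> positivity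
      _ = S * ((∑ p2 ∈ P3 m ∩ B, 1 / (p2 : ℝ)) * (D / L)) := by
          simp only [← mul_sum, ← sum_mul, ← hS]
      _ ≤ 1 * (c / (15000 * D) * (D / L)) := by
          refine mul_le_mul hSb.2 (mul_le_mul_of_nonneg_right (hBP _) hDL.le) ?_ (by norm_num)
          positivity
      _ = c / 15000 / L := by
          field_simp
  -- the third sum
  have hkey : ∀ p2 ∈ P3 m, ∀ p3 ∈ B,
      ∑ p1 ∈ (P3 m).filter (fun p1 => p3 ∈ XX3 m A a p1 p2), 1 / (p1 : ℝ) ≤ D / L := by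
    intro p2 hp2 p3 hp3
    obtain ⟨r1, r2, r3, r4⟩ := hP3 hp2
    have o2 : (0 : ℝ) < p2 := by exact_mod_cast r1.pos
    have o3 : (0 : ℝ) < p3 := by exact_mod_cast (hB p3 hp3).pos
    rcases ((P3 m).filter (fun p1 => p3 ∈ XX3 m A a p1 p2)).eq_empty_or_nonempty with h0 | ⟨w, hw⟩
    · rw [h0, sum_empty]
      exact hDL.le
    · have hmem : ∀ p1 ∈ (P3 m).filter (fun p1 => p3 ∈ XX3 m A a p1 p2),
          p1 ∈ PI m ((m : ℝ) / (2 * A * a * p2 * p3)) (A * ((m : ℝ) / (2 * A * a * p2 * p3))) := by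
        intro p1 hp1
        rw [mem_filter] at hp1
        obtain ⟨q1, q2, q3, q4⟩ := hP3 hp1.1
        have o1 : (0 : ℝ) < p1 := by exact_mod_cast q1.pos
        have h3 := hp1.2
        unfold XX3 at h3
        rw [mem_PI (by positivity)] at h3
        obtain ⟨s1, s2, s3, s4⟩ := h3
        rw [mem_PI (by positivity)]
        refine ⟨q1, q2, ?_, ?_⟩
        · rw [div_lt_iff₀ (by positivity)] at s3 ⊢
          calc (m : ℝ) < p3 * (2 * A * a * p1 * p2) := s3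
            _ = p1 * (2 * A * a * p2 * p3) := by ring
        · rw [← mul_div_assoc, le_div_iff₀ (by positivity)] at s4 ⊢
          calc (p1 : ℝ) * (2 * A * a * p2 * p3) = p3 * (2 * A * a * p1 * p2) := by ring
            _ ≤ A * m := s4
      have hw' := hmem w hw
      rw [mem_filter] at hw
      rw [mem_PI (by positivity)] at hw'
      obtain ⟨q1, q2, q3, q4⟩ := hP3 hw.1
      have hY : (m : ℝ) ^ (3 / 10 : ℝ) ≤ (m : ℝ) / (2 * A * a * p2 * p3) := by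
        obtain ⟨Y, hYY⟩ : ∃ Y : ℝ, Y = (m : ℝ) / (2 * A * a * p2 * p3) := ⟨_, rfl⟩
        rw [← hYY]
        have g1 : (m : ℝ) ^ (32 / 100 : ℝ) ≤ A * Y := by
          rw [hYY]
          exact q3.le.trans hw'.2.2.2
        have g2 : (m : ℝ) ^ (32 / 100 : ℝ) = (m : ℝ) ^ (3 / 10 : ℝ) * (m : ℝ) ^ (2 / 100 : ℝ) := by
          rw [← Real.rpow_add hM0]
          norm_num
        have g3 : (m : ℝ) ^ (3 / 10 : ℝ) * A ≤ A * Y := by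
          refine le_trans ?_ g1
          rw [g2]
          exact mul_le_mul_of_nonneg_left (by linarith) (by positivity)
        exact le_of_mul_le_mul_left (by linarith) hA0
      have h1 := H1 m hm1 _ A hY (by linarith)
      rw [← hD, ← hLL] at h1
      exact (sum_le_sum_of_subset_of_nonneg hmem fun _ _ _ => by positivity).trans h1
  have hT3 : ∑ p1 ∈ P3 m, ∑ p2 ∈ P3 m, ∑ p3 ∈ XX3 m A a p1 p2 ∩ B, f p1 p2 p3 ≤
      c / 15000 / L := by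
    have e1 : ∀ p1 p2, ∑ p3 ∈ XX3 m A a p1 p2 ∩ B, f p1 p2 p3 =
        ∑ p3 ∈ B, if p3 ∈ XX3 m A a p1 p2 then f p1 p2 p3 else 0 := by
      intro p1 p2
      rw [inter_comm, ← filter_mem_eq_inter, sum_filter]
    calc ∑ p1 ∈ P3 m, ∑ p2 ∈ P3 m, ∑ p3 ∈ XX3 m A a p1 p2 ∩ B, f p1 p2 p3
        = ∑ p2 ∈ P3 m, ∑ p1 ∈ P3 m, ∑ p3 ∈ B,
            if p3 ∈ XX3 m A a p1 p2 then f p1 p2 p3 else 0 := by
          rw [sum_comm]
          exact sum_congr rfl fun p2 _ => sum_congr rfl fun p1 _ => e1 p1 p2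
      _ = ∑ p2 ∈ P3 m, ∑ p3 ∈ B, ∑ p1 ∈ P3 m,
            if p3 ∈ XX3 m A a p1 p2 then f p1 p2 p3 else 0 :=
          sum_congr rfl fun p2 _ => sum_comm
      _ = ∑ p2 ∈ P3 m, ∑ p3 ∈ B, 1 / (p2 : ℝ) * (1 / (p3 : ℝ)) *
            ∑ p1 ∈ (P3 m).filter (fun p1 => p3 ∈ XX3 m A a p1 p2), 1 / (p1 : ℝ) := by
          refine sum_congr rfl fun p2 _ => sum_congr rfl fun p3 _ => ?_
          rw [← sum_filter, mul_sum]
          refine sum_congr rfl fun p1 _ => ?_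
          rw [hfv]
          ring
      _ ≤ ∑ p2 ∈ P3 m, ∑ p3 ∈ B, 1 / (p2 : ℝ) * (1 / (p3 : ℝ)) * (D / L) := by
          refine sum_le_sum fun p2 hp2 => sum_le_sum fun p3 hp3 => ?_
          exact mul_le_mul_of_nonneg_left (hkey p2 hp2 p3 hp3) (by positivity)
      _ = S * ((∑ p3 ∈ B, 1 / (p3 : ℝ)) * (D / L)) := by
          simp only [mul_assoc, ← mul_sum, ← sum_mul, ← hS]
      _ ≤ 1 * (c / (15000 * D) * (D / L)) := by
          refine mul_le_mul hSb.2 (mul_le_mul_of_nonneg_right hBs hDL.le) ?_ (by norm_num)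
          exact mul_nonneg (sum_nonneg fun _ _ => by positivity) hDL.le
      _ = c / 15000 / L := by
          field_simp
  -- the good triples
  obtain ⟨G, hG⟩ : ∃ G : ℝ, G = ∑ p1 ∈ P3 m \ B, ∑ p2 ∈ P3 m \ B,
      ∑ p3 ∈ XX3 m A a p1 p2 \ B, f p1 p2 p3 := ⟨_, rfl⟩
  have hGlow : c / 5000 / L ≤ G := by
    have g1 : G + c / 15000 / L + c / 15000 / L + c / 15000 / L ≥ (1 / 50) ^ 2 * (c / L) := by
      rw [hG]
      linarith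
    have g2 : (1 / 50 : ℝ) ^ 2 * (c / L) = c / 5000 / L + 3 * (c / 15000 / L) := by ring
    linarith
  have hcard : (m : ℝ) / (2 * A * a) * G ≤
      ((∑ p1 ∈ P3 m \ B, ∑ p2 ∈ P3 m \ B, (XX3 m A a p1 p2 \ B).card : ℕ) : ℝ) := by
    rw [hG, mul_sum]
    push_cast
    refine sum_le_sum fun p1 hp1 => ?_
    rw [mul_sum]
    refine sum_le_sum fun p2 hp2 => ?_
    have hcs : ((XX3 m A a p1 p2 \ B).card : ℝ) = ∑ p3 ∈ XX3 m A a p1 p2 \ B, (1 : ℝ) := by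
      rw [sum_const, nsmul_eq_mul, mul_one]
    rw [mul_sum, hcs]
    refine sum_le_sum fun p3 hp3 => ?_
    obtain ⟨q1, q2, q3, q4⟩ := hP3 (mem_sdiff.mp hp1).1
    obtain ⟨r1, r2, r3, r4⟩ := hP3 (mem_sdiff.mp hp2).1
    have o1 : (0 : ℝ) < p1 := by exact_mod_cast q1.pos
    have o2 : (0 : ℝ) < p2 := by exact_mod_cast r1.pos
    have h3 := (mem_sdiff.mp hp3).1
    unfold XX3 at h3
    rw [mem_PI (by positivity)] at h3
    have o3 : (0 : ℝ) < p3 := by exact_mod_cast h3.1.pos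
    have h4 := h3.2.2.1
    rw [div_lt_iff₀ (by positivity)] at h4
    rw [hfv]
    have h5 : (m : ℝ) / (2 * A * a) * (1 / (p1 : ℝ) * (1 / (p2 : ℝ) * (1 / (p3 : ℝ)))) =
        m / (p3 * (2 * A * a * p1 * p2)) := by
      field_simp
    rw [h5, div_le_one (by positivity)]
    exact h4.le
  refine le_trans ?_ hcard
  calc c / (10000 * A) * m / (a * Real.log m) = (m : ℝ) / (2 * A * a) * (c / 5000 / L) := by
        rw [← hLL]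
        field_simp
        norm_num
    _ ≤ _ := mul_le_mul_of_nonneg_left hGlow (by positivity)

end Pool.Agent.H78.PD
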