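import Pool.Agent.H78.PD.Defs

/-!
# PD, TDef: index sets of the comparison arguments

* `PB κ m` = pairs `(p, b)`, `p ∈ AP m`, `b ∈ BR κ m`, `M1/16 < p b ≤ M1`; `Tt m A p p0` = primes `t ∤ m` in `(M1/(p p0), A M1/(p p0)]`;
* `QQ δ m` = primes in `(m^δ, m^(49/100)]`, `SS δ m` = primes in `(m^(δ/4), m^(δ/2)]`, `HH m A q` = primes in `(√q, A√q]`, `PP m A s h` = primes in `(s h, A s h]`, all not dividing `m`;
* `P3 m` = primes in `(m^(32/100), m^(33/100)]`, `XX3 m A a p1 p2` = primes in `(X, A X]`, `X = m/(2 A a p1 p2)`, not dividing `m`.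
-/

set_option autoImplicit false

namespace Pool.Agent.H78.PD

open Finset
open Pool.Agent.H34PG (lam lam_val lam_mul lam_prime)
open Pool.Agent.H11.LQ Pool.Agent.H78.PG

/-- the factorisations of the rough numbers of `RR` -/
noncomputable def PB (κ : ℝ) (m : ℕ) : Finset (ℕ × ℕ) :=
  (AP m ×ˢ BR κ m).filter (fun x => x.1 * x.2 ≤ M1 m ∧ M1 m < 16 * (x.1 * x.2))

/-- the auxiliary primes -/
noncomputable def Tt (m : ℕ) (A : ℝ) (p p0 : ℕ) : Finset ℕ :=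
  PI m ((M1 m : ℝ) / (p * p0)) (A * ((M1 m : ℝ) / (p * p0)))

/-- the large primes -/
noncomputable def QQ (δ : ℝ) (m : ℕ) : Finset ℕ := PI m ((m : ℝ) ^ δ) ((m : ℝ) ^ (49 / 100 : ℝ))

/-- the small primes -/
noncomputable def SS (δ : ℝ) (m : ℕ) : Finset ℕ := PI m ((m : ℝ) ^ (δ / 4)) ((m : ℝ) ^ (δ / 2))

/-- primes near `√q` -/
noncomputable def HH (m : ℕ) (A : ℝ) (q : ℕ) : Finset ℕ := PI m (Real.sqrt q) (A * Real.sqrt q)

/-- primes near `s h` -/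
noncomputable def PP (m : ℕ) (A : ℝ) (s h : ℕ) : Finset ℕ := PI m ((s : ℝ) * h) (A * ((s : ℝ) * h))

/-- the primes `p1, p2` of the last step -/
noncomputable def P3 (m : ℕ) : Finset ℕ := PI m ((m : ℝ) ^ (32 / 100 : ℝ)) ((m : ℝ) ^ (33 / 100 : ℝ))

/-- the primes `p3` of the last step -/
noncomputable def XX3 (m : ℕ) (A : ℝ) (a p1 p2 : ℕ) : Finset ℕ :=
  PI m ((m : ℝ) / (2 * A * a * p1 * p2)) (A * ((m : ℝ) / (2 * A * a * p1 * p2)))

open Classical in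
/-- the primes of `(m^α, m^β]` where `χ` is not `-1` -/
noncomputable def Bad (m : ℕ) (χ : DirichletCharacter ℂ m) (α β : ℝ) : Finset ℕ :=
  (PI m ((m : ℝ) ^ α) ((m : ℝ) ^ β)).filter (fun p : ℕ => χ (p : ZMod m) ≠ -1)

open Classical in
theorem mem_Bad {m : ℕ} {χ : DirichletCharacter ℂ m} {α β : ℝ} {p : ℕ} :
    p ∈ Bad m χ α β ↔ p.Prime ∧ ¬ p ∣ m ∧ (m : ℝ) ^ α < (p : ℝ) ∧ (p : ℝ) ≤ (m : ℝ) ^ β ∧
      χ (p : ZMod m) ≠ -1 := by
  unfold Bad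
  rw [mem_filter, mem_PI (by positivity), and_assoc, and_assoc, and_assoc]

end Pool.Agent.H78.PD
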