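import Pool.Agent.H78.PD.BNum

/-!
# PD, TK: Turán-Kubilius for `gB`

`A(Y) = #cop m Y = (φ/m) Y + O(E)`, `E = 2^ω(m)` (`cop_card_ge` in `PG/TCop.lean`; the upper bound is proved there as well: `tcop_est`), `W = WB m x ≥ 1`, `T = ∪ TB`, `#T ≤ aj x J`.
`∑_{n ∈ cop m (m/2)} 1 ≤ φ/2 + E`.  `∑ g = (1/W) ∑_{j, p} A(YB j)` (`n = p y`, `y ∈ cop m (YB j)`, `p YB j ≤ m/2`) `≥ (1/W) ∑ (φ/(2 aj (j+1)) - 1 - E)` and `aj (j+1) = aj j (1 + 1/H) < p (1 + 1/H)`, so
`∑ g ≥ (φ/2)/(1 + 1/H) - 2E #T/W`.  `∑ g² = (1/W²) ∑_{(j,p), (j',p')} #{n}`: for `p ≠ p'` at most `A(m/(2pp')) ≤ φ/(2pp') + E` (`pp' ∣ n`, `n ≤ m/2`), for `p = p'` (then `j = j'`)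
at most `φ/(2p) + E`; so `∑ g² ≤ (φ/2)(1 + 1/W) + E #T²/W²`.  Sum: `φ(1 - 1/(1+1/H)) + φ/(2W) + E(1 + 4#T/W + #T²/W²) ≤ φ/H + φ/(2W) + 6 E (aj x J)²`.
-/

set_option autoImplicit false

namespace Pool.Agent.H78.PD

open Finset
open Pool.Agent.H34PG (lam lam_val lam_mul lam_prime)
open Pool.Agent.H11.LQ Pool.Agent.H78.PG

/-- the numbers up to `M` divisible by no member of `P` -/
private def TK_copF (P : Finset ℕ) (M : ℕ) : Finset ℕ :=
  (Icc 1 M).filter (fun x => ∀ p ∈ P, ¬ p ∣ x)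

private theorem TK_cop_card_insert (P : Finset ℕ) (q : ℕ) (hq : q.Prime) (hP : ∀ p ∈ P, p.Prime)
    (hqP : q ∉ P) (M : ℕ) :
    (TK_copF (insert q P) M).card + (TK_copF P (M / q)).card = (TK_copF P M).card := by
  have hinj : Set.InjOn (fun y : ℕ => q * y) (TK_copF P (M / q)) := by
    intro a _ b _ h
    exact Nat.eq_of_mul_eq_mul_left hq.pos h
  rw [← card_image_of_injOn hinj, ← card_union_of_disjoint]
  · congr 1
    ext x
    simp only [TK_copF, mem_union, mem_filter, mem_Icc, mem_image, mem_insert, forall_eq_or_imp]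
    constructor
    · rintro (⟨h1, _, h3⟩ | ⟨y, ⟨⟨h1, h2⟩, h3⟩, rfl⟩)
      · exact ⟨h1, h3⟩
      · refine ⟨⟨Nat.mul_pos hq.pos h1, ?_⟩, ?_⟩
        · calc q * y ≤ q * (M / q) := Nat.mul_le_mul_left _ h2
            _ ≤ M := Nat.mul_div_le M q
        · intro p hp hd
          rcases (hP p hp).dvd_mul.mp hd with h | h
          · rw [(Nat.prime_dvd_prime_iff_eq (hP p hp) hq).mp h] at hp
            exact hqP hp
          · exact h3 p hp h
    · rintro ⟨h1, h3⟩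
      by_cases hd : q ∣ x
      · right
        obtain ⟨y, rfl⟩ := hd
        have hy : 1 ≤ y := by
          rcases Nat.eq_zero_or_pos y with h | h
          · rw [h, mul_zero] at h1
            omega
          · exact h
        refine ⟨y, ⟨⟨hy, ?_⟩, ?_⟩, rfl⟩
        · rw [Nat.le_div_iff_mul_le hq.pos, mul_comm]
          exact h1.2
        · intro p hp h
          exact h3 p hp (Dvd.dvd.mul_left h q)
      · left
        exact ⟨h1, hd, h3⟩
  · rw [Finset.disjoint_left]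
    intro x hx hx2
    simp only [TK_copF, mem_filter, mem_insert, forall_eq_or_imp, mem_image] at hx hx2
    obtain ⟨y, _, rfl⟩ := hx2
    exact hx.2.1 (Dvd.intro y rfl)

private theorem TK_cop_est (P : Finset ℕ) (hP : ∀ p ∈ P, p.Prime) :
    ∀ M : ℕ, |((TK_copF P M).card : ℝ) - M * ∏ p ∈ P, (1 - (p : ℝ)⁻¹)| ≤ 2 ^ P.card - 1 := by
  induction P using Finset.induction_on with
  | empty =>
    intro M
    simp [TK_copF]
  | insert q P hqP ih =>
    intro M
    have hq : q.Prime := hP q (mem_insert_self q P)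
    have hP' : ∀ p ∈ P, p.Prime := fun p hp => hP p (mem_insert_of_mem hp)
    have hcard := TK_cop_card_insert P q hq hP' hqP M
    have h1 := ih hP' M
    have h2 := ih hP' (M / q)
    have hc : ((TK_copF (insert q P) M).card : ℝ)
        = ((TK_copF P M).card : ℝ) - ((TK_copF P (M / q)).card : ℝ) := by
      rw [← hcard]
      push_cast
      ring
    rw [prod_insert hqP, card_insert_of_notMem hqP, hc]
    set X : ℝ := ∏ p ∈ P, (1 - (p : ℝ)⁻¹) with hX
    have hX0 : 0 ≤ X := by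
      rw [hX]
      apply prod_nonneg
      intro p hp
      have : (1 : ℝ) ≤ p := by exact_mod_cast (hP' p hp).one_lt.le
      have : (p : ℝ)⁻¹ ≤ 1 := inv_le_one_of_one_le₀ this
      linarith
    have hX1 : X ≤ 1 := by
      rw [hX]
      apply prod_le_one
      · intro p hp
        have : (1 : ℝ) ≤ p := by exact_mod_cast (hP' p hp).one_lt.le
        have : (p : ℝ)⁻¹ ≤ 1 := inv_le_one_of_one_le₀ this
        linarith
      · intro p hp
        have : (0 : ℝ) ≤ (p : ℝ)⁻¹ := by positivity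
        linarith
    have hq0 : (0 : ℝ) < q := by exact_mod_cast hq.pos
    have hfl1 : ((M / q : ℕ) : ℝ) ≤ M * (q : ℝ)⁻¹ := by
      rw [← div_eq_mul_inv]
      exact Nat.cast_div_le
    have hfl2 : (M : ℝ) * (q : ℝ)⁻¹ ≤ ((M / q : ℕ) : ℝ) + 1 := by
      rw [← div_eq_mul_inv, div_le_iff₀ hq0]
      have : M < q * (M / q + 1) := Nat.lt_mul_div_succ M hq.pos
      have h3 : (M : ℝ) ≤ (q : ℝ) * (((M / q : ℕ) : ℝ) + 1) := by exact_mod_cast this.le
      linarith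
    have hd : |((M / q : ℕ) : ℝ) * X - M * (q : ℝ)⁻¹ * X| ≤ 1 := by
      rw [← sub_mul, abs_mul, abs_of_nonneg hX0]
      have : |((M / q : ℕ) : ℝ) - M * (q : ℝ)⁻¹| ≤ 1 := by
        rw [abs_le]
        constructor <;> linarith
      calc |((M / q : ℕ) : ℝ) - M * (q : ℝ)⁻¹| * X ≤ 1 * 1 := by
            apply mul_le_mul this hX1 hX0 zero_le_one
        _ = 1 := one_mul 1
    have hpow : (2 : ℝ) ^ (P.card + 1) = 2 * 2 ^ P.card := pow_succ' 2 _
    rw [hpow]
    rw [abs_le] at h1 h2 hd ⊢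
    constructor <;> nlinarith [h1.1, h1.2, h2.1, h2.2, hd.1, hd.2]

private theorem TK_cop_card_le (m M : ℕ) (hm : 1 ≤ m) :
    ((cop m M).card : ℝ) ≤ (M : ℝ) * m.totient / m + 2 ^ (m.primeFactors.card) := by
  have hm0 : (m : ℝ) ≠ 0 := by
    have : 0 < m := hm
    exact_mod_cast this.ne'
  have heq : cop m M = TK_copF m.primeFactors M := by
    ext x
    rw [mem_cop]
    simp only [TK_copF, mem_filter, mem_Icc]
    rw [and_assoc]
    refine and_congr_right fun h1 => and_congr_right fun _ => ?_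
    constructor
    · intro hc p hp hd
      have hpp := Nat.prime_of_mem_primeFactors hp
      have hpm := Nat.dvd_of_mem_primeFactors hp
      have := Nat.dvd_gcd hd hpm
      rw [hc] at this
      exact hpp.one_lt.ne' (Nat.dvd_one.mp this)
    · intro h
      rw [Nat.coprime_iff_gcd_eq_one]
      by_contra hg
      obtain ⟨p, hp, hpd⟩ := Nat.exists_prime_and_dvd hg
      have hpx := hpd.trans (Nat.gcd_dvd_left x m)
      have hpm := hpd.trans (Nat.gcd_dvd_right x m)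
      exact h p (Nat.mem_primeFactors.mpr ⟨hp, hpm, by omega⟩) hpx
  have htot : (m.totient : ℝ) = m * ∏ p ∈ m.primeFactors, (1 - (p : ℝ)⁻¹) := by
    have h := Nat.totient_eq_mul_prod_factors m
    have h2 : ((m.totient : ℚ) : ℝ) = ((m * ∏ p ∈ m.primeFactors, (1 - (p : ℚ)⁻¹) : ℚ) : ℝ) := by
      rw [h]
    push_cast at h2
    exact h2
  have hest := TK_cop_est m.primeFactors (fun p hp => Nat.prime_of_mem_primeFactors hp) M
  rw [heq, htot]
  have h3 : (M : ℝ) * (m * ∏ p ∈ m.primeFactors, (1 - (p : ℝ)⁻¹)) / m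
      = M * ∏ p ∈ m.primeFactors, (1 - (p : ℝ)⁻¹) := by
    field_simp
  rw [h3]
  have := (abs_le.mp hest).2
  linarith

private theorem TK_alg {ι : Type*} [DecidableEq ι] (C : Finset ℕ) (I : Finset ι) (f : ι → ℕ → ℝ)
    (w : ι → ℝ) (W ph E h a : ℝ) (hW : W = ∑ i ∈ I, w i) (hW1 : 1 ≤ W) (hE : 1 ≤ E) (ha : 1 ≤ a)
    (hI : (I.card : ℝ) ≤ a) (hC : (C.card : ℝ) ≤ ph / 2 + E)
    (h1 : ∀ i ∈ I, (ph / 2 * (1 - h)) * w i - 2 * E ≤ ∑ n ∈ C, f i n)
    (h2 : ∀ i ∈ I, ∀ i' ∈ I, ∑ n ∈ C, f i n * f i' n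
      ≤ ph / 2 * (w i * w i') + E + if i = i' then ph / 2 * w i else 0) :
    ∑ n ∈ C, (1 - (1 / W) * ∑ i ∈ I, f i n) ^ 2 ≤ ph * (h + 1 / (2 * W)) + 8 * E * a ^ 2 := by
  have hW0 : 0 < W := by linarith
  have e1 : ∀ n, (1 - (1 / W) * ∑ i ∈ I, f i n) ^ 2
      = 1 - (2 / W) * ∑ i ∈ I, f i n + (1 / W ^ 2) * ∑ i ∈ I, ∑ i' ∈ I, f i n * f i' n := by
    intro n
    rw [← sum_mul_sum]
    field_simp
    ring
  have e2 : ∑ n ∈ C, (1 - (1 / W) * ∑ i ∈ I, f i n) ^ 2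
      = (C.card : ℝ) - (2 / W) * ∑ i ∈ I, ∑ n ∈ C, f i n
        + (1 / W ^ 2) * ∑ i ∈ I, ∑ i' ∈ I, ∑ n ∈ C, f i n * f i' n := by
    rw [sum_congr rfl (fun n _ => e1 n), sum_add_distrib, sum_sub_distrib, ← mul_sum, ← mul_sum]
    congr 2
    · simp
    · rw [sum_comm]
    · rw [sum_comm]
      refine sum_congr rfl fun i _ => ?_
      rw [sum_comm]
  rw [e2]
  have s1 : (ph / 2 * (1 - h)) * W - 2 * (E * a) ≤ ∑ i ∈ I, ∑ n ∈ C, f i n := by
    calc (ph / 2 * (1 - h)) * W - 2 * (E * a)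
        ≤ (ph / 2 * (1 - h)) * W - I.card * (2 * E) := by nlinarith
      _ = ∑ i ∈ I, ((ph / 2 * (1 - h)) * w i - 2 * E) := by
          rw [sum_sub_distrib, ← mul_sum, ← hW, sum_const, nsmul_eq_mul]
      _ ≤ _ := sum_le_sum h1
  have s2 : ∑ i ∈ I, ∑ i' ∈ I, ∑ n ∈ C, f i n * f i' n
      ≤ ph / 2 * W ^ 2 + E * a ^ 2 + ph / 2 * W := by
    have hIn : (0 : ℝ) ≤ I.card := Nat.cast_nonneg _
    calc ∑ i ∈ I, ∑ i' ∈ I, ∑ n ∈ C, f i n * f i' n
        ≤ ∑ i ∈ I, ∑ i' ∈ I, (ph / 2 * (w i * w i') + E + if i = i' then ph / 2 * w i else 0) :=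
          sum_le_sum fun i hi => sum_le_sum fun i' hi' => h2 i hi i' hi'
      _ = ph / 2 * W ^ 2 + I.card ^ 2 * E + ph / 2 * W := by
          have : ∀ i ∈ I, ∑ i' ∈ I, (ph / 2 * (w i * w i') + E + if i = i' then ph / 2 * w i else 0)
              = ph / 2 * W * w i + I.card * E + ph / 2 * w i := by
            intro i hi
            rw [sum_add_distrib, sum_add_distrib, ← mul_sum, ← mul_sum, ← hW, sum_const,
              nsmul_eq_mul, sum_ite_eq, if_pos hi]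
            ring
          rw [sum_congr rfl this, sum_add_distrib, sum_add_distrib, ← mul_sum, ← mul_sum,
            ← mul_sum, ← hW, sum_const, nsmul_eq_mul]
          ring
      _ ≤ _ := by
          have : (I.card : ℝ) ^ 2 ≤ a ^ 2 := by nlinarith
          nlinarith
  have t1 : ph * (1 - h) - 4 * (E * a) ≤ (2 / W) * ∑ i ∈ I, ∑ n ∈ C, f i n := by
    calc ph * (1 - h) - 4 * (E * a) ≤ ph * (1 - h) - 4 * (E * a) / W := by
          have : 4 * (E * a) / W ≤ 4 * (E * a) := div_le_self (by positivity) hW1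
          linarith
      _ = (2 / W) * ((ph / 2 * (1 - h)) * W - 2 * (E * a)) := by
          field_simp
          ring
      _ ≤ _ := mul_le_mul_of_nonneg_left s1 (by positivity)
  have t2 : (1 / W ^ 2) * ∑ i ∈ I, ∑ i' ∈ I, ∑ n ∈ C, f i n * f i' n
      ≤ ph / 2 + E * a ^ 2 + ph * (1 / (2 * W)) := by
    calc (1 / W ^ 2) * ∑ i ∈ I, ∑ i' ∈ I, ∑ n ∈ C, f i n * f i' n
        ≤ (1 / W ^ 2) * (ph / 2 * W ^ 2 + E * a ^ 2 + ph / 2 * W) :=
          mul_le_mul_of_nonneg_left s2 (by positivity)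
      _ = ph / 2 + E * a ^ 2 / W ^ 2 + ph * (1 / (2 * W)) := by
          field_simp
      _ ≤ _ := by
          have : E * a ^ 2 / W ^ 2 ≤ E * a ^ 2 := div_le_self (by positivity) (by nlinarith)
          linarith
  have t3 : E + 4 * (E * a) + E * a ^ 2 ≤ 8 * E * a ^ 2 := by
    have h1 : a ≤ a ^ 2 := by nlinarith
    have h2 : E * a ≤ E * a ^ 2 := mul_le_mul_of_nonneg_left h1 (by linarith)
    have h3 : E ≤ E * a := by nlinarith
    nlinarith
  nlinarith

private theorem TK_aj_succ (x : ℝ) (j : ℕ) : aj x (j + 1) = aj x j * (1 + 1 / (Hn x : ℝ)) := by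
  unfold aj
  rw [pow_succ]
  ring

/-- the first moment -/
private theorem TK_first (m : ℕ) (hm : 1 ≤ m) (x : ℝ) (hH : 2 ≤ Hn x) (j p : ℕ)
    (hp : p ∈ TB m x j) :
    ((m.totient : ℝ) / 2 * (1 - 1 / (Hn x : ℝ))) * (1 / (p : ℝ)) - 2 * 2 ^ m.primeFactors.card
      ≤ ∑ n ∈ cop m (m / 2), if p ∣ n ∧ n ≤ p * YB m x j then (1 : ℝ) else 0 := by
  obtain ⟨hpp, hpm, hl, hu⟩ := mem_TB.mp hp
  have hp0 : (0 : ℝ) < p := by exact_mod_cast hpp.pos
  have ha0 := aj_pos x j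
  have ha1 := aj_pos x (j + 1)
  have hm0 : (0 : ℝ) < m := by exact_mod_cast hm
  have hH0 : (0 : ℝ) < Hn x := by
    have : 0 < Hn x := by omega
    exact_mod_cast this
  -- the range
  have hY : (YB m x j : ℝ) ≤ (m : ℝ) / (2 * aj x (j + 1)) := by
    unfold YB
    exact Nat.floor_le (by positivity)
  have hpY : p * YB m x j ≤ m / 2 := by
    rw [Nat.le_div_iff_mul_le (by norm_num)]
    have : (p : ℝ) * YB m x j * 2 ≤ m := by
      calc (p : ℝ) * YB m x j * 2 ≤ aj x (j + 1) * (m / (2 * aj x (j + 1))) * 2 := by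
            gcongr
        _ = m := by field_simp
    exact_mod_cast this
  -- the count
  have hcount : ((cop m (YB m x j)).card : ℝ)
      ≤ ∑ n ∈ cop m (m / 2), if p ∣ n ∧ n ≤ p * YB m x j then (1 : ℝ) else 0 := by
    rw [← sum_filter, sum_const, nsmul_eq_mul, mul_one]
    have hinj : Set.InjOn (fun y : ℕ => p * y) (cop m (YB m x j)) := by
      intro a _ b _ h
      exact Nat.eq_of_mul_eq_mul_left hpp.pos h
    rw [← card_image_of_injOn hinj]
    norm_cast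
    apply card_le_card
    intro n hn
    rw [mem_image] at hn
    obtain ⟨y, hy, rfl⟩ := hn
    rw [mem_cop] at hy
    rw [mem_filter, mem_cop]
    refine ⟨⟨Nat.mul_pos hpp.pos hy.1, (Nat.mul_le_mul_left p hy.2.1).trans hpY, ?_⟩,
      dvd_mul_right _ _, Nat.mul_le_mul_left p hy.2.1⟩
    exact Nat.Coprime.mul_left ((Nat.Prime.coprime_iff_not_dvd hpp).mpr hpm) hy.2.2
  refine le_trans ?_ hcount
  have hge := cop_card_ge m (YB m x j) hm
  refine le_trans ?_ hge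
  have hY2 : (m : ℝ) / (2 * aj x (j + 1)) - 1 ≤ YB m x j := by
    unfold YB
    exact (Nat.sub_one_lt_floor _).le
  have hphi : (m.totient : ℝ) / m ≤ 1 := by
    rw [div_le_one hm0]
    exact_mod_cast Nat.totient_le m
  have hphi0 : (0 : ℝ) ≤ m.totient := Nat.cast_nonneg _
  have k1 : (m.totient : ℝ) / (2 * aj x (j + 1)) - 1 ≤ (YB m x j : ℝ) * m.totient / m := by
    calc (m.totient : ℝ) / (2 * aj x (j + 1)) - 1
        ≤ (m.totient : ℝ) / (2 * aj x (j + 1)) - m.totient / m := by linarith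
      _ = ((m : ℝ) / (2 * aj x (j + 1)) - 1) * (m.totient / m) := by field_simp
      _ ≤ (YB m x j : ℝ) * (m.totient / m) := by
          apply mul_le_mul_of_nonneg_right hY2
          positivity
      _ = _ := by ring
  have k2 : ((m.totient : ℝ) / 2 * (1 - 1 / (Hn x : ℝ))) * (1 / (p : ℝ))
      ≤ (m.totient : ℝ) / (2 * aj x (j + 1)) := by
    rw [TK_aj_succ]
    obtain ⟨h, hh⟩ : ∃ h : ℝ, h = 1 / (Hn x : ℝ) := ⟨_, rfl⟩
    have hh0 : 0 < h := by rw [hh]; positivity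
    rw [← hh]
    rw [mul_one_div, div_le_div_iff₀ hp0 (by positivity)]
    have q1 : (1 - h) * (1 + h) ≤ 1 := by nlinarith
    have q2 : (m.totient : ℝ) / 2 * (1 - h) * (2 * (aj x j * (1 + h)))
        = m.totient * aj x j * ((1 - h) * (1 + h)) := by ring
    rw [q2]
    calc (m.totient : ℝ) * aj x j * ((1 - h) * (1 + h)) ≤ m.totient * aj x j * 1 :=
          mul_le_mul_of_nonneg_left q1 (by positivity)
      _ ≤ m.totient * p := by
          rw [mul_one]
          exact mul_le_mul_of_nonneg_left hl.le hphi0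
  have hE : (1 : ℝ) ≤ 2 ^ m.primeFactors.card := one_le_pow₀ (by norm_num)
  linarith

/-- the number of multiples -/
private theorem TK_mult (m : ℕ) (hm : 1 ≤ m) (d : ℕ) (hd : 1 ≤ d) :
    ∑ n ∈ cop m (m / 2), (if d ∣ n then (1 : ℝ) else 0)
      ≤ (m.totient : ℝ) / 2 * (1 / (d : ℝ)) + 2 ^ m.primeFactors.card := by
  have hm0 : (0 : ℝ) < m := by exact_mod_cast hm
  have hd0 : (0 : ℝ) < d := by exact_mod_cast hd
  have hphi0 : (0 : ℝ) ≤ m.totient := Nat.cast_nonneg _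
  have hcount : ∑ n ∈ cop m (m / 2), (if d ∣ n then (1 : ℝ) else 0)
      ≤ ((cop m (m / 2 / d)).card : ℝ) := by
    rw [← sum_filter, sum_const, nsmul_eq_mul, mul_one]
    norm_cast
    have hsub : (cop m (m / 2)).filter (fun n => d ∣ n)
        ⊆ (cop m (m / 2 / d)).image (fun y => d * y) := by
      intro n hn
      rw [mem_filter, mem_cop] at hn
      obtain ⟨⟨h1, h2, h3⟩, y, rfl⟩ := hn
      rw [mem_image]
      refine ⟨y, ?_, rfl⟩
      rw [mem_cop]
      refine ⟨?_, ?_, ?_⟩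
      · rcases Nat.eq_zero_or_pos y with h | h
        · rw [h, mul_zero] at h1
          omega
        · exact h
      · rw [Nat.le_div_iff_mul_le hd, mul_comm]
        exact h2
      · exact Nat.Coprime.coprime_mul_left h3
    exact (card_le_card hsub).trans card_image_le
  refine hcount.trans ((TK_cop_card_le m _ hm).trans ?_)
  have h1 : ((m / 2 / d : ℕ) : ℝ) ≤ (m : ℝ) / 2 / d := by
    calc ((m / 2 / d : ℕ) : ℝ) ≤ ((m / 2 : ℕ) : ℝ) / d := Nat.cast_div_le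
      _ ≤ (m : ℝ) / 2 / d := by
          have : ((m / 2 : ℕ) : ℝ) ≤ (m : ℝ) / (2 : ℕ) := Nat.cast_div_le
          push_cast at this
          gcongr
  have h2 : ((m / 2 / d : ℕ) : ℝ) * m.totient / m ≤ (m.totient : ℝ) / 2 * (1 / (d : ℝ)) := by
    calc ((m / 2 / d : ℕ) : ℝ) * m.totient / m ≤ ((m : ℝ) / 2 / d) * m.totient / m := by
          gcongr
      _ = _ := by field_simp
  linarith

/-- the blocks are disjoint -/
private theorem TK_disj (m : ℕ) (x : ℝ) (j j' p : ℕ) (h : p ∈ TB m x j) (h' : p ∈ TB m x j') :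
    j = j' := by
  obtain ⟨_, _, hl, hu⟩ := mem_TB.mp h
  obtain ⟨_, _, hl', hu'⟩ := mem_TB.mp h'
  by_contra hne
  rcases Nat.lt_or_gt_of_ne hne with hlt | hlt
  · have := aj_mono x (show j + 1 ≤ j' by omega)
    linarith
  · have := aj_mono x (show j' + 1 ≤ j by omega)
    linarith

/-- the second moment -/
private theorem TK_second (m : ℕ) (hm : 1 ≤ m) (x : ℝ) (j p j' p' : ℕ)
    (hp : p ∈ TB m x j) (hp' : p' ∈ TB m x j') :
    ∑ n ∈ cop m (m / 2), (if p ∣ n ∧ n ≤ p * YB m x j then (1 : ℝ) else 0)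
        * (if p' ∣ n ∧ n ≤ p' * YB m x j' then (1 : ℝ) else 0)
      ≤ (m.totient : ℝ) / 2 * (1 / (p : ℝ) * (1 / (p' : ℝ))) + 2 ^ m.primeFactors.card
        + if (⟨j, p⟩ : Σ _ : ℕ, ℕ) = ⟨j', p'⟩ then (m.totient : ℝ) / 2 * (1 / (p : ℝ)) else 0 := by
  obtain ⟨hpp, hpm, hl, hu⟩ := mem_TB.mp hp
  obtain ⟨hpp', hpm', hl', hu'⟩ := mem_TB.mp hp'
  have hphi0 : (0 : ℝ) ≤ m.totient := Nat.cast_nonneg _
  have hp0 : (0 : ℝ) < p := by exact_mod_cast hpp.pos
  have hp0' : (0 : ℝ) < p' := by exact_mod_cast hpp'.pos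
  by_cases he : p = p'
  · subst he
    have hj := TK_disj m x j j' p hp hp'
    subst hj
    rw [if_pos rfl]
    have h1 := TK_mult m hm p hpp.pos
    have h2 : ∑ n ∈ cop m (m / 2), (if p ∣ n ∧ n ≤ p * YB m x j then (1 : ℝ) else 0)
        * (if p ∣ n ∧ n ≤ p * YB m x j then (1 : ℝ) else 0)
        ≤ ∑ n ∈ cop m (m / 2), (if p ∣ n then (1 : ℝ) else 0) := by
      refine sum_le_sum fun n _ => ?_
      by_cases hd : p ∣ n
      · rw [if_pos hd]
        split_ifs <;> norm_num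
      · rw [if_neg hd, if_neg (fun hh => hd hh.1)]
        norm_num
    have h3 : 0 ≤ (m.totient : ℝ) / 2 * (1 / (p : ℝ) * (1 / (p : ℝ))) := by positivity
    linarith
  · rw [if_neg (fun hh => he (by
      have := congrArg Sigma.snd hh
      exact this))]
    have h1 := TK_mult m hm (p * p') (Nat.mul_pos hpp.pos hpp'.pos)
    have h2 : ∑ n ∈ cop m (m / 2), (if p ∣ n ∧ n ≤ p * YB m x j then (1 : ℝ) else 0)
        * (if p' ∣ n ∧ n ≤ p' * YB m x j' then (1 : ℝ) else 0)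
        ≤ ∑ n ∈ cop m (m / 2), (if p * p' ∣ n then (1 : ℝ) else 0) := by
      refine sum_le_sum fun n _ => ?_
      by_cases hd : p ∣ n
      · by_cases hd' : p' ∣ n
        · have : p * p' ∣ n :=
            Nat.Coprime.mul_dvd_of_dvd_of_dvd ((Nat.coprime_primes hpp hpp').mpr he) hd hd'
          rw [if_pos this]
          split_ifs <;> norm_num
        · rw [if_neg (fun hh => hd' hh.1 : ¬ (p' ∣ n ∧ n ≤ p' * YB m x j')), mul_zero]
          split_ifs <;> norm_num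
      · rw [if_neg (fun hh => hd hh.1 : ¬ (p ∣ n ∧ n ≤ p * YB m x j)), zero_mul]
        split_ifs <;> norm_num
    have h3 : (m.totient : ℝ) / 2 * (1 / ((p * p' : ℕ) : ℝ))
        = (m.totient : ℝ) / 2 * (1 / (p : ℝ) * (1 / (p' : ℝ))) := by
      push_cast
      field_simp
    linarith

theorem tk (m : ℕ) [NeZero m] (x : ℝ) (hx : 3 ≤ x) (hH : 2 ≤ Hn x) (hW : 1 ≤ WB m x) :
    ∑ n ∈ cop m (m / 2), (1 - gB m x n) ^ 2
      ≤ m.totient * (1 / (Hn x : ℝ) + 1 / (2 * WB m x))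
        + 8 * 2 ^ m.primeFactors.card * aj x (Jn x) ^ 2 := by
  have hm : 1 ≤ m := Nat.one_le_iff_ne_zero.mpr (NeZero.ne m)
  have hm0 : (0 : ℝ) < m := by exact_mod_cast hm
  have hphi0 : (0 : ℝ) ≤ m.totient := Nat.cast_nonneg _
  obtain ⟨I, hI⟩ : ∃ I : Finset (Σ _ : ℕ, ℕ), I = (range (Jn x)).sigma (fun j => TB m x j) :=
    ⟨_, rfl⟩
  obtain ⟨f, hf⟩ : ∃ f : (Σ _ : ℕ, ℕ) → ℕ → ℝ, f = fun i n =>
    if i.2 ∣ n ∧ n ≤ i.2 * YB m x i.1 then (1 : ℝ) else 0 := ⟨_, rfl⟩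
  have hg : ∀ n, gB m x n = (1 / WB m x) * ∑ i ∈ I, f i n := by
    intro n
    unfold gB
    rw [hI, hf, sum_sigma]
  have hWs : WB m x = ∑ i ∈ I, 1 / ((i.2 : ℕ) : ℝ) := by
    unfold WB
    rw [hI, sum_sigma]
  have hcard : (I.card : ℝ) ≤ aj x (Jn x) := by
    have := TB_card m x
    rw [hI, card_sigma]
    exact this
  have ha : 1 ≤ aj x (Jn x) := by
    unfold aj
    have h1 : (1 : ℝ) ≤ Real.exp x := Real.one_le_exp (by linarith)
    have h2 : (1 : ℝ) ≤ (1 + 1 / (Hn x : ℝ)) ^ Jn x := by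
      apply one_le_pow₀
      have : (0 : ℝ) ≤ 1 / (Hn x : ℝ) := by positivity
      linarith
    nlinarith
  have hE : (1 : ℝ) ≤ 2 ^ m.primeFactors.card := one_le_pow₀ (by norm_num)
  have hC : ((cop m (m / 2)).card : ℝ) ≤ (m.totient : ℝ) / 2 + 2 ^ m.primeFactors.card := by
    refine (TK_cop_card_le m _ hm).trans ?_
    have h0 : ((m / 2 : ℕ) : ℝ) ≤ (m : ℝ) / (2 : ℕ) := Nat.cast_div_le
    push_cast at h0
    have h2 : ((m / 2 : ℕ) : ℝ) * m.totient / m ≤ (m.totient : ℝ) / 2 := by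
      calc ((m / 2 : ℕ) : ℝ) * m.totient / m ≤ ((m : ℝ) / 2) * m.totient / m := by
            gcongr
        _ = _ := by field_simp
    linarith
  rw [sum_congr rfl (fun n _ => by rw [hg n])]
  refine TK_alg (cop m (m / 2)) I f (fun i => 1 / ((i.2 : ℕ) : ℝ)) (WB m x) (m.totient : ℝ)
    (2 ^ m.primeFactors.card) (1 / (Hn x : ℝ)) (aj x (Jn x)) hWs hW hE ha hcard hC ?_ ?_
  · rintro ⟨j, p⟩ hi
    rw [hI, mem_sigma] at hi
    rw [hf]
    exact TK_first m hm x hH j p hi.2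
  · rintro ⟨j, p⟩ hi ⟨j', p'⟩ hi'
    rw [hI, mem_sigma] at hi hi'
    rw [hf]
    exact TK_second m hm x j p j' p' hi.2 hi'.2

end Pool.Agent.H78.PD
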